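import Pool.Agent.Helper54.FM.Onto

set_option autoImplicit false

/-! Project FM (helper54), MP_e6aa12_ag: one certificate per row is enough.  Let `W` be the sum of
the row space and of the kernel of the conditions.  If `x ^ n_c ζ ^ c ∈ W` for every row `c < C`
then `x W ⊆ W`, so `W` contains all `x ^ j ζ ^ c`, `c < C`. -/

open Polynomial

namespace Pool.Agent.Helper54.FM

open Pool.Agent.Helper41.Fat

variable {K : Type*} [Field K]

theorem cond_mul {r m : ℕ} (a : K[X]) {P : K[X][X]} (h : P ∈ cond K r m) : C a * P ∈ cond K r m := by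
  intro j hj
  rw [coeff_C_mul]
  exact dvd_mul_of_dvd_right (h j hj) a

/-- **One certificate per row.** -/
theorem good_of_hypx {r m N : ℕ} {n : ℕ → ℕ} (η : K[X]) (hN : m ≤ N) (hn : ∀ c, N ≤ c → n c = 0)
    (H : ∀ c < N, ∃ P : K[X][X], taylor η P ∈ cond K r m ∧
      P - C (X ^ n c) * X ^ c ∈ rows K n) :
    Good K r m n (r * (m + 1).choose 2) := by
  classical
  let ker : Submodule K K[X][X] := Submodule.comap ((taylor η).restrictScalars K) (cond K r m)
  have hker : ∀ P : K[X][X], P ∈ ker ↔ taylor η P ∈ cond K r m := fun P => Iff.rfl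
  -- the sum
  let W : Submodule K K[X][X] := rows K n ⊔ ker
  have hx0 : ∀ c < N, (C (X ^ n c) * X ^ c : K[X][X]) ∈ W := by
    intro c hc
    obtain ⟨P, h1, h2⟩ := H c hc
    have e : (C (X ^ n c) * X ^ c : K[X][X]) = P - (P - C (X ^ n c) * X ^ c) := by ring
    rw [e]
    exact W.sub_mem (Submodule.mem_sup_right ((hker P).2 h1)) (Submodule.mem_sup_left h2)
  -- multiplication by `x` of a row
  have hrow : ∀ c < N, ∀ a : K[X], a ∈ degreeLT K (n c + 1) → (C a * X ^ c : K[X][X]) ∈ W := by
    intro c hc a ha
    have h1 : a = (a - C (a.coeff (n c)) * X ^ n c) + C (a.coeff (n c)) * X ^ n c := by ring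
    have h2 : a - C (a.coeff (n c)) * X ^ n c ∈ degreeLT K (n c) := by
      rw [mem_degreeLT, degree_lt_iff_coeff_zero]
      intro s hs
      rw [coeff_sub, coeff_C_mul_X_pow]
      by_cases h : s = n c
      · rw [if_pos h, h, sub_self]
      · rw [if_neg h, sub_zero]
        rw [mem_degreeLT, degree_lt_iff_coeff_zero] at ha
        exact ha s (by omega)
    have e : (C a * X ^ c : K[X][X]) = C (a - C (a.coeff (n c)) * X ^ n c) * X ^ c +
        a.coeff (n c) • (C (X ^ n c) * X ^ c : K[X][X]) := by
      conv_lhs => rw [h1]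
      rw [C_add, add_mul, smul_eq_CC, C_mul]
      ring
    rw [e]
    exact W.add_mem (Submodule.mem_sup_left (mono_mem_rows h2)) (W.smul_mem _ (hx0 c hc))
  have hxW : ∀ P ∈ W, C X * P ∈ W := by
    intro P hP
    obtain ⟨w, hw, k, hk, rfl⟩ := Submodule.mem_sup.1 hP
    rw [mul_add]
    apply W.add_mem
    · have e : (C X * w : K[X][X]) = ∑ c ∈ Finset.range N, C (X * w.coeff c) * X ^ c := by
        have hdeg : w.natDegree < N ∨ w = 0 := by
          by_cases h0 : w = 0
          · exact Or.inr h0
          · left
            by_contra hcon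
            have h1 := hw w.natDegree
            rw [hn _ (not_lt.1 hcon), mem_degreeLT] at h1
            have h2 : w.coeff w.natDegree = 0 := by
              by_contra h3
              rw [degree_eq_natDegree h3] at h1
              have h4 : ((w.coeff w.natDegree).natDegree : WithBot ℕ) < ((0 : ℕ) : WithBot ℕ) := h1
              rw [Nat.cast_lt] at h4
              omega
            exact h0 (leadingCoeff_eq_zero.1 h2)
        rcases hdeg with h | h
        · conv_lhs => rw [w.as_sum_range' N h, Finset.mul_sum]
          apply Finset.sum_congr rfl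
          intro c _
          rw [← C_mul_X_pow_eq_monomial, ← mul_assoc, ← C_mul]
        · subst h
          rw [mul_zero]
          symm
          apply Finset.sum_eq_zero
          intro c _
          rw [coeff_zero, mul_zero, C_0, zero_mul]
      rw [e]
      apply W.sum_mem
      intro c hc
      apply hrow c (Finset.mem_range.1 hc)
      have h1 := hw c
      rw [mem_degreeLT, degree_lt_iff_coeff_zero] at h1 ⊢
      intro s hs
      obtain ⟨s, rfl⟩ : ∃ s', s = s' + 1 := ⟨s - 1, by omega⟩
      rw [coeff_X_mul]
      exact h1 s (by omega)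
    · apply Submodule.mem_sup_right
      rw [hker] at hk ⊢
      rw [taylor_mul, taylor_C]
      exact cond_mul X hk
  -- all monomials
  have hall : ∀ c < N, ∀ j, (C (X ^ j) * X ^ c : K[X][X]) ∈ W := by
    intro c hc j
    induction j with
    | zero =>
      rcases Nat.eq_zero_or_pos (n c) with h | h
      · have := hx0 c hc
        rwa [h] at this
      · apply Submodule.mem_sup_left
        apply mono_mem_rows
        rw [mem_degreeLT, degree_X_pow]
        exact_mod_cast h
    | succ j ih =>
      have h1 := hxW _ ih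
      have e : (C X * (C (X ^ j) * X ^ c) : K[X][X]) = C (X ^ (j + 1)) * X ^ c := by
        rw [← mul_assoc, ← C_mul, ← pow_succ']
      rwa [e] at h1
  apply good_of_hyp η
  intro c hc j _ _
  obtain ⟨w, hw, k, hk, hwk⟩ := Submodule.mem_sup.1 (hall c (by omega) j)
  refine ⟨k, (hker k).1 hk, ?_⟩
  have e : k - C (X ^ j) * X ^ c = -w := by
    rw [← hwk]; ring
  rw [e]
  exact Submodule.neg_mem _ hw

end Pool.Agent.Helper54.FM
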