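import Pool.Agent.Helper54.FM.Fast3
import Pool.Agent.Helper54.FM.KC6

set_option autoImplicit false
set_option maxRecDepth 100000
set_option linter.defProp false

/-! Project FM (helper54), MP_e6aa12_ag: r = 14..17, m <= 50 (generated). -/

namespace Pool.Agent.Helper54.FM

def t14_2_8 : V3.chw 14 2 8 4 [] = true := by
  decide +kernel

def t14_3_11 : V3.chw 14 3 11 4 [] = true := by
  decide +kernel

def t14_3_12 : V3.chw 14 3 12 4 [] = true := by
  decide +kernel

def t14_4_15 : V3.chw 14 4 15 2 [3, 1] = true := by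
  decide +kernel

def t14_4_16 : V3.chw 14 4 16 4 [] = true := by
  decide +kernel

def t14_5_19 : V3.chw 14 5 19 2 [1, 1, 1010, 1] = true := by
  decide +kernel

def t14_6_22 : V3.chw 14 6 22 3 [2] = true := by
  decide +kernel

def t14_6_23 : V3.chw 14 6 23 2 [1, 3] = true := by
  decide +kernel

def t14_7_26 : V3.chw 14 7 26 2 [3, 1] = true := by
  decide +kernel

def t14_7_27 : V3.chw 14 7 27 3 [2] = true := by
  decide +kernel

def t14_8_30 : V3.chw 14 8 30 2 [3, 1] = true := by
  decide +kernel

def t14_8_31 : V3.chw 14 8 31 3 [2] = true := by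
  decide +kernel

def t14_9_34 : V3.chw 14 9 34 2 [1, 1007, 1, 1010, 1011, 1] = true := by
  decide +kernel

def t14_10_37 : V3.chw 14 10 37 2 [3, 1] = true := by
  decide +kernel

def t14_10_38 : V3.chw 14 10 38 2 [3, 1] = true := by
  decide +kernel

def t14_11_41 : V3.chw 14 11 41 2 [3, 1] = true := by
  decide +kernel

def t14_11_42 : V3.chw 14 11 42 2 [1, 3] = true := by
  decide +kernel

def t14_12_45 : V3.chw 14 12 45 2 [1, 1008, 1012] = true := by
  decide +kernel

def t14_12_46 : V3.chw 14 12 46 3 [2] = true := by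
  decide +kernel

def t14_13_48 : V3.chw 14 13 48 2 [3, 1] = true := by
  decide +kernel

def t14_13_49 : V3.chw 14 13 49 2 [1, 1007, 1, 1010, 1011, 1] = true := by
  decide +kernel

def t14_14_52 : V3.chw 14 14 52 2 [3, 1] = true := by
  decide +kernel

def t14_14_53 : V3.chw 14 14 53 2 [3, 1012, 1013] = true := by
  decide +kernel

def t14_15_56 : V3.chw 14 15 56 2 [3, 1013] = true := by
  decide +kernel

def t14_15_57 : V3.chw 14 15 57 2 [3, 1] = true := by
  decide +kernel

def t14_16_60 : V3.chw 14 16 60 2 [1, 1008, 1012] = true := by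
  decide +kernel

def t14_16_61 : V3.chw 14 16 61 2 [1, 3] = true := by
  decide +kernel

def t14_17_63 : V3.chw 14 17 63 2 [3, 1] = true := by
  decide +kernel

def t14_17_64 : V3.chw 14 17 64 2 [1, 1007, 1008, 1009, 1, 1012, 1013] = true := by
  decide +kernel

def t14_18_67 : V3.chw 14 18 67 2 [3, 1013] = true := by
  decide +kernel

def t14_18_68 : V3.chw 14 18 68 2 [1, 1008, 1012] = true := by
  decide +kernel

def t14_19_71 : V3.chw 14 19 71 2 [1, 1008, 1012] = true := by
  decide +kernel

def t14_19_72 : V3.chw 14 19 72 2 [3, 1013] = true := by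
  decide +kernel

def t14_20_75 : V3.chw 14 20 75 2 [1, 1008, 1012] = true := by
  decide +kernel

def t14_20_76 : V3.chw 14 20 76 2 [3, 1] = true := by
  decide +kernel

def t14_21_78 : V3.chw 14 21 78 2 [3, 1] = true := by
  decide +kernel

def t14_21_79 : V3.chw 14 21 79 2 [1, 1007, 1, 1, 1012, 1013] = true := by
  decide +kernel

def t14_22_82 : V3.chw 14 22 82 2 [3, 1013] = true := by
  decide +kernel

def t14_22_83 : V3.chw 14 22 83 2 [1, 1008, 1012] = true := by
  decide +kernel

def t14_23_86 : V3.chw 14 23 86 2 [1, 1008, 1012] = true := by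
  decide +kernel

def t14_23_87 : V3.chw 14 23 87 2 [3, 1013] = true := by
  decide +kernel

def t14_24_90 : V3.chw 14 24 90 2 [1, 1008, 1010, 1012] = true := by
  decide +kernel

def t14_24_91 : V3.chw 14 24 91 2 [3, 1] = true := by
  decide +kernel

def t14_25_93 : V3.chw 14 25 93 2 [3, 1013] = true := by
  decide +kernel

def t14_25_94 : V3.chw 14 25 94 2 [1, 1007, 1008, 1, 1012] = true := by
  decide +kernel

def t14_26_97 : V3.chw 14 26 97 2 [1, 1008, 1012] = true := by
  decide +kernel

def t14_26_98 : V3.chw 14 26 98 2 [1, 1008, 1012] = true := by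
  decide +kernel

def t14_27_101 : V3.chw 14 27 101 2 [1, 1008, 1012] = true := by
  decide +kernel

def t14_27_102 : V3.chw 14 27 102 2 [3, 1012, 1013] = true := by
  decide +kernel

def t14_28_105 : V3.chw 14 28 105 2 [1, 1007, 1008, 1009, 1, 1012, 1013] = true := by
  decide +kernel

def t14_28_106 : V3.chw 14 28 106 2 [3, 1013] = true := by
  decide +kernel

def t14_29_108 : V3.chw 14 29 108 2 [3, 1013] = true := by
  decide +kernel

def t14_29_109 : V3.chw 14 29 109 2 [1, 1, 1010, 1] = true := by
  decide +kernel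

def t14_30_112 : V3.chw 14 30 112 2 [1, 1008, 1012] = true := by
  decide +kernel

def t14_30_113 : V3.chw 14 30 113 2 [1, 1008, 1012] = true := by
  decide +kernel

def t14_31_116 : V3.chw 14 31 116 2 [1, 1, 1010, 1] = true := by
  decide +kernel

def t14_31_117 : V3.chw 14 31 117 2 [1, 1008, 1012] = true := by
  decide +kernel

def t14_32_120 : V3.chw 14 32 120 2 [1, 1007, 1, 1, 1012, 1013] = true := by
  decide +kernel

def t14_32_121 : V3.chw 14 32 121 2 [3, 1013] = true := by
  decide +kernel

def t14_33_123 : V3.chw 14 33 123 2 [1, 1008, 1012] = true := by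
  decide +kernel

def t14_33_124 : V3.chw 14 33 124 2 [1, 1007, 1008, 1, 1012] = true := by
  decide +kernel

def t14_34_127 : V3.chw 14 34 127 2 [1, 1008, 1012] = true := by
  decide +kernel

def t14_34_128 : V3.chw 14 34 128 2 [1, 1008, 1012] = true := by
  decide +kernel

def t14_35_131 : V3.chw 14 35 131 2 [1, 1008, 1010, 1012] = true := by
  decide +kernel

def t14_35_132 : V3.chw 14 35 132 2 [1, 1008, 1012] = true := by
  decide +kernel

def t14_36_135 : V3.chw 14 36 135 2 [1, 1007, 1, 1010, 1011, 1012, 1013] = true := by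
  decide +kernel

def t14_36_136 : V3.chw 14 36 136 2 [3, 1013] = true := by
  decide +kernel

def t14_37_138 : V3.chw 14 37 138 2 [1, 1008, 1012] = true := by
  decide +kernel

def t14_37_139 : V3.chw 14 37 139 2 [1, 1, 1010, 1] = true := by
  decide +kernel

def t14_38_142 : V3.chw 14 38 142 2 [1, 1008, 1012] = true := by
  decide +kernel

def t14_38_143 : V3.chw 14 38 143 2 [1, 1008, 1012] = true := by
  decide +kernel

def t14_39_146 : V3.chw 14 39 146 2 [1, 1, 1010, 1] = true := by
  decide +kernel

def t14_39_147 : V3.chw 14 39 147 2 [1, 1008, 1012] = true := by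
  decide +kernel

def t14_40_151 : V3.chw 14 40 151 2 [3, 1012, 1013] = true := by
  decide +kernel

def t14_41_153 : V3.chw 14 41 153 2 [1, 1008, 1012] = true := by
  decide +kernel

def t14_41_154 : V3.chw 14 41 154 2 [1, 1, 1010, 1] = true := by
  decide +kernel

def t14_42_157 : V3.chw 14 42 157 2 [1, 1008, 1012] = true := by
  decide +kernel

def t14_42_158 : V3.chw 14 42 158 2 [1, 1008, 1012] = true := by
  decide +kernel

def t14_43_161 : V3.chw 14 43 161 2 [1, 1, 1010, 1] = true := by
  decide +kernel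

def t14_43_162 : V3.chw 14 43 162 2 [1, 1008, 1012] = true := by
  decide +kernel

def t14_44_164 : V3.chw 14 44 164 2 [1, 1008, 1012] = true := by
  decide +kernel

def t14_45_168 : V3.chw 14 45 168 2 [1, 1008, 1012] = true := by
  decide +kernel

def t14_45_169 : V3.chw 14 45 169 2 [1, 1007, 1008, 1, 1012] = true := by
  decide +kernel

def t14_46_172 : V3.chw 14 46 172 2 [1, 1008, 1012] = true := by
  decide +kernel

def t14_46_173 : V3.chw 14 46 173 2 [1, 1008, 1012] = true := by
  decide +kernel

def t14_47_176 : V3.chw 14 47 176 2 [1, 1007, 1008, 1, 1012] = true := by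
  decide +kernel

def t14_47_177 : V3.chw 14 47 177 2 [1, 1008, 1012] = true := by
  decide +kernel

def t14_48_179 : V3.chw 14 48 179 2 [1, 1008, 1012] = true := by
  decide +kernel

def t14_49_183 : V3.chw 14 49 183 2 [1, 1008, 1012] = true := by
  decide +kernel

def t14_49_184 : V3.chw 14 49 184 2 [1, 1, 1010, 1] = true := by
  decide +kernel

def t14_50_187 : V3.chw 14 50 187 2 [1, 1008, 1012] = true := by
  decide +kernel

def t14_50_188 : V3.chw 14 50 188 2 [1, 1008, 1012] = true := by
  decide +kernel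

theorem R14 {K : Type*} [Field K] [CharZero K] (m d : ℕ) (h : m ≤ 50) : MR K 14 m d := by
  interval_cases m
  · exact good_cova 2 (by decide +kernel) d
  · exact good_cova 2 (by decide +kernel) d
  · exact crit 7 (by decide +kernel) (good_covd 2 (by decide +kernel)) (V3.good_chw _ _ t14_2_8) d
  · exact crit 11 (by decide +kernel) (V3.good_chw _ _ t14_3_11) (V3.good_chw _ _ t14_3_12) d
  · exact crit 15 (by decide +kernel) (V3.good_chw _ _ t14_4_15) (V3.good_chw _ _ t14_4_16) d
  · exact crit0 19 (by decide +kernel) (V3.good_chw _ _ t14_5_19) d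
  · exact crit 22 (by decide +kernel) (V3.good_chw _ _ t14_6_22) (V3.good_chw _ _ t14_6_23) d
  · exact crit 26 (by decide +kernel) (V3.good_chw _ _ t14_7_26) (V3.good_chw _ _ t14_7_27) d
  · exact crit 30 (by decide +kernel) (V3.good_chw _ _ t14_8_30) (V3.good_chw _ _ t14_8_31) d
  · exact crit0 34 (by decide +kernel) (V3.good_chw _ _ t14_9_34) d
  · exact crit 37 (by decide +kernel) (V3.good_chw _ _ t14_10_37) (V3.good_chw _ _ t14_10_38) d
  · exact crit 41 (by decide +kernel) (V3.good_chw _ _ t14_11_41) (V3.good_chw _ _ t14_11_42) d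
  · exact crit 45 (by decide +kernel) (V3.good_chw _ _ t14_12_45) (V3.good_chw _ _ t14_12_46) d
  · exact crit 48 (by decide +kernel) (V3.good_chw _ _ t14_13_48) (V3.good_chw _ _ t14_13_49) d
  · exact crit 52 (by decide +kernel) (V3.good_chw _ _ t14_14_52) (V3.good_chw _ _ t14_14_53) d
  · exact crit 56 (by decide +kernel) (V3.good_chw _ _ t14_15_56) (V3.good_chw _ _ t14_15_57) d
  · exact crit 60 (by decide +kernel) (V3.good_chw _ _ t14_16_60) (V3.good_chw _ _ t14_16_61) d
  · exact crit 63 (by decide +kernel) (V3.good_chw _ _ t14_17_63) (V3.good_chw _ _ t14_17_64) d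
  · exact crit 67 (by decide +kernel) (V3.good_chw _ _ t14_18_67) (V3.good_chw _ _ t14_18_68) d
  · exact crit 71 (by decide +kernel) (V3.good_chw _ _ t14_19_71) (V3.good_chw _ _ t14_19_72) d
  · exact crit 75 (by decide +kernel) (V3.good_chw _ _ t14_20_75) (V3.good_chw _ _ t14_20_76) d
  · exact crit 78 (by decide +kernel) (V3.good_chw _ _ t14_21_78) (V3.good_chw _ _ t14_21_79) d
  · exact crit 82 (by decide +kernel) (V3.good_chw _ _ t14_22_82) (V3.good_chw _ _ t14_22_83) d
  · exact crit 86 (by decide +kernel) (V3.good_chw _ _ t14_23_86) (V3.good_chw _ _ t14_23_87) d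
  · exact crit 90 (by decide +kernel) (V3.good_chw _ _ t14_24_90) (V3.good_chw _ _ t14_24_91) d
  · exact crit 93 (by decide +kernel) (V3.good_chw _ _ t14_25_93) (V3.good_chw _ _ t14_25_94) d
  · exact crit 97 (by decide +kernel) (V3.good_chw _ _ t14_26_97) (V3.good_chw _ _ t14_26_98) d
  · exact crit 101 (by decide +kernel) (V3.good_chw _ _ t14_27_101) (V3.good_chw _ _ t14_27_102) d
  · exact crit 105 (by decide +kernel) (V3.good_chw _ _ t14_28_105) (V3.good_chw _ _ t14_28_106) d
  · exact crit 108 (by decide +kernel) (V3.good_chw _ _ t14_29_108) (V3.good_chw _ _ t14_29_109) d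
  · exact crit 112 (by decide +kernel) (V3.good_chw _ _ t14_30_112) (V3.good_chw _ _ t14_30_113) d
  · exact crit 116 (by decide +kernel) (V3.good_chw _ _ t14_31_116) (V3.good_chw _ _ t14_31_117) d
  · exact crit 120 (by decide +kernel) (V3.good_chw _ _ t14_32_120) (V3.good_chw _ _ t14_32_121) d
  · exact crit 123 (by decide +kernel) (V3.good_chw _ _ t14_33_123) (V3.good_chw _ _ t14_33_124) d
  · exact crit 127 (by decide +kernel) (V3.good_chw _ _ t14_34_127) (V3.good_chw _ _ t14_34_128) d
  · exact crit 131 (by decide +kernel) (V3.good_chw _ _ t14_35_131) (V3.good_chw _ _ t14_35_132) d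
  · exact crit 135 (by decide +kernel) (V3.good_chw _ _ t14_36_135) (V3.good_chw _ _ t14_36_136) d
  · exact crit 138 (by decide +kernel) (V3.good_chw _ _ t14_37_138) (V3.good_chw _ _ t14_37_139) d
  · exact crit 142 (by decide +kernel) (V3.good_chw _ _ t14_38_142) (V3.good_chw _ _ t14_38_143) d
  · exact crit 146 (by decide +kernel) (V3.good_chw _ _ t14_39_146) (V3.good_chw _ _ t14_39_147) d
  · exact crit 150 (by decide +kernel) K14m40d150.good (V3.good_chw _ _ t14_40_151) d
  · exact crit 153 (by decide +kernel) (V3.good_chw _ _ t14_41_153) (V3.good_chw _ _ t14_41_154) d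
  · exact crit 157 (by decide +kernel) (V3.good_chw _ _ t14_42_157) (V3.good_chw _ _ t14_42_158) d
  · exact crit 161 (by decide +kernel) (V3.good_chw _ _ t14_43_161) (V3.good_chw _ _ t14_43_162) d
  · exact crit 164 (by decide +kernel) (V3.good_chw _ _ t14_44_164) K14m44d165.good d
  · exact crit 168 (by decide +kernel) (V3.good_chw _ _ t14_45_168) (V3.good_chw _ _ t14_45_169) d
  · exact crit 172 (by decide +kernel) (V3.good_chw _ _ t14_46_172) (V3.good_chw _ _ t14_46_173) d
  · exact crit 176 (by decide +kernel) (V3.good_chw _ _ t14_47_176) (V3.good_chw _ _ t14_47_177) d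
  · exact crit 179 (by decide +kernel) (V3.good_chw _ _ t14_48_179) K14m48d180.good d
  · exact crit 183 (by decide +kernel) (V3.good_chw _ _ t14_49_183) (V3.good_chw _ _ t14_49_184) d
  · exact crit 187 (by decide +kernel) (V3.good_chw _ _ t14_50_187) (V3.good_chw _ _ t14_50_188) d

def t15_7_27 : V3.chw 15 7 27 3 [2, 1] = true := by
  decide +kernel

def t15_7_28 : V3.chw 15 7 28 3 [3] = true := by
  decide +kernel

def t15_8_31 : V3.chw 15 8 31 3 [1, 1, 1] = true := by
  decide +kernel

def t15_8_32 : V3.chw 15 8 32 3 [3] = true := by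
  decide +kernel

def t15_9_35 : V3.chw 15 9 35 3 [1, 1, 1] = true := by
  decide +kernel

def t15_9_36 : V3.chw 15 9 36 3 [3] = true := by
  decide +kernel

def t15_10_39 : V3.chw 15 10 39 2 [1, 2, 1, 1] = true := by
  decide +kernel

def t15_10_40 : V3.chw 15 10 40 3 [3] = true := by
  decide +kernel

def t15_12_46 : V3.chw 15 12 46 3 [2, 1] = true := by
  decide +kernel

def t15_12_47 : V3.chw 15 12 47 3 [1, 1012, 1] = true := by
  decide +kernel

def t15_13_50 : V3.chw 15 13 50 3 [2, 1] = true := by
  decide +kernel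

def t15_13_51 : V3.chw 15 13 51 3 [1, 1, 1] = true := by
  decide +kernel

def t15_14_54 : V3.chw 15 14 54 3 [1, 1, 1] = true := by
  decide +kernel

def t15_14_55 : V3.chw 15 14 55 2 [1, 2, 2] = true := by
  decide +kernel

def t15_15_58 : V3.chw 15 15 58 3 [1, 1, 1] = true := by
  decide +kernel

def t15_15_59 : V3.chw 15 15 59 2 [1, 2, 2] = true := by
  decide +kernel

def t15_16_62 : V3.chw 15 16 62 3 [1, 1, 1] = true := by
  decide +kernel

def t15_16_63 : V3.chw 15 16 63 3 [1, 2] = true := by
  decide +kernel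

def t15_17_66 : V3.chw 15 17 66 2 [1, 1, 1, 2] = true := by
  decide +kernel

def t15_17_67 : V3.chw 15 17 67 3 [1, 2] = true := by
  decide +kernel

def t15_18_70 : V3.chw 15 18 70 3 [1, 1012, 1] = true := by
  decide +kernel

def t15_18_71 : V3.chw 15 18 71 3 [1, 2] = true := by
  decide +kernel

def t15_19_74 : V3.chw 15 19 74 3 [1, 1012, 1013, 1014] = true := by
  decide +kernel

def t15_20_77 : V3.chw 15 20 77 3 [1, 1, 1] = true := by
  decide +kernel

def t15_20_78 : V3.chw 15 20 78 3 [1, 1012, 1] = true := by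
  decide +kernel

def t15_21_81 : V3.chw 15 21 81 2 [1, 2, 2] = true := by
  decide +kernel

def t15_21_82 : V3.chw 15 21 82 2 [1, 1, 2, 1] = true := by
  decide +kernel

def t15_22_85 : V3.chw 15 22 85 2 [1, 2, 1, 1] = true := by
  decide +kernel

def t15_22_86 : V3.chw 15 22 86 2 [1, 1, 1, 2] = true := by
  decide +kernel

def t15_23_89 : V3.chw 15 23 89 2 [1, 2, 1, 1] = true := by
  decide +kernel

def t15_23_90 : V3.chw 15 23 90 2 [1, 1, 1, 2] = true := by
  decide +kernel

def t15_24_93 : V3.chw 15 24 93 2 [1, 2, 1, 1] = true := by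
  decide +kernel

def t15_24_94 : V3.chw 15 24 94 2 [1, 1, 1, 2] = true := by
  decide +kernel

def t15_25_97 : V3.chw 15 25 97 3 [1, 1012, 1] = true := by
  decide +kernel

def t15_25_98 : V3.chw 15 25 98 2 [1, 2, 2] = true := by
  decide +kernel

def t15_26_101 : V3.chw 15 26 101 3 [1, 1012, 1] = true := by
  decide +kernel

def t15_26_102 : V3.chw 15 26 102 2 [1, 2, 2] = true := by
  decide +kernel

def t15_27_104 : V3.chw 15 27 104 2 [1, 2, 2] = true := by
  decide +kernel

def t15_27_105 : V3.chw 15 27 105 3 [1, 1012, 1013, 1014] = true := by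
  decide +kernel

def t15_28_108 : V3.chw 15 28 108 2 [1, 2, 1, 1] = true := by
  decide +kernel

def t15_28_109 : V3.chw 15 28 109 3 [1, 1012, 1] = true := by
  decide +kernel

def t15_29_112 : V3.chw 15 29 112 2 [1, 2, 1, 1] = true := by
  decide +kernel

def t15_29_113 : V3.chw 15 29 113 2 [1, 1, 2, 1] = true := by
  decide +kernel

def t15_30_116 : V3.chw 15 30 116 2 [1, 2, 1, 1] = true := by
  decide +kernel

def t15_30_117 : V3.chw 15 30 117 2 [1, 1, 1, 2] = true := by
  decide +kernel

def t15_31_120 : V3.chw 15 31 120 2 [1, 2, 1, 1] = true := by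
  decide +kernel

def t15_31_121 : V3.chw 15 31 121 2 [1, 1, 1, 2] = true := by
  decide +kernel

def t15_32_124 : V3.chw 15 32 124 2 [1, 2, 1, 1] = true := by
  decide +kernel

def t15_32_125 : V3.chw 15 32 125 2 [1, 1, 1, 2] = true := by
  decide +kernel

def t15_33_128 : V3.chw 15 33 128 3 [1, 1012, 1] = true := by
  decide +kernel

def t15_33_129 : V3.chw 15 33 129 2 [1, 1, 1, 2] = true := by
  decide +kernel

def t15_34_132 : V3.chw 15 34 132 3 [1, 1012, 1013, 1014] = true := by
  decide +kernel

def t15_34_133 : V3.chw 15 34 133 2 [1, 1, 1, 2] = true := by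
  decide +kernel

def t15_35_135 : V3.chw 15 35 135 2 [1, 2, 1, 1] = true := by
  decide +kernel

def t15_36_139 : V3.chw 15 36 139 2 [1, 1, 2, 1] = true := by
  decide +kernel

def t15_36_140 : V3.chw 15 36 140 3 [1, 1012, 1013, 1014] = true := by
  decide +kernel

def t15_37_143 : V3.chw 15 37 143 2 [1, 2, 1, 1] = true := by
  decide +kernel

def t15_37_144 : V3.chw 15 37 144 2 [1, 2, 1, 1] = true := by
  decide +kernel

def t15_38_147 : V3.chw 15 38 147 2 [1, 2, 1, 1] = true := by
  decide +kernel

def t15_38_148 : V3.chw 15 38 148 2 [1, 2, 1, 1] = true := by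
  decide +kernel

def t15_39_151 : V3.chw 15 39 151 2 [1, 2, 1, 1] = true := by
  decide +kernel

def t15_39_152 : V3.chw 15 39 152 2 [1, 1, 1, 2] = true := by
  decide +kernel

def t15_40_155 : V3.chw 15 40 155 2 [1, 2, 1, 1] = true := by
  decide +kernel

def t15_40_156 : V3.chw 15 40 156 2 [1, 1, 1, 2] = true := by
  decide +kernel

def t15_41_159 : V3.chw 15 41 159 3 [1, 1012, 1] = true := by
  decide +kernel

def t15_41_160 : V3.chw 15 41 160 2 [1, 1, 1, 2] = true := by
  decide +kernel

def t15_42_163 : V3.chw 15 42 163 2 [1, 1009, 1013, 1014] = true := by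
  decide +kernel

def t15_42_164 : V3.chw 15 42 164 2 [1, 2, 1, 1] = true := by
  decide +kernel

def t15_43_166 : V3.chw 15 43 166 3 [1, 1012, 1] = true := by
  decide +kernel

def t15_44_170 : V3.chw 15 44 170 3 [1, 1012, 1] = true := by
  decide +kernel

def t15_44_171 : V3.chw 15 44 171 3 [1, 1012, 1] = true := by
  decide +kernel

def t15_45_174 : V3.chw 15 45 174 3 [1, 1012, 1] = true := by
  decide +kernel

def t15_45_175 : V3.chw 15 45 175 3 [1, 1012, 1] = true := by
  decide +kernel

def t15_46_178 : V3.chw 15 46 178 3 [1, 1012, 1] = true := by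
  decide +kernel

def t15_46_179 : V3.chw 15 46 179 2 [1, 1007, 3] = true := by
  decide +kernel

def t15_47_182 : V3.chw 15 47 182 3 [1, 1012, 1] = true := by
  decide +kernel

def t15_47_183 : V3.chw 15 47 183 2 [1, 1007, 3] = true := by
  decide +kernel

def t15_48_186 : V3.chw 15 48 186 3 [1, 1012, 1] = true := by
  decide +kernel

def t15_48_187 : V3.chw 15 48 187 2 [1, 1007, 3] = true := by
  decide +kernel

def t15_49_190 : V3.chw 15 49 190 3 [1, 1012, 1] = true := by
  decide +kernel

def t15_49_191 : V3.chw 15 49 191 2 [1, 1007, 3] = true := by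
  decide +kernel

def t15_50_195 : V3.chw 15 50 195 2 [1, 1007, 3] = true := by
  decide +kernel

theorem R15 {K : Type*} [Field K] [CharZero K] (m d : ℕ) (h : m ≤ 50) : MR K 15 m d := by
  interval_cases m
  · exact good_cova 3 (by decide +kernel) d
  · exact good_cova 3 (by decide +kernel) d
  · exact good_cova 3 (by decide +kernel) d
  · exact good_cova 3 (by decide +kernel) d
  · exact good_cova 3 (by decide +kernel) d
  · exact good_cova 3 (by decide +kernel) d
  · exact good_cova 3 (by decide +kernel) d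
  · exact crit 27 (by decide +kernel) (V3.good_chw _ _ t15_7_27) (V3.good_chw _ _ t15_7_28) d
  · exact crit 31 (by decide +kernel) (V3.good_chw _ _ t15_8_31) (V3.good_chw _ _ t15_8_32) d
  · exact crit 35 (by decide +kernel) (V3.good_chw _ _ t15_9_35) (V3.good_chw _ _ t15_9_36) d
  · exact crit 39 (by decide +kernel) (V3.good_chw _ _ t15_10_39) (V3.good_chw _ _ t15_10_40) d
  · exact crit0 43 (by decide +kernel) K15m11d43.good d
  · exact crit 46 (by decide +kernel) (V3.good_chw _ _ t15_12_46) (V3.good_chw _ _ t15_12_47) d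
  · exact crit 50 (by decide +kernel) (V3.good_chw _ _ t15_13_50) (V3.good_chw _ _ t15_13_51) d
  · exact crit 54 (by decide +kernel) (V3.good_chw _ _ t15_14_54) (V3.good_chw _ _ t15_14_55) d
  · exact crit 58 (by decide +kernel) (V3.good_chw _ _ t15_15_58) (V3.good_chw _ _ t15_15_59) d
  · exact crit 62 (by decide +kernel) (V3.good_chw _ _ t15_16_62) (V3.good_chw _ _ t15_16_63) d
  · exact crit 66 (by decide +kernel) (V3.good_chw _ _ t15_17_66) (V3.good_chw _ _ t15_17_67) d
  · exact crit 70 (by decide +kernel) (V3.good_chw _ _ t15_18_70) (V3.good_chw _ _ t15_18_71) d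
  · exact crit0 74 (by decide +kernel) (V3.good_chw _ _ t15_19_74) d
  · exact crit 77 (by decide +kernel) (V3.good_chw _ _ t15_20_77) (V3.good_chw _ _ t15_20_78) d
  · exact crit 81 (by decide +kernel) (V3.good_chw _ _ t15_21_81) (V3.good_chw _ _ t15_21_82) d
  · exact crit 85 (by decide +kernel) (V3.good_chw _ _ t15_22_85) (V3.good_chw _ _ t15_22_86) d
  · exact crit 89 (by decide +kernel) (V3.good_chw _ _ t15_23_89) (V3.good_chw _ _ t15_23_90) d
  · exact crit 93 (by decide +kernel) (V3.good_chw _ _ t15_24_93) (V3.good_chw _ _ t15_24_94) d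
  · exact crit 97 (by decide +kernel) (V3.good_chw _ _ t15_25_97) (V3.good_chw _ _ t15_25_98) d
  · exact crit 101 (by decide +kernel) (V3.good_chw _ _ t15_26_101) (V3.good_chw _ _ t15_26_102) d
  · exact crit 104 (by decide +kernel) (V3.good_chw _ _ t15_27_104) (V3.good_chw _ _ t15_27_105) d
  · exact crit 108 (by decide +kernel) (V3.good_chw _ _ t15_28_108) (V3.good_chw _ _ t15_28_109) d
  · exact crit 112 (by decide +kernel) (V3.good_chw _ _ t15_29_112) (V3.good_chw _ _ t15_29_113) d
  · exact crit 116 (by decide +kernel) (V3.good_chw _ _ t15_30_116) (V3.good_chw _ _ t15_30_117) d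
  · exact crit 120 (by decide +kernel) (V3.good_chw _ _ t15_31_120) (V3.good_chw _ _ t15_31_121) d
  · exact crit 124 (by decide +kernel) (V3.good_chw _ _ t15_32_124) (V3.good_chw _ _ t15_32_125) d
  · exact crit 128 (by decide +kernel) (V3.good_chw _ _ t15_33_128) (V3.good_chw _ _ t15_33_129) d
  · exact crit 132 (by decide +kernel) (V3.good_chw _ _ t15_34_132) (V3.good_chw _ _ t15_34_133) d
  · exact crit 135 (by decide +kernel) (V3.good_chw _ _ t15_35_135) K15m35d136.good d
  · exact crit 139 (by decide +kernel) (V3.good_chw _ _ t15_36_139) (V3.good_chw _ _ t15_36_140) d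
  · exact crit 143 (by decide +kernel) (V3.good_chw _ _ t15_37_143) (V3.good_chw _ _ t15_37_144) d
  · exact crit 147 (by decide +kernel) (V3.good_chw _ _ t15_38_147) (V3.good_chw _ _ t15_38_148) d
  · exact crit 151 (by decide +kernel) (V3.good_chw _ _ t15_39_151) (V3.good_chw _ _ t15_39_152) d
  · exact crit 155 (by decide +kernel) (V3.good_chw _ _ t15_40_155) (V3.good_chw _ _ t15_40_156) d
  · exact crit 159 (by decide +kernel) (V3.good_chw _ _ t15_41_159) (V3.good_chw _ _ t15_41_160) d
  · exact crit 163 (by decide +kernel) (V3.good_chw _ _ t15_42_163) (V3.good_chw _ _ t15_42_164) d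
  · exact crit 166 (by decide +kernel) (V3.good_chw _ _ t15_43_166) K15m43d167.good d
  · exact crit 170 (by decide +kernel) (V3.good_chw _ _ t15_44_170) (V3.good_chw _ _ t15_44_171) d
  · exact crit 174 (by decide +kernel) (V3.good_chw _ _ t15_45_174) (V3.good_chw _ _ t15_45_175) d
  · exact crit 178 (by decide +kernel) (V3.good_chw _ _ t15_46_178) (V3.good_chw _ _ t15_46_179) d
  · exact crit 182 (by decide +kernel) (V3.good_chw _ _ t15_47_182) (V3.good_chw _ _ t15_47_183) d
  · exact crit 186 (by decide +kernel) (V3.good_chw _ _ t15_48_186) (V3.good_chw _ _ t15_48_187) d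
  · exact crit 190 (by decide +kernel) (V3.good_chw _ _ t15_49_190) (V3.good_chw _ _ t15_49_191) d
  · exact crit 194 (by decide +kernel) K15m50d194.good (V3.good_chw _ _ t15_50_195) d

theorem R16 {K : Type*} [Field K] [CharZero K] (m d : ℕ) (h : m ≤ 50) : MR K 16 m d := by
  interval_cases m
  · exact good_cova 4 (by decide +kernel) d
  · exact good_cova 4 (by decide +kernel) d
  · exact good_cova 4 (by decide +kernel) d
  · exact good_cova 4 (by decide +kernel) d
  · exact good_cova 4 (by decide +kernel) d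
  · exact good_cova 4 (by decide +kernel) d
  · exact good_cova 4 (by decide +kernel) d
  · exact good_cova 4 (by decide +kernel) d
  · exact good_cova 4 (by decide +kernel) d
  · exact good_cova 4 (by decide +kernel) d
  · exact good_cova 4 (by decide +kernel) d
  · exact good_cova 4 (by decide +kernel) d
  · exact good_cova 4 (by decide +kernel) d
  · exact good_cova 4 (by decide +kernel) d
  · exact good_cova 4 (by decide +kernel) d
  · exact good_cova 4 (by decide +kernel) d
  · exact good_cova 4 (by decide +kernel) d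
  · exact good_cova 4 (by decide +kernel) d
  · exact good_cova 4 (by decide +kernel) d
  · exact good_cova 4 (by decide +kernel) d
  · exact good_cova 4 (by decide +kernel) d
  · exact good_cova 4 (by decide +kernel) d
  · exact good_cova 4 (by decide +kernel) d
  · exact good_cova 4 (by decide +kernel) d
  · exact good_cova 4 (by decide +kernel) d
  · exact good_cova 4 (by decide +kernel) d
  · exact good_cova 4 (by decide +kernel) d
  · exact good_cova 4 (by decide +kernel) d
  · exact good_cova 4 (by decide +kernel) d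
  · exact good_cova 4 (by decide +kernel) d
  · exact good_cova 4 (by decide +kernel) d
  · exact good_cova 4 (by decide +kernel) d
  · exact good_cova 4 (by decide +kernel) d
  · exact good_cova 4 (by decide +kernel) d
  · exact good_cova 4 (by decide +kernel) d
  · exact good_cova 4 (by decide +kernel) d
  · exact good_cova 4 (by decide +kernel) d
  · exact good_cova 4 (by decide +kernel) d
  · exact good_cova 4 (by decide +kernel) d
  · exact good_cova 4 (by decide +kernel) d
  · exact good_cova 4 (by decide +kernel) d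
  · exact good_cova 4 (by decide +kernel) d
  · exact good_cova 4 (by decide +kernel) d
  · exact good_cova 4 (by decide +kernel) d
  · exact good_cova 4 (by decide +kernel) d
  · exact good_cova 4 (by decide +kernel) d
  · exact good_cova 4 (by decide +kernel) d
  · exact good_cova 4 (by decide +kernel) d
  · exact good_cova 4 (by decide +kernel) d
  · exact good_cova 4 (by decide +kernel) d
  · exact good_cova 4 (by decide +kernel) d

def t17_7_29 : V3.chw 17 7 29 3 [2, 2] = true := by
  decide +kernel

def t17_7_30 : V3.chw 17 7 30 2 [1, 4] = true := by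
  decide +kernel

def t17_8_33 : V3.chw 17 8 33 3 [2, 2] = true := by
  decide +kernel

def t17_8_34 : V3.chw 17 8 34 2 [1, 4] = true := by
  decide +kernel

def t17_9_37 : V3.chw 17 9 37 2 [3, 2] = true := by
  decide +kernel

def t17_9_38 : V3.chw 17 9 38 2 [1, 4] = true := by
  decide +kernel

def t17_10_41 : V3.chw 17 10 41 2 [3, 2] = true := by
  decide +kernel

def t17_10_42 : V3.chw 17 10 42 2 [1, 4] = true := by
  decide +kernel

def t17_11_45 : V3.chw 17 11 45 2 [3, 2] = true := by
  decide +kernel

def t17_11_46 : V3.chw 17 11 46 2 [1, 1, 1, 1, 2] = true := by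
  decide +kernel

def t17_12_50 : V3.chw 17 12 50 3 [1, 1012, 1013, 1014, 1] = true := by
  decide +kernel

def t17_13_54 : V3.chw 17 13 54 2 [1, 2, 1, 1, 1] = true := by
  decide +kernel

def t17_13_55 : V3.chw 17 13 55 2 [1, 4] = true := by
  decide +kernel

def t17_14_58 : V3.chw 17 14 58 2 [1, 1, 1, 2, 1] = true := by
  decide +kernel

def t17_14_59 : V3.chw 17 14 59 2 [1, 4] = true := by
  decide +kernel

def t17_15_62 : V3.chw 17 15 62 3 [1, 1, 1, 1] = true := by
  decide +kernel

def t17_15_63 : V3.chw 17 15 63 2 [1, 4] = true := by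
  decide +kernel

def t17_16_66 : V3.chw 17 16 66 2 [1, 1, 2, 2] = true := by
  decide +kernel

def t17_16_67 : V3.chw 17 16 67 2 [1, 4] = true := by
  decide +kernel

def t17_17_70 : V3.chw 17 17 70 3 [1, 1, 1, 1] = true := by
  decide +kernel

def t17_17_71 : V3.chw 17 17 71 2 [1, 4] = true := by
  decide +kernel

def t17_18_74 : V3.chw 17 18 74 2 [1, 2, 2, 1] = true := by
  decide +kernel

def t17_18_75 : V3.chw 17 18 75 2 [1, 1, 2, 1, 1] = true := by
  decide +kernel

def t17_19_78 : V3.chw 17 19 78 2 [1, 2, 2, 1] = true := by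
  decide +kernel

def t17_19_79 : V3.chw 17 19 79 2 [1, 1, 2, 1, 1] = true := by
  decide +kernel

def t17_20_83 : V3.chw 17 20 83 3 [1, 1012, 1013, 1014, 1015, 1016] = true := by
  decide +kernel

def t17_21_87 : V3.chw 17 21 87 2 [1, 1, 1, 2, 1] = true := by
  decide +kernel

def t17_21_88 : V3.chw 17 21 88 2 [1, 4] = true := by
  decide +kernel

def t17_22_91 : V3.chw 17 22 91 2 [1, 1, 1, 2, 1] = true := by
  decide +kernel

def t17_22_92 : V3.chw 17 22 92 2 [1, 4] = true := by
  decide +kernel

def t17_23_95 : V3.chw 17 23 95 2 [1, 1, 1, 2, 1] = true := by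
  decide +kernel

def t17_23_96 : V3.chw 17 23 96 2 [1, 4] = true := by
  decide +kernel

def t17_24_99 : V3.chw 17 24 99 2 [1, 1, 1, 1, 2] = true := by
  decide +kernel

def t17_24_100 : V3.chw 17 24 100 2 [1, 4] = true := by
  decide +kernel

def t17_25_103 : V3.chw 17 25 103 2 [1, 1, 1, 1, 2] = true := by
  decide +kernel

def t17_25_104 : V3.chw 17 25 104 2 [1, 1, 1, 2, 1] = true := by
  decide +kernel

def t17_26_107 : V3.chw 17 26 107 2 [1, 1, 2, 2] = true := by
  decide +kernel

def t17_26_108 : V3.chw 17 26 108 2 [1, 2, 1, 1, 1] = true := by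
  decide +kernel

def t17_27_111 : V3.chw 17 27 111 2 [1, 2, 1, 2] = true := by
  decide +kernel

def t17_27_112 : V3.chw 17 27 112 2 [1, 1, 2, 1, 1] = true := by
  decide +kernel

def t17_28_115 : V3.chw 17 28 115 2 [1, 2, 1, 2] = true := by
  decide +kernel

def t17_28_116 : V3.chw 17 28 116 3 [1, 1012, 1, 1015, 1016] = true := by
  decide +kernel

def t17_29_120 : V3.chw 17 29 120 3 [1, 1012, 1, 1016] = true := by
  decide +kernel

def t17_29_121 : V3.chw 17 29 121 2 [1, 4] = true := by
  decide +kernel

def t17_30_124 : V3.chw 17 30 124 2 [1, 1, 1, 2, 1] = true := by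
  decide +kernel

def t17_30_125 : V3.chw 17 30 125 2 [1, 4] = true := by
  decide +kernel

def t17_31_128 : V3.chw 17 31 128 2 [1, 1, 1, 2, 1] = true := by
  decide +kernel

def t17_31_129 : V3.chw 17 31 129 2 [1, 1, 2, 2] = true := by
  decide +kernel

def t17_32_132 : V3.chw 17 32 132 2 [1, 1, 1, 1, 2] = true := by
  decide +kernel

def t17_32_133 : V3.chw 17 32 133 2 [1, 1, 1, 1, 2] = true := by
  decide +kernel

def t17_33_136 : V3.chw 17 33 136 2 [1, 1, 1, 2, 1] = true := by
  decide +kernel

def t17_33_137 : V3.chw 17 33 137 2 [1, 1, 1, 2, 1] = true := by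
  decide +kernel

def t17_34_140 : V3.chw 17 34 140 2 [1, 1, 1, 1, 2] = true := by
  decide +kernel

def t17_34_141 : V3.chw 17 34 141 3 [1, 1, 1015] = true := by
  decide +kernel

def t17_35_144 : V3.chw 17 35 144 2 [1, 1, 1, 2, 1] = true := by
  decide +kernel

def t17_35_145 : V3.chw 17 35 145 2 [1, 2, 1012, 1015] = true := by
  decide +kernel

def t17_36_148 : V3.chw 17 36 148 2 [1, 1, 1, 1, 2] = true := by
  decide +kernel

def t17_36_149 : V3.chw 17 36 149 2 [1, 1009, 1, 1015, 1016] = true := by
  decide +kernel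

def t17_37_153 : V3.chw 17 37 153 3 [1, 1012, 1, 1015, 1016] = true := by
  decide +kernel

def t17_37_154 : V3.chw 17 37 154 2 [1, 1, 2, 2] = true := by
  decide +kernel

def t17_38_157 : V3.chw 17 38 157 3 [1, 1012, 1, 1016] = true := by
  decide +kernel

def t17_38_158 : V3.chw 17 38 158 2 [1, 1, 1, 1, 2] = true := by
  decide +kernel

def t17_39_161 : V3.chw 17 39 161 2 [1, 1, 1, 2, 1] = true := by
  decide +kernel

def t17_39_162 : V3.chw 17 39 162 2 [1, 1, 1, 1, 2] = true := by
  decide +kernel

def t17_40_165 : V3.chw 17 40 165 2 [1, 1, 1, 2, 1] = true := by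
  decide +kernel

def t17_40_166 : V3.chw 17 40 166 2 [1, 1, 1, 1, 2] = true := by
  decide +kernel

def t17_41_169 : V3.chw 17 41 169 2 [1, 1, 1, 2, 1] = true := by
  decide +kernel

def t17_41_170 : V3.chw 17 41 170 2 [1, 1, 1, 2, 1] = true := by
  decide +kernel

def t17_42_173 : V3.chw 17 42 173 2 [1, 1, 1, 1, 2] = true := by
  decide +kernel

def t17_42_174 : V3.chw 17 42 174 2 [1, 1, 1, 2, 1] = true := by
  decide +kernel

def t17_43_177 : V3.chw 17 43 177 2 [1, 1008, 3] = true := by
  decide +kernel

def t17_43_178 : V3.chw 17 43 178 3 [1, 1012, 1, 1016] = true := by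
  decide +kernel

def t17_44_181 : V3.chw 17 44 181 2 [1, 1008, 3] = true := by
  decide +kernel

def t17_44_182 : V3.chw 17 44 182 3 [1, 1012, 1, 1015, 1016] = true := by
  decide +kernel

def t17_45_186 : V3.chw 17 45 186 2 [1, 1009, 1, 1015, 1016] = true := by
  decide +kernel

def t17_45_187 : V3.chw 17 45 187 2 [1, 1, 1012] = true := by
  decide +kernel

def t17_46_190 : V3.chw 17 46 190 3 [1, 1012, 1, 1016] = true := by
  decide +kernel

def t17_46_191 : V3.chw 17 46 191 2 [1, 1, 1012] = true := by
  decide +kernel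

def t17_47_194 : V3.chw 17 47 194 3 [1, 1, 1015] = true := by
  decide +kernel

def t17_47_195 : V3.chw 17 47 195 3 [1, 1, 1015] = true := by
  decide +kernel

def t17_48_198 : V3.chw 17 48 198 3 [1, 1, 1015] = true := by
  decide +kernel

def t17_48_199 : V3.chw 17 48 199 3 [1, 1, 1015] = true := by
  decide +kernel

def t17_49_202 : V3.chw 17 49 202 3 [1, 1, 1015] = true := by
  decide +kernel

def t17_49_203 : V3.chw 17 49 203 3 [1, 1, 1015] = true := by
  decide +kernel

def t17_50_206 : V3.chw 17 50 206 3 [1, 1, 1015] = true := by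
  decide +kernel

def t17_50_207 : V3.chw 17 50 207 3 [1, 1, 1015] = true := by
  decide +kernel

theorem R17 {K : Type*} [Field K] [CharZero K] (m d : ℕ) (h : m ≤ 50) : MR K 17 m d := by
  interval_cases m
  · exact good_cova 3 (by decide +kernel) d
  · exact good_cova 3 (by decide +kernel) d
  · exact good_cova 3 (by decide +kernel) d
  · exact good_cova 3 (by decide +kernel) d
  · exact good_cova 3 (by decide +kernel) d
  · exact good_cova 3 (by decide +kernel) d
  · exact good_cova 3 (by decide +kernel) d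
  · exact crit 29 (by decide +kernel) (V3.good_chw _ _ t17_7_29) (V3.good_chw _ _ t17_7_30) d
  · exact crit 33 (by decide +kernel) (V3.good_chw _ _ t17_8_33) (V3.good_chw _ _ t17_8_34) d
  · exact crit 37 (by decide +kernel) (V3.good_chw _ _ t17_9_37) (V3.good_chw _ _ t17_9_38) d
  · exact crit 41 (by decide +kernel) (V3.good_chw _ _ t17_10_41) (V3.good_chw _ _ t17_10_42) d
  · exact crit 45 (by decide +kernel) (V3.good_chw _ _ t17_11_45) (V3.good_chw _ _ t17_11_46) d
  · exact crit0 50 (by decide +kernel) (V3.good_chw _ _ t17_12_50) d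
  · exact crit 54 (by decide +kernel) (V3.good_chw _ _ t17_13_54) (V3.good_chw _ _ t17_13_55) d
  · exact crit 58 (by decide +kernel) (V3.good_chw _ _ t17_14_58) (V3.good_chw _ _ t17_14_59) d
  · exact crit 62 (by decide +kernel) (V3.good_chw _ _ t17_15_62) (V3.good_chw _ _ t17_15_63) d
  · exact crit 66 (by decide +kernel) (V3.good_chw _ _ t17_16_66) (V3.good_chw _ _ t17_16_67) d
  · exact crit 70 (by decide +kernel) (V3.good_chw _ _ t17_17_70) (V3.good_chw _ _ t17_17_71) d
  · exact crit 74 (by decide +kernel) (V3.good_chw _ _ t17_18_74) (V3.good_chw _ _ t17_18_75) d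
  · exact crit 78 (by decide +kernel) (V3.good_chw _ _ t17_19_78) (V3.good_chw _ _ t17_19_79) d
  · exact crit0 83 (by decide +kernel) (V3.good_chw _ _ t17_20_83) d
  · exact crit 87 (by decide +kernel) (V3.good_chw _ _ t17_21_87) (V3.good_chw _ _ t17_21_88) d
  · exact crit 91 (by decide +kernel) (V3.good_chw _ _ t17_22_91) (V3.good_chw _ _ t17_22_92) d
  · exact crit 95 (by decide +kernel) (V3.good_chw _ _ t17_23_95) (V3.good_chw _ _ t17_23_96) d
  · exact crit 99 (by decide +kernel) (V3.good_chw _ _ t17_24_99) (V3.good_chw _ _ t17_24_100) d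
  · exact crit 103 (by decide +kernel) (V3.good_chw _ _ t17_25_103) (V3.good_chw _ _ t17_25_104) d
  · exact crit 107 (by decide +kernel) (V3.good_chw _ _ t17_26_107) (V3.good_chw _ _ t17_26_108) d
  · exact crit 111 (by decide +kernel) (V3.good_chw _ _ t17_27_111) (V3.good_chw _ _ t17_27_112) d
  · exact crit 115 (by decide +kernel) (V3.good_chw _ _ t17_28_115) (V3.good_chw _ _ t17_28_116) d
  · exact crit 120 (by decide +kernel) (V3.good_chw _ _ t17_29_120) (V3.good_chw _ _ t17_29_121) d
  · exact crit 124 (by decide +kernel) (V3.good_chw _ _ t17_30_124) (V3.good_chw _ _ t17_30_125) d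
  · exact crit 128 (by decide +kernel) (V3.good_chw _ _ t17_31_128) (V3.good_chw _ _ t17_31_129) d
  · exact crit 132 (by decide +kernel) (V3.good_chw _ _ t17_32_132) (V3.good_chw _ _ t17_32_133) d
  · exact crit 136 (by decide +kernel) (V3.good_chw _ _ t17_33_136) (V3.good_chw _ _ t17_33_137) d
  · exact crit 140 (by decide +kernel) (V3.good_chw _ _ t17_34_140) (V3.good_chw _ _ t17_34_141) d
  · exact crit 144 (by decide +kernel) (V3.good_chw _ _ t17_35_144) (V3.good_chw _ _ t17_35_145) d
  · exact crit 148 (by decide +kernel) (V3.good_chw _ _ t17_36_148) (V3.good_chw _ _ t17_36_149) d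
  · exact crit 153 (by decide +kernel) (V3.good_chw _ _ t17_37_153) (V3.good_chw _ _ t17_37_154) d
  · exact crit 157 (by decide +kernel) (V3.good_chw _ _ t17_38_157) (V3.good_chw _ _ t17_38_158) d
  · exact crit 161 (by decide +kernel) (V3.good_chw _ _ t17_39_161) (V3.good_chw _ _ t17_39_162) d
  · exact crit 165 (by decide +kernel) (V3.good_chw _ _ t17_40_165) (V3.good_chw _ _ t17_40_166) d
  · exact crit 169 (by decide +kernel) (V3.good_chw _ _ t17_41_169) (V3.good_chw _ _ t17_41_170) d
  · exact crit 173 (by decide +kernel) (V3.good_chw _ _ t17_42_173) (V3.good_chw _ _ t17_42_174) d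
  · exact crit 177 (by decide +kernel) (V3.good_chw _ _ t17_43_177) (V3.good_chw _ _ t17_43_178) d
  · exact crit 181 (by decide +kernel) (V3.good_chw _ _ t17_44_181) (V3.good_chw _ _ t17_44_182) d
  · exact crit 186 (by decide +kernel) (V3.good_chw _ _ t17_45_186) (V3.good_chw _ _ t17_45_187) d
  · exact crit 190 (by decide +kernel) (V3.good_chw _ _ t17_46_190) (V3.good_chw _ _ t17_46_191) d
  · exact crit 194 (by decide +kernel) (V3.good_chw _ _ t17_47_194) (V3.good_chw _ _ t17_47_195) d
  · exact crit 198 (by decide +kernel) (V3.good_chw _ _ t17_48_198) (V3.good_chw _ _ t17_48_199) d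
  · exact crit 202 (by decide +kernel) (V3.good_chw _ _ t17_49_202) (V3.good_chw _ _ t17_49_203) d
  · exact crit 206 (by decide +kernel) (V3.good_chw _ _ t17_50_206) (V3.good_chw _ _ t17_50_207) d

end Pool.Agent.Helper54.FM
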