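import Pool.Agent.Helper54.FM.Fast3
import Pool.Agent.Helper54.FM.KC10
import Pool.Agent.Helper54.FM.KC9

set_option autoImplicit false
set_option maxRecDepth 100000
set_option linter.defProp false

/-! Project FM (helper54), MP_e6aa12_ag: r = 59..72, m <= 50 (generated). -/

namespace Pool.Agent.Helper54.FM

def t59_45_347 : V3.chw 59 45 347 5 [12, 2] = true := by
  decide +kernel

def t59_45_348 : V3.chw 59 45 348 2 [1, 2, 2, 1015, 1016, 1018, 1022, 1, 1027, 2, 1033, 1034, 1036, 1037, 1039, 1040, 1041, 1043, 2, 1049, 1051, 1053, 1054, 1055, 1056, 1] = true := by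
  decide +kernel

def t59_46_355 : V3.chw 59 46 355 5 [12, 2] = true := by
  decide +kernel

def t59_46_356 : V3.chw 59 46 356 7 [2, 1056] = true := by
  decide +kernel

def t59_47_363 : V3.chw 59 47 363 7 [2, 1056] = true := by
  decide +kernel

def t59_47_364 : V3.chw 59 47 364 3 [14] = true := by
  decide +kernel

def t59_48_371 : V3.chw 59 48 371 3 [11, 5, 1056, 1] = true := by
  decide +kernel

def t59_48_372 : V3.chw 59 48 372 3 [14] = true := by
  decide +kernel

def t59_49_378 : V3.chw 59 49 378 5 [12, 2] = true := by
  decide +kernel

def t59_49_379 : V3.chw 59 49 379 7 [2, 1056] = true := by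
  decide +kernel

def t59_50_386 : V3.chw 59 50 386 7 [2, 1056] = true := by
  decide +kernel

def t59_50_387 : V3.chw 59 50 387 2 [7, 12] = true := by
  decide +kernel

theorem R59 {K : Type*} [Field K] [CharZero K] (m d : ℕ) (h : m ≤ 50) : MR K 59 m d := by
  interval_cases m
  · exact good_cova 7 (by decide +kernel) d
  · exact good_cova 7 (by decide +kernel) d
  · exact good_cova 7 (by decide +kernel) d
  · exact good_cova 7 (by decide +kernel) d
  · exact good_cova 7 (by decide +kernel) d
  · exact good_cova 7 (by decide +kernel) d
  · exact good_cova 7 (by decide +kernel) d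
  · exact good_cova 7 (by decide +kernel) d
  · exact good_cova 7 (by decide +kernel) d
  · exact good_cova 7 (by decide +kernel) d
  · exact good_cova 7 (by decide +kernel) d
  · exact good_cova 7 (by decide +kernel) d
  · exact good_cova 7 (by decide +kernel) d
  · exact good_cova 7 (by decide +kernel) d
  · exact good_cova 7 (by decide +kernel) d
  · exact good_cova 7 (by decide +kernel) d
  · exact good_cova 7 (by decide +kernel) d
  · exact good_cova 7 (by decide +kernel) d
  · exact good_cova 7 (by decide +kernel) d
  · exact good_cova 7 (by decide +kernel) d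
  · exact good_cova 7 (by decide +kernel) d
  · exact good_cova 7 (by decide +kernel) d
  · exact good_cova 7 (by decide +kernel) d
  · exact good_cova 7 (by decide +kernel) d
  · exact good_cova 7 (by decide +kernel) d
  · exact good_cova 7 (by decide +kernel) d
  · exact good_cova 7 (by decide +kernel) d
  · exact good_cova 7 (by decide +kernel) d
  · exact good_cova 7 (by decide +kernel) d
  · exact good_cova 7 (by decide +kernel) d
  · exact good_cova 7 (by decide +kernel) d
  · exact good_cova 7 (by decide +kernel) d
  · exact good_cova 7 (by decide +kernel) d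
  · exact good_cova 7 (by decide +kernel) d
  · exact good_cova 7 (by decide +kernel) d
  · exact good_cova 7 (by decide +kernel) d
  · exact good_cova 7 (by decide +kernel) d
  · exact good_cova 7 (by decide +kernel) d
  · exact good_cova 7 (by decide +kernel) d
  · exact good_cova 7 (by decide +kernel) d
  · exact good_cova 7 (by decide +kernel) d
  · exact good_cova 7 (by decide +kernel) d
  · exact good_cova 7 (by decide +kernel) d
  · exact good_cova 7 (by decide +kernel) d
  · exact good_cova 7 (by decide +kernel) d
  · exact crit 347 (by decide +kernel) (V3.good_chw _ _ t59_45_347) (V3.good_chw _ _ t59_45_348) d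
  · exact crit 355 (by decide +kernel) (V3.good_chw _ _ t59_46_355) (V3.good_chw _ _ t59_46_356) d
  · exact crit 363 (by decide +kernel) (V3.good_chw _ _ t59_47_363) (V3.good_chw _ _ t59_47_364) d
  · exact crit 371 (by decide +kernel) (V3.good_chw _ _ t59_48_371) (V3.good_chw _ _ t59_48_372) d
  · exact crit 378 (by decide +kernel) (V3.good_chw _ _ t59_49_378) (V3.good_chw _ _ t59_49_379) d
  · exact crit 386 (by decide +kernel) (V3.good_chw _ _ t59_50_386) (V3.good_chw _ _ t59_50_387) d

def t60_28_219 : V3.chw 60 28 219 4 [15, 1057] = true := by
  decide +kernel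

def t60_28_220 : V3.chw 60 28 220 4 [15] = true := by
  decide +kernel

def t60_29_226 : V3.chw 60 29 226 6 [9, 2] = true := by
  decide +kernel

def t60_29_227 : V3.chw 60 29 227 4 [15, 1059] = true := by
  decide +kernel

def t60_30_234 : V3.chw 60 30 234 5 [13, 1] = true := by
  decide +kernel

def t60_30_235 : V3.chw 60 30 235 4 [15] = true := by
  decide +kernel

def t60_31_242 : V3.chw 60 31 242 3 [13, 3] = true := by
  decide +kernel

def t60_31_243 : V3.chw 60 31 243 4 [15] = true := by
  decide +kernel

def t60_32_250 : V3.chw 60 32 250 4 [15, 1057] = true := by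
  decide +kernel

def t60_32_251 : V3.chw 60 32 251 4 [15] = true := by
  decide +kernel

def t60_33_257 : V3.chw 60 33 257 5 [13, 1] = true := by
  decide +kernel

def t60_33_258 : V3.chw 60 33 258 4 [15, 1059] = true := by
  decide +kernel

def t60_34_265 : V3.chw 60 34 265 5 [13, 1] = true := by
  decide +kernel

def t60_34_266 : V3.chw 60 34 266 4 [15] = true := by
  decide +kernel

def t60_35_273 : V3.chw 60 35 273 6 [8, 3] = true := by
  decide +kernel

def t60_35_274 : V3.chw 60 35 274 4 [15] = true := by
  decide +kernel

def t60_36_281 : V3.chw 60 36 281 4 [15, 1057] = true := by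
  decide +kernel

def t60_36_282 : V3.chw 60 36 282 4 [15] = true := by
  decide +kernel

def t60_37_288 : V3.chw 60 37 288 5 [13, 1] = true := by
  decide +kernel

def t60_37_289 : V3.chw 60 37 289 4 [15, 1059] = true := by
  decide +kernel

def t60_38_296 : V3.chw 60 38 296 5 [13, 1] = true := by
  decide +kernel

def t60_38_297 : V3.chw 60 38 297 4 [15] = true := by
  decide +kernel

def t60_39_304 : V3.chw 60 39 304 3 [13, 3] = true := by
  decide +kernel

def t60_39_305 : V3.chw 60 39 305 4 [15] = true := by
  decide +kernel

def t60_40_312 : V3.chw 60 40 312 6 [8, 3, 1059] = true := by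
  decide +kernel

def t60_40_313 : V3.chw 60 40 313 4 [15] = true := by
  decide +kernel

def t60_41_319 : V3.chw 60 41 319 4 [14, 2] = true := by
  decide +kernel

def t60_41_320 : V3.chw 60 41 320 4 [15, 1059] = true := by
  decide +kernel

def t60_42_327 : V3.chw 60 42 327 5 [11, 4] = true := by
  decide +kernel

def t60_42_328 : V3.chw 60 42 328 4 [15] = true := by
  decide +kernel

def t60_43_335 : V3.chw 60 43 335 3 [13, 3] = true := by
  decide +kernel

def t60_43_336 : V3.chw 60 43 336 4 [15] = true := by
  decide +kernel

def t60_44_343 : V3.chw 60 44 343 4 [15, 1057] = true := by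
  decide +kernel

def t60_44_344 : V3.chw 60 44 344 4 [15] = true := by
  decide +kernel

def t60_45_350 : V3.chw 60 45 350 2 [11, 2] = true := by
  decide +kernel

def t60_45_351 : V3.chw 60 45 351 4 [15, 1059] = true := by
  decide +kernel

def t60_46_358 : V3.chw 60 46 358 2 [11, 1058] = true := by
  decide +kernel

def t60_46_359 : V3.chw 60 46 359 4 [15] = true := by
  decide +kernel

def t60_47_366 : V3.chw 60 47 366 3 [13, 3] = true := by
  decide +kernel

def t60_47_367 : V3.chw 60 47 367 4 [15] = true := by
  decide +kernel

def t60_48_374 : V3.chw 60 48 374 4 [15, 1057] = true := by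
  decide +kernel

def t60_48_375 : V3.chw 60 48 375 4 [15] = true := by
  decide +kernel

def t60_49_381 : V3.chw 60 49 381 2 [11, 1058] = true := by
  decide +kernel

def t60_49_382 : V3.chw 60 49 382 4 [15, 1059] = true := by
  decide +kernel

def t60_50_389 : V3.chw 60 50 389 3 [13, 3] = true := by
  decide +kernel

def t60_50_390 : V3.chw 60 50 390 4 [15] = true := by
  decide +kernel

theorem R60 {K : Type*} [Field K] [CharZero K] (m d : ℕ) (h : m ≤ 50) : MR K 60 m d := by
  interval_cases m
  · exact good_cova 6 (by decide +kernel) d
  · exact good_cova 6 (by decide +kernel) d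
  · exact good_cova 6 (by decide +kernel) d
  · exact good_cova 6 (by decide +kernel) d
  · exact good_cova 6 (by decide +kernel) d
  · exact good_cova 6 (by decide +kernel) d
  · exact good_cova 6 (by decide +kernel) d
  · exact good_cova 6 (by decide +kernel) d
  · exact good_cova 6 (by decide +kernel) d
  · exact good_cova 6 (by decide +kernel) d
  · exact good_cova 6 (by decide +kernel) d
  · exact good_cova 6 (by decide +kernel) d
  · exact good_cova 6 (by decide +kernel) d
  · exact good_cova 6 (by decide +kernel) d
  · exact good_cova 6 (by decide +kernel) d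
  · exact good_cova 6 (by decide +kernel) d
  · exact good_cova 6 (by decide +kernel) d
  · exact good_cova 6 (by decide +kernel) d
  · exact good_cova 6 (by decide +kernel) d
  · exact good_cova 6 (by decide +kernel) d
  · exact good_cova 6 (by decide +kernel) d
  · exact good_cova 6 (by decide +kernel) d
  · exact good_cova 6 (by decide +kernel) d
  · exact good_cova 6 (by decide +kernel) d
  · exact good_cova 6 (by decide +kernel) d
  · exact good_cova 6 (by decide +kernel) d
  · exact good_cova 6 (by decide +kernel) d
  · exact good_cova 6 (by decide +kernel) d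
  · exact crit 219 (by decide +kernel) (V3.good_chw _ _ t60_28_219) (V3.good_chw _ _ t60_28_220) d
  · exact crit 226 (by decide +kernel) (V3.good_chw _ _ t60_29_226) (V3.good_chw _ _ t60_29_227) d
  · exact crit 234 (by decide +kernel) (V3.good_chw _ _ t60_30_234) (V3.good_chw _ _ t60_30_235) d
  · exact crit 242 (by decide +kernel) (V3.good_chw _ _ t60_31_242) (V3.good_chw _ _ t60_31_243) d
  · exact crit 250 (by decide +kernel) (V3.good_chw _ _ t60_32_250) (V3.good_chw _ _ t60_32_251) d
  · exact crit 257 (by decide +kernel) (V3.good_chw _ _ t60_33_257) (V3.good_chw _ _ t60_33_258) d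
  · exact crit 265 (by decide +kernel) (V3.good_chw _ _ t60_34_265) (V3.good_chw _ _ t60_34_266) d
  · exact crit 273 (by decide +kernel) (V3.good_chw _ _ t60_35_273) (V3.good_chw _ _ t60_35_274) d
  · exact crit 281 (by decide +kernel) (V3.good_chw _ _ t60_36_281) (V3.good_chw _ _ t60_36_282) d
  · exact crit 288 (by decide +kernel) (V3.good_chw _ _ t60_37_288) (V3.good_chw _ _ t60_37_289) d
  · exact crit 296 (by decide +kernel) (V3.good_chw _ _ t60_38_296) (V3.good_chw _ _ t60_38_297) d
  · exact crit 304 (by decide +kernel) (V3.good_chw _ _ t60_39_304) (V3.good_chw _ _ t60_39_305) d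
  · exact crit 312 (by decide +kernel) (V3.good_chw _ _ t60_40_312) (V3.good_chw _ _ t60_40_313) d
  · exact crit 319 (by decide +kernel) (V3.good_chw _ _ t60_41_319) (V3.good_chw _ _ t60_41_320) d
  · exact crit 327 (by decide +kernel) (V3.good_chw _ _ t60_42_327) (V3.good_chw _ _ t60_42_328) d
  · exact crit 335 (by decide +kernel) (V3.good_chw _ _ t60_43_335) (V3.good_chw _ _ t60_43_336) d
  · exact crit 343 (by decide +kernel) (V3.good_chw _ _ t60_44_343) (V3.good_chw _ _ t60_44_344) d
  · exact crit 350 (by decide +kernel) (V3.good_chw _ _ t60_45_350) (V3.good_chw _ _ t60_45_351) d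
  · exact crit 358 (by decide +kernel) (V3.good_chw _ _ t60_46_358) (V3.good_chw _ _ t60_46_359) d
  · exact crit 366 (by decide +kernel) (V3.good_chw _ _ t60_47_366) (V3.good_chw _ _ t60_47_367) d
  · exact crit 374 (by decide +kernel) (V3.good_chw _ _ t60_48_374) (V3.good_chw _ _ t60_48_375) d
  · exact crit 381 (by decide +kernel) (V3.good_chw _ _ t60_49_381) (V3.good_chw _ _ t60_49_382) d
  · exact crit 389 (by decide +kernel) (V3.good_chw _ _ t60_50_389) (V3.good_chw _ _ t60_50_390) d

def t61_44_346 : V3.chw 61 44 346 7 [2, 1055, 1057, 1059] = true := by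
  decide +kernel

def t61_44_347 : V3.chw 61 44 347 5 [14] = true := by
  decide +kernel

def t61_45_353 : V3.chw 61 45 353 5 [12, 3] = true := by
  decide +kernel

def t61_45_354 : V3.chw 61 45 354 4 [5, 1041, 1058] = true := by
  decide +kernel

def t61_46_361 : V3.chw 61 46 361 5 [12, 3] = true := by
  decide +kernel

def t61_46_362 : V3.chw 61 46 362 7 [3, 1058] = true := by
  decide +kernel

def t61_47_369 : V3.chw 61 47 369 7 [3, 1058] = true := by
  decide +kernel

def t61_47_370 : V3.chw 61 47 370 5 [2, 13] = true := by
  decide +kernel

def t61_48_377 : V3.chw 61 48 377 7 [3, 1058] = true := by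
  decide +kernel

def t61_48_378 : V3.chw 61 48 378 5 [14] = true := by
  decide +kernel

def t61_49_385 : V3.chw 61 49 385 7 [1, 2, 1058] = true := by
  decide +kernel

def t61_49_386 : V3.chw 61 49 386 5 [14] = true := by
  decide +kernel

def t61_50_392 : V3.chw 61 50 392 5 [12, 3] = true := by
  decide +kernel

def t61_50_393 : V3.chw 61 50 393 4 [5, 1041, 1059, 1060] = true := by
  decide +kernel

theorem R61 {K : Type*} [Field K] [CharZero K] (m d : ℕ) (h : m ≤ 50) : MR K 61 m d := by
  interval_cases m
  · exact good_cova 7 (by decide +kernel) d
  · exact good_cova 7 (by decide +kernel) d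
  · exact good_cova 7 (by decide +kernel) d
  · exact good_cova 7 (by decide +kernel) d
  · exact good_cova 7 (by decide +kernel) d
  · exact good_cova 7 (by decide +kernel) d
  · exact good_cova 7 (by decide +kernel) d
  · exact good_cova 7 (by decide +kernel) d
  · exact good_cova 7 (by decide +kernel) d
  · exact good_cova 7 (by decide +kernel) d
  · exact good_cova 7 (by decide +kernel) d
  · exact good_cova 7 (by decide +kernel) d
  · exact good_cova 7 (by decide +kernel) d
  · exact good_cova 7 (by decide +kernel) d
  · exact good_cova 7 (by decide +kernel) d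
  · exact good_cova 7 (by decide +kernel) d
  · exact good_cova 7 (by decide +kernel) d
  · exact good_cova 7 (by decide +kernel) d
  · exact good_cova 7 (by decide +kernel) d
  · exact good_cova 7 (by decide +kernel) d
  · exact good_cova 7 (by decide +kernel) d
  · exact good_cova 7 (by decide +kernel) d
  · exact good_cova 7 (by decide +kernel) d
  · exact good_cova 7 (by decide +kernel) d
  · exact good_cova 7 (by decide +kernel) d
  · exact good_cova 7 (by decide +kernel) d
  · exact good_cova 7 (by decide +kernel) d
  · exact good_cova 7 (by decide +kernel) d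
  · exact good_cova 7 (by decide +kernel) d
  · exact good_cova 7 (by decide +kernel) d
  · exact good_cova 7 (by decide +kernel) d
  · exact good_cova 7 (by decide +kernel) d
  · exact good_cova 7 (by decide +kernel) d
  · exact good_cova 7 (by decide +kernel) d
  · exact good_cova 7 (by decide +kernel) d
  · exact good_cova 7 (by decide +kernel) d
  · exact good_cova 7 (by decide +kernel) d
  · exact good_cova 7 (by decide +kernel) d
  · exact good_cova 7 (by decide +kernel) d
  · exact good_cova 7 (by decide +kernel) d
  · exact good_cova 7 (by decide +kernel) d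
  · exact good_cova 7 (by decide +kernel) d
  · exact good_cova 7 (by decide +kernel) d
  · exact good_cova 7 (by decide +kernel) d
  · exact crit 346 (by decide +kernel) (V3.good_chw _ _ t61_44_346) (V3.good_chw _ _ t61_44_347) d
  · exact crit 353 (by decide +kernel) (V3.good_chw _ _ t61_45_353) (V3.good_chw _ _ t61_45_354) d
  · exact crit 361 (by decide +kernel) (V3.good_chw _ _ t61_46_361) (V3.good_chw _ _ t61_46_362) d
  · exact crit 369 (by decide +kernel) (V3.good_chw _ _ t61_47_369) (V3.good_chw _ _ t61_47_370) d
  · exact crit 377 (by decide +kernel) (V3.good_chw _ _ t61_48_377) (V3.good_chw _ _ t61_48_378) d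
  · exact crit 385 (by decide +kernel) (V3.good_chw _ _ t61_49_385) (V3.good_chw _ _ t61_49_386) d
  · exact crit 392 (by decide +kernel) (V3.good_chw _ _ t61_50_392) (V3.good_chw _ _ t61_50_393) d

def t62_28_222 : V3.chw 62 28 222 7 [6] = true := by
  decide +kernel

def t62_28_223 : V3.chw 62 28 223 4 [15, 1] = true := by
  decide +kernel

def t62_29_230 : V3.chw 62 29 230 4 [15, 1] = true := by
  decide +kernel

def t62_29_231 : V3.chw 62 29 231 4 [15, 1] = true := by
  decide +kernel

def t62_30_238 : V3.chw 62 30 238 4 [15, 1] = true := by
  decide +kernel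

def t62_30_239 : V3.chw 62 30 239 3 [5, 15] = true := by
  decide +kernel

def t62_31_246 : V3.chw 62 31 246 4 [15, 1] = true := by
  decide +kernel

def t62_31_247 : V3.chw 62 31 247 3 [5, 15] = true := by
  decide +kernel

def t62_32_254 : V3.chw 62 32 254 4 [15, 1] = true := by
  decide +kernel

def t62_32_255 : V3.chw 62 32 255 5 [1, 14] = true := by
  decide +kernel

def t62_33_262 : V3.chw 62 33 262 4 [15, 1] = true := by
  decide +kernel

def t62_33_263 : V3.chw 62 33 263 7 [6] = true := by
  decide +kernel

def t62_34_270 : V3.chw 62 34 270 4 [15, 1] = true := by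
  decide +kernel

def t62_34_271 : V3.chw 62 34 271 7 [6] = true := by
  decide +kernel

def t62_36_285 : V3.chw 62 36 285 4 [15, 1] = true := by
  decide +kernel

def t62_36_286 : V3.chw 62 36 286 4 [15, 1] = true := by
  decide +kernel

def t62_37_293 : V3.chw 62 37 293 4 [15, 1] = true := by
  decide +kernel

def t62_37_294 : V3.chw 62 37 294 4 [15, 1] = true := by
  decide +kernel

def t62_38_301 : V3.chw 62 38 301 4 [15, 1] = true := by
  decide +kernel

def t62_38_302 : V3.chw 62 38 302 4 [15, 1] = true := by
  decide +kernel

def t62_39_309 : V3.chw 62 39 309 4 [15, 1] = true := by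
  decide +kernel

def t62_39_310 : V3.chw 62 39 310 4 [15, 1] = true := by
  decide +kernel

def t62_40_317 : V3.chw 62 40 317 4 [15, 1] = true := by
  decide +kernel

def t62_40_318 : V3.chw 62 40 318 5 [4, 12] = true := by
  decide +kernel

def t62_41_325 : V3.chw 62 41 325 4 [15, 1] = true := by
  decide +kernel

def t62_41_326 : V3.chw 62 41 326 5 [1, 14] = true := by
  decide +kernel

def t62_42_333 : V3.chw 62 42 333 4 [1016, 1031, 1] = true := by
  decide +kernel

def t62_42_334 : V3.chw 62 42 334 7 [6] = true := by
  decide +kernel

def t62_43_340 : V3.chw 62 43 340 5 [13, 2] = true := by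
  decide +kernel

def t62_44_348 : V3.chw 62 44 348 6 [9, 1059] = true := by
  decide +kernel

def t62_44_349 : V3.chw 62 44 349 4 [15, 1] = true := by
  decide +kernel

def t62_45_356 : V3.chw 62 45 356 2 [11, 1059] = true := by
  decide +kernel

def t62_45_357 : V3.chw 62 45 357 4 [15, 1] = true := by
  decide +kernel

def t62_46_364 : V3.chw 62 46 364 2 [11, 1059] = true := by
  decide +kernel

def t62_46_365 : V3.chw 62 46 365 2 [11, 1059] = true := by
  decide +kernel

def t62_47_372 : V3.chw 62 47 372 2 [11, 1059] = true := by
  decide +kernel

def t62_47_373 : V3.chw 62 47 373 2 [11, 1059] = true := by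
  decide +kernel

def t62_48_380 : V3.chw 62 48 380 4 [15, 1] = true := by
  decide +kernel

def t62_48_381 : V3.chw 62 48 381 5 [1, 1041] = true := by
  decide +kernel

def t62_49_388 : V3.chw 62 49 388 4 [2, 14, 2] = true := by
  decide +kernel

def t62_49_389 : V3.chw 62 49 389 5 [1, 1041] = true := by
  decide +kernel

def t62_50_396 : V3.chw 62 50 396 3 [7, 1042, 1056, 1058, 1061] = true := by
  decide +kernel

def t62_50_397 : V3.chw 62 50 397 5 [1026, 14] = true := by
  decide +kernel

theorem R62 {K : Type*} [Field K] [CharZero K] (m d : ℕ) (h : m ≤ 50) : MR K 62 m d := by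
  interval_cases m
  · exact good_cova 6 (by decide +kernel) d
  · exact good_cova 6 (by decide +kernel) d
  · exact good_cova 6 (by decide +kernel) d
  · exact good_cova 6 (by decide +kernel) d
  · exact good_cova 6 (by decide +kernel) d
  · exact good_cova 6 (by decide +kernel) d
  · exact good_cova 6 (by decide +kernel) d
  · exact good_cova 6 (by decide +kernel) d
  · exact good_cova 6 (by decide +kernel) d
  · exact good_cova 6 (by decide +kernel) d
  · exact good_cova 6 (by decide +kernel) d
  · exact good_cova 6 (by decide +kernel) d
  · exact good_cova 6 (by decide +kernel) d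
  · exact good_cova 6 (by decide +kernel) d
  · exact good_cova 6 (by decide +kernel) d
  · exact good_cova 6 (by decide +kernel) d
  · exact good_cova 6 (by decide +kernel) d
  · exact good_cova 6 (by decide +kernel) d
  · exact good_cova 6 (by decide +kernel) d
  · exact good_cova 6 (by decide +kernel) d
  · exact good_cova 6 (by decide +kernel) d
  · exact good_cova 6 (by decide +kernel) d
  · exact good_cova 6 (by decide +kernel) d
  · exact good_cova 6 (by decide +kernel) d
  · exact good_cova 6 (by decide +kernel) d
  · exact good_cova 6 (by decide +kernel) d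
  · exact good_cova 6 (by decide +kernel) d
  · exact good_cova 6 (by decide +kernel) d
  · exact crit 222 (by decide +kernel) (V3.good_chw _ _ t62_28_222) (V3.good_chw _ _ t62_28_223) d
  · exact crit 230 (by decide +kernel) (V3.good_chw _ _ t62_29_230) (V3.good_chw _ _ t62_29_231) d
  · exact crit 238 (by decide +kernel) (V3.good_chw _ _ t62_30_238) (V3.good_chw _ _ t62_30_239) d
  · exact crit 246 (by decide +kernel) (V3.good_chw _ _ t62_31_246) (V3.good_chw _ _ t62_31_247) d
  · exact crit 254 (by decide +kernel) (V3.good_chw _ _ t62_32_254) (V3.good_chw _ _ t62_32_255) d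
  · exact crit 262 (by decide +kernel) (V3.good_chw _ _ t62_33_262) (V3.good_chw _ _ t62_33_263) d
  · exact crit 270 (by decide +kernel) (V3.good_chw _ _ t62_34_270) (V3.good_chw _ _ t62_34_271) d
  · exact crit0 278 (by decide +kernel) K62m35d278.good d
  · exact crit 285 (by decide +kernel) (V3.good_chw _ _ t62_36_285) (V3.good_chw _ _ t62_36_286) d
  · exact crit 293 (by decide +kernel) (V3.good_chw _ _ t62_37_293) (V3.good_chw _ _ t62_37_294) d
  · exact crit 301 (by decide +kernel) (V3.good_chw _ _ t62_38_301) (V3.good_chw _ _ t62_38_302) d
  · exact crit 309 (by decide +kernel) (V3.good_chw _ _ t62_39_309) (V3.good_chw _ _ t62_39_310) d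
  · exact crit 317 (by decide +kernel) (V3.good_chw _ _ t62_40_317) (V3.good_chw _ _ t62_40_318) d
  · exact crit 325 (by decide +kernel) (V3.good_chw _ _ t62_41_325) (V3.good_chw _ _ t62_41_326) d
  · exact crit 333 (by decide +kernel) (V3.good_chw _ _ t62_42_333) (V3.good_chw _ _ t62_42_334) d
  · exact crit 340 (by decide +kernel) (V3.good_chw _ _ t62_43_340) K62m43d341.good d
  · exact crit 348 (by decide +kernel) (V3.good_chw _ _ t62_44_348) (V3.good_chw _ _ t62_44_349) d
  · exact crit 356 (by decide +kernel) (V3.good_chw _ _ t62_45_356) (V3.good_chw _ _ t62_45_357) d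
  · exact crit 364 (by decide +kernel) (V3.good_chw _ _ t62_46_364) (V3.good_chw _ _ t62_46_365) d
  · exact crit 372 (by decide +kernel) (V3.good_chw _ _ t62_47_372) (V3.good_chw _ _ t62_47_373) d
  · exact crit 380 (by decide +kernel) (V3.good_chw _ _ t62_48_380) (V3.good_chw _ _ t62_48_381) d
  · exact crit 388 (by decide +kernel) (V3.good_chw _ _ t62_49_388) (V3.good_chw _ _ t62_49_389) d
  · exact crit 396 (by decide +kernel) (V3.good_chw _ _ t62_50_396) (V3.good_chw _ _ t62_50_397) d

def t63_43_343 : V3.chw 63 43 343 5 [14, 1] = true := by
  decide +kernel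

def t63_43_344 : V3.chw 63 43 344 2 [1, 7, 14] = true := by
  decide +kernel

def t63_44_351 : V3.chw 63 44 351 5 [14, 1] = true := by
  decide +kernel

def t63_44_352 : V3.chw 63 44 352 7 [3, 1059] = true := by
  decide +kernel

def t63_45_359 : V3.chw 63 45 359 5 [14, 1062] = true := by
  decide +kernel

def t63_45_360 : V3.chw 63 45 360 7 [3, 1059] = true := by
  decide +kernel

def t63_46_367 : V3.chw 63 46 367 5 [12, 4] = true := by
  decide +kernel

def t63_46_368 : V3.chw 63 46 368 7 [3, 1059] = true := by
  decide +kernel

def t63_47_375 : V3.chw 63 47 375 5 [12, 4] = true := by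
  decide +kernel

def t63_47_376 : V3.chw 63 47 376 5 [12, 4] = true := by
  decide +kernel

def t63_48_383 : V3.chw 63 48 383 7 [3, 1059] = true := by
  decide +kernel

def t63_48_384 : V3.chw 63 48 384 5 [9, 1054] = true := by
  decide +kernel

def t63_49_391 : V3.chw 63 49 391 7 [3, 1059] = true := by
  decide +kernel

def t63_49_392 : V3.chw 63 49 392 5 [9, 1054] = true := by
  decide +kernel

def t63_50_399 : V3.chw 63 50 399 7 [3, 1059] = true := by
  decide +kernel

def t63_50_400 : V3.chw 63 50 400 5 [4, 1046] = true := by
  decide +kernel

theorem R63 {K : Type*} [Field K] [CharZero K] (m d : ℕ) (h : m ≤ 50) : MR K 63 m d := by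
  interval_cases m
  · exact good_cova 7 (by decide +kernel) d
  · exact good_cova 7 (by decide +kernel) d
  · exact good_cova 7 (by decide +kernel) d
  · exact good_cova 7 (by decide +kernel) d
  · exact good_cova 7 (by decide +kernel) d
  · exact good_cova 7 (by decide +kernel) d
  · exact good_cova 7 (by decide +kernel) d
  · exact good_cova 7 (by decide +kernel) d
  · exact good_cova 7 (by decide +kernel) d
  · exact good_cova 7 (by decide +kernel) d
  · exact good_cova 7 (by decide +kernel) d
  · exact good_cova 7 (by decide +kernel) d
  · exact good_cova 7 (by decide +kernel) d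
  · exact good_cova 7 (by decide +kernel) d
  · exact good_cova 7 (by decide +kernel) d
  · exact good_cova 7 (by decide +kernel) d
  · exact good_cova 7 (by decide +kernel) d
  · exact good_cova 7 (by decide +kernel) d
  · exact good_cova 7 (by decide +kernel) d
  · exact good_cova 7 (by decide +kernel) d
  · exact good_cova 7 (by decide +kernel) d
  · exact good_cova 7 (by decide +kernel) d
  · exact good_cova 7 (by decide +kernel) d
  · exact good_cova 7 (by decide +kernel) d
  · exact good_cova 7 (by decide +kernel) d
  · exact good_cova 7 (by decide +kernel) d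
  · exact good_cova 7 (by decide +kernel) d
  · exact good_cova 7 (by decide +kernel) d
  · exact good_cova 7 (by decide +kernel) d
  · exact good_cova 7 (by decide +kernel) d
  · exact good_cova 7 (by decide +kernel) d
  · exact good_cova 7 (by decide +kernel) d
  · exact good_cova 7 (by decide +kernel) d
  · exact good_cova 7 (by decide +kernel) d
  · exact good_cova 7 (by decide +kernel) d
  · exact good_cova 7 (by decide +kernel) d
  · exact good_cova 7 (by decide +kernel) d
  · exact good_cova 7 (by decide +kernel) d
  · exact good_cova 7 (by decide +kernel) d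
  · exact good_cova 7 (by decide +kernel) d
  · exact good_cova 7 (by decide +kernel) d
  · exact good_cova 7 (by decide +kernel) d
  · exact good_cova 7 (by decide +kernel) d
  · exact crit 343 (by decide +kernel) (V3.good_chw _ _ t63_43_343) (V3.good_chw _ _ t63_43_344) d
  · exact crit 351 (by decide +kernel) (V3.good_chw _ _ t63_44_351) (V3.good_chw _ _ t63_44_352) d
  · exact crit 359 (by decide +kernel) (V3.good_chw _ _ t63_45_359) (V3.good_chw _ _ t63_45_360) d
  · exact crit 367 (by decide +kernel) (V3.good_chw _ _ t63_46_367) (V3.good_chw _ _ t63_46_368) d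
  · exact crit 375 (by decide +kernel) (V3.good_chw _ _ t63_47_375) (V3.good_chw _ _ t63_47_376) d
  · exact crit 383 (by decide +kernel) (V3.good_chw _ _ t63_48_383) (V3.good_chw _ _ t63_48_384) d
  · exact crit 391 (by decide +kernel) (V3.good_chw _ _ t63_49_391) (V3.good_chw _ _ t63_49_392) d
  · exact crit 399 (by decide +kernel) (V3.good_chw _ _ t63_50_399) (V3.good_chw _ _ t63_50_400) d

theorem R64 {K : Type*} [Field K] [CharZero K] (m d : ℕ) (h : m ≤ 50) : MR K 64 m d := by
  interval_cases m
  · exact good_cova 8 (by decide +kernel) d
  · exact good_cova 8 (by decide +kernel) d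
  · exact good_cova 8 (by decide +kernel) d
  · exact good_cova 8 (by decide +kernel) d
  · exact good_cova 8 (by decide +kernel) d
  · exact good_cova 8 (by decide +kernel) d
  · exact good_cova 8 (by decide +kernel) d
  · exact good_cova 8 (by decide +kernel) d
  · exact good_cova 8 (by decide +kernel) d
  · exact good_cova 8 (by decide +kernel) d
  · exact good_cova 8 (by decide +kernel) d
  · exact good_cova 8 (by decide +kernel) d
  · exact good_cova 8 (by decide +kernel) d
  · exact good_cova 8 (by decide +kernel) d
  · exact good_cova 8 (by decide +kernel) d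
  · exact good_cova 8 (by decide +kernel) d
  · exact good_cova 8 (by decide +kernel) d
  · exact good_cova 8 (by decide +kernel) d
  · exact good_cova 8 (by decide +kernel) d
  · exact good_cova 8 (by decide +kernel) d
  · exact good_cova 8 (by decide +kernel) d
  · exact good_cova 8 (by decide +kernel) d
  · exact good_cova 8 (by decide +kernel) d
  · exact good_cova 8 (by decide +kernel) d
  · exact good_cova 8 (by decide +kernel) d
  · exact good_cova 8 (by decide +kernel) d
  · exact good_cova 8 (by decide +kernel) d
  · exact good_cova 8 (by decide +kernel) d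
  · exact good_cova 8 (by decide +kernel) d
  · exact good_cova 8 (by decide +kernel) d
  · exact good_cova 8 (by decide +kernel) d
  · exact good_cova 8 (by decide +kernel) d
  · exact good_cova 8 (by decide +kernel) d
  · exact good_cova 8 (by decide +kernel) d
  · exact good_cova 8 (by decide +kernel) d
  · exact good_cova 8 (by decide +kernel) d
  · exact good_cova 8 (by decide +kernel) d
  · exact good_cova 8 (by decide +kernel) d
  · exact good_cova 8 (by decide +kernel) d
  · exact good_cova 8 (by decide +kernel) d
  · exact good_cova 8 (by decide +kernel) d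
  · exact good_cova 8 (by decide +kernel) d
  · exact good_cova 8 (by decide +kernel) d
  · exact good_cova 8 (by decide +kernel) d
  · exact good_cova 8 (by decide +kernel) d
  · exact good_cova 8 (by decide +kernel) d
  · exact good_cova 8 (by decide +kernel) d
  · exact good_cova 8 (by decide +kernel) d
  · exact good_cova 8 (by decide +kernel) d
  · exact good_cova 8 (by decide +kernel) d
  · exact good_cova 8 (by decide +kernel) d

def t65_43_349 : V3.chw 65 43 349 5 [6, 1050, 1064] = true := by
  decide +kernel

def t65_43_350 : V3.chw 65 43 350 2 [3, 16] = true := by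
  decide +kernel

def t65_44_357 : V3.chw 65 44 357 7 [3, 1058, 2] = true := by
  decide +kernel

def t65_44_358 : V3.chw 65 44 358 2 [3, 16] = true := by
  decide +kernel

def t65_45_365 : V3.chw 65 45 365 7 [3, 1058, 2] = true := by
  decide +kernel

def t65_45_366 : V3.chw 65 45 366 2 [3, 16] = true := by
  decide +kernel

def t65_46_373 : V3.chw 65 46 373 3 [14, 3] = true := by
  decide +kernel

def t65_46_374 : V3.chw 65 46 374 2 [3, 16] = true := by
  decide +kernel

def t65_47_381 : V3.chw 65 47 381 3 [14, 3] = true := by
  decide +kernel

def t65_47_382 : V3.chw 65 47 382 2 [3, 16] = true := by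
  decide +kernel

def t65_48_389 : V3.chw 65 48 389 3 [14, 3] = true := by
  decide +kernel

def t65_48_390 : V3.chw 65 48 390 2 [5, 16] = true := by
  decide +kernel

def t65_49_397 : V3.chw 65 49 397 7 [4, 1061] = true := by
  decide +kernel

def t65_49_398 : V3.chw 65 49 398 2 [5, 16] = true := by
  decide +kernel

def t65_50_405 : V3.chw 65 50 405 5 [14, 2] = true := by
  decide +kernel

def t65_50_406 : V3.chw 65 50 406 3 [14, 3] = true := by
  decide +kernel

theorem R65 {K : Type*} [Field K] [CharZero K] (m d : ℕ) (h : m ≤ 50) : MR K 65 m d := by
  interval_cases m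
  · exact good_cova 7 (by decide +kernel) d
  · exact good_cova 7 (by decide +kernel) d
  · exact good_cova 7 (by decide +kernel) d
  · exact good_cova 7 (by decide +kernel) d
  · exact good_cova 7 (by decide +kernel) d
  · exact good_cova 7 (by decide +kernel) d
  · exact good_cova 7 (by decide +kernel) d
  · exact good_cova 7 (by decide +kernel) d
  · exact good_cova 7 (by decide +kernel) d
  · exact good_cova 7 (by decide +kernel) d
  · exact good_cova 7 (by decide +kernel) d
  · exact good_cova 7 (by decide +kernel) d
  · exact good_cova 7 (by decide +kernel) d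
  · exact good_cova 7 (by decide +kernel) d
  · exact good_cova 7 (by decide +kernel) d
  · exact good_cova 7 (by decide +kernel) d
  · exact good_cova 7 (by decide +kernel) d
  · exact good_cova 7 (by decide +kernel) d
  · exact good_cova 7 (by decide +kernel) d
  · exact good_cova 7 (by decide +kernel) d
  · exact good_cova 7 (by decide +kernel) d
  · exact good_cova 7 (by decide +kernel) d
  · exact good_cova 7 (by decide +kernel) d
  · exact good_cova 7 (by decide +kernel) d
  · exact good_cova 7 (by decide +kernel) d
  · exact good_cova 7 (by decide +kernel) d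
  · exact good_cova 7 (by decide +kernel) d
  · exact good_cova 7 (by decide +kernel) d
  · exact good_cova 7 (by decide +kernel) d
  · exact good_cova 7 (by decide +kernel) d
  · exact good_cova 7 (by decide +kernel) d
  · exact good_cova 7 (by decide +kernel) d
  · exact good_cova 7 (by decide +kernel) d
  · exact good_cova 7 (by decide +kernel) d
  · exact good_cova 7 (by decide +kernel) d
  · exact good_cova 7 (by decide +kernel) d
  · exact good_cova 7 (by decide +kernel) d
  · exact good_cova 7 (by decide +kernel) d
  · exact good_cova 7 (by decide +kernel) d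
  · exact good_cova 7 (by decide +kernel) d
  · exact good_cova 7 (by decide +kernel) d
  · exact good_cova 7 (by decide +kernel) d
  · exact good_cova 7 (by decide +kernel) d
  · exact crit 349 (by decide +kernel) (V3.good_chw _ _ t65_43_349) (V3.good_chw _ _ t65_43_350) d
  · exact crit 357 (by decide +kernel) (V3.good_chw _ _ t65_44_357) (V3.good_chw _ _ t65_44_358) d
  · exact crit 365 (by decide +kernel) (V3.good_chw _ _ t65_45_365) (V3.good_chw _ _ t65_45_366) d
  · exact crit 373 (by decide +kernel) (V3.good_chw _ _ t65_46_373) (V3.good_chw _ _ t65_46_374) d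
  · exact crit 381 (by decide +kernel) (V3.good_chw _ _ t65_47_381) (V3.good_chw _ _ t65_47_382) d
  · exact crit 389 (by decide +kernel) (V3.good_chw _ _ t65_48_389) (V3.good_chw _ _ t65_48_390) d
  · exact crit 397 (by decide +kernel) (V3.good_chw _ _ t65_49_397) (V3.good_chw _ _ t65_49_398) d
  · exact crit 405 (by decide +kernel) (V3.good_chw _ _ t65_50_405) (V3.good_chw _ _ t65_50_406) d

theorem R66 {K : Type*} [Field K] [CharZero K] (m d : ℕ) (h : m ≤ 50) : MR K 66 m d := by
  interval_cases m
  · exact good_cova 8 (by decide +kernel) d
  · exact good_cova 8 (by decide +kernel) d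
  · exact good_cova 8 (by decide +kernel) d
  · exact good_cova 8 (by decide +kernel) d
  · exact good_cova 8 (by decide +kernel) d
  · exact good_cova 8 (by decide +kernel) d
  · exact good_cova 8 (by decide +kernel) d
  · exact good_cova 8 (by decide +kernel) d
  · exact good_cova 8 (by decide +kernel) d
  · exact good_cova 8 (by decide +kernel) d
  · exact good_cova 8 (by decide +kernel) d
  · exact good_cova 8 (by decide +kernel) d
  · exact good_cova 8 (by decide +kernel) d
  · exact good_cova 8 (by decide +kernel) d
  · exact good_cova 8 (by decide +kernel) d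
  · exact good_cova 8 (by decide +kernel) d
  · exact good_cova 8 (by decide +kernel) d
  · exact good_cova 8 (by decide +kernel) d
  · exact good_cova 8 (by decide +kernel) d
  · exact good_cova 8 (by decide +kernel) d
  · exact good_cova 8 (by decide +kernel) d
  · exact good_cova 8 (by decide +kernel) d
  · exact good_cova 8 (by decide +kernel) d
  · exact good_cova 8 (by decide +kernel) d
  · exact good_cova 8 (by decide +kernel) d
  · exact good_cova 8 (by decide +kernel) d
  · exact good_cova 8 (by decide +kernel) d
  · exact good_cova 8 (by decide +kernel) d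
  · exact good_cova 8 (by decide +kernel) d
  · exact good_cova 8 (by decide +kernel) d
  · exact good_cova 8 (by decide +kernel) d
  · exact good_cova 8 (by decide +kernel) d
  · exact good_cova 8 (by decide +kernel) d
  · exact good_cova 8 (by decide +kernel) d
  · exact good_cova 8 (by decide +kernel) d
  · exact good_cova 8 (by decide +kernel) d
  · exact good_cova 8 (by decide +kernel) d
  · exact good_cova 8 (by decide +kernel) d
  · exact good_cova 8 (by decide +kernel) d
  · exact good_cova 8 (by decide +kernel) d
  · exact good_cova 8 (by decide +kernel) d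
  · exact good_cova 8 (by decide +kernel) d
  · exact good_cova 8 (by decide +kernel) d
  · exact good_cova 8 (by decide +kernel) d
  · exact good_cova 8 (by decide +kernel) d
  · exact good_cova 8 (by decide +kernel) d
  · exact good_cova 8 (by decide +kernel) d
  · exact good_cova 8 (by decide +kernel) d
  · exact good_cova 8 (by decide +kernel) d
  · exact good_cova 8 (by decide +kernel) d
  · exact good_cova 8 (by decide +kernel) d

def t67_42_346 : V3.chw 67 42 346 3 [14, 4] = true := by
  decide +kernel

def t67_42_347 : V3.chw 67 42 347 4 [7, 14] = true := by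
  decide +kernel

def t67_43_354 : V3.chw 67 43 354 5 [14, 3] = true := by
  decide +kernel

def t67_43_355 : V3.chw 67 43 355 3 [2, 1030] = true := by
  decide +kernel

def t67_44_362 : V3.chw 67 44 362 5 [14, 3] = true := by
  decide +kernel

def t67_44_363 : V3.chw 67 44 363 3 [2, 1030] = true := by
  decide +kernel

def t67_45_370 : V3.chw 67 45 370 5 [16] = true := by
  decide +kernel

def t67_45_371 : V3.chw 67 45 371 3 [7, 1043, 1066] = true := by
  decide +kernel

def t67_46_379 : V3.chw 67 46 379 3 [7, 1043, 1066] = true := by
  decide +kernel

def t67_46_380 : V3.chw 67 46 380 4 [4, 1041] = true := by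
  decide +kernel

def t67_47_387 : V3.chw 67 47 387 5 [14, 1060, 3] = true := by
  decide +kernel

def t67_47_388 : V3.chw 67 47 388 2 [7, 1045] = true := by
  decide +kernel

def t67_48_395 : V3.chw 67 48 395 5 [14, 3] = true := by
  decide +kernel

def t67_48_396 : V3.chw 67 48 396 2 [7, 1045] = true := by
  decide +kernel

def t67_49_403 : V3.chw 67 49 403 5 [14, 3] = true := by
  decide +kernel

def t67_49_404 : V3.chw 67 49 404 7 [4, 1062] = true := by
  decide +kernel

def t67_50_411 : V3.chw 67 50 411 5 [16] = true := by
  decide +kernel

def t67_50_412 : V3.chw 67 50 412 4 [7, 14, 1066] = true := by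
  decide +kernel

theorem R67 {K : Type*} [Field K] [CharZero K] (m d : ℕ) (h : m ≤ 50) : MR K 67 m d := by
  interval_cases m
  · exact good_cova 7 (by decide +kernel) d
  · exact good_cova 7 (by decide +kernel) d
  · exact good_cova 7 (by decide +kernel) d
  · exact good_cova 7 (by decide +kernel) d
  · exact good_cova 7 (by decide +kernel) d
  · exact good_cova 7 (by decide +kernel) d
  · exact good_cova 7 (by decide +kernel) d
  · exact good_cova 7 (by decide +kernel) d
  · exact good_cova 7 (by decide +kernel) d
  · exact good_cova 7 (by decide +kernel) d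
  · exact good_cova 7 (by decide +kernel) d
  · exact good_cova 7 (by decide +kernel) d
  · exact good_cova 7 (by decide +kernel) d
  · exact good_cova 7 (by decide +kernel) d
  · exact good_cova 7 (by decide +kernel) d
  · exact good_cova 7 (by decide +kernel) d
  · exact good_cova 7 (by decide +kernel) d
  · exact good_cova 7 (by decide +kernel) d
  · exact good_cova 7 (by decide +kernel) d
  · exact good_cova 7 (by decide +kernel) d
  · exact good_cova 7 (by decide +kernel) d
  · exact good_cova 7 (by decide +kernel) d
  · exact good_cova 7 (by decide +kernel) d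
  · exact good_cova 7 (by decide +kernel) d
  · exact good_cova 7 (by decide +kernel) d
  · exact good_cova 7 (by decide +kernel) d
  · exact good_cova 7 (by decide +kernel) d
  · exact good_cova 7 (by decide +kernel) d
  · exact good_cova 7 (by decide +kernel) d
  · exact good_cova 7 (by decide +kernel) d
  · exact good_cova 7 (by decide +kernel) d
  · exact good_cova 7 (by decide +kernel) d
  · exact good_cova 7 (by decide +kernel) d
  · exact good_cova 7 (by decide +kernel) d
  · exact good_cova 7 (by decide +kernel) d
  · exact good_cova 7 (by decide +kernel) d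
  · exact good_cova 7 (by decide +kernel) d
  · exact good_cova 7 (by decide +kernel) d
  · exact good_cova 7 (by decide +kernel) d
  · exact good_cova 7 (by decide +kernel) d
  · exact good_cova 7 (by decide +kernel) d
  · exact good_cova 7 (by decide +kernel) d
  · exact crit 346 (by decide +kernel) (V3.good_chw _ _ t67_42_346) (V3.good_chw _ _ t67_42_347) d
  · exact crit 354 (by decide +kernel) (V3.good_chw _ _ t67_43_354) (V3.good_chw _ _ t67_43_355) d
  · exact crit 362 (by decide +kernel) (V3.good_chw _ _ t67_44_362) (V3.good_chw _ _ t67_44_363) d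
  · exact crit 370 (by decide +kernel) (V3.good_chw _ _ t67_45_370) (V3.good_chw _ _ t67_45_371) d
  · exact crit 379 (by decide +kernel) (V3.good_chw _ _ t67_46_379) (V3.good_chw _ _ t67_46_380) d
  · exact crit 387 (by decide +kernel) (V3.good_chw _ _ t67_47_387) (V3.good_chw _ _ t67_47_388) d
  · exact crit 395 (by decide +kernel) (V3.good_chw _ _ t67_48_395) (V3.good_chw _ _ t67_48_396) d
  · exact crit 403 (by decide +kernel) (V3.good_chw _ _ t67_49_403) (V3.good_chw _ _ t67_49_404) d
  · exact crit 411 (by decide +kernel) (V3.good_chw _ _ t67_50_411) (V3.good_chw _ _ t67_50_412) d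

theorem R68 {K : Type*} [Field K] [CharZero K] (m d : ℕ) (h : m ≤ 50) : MR K 68 m d := by
  interval_cases m
  · exact good_cova 8 (by decide +kernel) d
  · exact good_cova 8 (by decide +kernel) d
  · exact good_cova 8 (by decide +kernel) d
  · exact good_cova 8 (by decide +kernel) d
  · exact good_cova 8 (by decide +kernel) d
  · exact good_cova 8 (by decide +kernel) d
  · exact good_cova 8 (by decide +kernel) d
  · exact good_cova 8 (by decide +kernel) d
  · exact good_cova 8 (by decide +kernel) d
  · exact good_cova 8 (by decide +kernel) d
  · exact good_cova 8 (by decide +kernel) d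
  · exact good_cova 8 (by decide +kernel) d
  · exact good_cova 8 (by decide +kernel) d
  · exact good_cova 8 (by decide +kernel) d
  · exact good_cova 8 (by decide +kernel) d
  · exact good_cova 8 (by decide +kernel) d
  · exact good_cova 8 (by decide +kernel) d
  · exact good_cova 8 (by decide +kernel) d
  · exact good_cova 8 (by decide +kernel) d
  · exact good_cova 8 (by decide +kernel) d
  · exact good_cova 8 (by decide +kernel) d
  · exact good_cova 8 (by decide +kernel) d
  · exact good_cova 8 (by decide +kernel) d
  · exact good_cova 8 (by decide +kernel) d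
  · exact good_cova 8 (by decide +kernel) d
  · exact good_cova 8 (by decide +kernel) d
  · exact good_cova 8 (by decide +kernel) d
  · exact good_cova 8 (by decide +kernel) d
  · exact good_cova 8 (by decide +kernel) d
  · exact good_cova 8 (by decide +kernel) d
  · exact good_cova 8 (by decide +kernel) d
  · exact good_cova 8 (by decide +kernel) d
  · exact good_cova 8 (by decide +kernel) d
  · exact good_cova 8 (by decide +kernel) d
  · exact good_cova 8 (by decide +kernel) d
  · exact good_cova 8 (by decide +kernel) d
  · exact good_cova 8 (by decide +kernel) d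
  · exact good_cova 8 (by decide +kernel) d
  · exact good_cova 8 (by decide +kernel) d
  · exact good_cova 8 (by decide +kernel) d
  · exact good_cova 8 (by decide +kernel) d
  · exact good_cova 8 (by decide +kernel) d
  · exact good_cova 8 (by decide +kernel) d
  · exact good_cova 8 (by decide +kernel) d
  · exact good_cova 8 (by decide +kernel) d
  · exact good_cova 8 (by decide +kernel) d
  · exact good_cova 8 (by decide +kernel) d
  · exact good_cova 8 (by decide +kernel) d
  · exact good_cova 8 (by decide +kernel) d
  · exact good_cova 8 (by decide +kernel) d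
  · exact good_cova 8 (by decide +kernel) d

def t69_41_343 : V3.chw 69 41 343 7 [4, 1061, 2] = true := by
  decide +kernel

def t69_41_344 : V3.chw 69 41 344 4 [5, 16] = true := by
  decide +kernel

def t69_42_351 : V3.chw 69 42 351 3 [14, 1, 4] = true := by
  decide +kernel

def t69_42_352 : V3.chw 69 42 352 3 [2, 17] = true := by
  decide +kernel

def t69_43_359 : V3.chw 69 43 359 5 [16, 1068] = true := by
  decide +kernel

def t69_43_360 : V3.chw 69 43 360 3 [4, 1036] = true := by
  decide +kernel

def t69_44_368 : V3.chw 69 44 368 3 [4, 1036, 1067] = true := by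
  decide +kernel

def t69_44_369 : V3.chw 69 44 369 2 [9, 1054] = true := by
  decide +kernel

def t69_45_376 : V3.chw 69 45 376 2 [1, 13, 1064] = true := by
  decide +kernel

def t69_45_377 : V3.chw 69 45 377 2 [9, 1054] = true := by
  decide +kernel

def t69_46_384 : V3.chw 69 46 384 5 [16, 1068] = true := by
  decide +kernel

def t69_46_385 : V3.chw 69 46 385 3 [4, 1036] = true := by
  decide +kernel

def t69_47_393 : V3.chw 69 47 393 7 [3, 1058, 1061, 1064, 1] = true := by
  decide +kernel

def t69_47_394 : V3.chw 69 47 394 2 [3, 1029] = true := by
  decide +kernel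

def t69_48_401 : V3.chw 69 48 401 7 [1, 4, 1064] = true := by
  decide +kernel

def t69_48_402 : V3.chw 69 48 402 2 [9, 1054] = true := by
  decide +kernel

def t69_49_409 : V3.chw 69 49 409 5 [16, 1068] = true := by
  decide +kernel

def t69_49_410 : V3.chw 69 49 410 3 [4, 1036] = true := by
  decide +kernel

def t69_50_417 : V3.chw 69 50 417 5 [16, 1] = true := by
  decide +kernel

def t69_50_418 : V3.chw 69 50 418 2 [9, 1041, 1, 11, 1068] = true := by
  decide +kernel

theorem R69 {K : Type*} [Field K] [CharZero K] (m d : ℕ) (h : m ≤ 50) : MR K 69 m d := by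
  interval_cases m
  · exact good_cova 7 (by decide +kernel) d
  · exact good_cova 7 (by decide +kernel) d
  · exact good_cova 7 (by decide +kernel) d
  · exact good_cova 7 (by decide +kernel) d
  · exact good_cova 7 (by decide +kernel) d
  · exact good_cova 7 (by decide +kernel) d
  · exact good_cova 7 (by decide +kernel) d
  · exact good_cova 7 (by decide +kernel) d
  · exact good_cova 7 (by decide +kernel) d
  · exact good_cova 7 (by decide +kernel) d
  · exact good_cova 7 (by decide +kernel) d
  · exact good_cova 7 (by decide +kernel) d
  · exact good_cova 7 (by decide +kernel) d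
  · exact good_cova 7 (by decide +kernel) d
  · exact good_cova 7 (by decide +kernel) d
  · exact good_cova 7 (by decide +kernel) d
  · exact good_cova 7 (by decide +kernel) d
  · exact good_cova 7 (by decide +kernel) d
  · exact good_cova 7 (by decide +kernel) d
  · exact good_cova 7 (by decide +kernel) d
  · exact good_cova 7 (by decide +kernel) d
  · exact good_cova 7 (by decide +kernel) d
  · exact good_cova 7 (by decide +kernel) d
  · exact good_cova 7 (by decide +kernel) d
  · exact good_cova 7 (by decide +kernel) d
  · exact good_cova 7 (by decide +kernel) d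
  · exact good_cova 7 (by decide +kernel) d
  · exact good_cova 7 (by decide +kernel) d
  · exact good_cova 7 (by decide +kernel) d
  · exact good_cova 7 (by decide +kernel) d
  · exact good_cova 7 (by decide +kernel) d
  · exact good_cova 7 (by decide +kernel) d
  · exact good_cova 7 (by decide +kernel) d
  · exact good_cova 7 (by decide +kernel) d
  · exact good_cova 7 (by decide +kernel) d
  · exact good_cova 7 (by decide +kernel) d
  · exact good_cova 7 (by decide +kernel) d
  · exact good_cova 7 (by decide +kernel) d
  · exact good_cova 7 (by decide +kernel) d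
  · exact good_cova 7 (by decide +kernel) d
  · exact good_cova 7 (by decide +kernel) d
  · exact crit 343 (by decide +kernel) (V3.good_chw _ _ t69_41_343) (V3.good_chw _ _ t69_41_344) d
  · exact crit 351 (by decide +kernel) (V3.good_chw _ _ t69_42_351) (V3.good_chw _ _ t69_42_352) d
  · exact crit 359 (by decide +kernel) (V3.good_chw _ _ t69_43_359) (V3.good_chw _ _ t69_43_360) d
  · exact crit 368 (by decide +kernel) (V3.good_chw _ _ t69_44_368) (V3.good_chw _ _ t69_44_369) d
  · exact crit 376 (by decide +kernel) (V3.good_chw _ _ t69_45_376) (V3.good_chw _ _ t69_45_377) d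
  · exact crit 384 (by decide +kernel) (V3.good_chw _ _ t69_46_384) (V3.good_chw _ _ t69_46_385) d
  · exact crit 393 (by decide +kernel) (V3.good_chw _ _ t69_47_393) (V3.good_chw _ _ t69_47_394) d
  · exact crit 401 (by decide +kernel) (V3.good_chw _ _ t69_48_401) (V3.good_chw _ _ t69_48_402) d
  · exact crit 409 (by decide +kernel) (V3.good_chw _ _ t69_49_409) (V3.good_chw _ _ t69_49_410) d
  · exact crit 417 (by decide +kernel) (V3.good_chw _ _ t69_50_417) (V3.good_chw _ _ t69_50_418) d

theorem R70 {K : Type*} [Field K] [CharZero K] (m d : ℕ) (h : m ≤ 50) : MR K 70 m d := by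
  interval_cases m
  · exact good_cova 8 (by decide +kernel) d
  · exact good_cova 8 (by decide +kernel) d
  · exact good_cova 8 (by decide +kernel) d
  · exact good_cova 8 (by decide +kernel) d
  · exact good_cova 8 (by decide +kernel) d
  · exact good_cova 8 (by decide +kernel) d
  · exact good_cova 8 (by decide +kernel) d
  · exact good_cova 8 (by decide +kernel) d
  · exact good_cova 8 (by decide +kernel) d
  · exact good_cova 8 (by decide +kernel) d
  · exact good_cova 8 (by decide +kernel) d
  · exact good_cova 8 (by decide +kernel) d
  · exact good_cova 8 (by decide +kernel) d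
  · exact good_cova 8 (by decide +kernel) d
  · exact good_cova 8 (by decide +kernel) d
  · exact good_cova 8 (by decide +kernel) d
  · exact good_cova 8 (by decide +kernel) d
  · exact good_cova 8 (by decide +kernel) d
  · exact good_cova 8 (by decide +kernel) d
  · exact good_cova 8 (by decide +kernel) d
  · exact good_cova 8 (by decide +kernel) d
  · exact good_cova 8 (by decide +kernel) d
  · exact good_cova 8 (by decide +kernel) d
  · exact good_cova 8 (by decide +kernel) d
  · exact good_cova 8 (by decide +kernel) d
  · exact good_cova 8 (by decide +kernel) d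
  · exact good_cova 8 (by decide +kernel) d
  · exact good_cova 8 (by decide +kernel) d
  · exact good_cova 8 (by decide +kernel) d
  · exact good_cova 8 (by decide +kernel) d
  · exact good_cova 8 (by decide +kernel) d
  · exact good_cova 8 (by decide +kernel) d
  · exact good_cova 8 (by decide +kernel) d
  · exact good_cova 8 (by decide +kernel) d
  · exact good_cova 8 (by decide +kernel) d
  · exact good_cova 8 (by decide +kernel) d
  · exact good_cova 8 (by decide +kernel) d
  · exact good_cova 8 (by decide +kernel) d
  · exact good_cova 8 (by decide +kernel) d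
  · exact good_cova 8 (by decide +kernel) d
  · exact good_cova 8 (by decide +kernel) d
  · exact good_cova 8 (by decide +kernel) d
  · exact good_cova 8 (by decide +kernel) d
  · exact good_cova 8 (by decide +kernel) d
  · exact good_cova 8 (by decide +kernel) d
  · exact good_cova 8 (by decide +kernel) d
  · exact good_cova 8 (by decide +kernel) d
  · exact good_cova 8 (by decide +kernel) d
  · exact good_cova 8 (by decide +kernel) d
  · exact good_cova 8 (by decide +kernel) d
  · exact good_cova 8 (by decide +kernel) d

def t71_41_348 : V3.chw 71 41 348 3 [4, 1036, 1] = true := by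
  decide +kernel

def t71_41_349 : V3.chw 71 41 349 7 [10] = true := by
  decide +kernel

def t71_42_356 : V3.chw 71 42 356 7 [10] = true := by
  decide +kernel

def t71_42_357 : V3.chw 71 42 357 3 [1, 17] = true := by
  decide +kernel

def t71_43_366 : V3.chw 71 43 366 7 [10] = true := by
  decide +kernel

def t71_44_373 : V3.chw 71 44 373 7 [10, 1070] = true := by
  decide +kernel

def t71_44_374 : V3.chw 71 44 374 7 [10] = true := by
  decide +kernel

def t71_45_381 : V3.chw 71 45 381 7 [10] = true := by
  decide +kernel

def t71_45_382 : V3.chw 71 45 382 7 [1059, 1070] = true := by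
  decide +kernel

def t71_46_390 : V3.chw 71 46 390 2 [11, 6, 1070] = true := by
  decide +kernel

def t71_46_391 : V3.chw 71 46 391 7 [10] = true := by
  decide +kernel

def t71_47_398 : V3.chw 71 47 398 7 [10] = true := by
  decide +kernel

def t71_47_399 : V3.chw 71 47 399 7 [10, 1070] = true := by
  decide +kernel

def t71_48_407 : V3.chw 71 48 407 3 [4, 1036, 1] = true := by
  decide +kernel

def t71_48_408 : V3.chw 71 48 408 7 [10] = true := by
  decide +kernel

def t71_49_415 : V3.chw 71 49 415 7 [10] = true := by
  decide +kernel

def t71_49_416 : V3.chw 71 49 416 3 [12, 1059] = true := by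
  decide +kernel

theorem R71 {K : Type*} [Field K] [CharZero K] (m d : ℕ) (h : m ≤ 50) : MR K 71 m d := by
  interval_cases m
  · exact good_cova 7 (by decide +kernel) d
  · exact good_cova 7 (by decide +kernel) d
  · exact good_cova 7 (by decide +kernel) d
  · exact good_cova 7 (by decide +kernel) d
  · exact good_cova 7 (by decide +kernel) d
  · exact good_cova 7 (by decide +kernel) d
  · exact good_cova 7 (by decide +kernel) d
  · exact good_cova 7 (by decide +kernel) d
  · exact good_cova 7 (by decide +kernel) d
  · exact good_cova 7 (by decide +kernel) d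
  · exact good_cova 7 (by decide +kernel) d
  · exact good_cova 7 (by decide +kernel) d
  · exact good_cova 7 (by decide +kernel) d
  · exact good_cova 7 (by decide +kernel) d
  · exact good_cova 7 (by decide +kernel) d
  · exact good_cova 7 (by decide +kernel) d
  · exact good_cova 7 (by decide +kernel) d
  · exact good_cova 7 (by decide +kernel) d
  · exact good_cova 7 (by decide +kernel) d
  · exact good_cova 7 (by decide +kernel) d
  · exact good_cova 7 (by decide +kernel) d
  · exact good_cova 7 (by decide +kernel) d
  · exact good_cova 7 (by decide +kernel) d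
  · exact good_cova 7 (by decide +kernel) d
  · exact good_cova 7 (by decide +kernel) d
  · exact good_cova 7 (by decide +kernel) d
  · exact good_cova 7 (by decide +kernel) d
  · exact good_cova 7 (by decide +kernel) d
  · exact good_cova 7 (by decide +kernel) d
  · exact good_cova 7 (by decide +kernel) d
  · exact good_cova 7 (by decide +kernel) d
  · exact good_cova 7 (by decide +kernel) d
  · exact good_cova 7 (by decide +kernel) d
  · exact good_cova 7 (by decide +kernel) d
  · exact good_cova 7 (by decide +kernel) d
  · exact good_cova 7 (by decide +kernel) d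
  · exact good_cova 7 (by decide +kernel) d
  · exact good_cova 7 (by decide +kernel) d
  · exact good_cova 7 (by decide +kernel) d
  · exact good_cova 7 (by decide +kernel) d
  · exact good_cova 7 (by decide +kernel) d
  · exact crit 348 (by decide +kernel) (V3.good_chw _ _ t71_41_348) (V3.good_chw _ _ t71_41_349) d
  · exact crit 356 (by decide +kernel) (V3.good_chw _ _ t71_42_356) (V3.good_chw _ _ t71_42_357) d
  · exact crit 365 (by decide +kernel) K71m43d365.good (V3.good_chw _ _ t71_43_366) d
  · exact crit 373 (by decide +kernel) (V3.good_chw _ _ t71_44_373) (V3.good_chw _ _ t71_44_374) d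
  · exact crit 381 (by decide +kernel) (V3.good_chw _ _ t71_45_381) (V3.good_chw _ _ t71_45_382) d
  · exact crit 390 (by decide +kernel) (V3.good_chw _ _ t71_46_390) (V3.good_chw _ _ t71_46_391) d
  · exact crit 398 (by decide +kernel) (V3.good_chw _ _ t71_47_398) (V3.good_chw _ _ t71_47_399) d
  · exact crit 407 (by decide +kernel) (V3.good_chw _ _ t71_48_407) (V3.good_chw _ _ t71_48_408) d
  · exact crit 415 (by decide +kernel) (V3.good_chw _ _ t71_49_415) (V3.good_chw _ _ t71_49_416) d
  · exact crit0 424 (by decide +kernel) K71m50d424.good d

theorem R72 {K : Type*} [Field K] [CharZero K] (m d : ℕ) (h : m ≤ 50) : MR K 72 m d := by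
  interval_cases m
  · exact good_cova 8 (by decide +kernel) d
  · exact good_cova 8 (by decide +kernel) d
  · exact good_cova 8 (by decide +kernel) d
  · exact good_cova 8 (by decide +kernel) d
  · exact good_cova 8 (by decide +kernel) d
  · exact good_cova 8 (by decide +kernel) d
  · exact good_cova 8 (by decide +kernel) d
  · exact good_cova 8 (by decide +kernel) d
  · exact good_cova 8 (by decide +kernel) d
  · exact good_cova 8 (by decide +kernel) d
  · exact good_cova 8 (by decide +kernel) d
  · exact good_cova 8 (by decide +kernel) d
  · exact good_cova 8 (by decide +kernel) d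
  · exact good_cova 8 (by decide +kernel) d
  · exact good_cova 8 (by decide +kernel) d
  · exact good_cova 8 (by decide +kernel) d
  · exact good_cova 8 (by decide +kernel) d
  · exact good_cova 8 (by decide +kernel) d
  · exact good_cova 8 (by decide +kernel) d
  · exact good_cova 8 (by decide +kernel) d
  · exact good_cova 8 (by decide +kernel) d
  · exact good_cova 8 (by decide +kernel) d
  · exact good_cova 8 (by decide +kernel) d
  · exact good_cova 8 (by decide +kernel) d
  · exact good_cova 8 (by decide +kernel) d
  · exact good_cova 8 (by decide +kernel) d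
  · exact good_cova 8 (by decide +kernel) d
  · exact good_cova 8 (by decide +kernel) d
  · exact good_cova 8 (by decide +kernel) d
  · exact good_cova 8 (by decide +kernel) d
  · exact good_cova 8 (by decide +kernel) d
  · exact good_cova 8 (by decide +kernel) d
  · exact good_cova 8 (by decide +kernel) d
  · exact good_cova 8 (by decide +kernel) d
  · exact good_cova 8 (by decide +kernel) d
  · exact good_cova 8 (by decide +kernel) d
  · exact good_cova 8 (by decide +kernel) d
  · exact good_cova 8 (by decide +kernel) d
  · exact good_cova 8 (by decide +kernel) d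
  · exact good_cova 8 (by decide +kernel) d
  · exact good_cova 8 (by decide +kernel) d
  · exact good_cova 8 (by decide +kernel) d
  · exact good_cova 8 (by decide +kernel) d
  · exact good_cova 8 (by decide +kernel) d
  · exact good_cova 8 (by decide +kernel) d
  · exact good_cova 8 (by decide +kernel) d
  · exact good_cova 8 (by decide +kernel) d
  · exact good_cova 8 (by decide +kernel) d
  · exact good_cova 8 (by decide +kernel) d
  · exact good_cova 8 (by decide +kernel) d
  · exact good_cova 8 (by decide +kernel) d

end Pool.Agent.Helper54.FM
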