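import Pool.Agent.Helper54.FM.Fast3
import Pool.Agent.Helper54.FM.KC10

set_option autoImplicit false
set_option maxRecDepth 100000
set_option linter.defProp false

/-! Project FM (helper54), MP_e6aa12_ag: r = 73..80, m <= 50 (generated). -/

namespace Pool.Agent.Helper54.FM

def t73_40_344 : V3.chw 73 40 344 7 [10, 1] = true := by
  decide +kernel

def t73_40_345 : V3.chw 73 40 345 4 [3, 18] = true := by
  decide +kernel

def t73_41_353 : V3.chw 73 41 353 7 [1050, 1055, 1063, 1067, 1070] = true := by
  decide +kernel

def t73_41_354 : V3.chw 73 41 354 4 [3, 18] = true := by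
  decide +kernel

def t73_42_361 : V3.chw 73 42 361 7 [10, 1] = true := by
  decide +kernel

def t73_42_362 : V3.chw 73 42 362 4 [3, 18] = true := by
  decide +kernel

def t73_43_370 : V3.chw 73 43 370 7 [10, 1072] = true := by
  decide +kernel

def t73_43_371 : V3.chw 73 43 371 2 [7, 1047] = true := by
  decide +kernel

def t73_44_378 : V3.chw 73 44 378 5 [16, 1070] = true := by
  decide +kernel

def t73_44_379 : V3.chw 73 44 379 3 [4, 1037] = true := by
  decide +kernel

def t73_45_387 : V3.chw 73 45 387 7 [10, 1072] = true := by
  decide +kernel

def t73_45_388 : V3.chw 73 45 388 2 [7, 1047] = true := by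
  decide +kernel

def t73_46_395 : V3.chw 73 46 395 5 [13, 1065] = true := by
  decide +kernel

def t73_46_396 : V3.chw 73 46 396 7 [1059, 1072] = true := by
  decide +kernel

def t73_47_404 : V3.chw 73 47 404 7 [10, 1072] = true := by
  decide +kernel

def t73_47_405 : V3.chw 73 47 405 2 [7, 1047] = true := by
  decide +kernel

def t73_48_412 : V3.chw 73 48 412 5 [16, 1070] = true := by
  decide +kernel

def t73_48_413 : V3.chw 73 48 413 7 [10, 1072] = true := by
  decide +kernel

def t73_49_421 : V3.chw 73 49 421 7 [10, 1072] = true := by
  decide +kernel

def t73_49_422 : V3.chw 73 49 422 2 [7, 1047] = true := by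
  decide +kernel

def t73_50_429 : V3.chw 73 50 429 5 [13, 1065] = true := by
  decide +kernel

def t73_50_430 : V3.chw 73 50 430 3 [4, 1036, 1069, 1071] = true := by
  decide +kernel

theorem R73 {K : Type*} [Field K] [CharZero K] (m d : ℕ) (h : m ≤ 50) : MR K 73 m d := by
  interval_cases m
  · exact good_cova 7 (by decide +kernel) d
  · exact good_cova 7 (by decide +kernel) d
  · exact good_cova 7 (by decide +kernel) d
  · exact good_cova 7 (by decide +kernel) d
  · exact good_cova 7 (by decide +kernel) d
  · exact good_cova 7 (by decide +kernel) d
  · exact good_cova 7 (by decide +kernel) d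
  · exact good_cova 7 (by decide +kernel) d
  · exact good_cova 7 (by decide +kernel) d
  · exact good_cova 7 (by decide +kernel) d
  · exact good_cova 7 (by decide +kernel) d
  · exact good_cova 7 (by decide +kernel) d
  · exact good_cova 7 (by decide +kernel) d
  · exact good_cova 7 (by decide +kernel) d
  · exact good_cova 7 (by decide +kernel) d
  · exact good_cova 7 (by decide +kernel) d
  · exact good_cova 7 (by decide +kernel) d
  · exact good_cova 7 (by decide +kernel) d
  · exact good_cova 7 (by decide +kernel) d
  · exact good_cova 7 (by decide +kernel) d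
  · exact good_cova 7 (by decide +kernel) d
  · exact good_cova 7 (by decide +kernel) d
  · exact good_cova 7 (by decide +kernel) d
  · exact good_cova 7 (by decide +kernel) d
  · exact good_cova 7 (by decide +kernel) d
  · exact good_cova 7 (by decide +kernel) d
  · exact good_cova 7 (by decide +kernel) d
  · exact good_cova 7 (by decide +kernel) d
  · exact good_cova 7 (by decide +kernel) d
  · exact good_cova 7 (by decide +kernel) d
  · exact good_cova 7 (by decide +kernel) d
  · exact good_cova 7 (by decide +kernel) d
  · exact good_cova 7 (by decide +kernel) d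
  · exact good_cova 7 (by decide +kernel) d
  · exact good_cova 7 (by decide +kernel) d
  · exact good_cova 7 (by decide +kernel) d
  · exact good_cova 7 (by decide +kernel) d
  · exact good_cova 7 (by decide +kernel) d
  · exact good_cova 7 (by decide +kernel) d
  · exact good_cova 7 (by decide +kernel) d
  · exact crit 344 (by decide +kernel) (V3.good_chw _ _ t73_40_344) (V3.good_chw _ _ t73_40_345) d
  · exact crit 353 (by decide +kernel) (V3.good_chw _ _ t73_41_353) (V3.good_chw _ _ t73_41_354) d
  · exact crit 361 (by decide +kernel) (V3.good_chw _ _ t73_42_361) (V3.good_chw _ _ t73_42_362) d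
  · exact crit 370 (by decide +kernel) (V3.good_chw _ _ t73_43_370) (V3.good_chw _ _ t73_43_371) d
  · exact crit 378 (by decide +kernel) (V3.good_chw _ _ t73_44_378) (V3.good_chw _ _ t73_44_379) d
  · exact crit 387 (by decide +kernel) (V3.good_chw _ _ t73_45_387) (V3.good_chw _ _ t73_45_388) d
  · exact crit 395 (by decide +kernel) (V3.good_chw _ _ t73_46_395) (V3.good_chw _ _ t73_46_396) d
  · exact crit 404 (by decide +kernel) (V3.good_chw _ _ t73_47_404) (V3.good_chw _ _ t73_47_405) d
  · exact crit 412 (by decide +kernel) (V3.good_chw _ _ t73_48_412) (V3.good_chw _ _ t73_48_413) d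
  · exact crit 421 (by decide +kernel) (V3.good_chw _ _ t73_49_421) (V3.good_chw _ _ t73_49_422) d
  · exact crit 429 (by decide +kernel) (V3.good_chw _ _ t73_50_429) (V3.good_chw _ _ t73_50_430) d

theorem R74 {K : Type*} [Field K] [CharZero K] (m d : ℕ) (h : m ≤ 50) : MR K 74 m d := by
  interval_cases m
  · exact good_cova 8 (by decide +kernel) d
  · exact good_cova 8 (by decide +kernel) d
  · exact good_cova 8 (by decide +kernel) d
  · exact good_cova 8 (by decide +kernel) d
  · exact good_cova 8 (by decide +kernel) d
  · exact good_cova 8 (by decide +kernel) d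
  · exact good_cova 8 (by decide +kernel) d
  · exact good_cova 8 (by decide +kernel) d
  · exact good_cova 8 (by decide +kernel) d
  · exact good_cova 8 (by decide +kernel) d
  · exact good_cova 8 (by decide +kernel) d
  · exact good_cova 8 (by decide +kernel) d
  · exact good_cova 8 (by decide +kernel) d
  · exact good_cova 8 (by decide +kernel) d
  · exact good_cova 8 (by decide +kernel) d
  · exact good_cova 8 (by decide +kernel) d
  · exact good_cova 8 (by decide +kernel) d
  · exact good_cova 8 (by decide +kernel) d
  · exact good_cova 8 (by decide +kernel) d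
  · exact good_cova 8 (by decide +kernel) d
  · exact good_cova 8 (by decide +kernel) d
  · exact good_cova 8 (by decide +kernel) d
  · exact good_cova 8 (by decide +kernel) d
  · exact good_cova 8 (by decide +kernel) d
  · exact good_cova 8 (by decide +kernel) d
  · exact good_cova 8 (by decide +kernel) d
  · exact good_cova 8 (by decide +kernel) d
  · exact good_cova 8 (by decide +kernel) d
  · exact good_cova 8 (by decide +kernel) d
  · exact good_cova 8 (by decide +kernel) d
  · exact good_cova 8 (by decide +kernel) d
  · exact good_cova 8 (by decide +kernel) d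
  · exact good_cova 8 (by decide +kernel) d
  · exact good_cova 8 (by decide +kernel) d
  · exact good_cova 8 (by decide +kernel) d
  · exact good_cova 8 (by decide +kernel) d
  · exact good_cova 8 (by decide +kernel) d
  · exact good_cova 8 (by decide +kernel) d
  · exact good_cova 8 (by decide +kernel) d
  · exact good_cova 8 (by decide +kernel) d
  · exact good_cova 8 (by decide +kernel) d
  · exact good_cova 8 (by decide +kernel) d
  · exact good_cova 8 (by decide +kernel) d
  · exact good_cova 8 (by decide +kernel) d
  · exact good_cova 8 (by decide +kernel) d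
  · exact good_cova 8 (by decide +kernel) d
  · exact good_cova 8 (by decide +kernel) d
  · exact good_cova 8 (by decide +kernel) d
  · exact good_cova 8 (by decide +kernel) d
  · exact good_cova 8 (by decide +kernel) d
  · exact good_cova 8 (by decide +kernel) d

def t75_40_349 : V3.chw 75 40 349 3 [17, 1071] = true := by
  decide +kernel

def t75_40_350 : V3.chw 75 40 350 3 [17] = true := by
  decide +kernel

def t75_41_357 : V3.chw 75 41 357 4 [15, 7] = true := by
  decide +kernel

def t75_41_358 : V3.chw 75 41 358 3 [17, 1074] = true := by
  decide +kernel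

def t75_42_366 : V3.chw 75 42 366 2 [11, 6, 3] = true := by
  decide +kernel

def t75_42_367 : V3.chw 75 42 367 3 [17] = true := by
  decide +kernel

def t75_43_375 : V3.chw 75 43 375 6 [13, 4, 1074] = true := by
  decide +kernel

def t75_43_376 : V3.chw 75 43 376 3 [17] = true := by
  decide +kernel

def t75_44_383 : V3.chw 75 44 383 5 [16, 1071] = true := by
  decide +kernel

def t75_44_384 : V3.chw 75 44 384 3 [17, 1074] = true := by
  decide +kernel

def t75_45_392 : V3.chw 75 45 392 5 [16, 1071] = true := by
  decide +kernel

def t75_45_393 : V3.chw 75 45 393 3 [17] = true := by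
  decide +kernel

def t75_46_401 : V3.chw 75 46 401 5 [1, 18, 1073] = true := by
  decide +kernel

def t75_46_402 : V3.chw 75 46 402 3 [17] = true := by
  decide +kernel

def t75_47_409 : V3.chw 75 47 409 5 [16, 1071] = true := by
  decide +kernel

def t75_47_410 : V3.chw 75 47 410 3 [17, 1074] = true := by
  decide +kernel

def t75_48_418 : V3.chw 75 48 418 5 [16, 1071] = true := by
  decide +kernel

def t75_48_419 : V3.chw 75 48 419 3 [17] = true := by
  decide +kernel

def t75_49_427 : V3.chw 75 49 427 7 [10, 1073] = true := by
  decide +kernel

def t75_49_428 : V3.chw 75 49 428 3 [17] = true := by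
  decide +kernel

def t75_50_435 : V3.chw 75 50 435 5 [16, 1071] = true := by
  decide +kernel

def t75_50_436 : V3.chw 75 50 436 3 [17, 1074] = true := by
  decide +kernel

theorem R75 {K : Type*} [Field K] [CharZero K] (m d : ℕ) (h : m ≤ 50) : MR K 75 m d := by
  interval_cases m
  · exact good_cova 7 (by decide +kernel) d
  · exact good_cova 7 (by decide +kernel) d
  · exact good_cova 7 (by decide +kernel) d
  · exact good_cova 7 (by decide +kernel) d
  · exact good_cova 7 (by decide +kernel) d
  · exact good_cova 7 (by decide +kernel) d
  · exact good_cova 7 (by decide +kernel) d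
  · exact good_cova 7 (by decide +kernel) d
  · exact good_cova 7 (by decide +kernel) d
  · exact good_cova 7 (by decide +kernel) d
  · exact good_cova 7 (by decide +kernel) d
  · exact good_cova 7 (by decide +kernel) d
  · exact good_cova 7 (by decide +kernel) d
  · exact good_cova 7 (by decide +kernel) d
  · exact good_cova 7 (by decide +kernel) d
  · exact good_cova 7 (by decide +kernel) d
  · exact good_cova 7 (by decide +kernel) d
  · exact good_cova 7 (by decide +kernel) d
  · exact good_cova 7 (by decide +kernel) d
  · exact good_cova 7 (by decide +kernel) d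
  · exact good_cova 7 (by decide +kernel) d
  · exact good_cova 7 (by decide +kernel) d
  · exact good_cova 7 (by decide +kernel) d
  · exact good_cova 7 (by decide +kernel) d
  · exact good_cova 7 (by decide +kernel) d
  · exact good_cova 7 (by decide +kernel) d
  · exact good_cova 7 (by decide +kernel) d
  · exact good_cova 7 (by decide +kernel) d
  · exact good_cova 7 (by decide +kernel) d
  · exact good_cova 7 (by decide +kernel) d
  · exact good_cova 7 (by decide +kernel) d
  · exact good_cova 7 (by decide +kernel) d
  · exact good_cova 7 (by decide +kernel) d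
  · exact good_cova 7 (by decide +kernel) d
  · exact good_cova 7 (by decide +kernel) d
  · exact good_cova 7 (by decide +kernel) d
  · exact good_cova 7 (by decide +kernel) d
  · exact good_cova 7 (by decide +kernel) d
  · exact good_cova 7 (by decide +kernel) d
  · exact good_cova 7 (by decide +kernel) d
  · exact crit 349 (by decide +kernel) (V3.good_chw _ _ t75_40_349) (V3.good_chw _ _ t75_40_350) d
  · exact crit 357 (by decide +kernel) (V3.good_chw _ _ t75_41_357) (V3.good_chw _ _ t75_41_358) d
  · exact crit 366 (by decide +kernel) (V3.good_chw _ _ t75_42_366) (V3.good_chw _ _ t75_42_367) d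
  · exact crit 375 (by decide +kernel) (V3.good_chw _ _ t75_43_375) (V3.good_chw _ _ t75_43_376) d
  · exact crit 383 (by decide +kernel) (V3.good_chw _ _ t75_44_383) (V3.good_chw _ _ t75_44_384) d
  · exact crit 392 (by decide +kernel) (V3.good_chw _ _ t75_45_392) (V3.good_chw _ _ t75_45_393) d
  · exact crit 401 (by decide +kernel) (V3.good_chw _ _ t75_46_401) (V3.good_chw _ _ t75_46_402) d
  · exact crit 409 (by decide +kernel) (V3.good_chw _ _ t75_47_409) (V3.good_chw _ _ t75_47_410) d
  · exact crit 418 (by decide +kernel) (V3.good_chw _ _ t75_48_418) (V3.good_chw _ _ t75_48_419) d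
  · exact crit 427 (by decide +kernel) (V3.good_chw _ _ t75_49_427) (V3.good_chw _ _ t75_49_428) d
  · exact crit 435 (by decide +kernel) (V3.good_chw _ _ t75_50_435) (V3.good_chw _ _ t75_50_436) d

theorem R76 {K : Type*} [Field K] [CharZero K] (m d : ℕ) (h : m ≤ 50) : MR K 76 m d := by
  interval_cases m
  · exact good_cova 8 (by decide +kernel) d
  · exact good_cova 8 (by decide +kernel) d
  · exact good_cova 8 (by decide +kernel) d
  · exact good_cova 8 (by decide +kernel) d
  · exact good_cova 8 (by decide +kernel) d
  · exact good_cova 8 (by decide +kernel) d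
  · exact good_cova 8 (by decide +kernel) d
  · exact good_cova 8 (by decide +kernel) d
  · exact good_cova 8 (by decide +kernel) d
  · exact good_cova 8 (by decide +kernel) d
  · exact good_cova 8 (by decide +kernel) d
  · exact good_cova 8 (by decide +kernel) d
  · exact good_cova 8 (by decide +kernel) d
  · exact good_cova 8 (by decide +kernel) d
  · exact good_cova 8 (by decide +kernel) d
  · exact good_cova 8 (by decide +kernel) d
  · exact good_cova 8 (by decide +kernel) d
  · exact good_cova 8 (by decide +kernel) d
  · exact good_cova 8 (by decide +kernel) d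
  · exact good_cova 8 (by decide +kernel) d
  · exact good_cova 8 (by decide +kernel) d
  · exact good_cova 8 (by decide +kernel) d
  · exact good_cova 8 (by decide +kernel) d
  · exact good_cova 8 (by decide +kernel) d
  · exact good_cova 8 (by decide +kernel) d
  · exact good_cova 8 (by decide +kernel) d
  · exact good_cova 8 (by decide +kernel) d
  · exact good_cova 8 (by decide +kernel) d
  · exact good_cova 8 (by decide +kernel) d
  · exact good_cova 8 (by decide +kernel) d
  · exact good_cova 8 (by decide +kernel) d
  · exact good_cova 8 (by decide +kernel) d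
  · exact good_cova 8 (by decide +kernel) d
  · exact good_cova 8 (by decide +kernel) d
  · exact good_cova 8 (by decide +kernel) d
  · exact good_cova 8 (by decide +kernel) d
  · exact good_cova 8 (by decide +kernel) d
  · exact good_cova 8 (by decide +kernel) d
  · exact good_cova 8 (by decide +kernel) d
  · exact good_cova 8 (by decide +kernel) d
  · exact good_cova 8 (by decide +kernel) d
  · exact good_cova 8 (by decide +kernel) d
  · exact good_cova 8 (by decide +kernel) d
  · exact good_cova 8 (by decide +kernel) d
  · exact good_cova 8 (by decide +kernel) d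
  · exact good_cova 8 (by decide +kernel) d
  · exact good_cova 8 (by decide +kernel) d
  · exact good_cova 8 (by decide +kernel) d
  · exact good_cova 8 (by decide +kernel) d
  · exact good_cova 8 (by decide +kernel) d
  · exact good_cova 8 (by decide +kernel) d

def t77_39_345 : V3.chw 77 39 345 5 [1, 18, 1076] = true := by
  decide +kernel

def t77_39_346 : V3.chw 77 39 346 2 [7, 18] = true := by
  decide +kernel

def t77_40_353 : V3.chw 77 40 353 4 [15, 8] = true := by
  decide +kernel

def t77_40_354 : V3.chw 77 40 354 2 [1, 1009, 1016, 1019, 1039] = true := by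
  decide +kernel

def t77_41_362 : V3.chw 77 41 362 4 [15, 8] = true := by
  decide +kernel

def t77_41_363 : V3.chw 77 41 363 3 [17, 1] = true := by
  decide +kernel

def t77_42_371 : V3.chw 77 42 371 3 [17, 1] = true := by
  decide +kernel

def t77_42_372 : V3.chw 77 42 372 2 [7, 18] = true := by
  decide +kernel

def t77_43_380 : V3.chw 77 43 380 7 [10, 1074, 1076] = true := by
  decide +kernel

def t77_43_381 : V3.chw 77 43 381 2 [7, 18] = true := by
  decide +kernel

def t77_44_388 : V3.chw 77 44 388 5 [13, 9] = true := by
  decide +kernel

def t77_44_389 : V3.chw 77 44 389 7 [10, 1, 1074, 1076] = true := by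
  decide +kernel

def t77_45_397 : V3.chw 77 45 397 5 [12, 1065] = true := by
  decide +kernel

def t77_45_398 : V3.chw 77 45 398 3 [4, 1038] = true := by
  decide +kernel

def t77_46_406 : V3.chw 77 46 406 3 [17, 1] = true := by
  decide +kernel

def t77_46_407 : V3.chw 77 46 407 2 [7, 18] = true := by
  decide +kernel

def t77_47_415 : V3.chw 77 47 415 3 [17, 1] = true := by
  decide +kernel

def t77_47_416 : V3.chw 77 47 416 2 [7, 18] = true := by
  decide +kernel

def t77_48_424 : V3.chw 77 48 424 5 [1, 18, 1076] = true := by
  decide +kernel

def t77_48_425 : V3.chw 77 48 425 2 [7, 18] = true := by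
  decide +kernel

def t77_49_432 : V3.chw 77 49 432 5 [16, 1072] = true := by
  decide +kernel

def t77_49_433 : V3.chw 77 49 433 7 [10, 1074, 1076] = true := by
  decide +kernel

def t77_50_441 : V3.chw 77 50 441 5 [16, 1072] = true := by
  decide +kernel

def t77_50_442 : V3.chw 77 50 442 3 [4, 1038] = true := by
  decide +kernel

theorem R77 {K : Type*} [Field K] [CharZero K] (m d : ℕ) (h : m ≤ 50) : MR K 77 m d := by
  interval_cases m
  · exact good_cova 7 (by decide +kernel) d
  · exact good_cova 7 (by decide +kernel) d
  · exact good_cova 7 (by decide +kernel) d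
  · exact good_cova 7 (by decide +kernel) d
  · exact good_cova 7 (by decide +kernel) d
  · exact good_cova 7 (by decide +kernel) d
  · exact good_cova 7 (by decide +kernel) d
  · exact good_cova 7 (by decide +kernel) d
  · exact good_cova 7 (by decide +kernel) d
  · exact good_cova 7 (by decide +kernel) d
  · exact good_cova 7 (by decide +kernel) d
  · exact good_cova 7 (by decide +kernel) d
  · exact good_cova 7 (by decide +kernel) d
  · exact good_cova 7 (by decide +kernel) d
  · exact good_cova 7 (by decide +kernel) d
  · exact good_cova 7 (by decide +kernel) d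
  · exact good_cova 7 (by decide +kernel) d
  · exact good_cova 7 (by decide +kernel) d
  · exact good_cova 7 (by decide +kernel) d
  · exact good_cova 7 (by decide +kernel) d
  · exact good_cova 7 (by decide +kernel) d
  · exact good_cova 7 (by decide +kernel) d
  · exact good_cova 7 (by decide +kernel) d
  · exact good_cova 7 (by decide +kernel) d
  · exact good_cova 7 (by decide +kernel) d
  · exact good_cova 7 (by decide +kernel) d
  · exact good_cova 7 (by decide +kernel) d
  · exact good_cova 7 (by decide +kernel) d
  · exact good_cova 7 (by decide +kernel) d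
  · exact good_cova 7 (by decide +kernel) d
  · exact good_cova 7 (by decide +kernel) d
  · exact good_cova 7 (by decide +kernel) d
  · exact good_cova 7 (by decide +kernel) d
  · exact good_cova 7 (by decide +kernel) d
  · exact good_cova 7 (by decide +kernel) d
  · exact good_cova 7 (by decide +kernel) d
  · exact good_cova 7 (by decide +kernel) d
  · exact good_cova 7 (by decide +kernel) d
  · exact good_cova 7 (by decide +kernel) d
  · exact crit 345 (by decide +kernel) (V3.good_chw _ _ t77_39_345) (V3.good_chw _ _ t77_39_346) d
  · exact crit 353 (by decide +kernel) (V3.good_chw _ _ t77_40_353) (V3.good_chw _ _ t77_40_354) d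
  · exact crit 362 (by decide +kernel) (V3.good_chw _ _ t77_41_362) (V3.good_chw _ _ t77_41_363) d
  · exact crit 371 (by decide +kernel) (V3.good_chw _ _ t77_42_371) (V3.good_chw _ _ t77_42_372) d
  · exact crit 380 (by decide +kernel) (V3.good_chw _ _ t77_43_380) (V3.good_chw _ _ t77_43_381) d
  · exact crit 388 (by decide +kernel) (V3.good_chw _ _ t77_44_388) (V3.good_chw _ _ t77_44_389) d
  · exact crit 397 (by decide +kernel) (V3.good_chw _ _ t77_45_397) (V3.good_chw _ _ t77_45_398) d
  · exact crit 406 (by decide +kernel) (V3.good_chw _ _ t77_46_406) (V3.good_chw _ _ t77_46_407) d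
  · exact crit 415 (by decide +kernel) (V3.good_chw _ _ t77_47_415) (V3.good_chw _ _ t77_47_416) d
  · exact crit 424 (by decide +kernel) (V3.good_chw _ _ t77_48_424) (V3.good_chw _ _ t77_48_425) d
  · exact crit 432 (by decide +kernel) (V3.good_chw _ _ t77_49_432) (V3.good_chw _ _ t77_49_433) d
  · exact crit 441 (by decide +kernel) (V3.good_chw _ _ t77_50_441) (V3.good_chw _ _ t77_50_442) d

theorem R78 {K : Type*} [Field K] [CharZero K] (m d : ℕ) (h : m ≤ 50) : MR K 78 m d := by
  interval_cases m
  · exact good_cova 8 (by decide +kernel) d
  · exact good_cova 8 (by decide +kernel) d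
  · exact good_cova 8 (by decide +kernel) d
  · exact good_cova 8 (by decide +kernel) d
  · exact good_cova 8 (by decide +kernel) d
  · exact good_cova 8 (by decide +kernel) d
  · exact good_cova 8 (by decide +kernel) d
  · exact good_cova 8 (by decide +kernel) d
  · exact good_cova 8 (by decide +kernel) d
  · exact good_cova 8 (by decide +kernel) d
  · exact good_cova 8 (by decide +kernel) d
  · exact good_cova 8 (by decide +kernel) d
  · exact good_cova 8 (by decide +kernel) d
  · exact good_cova 8 (by decide +kernel) d
  · exact good_cova 8 (by decide +kernel) d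
  · exact good_cova 8 (by decide +kernel) d
  · exact good_cova 8 (by decide +kernel) d
  · exact good_cova 8 (by decide +kernel) d
  · exact good_cova 8 (by decide +kernel) d
  · exact good_cova 8 (by decide +kernel) d
  · exact good_cova 8 (by decide +kernel) d
  · exact good_cova 8 (by decide +kernel) d
  · exact good_cova 8 (by decide +kernel) d
  · exact good_cova 8 (by decide +kernel) d
  · exact good_cova 8 (by decide +kernel) d
  · exact good_cova 8 (by decide +kernel) d
  · exact good_cova 8 (by decide +kernel) d
  · exact good_cova 8 (by decide +kernel) d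
  · exact good_cova 8 (by decide +kernel) d
  · exact good_cova 8 (by decide +kernel) d
  · exact good_cova 8 (by decide +kernel) d
  · exact good_cova 8 (by decide +kernel) d
  · exact good_cova 8 (by decide +kernel) d
  · exact good_cova 8 (by decide +kernel) d
  · exact good_cova 8 (by decide +kernel) d
  · exact good_cova 8 (by decide +kernel) d
  · exact good_cova 8 (by decide +kernel) d
  · exact good_cova 8 (by decide +kernel) d
  · exact good_cova 8 (by decide +kernel) d
  · exact good_cova 8 (by decide +kernel) d
  · exact good_cova 8 (by decide +kernel) d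
  · exact good_cova 8 (by decide +kernel) d
  · exact good_cova 8 (by decide +kernel) d
  · exact good_cova 8 (by decide +kernel) d
  · exact good_cova 8 (by decide +kernel) d
  · exact good_cova 8 (by decide +kernel) d
  · exact good_cova 8 (by decide +kernel) d
  · exact good_cova 8 (by decide +kernel) d
  · exact good_cova 8 (by decide +kernel) d
  · exact good_cova 8 (by decide +kernel) d
  · exact good_cova 8 (by decide +kernel) d

def t79_39_349 : V3.chw 79 39 349 3 [17, 2] = true := by
  decide +kernel

def t79_39_350 : V3.chw 79 39 350 3 [17, 2] = true := by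
  decide +kernel

def t79_40_358 : V3.chw 79 40 358 3 [17, 2] = true := by
  decide +kernel

def t79_40_359 : V3.chw 79 40 359 2 [1, 16] = true := by
  decide +kernel

def t79_41_367 : V3.chw 79 41 367 7 [10, 1072, 1076] = true := by
  decide +kernel

def t79_41_368 : V3.chw 79 41 368 8 [7] = true := by
  decide +kernel

def t79_42_376 : V3.chw 79 42 376 7 [10, 1072, 1076] = true := by
  decide +kernel

def t79_42_377 : V3.chw 79 42 377 8 [7] = true := by
  decide +kernel

def t79_43_385 : V3.chw 79 43 385 2 [5, 1040, 1078] = true := by
  decide +kernel

def t79_43_386 : V3.chw 79 43 386 8 [7] = true := by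
  decide +kernel

def t79_45_402 : V3.chw 79 45 402 5 [16, 1073] = true := by
  decide +kernel

def t79_45_403 : V3.chw 79 45 403 2 [5, 1040] = true := by
  decide +kernel

def t79_46_411 : V3.chw 79 46 411 5 [16, 1073] = true := by
  decide +kernel

def t79_46_412 : V3.chw 79 46 412 2 [5, 1040] = true := by
  decide +kernel

def t79_47_420 : V3.chw 79 47 420 7 [9, 5] = true := by
  decide +kernel

def t79_47_421 : V3.chw 79 47 421 2 [5, 1040] = true := by
  decide +kernel

def t79_48_429 : V3.chw 79 48 429 6 [16, 1077] = true := by
  decide +kernel

def t79_48_430 : V3.chw 79 48 430 2 [5, 1040] = true := by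
  decide +kernel

def t79_49_438 : V3.chw 79 49 438 6 [16, 1077] = true := by
  decide +kernel

def t79_49_439 : V3.chw 79 49 439 2 [5, 1040] = true := by
  decide +kernel

def t79_50_447 : V3.chw 79 50 447 3 [17, 1077] = true := by
  decide +kernel

def t79_50_448 : V3.chw 79 50 448 2 [1, 16] = true := by
  decide +kernel

theorem R79 {K : Type*} [Field K] [CharZero K] (m d : ℕ) (h : m ≤ 50) : MR K 79 m d := by
  interval_cases m
  · exact good_cova 7 (by decide +kernel) d
  · exact good_cova 7 (by decide +kernel) d
  · exact good_cova 7 (by decide +kernel) d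
  · exact good_cova 7 (by decide +kernel) d
  · exact good_cova 7 (by decide +kernel) d
  · exact good_cova 7 (by decide +kernel) d
  · exact good_cova 7 (by decide +kernel) d
  · exact good_cova 7 (by decide +kernel) d
  · exact good_cova 7 (by decide +kernel) d
  · exact good_cova 7 (by decide +kernel) d
  · exact good_cova 7 (by decide +kernel) d
  · exact good_cova 7 (by decide +kernel) d
  · exact good_cova 7 (by decide +kernel) d
  · exact good_cova 7 (by decide +kernel) d
  · exact good_cova 7 (by decide +kernel) d
  · exact good_cova 7 (by decide +kernel) d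
  · exact good_cova 7 (by decide +kernel) d
  · exact good_cova 7 (by decide +kernel) d
  · exact good_cova 7 (by decide +kernel) d
  · exact good_cova 7 (by decide +kernel) d
  · exact good_cova 7 (by decide +kernel) d
  · exact good_cova 7 (by decide +kernel) d
  · exact good_cova 7 (by decide +kernel) d
  · exact good_cova 7 (by decide +kernel) d
  · exact good_cova 7 (by decide +kernel) d
  · exact good_cova 7 (by decide +kernel) d
  · exact good_cova 7 (by decide +kernel) d
  · exact good_cova 7 (by decide +kernel) d
  · exact good_cova 7 (by decide +kernel) d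
  · exact good_cova 7 (by decide +kernel) d
  · exact good_cova 7 (by decide +kernel) d
  · exact good_cova 7 (by decide +kernel) d
  · exact good_cova 7 (by decide +kernel) d
  · exact good_cova 7 (by decide +kernel) d
  · exact good_cova 7 (by decide +kernel) d
  · exact good_cova 7 (by decide +kernel) d
  · exact good_cova 7 (by decide +kernel) d
  · exact good_cova 7 (by decide +kernel) d
  · exact good_cova 7 (by decide +kernel) d
  · exact crit 349 (by decide +kernel) (V3.good_chw _ _ t79_39_349) (V3.good_chw _ _ t79_39_350) d
  · exact crit 358 (by decide +kernel) (V3.good_chw _ _ t79_40_358) (V3.good_chw _ _ t79_40_359) d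
  · exact crit 367 (by decide +kernel) (V3.good_chw _ _ t79_41_367) (V3.good_chw _ _ t79_41_368) d
  · exact crit 376 (by decide +kernel) (V3.good_chw _ _ t79_42_376) (V3.good_chw _ _ t79_42_377) d
  · exact crit 385 (by decide +kernel) (V3.good_chw _ _ t79_43_385) (V3.good_chw _ _ t79_43_386) d
  · exact crit0 394 (by decide +kernel) K79m44d394.good d
  · exact crit 402 (by decide +kernel) (V3.good_chw _ _ t79_45_402) (V3.good_chw _ _ t79_45_403) d
  · exact crit 411 (by decide +kernel) (V3.good_chw _ _ t79_46_411) (V3.good_chw _ _ t79_46_412) d
  · exact crit 420 (by decide +kernel) (V3.good_chw _ _ t79_47_420) (V3.good_chw _ _ t79_47_421) d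
  · exact crit 429 (by decide +kernel) (V3.good_chw _ _ t79_48_429) (V3.good_chw _ _ t79_48_430) d
  · exact crit 438 (by decide +kernel) (V3.good_chw _ _ t79_49_438) (V3.good_chw _ _ t79_49_439) d
  · exact crit 447 (by decide +kernel) (V3.good_chw _ _ t79_50_447) (V3.good_chw _ _ t79_50_448) d

theorem R80 {K : Type*} [Field K] [CharZero K] (m d : ℕ) (h : m ≤ 50) : MR K 80 m d := by
  interval_cases m
  · exact good_cova 8 (by decide +kernel) d
  · exact good_cova 8 (by decide +kernel) d
  · exact good_cova 8 (by decide +kernel) d
  · exact good_cova 8 (by decide +kernel) d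
  · exact good_cova 8 (by decide +kernel) d
  · exact good_cova 8 (by decide +kernel) d
  · exact good_cova 8 (by decide +kernel) d
  · exact good_cova 8 (by decide +kernel) d
  · exact good_cova 8 (by decide +kernel) d
  · exact good_cova 8 (by decide +kernel) d
  · exact good_cova 8 (by decide +kernel) d
  · exact good_cova 8 (by decide +kernel) d
  · exact good_cova 8 (by decide +kernel) d
  · exact good_cova 8 (by decide +kernel) d
  · exact good_cova 8 (by decide +kernel) d
  · exact good_cova 8 (by decide +kernel) d
  · exact good_cova 8 (by decide +kernel) d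
  · exact good_cova 8 (by decide +kernel) d
  · exact good_cova 8 (by decide +kernel) d
  · exact good_cova 8 (by decide +kernel) d
  · exact good_cova 8 (by decide +kernel) d
  · exact good_cova 8 (by decide +kernel) d
  · exact good_cova 8 (by decide +kernel) d
  · exact good_cova 8 (by decide +kernel) d
  · exact good_cova 8 (by decide +kernel) d
  · exact good_cova 8 (by decide +kernel) d
  · exact good_cova 8 (by decide +kernel) d
  · exact good_cova 8 (by decide +kernel) d
  · exact good_cova 8 (by decide +kernel) d
  · exact good_cova 8 (by decide +kernel) d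
  · exact good_cova 8 (by decide +kernel) d
  · exact good_cova 8 (by decide +kernel) d
  · exact good_cova 8 (by decide +kernel) d
  · exact good_cova 8 (by decide +kernel) d
  · exact good_cova 8 (by decide +kernel) d
  · exact good_cova 8 (by decide +kernel) d
  · exact good_cova 8 (by decide +kernel) d
  · exact good_cova 8 (by decide +kernel) d
  · exact good_cova 8 (by decide +kernel) d
  · exact good_cova 8 (by decide +kernel) d
  · exact good_cova 8 (by decide +kernel) d
  · exact good_cova 8 (by decide +kernel) d
  · exact good_cova 8 (by decide +kernel) d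
  · exact good_cova 8 (by decide +kernel) d
  · exact good_cova 8 (by decide +kernel) d
  · exact good_cova 8 (by decide +kernel) d
  · exact good_cova 8 (by decide +kernel) d
  · exact good_cova 8 (by decide +kernel) d
  · exact good_cova 8 (by decide +kernel) d
  · exact good_cova 8 (by decide +kernel) d
  · exact good_cova 8 (by decide +kernel) d

end Pool.Agent.Helper54.FM
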