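import Pool.Agent.Helper54.FM.Fast3

set_option autoImplicit false
set_option maxRecDepth 100000
set_option linter.defProp false

/-! Project FM (helper54), MP_e6aa12_ag: r = 18..21, m <= 50 (generated). -/

namespace Pool.Agent.Helper54.FM

def t18_17_72 : V3.chw 18 17 72 4 [1] = true := by
  decide +kernel

def t18_17_73 : V3.chw 18 17 73 4 [1] = true := by
  decide +kernel

def t18_18_76 : V3.chw 18 18 76 4 [1] = true := by
  decide +kernel

def t18_18_77 : V3.chw 18 18 77 4 [1] = true := by
  decide +kernel

def t18_19_81 : V3.chw 18 19 81 4 [1] = true := by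
  decide +kernel

def t18_19_82 : V3.chw 18 19 82 4 [1] = true := by
  decide +kernel

def t18_20_85 : V3.chw 18 20 85 4 [1] = true := by
  decide +kernel

def t18_20_86 : V3.chw 18 20 86 4 [1] = true := by
  decide +kernel

def t18_21_89 : V3.chw 18 21 89 4 [1] = true := by
  decide +kernel

def t18_21_90 : V3.chw 18 21 90 4 [1] = true := by
  decide +kernel

def t18_22_93 : V3.chw 18 22 93 4 [1] = true := by
  decide +kernel

def t18_22_94 : V3.chw 18 22 94 4 [1] = true := by
  decide +kernel

def t18_23_98 : V3.chw 18 23 98 4 [1] = true := by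
  decide +kernel

def t18_23_99 : V3.chw 18 23 99 4 [1] = true := by
  decide +kernel

def t18_24_102 : V3.chw 18 24 102 4 [1] = true := by
  decide +kernel

def t18_24_103 : V3.chw 18 24 103 4 [1] = true := by
  decide +kernel

def t18_25_106 : V3.chw 18 25 106 4 [1] = true := by
  decide +kernel

def t18_25_107 : V3.chw 18 25 107 4 [1] = true := by
  decide +kernel

def t18_26_110 : V3.chw 18 26 110 4 [1] = true := by
  decide +kernel

def t18_26_111 : V3.chw 18 26 111 4 [1] = true := by
  decide +kernel

def t18_27_115 : V3.chw 18 27 115 4 [1] = true := by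
  decide +kernel

def t18_27_116 : V3.chw 18 27 116 4 [1] = true := by
  decide +kernel

def t18_28_119 : V3.chw 18 28 119 4 [1] = true := by
  decide +kernel

def t18_28_120 : V3.chw 18 28 120 4 [1] = true := by
  decide +kernel

def t18_29_123 : V3.chw 18 29 123 4 [1] = true := by
  decide +kernel

def t18_29_124 : V3.chw 18 29 124 4 [1] = true := by
  decide +kernel

def t18_30_127 : V3.chw 18 30 127 4 [1] = true := by
  decide +kernel

def t18_30_128 : V3.chw 18 30 128 4 [1] = true := by
  decide +kernel

def t18_31_132 : V3.chw 18 31 132 4 [1014, 1] = true := by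
  decide +kernel

def t18_31_133 : V3.chw 18 31 133 4 [1] = true := by
  decide +kernel

def t18_32_136 : V3.chw 18 32 136 4 [1] = true := by
  decide +kernel

def t18_32_137 : V3.chw 18 32 137 4 [1] = true := by
  decide +kernel

def t18_33_140 : V3.chw 18 33 140 4 [1] = true := by
  decide +kernel

def t18_33_141 : V3.chw 18 33 141 4 [1] = true := by
  decide +kernel

def t18_34_144 : V3.chw 18 34 144 4 [1] = true := by
  decide +kernel

def t18_34_145 : V3.chw 18 34 145 4 [1] = true := by
  decide +kernel

def t18_35_149 : V3.chw 18 35 149 3 [3, 1016, 1017] = true := by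
  decide +kernel

def t18_35_150 : V3.chw 18 35 150 4 [1] = true := by
  decide +kernel

def t18_36_153 : V3.chw 18 36 153 4 [1] = true := by
  decide +kernel

def t18_36_154 : V3.chw 18 36 154 4 [1] = true := by
  decide +kernel

def t18_37_157 : V3.chw 18 37 157 4 [1] = true := by
  decide +kernel

def t18_37_158 : V3.chw 18 37 158 4 [1] = true := by
  decide +kernel

def t18_38_161 : V3.chw 18 38 161 4 [1] = true := by
  decide +kernel

def t18_38_162 : V3.chw 18 38 162 4 [1] = true := by
  decide +kernel

def t18_39_166 : V3.chw 18 39 166 3 [3, 1016, 1017] = true := by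
  decide +kernel

def t18_39_167 : V3.chw 18 39 167 4 [1] = true := by
  decide +kernel

def t18_40_170 : V3.chw 18 40 170 4 [1] = true := by
  decide +kernel

def t18_40_171 : V3.chw 18 40 171 4 [1] = true := by
  decide +kernel

def t18_41_174 : V3.chw 18 41 174 4 [1] = true := by
  decide +kernel

def t18_41_175 : V3.chw 18 41 175 4 [1] = true := by
  decide +kernel

def t18_42_178 : V3.chw 18 42 178 4 [1] = true := by
  decide +kernel

def t18_42_179 : V3.chw 18 42 179 4 [1] = true := by
  decide +kernel

def t18_43_183 : V3.chw 18 43 183 3 [3, 1016, 1017] = true := by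
  decide +kernel

def t18_43_184 : V3.chw 18 43 184 4 [1] = true := by
  decide +kernel

def t18_44_187 : V3.chw 18 44 187 4 [1] = true := by
  decide +kernel

def t18_44_188 : V3.chw 18 44 188 4 [1] = true := by
  decide +kernel

def t18_45_191 : V3.chw 18 45 191 4 [1] = true := by
  decide +kernel

def t18_45_192 : V3.chw 18 45 192 4 [1] = true := by
  decide +kernel

def t18_46_195 : V3.chw 18 46 195 4 [1] = true := by
  decide +kernel

def t18_46_196 : V3.chw 18 46 196 4 [1] = true := by
  decide +kernel

def t18_47_200 : V3.chw 18 47 200 3 [3, 1016, 1017] = true := by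
  decide +kernel

def t18_47_201 : V3.chw 18 47 201 4 [1] = true := by
  decide +kernel

def t18_48_204 : V3.chw 18 48 204 4 [1014, 1] = true := by
  decide +kernel

def t18_48_205 : V3.chw 18 48 205 4 [1] = true := by
  decide +kernel

def t18_49_208 : V3.chw 18 49 208 4 [1] = true := by
  decide +kernel

def t18_49_209 : V3.chw 18 49 209 4 [1] = true := by
  decide +kernel

def t18_50_212 : V3.chw 18 50 212 4 [1] = true := by
  decide +kernel

def t18_50_213 : V3.chw 18 50 213 4 [1] = true := by
  decide +kernel

theorem R18 {K : Type*} [Field K] [CharZero K] (m d : ℕ) (h : m ≤ 50) : MR K 18 m d := by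
  interval_cases m
  · exact good_cova 4 (by decide +kernel) d
  · exact good_cova 4 (by decide +kernel) d
  · exact good_cova 4 (by decide +kernel) d
  · exact good_cova 4 (by decide +kernel) d
  · exact good_cova 4 (by decide +kernel) d
  · exact good_cova 4 (by decide +kernel) d
  · exact good_cova 4 (by decide +kernel) d
  · exact good_cova 4 (by decide +kernel) d
  · exact good_cova 4 (by decide +kernel) d
  · exact good_cova 4 (by decide +kernel) d
  · exact good_cova 4 (by decide +kernel) d
  · exact good_cova 4 (by decide +kernel) d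
  · exact good_cova 4 (by decide +kernel) d
  · exact good_cova 4 (by decide +kernel) d
  · exact good_cova 4 (by decide +kernel) d
  · exact good_cova 4 (by decide +kernel) d
  · exact good_cova 4 (by decide +kernel) d
  · exact crit 72 (by decide +kernel) (V3.good_chw _ _ t18_17_72) (V3.good_chw _ _ t18_17_73) d
  · exact crit 76 (by decide +kernel) (V3.good_chw _ _ t18_18_76) (V3.good_chw _ _ t18_18_77) d
  · exact crit 81 (by decide +kernel) (V3.good_chw _ _ t18_19_81) (V3.good_chw _ _ t18_19_82) d
  · exact crit 85 (by decide +kernel) (V3.good_chw _ _ t18_20_85) (V3.good_chw _ _ t18_20_86) d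
  · exact crit 89 (by decide +kernel) (V3.good_chw _ _ t18_21_89) (V3.good_chw _ _ t18_21_90) d
  · exact crit 93 (by decide +kernel) (V3.good_chw _ _ t18_22_93) (V3.good_chw _ _ t18_22_94) d
  · exact crit 98 (by decide +kernel) (V3.good_chw _ _ t18_23_98) (V3.good_chw _ _ t18_23_99) d
  · exact crit 102 (by decide +kernel) (V3.good_chw _ _ t18_24_102) (V3.good_chw _ _ t18_24_103) d
  · exact crit 106 (by decide +kernel) (V3.good_chw _ _ t18_25_106) (V3.good_chw _ _ t18_25_107) d
  · exact crit 110 (by decide +kernel) (V3.good_chw _ _ t18_26_110) (V3.good_chw _ _ t18_26_111) d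
  · exact crit 115 (by decide +kernel) (V3.good_chw _ _ t18_27_115) (V3.good_chw _ _ t18_27_116) d
  · exact crit 119 (by decide +kernel) (V3.good_chw _ _ t18_28_119) (V3.good_chw _ _ t18_28_120) d
  · exact crit 123 (by decide +kernel) (V3.good_chw _ _ t18_29_123) (V3.good_chw _ _ t18_29_124) d
  · exact crit 127 (by decide +kernel) (V3.good_chw _ _ t18_30_127) (V3.good_chw _ _ t18_30_128) d
  · exact crit 132 (by decide +kernel) (V3.good_chw _ _ t18_31_132) (V3.good_chw _ _ t18_31_133) d
  · exact crit 136 (by decide +kernel) (V3.good_chw _ _ t18_32_136) (V3.good_chw _ _ t18_32_137) d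
  · exact crit 140 (by decide +kernel) (V3.good_chw _ _ t18_33_140) (V3.good_chw _ _ t18_33_141) d
  · exact crit 144 (by decide +kernel) (V3.good_chw _ _ t18_34_144) (V3.good_chw _ _ t18_34_145) d
  · exact crit 149 (by decide +kernel) (V3.good_chw _ _ t18_35_149) (V3.good_chw _ _ t18_35_150) d
  · exact crit 153 (by decide +kernel) (V3.good_chw _ _ t18_36_153) (V3.good_chw _ _ t18_36_154) d
  · exact crit 157 (by decide +kernel) (V3.good_chw _ _ t18_37_157) (V3.good_chw _ _ t18_37_158) d
  · exact crit 161 (by decide +kernel) (V3.good_chw _ _ t18_38_161) (V3.good_chw _ _ t18_38_162) d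
  · exact crit 166 (by decide +kernel) (V3.good_chw _ _ t18_39_166) (V3.good_chw _ _ t18_39_167) d
  · exact crit 170 (by decide +kernel) (V3.good_chw _ _ t18_40_170) (V3.good_chw _ _ t18_40_171) d
  · exact crit 174 (by decide +kernel) (V3.good_chw _ _ t18_41_174) (V3.good_chw _ _ t18_41_175) d
  · exact crit 178 (by decide +kernel) (V3.good_chw _ _ t18_42_178) (V3.good_chw _ _ t18_42_179) d
  · exact crit 183 (by decide +kernel) (V3.good_chw _ _ t18_43_183) (V3.good_chw _ _ t18_43_184) d
  · exact crit 187 (by decide +kernel) (V3.good_chw _ _ t18_44_187) (V3.good_chw _ _ t18_44_188) d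
  · exact crit 191 (by decide +kernel) (V3.good_chw _ _ t18_45_191) (V3.good_chw _ _ t18_45_192) d
  · exact crit 195 (by decide +kernel) (V3.good_chw _ _ t18_46_195) (V3.good_chw _ _ t18_46_196) d
  · exact crit 200 (by decide +kernel) (V3.good_chw _ _ t18_47_200) (V3.good_chw _ _ t18_47_201) d
  · exact crit 204 (by decide +kernel) (V3.good_chw _ _ t18_48_204) (V3.good_chw _ _ t18_48_205) d
  · exact crit 208 (by decide +kernel) (V3.good_chw _ _ t18_49_208) (V3.good_chw _ _ t18_49_209) d
  · exact crit 212 (by decide +kernel) (V3.good_chw _ _ t18_50_212) (V3.good_chw _ _ t18_50_213) d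

def t19_6_27 : V3.chw 19 6 27 3 [4] = true := by
  decide +kernel

def t19_7_31 : V3.chw 19 7 31 2 [1, 4, 1] = true := by
  decide +kernel

def t19_7_32 : V3.chw 19 7 32 2 [5] = true := by
  decide +kernel

def t19_8_35 : V3.chw 19 8 35 2 [3, 3] = true := by
  decide +kernel

def t19_8_36 : V3.chw 19 8 36 3 [4] = true := by
  decide +kernel

def t19_9_39 : V3.chw 19 9 39 3 [4] = true := by
  decide +kernel

def t19_9_40 : V3.chw 19 9 40 2 [3, 3] = true := by
  decide +kernel

def t19_10_44 : V3.chw 19 10 44 2 [1, 1, 1, 1, 2, 1] = true := by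
  decide +kernel

def t19_10_45 : V3.chw 19 10 45 3 [4] = true := by
  decide +kernel

def t19_11_48 : V3.chw 19 11 48 2 [3, 3] = true := by
  decide +kernel

def t19_11_49 : V3.chw 19 11 49 3 [4] = true := by
  decide +kernel

def t19_12_52 : V3.chw 19 12 52 3 [4] = true := by
  decide +kernel

def t19_12_53 : V3.chw 19 12 53 3 [1, 1, 1014, 1, 1] = true := by
  decide +kernel

def t19_13_57 : V3.chw 19 13 57 2 [3, 3] = true := by
  decide +kernel

def t19_13_58 : V3.chw 19 13 58 3 [4] = true := by
  decide +kernel

def t19_14_61 : V3.chw 19 14 61 2 [3, 3] = true := by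
  decide +kernel

def t19_14_62 : V3.chw 19 14 62 3 [4] = true := by
  decide +kernel

def t19_15_66 : V3.chw 19 15 66 2 [1, 1009, 1, 1016, 1] = true := by
  decide +kernel

def t19_15_67 : V3.chw 19 15 67 3 [4] = true := by
  decide +kernel

def t19_16_70 : V3.chw 19 16 70 2 [3, 3] = true := by
  decide +kernel

def t19_16_71 : V3.chw 19 16 71 3 [4] = true := by
  decide +kernel

def t19_17_74 : V3.chw 19 17 74 2 [3, 3] = true := by
  decide +kernel

def t19_17_75 : V3.chw 19 17 75 2 [3, 3] = true := by
  decide +kernel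

def t19_18_79 : V3.chw 19 18 79 3 [1, 1, 1014, 1015, 1017] = true := by
  decide +kernel

def t19_18_80 : V3.chw 19 18 80 3 [4] = true := by
  decide +kernel

def t19_19_83 : V3.chw 19 19 83 2 [3, 3] = true := by
  decide +kernel

def t19_19_84 : V3.chw 19 19 84 3 [4] = true := by
  decide +kernel

def t19_20_87 : V3.chw 19 20 87 2 [3, 3] = true := by
  decide +kernel

def t19_20_88 : V3.chw 19 20 88 2 [3, 3] = true := by
  decide +kernel

def t19_21_92 : V3.chw 19 21 92 2 [1, 1, 1, 2, 1, 1] = true := by
  decide +kernel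

def t19_21_93 : V3.chw 19 21 93 3 [4] = true := by
  decide +kernel

def t19_22_96 : V3.chw 19 22 96 2 [3, 3] = true := by
  decide +kernel

def t19_22_97 : V3.chw 19 22 97 2 [3, 3] = true := by
  decide +kernel

def t19_23_100 : V3.chw 19 23 100 2 [3, 3] = true := by
  decide +kernel

def t19_23_101 : V3.chw 19 23 101 2 [3, 3] = true := by
  decide +kernel

def t19_24_105 : V3.chw 19 24 105 2 [1, 1, 1, 1, 2, 1] = true := by
  decide +kernel

def t19_24_106 : V3.chw 19 24 106 3 [4] = true := by
  decide +kernel

def t19_25_109 : V3.chw 19 25 109 2 [3, 3] = true := by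
  decide +kernel

def t19_25_110 : V3.chw 19 25 110 2 [3, 3] = true := by
  decide +kernel

def t19_26_113 : V3.chw 19 26 113 2 [3, 3] = true := by
  decide +kernel

def t19_26_114 : V3.chw 19 26 114 2 [1, 2, 1, 1014, 1015, 1016, 1] = true := by
  decide +kernel

def t19_27_118 : V3.chw 19 27 118 2 [3, 3] = true := by
  decide +kernel

def t19_27_119 : V3.chw 19 27 119 3 [4] = true := by
  decide +kernel

def t19_28_122 : V3.chw 19 28 122 2 [3, 3] = true := by
  decide +kernel

def t19_28_123 : V3.chw 19 28 123 2 [3, 3] = true := by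
  decide +kernel

def t19_29_127 : V3.chw 19 29 127 2 [1, 1009, 1014, 1015, 1016, 1] = true := by
  decide +kernel

def t19_29_128 : V3.chw 19 29 128 3 [4] = true := by
  decide +kernel

def t19_30_131 : V3.chw 19 30 131 2 [3, 3] = true := by
  decide +kernel

def t19_30_132 : V3.chw 19 30 132 2 [3, 3] = true := by
  decide +kernel

def t19_31_135 : V3.chw 19 31 135 2 [3, 3] = true := by
  decide +kernel

def t19_31_136 : V3.chw 19 31 136 2 [3, 3] = true := by
  decide +kernel

def t19_32_140 : V3.chw 19 32 140 3 [1, 1013, 1015, 1017] = true := by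
  decide +kernel

def t19_32_141 : V3.chw 19 32 141 3 [4] = true := by
  decide +kernel

def t19_33_144 : V3.chw 19 33 144 2 [3, 3] = true := by
  decide +kernel

def t19_33_145 : V3.chw 19 33 145 2 [3, 3] = true := by
  decide +kernel

def t19_34_148 : V3.chw 19 34 148 2 [3, 3] = true := by
  decide +kernel

def t19_34_149 : V3.chw 19 34 149 3 [1, 1013, 1015, 1017] = true := by
  decide +kernel

def t19_35_153 : V3.chw 19 35 153 2 [1, 1, 1, 1, 1, 2] = true := by
  decide +kernel

def t19_35_154 : V3.chw 19 35 154 2 [3, 3] = true := by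
  decide +kernel

def t19_36_157 : V3.chw 19 36 157 2 [3, 3] = true := by
  decide +kernel

def t19_36_158 : V3.chw 19 36 158 2 [3, 3] = true := by
  decide +kernel

def t19_37_161 : V3.chw 19 37 161 2 [3, 3] = true := by
  decide +kernel

def t19_37_162 : V3.chw 19 37 162 3 [1, 1012, 1014, 1015, 1016, 1] = true := by
  decide +kernel

def t19_38_166 : V3.chw 19 38 166 2 [1, 1, 1, 1, 2, 1] = true := by
  decide +kernel

def t19_38_167 : V3.chw 19 38 167 2 [3, 3] = true := by
  decide +kernel

def t19_39_170 : V3.chw 19 39 170 2 [3, 3] = true := by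
  decide +kernel

def t19_39_171 : V3.chw 19 39 171 2 [3, 3] = true := by
  decide +kernel

def t19_40_175 : V3.chw 19 40 175 2 [1, 2, 1012, 1015, 1017, 1018] = true := by
  decide +kernel

def t19_40_176 : V3.chw 19 40 176 3 [4] = true := by
  decide +kernel

def t19_41_179 : V3.chw 19 41 179 2 [3, 3] = true := by
  decide +kernel

def t19_41_180 : V3.chw 19 41 180 2 [3, 3] = true := by
  decide +kernel

def t19_42_183 : V3.chw 19 42 183 2 [3, 3] = true := by
  decide +kernel

def t19_42_184 : V3.chw 19 42 184 2 [3, 3] = true := by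
  decide +kernel

def t19_43_188 : V3.chw 19 43 188 3 [1, 1012, 1014, 1015, 1016, 1] = true := by
  decide +kernel

def t19_43_189 : V3.chw 19 43 189 2 [3, 3] = true := by
  decide +kernel

def t19_44_192 : V3.chw 19 44 192 2 [3, 3] = true := by
  decide +kernel

def t19_44_193 : V3.chw 19 44 193 2 [3, 3] = true := by
  decide +kernel

def t19_45_196 : V3.chw 19 45 196 2 [3, 3] = true := by
  decide +kernel

def t19_45_197 : V3.chw 19 45 197 3 [1, 1013, 1015, 1017] = true := by
  decide +kernel

def t19_46_201 : V3.chw 19 46 201 3 [1, 1, 1015, 1018] = true := by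
  decide +kernel

def t19_46_202 : V3.chw 19 46 202 2 [3, 3] = true := by
  decide +kernel

def t19_47_205 : V3.chw 19 47 205 2 [3, 3] = true := by
  decide +kernel

def t19_47_206 : V3.chw 19 47 206 2 [3, 3] = true := by
  decide +kernel

def t19_48_209 : V3.chw 19 48 209 2 [3, 3] = true := by
  decide +kernel

def t19_48_210 : V3.chw 19 48 210 3 [1, 1013, 1015, 1017] = true := by
  decide +kernel

def t19_49_214 : V3.chw 19 49 214 3 [1, 1, 1015, 1018] = true := by
  decide +kernel

def t19_49_215 : V3.chw 19 49 215 2 [3, 3] = true := by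
  decide +kernel

def t19_50_218 : V3.chw 19 50 218 2 [3, 3] = true := by
  decide +kernel

def t19_50_219 : V3.chw 19 50 219 2 [3, 3] = true := by
  decide +kernel

theorem R19 {K : Type*} [Field K] [CharZero K] (m d : ℕ) (h : m ≤ 50) : MR K 19 m d := by
  interval_cases m
  · exact good_cova 3 (by decide +kernel) d
  · exact good_cova 3 (by decide +kernel) d
  · exact good_cova 3 (by decide +kernel) d
  · exact good_cova 3 (by decide +kernel) d
  · exact good_cova 3 (by decide +kernel) d
  · exact good_cova 3 (by decide +kernel) d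
  · exact crit 26 (by decide +kernel) (good_covd 3 (by decide +kernel)) (V3.good_chw _ _ t19_6_27) d
  · exact crit 31 (by decide +kernel) (V3.good_chw _ _ t19_7_31) (V3.good_chw _ _ t19_7_32) d
  · exact crit 35 (by decide +kernel) (V3.good_chw _ _ t19_8_35) (V3.good_chw _ _ t19_8_36) d
  · exact crit 39 (by decide +kernel) (V3.good_chw _ _ t19_9_39) (V3.good_chw _ _ t19_9_40) d
  · exact crit 44 (by decide +kernel) (V3.good_chw _ _ t19_10_44) (V3.good_chw _ _ t19_10_45) d
  · exact crit 48 (by decide +kernel) (V3.good_chw _ _ t19_11_48) (V3.good_chw _ _ t19_11_49) d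
  · exact crit 52 (by decide +kernel) (V3.good_chw _ _ t19_12_52) (V3.good_chw _ _ t19_12_53) d
  · exact crit 57 (by decide +kernel) (V3.good_chw _ _ t19_13_57) (V3.good_chw _ _ t19_13_58) d
  · exact crit 61 (by decide +kernel) (V3.good_chw _ _ t19_14_61) (V3.good_chw _ _ t19_14_62) d
  · exact crit 66 (by decide +kernel) (V3.good_chw _ _ t19_15_66) (V3.good_chw _ _ t19_15_67) d
  · exact crit 70 (by decide +kernel) (V3.good_chw _ _ t19_16_70) (V3.good_chw _ _ t19_16_71) d
  · exact crit 74 (by decide +kernel) (V3.good_chw _ _ t19_17_74) (V3.good_chw _ _ t19_17_75) d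
  · exact crit 79 (by decide +kernel) (V3.good_chw _ _ t19_18_79) (V3.good_chw _ _ t19_18_80) d
  · exact crit 83 (by decide +kernel) (V3.good_chw _ _ t19_19_83) (V3.good_chw _ _ t19_19_84) d
  · exact crit 87 (by decide +kernel) (V3.good_chw _ _ t19_20_87) (V3.good_chw _ _ t19_20_88) d
  · exact crit 92 (by decide +kernel) (V3.good_chw _ _ t19_21_92) (V3.good_chw _ _ t19_21_93) d
  · exact crit 96 (by decide +kernel) (V3.good_chw _ _ t19_22_96) (V3.good_chw _ _ t19_22_97) d
  · exact crit 100 (by decide +kernel) (V3.good_chw _ _ t19_23_100) (V3.good_chw _ _ t19_23_101) d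
  · exact crit 105 (by decide +kernel) (V3.good_chw _ _ t19_24_105) (V3.good_chw _ _ t19_24_106) d
  · exact crit 109 (by decide +kernel) (V3.good_chw _ _ t19_25_109) (V3.good_chw _ _ t19_25_110) d
  · exact crit 113 (by decide +kernel) (V3.good_chw _ _ t19_26_113) (V3.good_chw _ _ t19_26_114) d
  · exact crit 118 (by decide +kernel) (V3.good_chw _ _ t19_27_118) (V3.good_chw _ _ t19_27_119) d
  · exact crit 122 (by decide +kernel) (V3.good_chw _ _ t19_28_122) (V3.good_chw _ _ t19_28_123) d
  · exact crit 127 (by decide +kernel) (V3.good_chw _ _ t19_29_127) (V3.good_chw _ _ t19_29_128) d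
  · exact crit 131 (by decide +kernel) (V3.good_chw _ _ t19_30_131) (V3.good_chw _ _ t19_30_132) d
  · exact crit 135 (by decide +kernel) (V3.good_chw _ _ t19_31_135) (V3.good_chw _ _ t19_31_136) d
  · exact crit 140 (by decide +kernel) (V3.good_chw _ _ t19_32_140) (V3.good_chw _ _ t19_32_141) d
  · exact crit 144 (by decide +kernel) (V3.good_chw _ _ t19_33_144) (V3.good_chw _ _ t19_33_145) d
  · exact crit 148 (by decide +kernel) (V3.good_chw _ _ t19_34_148) (V3.good_chw _ _ t19_34_149) d
  · exact crit 153 (by decide +kernel) (V3.good_chw _ _ t19_35_153) (V3.good_chw _ _ t19_35_154) d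
  · exact crit 157 (by decide +kernel) (V3.good_chw _ _ t19_36_157) (V3.good_chw _ _ t19_36_158) d
  · exact crit 161 (by decide +kernel) (V3.good_chw _ _ t19_37_161) (V3.good_chw _ _ t19_37_162) d
  · exact crit 166 (by decide +kernel) (V3.good_chw _ _ t19_38_166) (V3.good_chw _ _ t19_38_167) d
  · exact crit 170 (by decide +kernel) (V3.good_chw _ _ t19_39_170) (V3.good_chw _ _ t19_39_171) d
  · exact crit 175 (by decide +kernel) (V3.good_chw _ _ t19_40_175) (V3.good_chw _ _ t19_40_176) d
  · exact crit 179 (by decide +kernel) (V3.good_chw _ _ t19_41_179) (V3.good_chw _ _ t19_41_180) d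
  · exact crit 183 (by decide +kernel) (V3.good_chw _ _ t19_42_183) (V3.good_chw _ _ t19_42_184) d
  · exact crit 188 (by decide +kernel) (V3.good_chw _ _ t19_43_188) (V3.good_chw _ _ t19_43_189) d
  · exact crit 192 (by decide +kernel) (V3.good_chw _ _ t19_44_192) (V3.good_chw _ _ t19_44_193) d
  · exact crit 196 (by decide +kernel) (V3.good_chw _ _ t19_45_196) (V3.good_chw _ _ t19_45_197) d
  · exact crit 201 (by decide +kernel) (V3.good_chw _ _ t19_46_201) (V3.good_chw _ _ t19_46_202) d
  · exact crit 205 (by decide +kernel) (V3.good_chw _ _ t19_47_205) (V3.good_chw _ _ t19_47_206) d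
  · exact crit 209 (by decide +kernel) (V3.good_chw _ _ t19_48_209) (V3.good_chw _ _ t19_48_210) d
  · exact crit 214 (by decide +kernel) (V3.good_chw _ _ t19_49_214) (V3.good_chw _ _ t19_49_215) d
  · exact crit 218 (by decide +kernel) (V3.good_chw _ _ t19_50_218) (V3.good_chw _ _ t19_50_219) d

def t20_14_64 : V3.chw 20 14 64 2 [5] = true := by
  decide +kernel

def t20_15_67 : V3.chw 20 15 67 4 [2] = true := by
  decide +kernel

def t20_15_68 : V3.chw 20 15 68 4 [2] = true := by
  decide +kernel

def t20_16_72 : V3.chw 20 16 72 4 [1, 1] = true := by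
  decide +kernel

def t20_16_73 : V3.chw 20 16 73 2 [5] = true := by
  decide +kernel

def t20_17_76 : V3.chw 20 17 76 4 [2] = true := by
  decide +kernel

def t20_17_77 : V3.chw 20 17 77 4 [2] = true := by
  decide +kernel

def t20_18_81 : V3.chw 20 18 81 4 [1, 1] = true := by
  decide +kernel

def t20_18_82 : V3.chw 20 18 82 2 [5] = true := by
  decide +kernel

def t20_19_85 : V3.chw 20 19 85 4 [2] = true := by
  decide +kernel

def t20_19_86 : V3.chw 20 19 86 4 [2] = true := by
  decide +kernel

def t20_20_90 : V3.chw 20 20 90 4 [1, 1019] = true := by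
  decide +kernel

def t20_20_91 : V3.chw 20 20 91 2 [5] = true := by
  decide +kernel

def t20_21_94 : V3.chw 20 21 94 4 [2] = true := by
  decide +kernel

def t20_21_95 : V3.chw 20 21 95 4 [2] = true := by
  decide +kernel

def t20_22_99 : V3.chw 20 22 99 4 [1, 1019] = true := by
  decide +kernel

def t20_22_100 : V3.chw 20 22 100 2 [5] = true := by
  decide +kernel

def t20_23_103 : V3.chw 20 23 103 4 [2] = true := by
  decide +kernel

def t20_23_104 : V3.chw 20 23 104 4 [2] = true := by
  decide +kernel

def t20_24_108 : V3.chw 20 24 108 4 [1014, 1, 1019] = true := by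
  decide +kernel

def t20_24_109 : V3.chw 20 24 109 2 [5] = true := by
  decide +kernel

def t20_25_112 : V3.chw 20 25 112 4 [1, 1] = true := by
  decide +kernel

def t20_25_113 : V3.chw 20 25 113 4 [2] = true := by
  decide +kernel

def t20_26_116 : V3.chw 20 26 116 4 [2] = true := by
  decide +kernel

def t20_26_117 : V3.chw 20 26 117 3 [3, 1016, 1017, 1] = true := by
  decide +kernel

def t20_27_121 : V3.chw 20 27 121 4 [1, 1] = true := by
  decide +kernel

def t20_27_122 : V3.chw 20 27 122 4 [2] = true := by
  decide +kernel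

def t20_28_125 : V3.chw 20 28 125 4 [2] = true := by
  decide +kernel

def t20_28_126 : V3.chw 20 28 126 4 [1, 1019] = true := by
  decide +kernel

def t20_29_130 : V3.chw 20 29 130 4 [1, 1] = true := by
  decide +kernel

def t20_29_131 : V3.chw 20 29 131 4 [2] = true := by
  decide +kernel

def t20_30_134 : V3.chw 20 30 134 4 [2] = true := by
  decide +kernel

def t20_30_135 : V3.chw 20 30 135 4 [1, 1019] = true := by
  decide +kernel

def t20_31_139 : V3.chw 20 31 139 4 [1, 1] = true := by
  decide +kernel

def t20_31_140 : V3.chw 20 31 140 4 [2] = true := by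
  decide +kernel

def t20_32_143 : V3.chw 20 32 143 4 [2] = true := by
  decide +kernel

def t20_32_144 : V3.chw 20 32 144 4 [1, 1019] = true := by
  decide +kernel

def t20_33_148 : V3.chw 20 33 148 3 [1, 3, 1] = true := by
  decide +kernel

def t20_33_149 : V3.chw 20 33 149 4 [2] = true := by
  decide +kernel

def t20_34_152 : V3.chw 20 34 152 4 [1, 1] = true := by
  decide +kernel

def t20_34_153 : V3.chw 20 34 153 2 [1, 3, 2, 1] = true := by
  decide +kernel

def t20_35_157 : V3.chw 20 35 157 3 [1, 3, 1] = true := by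
  decide +kernel

def t20_35_158 : V3.chw 20 35 158 4 [2] = true := by
  decide +kernel

def t20_36_161 : V3.chw 20 36 161 4 [1, 1] = true := by
  decide +kernel

def t20_36_162 : V3.chw 20 36 162 4 [1, 1] = true := by
  decide +kernel

def t20_37_166 : V3.chw 20 37 166 4 [1, 1019] = true := by
  decide +kernel

def t20_37_167 : V3.chw 20 37 167 4 [2] = true := by
  decide +kernel

def t20_38_170 : V3.chw 20 38 170 4 [1, 1] = true := by
  decide +kernel

def t20_38_171 : V3.chw 20 38 171 4 [1, 1] = true := by
  decide +kernel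

def t20_39_175 : V3.chw 20 39 175 4 [1, 1019] = true := by
  decide +kernel

def t20_39_176 : V3.chw 20 39 176 4 [2] = true := by
  decide +kernel

def t20_40_179 : V3.chw 20 40 179 4 [1, 1] = true := by
  decide +kernel

def t20_40_180 : V3.chw 20 40 180 4 [1, 1] = true := by
  decide +kernel

def t20_41_184 : V3.chw 20 41 184 4 [1015, 1, 1019] = true := by
  decide +kernel

def t20_41_185 : V3.chw 20 41 185 4 [2] = true := by
  decide +kernel

def t20_42_188 : V3.chw 20 42 188 3 [3, 1, 1] = true := by
  decide +kernel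

def t20_42_189 : V3.chw 20 42 189 4 [1, 1] = true := by
  decide +kernel

def t20_43_193 : V3.chw 20 43 193 2 [1, 1, 1, 1012, 1013, 2, 1018, 1019] = true := by
  decide +kernel

def t20_43_194 : V3.chw 20 43 194 4 [2] = true := by
  decide +kernel

def t20_44_197 : V3.chw 20 44 197 4 [1017, 1019] = true := by
  decide +kernel

def t20_44_198 : V3.chw 20 44 198 4 [1, 1] = true := by
  decide +kernel

def t20_45_201 : V3.chw 20 45 201 3 [2, 3] = true := by
  decide +kernel

def t20_45_202 : V3.chw 20 45 202 2 [1, 1008, 1011, 1012, 1014, 1016, 1017, 1018, 1019] = true := by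
  decide +kernel

def t20_46_206 : V3.chw 20 46 206 4 [1, 1019] = true := by
  decide +kernel

def t20_46_207 : V3.chw 20 46 207 4 [1, 1] = true := by
  decide +kernel

def t20_47_210 : V3.chw 20 47 210 3 [2, 3] = true := by
  decide +kernel

def t20_47_211 : V3.chw 20 47 211 4 [1, 1019] = true := by
  decide +kernel

def t20_48_215 : V3.chw 20 48 215 4 [1, 1019] = true := by
  decide +kernel

def t20_48_216 : V3.chw 20 48 216 4 [1, 1] = true := by
  decide +kernel

def t20_49_219 : V3.chw 20 49 219 3 [2, 3] = true := by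
  decide +kernel

def t20_49_220 : V3.chw 20 49 220 4 [1, 1019] = true := by
  decide +kernel

def t20_50_224 : V3.chw 20 50 224 4 [1, 1019] = true := by
  decide +kernel

def t20_50_225 : V3.chw 20 50 225 4 [1, 1] = true := by
  decide +kernel

theorem R20 {K : Type*} [Field K] [CharZero K] (m d : ℕ) (h : m ≤ 50) : MR K 20 m d := by
  interval_cases m
  · exact good_cova 4 (by decide +kernel) d
  · exact good_cova 4 (by decide +kernel) d
  · exact good_cova 4 (by decide +kernel) d
  · exact good_cova 4 (by decide +kernel) d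
  · exact good_cova 4 (by decide +kernel) d
  · exact good_cova 4 (by decide +kernel) d
  · exact good_cova 4 (by decide +kernel) d
  · exact good_cova 4 (by decide +kernel) d
  · exact good_cova 4 (by decide +kernel) d
  · exact good_cova 4 (by decide +kernel) d
  · exact good_cova 4 (by decide +kernel) d
  · exact good_cova 4 (by decide +kernel) d
  · exact good_cova 4 (by decide +kernel) d
  · exact good_cova 4 (by decide +kernel) d
  · exact crit 63 (by decide +kernel) (good_covd 4 (by decide +kernel)) (V3.good_chw _ _ t20_14_64) d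
  · exact crit 67 (by decide +kernel) (V3.good_chw _ _ t20_15_67) (V3.good_chw _ _ t20_15_68) d
  · exact crit 72 (by decide +kernel) (V3.good_chw _ _ t20_16_72) (V3.good_chw _ _ t20_16_73) d
  · exact crit 76 (by decide +kernel) (V3.good_chw _ _ t20_17_76) (V3.good_chw _ _ t20_17_77) d
  · exact crit 81 (by decide +kernel) (V3.good_chw _ _ t20_18_81) (V3.good_chw _ _ t20_18_82) d
  · exact crit 85 (by decide +kernel) (V3.good_chw _ _ t20_19_85) (V3.good_chw _ _ t20_19_86) d
  · exact crit 90 (by decide +kernel) (V3.good_chw _ _ t20_20_90) (V3.good_chw _ _ t20_20_91) d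
  · exact crit 94 (by decide +kernel) (V3.good_chw _ _ t20_21_94) (V3.good_chw _ _ t20_21_95) d
  · exact crit 99 (by decide +kernel) (V3.good_chw _ _ t20_22_99) (V3.good_chw _ _ t20_22_100) d
  · exact crit 103 (by decide +kernel) (V3.good_chw _ _ t20_23_103) (V3.good_chw _ _ t20_23_104) d
  · exact crit 108 (by decide +kernel) (V3.good_chw _ _ t20_24_108) (V3.good_chw _ _ t20_24_109) d
  · exact crit 112 (by decide +kernel) (V3.good_chw _ _ t20_25_112) (V3.good_chw _ _ t20_25_113) d
  · exact crit 116 (by decide +kernel) (V3.good_chw _ _ t20_26_116) (V3.good_chw _ _ t20_26_117) d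
  · exact crit 121 (by decide +kernel) (V3.good_chw _ _ t20_27_121) (V3.good_chw _ _ t20_27_122) d
  · exact crit 125 (by decide +kernel) (V3.good_chw _ _ t20_28_125) (V3.good_chw _ _ t20_28_126) d
  · exact crit 130 (by decide +kernel) (V3.good_chw _ _ t20_29_130) (V3.good_chw _ _ t20_29_131) d
  · exact crit 134 (by decide +kernel) (V3.good_chw _ _ t20_30_134) (V3.good_chw _ _ t20_30_135) d
  · exact crit 139 (by decide +kernel) (V3.good_chw _ _ t20_31_139) (V3.good_chw _ _ t20_31_140) d
  · exact crit 143 (by decide +kernel) (V3.good_chw _ _ t20_32_143) (V3.good_chw _ _ t20_32_144) d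
  · exact crit 148 (by decide +kernel) (V3.good_chw _ _ t20_33_148) (V3.good_chw _ _ t20_33_149) d
  · exact crit 152 (by decide +kernel) (V3.good_chw _ _ t20_34_152) (V3.good_chw _ _ t20_34_153) d
  · exact crit 157 (by decide +kernel) (V3.good_chw _ _ t20_35_157) (V3.good_chw _ _ t20_35_158) d
  · exact crit 161 (by decide +kernel) (V3.good_chw _ _ t20_36_161) (V3.good_chw _ _ t20_36_162) d
  · exact crit 166 (by decide +kernel) (V3.good_chw _ _ t20_37_166) (V3.good_chw _ _ t20_37_167) d
  · exact crit 170 (by decide +kernel) (V3.good_chw _ _ t20_38_170) (V3.good_chw _ _ t20_38_171) d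
  · exact crit 175 (by decide +kernel) (V3.good_chw _ _ t20_39_175) (V3.good_chw _ _ t20_39_176) d
  · exact crit 179 (by decide +kernel) (V3.good_chw _ _ t20_40_179) (V3.good_chw _ _ t20_40_180) d
  · exact crit 184 (by decide +kernel) (V3.good_chw _ _ t20_41_184) (V3.good_chw _ _ t20_41_185) d
  · exact crit 188 (by decide +kernel) (V3.good_chw _ _ t20_42_188) (V3.good_chw _ _ t20_42_189) d
  · exact crit 193 (by decide +kernel) (V3.good_chw _ _ t20_43_193) (V3.good_chw _ _ t20_43_194) d
  · exact crit 197 (by decide +kernel) (V3.good_chw _ _ t20_44_197) (V3.good_chw _ _ t20_44_198) d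
  · exact crit 201 (by decide +kernel) (V3.good_chw _ _ t20_45_201) (V3.good_chw _ _ t20_45_202) d
  · exact crit 206 (by decide +kernel) (V3.good_chw _ _ t20_46_206) (V3.good_chw _ _ t20_46_207) d
  · exact crit 210 (by decide +kernel) (V3.good_chw _ _ t20_47_210) (V3.good_chw _ _ t20_47_211) d
  · exact crit 215 (by decide +kernel) (V3.good_chw _ _ t20_48_215) (V3.good_chw _ _ t20_48_216) d
  · exact crit 219 (by decide +kernel) (V3.good_chw _ _ t20_49_219) (V3.good_chw _ _ t20_49_220) d
  · exact crit 224 (by decide +kernel) (V3.good_chw _ _ t20_50_224) (V3.good_chw _ _ t20_50_225) d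

def t21_6_28 : V3.chw 21 6 28 3 [4, 1] = true := by
  decide +kernel

def t21_6_29 : V3.chw 21 6 29 2 [5] = true := by
  decide +kernel

def t21_7_32 : V3.chw 21 7 32 4 [2] = true := by
  decide +kernel

def t21_7_33 : V3.chw 21 7 33 3 [4, 1] = true := by
  decide +kernel

def t21_8_37 : V3.chw 21 8 37 3 [4, 1] = true := by
  decide +kernel

def t21_8_38 : V3.chw 21 8 38 2 [5] = true := by
  decide +kernel

def t21_9_41 : V3.chw 21 9 41 4 [2] = true := by
  decide +kernel

def t21_9_42 : V3.chw 21 9 42 2 [1, 1007, 5, 1020] = true := by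
  decide +kernel

def t21_10_46 : V3.chw 21 10 46 3 [4, 1] = true := by
  decide +kernel

def t21_10_47 : V3.chw 21 10 47 2 [3, 4] = true := by
  decide +kernel

def t21_11_51 : V3.chw 21 11 51 2 [3, 3, 1] = true := by
  decide +kernel

def t21_11_52 : V3.chw 21 11 52 2 [5] = true := by
  decide +kernel

def t21_12_55 : V3.chw 21 12 55 3 [4, 1] = true := by
  decide +kernel

def t21_12_56 : V3.chw 21 12 56 3 [4, 1] = true := by
  decide +kernel

def t21_13_60 : V3.chw 21 13 60 3 [4, 1] = true := by
  decide +kernel

def t21_13_61 : V3.chw 21 13 61 2 [3, 4] = true := by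
  decide +kernel

def t21_14_64 : V3.chw 21 14 64 3 [4, 1] = true := by
  decide +kernel

def t21_14_65 : V3.chw 21 14 65 3 [1, 2, 1018] = true := by
  decide +kernel

def t21_15_69 : V3.chw 21 15 69 3 [4, 1] = true := by
  decide +kernel

def t21_15_70 : V3.chw 21 15 70 3 [4, 1] = true := by
  decide +kernel

def t21_16_74 : V3.chw 21 16 74 2 [3, 3, 1] = true := by
  decide +kernel

def t21_16_75 : V3.chw 21 16 75 2 [3, 4] = true := by
  decide +kernel

def t21_17_78 : V3.chw 21 17 78 3 [4, 1] = true := by
  decide +kernel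

def t21_17_79 : V3.chw 21 17 79 2 [3, 1, 3] = true := by
  decide +kernel

def t21_18_83 : V3.chw 21 18 83 2 [3, 3, 1] = true := by
  decide +kernel

def t21_18_84 : V3.chw 21 18 84 3 [4, 1] = true := by
  decide +kernel

def t21_19_87 : V3.chw 21 19 87 3 [4, 1] = true := by
  decide +kernel

def t21_19_88 : V3.chw 21 19 88 2 [3, 3, 1] = true := by
  decide +kernel

def t21_20_92 : V3.chw 21 20 92 3 [4, 1] = true := by
  decide +kernel

def t21_20_93 : V3.chw 21 20 93 3 [4, 1] = true := by
  decide +kernel

def t21_21_97 : V3.chw 21 21 97 2 [1, 1009, 1014, 1015, 1016, 1, 1] = true := by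
  decide +kernel

def t21_22_101 : V3.chw 21 22 101 3 [4, 1] = true := by
  decide +kernel

def t21_22_102 : V3.chw 21 22 102 3 [4, 1] = true := by
  decide +kernel

def t21_23_106 : V3.chw 21 23 106 2 [1, 4, 1017, 1019] = true := by
  decide +kernel

def t21_23_107 : V3.chw 21 23 107 3 [4, 1] = true := by
  decide +kernel

def t21_24_110 : V3.chw 21 24 110 3 [4, 1] = true := by
  decide +kernel

def t21_24_111 : V3.chw 21 24 111 2 [1, 4, 2] = true := by
  decide +kernel

def t21_25_115 : V3.chw 21 25 115 2 [3, 3, 1] = true := by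
  decide +kernel

def t21_25_116 : V3.chw 21 25 116 3 [4, 1] = true := by
  decide +kernel

def t21_26_119 : V3.chw 21 26 119 3 [4, 1] = true := by
  decide +kernel

def t21_26_120 : V3.chw 21 26 120 2 [3, 3, 1020] = true := by
  decide +kernel

def t21_27_124 : V3.chw 21 27 124 2 [3, 3, 1] = true := by
  decide +kernel

def t21_27_125 : V3.chw 21 27 125 3 [4, 1] = true := by
  decide +kernel

def t21_28_129 : V3.chw 21 28 129 3 [2, 1016, 1020] = true := by
  decide +kernel

def t21_28_130 : V3.chw 21 28 130 3 [4, 1] = true := by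
  decide +kernel

def t21_29_133 : V3.chw 21 29 133 2 [1, 4, 2] = true := by
  decide +kernel

def t21_29_134 : V3.chw 21 29 134 2 [1, 4, 2] = true := by
  decide +kernel

def t21_30_138 : V3.chw 21 30 138 2 [3, 3, 1] = true := by
  decide +kernel

def t21_30_139 : V3.chw 21 30 139 3 [4, 1] = true := by
  decide +kernel

def t21_31_142 : V3.chw 21 31 142 3 [4, 1] = true := by
  decide +kernel

def t21_31_143 : V3.chw 21 31 143 2 [3, 3, 1] = true := by
  decide +kernel

def t21_32_147 : V3.chw 21 32 147 2 [1, 4, 2] = true := by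
  decide +kernel

def t21_32_148 : V3.chw 21 32 148 2 [1, 4, 2] = true := by
  decide +kernel

def t21_33_152 : V3.chw 21 33 152 3 [1, 1013, 1015, 1017, 1019, 1020] = true := by
  decide +kernel

def t21_34_156 : V3.chw 21 34 156 2 [3, 3, 1] = true := by
  decide +kernel

def t21_34_157 : V3.chw 21 34 157 2 [1, 4, 2] = true := by
  decide +kernel

def t21_35_161 : V3.chw 21 35 161 3 [2, 1016, 1020] = true := by
  decide +kernel

def t21_35_162 : V3.chw 21 35 162 3 [4, 1] = true := by
  decide +kernel

def t21_36_165 : V3.chw 21 36 165 3 [4, 1] = true := by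
  decide +kernel

def t21_36_166 : V3.chw 21 36 166 2 [3, 3, 1] = true := by
  decide +kernel

def t21_37_170 : V3.chw 21 37 170 2 [1, 4, 2] = true := by
  decide +kernel

def t21_37_171 : V3.chw 21 37 171 3 [4, 1] = true := by
  decide +kernel

def t21_38_174 : V3.chw 21 38 174 3 [4, 1] = true := by
  decide +kernel

def t21_38_175 : V3.chw 21 38 175 3 [2, 1016, 1020] = true := by
  decide +kernel

def t21_39_179 : V3.chw 21 39 179 2 [1, 4, 2] = true := by
  decide +kernel

def t21_39_180 : V3.chw 21 39 180 2 [1, 4, 2] = true := by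
  decide +kernel

def t21_40_184 : V3.chw 21 40 184 3 [1, 1, 1015, 1018, 1019, 1020] = true := by
  decide +kernel

def t21_40_185 : V3.chw 21 40 185 3 [4, 1] = true := by
  decide +kernel

def t21_41_188 : V3.chw 21 41 188 2 [1, 4, 2] = true := by
  decide +kernel

def t21_41_189 : V3.chw 21 41 189 2 [1, 4, 2] = true := by
  decide +kernel

def t21_42_193 : V3.chw 21 42 193 2 [1, 1, 1, 1, 1, 1, 2] = true := by
  decide +kernel

def t21_42_194 : V3.chw 21 42 194 3 [4, 1] = true := by
  decide +kernel

def t21_43_197 : V3.chw 21 43 197 2 [1, 3, 1017] = true := by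
  decide +kernel

def t21_43_198 : V3.chw 21 43 198 3 [2, 1016, 1020] = true := by
  decide +kernel

def t21_44_202 : V3.chw 21 44 202 2 [1, 4, 2] = true := by
  decide +kernel

def t21_44_203 : V3.chw 21 44 203 2 [1, 1007, 5] = true := by
  decide +kernel

def t21_45_206 : V3.chw 21 45 206 2 [3, 1016] = true := by
  decide +kernel

def t21_45_207 : V3.chw 21 45 207 3 [1009, 1010, 1011, 1012, 1013, 1014, 1015, 1016, 1018, 1019, 1020] = true := by
  decide +kernel

def t21_46_211 : V3.chw 21 46 211 2 [1, 4, 2] = true := by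
  decide +kernel

def t21_46_212 : V3.chw 21 46 212 2 [1, 1007, 5] = true := by
  decide +kernel

def t21_47_216 : V3.chw 21 47 216 3 [2, 1016, 1020] = true := by
  decide +kernel

def t21_47_217 : V3.chw 21 47 217 2 [3, 1016] = true := by
  decide +kernel

def t21_48_220 : V3.chw 21 48 220 2 [1, 4, 2] = true := by
  decide +kernel

def t21_48_221 : V3.chw 21 48 221 3 [2, 1016, 1020] = true := by
  decide +kernel

def t21_49_225 : V3.chw 21 49 225 2 [1, 4, 2] = true := by
  decide +kernel

def t21_49_226 : V3.chw 21 49 226 2 [3, 1016] = true := by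
  decide +kernel

def t21_50_229 : V3.chw 21 50 229 2 [1, 4, 2] = true := by
  decide +kernel

def t21_50_230 : V3.chw 21 50 230 3 [2, 1016, 1019, 1020] = true := by
  decide +kernel

theorem R21 {K : Type*} [Field K] [CharZero K] (m d : ℕ) (h : m ≤ 50) : MR K 21 m d := by
  interval_cases m
  · exact good_cova 3 (by decide +kernel) d
  · exact good_cova 3 (by decide +kernel) d
  · exact good_cova 3 (by decide +kernel) d
  · exact good_cova 3 (by decide +kernel) d
  · exact good_cova 3 (by decide +kernel) d
  · exact good_cova 3 (by decide +kernel) d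
  · exact crit 28 (by decide +kernel) (V3.good_chw _ _ t21_6_28) (V3.good_chw _ _ t21_6_29) d
  · exact crit 32 (by decide +kernel) (V3.good_chw _ _ t21_7_32) (V3.good_chw _ _ t21_7_33) d
  · exact crit 37 (by decide +kernel) (V3.good_chw _ _ t21_8_37) (V3.good_chw _ _ t21_8_38) d
  · exact crit 41 (by decide +kernel) (V3.good_chw _ _ t21_9_41) (V3.good_chw _ _ t21_9_42) d
  · exact crit 46 (by decide +kernel) (V3.good_chw _ _ t21_10_46) (V3.good_chw _ _ t21_10_47) d
  · exact crit 51 (by decide +kernel) (V3.good_chw _ _ t21_11_51) (V3.good_chw _ _ t21_11_52) d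
  · exact crit 55 (by decide +kernel) (V3.good_chw _ _ t21_12_55) (V3.good_chw _ _ t21_12_56) d
  · exact crit 60 (by decide +kernel) (V3.good_chw _ _ t21_13_60) (V3.good_chw _ _ t21_13_61) d
  · exact crit 64 (by decide +kernel) (V3.good_chw _ _ t21_14_64) (V3.good_chw _ _ t21_14_65) d
  · exact crit 69 (by decide +kernel) (V3.good_chw _ _ t21_15_69) (V3.good_chw _ _ t21_15_70) d
  · exact crit 74 (by decide +kernel) (V3.good_chw _ _ t21_16_74) (V3.good_chw _ _ t21_16_75) d
  · exact crit 78 (by decide +kernel) (V3.good_chw _ _ t21_17_78) (V3.good_chw _ _ t21_17_79) d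
  · exact crit 83 (by decide +kernel) (V3.good_chw _ _ t21_18_83) (V3.good_chw _ _ t21_18_84) d
  · exact crit 87 (by decide +kernel) (V3.good_chw _ _ t21_19_87) (V3.good_chw _ _ t21_19_88) d
  · exact crit 92 (by decide +kernel) (V3.good_chw _ _ t21_20_92) (V3.good_chw _ _ t21_20_93) d
  · exact crit0 97 (by decide +kernel) (V3.good_chw _ _ t21_21_97) d
  · exact crit 101 (by decide +kernel) (V3.good_chw _ _ t21_22_101) (V3.good_chw _ _ t21_22_102) d
  · exact crit 106 (by decide +kernel) (V3.good_chw _ _ t21_23_106) (V3.good_chw _ _ t21_23_107) d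
  · exact crit 110 (by decide +kernel) (V3.good_chw _ _ t21_24_110) (V3.good_chw _ _ t21_24_111) d
  · exact crit 115 (by decide +kernel) (V3.good_chw _ _ t21_25_115) (V3.good_chw _ _ t21_25_116) d
  · exact crit 119 (by decide +kernel) (V3.good_chw _ _ t21_26_119) (V3.good_chw _ _ t21_26_120) d
  · exact crit 124 (by decide +kernel) (V3.good_chw _ _ t21_27_124) (V3.good_chw _ _ t21_27_125) d
  · exact crit 129 (by decide +kernel) (V3.good_chw _ _ t21_28_129) (V3.good_chw _ _ t21_28_130) d
  · exact crit 133 (by decide +kernel) (V3.good_chw _ _ t21_29_133) (V3.good_chw _ _ t21_29_134) d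
  · exact crit 138 (by decide +kernel) (V3.good_chw _ _ t21_30_138) (V3.good_chw _ _ t21_30_139) d
  · exact crit 142 (by decide +kernel) (V3.good_chw _ _ t21_31_142) (V3.good_chw _ _ t21_31_143) d
  · exact crit 147 (by decide +kernel) (V3.good_chw _ _ t21_32_147) (V3.good_chw _ _ t21_32_148) d
  · exact crit0 152 (by decide +kernel) (V3.good_chw _ _ t21_33_152) d
  · exact crit 156 (by decide +kernel) (V3.good_chw _ _ t21_34_156) (V3.good_chw _ _ t21_34_157) d
  · exact crit 161 (by decide +kernel) (V3.good_chw _ _ t21_35_161) (V3.good_chw _ _ t21_35_162) d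
  · exact crit 165 (by decide +kernel) (V3.good_chw _ _ t21_36_165) (V3.good_chw _ _ t21_36_166) d
  · exact crit 170 (by decide +kernel) (V3.good_chw _ _ t21_37_170) (V3.good_chw _ _ t21_37_171) d
  · exact crit 174 (by decide +kernel) (V3.good_chw _ _ t21_38_174) (V3.good_chw _ _ t21_38_175) d
  · exact crit 179 (by decide +kernel) (V3.good_chw _ _ t21_39_179) (V3.good_chw _ _ t21_39_180) d
  · exact crit 184 (by decide +kernel) (V3.good_chw _ _ t21_40_184) (V3.good_chw _ _ t21_40_185) d
  · exact crit 188 (by decide +kernel) (V3.good_chw _ _ t21_41_188) (V3.good_chw _ _ t21_41_189) d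
  · exact crit 193 (by decide +kernel) (V3.good_chw _ _ t21_42_193) (V3.good_chw _ _ t21_42_194) d
  · exact crit 197 (by decide +kernel) (V3.good_chw _ _ t21_43_197) (V3.good_chw _ _ t21_43_198) d
  · exact crit 202 (by decide +kernel) (V3.good_chw _ _ t21_44_202) (V3.good_chw _ _ t21_44_203) d
  · exact crit 206 (by decide +kernel) (V3.good_chw _ _ t21_45_206) (V3.good_chw _ _ t21_45_207) d
  · exact crit 211 (by decide +kernel) (V3.good_chw _ _ t21_46_211) (V3.good_chw _ _ t21_46_212) d
  · exact crit 216 (by decide +kernel) (V3.good_chw _ _ t21_47_216) (V3.good_chw _ _ t21_47_217) d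
  · exact crit 220 (by decide +kernel) (V3.good_chw _ _ t21_48_220) (V3.good_chw _ _ t21_48_221) d
  · exact crit 225 (by decide +kernel) (V3.good_chw _ _ t21_49_225) (V3.good_chw _ _ t21_49_226) d
  · exact crit 229 (by decide +kernel) (V3.good_chw _ _ t21_50_229) (V3.good_chw _ _ t21_50_230) d

end Pool.Agent.Helper54.FM
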