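import Pool.Agent.Helper54.FM.Fast3

set_option autoImplicit false
set_option maxRecDepth 100000
set_option linter.defProp false

/-! Project FM (helper54), MP_e6aa12_ag: r = 22..25, m <= 50 (generated). -/

namespace Pool.Agent.Helper54.FM

def t22_14_66 : V3.chw 22 14 66 2 [5, 1] = true := by
  decide +kernel

def t22_14_67 : V3.chw 22 14 67 3 [5] = true := by
  decide +kernel

def t22_15_71 : V3.chw 22 15 71 4 [1, 1, 1] = true := by
  decide +kernel

def t22_15_72 : V3.chw 22 15 72 3 [5] = true := by
  decide +kernel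

def t22_16_75 : V3.chw 22 16 75 4 [3] = true := by
  decide +kernel

def t22_16_76 : V3.chw 22 16 76 4 [1, 1020] = true := by
  decide +kernel

def t22_17_80 : V3.chw 22 17 80 2 [5, 1] = true := by
  decide +kernel

def t22_17_81 : V3.chw 22 17 81 3 [5] = true := by
  decide +kernel

def t22_18_85 : V3.chw 22 18 85 4 [1, 1, 1] = true := by
  decide +kernel

def t22_18_86 : V3.chw 22 18 86 3 [5] = true := by
  decide +kernel

def t22_19_89 : V3.chw 22 19 89 2 [5, 1] = true := by
  decide +kernel

def t22_19_90 : V3.chw 22 19 90 4 [1, 1019, 1] = true := by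
  decide +kernel

def t22_20_94 : V3.chw 22 20 94 2 [5, 1] = true := by
  decide +kernel

def t22_20_95 : V3.chw 22 20 95 4 [1, 2] = true := by
  decide +kernel

def t22_21_99 : V3.chw 22 21 99 4 [1, 1, 1] = true := by
  decide +kernel

def t22_21_100 : V3.chw 22 21 100 3 [5] = true := by
  decide +kernel

def t22_22_104 : V3.chw 22 22 104 4 [1014, 1, 1019, 1020, 1021] = true := by
  decide +kernel

def t22_22_105 : V3.chw 22 22 105 3 [5] = true := by
  decide +kernel

def t22_23_108 : V3.chw 22 23 108 4 [2, 1] = true := by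
  decide +kernel

def t22_23_109 : V3.chw 22 23 109 3 [2, 1, 3] = true := by
  decide +kernel

def t22_24_113 : V3.chw 22 24 113 3 [1, 2, 3] = true := by
  decide +kernel

def t22_24_114 : V3.chw 22 24 114 3 [5] = true := by
  decide +kernel

def t22_25_118 : V3.chw 22 25 118 4 [1, 1019, 1] = true := by
  decide +kernel

def t22_25_119 : V3.chw 22 25 119 3 [5] = true := by
  decide +kernel

def t22_26_122 : V3.chw 22 26 122 4 [2, 1] = true := by
  decide +kernel

def t22_26_123 : V3.chw 22 26 123 4 [1, 1020] = true := by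
  decide +kernel

def t22_27_127 : V3.chw 22 27 127 4 [1, 1, 1] = true := by
  decide +kernel

def t22_27_128 : V3.chw 22 27 128 4 [1, 2] = true := by
  decide +kernel

def t22_28_132 : V3.chw 22 28 132 4 [1, 1019, 1] = true := by
  decide +kernel

def t22_28_133 : V3.chw 22 28 133 3 [5] = true := by
  decide +kernel

def t22_29_136 : V3.chw 22 29 136 4 [1, 2] = true := by
  decide +kernel

def t22_29_137 : V3.chw 22 29 137 4 [1, 1019, 1] = true := by
  decide +kernel

def t22_30_141 : V3.chw 22 30 141 3 [2, 2, 2] = true := by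
  decide +kernel

def t22_30_142 : V3.chw 22 30 142 3 [2, 1, 3] = true := by
  decide +kernel

def t22_31_146 : V3.chw 22 31 146 3 [2, 3, 1021] = true := by
  decide +kernel

def t22_31_147 : V3.chw 22 31 147 3 [5] = true := by
  decide +kernel

def t22_32_150 : V3.chw 22 32 150 4 [1, 1, 1] = true := by
  decide +kernel

def t22_32_151 : V3.chw 22 32 151 4 [1, 1019, 1] = true := by
  decide +kernel

def t22_33_155 : V3.chw 22 33 155 4 [1, 1, 1] = true := by
  decide +kernel

def t22_33_156 : V3.chw 22 33 156 3 [2, 1, 3] = true := by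
  decide +kernel

def t22_34_160 : V3.chw 22 34 160 3 [1, 2, 3] = true := by
  decide +kernel

def t22_34_161 : V3.chw 22 34 161 3 [2, 1, 3] = true := by
  decide +kernel

def t22_35_164 : V3.chw 22 35 164 4 [1, 1, 1] = true := by
  decide +kernel

def t22_35_165 : V3.chw 22 35 165 4 [1017, 1019, 1020, 1021] = true := by
  decide +kernel

def t22_36_169 : V3.chw 22 36 169 4 [1, 1, 1] = true := by
  decide +kernel

def t22_36_170 : V3.chw 22 36 170 3 [1, 3, 1, 1] = true := by
  decide +kernel

def t22_37_174 : V3.chw 22 37 174 2 [1, 2, 3, 2] = true := by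
  decide +kernel

def t22_37_175 : V3.chw 22 37 175 3 [2, 1, 3] = true := by
  decide +kernel

def t22_38_179 : V3.chw 22 38 179 4 [1, 1019, 1020, 1021] = true := by
  decide +kernel

def t22_38_180 : V3.chw 22 38 180 3 [5] = true := by
  decide +kernel

def t22_39_183 : V3.chw 22 39 183 4 [1, 1, 1] = true := by
  decide +kernel

def t22_39_184 : V3.chw 22 39 184 4 [1, 1019, 1] = true := by
  decide +kernel

def t22_40_188 : V3.chw 22 40 188 3 [2, 2, 2] = true := by
  decide +kernel

def t22_40_189 : V3.chw 22 40 189 3 [2, 2, 2] = true := by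
  decide +kernel

def t22_41_193 : V3.chw 22 41 193 4 [1, 1019, 1020, 1021] = true := by
  decide +kernel

def t22_41_194 : V3.chw 22 41 194 3 [2, 1, 3] = true := by
  decide +kernel

def t22_42_197 : V3.chw 22 42 197 4 [1, 1, 1] = true := by
  decide +kernel

def t22_42_198 : V3.chw 22 42 198 4 [1, 1019, 1] = true := by
  decide +kernel

def t22_43_202 : V3.chw 22 43 202 4 [1, 1, 1021] = true := by
  decide +kernel

def t22_43_203 : V3.chw 22 43 203 4 [1, 1020] = true := by
  decide +kernel

def t22_44_207 : V3.chw 22 44 207 4 [1, 1019, 1] = true := by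
  decide +kernel

def t22_44_208 : V3.chw 22 44 208 4 [1, 1020] = true := by
  decide +kernel

def t22_45_211 : V3.chw 22 45 211 4 [1, 1020] = true := by
  decide +kernel

def t22_45_212 : V3.chw 22 45 212 2 [1, 1008, 1015, 1021] = true := by
  decide +kernel

def t22_46_216 : V3.chw 22 46 216 4 [1, 1, 1021] = true := by
  decide +kernel

def t22_46_217 : V3.chw 22 46 217 2 [1, 1008, 1015] = true := by
  decide +kernel

def t22_47_221 : V3.chw 22 47 221 4 [1, 1019, 1] = true := by
  decide +kernel

def t22_47_222 : V3.chw 22 47 222 4 [1, 1020] = true := by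
  decide +kernel

def t22_48_225 : V3.chw 22 48 225 4 [1017, 1020] = true := by
  decide +kernel

def t22_48_226 : V3.chw 22 48 226 2 [1, 1007, 1, 1011, 1012, 1014, 1016, 1017, 1, 1020, 1021] = true := by
  decide +kernel

def t22_49_230 : V3.chw 22 49 230 4 [1, 1020] = true := by
  decide +kernel

def t22_49_231 : V3.chw 22 49 231 2 [1, 1008, 1015] = true := by
  decide +kernel

def t22_50_235 : V3.chw 22 50 235 4 [1, 1019, 1] = true := by
  decide +kernel

def t22_50_236 : V3.chw 22 50 236 4 [1, 1020] = true := by
  decide +kernel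

theorem R22 {K : Type*} [Field K] [CharZero K] (m d : ℕ) (h : m ≤ 50) : MR K 22 m d := by
  interval_cases m
  · exact good_cova 4 (by decide +kernel) d
  · exact good_cova 4 (by decide +kernel) d
  · exact good_cova 4 (by decide +kernel) d
  · exact good_cova 4 (by decide +kernel) d
  · exact good_cova 4 (by decide +kernel) d
  · exact good_cova 4 (by decide +kernel) d
  · exact good_cova 4 (by decide +kernel) d
  · exact good_cova 4 (by decide +kernel) d
  · exact good_cova 4 (by decide +kernel) d
  · exact good_cova 4 (by decide +kernel) d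
  · exact good_cova 4 (by decide +kernel) d
  · exact good_cova 4 (by decide +kernel) d
  · exact good_cova 4 (by decide +kernel) d
  · exact good_cova 4 (by decide +kernel) d
  · exact crit 66 (by decide +kernel) (V3.good_chw _ _ t22_14_66) (V3.good_chw _ _ t22_14_67) d
  · exact crit 71 (by decide +kernel) (V3.good_chw _ _ t22_15_71) (V3.good_chw _ _ t22_15_72) d
  · exact crit 75 (by decide +kernel) (V3.good_chw _ _ t22_16_75) (V3.good_chw _ _ t22_16_76) d
  · exact crit 80 (by decide +kernel) (V3.good_chw _ _ t22_17_80) (V3.good_chw _ _ t22_17_81) d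
  · exact crit 85 (by decide +kernel) (V3.good_chw _ _ t22_18_85) (V3.good_chw _ _ t22_18_86) d
  · exact crit 89 (by decide +kernel) (V3.good_chw _ _ t22_19_89) (V3.good_chw _ _ t22_19_90) d
  · exact crit 94 (by decide +kernel) (V3.good_chw _ _ t22_20_94) (V3.good_chw _ _ t22_20_95) d
  · exact crit 99 (by decide +kernel) (V3.good_chw _ _ t22_21_99) (V3.good_chw _ _ t22_21_100) d
  · exact crit 104 (by decide +kernel) (V3.good_chw _ _ t22_22_104) (V3.good_chw _ _ t22_22_105) d
  · exact crit 108 (by decide +kernel) (V3.good_chw _ _ t22_23_108) (V3.good_chw _ _ t22_23_109) d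
  · exact crit 113 (by decide +kernel) (V3.good_chw _ _ t22_24_113) (V3.good_chw _ _ t22_24_114) d
  · exact crit 118 (by decide +kernel) (V3.good_chw _ _ t22_25_118) (V3.good_chw _ _ t22_25_119) d
  · exact crit 122 (by decide +kernel) (V3.good_chw _ _ t22_26_122) (V3.good_chw _ _ t22_26_123) d
  · exact crit 127 (by decide +kernel) (V3.good_chw _ _ t22_27_127) (V3.good_chw _ _ t22_27_128) d
  · exact crit 132 (by decide +kernel) (V3.good_chw _ _ t22_28_132) (V3.good_chw _ _ t22_28_133) d
  · exact crit 136 (by decide +kernel) (V3.good_chw _ _ t22_29_136) (V3.good_chw _ _ t22_29_137) d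
  · exact crit 141 (by decide +kernel) (V3.good_chw _ _ t22_30_141) (V3.good_chw _ _ t22_30_142) d
  · exact crit 146 (by decide +kernel) (V3.good_chw _ _ t22_31_146) (V3.good_chw _ _ t22_31_147) d
  · exact crit 150 (by decide +kernel) (V3.good_chw _ _ t22_32_150) (V3.good_chw _ _ t22_32_151) d
  · exact crit 155 (by decide +kernel) (V3.good_chw _ _ t22_33_155) (V3.good_chw _ _ t22_33_156) d
  · exact crit 160 (by decide +kernel) (V3.good_chw _ _ t22_34_160) (V3.good_chw _ _ t22_34_161) d
  · exact crit 164 (by decide +kernel) (V3.good_chw _ _ t22_35_164) (V3.good_chw _ _ t22_35_165) d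
  · exact crit 169 (by decide +kernel) (V3.good_chw _ _ t22_36_169) (V3.good_chw _ _ t22_36_170) d
  · exact crit 174 (by decide +kernel) (V3.good_chw _ _ t22_37_174) (V3.good_chw _ _ t22_37_175) d
  · exact crit 179 (by decide +kernel) (V3.good_chw _ _ t22_38_179) (V3.good_chw _ _ t22_38_180) d
  · exact crit 183 (by decide +kernel) (V3.good_chw _ _ t22_39_183) (V3.good_chw _ _ t22_39_184) d
  · exact crit 188 (by decide +kernel) (V3.good_chw _ _ t22_40_188) (V3.good_chw _ _ t22_40_189) d
  · exact crit 193 (by decide +kernel) (V3.good_chw _ _ t22_41_193) (V3.good_chw _ _ t22_41_194) d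
  · exact crit 197 (by decide +kernel) (V3.good_chw _ _ t22_42_197) (V3.good_chw _ _ t22_42_198) d
  · exact crit 202 (by decide +kernel) (V3.good_chw _ _ t22_43_202) (V3.good_chw _ _ t22_43_203) d
  · exact crit 207 (by decide +kernel) (V3.good_chw _ _ t22_44_207) (V3.good_chw _ _ t22_44_208) d
  · exact crit 211 (by decide +kernel) (V3.good_chw _ _ t22_45_211) (V3.good_chw _ _ t22_45_212) d
  · exact crit 216 (by decide +kernel) (V3.good_chw _ _ t22_46_216) (V3.good_chw _ _ t22_46_217) d
  · exact crit 221 (by decide +kernel) (V3.good_chw _ _ t22_47_221) (V3.good_chw _ _ t22_47_222) d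
  · exact crit 225 (by decide +kernel) (V3.good_chw _ _ t22_48_225) (V3.good_chw _ _ t22_48_226) d
  · exact crit 230 (by decide +kernel) (V3.good_chw _ _ t22_49_230) (V3.good_chw _ _ t22_49_231) d
  · exact crit 235 (by decide +kernel) (V3.good_chw _ _ t22_50_235) (V3.good_chw _ _ t22_50_236) d

def t23_6_29 : V3.chw 23 6 29 4 [3] = true := by
  decide +kernel

def t23_6_30 : V3.chw 23 6 30 4 [3] = true := by
  decide +kernel

def t23_7_34 : V3.chw 23 7 34 3 [4, 2] = true := by
  decide +kernel

def t23_7_35 : V3.chw 23 7 35 4 [3] = true := by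
  decide +kernel

def t23_8_39 : V3.chw 23 8 39 2 [3, 3, 2] = true := by
  decide +kernel

def t23_8_40 : V3.chw 23 8 40 4 [3] = true := by
  decide +kernel

def t23_9_44 : V3.chw 23 9 44 2 [1, 1007, 5, 1022] = true := by
  decide +kernel

def t23_10_48 : V3.chw 23 10 48 4 [3] = true := by
  decide +kernel

def t23_10_49 : V3.chw 23 10 49 2 [3, 3, 2] = true := by
  decide +kernel

def t23_11_53 : V3.chw 23 11 53 3 [4, 2] = true := by
  decide +kernel

def t23_11_54 : V3.chw 23 11 54 3 [4, 2] = true := by
  decide +kernel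

def t23_12_58 : V3.chw 23 12 58 3 [4, 2] = true := by
  decide +kernel

def t23_12_59 : V3.chw 23 12 59 4 [3] = true := by
  decide +kernel

def t23_13_63 : V3.chw 23 13 63 3 [4, 2] = true := by
  decide +kernel

def t23_13_64 : V3.chw 23 13 64 4 [3] = true := by
  decide +kernel

def t23_14_68 : V3.chw 23 14 68 2 [3, 3, 1019, 1020, 1] = true := by
  decide +kernel

def t23_15_72 : V3.chw 23 15 72 3 [4, 2] = true := by
  decide +kernel

def t23_15_73 : V3.chw 23 15 73 3 [4, 2] = true := by
  decide +kernel

def t23_16_77 : V3.chw 23 16 77 3 [4, 2] = true := by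
  decide +kernel

def t23_16_78 : V3.chw 23 16 78 3 [4, 2] = true := by
  decide +kernel

def t23_17_82 : V3.chw 23 17 82 3 [4, 2] = true := by
  decide +kernel

def t23_17_83 : V3.chw 23 17 83 3 [2, 4] = true := by
  decide +kernel

def t23_18_87 : V3.chw 23 18 87 2 [3, 3, 1, 1] = true := by
  decide +kernel

def t23_18_88 : V3.chw 23 18 88 4 [3] = true := by
  decide +kernel

def t23_19_91 : V3.chw 23 19 91 3 [4, 2] = true := by
  decide +kernel

def t23_19_92 : V3.chw 23 19 92 3 [1, 1, 1015, 1017, 1018, 1, 1] = true := by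
  decide +kernel

def t23_20_96 : V3.chw 23 20 96 3 [4, 2] = true := by
  decide +kernel

def t23_20_97 : V3.chw 23 20 97 2 [1, 4, 2, 1] = true := by
  decide +kernel

def t23_21_101 : V3.chw 23 21 101 3 [4, 2] = true := by
  decide +kernel

def t23_21_102 : V3.chw 23 21 102 3 [4, 2] = true := by
  decide +kernel

def t23_22_106 : V3.chw 23 22 106 3 [4, 2] = true := by
  decide +kernel

def t23_22_107 : V3.chw 23 22 107 3 [4, 2] = true := by
  decide +kernel

def t23_23_111 : V3.chw 23 23 111 3 [4, 2] = true := by
  decide +kernel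

def t23_23_112 : V3.chw 23 23 112 3 [4, 2] = true := by
  decide +kernel

def t23_24_115 : V3.chw 23 24 115 3 [4, 2] = true := by
  decide +kernel

def t23_24_116 : V3.chw 23 24 116 3 [2, 1016, 1020, 1021, 1022] = true := by
  decide +kernel

def t23_25_120 : V3.chw 23 25 120 3 [4, 2] = true := by
  decide +kernel

def t23_25_121 : V3.chw 23 25 121 3 [4, 2] = true := by
  decide +kernel

def t23_26_125 : V3.chw 23 26 125 3 [4, 2] = true := by
  decide +kernel

def t23_26_126 : V3.chw 23 26 126 3 [4, 2] = true := by
  decide +kernel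

def t23_27_130 : V3.chw 23 27 130 3 [4, 2] = true := by
  decide +kernel

def t23_27_131 : V3.chw 23 27 131 3 [4, 2] = true := by
  decide +kernel

def t23_28_135 : V3.chw 23 28 135 3 [4, 2, 1022] = true := by
  decide +kernel

def t23_28_136 : V3.chw 23 28 136 3 [4, 2] = true := by
  decide +kernel

def t23_29_139 : V3.chw 23 29 139 3 [4, 2] = true := by
  decide +kernel

def t23_29_140 : V3.chw 23 29 140 2 [1, 1007, 5, 1021, 1022] = true := by
  decide +kernel

def t23_30_144 : V3.chw 23 30 144 3 [4, 2] = true := by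
  decide +kernel

def t23_30_145 : V3.chw 23 30 145 2 [3, 1, 3, 1] = true := by
  decide +kernel

def t23_31_149 : V3.chw 23 31 149 3 [4, 2] = true := by
  decide +kernel

def t23_31_150 : V3.chw 23 31 150 3 [4, 2] = true := by
  decide +kernel

def t23_32_154 : V3.chw 23 32 154 3 [4, 2] = true := by
  decide +kernel

def t23_32_155 : V3.chw 23 32 155 3 [4, 2] = true := by
  decide +kernel

def t23_33_159 : V3.chw 23 33 159 2 [1, 1012, 1022] = true := by
  decide +kernel

def t23_33_160 : V3.chw 23 33 160 3 [4, 2] = true := by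
  decide +kernel

def t23_34_163 : V3.chw 23 34 163 3 [4, 2] = true := by
  decide +kernel

def t23_34_164 : V3.chw 23 34 164 2 [1, 1007, 5, 1021, 1022] = true := by
  decide +kernel

def t23_35_168 : V3.chw 23 35 168 3 [4, 2] = true := by
  decide +kernel

def t23_35_169 : V3.chw 23 35 169 3 [4, 2] = true := by
  decide +kernel

def t23_36_173 : V3.chw 23 36 173 3 [4, 2] = true := by
  decide +kernel

def t23_36_174 : V3.chw 23 36 174 3 [4, 2] = true := by
  decide +kernel

def t23_37_178 : V3.chw 23 37 178 3 [4, 2] = true := by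
  decide +kernel

def t23_37_179 : V3.chw 23 37 179 3 [4, 2] = true := by
  decide +kernel

def t23_38_183 : V3.chw 23 38 183 3 [4, 2, 1022] = true := by
  decide +kernel

def t23_38_184 : V3.chw 23 38 184 3 [4, 2] = true := by
  decide +kernel

def t23_39_187 : V3.chw 23 39 187 3 [4, 2] = true := by
  decide +kernel

def t23_39_188 : V3.chw 23 39 188 2 [1, 1007, 5, 1022] = true := by
  decide +kernel

def t23_40_192 : V3.chw 23 40 192 3 [4, 2] = true := by
  decide +kernel

def t23_40_193 : V3.chw 23 40 193 3 [4, 2] = true := by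
  decide +kernel

def t23_41_197 : V3.chw 23 41 197 3 [4, 2] = true := by
  decide +kernel

def t23_41_198 : V3.chw 23 41 198 3 [4, 2] = true := by
  decide +kernel

def t23_42_202 : V3.chw 23 42 202 3 [4, 2] = true := by
  decide +kernel

def t23_42_203 : V3.chw 23 42 203 3 [4, 2] = true := by
  decide +kernel

def t23_43_207 : V3.chw 23 43 207 2 [1, 4, 1016, 2, 1022] = true := by
  decide +kernel

def t23_43_208 : V3.chw 23 43 208 2 [1, 1012] = true := by
  decide +kernel

def t23_44_211 : V3.chw 23 44 211 2 [1, 1012] = true := by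
  decide +kernel

def t23_44_212 : V3.chw 23 44 212 2 [1, 1, 1009, 1, 1013, 1014, 3, 1022] = true := by
  decide +kernel

def t23_45_216 : V3.chw 23 45 216 3 [4, 2] = true := by
  decide +kernel

def t23_45_217 : V3.chw 23 45 217 2 [1, 1012] = true := by
  decide +kernel

def t23_46_221 : V3.chw 23 46 221 3 [4, 2] = true := by
  decide +kernel

def t23_46_222 : V3.chw 23 46 222 2 [1, 1012] = true := by
  decide +kernel

def t23_47_226 : V3.chw 23 47 226 3 [4, 2, 1022] = true := by
  decide +kernel

def t23_47_227 : V3.chw 23 47 227 2 [1, 1012] = true := by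
  decide +kernel

def t23_48_231 : V3.chw 23 48 231 3 [1, 1013, 1015, 1016, 1017, 1019, 1021, 1022] = true := by
  decide +kernel

def t23_48_232 : V3.chw 23 48 232 2 [1, 1012] = true := by
  decide +kernel

def t23_49_235 : V3.chw 23 49 235 2 [1, 1012] = true := by
  decide +kernel

def t23_49_236 : V3.chw 23 49 236 3 [4, 2, 1022] = true := by
  decide +kernel

def t23_50_240 : V3.chw 23 50 240 3 [4, 2] = true := by
  decide +kernel

def t23_50_241 : V3.chw 23 50 241 2 [1, 1012] = true := by
  decide +kernel

theorem R23 {K : Type*} [Field K] [CharZero K] (m d : ℕ) (h : m ≤ 50) : MR K 23 m d := by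
  interval_cases m
  · exact good_cova 3 (by decide +kernel) d
  · exact good_cova 3 (by decide +kernel) d
  · exact good_cova 3 (by decide +kernel) d
  · exact good_cova 3 (by decide +kernel) d
  · exact good_cova 3 (by decide +kernel) d
  · exact good_cova 3 (by decide +kernel) d
  · exact crit 29 (by decide +kernel) (V3.good_chw _ _ t23_6_29) (V3.good_chw _ _ t23_6_30) d
  · exact crit 34 (by decide +kernel) (V3.good_chw _ _ t23_7_34) (V3.good_chw _ _ t23_7_35) d
  · exact crit 39 (by decide +kernel) (V3.good_chw _ _ t23_8_39) (V3.good_chw _ _ t23_8_40) d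
  · exact crit0 44 (by decide +kernel) (V3.good_chw _ _ t23_9_44) d
  · exact crit 48 (by decide +kernel) (V3.good_chw _ _ t23_10_48) (V3.good_chw _ _ t23_10_49) d
  · exact crit 53 (by decide +kernel) (V3.good_chw _ _ t23_11_53) (V3.good_chw _ _ t23_11_54) d
  · exact crit 58 (by decide +kernel) (V3.good_chw _ _ t23_12_58) (V3.good_chw _ _ t23_12_59) d
  · exact crit 63 (by decide +kernel) (V3.good_chw _ _ t23_13_63) (V3.good_chw _ _ t23_13_64) d
  · exact crit0 68 (by decide +kernel) (V3.good_chw _ _ t23_14_68) d
  · exact crit 72 (by decide +kernel) (V3.good_chw _ _ t23_15_72) (V3.good_chw _ _ t23_15_73) d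
  · exact crit 77 (by decide +kernel) (V3.good_chw _ _ t23_16_77) (V3.good_chw _ _ t23_16_78) d
  · exact crit 82 (by decide +kernel) (V3.good_chw _ _ t23_17_82) (V3.good_chw _ _ t23_17_83) d
  · exact crit 87 (by decide +kernel) (V3.good_chw _ _ t23_18_87) (V3.good_chw _ _ t23_18_88) d
  · exact crit 91 (by decide +kernel) (V3.good_chw _ _ t23_19_91) (V3.good_chw _ _ t23_19_92) d
  · exact crit 96 (by decide +kernel) (V3.good_chw _ _ t23_20_96) (V3.good_chw _ _ t23_20_97) d
  · exact crit 101 (by decide +kernel) (V3.good_chw _ _ t23_21_101) (V3.good_chw _ _ t23_21_102) d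
  · exact crit 106 (by decide +kernel) (V3.good_chw _ _ t23_22_106) (V3.good_chw _ _ t23_22_107) d
  · exact crit 111 (by decide +kernel) (V3.good_chw _ _ t23_23_111) (V3.good_chw _ _ t23_23_112) d
  · exact crit 115 (by decide +kernel) (V3.good_chw _ _ t23_24_115) (V3.good_chw _ _ t23_24_116) d
  · exact crit 120 (by decide +kernel) (V3.good_chw _ _ t23_25_120) (V3.good_chw _ _ t23_25_121) d
  · exact crit 125 (by decide +kernel) (V3.good_chw _ _ t23_26_125) (V3.good_chw _ _ t23_26_126) d
  · exact crit 130 (by decide +kernel) (V3.good_chw _ _ t23_27_130) (V3.good_chw _ _ t23_27_131) d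
  · exact crit 135 (by decide +kernel) (V3.good_chw _ _ t23_28_135) (V3.good_chw _ _ t23_28_136) d
  · exact crit 139 (by decide +kernel) (V3.good_chw _ _ t23_29_139) (V3.good_chw _ _ t23_29_140) d
  · exact crit 144 (by decide +kernel) (V3.good_chw _ _ t23_30_144) (V3.good_chw _ _ t23_30_145) d
  · exact crit 149 (by decide +kernel) (V3.good_chw _ _ t23_31_149) (V3.good_chw _ _ t23_31_150) d
  · exact crit 154 (by decide +kernel) (V3.good_chw _ _ t23_32_154) (V3.good_chw _ _ t23_32_155) d
  · exact crit 159 (by decide +kernel) (V3.good_chw _ _ t23_33_159) (V3.good_chw _ _ t23_33_160) d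
  · exact crit 163 (by decide +kernel) (V3.good_chw _ _ t23_34_163) (V3.good_chw _ _ t23_34_164) d
  · exact crit 168 (by decide +kernel) (V3.good_chw _ _ t23_35_168) (V3.good_chw _ _ t23_35_169) d
  · exact crit 173 (by decide +kernel) (V3.good_chw _ _ t23_36_173) (V3.good_chw _ _ t23_36_174) d
  · exact crit 178 (by decide +kernel) (V3.good_chw _ _ t23_37_178) (V3.good_chw _ _ t23_37_179) d
  · exact crit 183 (by decide +kernel) (V3.good_chw _ _ t23_38_183) (V3.good_chw _ _ t23_38_184) d
  · exact crit 187 (by decide +kernel) (V3.good_chw _ _ t23_39_187) (V3.good_chw _ _ t23_39_188) d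
  · exact crit 192 (by decide +kernel) (V3.good_chw _ _ t23_40_192) (V3.good_chw _ _ t23_40_193) d
  · exact crit 197 (by decide +kernel) (V3.good_chw _ _ t23_41_197) (V3.good_chw _ _ t23_41_198) d
  · exact crit 202 (by decide +kernel) (V3.good_chw _ _ t23_42_202) (V3.good_chw _ _ t23_42_203) d
  · exact crit 207 (by decide +kernel) (V3.good_chw _ _ t23_43_207) (V3.good_chw _ _ t23_43_208) d
  · exact crit 211 (by decide +kernel) (V3.good_chw _ _ t23_44_211) (V3.good_chw _ _ t23_44_212) d
  · exact crit 216 (by decide +kernel) (V3.good_chw _ _ t23_45_216) (V3.good_chw _ _ t23_45_217) d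
  · exact crit 221 (by decide +kernel) (V3.good_chw _ _ t23_46_221) (V3.good_chw _ _ t23_46_222) d
  · exact crit 226 (by decide +kernel) (V3.good_chw _ _ t23_47_226) (V3.good_chw _ _ t23_47_227) d
  · exact crit 231 (by decide +kernel) (V3.good_chw _ _ t23_48_231) (V3.good_chw _ _ t23_48_232) d
  · exact crit 235 (by decide +kernel) (V3.good_chw _ _ t23_49_235) (V3.good_chw _ _ t23_49_236) d
  · exact crit 240 (by decide +kernel) (V3.good_chw _ _ t23_50_240) (V3.good_chw _ _ t23_50_241) d

def t24_13_64 : V3.chw 24 13 64 3 [5, 1] = true := by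
  decide +kernel

def t24_13_65 : V3.chw 24 13 65 2 [1, 6] = true := by
  decide +kernel

def t24_14_69 : V3.chw 24 14 69 3 [5, 1] = true := by
  decide +kernel

def t24_14_70 : V3.chw 24 14 70 2 [1, 6] = true := by
  decide +kernel

def t24_15_74 : V3.chw 24 15 74 3 [5, 1] = true := by
  decide +kernel

def t24_15_75 : V3.chw 24 15 75 2 [1, 6] = true := by
  decide +kernel

def t24_16_79 : V3.chw 24 16 79 4 [1, 1, 1, 1] = true := by
  decide +kernel

def t24_16_80 : V3.chw 24 16 80 2 [1, 6] = true := by
  decide +kernel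

def t24_17_84 : V3.chw 24 17 84 3 [2, 2, 2, 1] = true := by
  decide +kernel

def t24_17_85 : V3.chw 24 17 85 2 [1, 6] = true := by
  decide +kernel

def t24_18_89 : V3.chw 24 18 89 2 [1, 3, 1, 1, 2, 1] = true := by
  decide +kernel

def t24_18_90 : V3.chw 24 18 90 2 [1, 6] = true := by
  decide +kernel

def t24_19_94 : V3.chw 24 19 94 4 [1, 1019, 1020, 1021, 1] = true := by
  decide +kernel

def t24_20_98 : V3.chw 24 20 98 2 [5, 2] = true := by
  decide +kernel

def t24_20_99 : V3.chw 24 20 99 2 [1, 6] = true := by
  decide +kernel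

def t24_21_103 : V3.chw 24 21 103 2 [5, 2] = true := by
  decide +kernel

def t24_21_104 : V3.chw 24 21 104 2 [1, 6] = true := by
  decide +kernel

def t24_22_108 : V3.chw 24 22 108 3 [5, 1] = true := by
  decide +kernel

def t24_22_109 : V3.chw 24 22 109 2 [1, 6] = true := by
  decide +kernel

def t24_23_113 : V3.chw 24 23 113 3 [5, 1] = true := by
  decide +kernel

def t24_23_114 : V3.chw 24 23 114 2 [1, 6] = true := by
  decide +kernel

def t24_24_118 : V3.chw 24 24 118 3 [5, 1] = true := by
  decide +kernel

def t24_24_119 : V3.chw 24 24 119 2 [1, 6] = true := by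
  decide +kernel

def t24_25_123 : V3.chw 24 25 123 4 [1, 1, 1, 1] = true := by
  decide +kernel

def t24_25_124 : V3.chw 24 25 124 2 [1, 6] = true := by
  decide +kernel

def t24_26_128 : V3.chw 24 26 128 3 [2, 2, 1, 2] = true := by
  decide +kernel

def t24_26_129 : V3.chw 24 26 129 2 [1, 6] = true := by
  decide +kernel

def t24_27_133 : V3.chw 24 27 133 2 [1, 6, 1023] = true := by
  decide +kernel

def t24_27_134 : V3.chw 24 27 134 2 [1, 6] = true := by
  decide +kernel

def t24_28_138 : V3.chw 24 28 138 4 [1, 1, 1022] = true := by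
  decide +kernel

def t24_28_139 : V3.chw 24 28 139 2 [1, 6] = true := by
  decide +kernel

def t24_29_143 : V3.chw 24 29 143 2 [1, 1008, 1015, 1021, 1022, 1023] = true := by
  decide +kernel

def t24_30_147 : V3.chw 24 30 147 3 [5, 1] = true := by
  decide +kernel

def t24_30_148 : V3.chw 24 30 148 2 [1, 6] = true := by
  decide +kernel

def t24_31_152 : V3.chw 24 31 152 3 [5, 1] = true := by
  decide +kernel

def t24_31_153 : V3.chw 24 31 153 2 [1, 6] = true := by
  decide +kernel

def t24_32_157 : V3.chw 24 32 157 4 [1, 1, 1, 1] = true := by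
  decide +kernel

def t24_32_158 : V3.chw 24 32 158 2 [1, 6] = true := by
  decide +kernel

def t24_33_162 : V3.chw 24 33 162 4 [1, 1, 1, 1] = true := by
  decide +kernel

def t24_33_163 : V3.chw 24 33 163 2 [1, 6] = true := by
  decide +kernel

def t24_34_167 : V3.chw 24 34 167 3 [2, 2, 1, 2] = true := by
  decide +kernel

def t24_34_168 : V3.chw 24 34 168 2 [1, 6] = true := by
  decide +kernel

def t24_35_172 : V3.chw 24 35 172 3 [2, 2, 1, 2] = true := by
  decide +kernel

def t24_35_173 : V3.chw 24 35 173 2 [1, 6] = true := by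
  decide +kernel

def t24_36_177 : V3.chw 24 36 177 3 [2, 2, 1, 2] = true := by
  decide +kernel

def t24_36_178 : V3.chw 24 36 178 2 [1, 6] = true := by
  decide +kernel

def t24_37_182 : V3.chw 24 37 182 3 [1, 1, 3, 1, 1] = true := by
  decide +kernel

def t24_37_183 : V3.chw 24 37 183 2 [1, 6] = true := by
  decide +kernel

def t24_38_187 : V3.chw 24 38 187 2 [1, 6, 1023] = true := by
  decide +kernel

def t24_38_188 : V3.chw 24 38 188 2 [1, 6] = true := by
  decide +kernel

def t24_39_191 : V3.chw 24 39 191 3 [5, 1] = true := by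
  decide +kernel

def t24_39_192 : V3.chw 24 39 192 4 [1, 1019, 1020, 1021, 1022, 1023] = true := by
  decide +kernel

def t24_40_196 : V3.chw 24 40 196 3 [5, 1] = true := by
  decide +kernel

def t24_40_197 : V3.chw 24 40 197 2 [1, 6] = true := by
  decide +kernel

def t24_41_201 : V3.chw 24 41 201 3 [5, 1] = true := by
  decide +kernel

def t24_41_202 : V3.chw 24 41 202 2 [1, 6] = true := by
  decide +kernel

def t24_42_206 : V3.chw 24 42 206 3 [2, 2, 1, 2] = true := by
  decide +kernel

def t24_42_207 : V3.chw 24 42 207 2 [1, 6] = true := by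
  decide +kernel

def t24_43_211 : V3.chw 24 43 211 2 [5, 1022] = true := by
  decide +kernel

def t24_43_212 : V3.chw 24 43 212 2 [1, 6] = true := by
  decide +kernel

def t24_44_216 : V3.chw 24 44 216 4 [1014, 2, 1022] = true := by
  decide +kernel

def t24_44_217 : V3.chw 24 44 217 2 [1, 6] = true := by
  decide +kernel

def t24_45_221 : V3.chw 24 45 221 2 [1, 6, 1022] = true := by
  decide +kernel

def t24_45_222 : V3.chw 24 45 222 2 [1, 6] = true := by
  decide +kernel

def t24_46_226 : V3.chw 24 46 226 2 [1, 6, 1022] = true := by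
  decide +kernel

def t24_46_227 : V3.chw 24 46 227 2 [1, 6] = true := by
  decide +kernel

def t24_47_231 : V3.chw 24 47 231 2 [1, 6, 1023] = true := by
  decide +kernel

def t24_47_232 : V3.chw 24 47 232 2 [1, 6] = true := by
  decide +kernel

def t24_48_236 : V3.chw 24 48 236 2 [1, 6, 1023] = true := by
  decide +kernel

def t24_48_237 : V3.chw 24 48 237 2 [1, 6] = true := by
  decide +kernel

def t24_49_240 : V3.chw 24 49 240 2 [5, 1022] = true := by
  decide +kernel

def t24_49_241 : V3.chw 24 49 241 2 [1, 1008, 1, 1012, 1, 1016, 2, 1021, 1022, 1023] = true := by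
  decide +kernel

def t24_50_245 : V3.chw 24 50 245 2 [5, 1022] = true := by
  decide +kernel

def t24_50_246 : V3.chw 24 50 246 2 [1, 6] = true := by
  decide +kernel

theorem R24 {K : Type*} [Field K] [CharZero K] (m d : ℕ) (h : m ≤ 50) : MR K 24 m d := by
  interval_cases m
  · exact good_cova 4 (by decide +kernel) d
  · exact good_cova 4 (by decide +kernel) d
  · exact good_cova 4 (by decide +kernel) d
  · exact good_cova 4 (by decide +kernel) d
  · exact good_cova 4 (by decide +kernel) d
  · exact good_cova 4 (by decide +kernel) d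
  · exact good_cova 4 (by decide +kernel) d
  · exact good_cova 4 (by decide +kernel) d
  · exact good_cova 4 (by decide +kernel) d
  · exact good_cova 4 (by decide +kernel) d
  · exact good_cova 4 (by decide +kernel) d
  · exact good_cova 4 (by decide +kernel) d
  · exact good_cova 4 (by decide +kernel) d
  · exact crit 64 (by decide +kernel) (V3.good_chw _ _ t24_13_64) (V3.good_chw _ _ t24_13_65) d
  · exact crit 69 (by decide +kernel) (V3.good_chw _ _ t24_14_69) (V3.good_chw _ _ t24_14_70) d
  · exact crit 74 (by decide +kernel) (V3.good_chw _ _ t24_15_74) (V3.good_chw _ _ t24_15_75) d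
  · exact crit 79 (by decide +kernel) (V3.good_chw _ _ t24_16_79) (V3.good_chw _ _ t24_16_80) d
  · exact crit 84 (by decide +kernel) (V3.good_chw _ _ t24_17_84) (V3.good_chw _ _ t24_17_85) d
  · exact crit 89 (by decide +kernel) (V3.good_chw _ _ t24_18_89) (V3.good_chw _ _ t24_18_90) d
  · exact crit0 94 (by decide +kernel) (V3.good_chw _ _ t24_19_94) d
  · exact crit 98 (by decide +kernel) (V3.good_chw _ _ t24_20_98) (V3.good_chw _ _ t24_20_99) d
  · exact crit 103 (by decide +kernel) (V3.good_chw _ _ t24_21_103) (V3.good_chw _ _ t24_21_104) d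
  · exact crit 108 (by decide +kernel) (V3.good_chw _ _ t24_22_108) (V3.good_chw _ _ t24_22_109) d
  · exact crit 113 (by decide +kernel) (V3.good_chw _ _ t24_23_113) (V3.good_chw _ _ t24_23_114) d
  · exact crit 118 (by decide +kernel) (V3.good_chw _ _ t24_24_118) (V3.good_chw _ _ t24_24_119) d
  · exact crit 123 (by decide +kernel) (V3.good_chw _ _ t24_25_123) (V3.good_chw _ _ t24_25_124) d
  · exact crit 128 (by decide +kernel) (V3.good_chw _ _ t24_26_128) (V3.good_chw _ _ t24_26_129) d
  · exact crit 133 (by decide +kernel) (V3.good_chw _ _ t24_27_133) (V3.good_chw _ _ t24_27_134) d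
  · exact crit 138 (by decide +kernel) (V3.good_chw _ _ t24_28_138) (V3.good_chw _ _ t24_28_139) d
  · exact crit0 143 (by decide +kernel) (V3.good_chw _ _ t24_29_143) d
  · exact crit 147 (by decide +kernel) (V3.good_chw _ _ t24_30_147) (V3.good_chw _ _ t24_30_148) d
  · exact crit 152 (by decide +kernel) (V3.good_chw _ _ t24_31_152) (V3.good_chw _ _ t24_31_153) d
  · exact crit 157 (by decide +kernel) (V3.good_chw _ _ t24_32_157) (V3.good_chw _ _ t24_32_158) d
  · exact crit 162 (by decide +kernel) (V3.good_chw _ _ t24_33_162) (V3.good_chw _ _ t24_33_163) d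
  · exact crit 167 (by decide +kernel) (V3.good_chw _ _ t24_34_167) (V3.good_chw _ _ t24_34_168) d
  · exact crit 172 (by decide +kernel) (V3.good_chw _ _ t24_35_172) (V3.good_chw _ _ t24_35_173) d
  · exact crit 177 (by decide +kernel) (V3.good_chw _ _ t24_36_177) (V3.good_chw _ _ t24_36_178) d
  · exact crit 182 (by decide +kernel) (V3.good_chw _ _ t24_37_182) (V3.good_chw _ _ t24_37_183) d
  · exact crit 187 (by decide +kernel) (V3.good_chw _ _ t24_38_187) (V3.good_chw _ _ t24_38_188) d
  · exact crit 191 (by decide +kernel) (V3.good_chw _ _ t24_39_191) (V3.good_chw _ _ t24_39_192) d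
  · exact crit 196 (by decide +kernel) (V3.good_chw _ _ t24_40_196) (V3.good_chw _ _ t24_40_197) d
  · exact crit 201 (by decide +kernel) (V3.good_chw _ _ t24_41_201) (V3.good_chw _ _ t24_41_202) d
  · exact crit 206 (by decide +kernel) (V3.good_chw _ _ t24_42_206) (V3.good_chw _ _ t24_42_207) d
  · exact crit 211 (by decide +kernel) (V3.good_chw _ _ t24_43_211) (V3.good_chw _ _ t24_43_212) d
  · exact crit 216 (by decide +kernel) (V3.good_chw _ _ t24_44_216) (V3.good_chw _ _ t24_44_217) d
  · exact crit 221 (by decide +kernel) (V3.good_chw _ _ t24_45_221) (V3.good_chw _ _ t24_45_222) d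
  · exact crit 226 (by decide +kernel) (V3.good_chw _ _ t24_46_226) (V3.good_chw _ _ t24_46_227) d
  · exact crit 231 (by decide +kernel) (V3.good_chw _ _ t24_47_231) (V3.good_chw _ _ t24_47_232) d
  · exact crit 236 (by decide +kernel) (V3.good_chw _ _ t24_48_236) (V3.good_chw _ _ t24_48_237) d
  · exact crit 240 (by decide +kernel) (V3.good_chw _ _ t24_49_240) (V3.good_chw _ _ t24_49_241) d
  · exact crit 245 (by decide +kernel) (V3.good_chw _ _ t24_50_245) (V3.good_chw _ _ t24_50_246) d

theorem R25 {K : Type*} [Field K] [CharZero K] (m d : ℕ) (h : m ≤ 50) : MR K 25 m d := by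
  interval_cases m
  · exact good_cova 5 (by decide +kernel) d
  · exact good_cova 5 (by decide +kernel) d
  · exact good_cova 5 (by decide +kernel) d
  · exact good_cova 5 (by decide +kernel) d
  · exact good_cova 5 (by decide +kernel) d
  · exact good_cova 5 (by decide +kernel) d
  · exact good_cova 5 (by decide +kernel) d
  · exact good_cova 5 (by decide +kernel) d
  · exact good_cova 5 (by decide +kernel) d
  · exact good_cova 5 (by decide +kernel) d
  · exact good_cova 5 (by decide +kernel) d
  · exact good_cova 5 (by decide +kernel) d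
  · exact good_cova 5 (by decide +kernel) d
  · exact good_cova 5 (by decide +kernel) d
  · exact good_cova 5 (by decide +kernel) d
  · exact good_cova 5 (by decide +kernel) d
  · exact good_cova 5 (by decide +kernel) d
  · exact good_cova 5 (by decide +kernel) d
  · exact good_cova 5 (by decide +kernel) d
  · exact good_cova 5 (by decide +kernel) d
  · exact good_cova 5 (by decide +kernel) d
  · exact good_cova 5 (by decide +kernel) d
  · exact good_cova 5 (by decide +kernel) d
  · exact good_cova 5 (by decide +kernel) d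
  · exact good_cova 5 (by decide +kernel) d
  · exact good_cova 5 (by decide +kernel) d
  · exact good_cova 5 (by decide +kernel) d
  · exact good_cova 5 (by decide +kernel) d
  · exact good_cova 5 (by decide +kernel) d
  · exact good_cova 5 (by decide +kernel) d
  · exact good_cova 5 (by decide +kernel) d
  · exact good_cova 5 (by decide +kernel) d
  · exact good_cova 5 (by decide +kernel) d
  · exact good_cova 5 (by decide +kernel) d
  · exact good_cova 5 (by decide +kernel) d
  · exact good_cova 5 (by decide +kernel) d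
  · exact good_cova 5 (by decide +kernel) d
  · exact good_cova 5 (by decide +kernel) d
  · exact good_cova 5 (by decide +kernel) d
  · exact good_cova 5 (by decide +kernel) d
  · exact good_cova 5 (by decide +kernel) d
  · exact good_cova 5 (by decide +kernel) d
  · exact good_cova 5 (by decide +kernel) d
  · exact good_cova 5 (by decide +kernel) d
  · exact good_cova 5 (by decide +kernel) d
  · exact good_cova 5 (by decide +kernel) d
  · exact good_cova 5 (by decide +kernel) d
  · exact good_cova 5 (by decide +kernel) d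
  · exact good_cova 5 (by decide +kernel) d
  · exact good_cova 5 (by decide +kernel) d
  · exact good_cova 5 (by decide +kernel) d

end Pool.Agent.Helper54.FM
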