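import Pool.Agent.Helper54.FM.Fast3

set_option autoImplicit false
set_option maxRecDepth 100000
set_option linter.defProp false

/-! Project FM (helper54), MP_e6aa12_ag: r = 26..30, m <= 50 (generated). -/

namespace Pool.Agent.Helper54.FM

def t26_13_67 : V3.chw 26 13 67 3 [5, 2] = true := by
  decide +kernel

def t26_13_68 : V3.chw 26 13 68 3 [1, 6] = true := by
  decide +kernel

def t26_14_72 : V3.chw 26 14 72 3 [5, 2] = true := by
  decide +kernel

def t26_14_73 : V3.chw 26 14 73 3 [1, 6] = true := by
  decide +kernel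

def t26_15_77 : V3.chw 26 15 77 3 [5, 2] = true := by
  decide +kernel

def t26_15_78 : V3.chw 26 15 78 3 [1, 6] = true := by
  decide +kernel

def t26_16_82 : V3.chw 26 16 82 3 [5, 2] = true := by
  decide +kernel

def t26_16_83 : V3.chw 26 16 83 3 [5, 2] = true := by
  decide +kernel

def t26_17_87 : V3.chw 26 17 87 3 [5, 2] = true := by
  decide +kernel

def t26_17_88 : V3.chw 26 17 88 3 [5, 2] = true := by
  decide +kernel

def t26_18_92 : V3.chw 26 18 92 3 [5, 2] = true := by
  decide +kernel

def t26_18_93 : V3.chw 26 18 93 2 [1, 6, 1] = true := by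
  decide +kernel

def t26_19_97 : V3.chw 26 19 97 3 [5, 2] = true := by
  decide +kernel

def t26_19_98 : V3.chw 26 19 98 2 [1, 6, 1] = true := by
  decide +kernel

def t26_20_103 : V3.chw 26 20 103 2 [1, 6, 1022, 1] = true := by
  decide +kernel

def t26_21_108 : V3.chw 26 21 108 3 [1, 1017, 1025] = true := by
  decide +kernel

def t26_21_109 : V3.chw 26 21 109 3 [1, 6] = true := by
  decide +kernel

def t26_22_113 : V3.chw 26 22 113 2 [1, 6, 1] = true := by
  decide +kernel

def t26_22_114 : V3.chw 26 22 114 3 [1, 6] = true := by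
  decide +kernel

def t26_23_118 : V3.chw 26 23 118 2 [1, 6, 1] = true := by
  decide +kernel

def t26_23_119 : V3.chw 26 23 119 3 [1, 6] = true := by
  decide +kernel

def t26_24_123 : V3.chw 26 24 123 3 [5, 2] = true := by
  decide +kernel

def t26_24_124 : V3.chw 26 24 124 3 [5, 2] = true := by
  decide +kernel

def t26_25_128 : V3.chw 26 25 128 3 [5, 2] = true := by
  decide +kernel

def t26_25_129 : V3.chw 26 25 129 3 [5, 2] = true := by
  decide +kernel

def t26_26_133 : V3.chw 26 26 133 3 [5, 2] = true := by
  decide +kernel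

def t26_26_134 : V3.chw 26 26 134 3 [5, 2] = true := by
  decide +kernel

def t26_27_138 : V3.chw 26 27 138 3 [5, 2] = true := by
  decide +kernel

def t26_27_139 : V3.chw 26 27 139 3 [5, 2] = true := by
  decide +kernel

def t26_28_143 : V3.chw 26 28 143 3 [5, 2] = true := by
  decide +kernel

def t26_28_144 : V3.chw 26 28 144 2 [1, 6, 1] = true := by
  decide +kernel

def t26_29_148 : V3.chw 26 29 148 3 [5, 2] = true := by
  decide +kernel

def t26_29_149 : V3.chw 26 29 149 2 [1, 6, 1] = true := by
  decide +kernel

def t26_30_154 : V3.chw 26 30 154 2 [1, 6, 1024, 1025] = true := by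
  decide +kernel

def t26_31_159 : V3.chw 26 31 159 3 [1, 1017, 1025] = true := by
  decide +kernel

def t26_31_160 : V3.chw 26 31 160 3 [5, 2] = true := by
  decide +kernel

def t26_32_164 : V3.chw 26 32 164 2 [1, 6, 1] = true := by
  decide +kernel

def t26_32_165 : V3.chw 26 32 165 3 [5, 2] = true := by
  decide +kernel

def t26_33_169 : V3.chw 26 33 169 3 [5, 2] = true := by
  decide +kernel

def t26_33_170 : V3.chw 26 33 170 3 [5, 2] = true := by
  decide +kernel

def t26_34_174 : V3.chw 26 34 174 3 [5, 2] = true := by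
  decide +kernel

def t26_34_175 : V3.chw 26 34 175 3 [5, 2] = true := by
  decide +kernel

def t26_35_179 : V3.chw 26 35 179 3 [5, 2] = true := by
  decide +kernel

def t26_35_180 : V3.chw 26 35 180 3 [5, 2] = true := by
  decide +kernel

def t26_36_184 : V3.chw 26 36 184 3 [5, 2] = true := by
  decide +kernel

def t26_36_185 : V3.chw 26 36 185 3 [5, 2] = true := by
  decide +kernel

def t26_37_189 : V3.chw 26 37 189 3 [5, 2] = true := by
  decide +kernel

def t26_37_190 : V3.chw 26 37 190 2 [1, 6, 1] = true := by
  decide +kernel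

def t26_38_194 : V3.chw 26 38 194 3 [5, 2] = true := by
  decide +kernel

def t26_38_195 : V3.chw 26 38 195 2 [1, 6, 1] = true := by
  decide +kernel

def t26_39_199 : V3.chw 26 39 199 3 [5, 2] = true := by
  decide +kernel

def t26_39_200 : V3.chw 26 39 200 2 [1, 6, 1] = true := by
  decide +kernel

def t26_40_204 : V3.chw 26 40 204 3 [5, 2] = true := by
  decide +kernel

def t26_40_205 : V3.chw 26 40 205 2 [1, 6, 1024, 1025] = true := by
  decide +kernel

def t26_41_210 : V3.chw 26 41 210 2 [1, 6, 1025] = true := by
  decide +kernel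

def t26_41_211 : V3.chw 26 41 211 3 [5, 2] = true := by
  decide +kernel

def t26_42_215 : V3.chw 26 42 215 2 [1, 6, 1] = true := by
  decide +kernel

def t26_42_216 : V3.chw 26 42 216 3 [5, 2] = true := by
  decide +kernel

def t26_43_220 : V3.chw 26 43 220 2 [1, 6, 1] = true := by
  decide +kernel

def t26_43_221 : V3.chw 26 43 221 2 [5, 1023] = true := by
  decide +kernel

def t26_44_225 : V3.chw 26 44 225 2 [1, 6, 1] = true := by
  decide +kernel

def t26_44_226 : V3.chw 26 44 226 2 [5, 1023] = true := by
  decide +kernel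

def t26_45_230 : V3.chw 26 45 230 4 [2, 1023] = true := by
  decide +kernel

def t26_45_231 : V3.chw 26 45 231 3 [1, 1017] = true := by
  decide +kernel

def t26_46_235 : V3.chw 26 46 235 3 [5, 2] = true := by
  decide +kernel

def t26_46_236 : V3.chw 26 46 236 3 [1, 1017] = true := by
  decide +kernel

def t26_47_240 : V3.chw 26 47 240 3 [5, 2] = true := by
  decide +kernel

def t26_47_241 : V3.chw 26 47 241 3 [1, 1017] = true := by
  decide +kernel

def t26_48_245 : V3.chw 26 48 245 2 [5, 1023] = true := by
  decide +kernel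

def t26_48_246 : V3.chw 26 48 246 2 [1, 6, 1] = true := by
  decide +kernel

def t26_49_250 : V3.chw 26 49 250 2 [5, 1023] = true := by
  decide +kernel

def t26_49_251 : V3.chw 26 49 251 2 [1, 6, 1025] = true := by
  decide +kernel

def t26_50_255 : V3.chw 26 50 255 2 [5, 1023] = true := by
  decide +kernel

def t26_50_256 : V3.chw 26 50 256 2 [1, 6, 1024, 1025] = true := by
  decide +kernel

theorem R26 {K : Type*} [Field K] [CharZero K] (m d : ℕ) (h : m ≤ 50) : MR K 26 m d := by
  interval_cases m
  · exact good_cova 4 (by decide +kernel) d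
  · exact good_cova 4 (by decide +kernel) d
  · exact good_cova 4 (by decide +kernel) d
  · exact good_cova 4 (by decide +kernel) d
  · exact good_cova 4 (by decide +kernel) d
  · exact good_cova 4 (by decide +kernel) d
  · exact good_cova 4 (by decide +kernel) d
  · exact good_cova 4 (by decide +kernel) d
  · exact good_cova 4 (by decide +kernel) d
  · exact good_cova 4 (by decide +kernel) d
  · exact good_cova 4 (by decide +kernel) d
  · exact good_cova 4 (by decide +kernel) d
  · exact good_cova 4 (by decide +kernel) d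
  · exact crit 67 (by decide +kernel) (V3.good_chw _ _ t26_13_67) (V3.good_chw _ _ t26_13_68) d
  · exact crit 72 (by decide +kernel) (V3.good_chw _ _ t26_14_72) (V3.good_chw _ _ t26_14_73) d
  · exact crit 77 (by decide +kernel) (V3.good_chw _ _ t26_15_77) (V3.good_chw _ _ t26_15_78) d
  · exact crit 82 (by decide +kernel) (V3.good_chw _ _ t26_16_82) (V3.good_chw _ _ t26_16_83) d
  · exact crit 87 (by decide +kernel) (V3.good_chw _ _ t26_17_87) (V3.good_chw _ _ t26_17_88) d
  · exact crit 92 (by decide +kernel) (V3.good_chw _ _ t26_18_92) (V3.good_chw _ _ t26_18_93) d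
  · exact crit 97 (by decide +kernel) (V3.good_chw _ _ t26_19_97) (V3.good_chw _ _ t26_19_98) d
  · exact crit0 103 (by decide +kernel) (V3.good_chw _ _ t26_20_103) d
  · exact crit 108 (by decide +kernel) (V3.good_chw _ _ t26_21_108) (V3.good_chw _ _ t26_21_109) d
  · exact crit 113 (by decide +kernel) (V3.good_chw _ _ t26_22_113) (V3.good_chw _ _ t26_22_114) d
  · exact crit 118 (by decide +kernel) (V3.good_chw _ _ t26_23_118) (V3.good_chw _ _ t26_23_119) d
  · exact crit 123 (by decide +kernel) (V3.good_chw _ _ t26_24_123) (V3.good_chw _ _ t26_24_124) d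
  · exact crit 128 (by decide +kernel) (V3.good_chw _ _ t26_25_128) (V3.good_chw _ _ t26_25_129) d
  · exact crit 133 (by decide +kernel) (V3.good_chw _ _ t26_26_133) (V3.good_chw _ _ t26_26_134) d
  · exact crit 138 (by decide +kernel) (V3.good_chw _ _ t26_27_138) (V3.good_chw _ _ t26_27_139) d
  · exact crit 143 (by decide +kernel) (V3.good_chw _ _ t26_28_143) (V3.good_chw _ _ t26_28_144) d
  · exact crit 148 (by decide +kernel) (V3.good_chw _ _ t26_29_148) (V3.good_chw _ _ t26_29_149) d
  · exact crit0 154 (by decide +kernel) (V3.good_chw _ _ t26_30_154) d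
  · exact crit 159 (by decide +kernel) (V3.good_chw _ _ t26_31_159) (V3.good_chw _ _ t26_31_160) d
  · exact crit 164 (by decide +kernel) (V3.good_chw _ _ t26_32_164) (V3.good_chw _ _ t26_32_165) d
  · exact crit 169 (by decide +kernel) (V3.good_chw _ _ t26_33_169) (V3.good_chw _ _ t26_33_170) d
  · exact crit 174 (by decide +kernel) (V3.good_chw _ _ t26_34_174) (V3.good_chw _ _ t26_34_175) d
  · exact crit 179 (by decide +kernel) (V3.good_chw _ _ t26_35_179) (V3.good_chw _ _ t26_35_180) d
  · exact crit 184 (by decide +kernel) (V3.good_chw _ _ t26_36_184) (V3.good_chw _ _ t26_36_185) d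
  · exact crit 189 (by decide +kernel) (V3.good_chw _ _ t26_37_189) (V3.good_chw _ _ t26_37_190) d
  · exact crit 194 (by decide +kernel) (V3.good_chw _ _ t26_38_194) (V3.good_chw _ _ t26_38_195) d
  · exact crit 199 (by decide +kernel) (V3.good_chw _ _ t26_39_199) (V3.good_chw _ _ t26_39_200) d
  · exact crit 204 (by decide +kernel) (V3.good_chw _ _ t26_40_204) (V3.good_chw _ _ t26_40_205) d
  · exact crit 210 (by decide +kernel) (V3.good_chw _ _ t26_41_210) (V3.good_chw _ _ t26_41_211) d
  · exact crit 215 (by decide +kernel) (V3.good_chw _ _ t26_42_215) (V3.good_chw _ _ t26_42_216) d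
  · exact crit 220 (by decide +kernel) (V3.good_chw _ _ t26_43_220) (V3.good_chw _ _ t26_43_221) d
  · exact crit 225 (by decide +kernel) (V3.good_chw _ _ t26_44_225) (V3.good_chw _ _ t26_44_226) d
  · exact crit 230 (by decide +kernel) (V3.good_chw _ _ t26_45_230) (V3.good_chw _ _ t26_45_231) d
  · exact crit 235 (by decide +kernel) (V3.good_chw _ _ t26_46_235) (V3.good_chw _ _ t26_46_236) d
  · exact crit 240 (by decide +kernel) (V3.good_chw _ _ t26_47_240) (V3.good_chw _ _ t26_47_241) d
  · exact crit 245 (by decide +kernel) (V3.good_chw _ _ t26_48_245) (V3.good_chw _ _ t26_48_246) d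
  · exact crit 250 (by decide +kernel) (V3.good_chw _ _ t26_49_250) (V3.good_chw _ _ t26_49_251) d
  · exact crit 255 (by decide +kernel) (V3.good_chw _ _ t26_50_255) (V3.good_chw _ _ t26_50_256) d

def t27_26_136 : V3.chw 27 26 136 5 [1] = true := by
  decide +kernel

def t27_26_137 : V3.chw 27 26 137 5 [1] = true := by
  decide +kernel

def t27_27_141 : V3.chw 27 27 141 5 [1] = true := by
  decide +kernel

def t27_27_142 : V3.chw 27 27 142 5 [1] = true := by
  decide +kernel

def t27_28_146 : V3.chw 27 28 146 5 [1] = true := by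
  decide +kernel

def t27_28_147 : V3.chw 27 28 147 5 [1] = true := by
  decide +kernel

def t27_29_151 : V3.chw 27 29 151 5 [1] = true := by
  decide +kernel

def t27_29_152 : V3.chw 27 29 152 5 [1] = true := by
  decide +kernel

def t27_30_156 : V3.chw 27 30 156 5 [1] = true := by
  decide +kernel

def t27_30_157 : V3.chw 27 30 157 5 [1] = true := by
  decide +kernel

def t27_31_162 : V3.chw 27 31 162 5 [1] = true := by
  decide +kernel

def t27_31_163 : V3.chw 27 31 163 5 [1] = true := by
  decide +kernel

def t27_32_167 : V3.chw 27 32 167 5 [1] = true := by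
  decide +kernel

def t27_32_168 : V3.chw 27 32 168 5 [1] = true := by
  decide +kernel

def t27_33_172 : V3.chw 27 33 172 5 [1] = true := by
  decide +kernel

def t27_33_173 : V3.chw 27 33 173 5 [1] = true := by
  decide +kernel

def t27_34_177 : V3.chw 27 34 177 5 [1] = true := by
  decide +kernel

def t27_34_178 : V3.chw 27 34 178 5 [1] = true := by
  decide +kernel

def t27_35_182 : V3.chw 27 35 182 5 [1] = true := by
  decide +kernel

def t27_35_183 : V3.chw 27 35 183 5 [1] = true := by
  decide +kernel

def t27_36_188 : V3.chw 27 36 188 5 [1] = true := by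
  decide +kernel

def t27_36_189 : V3.chw 27 36 189 5 [1] = true := by
  decide +kernel

def t27_37_193 : V3.chw 27 37 193 5 [1] = true := by
  decide +kernel

def t27_37_194 : V3.chw 27 37 194 5 [1] = true := by
  decide +kernel

def t27_38_198 : V3.chw 27 38 198 5 [1] = true := by
  decide +kernel

def t27_38_199 : V3.chw 27 38 199 5 [1] = true := by
  decide +kernel

def t27_39_203 : V3.chw 27 39 203 5 [1] = true := by
  decide +kernel

def t27_39_204 : V3.chw 27 39 204 5 [1] = true := by
  decide +kernel

def t27_40_208 : V3.chw 27 40 208 5 [1] = true := by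
  decide +kernel

def t27_40_209 : V3.chw 27 40 209 5 [1] = true := by
  decide +kernel

def t27_41_214 : V3.chw 27 41 214 5 [1] = true := by
  decide +kernel

def t27_41_215 : V3.chw 27 41 215 5 [1] = true := by
  decide +kernel

def t27_42_219 : V3.chw 27 42 219 5 [1] = true := by
  decide +kernel

def t27_42_220 : V3.chw 27 42 220 5 [1] = true := by
  decide +kernel

def t27_43_224 : V3.chw 27 43 224 5 [1] = true := by
  decide +kernel

def t27_43_225 : V3.chw 27 43 225 5 [1] = true := by
  decide +kernel

def t27_44_229 : V3.chw 27 44 229 5 [1] = true := by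
  decide +kernel

def t27_44_230 : V3.chw 27 44 230 5 [1] = true := by
  decide +kernel

def t27_45_234 : V3.chw 27 45 234 5 [1] = true := by
  decide +kernel

def t27_45_235 : V3.chw 27 45 235 5 [1] = true := by
  decide +kernel

def t27_46_240 : V3.chw 27 46 240 5 [1023, 1] = true := by
  decide +kernel

def t27_46_241 : V3.chw 27 46 241 5 [1] = true := by
  decide +kernel

def t27_47_245 : V3.chw 27 47 245 5 [1] = true := by
  decide +kernel

def t27_47_246 : V3.chw 27 47 246 5 [1] = true := by
  decide +kernel

def t27_48_250 : V3.chw 27 48 250 5 [1] = true := by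
  decide +kernel

def t27_48_251 : V3.chw 27 48 251 5 [1] = true := by
  decide +kernel

def t27_49_255 : V3.chw 27 49 255 5 [1] = true := by
  decide +kernel

def t27_49_256 : V3.chw 27 49 256 5 [1] = true := by
  decide +kernel

def t27_50_260 : V3.chw 27 50 260 5 [1] = true := by
  decide +kernel

def t27_50_261 : V3.chw 27 50 261 5 [1] = true := by
  decide +kernel

theorem R27 {K : Type*} [Field K] [CharZero K] (m d : ℕ) (h : m ≤ 50) : MR K 27 m d := by
  interval_cases m
  · exact good_cova 5 (by decide +kernel) d
  · exact good_cova 5 (by decide +kernel) d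
  · exact good_cova 5 (by decide +kernel) d
  · exact good_cova 5 (by decide +kernel) d
  · exact good_cova 5 (by decide +kernel) d
  · exact good_cova 5 (by decide +kernel) d
  · exact good_cova 5 (by decide +kernel) d
  · exact good_cova 5 (by decide +kernel) d
  · exact good_cova 5 (by decide +kernel) d
  · exact good_cova 5 (by decide +kernel) d
  · exact good_cova 5 (by decide +kernel) d
  · exact good_cova 5 (by decide +kernel) d
  · exact good_cova 5 (by decide +kernel) d
  · exact good_cova 5 (by decide +kernel) d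
  · exact good_cova 5 (by decide +kernel) d
  · exact good_cova 5 (by decide +kernel) d
  · exact good_cova 5 (by decide +kernel) d
  · exact good_cova 5 (by decide +kernel) d
  · exact good_cova 5 (by decide +kernel) d
  · exact good_cova 5 (by decide +kernel) d
  · exact good_cova 5 (by decide +kernel) d
  · exact good_cova 5 (by decide +kernel) d
  · exact good_cova 5 (by decide +kernel) d
  · exact good_cova 5 (by decide +kernel) d
  · exact good_cova 5 (by decide +kernel) d
  · exact good_cova 5 (by decide +kernel) d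
  · exact crit 136 (by decide +kernel) (V3.good_chw _ _ t27_26_136) (V3.good_chw _ _ t27_26_137) d
  · exact crit 141 (by decide +kernel) (V3.good_chw _ _ t27_27_141) (V3.good_chw _ _ t27_27_142) d
  · exact crit 146 (by decide +kernel) (V3.good_chw _ _ t27_28_146) (V3.good_chw _ _ t27_28_147) d
  · exact crit 151 (by decide +kernel) (V3.good_chw _ _ t27_29_151) (V3.good_chw _ _ t27_29_152) d
  · exact crit 156 (by decide +kernel) (V3.good_chw _ _ t27_30_156) (V3.good_chw _ _ t27_30_157) d
  · exact crit 162 (by decide +kernel) (V3.good_chw _ _ t27_31_162) (V3.good_chw _ _ t27_31_163) d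
  · exact crit 167 (by decide +kernel) (V3.good_chw _ _ t27_32_167) (V3.good_chw _ _ t27_32_168) d
  · exact crit 172 (by decide +kernel) (V3.good_chw _ _ t27_33_172) (V3.good_chw _ _ t27_33_173) d
  · exact crit 177 (by decide +kernel) (V3.good_chw _ _ t27_34_177) (V3.good_chw _ _ t27_34_178) d
  · exact crit 182 (by decide +kernel) (V3.good_chw _ _ t27_35_182) (V3.good_chw _ _ t27_35_183) d
  · exact crit 188 (by decide +kernel) (V3.good_chw _ _ t27_36_188) (V3.good_chw _ _ t27_36_189) d
  · exact crit 193 (by decide +kernel) (V3.good_chw _ _ t27_37_193) (V3.good_chw _ _ t27_37_194) d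
  · exact crit 198 (by decide +kernel) (V3.good_chw _ _ t27_38_198) (V3.good_chw _ _ t27_38_199) d
  · exact crit 203 (by decide +kernel) (V3.good_chw _ _ t27_39_203) (V3.good_chw _ _ t27_39_204) d
  · exact crit 208 (by decide +kernel) (V3.good_chw _ _ t27_40_208) (V3.good_chw _ _ t27_40_209) d
  · exact crit 214 (by decide +kernel) (V3.good_chw _ _ t27_41_214) (V3.good_chw _ _ t27_41_215) d
  · exact crit 219 (by decide +kernel) (V3.good_chw _ _ t27_42_219) (V3.good_chw _ _ t27_42_220) d
  · exact crit 224 (by decide +kernel) (V3.good_chw _ _ t27_43_224) (V3.good_chw _ _ t27_43_225) d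
  · exact crit 229 (by decide +kernel) (V3.good_chw _ _ t27_44_229) (V3.good_chw _ _ t27_44_230) d
  · exact crit 234 (by decide +kernel) (V3.good_chw _ _ t27_45_234) (V3.good_chw _ _ t27_45_235) d
  · exact crit 240 (by decide +kernel) (V3.good_chw _ _ t27_46_240) (V3.good_chw _ _ t27_46_241) d
  · exact crit 245 (by decide +kernel) (V3.good_chw _ _ t27_47_245) (V3.good_chw _ _ t27_47_246) d
  · exact crit 250 (by decide +kernel) (V3.good_chw _ _ t27_48_250) (V3.good_chw _ _ t27_48_251) d
  · exact crit 255 (by decide +kernel) (V3.good_chw _ _ t27_49_255) (V3.good_chw _ _ t27_49_256) d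
  · exact crit 260 (by decide +kernel) (V3.good_chw _ _ t27_50_260) (V3.good_chw _ _ t27_50_261) d

def t28_12_64 : V3.chw 28 12 64 3 [7] = true := by
  decide +kernel

def t28_12_65 : V3.chw 28 12 65 2 [1, 7] = true := by
  decide +kernel

def t28_13_69 : V3.chw 28 13 69 3 [7] = true := by
  decide +kernel

def t28_13_70 : V3.chw 28 13 70 2 [1, 6, 2] = true := by
  decide +kernel

def t28_14_75 : V3.chw 28 14 75 3 [5, 3] = true := by
  decide +kernel

def t28_14_76 : V3.chw 28 14 76 3 [7] = true := by
  decide +kernel

def t28_15_80 : V3.chw 28 15 80 3 [5, 3] = true := by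
  decide +kernel

def t28_15_81 : V3.chw 28 15 81 2 [1, 7] = true := by
  decide +kernel

def t28_16_85 : V3.chw 28 16 85 3 [7] = true := by
  decide +kernel

def t28_16_86 : V3.chw 28 16 86 2 [1, 7] = true := by
  decide +kernel

def t28_17_91 : V3.chw 28 17 91 3 [1, 1017, 1027] = true := by
  decide +kernel

def t28_17_92 : V3.chw 28 17 92 3 [7] = true := by
  decide +kernel

def t28_18_96 : V3.chw 28 18 96 3 [2, 6] = true := by
  decide +kernel

def t28_18_97 : V3.chw 28 18 97 2 [1, 7] = true := by
  decide +kernel

def t28_19_101 : V3.chw 28 19 101 3 [5, 3] = true := by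
  decide +kernel

def t28_19_102 : V3.chw 28 19 102 2 [1, 7] = true := by
  decide +kernel

def t28_20_106 : V3.chw 28 20 106 3 [7] = true := by
  decide +kernel

def t28_20_107 : V3.chw 28 20 107 3 [1, 1017, 1027] = true := by
  decide +kernel

def t28_21_112 : V3.chw 28 21 112 3 [5, 2, 1] = true := by
  decide +kernel

def t28_21_113 : V3.chw 28 21 113 2 [1, 7] = true := by
  decide +kernel

def t28_22_117 : V3.chw 28 22 117 3 [5, 3] = true := by
  decide +kernel

def t28_22_118 : V3.chw 28 22 118 2 [1, 7] = true := by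
  decide +kernel

def t28_23_122 : V3.chw 28 23 122 3 [5, 3] = true := by
  decide +kernel

def t28_23_123 : V3.chw 28 23 123 3 [5, 2, 1] = true := by
  decide +kernel

def t28_24_128 : V3.chw 28 24 128 4 [1, 2, 1025] = true := by
  decide +kernel

def t28_24_129 : V3.chw 28 24 129 2 [1, 7] = true := by
  decide +kernel

def t28_25_133 : V3.chw 28 25 133 3 [2, 6] = true := by
  decide +kernel

def t28_25_134 : V3.chw 28 25 134 2 [1, 7] = true := by
  decide +kernel

def t28_26_138 : V3.chw 28 26 138 3 [5, 3] = true := by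
  decide +kernel

def t28_26_139 : V3.chw 28 26 139 2 [1, 7] = true := by
  decide +kernel

def t28_27_143 : V3.chw 28 27 143 3 [5, 3] = true := by
  decide +kernel

def t28_27_144 : V3.chw 28 27 144 2 [1, 6, 1024, 1025, 1] = true := by
  decide +kernel

def t28_28_149 : V3.chw 28 28 149 3 [5, 2, 1] = true := by
  decide +kernel

def t28_28_150 : V3.chw 28 28 150 2 [1, 7] = true := by
  decide +kernel

def t28_29_154 : V3.chw 28 29 154 3 [2, 6] = true := by
  decide +kernel

def t28_29_155 : V3.chw 28 29 155 2 [1, 7] = true := by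
  decide +kernel

def t28_30_159 : V3.chw 28 30 159 3 [5, 3] = true := by
  decide +kernel

def t28_30_160 : V3.chw 28 30 160 2 [1, 6, 1, 1] = true := by
  decide +kernel

def t28_31_165 : V3.chw 28 31 165 2 [1, 6, 1, 1027] = true := by
  decide +kernel

def t28_31_166 : V3.chw 28 31 166 2 [1, 7] = true := by
  decide +kernel

def t28_32_170 : V3.chw 28 32 170 3 [5, 2, 1] = true := by
  decide +kernel

def t28_32_171 : V3.chw 28 32 171 2 [1, 7] = true := by
  decide +kernel

def t28_33_175 : V3.chw 28 33 175 3 [5, 3] = true := by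
  decide +kernel

def t28_33_176 : V3.chw 28 33 176 3 [5, 2, 1] = true := by
  decide +kernel

def t28_34_181 : V3.chw 28 34 181 2 [1, 6, 1025, 1026, 1027] = true := by
  decide +kernel

def t28_34_182 : V3.chw 28 34 182 2 [1, 7] = true := by
  decide +kernel

def t28_35_186 : V3.chw 28 35 186 3 [5, 2, 1] = true := by
  decide +kernel

def t28_35_187 : V3.chw 28 35 187 2 [1, 7] = true := by
  decide +kernel

def t28_36_191 : V3.chw 28 36 191 3 [2, 6] = true := by
  decide +kernel

def t28_36_192 : V3.chw 28 36 192 2 [1, 7] = true := by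
  decide +kernel

def t28_37_196 : V3.chw 28 37 196 3 [5, 3] = true := by
  decide +kernel

def t28_37_197 : V3.chw 28 37 197 3 [1, 1017, 1027] = true := by
  decide +kernel

def t28_38_202 : V3.chw 28 38 202 3 [5, 1, 2] = true := by
  decide +kernel

def t28_38_203 : V3.chw 28 38 203 2 [1, 7] = true := by
  decide +kernel

def t28_39_207 : V3.chw 28 39 207 3 [5, 2, 1] = true := by
  decide +kernel

def t28_39_208 : V3.chw 28 39 208 2 [1, 7] = true := by
  decide +kernel

def t28_40_212 : V3.chw 28 40 212 3 [2, 6] = true := by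
  decide +kernel

def t28_40_213 : V3.chw 28 40 213 2 [1, 1, 1, 6, 1] = true := by
  decide +kernel

def t28_41_218 : V3.chw 28 41 218 3 [1, 1017, 1025, 1026, 1027] = true := by
  decide +kernel

def t28_41_219 : V3.chw 28 41 219 2 [1, 7] = true := by
  decide +kernel

def t28_42_223 : V3.chw 28 42 223 3 [5, 2, 1] = true := by
  decide +kernel

def t28_42_224 : V3.chw 28 42 224 2 [1, 7] = true := by
  decide +kernel

def t28_43_228 : V3.chw 28 43 228 3 [2, 6] = true := by
  decide +kernel

def t28_43_229 : V3.chw 28 43 229 3 [5, 2, 1] = true := by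
  decide +kernel

def t28_44_233 : V3.chw 28 44 233 2 [1, 7] = true := by
  decide +kernel

def t28_44_234 : V3.chw 28 44 234 2 [1, 6, 1024, 1025, 1027] = true := by
  decide +kernel

def t28_45_239 : V3.chw 28 45 239 3 [1, 1017, 1027] = true := by
  decide +kernel

def t28_45_240 : V3.chw 28 45 240 2 [1, 7] = true := by
  decide +kernel

def t28_46_244 : V3.chw 28 46 244 3 [1, 1017, 1] = true := by
  decide +kernel

def t28_46_245 : V3.chw 28 46 245 2 [1, 7] = true := by
  decide +kernel

def t28_47_249 : V3.chw 28 47 249 2 [1, 7] = true := by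
  decide +kernel

def t28_47_250 : V3.chw 28 47 250 3 [1, 1017, 1027] = true := by
  decide +kernel

def t28_48_255 : V3.chw 28 48 255 2 [1, 6, 1025, 1027] = true := by
  decide +kernel

def t28_48_256 : V3.chw 28 48 256 2 [1, 7] = true := by
  decide +kernel

def t28_49_260 : V3.chw 28 49 260 3 [1, 1017, 1] = true := by
  decide +kernel

def t28_49_261 : V3.chw 28 49 261 2 [1, 7] = true := by
  decide +kernel

def t28_50_265 : V3.chw 28 50 265 3 [2, 6] = true := by
  decide +kernel

def t28_50_266 : V3.chw 28 50 266 3 [1, 1017, 1027] = true := by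
  decide +kernel

theorem R28 {K : Type*} [Field K] [CharZero K] (m d : ℕ) (h : m ≤ 50) : MR K 28 m d := by
  interval_cases m
  · exact good_cova 4 (by decide +kernel) d
  · exact good_cova 4 (by decide +kernel) d
  · exact good_cova 4 (by decide +kernel) d
  · exact good_cova 4 (by decide +kernel) d
  · exact good_cova 4 (by decide +kernel) d
  · exact good_cova 4 (by decide +kernel) d
  · exact good_cova 4 (by decide +kernel) d
  · exact good_cova 4 (by decide +kernel) d
  · exact good_cova 4 (by decide +kernel) d
  · exact good_cova 4 (by decide +kernel) d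
  · exact good_cova 4 (by decide +kernel) d
  · exact good_cova 4 (by decide +kernel) d
  · exact crit 64 (by decide +kernel) (V3.good_chw _ _ t28_12_64) (V3.good_chw _ _ t28_12_65) d
  · exact crit 69 (by decide +kernel) (V3.good_chw _ _ t28_13_69) (V3.good_chw _ _ t28_13_70) d
  · exact crit 75 (by decide +kernel) (V3.good_chw _ _ t28_14_75) (V3.good_chw _ _ t28_14_76) d
  · exact crit 80 (by decide +kernel) (V3.good_chw _ _ t28_15_80) (V3.good_chw _ _ t28_15_81) d
  · exact crit 85 (by decide +kernel) (V3.good_chw _ _ t28_16_85) (V3.good_chw _ _ t28_16_86) d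
  · exact crit 91 (by decide +kernel) (V3.good_chw _ _ t28_17_91) (V3.good_chw _ _ t28_17_92) d
  · exact crit 96 (by decide +kernel) (V3.good_chw _ _ t28_18_96) (V3.good_chw _ _ t28_18_97) d
  · exact crit 101 (by decide +kernel) (V3.good_chw _ _ t28_19_101) (V3.good_chw _ _ t28_19_102) d
  · exact crit 106 (by decide +kernel) (V3.good_chw _ _ t28_20_106) (V3.good_chw _ _ t28_20_107) d
  · exact crit 112 (by decide +kernel) (V3.good_chw _ _ t28_21_112) (V3.good_chw _ _ t28_21_113) d
  · exact crit 117 (by decide +kernel) (V3.good_chw _ _ t28_22_117) (V3.good_chw _ _ t28_22_118) d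
  · exact crit 122 (by decide +kernel) (V3.good_chw _ _ t28_23_122) (V3.good_chw _ _ t28_23_123) d
  · exact crit 128 (by decide +kernel) (V3.good_chw _ _ t28_24_128) (V3.good_chw _ _ t28_24_129) d
  · exact crit 133 (by decide +kernel) (V3.good_chw _ _ t28_25_133) (V3.good_chw _ _ t28_25_134) d
  · exact crit 138 (by decide +kernel) (V3.good_chw _ _ t28_26_138) (V3.good_chw _ _ t28_26_139) d
  · exact crit 143 (by decide +kernel) (V3.good_chw _ _ t28_27_143) (V3.good_chw _ _ t28_27_144) d
  · exact crit 149 (by decide +kernel) (V3.good_chw _ _ t28_28_149) (V3.good_chw _ _ t28_28_150) d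
  · exact crit 154 (by decide +kernel) (V3.good_chw _ _ t28_29_154) (V3.good_chw _ _ t28_29_155) d
  · exact crit 159 (by decide +kernel) (V3.good_chw _ _ t28_30_159) (V3.good_chw _ _ t28_30_160) d
  · exact crit 165 (by decide +kernel) (V3.good_chw _ _ t28_31_165) (V3.good_chw _ _ t28_31_166) d
  · exact crit 170 (by decide +kernel) (V3.good_chw _ _ t28_32_170) (V3.good_chw _ _ t28_32_171) d
  · exact crit 175 (by decide +kernel) (V3.good_chw _ _ t28_33_175) (V3.good_chw _ _ t28_33_176) d
  · exact crit 181 (by decide +kernel) (V3.good_chw _ _ t28_34_181) (V3.good_chw _ _ t28_34_182) d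
  · exact crit 186 (by decide +kernel) (V3.good_chw _ _ t28_35_186) (V3.good_chw _ _ t28_35_187) d
  · exact crit 191 (by decide +kernel) (V3.good_chw _ _ t28_36_191) (V3.good_chw _ _ t28_36_192) d
  · exact crit 196 (by decide +kernel) (V3.good_chw _ _ t28_37_196) (V3.good_chw _ _ t28_37_197) d
  · exact crit 202 (by decide +kernel) (V3.good_chw _ _ t28_38_202) (V3.good_chw _ _ t28_38_203) d
  · exact crit 207 (by decide +kernel) (V3.good_chw _ _ t28_39_207) (V3.good_chw _ _ t28_39_208) d
  · exact crit 212 (by decide +kernel) (V3.good_chw _ _ t28_40_212) (V3.good_chw _ _ t28_40_213) d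
  · exact crit 218 (by decide +kernel) (V3.good_chw _ _ t28_41_218) (V3.good_chw _ _ t28_41_219) d
  · exact crit 223 (by decide +kernel) (V3.good_chw _ _ t28_42_223) (V3.good_chw _ _ t28_42_224) d
  · exact crit 228 (by decide +kernel) (V3.good_chw _ _ t28_43_228) (V3.good_chw _ _ t28_43_229) d
  · exact crit 233 (by decide +kernel) (V3.good_chw _ _ t28_44_233) (V3.good_chw _ _ t28_44_234) d
  · exact crit 239 (by decide +kernel) (V3.good_chw _ _ t28_45_239) (V3.good_chw _ _ t28_45_240) d
  · exact crit 244 (by decide +kernel) (V3.good_chw _ _ t28_46_244) (V3.good_chw _ _ t28_46_245) d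
  · exact crit 249 (by decide +kernel) (V3.good_chw _ _ t28_47_249) (V3.good_chw _ _ t28_47_250) d
  · exact crit 255 (by decide +kernel) (V3.good_chw _ _ t28_48_255) (V3.good_chw _ _ t28_48_256) d
  · exact crit 260 (by decide +kernel) (V3.good_chw _ _ t28_49_260) (V3.good_chw _ _ t28_49_261) d
  · exact crit 265 (by decide +kernel) (V3.good_chw _ _ t28_50_265) (V3.good_chw _ _ t28_50_266) d

def t29_23_125 : V3.chw 29 23 125 5 [1020, 1, 1] = true := by
  decide +kernel

def t29_23_126 : V3.chw 29 23 126 5 [2] = true := by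
  decide +kernel

def t29_24_130 : V3.chw 29 24 130 5 [2] = true := by
  decide +kernel

def t29_24_131 : V3.chw 29 24 131 5 [2] = true := by
  decide +kernel

def t29_25_135 : V3.chw 29 25 135 5 [2] = true := by
  decide +kernel

def t29_25_136 : V3.chw 29 25 136 5 [2] = true := by
  decide +kernel

def t29_26_141 : V3.chw 29 26 141 5 [1, 1] = true := by
  decide +kernel

def t29_26_142 : V3.chw 29 26 142 5 [2] = true := by
  decide +kernel

def t29_27_146 : V3.chw 29 27 146 5 [2] = true := by
  decide +kernel

def t29_27_147 : V3.chw 29 27 147 5 [2] = true := by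
  decide +kernel

def t29_28_151 : V3.chw 29 28 151 5 [2] = true := by
  decide +kernel

def t29_28_152 : V3.chw 29 28 152 5 [1, 1] = true := by
  decide +kernel

def t29_29_157 : V3.chw 29 29 157 5 [1, 1] = true := by
  decide +kernel

def t29_29_158 : V3.chw 29 29 158 5 [2] = true := by
  decide +kernel

def t29_30_162 : V3.chw 29 30 162 5 [2] = true := by
  decide +kernel

def t29_30_163 : V3.chw 29 30 163 5 [2] = true := by
  decide +kernel

def t29_31_168 : V3.chw 29 31 168 5 [1, 1028] = true := by
  decide +kernel

def t29_31_169 : V3.chw 29 31 169 5 [2] = true := by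
  decide +kernel

def t29_32_173 : V3.chw 29 32 173 5 [2] = true := by
  decide +kernel

def t29_32_174 : V3.chw 29 32 174 5 [2] = true := by
  decide +kernel

def t29_33_178 : V3.chw 29 33 178 5 [2] = true := by
  decide +kernel

def t29_33_179 : V3.chw 29 33 179 5 [1, 1] = true := by
  decide +kernel

def t29_34_184 : V3.chw 29 34 184 5 [1, 1] = true := by
  decide +kernel

def t29_34_185 : V3.chw 29 34 185 5 [2] = true := by
  decide +kernel

def t29_35_189 : V3.chw 29 35 189 5 [2] = true := by
  decide +kernel

def t29_35_190 : V3.chw 29 35 190 5 [2] = true := by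
  decide +kernel

def t29_36_195 : V3.chw 29 36 195 5 [1020, 1, 1028] = true := by
  decide +kernel

def t29_36_196 : V3.chw 29 36 196 5 [2] = true := by
  decide +kernel

def t29_37_200 : V3.chw 29 37 200 5 [1, 1] = true := by
  decide +kernel

def t29_37_201 : V3.chw 29 37 201 5 [2] = true := by
  decide +kernel

def t29_38_205 : V3.chw 29 38 205 5 [2] = true := by
  decide +kernel

def t29_38_206 : V3.chw 29 38 206 5 [1, 1] = true := by
  decide +kernel

def t29_39_211 : V3.chw 29 39 211 5 [1, 1028] = true := by
  decide +kernel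

def t29_39_212 : V3.chw 29 39 212 5 [2] = true := by
  decide +kernel

def t29_40_216 : V3.chw 29 40 216 5 [1, 1] = true := by
  decide +kernel

def t29_40_217 : V3.chw 29 40 217 5 [2] = true := by
  decide +kernel

def t29_41_221 : V3.chw 29 41 221 5 [2] = true := by
  decide +kernel

def t29_41_222 : V3.chw 29 41 222 5 [1, 1028] = true := by
  decide +kernel

def t29_42_227 : V3.chw 29 42 227 5 [1, 1] = true := by
  decide +kernel

def t29_42_228 : V3.chw 29 42 228 5 [2] = true := by
  decide +kernel

def t29_43_232 : V3.chw 29 43 232 5 [2] = true := by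
  decide +kernel

def t29_43_233 : V3.chw 29 43 233 5 [1, 1] = true := by
  decide +kernel

def t29_44_238 : V3.chw 29 44 238 5 [1, 1028] = true := by
  decide +kernel

def t29_44_239 : V3.chw 29 44 239 5 [2] = true := by
  decide +kernel

def t29_45_243 : V3.chw 29 45 243 5 [1, 1] = true := by
  decide +kernel

def t29_45_244 : V3.chw 29 45 244 5 [2] = true := by
  decide +kernel

def t29_46_248 : V3.chw 29 46 248 5 [2] = true := by
  decide +kernel

def t29_46_249 : V3.chw 29 46 249 5 [1, 1028] = true := by
  decide +kernel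

def t29_47_254 : V3.chw 29 47 254 5 [1, 1] = true := by
  decide +kernel

def t29_47_255 : V3.chw 29 47 255 5 [2] = true := by
  decide +kernel

def t29_48_259 : V3.chw 29 48 259 5 [2] = true := by
  decide +kernel

def t29_48_260 : V3.chw 29 48 260 2 [5, 4] = true := by
  decide +kernel

def t29_49_265 : V3.chw 29 49 265 5 [1020, 1, 1028] = true := by
  decide +kernel

def t29_49_266 : V3.chw 29 49 266 5 [2] = true := by
  decide +kernel

def t29_50_270 : V3.chw 29 50 270 5 [1, 1] = true := by
  decide +kernel

def t29_50_271 : V3.chw 29 50 271 5 [2] = true := by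
  decide +kernel

theorem R29 {K : Type*} [Field K] [CharZero K] (m d : ℕ) (h : m ≤ 50) : MR K 29 m d := by
  interval_cases m
  · exact good_cova 5 (by decide +kernel) d
  · exact good_cova 5 (by decide +kernel) d
  · exact good_cova 5 (by decide +kernel) d
  · exact good_cova 5 (by decide +kernel) d
  · exact good_cova 5 (by decide +kernel) d
  · exact good_cova 5 (by decide +kernel) d
  · exact good_cova 5 (by decide +kernel) d
  · exact good_cova 5 (by decide +kernel) d
  · exact good_cova 5 (by decide +kernel) d
  · exact good_cova 5 (by decide +kernel) d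
  · exact good_cova 5 (by decide +kernel) d
  · exact good_cova 5 (by decide +kernel) d
  · exact good_cova 5 (by decide +kernel) d
  · exact good_cova 5 (by decide +kernel) d
  · exact good_cova 5 (by decide +kernel) d
  · exact good_cova 5 (by decide +kernel) d
  · exact good_cova 5 (by decide +kernel) d
  · exact good_cova 5 (by decide +kernel) d
  · exact good_cova 5 (by decide +kernel) d
  · exact good_cova 5 (by decide +kernel) d
  · exact good_cova 5 (by decide +kernel) d
  · exact good_cova 5 (by decide +kernel) d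
  · exact good_cova 5 (by decide +kernel) d
  · exact crit 125 (by decide +kernel) (V3.good_chw _ _ t29_23_125) (V3.good_chw _ _ t29_23_126) d
  · exact crit 130 (by decide +kernel) (V3.good_chw _ _ t29_24_130) (V3.good_chw _ _ t29_24_131) d
  · exact crit 135 (by decide +kernel) (V3.good_chw _ _ t29_25_135) (V3.good_chw _ _ t29_25_136) d
  · exact crit 141 (by decide +kernel) (V3.good_chw _ _ t29_26_141) (V3.good_chw _ _ t29_26_142) d
  · exact crit 146 (by decide +kernel) (V3.good_chw _ _ t29_27_146) (V3.good_chw _ _ t29_27_147) d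
  · exact crit 151 (by decide +kernel) (V3.good_chw _ _ t29_28_151) (V3.good_chw _ _ t29_28_152) d
  · exact crit 157 (by decide +kernel) (V3.good_chw _ _ t29_29_157) (V3.good_chw _ _ t29_29_158) d
  · exact crit 162 (by decide +kernel) (V3.good_chw _ _ t29_30_162) (V3.good_chw _ _ t29_30_163) d
  · exact crit 168 (by decide +kernel) (V3.good_chw _ _ t29_31_168) (V3.good_chw _ _ t29_31_169) d
  · exact crit 173 (by decide +kernel) (V3.good_chw _ _ t29_32_173) (V3.good_chw _ _ t29_32_174) d
  · exact crit 178 (by decide +kernel) (V3.good_chw _ _ t29_33_178) (V3.good_chw _ _ t29_33_179) d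
  · exact crit 184 (by decide +kernel) (V3.good_chw _ _ t29_34_184) (V3.good_chw _ _ t29_34_185) d
  · exact crit 189 (by decide +kernel) (V3.good_chw _ _ t29_35_189) (V3.good_chw _ _ t29_35_190) d
  · exact crit 195 (by decide +kernel) (V3.good_chw _ _ t29_36_195) (V3.good_chw _ _ t29_36_196) d
  · exact crit 200 (by decide +kernel) (V3.good_chw _ _ t29_37_200) (V3.good_chw _ _ t29_37_201) d
  · exact crit 205 (by decide +kernel) (V3.good_chw _ _ t29_38_205) (V3.good_chw _ _ t29_38_206) d
  · exact crit 211 (by decide +kernel) (V3.good_chw _ _ t29_39_211) (V3.good_chw _ _ t29_39_212) d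
  · exact crit 216 (by decide +kernel) (V3.good_chw _ _ t29_40_216) (V3.good_chw _ _ t29_40_217) d
  · exact crit 221 (by decide +kernel) (V3.good_chw _ _ t29_41_221) (V3.good_chw _ _ t29_41_222) d
  · exact crit 227 (by decide +kernel) (V3.good_chw _ _ t29_42_227) (V3.good_chw _ _ t29_42_228) d
  · exact crit 232 (by decide +kernel) (V3.good_chw _ _ t29_43_232) (V3.good_chw _ _ t29_43_233) d
  · exact crit 238 (by decide +kernel) (V3.good_chw _ _ t29_44_238) (V3.good_chw _ _ t29_44_239) d
  · exact crit 243 (by decide +kernel) (V3.good_chw _ _ t29_45_243) (V3.good_chw _ _ t29_45_244) d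
  · exact crit 248 (by decide +kernel) (V3.good_chw _ _ t29_46_248) (V3.good_chw _ _ t29_46_249) d
  · exact crit 254 (by decide +kernel) (V3.good_chw _ _ t29_47_254) (V3.good_chw _ _ t29_47_255) d
  · exact crit 259 (by decide +kernel) (V3.good_chw _ _ t29_48_259) (V3.good_chw _ _ t29_48_260) d
  · exact crit 265 (by decide +kernel) (V3.good_chw _ _ t29_49_265) (V3.good_chw _ _ t29_49_266) d
  · exact crit 270 (by decide +kernel) (V3.good_chw _ _ t29_50_270) (V3.good_chw _ _ t29_50_271) d

def t30_12_66 : V3.chw 30 12 66 4 [6] = true := by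
  decide +kernel

def t30_12_67 : V3.chw 30 12 67 2 [1, 7, 1] = true := by
  decide +kernel

def t30_13_72 : V3.chw 30 13 72 4 [6] = true := by
  decide +kernel

def t30_13_73 : V3.chw 30 13 73 2 [7] = true := by
  decide +kernel

def t30_14_77 : V3.chw 30 14 77 4 [6] = true := by
  decide +kernel

def t30_14_78 : V3.chw 30 14 78 2 [1, 7, 1] = true := by
  decide +kernel

def t30_15_83 : V3.chw 30 15 83 4 [6] = true := by
  decide +kernel

def t30_15_84 : V3.chw 30 15 84 2 [7] = true := by
  decide +kernel

def t30_16_88 : V3.chw 30 16 88 4 [6] = true := by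
  decide +kernel

def t30_16_89 : V3.chw 30 16 89 2 [1, 7, 1] = true := by
  decide +kernel

def t30_17_94 : V3.chw 30 17 94 3 [4, 5] = true := by
  decide +kernel

def t30_17_95 : V3.chw 30 17 95 2 [7] = true := by
  decide +kernel

def t30_18_99 : V3.chw 30 18 99 4 [6] = true := by
  decide +kernel

def t30_18_100 : V3.chw 30 18 100 2 [1, 7, 1] = true := by
  decide +kernel

def t30_19_105 : V3.chw 30 19 105 2 [1, 7, 1] = true := by
  decide +kernel

def t30_19_106 : V3.chw 30 19 106 2 [7] = true := by
  decide +kernel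

def t30_20_110 : V3.chw 30 20 110 4 [6] = true := by
  decide +kernel

def t30_20_111 : V3.chw 30 20 111 2 [1, 7, 1] = true := by
  decide +kernel

def t30_21_116 : V3.chw 30 21 116 2 [1, 7, 1] = true := by
  decide +kernel

def t30_21_117 : V3.chw 30 21 117 2 [7] = true := by
  decide +kernel

def t30_22_121 : V3.chw 30 22 121 4 [6] = true := by
  decide +kernel

def t30_22_122 : V3.chw 30 22 122 2 [1, 7, 1] = true := by
  decide +kernel

def t30_23_127 : V3.chw 30 23 127 2 [1, 7, 1] = true := by
  decide +kernel

def t30_23_128 : V3.chw 30 23 128 2 [7] = true := by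
  decide +kernel

def t30_24_132 : V3.chw 30 24 132 4 [6] = true := by
  decide +kernel

def t30_24_133 : V3.chw 30 24 133 2 [1, 7, 1] = true := by
  decide +kernel

def t30_25_138 : V3.chw 30 25 138 3 [5, 2, 1, 1] = true := by
  decide +kernel

def t30_25_139 : V3.chw 30 25 139 2 [7] = true := by
  decide +kernel

def t30_26_143 : V3.chw 30 26 143 4 [6] = true := by
  decide +kernel

def t30_26_144 : V3.chw 30 26 144 2 [1, 7, 1] = true := by
  decide +kernel

def t30_27_149 : V3.chw 30 27 149 3 [5, 2, 1, 1029] = true := by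
  decide +kernel

def t30_27_150 : V3.chw 30 27 150 2 [7] = true := by
  decide +kernel

def t30_28_154 : V3.chw 30 28 154 3 [4, 5] = true := by
  decide +kernel

def t30_28_155 : V3.chw 30 28 155 3 [4, 5] = true := by
  decide +kernel

def t30_29_160 : V3.chw 30 29 160 3 [1, 1017, 1025, 1026, 1027, 1028, 1] = true := by
  decide +kernel

def t30_29_161 : V3.chw 30 29 161 2 [7] = true := by
  decide +kernel

def t30_30_165 : V3.chw 30 30 165 3 [4, 5] = true := by
  decide +kernel

def t30_30_166 : V3.chw 30 30 166 2 [1, 7, 1] = true := by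
  decide +kernel

def t30_31_171 : V3.chw 30 31 171 2 [1, 6, 1025, 1026, 1027, 1028, 1029] = true := by
  decide +kernel

def t30_31_172 : V3.chw 30 31 172 2 [7] = true := by
  decide +kernel

def t30_32_176 : V3.chw 30 32 176 3 [4, 5] = true := by
  decide +kernel

def t30_32_177 : V3.chw 30 32 177 2 [1, 7, 1] = true := by
  decide +kernel

def t30_33_181 : V3.chw 30 33 181 4 [6] = true := by
  decide +kernel

def t30_33_182 : V3.chw 30 33 182 2 [1, 6, 1, 1027, 1] = true := by
  decide +kernel

def t30_34_187 : V3.chw 30 34 187 2 [1, 7, 1] = true := by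
  decide +kernel

def t30_34_188 : V3.chw 30 34 188 2 [1, 7, 1] = true := by
  decide +kernel

def t30_35_192 : V3.chw 30 35 192 4 [6] = true := by
  decide +kernel

def t30_35_193 : V3.chw 30 35 193 2 [1, 1007, 1, 2, 1015, 1016, 1018, 1020, 1022, 1, 1, 1028, 1029] = true := by
  decide +kernel

def t30_36_198 : V3.chw 30 36 198 3 [5, 2, 1, 1] = true := by
  decide +kernel

def t30_36_199 : V3.chw 30 36 199 3 [4, 5] = true := by
  decide +kernel

def t30_37_203 : V3.chw 30 37 203 4 [6] = true := by
  decide +kernel

def t30_37_204 : V3.chw 30 37 204 2 [1, 1, 1009, 1017] = true := by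
  decide +kernel

def t30_38_209 : V3.chw 30 38 209 3 [5, 1, 2, 1] = true := by
  decide +kernel

def t30_38_210 : V3.chw 30 38 210 3 [4, 5] = true := by
  decide +kernel

def t30_39_214 : V3.chw 30 39 214 2 [7] = true := by
  decide +kernel

def t30_39_215 : V3.chw 30 39 215 3 [1, 2, 1, 2, 2, 1, 1] = true := by
  decide +kernel

def t30_40_220 : V3.chw 30 40 220 3 [1, 1, 6, 1] = true := by
  decide +kernel

def t30_40_221 : V3.chw 30 40 221 2 [1, 7, 1] = true := by
  decide +kernel

def t30_41_225 : V3.chw 30 41 225 3 [4, 5] = true := by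
  decide +kernel

def t30_41_226 : V3.chw 30 41 226 3 [1, 2, 2, 1, 1, 2, 1] = true := by
  decide +kernel

def t30_42_231 : V3.chw 30 42 231 3 [5, 1, 2, 1] = true := by
  decide +kernel

def t30_42_232 : V3.chw 30 42 232 2 [1, 7, 1] = true := by
  decide +kernel

def t30_43_236 : V3.chw 30 43 236 3 [4, 5] = true := by
  decide +kernel

def t30_43_237 : V3.chw 30 43 237 2 [1, 7, 1029] = true := by
  decide +kernel

def t30_44_242 : V3.chw 30 44 242 3 [1, 1017, 1027, 1029] = true := by
  decide +kernel

def t30_44_243 : V3.chw 30 44 243 2 [7, 1029] = true := by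
  decide +kernel

def t30_45_247 : V3.chw 30 45 247 4 [3, 1026] = true := by
  decide +kernel

def t30_45_248 : V3.chw 30 45 248 2 [1, 7, 1029] = true := by
  decide +kernel

def t30_46_253 : V3.chw 30 46 253 4 [1, 2, 1025, 1029] = true := by
  decide +kernel

def t30_46_254 : V3.chw 30 46 254 2 [7, 1029] = true := by
  decide +kernel

def t30_47_258 : V3.chw 30 47 258 4 [3, 1026] = true := by
  decide +kernel

def t30_47_259 : V3.chw 30 47 259 2 [1, 7, 1029] = true := by
  decide +kernel

def t30_48_264 : V3.chw 30 48 264 3 [1, 1017, 1027, 1029] = true := by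
  decide +kernel

def t30_48_265 : V3.chw 30 48 265 2 [7, 1029] = true := by
  decide +kernel

def t30_49_269 : V3.chw 30 49 269 3 [4, 5] = true := by
  decide +kernel

def t30_49_270 : V3.chw 30 49 270 2 [1, 7, 1029] = true := by
  decide +kernel

def t30_50_275 : V3.chw 30 50 275 3 [1, 1017, 1027, 1028, 1029] = true := by
  decide +kernel

def t30_50_276 : V3.chw 30 50 276 2 [7, 1029] = true := by
  decide +kernel

theorem R30 {K : Type*} [Field K] [CharZero K] (m d : ℕ) (h : m ≤ 50) : MR K 30 m d := by
  interval_cases m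
  · exact good_cova 4 (by decide +kernel) d
  · exact good_cova 4 (by decide +kernel) d
  · exact good_cova 4 (by decide +kernel) d
  · exact good_cova 4 (by decide +kernel) d
  · exact good_cova 4 (by decide +kernel) d
  · exact good_cova 4 (by decide +kernel) d
  · exact good_cova 4 (by decide +kernel) d
  · exact good_cova 4 (by decide +kernel) d
  · exact good_cova 4 (by decide +kernel) d
  · exact good_cova 4 (by decide +kernel) d
  · exact good_cova 4 (by decide +kernel) d
  · exact good_cova 4 (by decide +kernel) d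
  · exact crit 66 (by decide +kernel) (V3.good_chw _ _ t30_12_66) (V3.good_chw _ _ t30_12_67) d
  · exact crit 72 (by decide +kernel) (V3.good_chw _ _ t30_13_72) (V3.good_chw _ _ t30_13_73) d
  · exact crit 77 (by decide +kernel) (V3.good_chw _ _ t30_14_77) (V3.good_chw _ _ t30_14_78) d
  · exact crit 83 (by decide +kernel) (V3.good_chw _ _ t30_15_83) (V3.good_chw _ _ t30_15_84) d
  · exact crit 88 (by decide +kernel) (V3.good_chw _ _ t30_16_88) (V3.good_chw _ _ t30_16_89) d
  · exact crit 94 (by decide +kernel) (V3.good_chw _ _ t30_17_94) (V3.good_chw _ _ t30_17_95) d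
  · exact crit 99 (by decide +kernel) (V3.good_chw _ _ t30_18_99) (V3.good_chw _ _ t30_18_100) d
  · exact crit 105 (by decide +kernel) (V3.good_chw _ _ t30_19_105) (V3.good_chw _ _ t30_19_106) d
  · exact crit 110 (by decide +kernel) (V3.good_chw _ _ t30_20_110) (V3.good_chw _ _ t30_20_111) d
  · exact crit 116 (by decide +kernel) (V3.good_chw _ _ t30_21_116) (V3.good_chw _ _ t30_21_117) d
  · exact crit 121 (by decide +kernel) (V3.good_chw _ _ t30_22_121) (V3.good_chw _ _ t30_22_122) d
  · exact crit 127 (by decide +kernel) (V3.good_chw _ _ t30_23_127) (V3.good_chw _ _ t30_23_128) d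
  · exact crit 132 (by decide +kernel) (V3.good_chw _ _ t30_24_132) (V3.good_chw _ _ t30_24_133) d
  · exact crit 138 (by decide +kernel) (V3.good_chw _ _ t30_25_138) (V3.good_chw _ _ t30_25_139) d
  · exact crit 143 (by decide +kernel) (V3.good_chw _ _ t30_26_143) (V3.good_chw _ _ t30_26_144) d
  · exact crit 149 (by decide +kernel) (V3.good_chw _ _ t30_27_149) (V3.good_chw _ _ t30_27_150) d
  · exact crit 154 (by decide +kernel) (V3.good_chw _ _ t30_28_154) (V3.good_chw _ _ t30_28_155) d
  · exact crit 160 (by decide +kernel) (V3.good_chw _ _ t30_29_160) (V3.good_chw _ _ t30_29_161) d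
  · exact crit 165 (by decide +kernel) (V3.good_chw _ _ t30_30_165) (V3.good_chw _ _ t30_30_166) d
  · exact crit 171 (by decide +kernel) (V3.good_chw _ _ t30_31_171) (V3.good_chw _ _ t30_31_172) d
  · exact crit 176 (by decide +kernel) (V3.good_chw _ _ t30_32_176) (V3.good_chw _ _ t30_32_177) d
  · exact crit 181 (by decide +kernel) (V3.good_chw _ _ t30_33_181) (V3.good_chw _ _ t30_33_182) d
  · exact crit 187 (by decide +kernel) (V3.good_chw _ _ t30_34_187) (V3.good_chw _ _ t30_34_188) d
  · exact crit 192 (by decide +kernel) (V3.good_chw _ _ t30_35_192) (V3.good_chw _ _ t30_35_193) d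
  · exact crit 198 (by decide +kernel) (V3.good_chw _ _ t30_36_198) (V3.good_chw _ _ t30_36_199) d
  · exact crit 203 (by decide +kernel) (V3.good_chw _ _ t30_37_203) (V3.good_chw _ _ t30_37_204) d
  · exact crit 209 (by decide +kernel) (V3.good_chw _ _ t30_38_209) (V3.good_chw _ _ t30_38_210) d
  · exact crit 214 (by decide +kernel) (V3.good_chw _ _ t30_39_214) (V3.good_chw _ _ t30_39_215) d
  · exact crit 220 (by decide +kernel) (V3.good_chw _ _ t30_40_220) (V3.good_chw _ _ t30_40_221) d
  · exact crit 225 (by decide +kernel) (V3.good_chw _ _ t30_41_225) (V3.good_chw _ _ t30_41_226) d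
  · exact crit 231 (by decide +kernel) (V3.good_chw _ _ t30_42_231) (V3.good_chw _ _ t30_42_232) d
  · exact crit 236 (by decide +kernel) (V3.good_chw _ _ t30_43_236) (V3.good_chw _ _ t30_43_237) d
  · exact crit 242 (by decide +kernel) (V3.good_chw _ _ t30_44_242) (V3.good_chw _ _ t30_44_243) d
  · exact crit 247 (by decide +kernel) (V3.good_chw _ _ t30_45_247) (V3.good_chw _ _ t30_45_248) d
  · exact crit 253 (by decide +kernel) (V3.good_chw _ _ t30_46_253) (V3.good_chw _ _ t30_46_254) d
  · exact crit 258 (by decide +kernel) (V3.good_chw _ _ t30_47_258) (V3.good_chw _ _ t30_47_259) d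
  · exact crit 264 (by decide +kernel) (V3.good_chw _ _ t30_48_264) (V3.good_chw _ _ t30_48_265) d
  · exact crit 269 (by decide +kernel) (V3.good_chw _ _ t30_49_269) (V3.good_chw _ _ t30_49_270) d
  · exact crit 275 (by decide +kernel) (V3.good_chw _ _ t30_50_275) (V3.good_chw _ _ t30_50_276) d

end Pool.Agent.Helper54.FM
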