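import Pool.Agent.Helper54.FM.Fast3

set_option autoImplicit false
set_option maxRecDepth 100000
set_option linter.defProp false

/-! Project FM (helper54), MP_e6aa12_ag: r = 31..34, m <= 50 (generated). -/

namespace Pool.Agent.Helper54.FM

def t31_23_129 : V3.chw 31 23 129 5 [2, 1] = true := by
  decide +kernel

def t31_23_130 : V3.chw 31 23 130 5 [3] = true := by
  decide +kernel

def t31_24_134 : V3.chw 31 24 134 5 [3] = true := by
  decide +kernel

def t31_24_135 : V3.chw 31 24 135 5 [1, 1029] = true := by
  decide +kernel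

def t31_25_140 : V3.chw 31 25 140 5 [2, 1] = true := by
  decide +kernel

def t31_25_141 : V3.chw 31 25 141 5 [3] = true := by
  decide +kernel

def t31_26_146 : V3.chw 31 26 146 5 [1, 1028, 1] = true := by
  decide +kernel

def t31_26_147 : V3.chw 31 26 147 5 [3] = true := by
  decide +kernel

def t31_27_151 : V3.chw 31 27 151 5 [2, 1] = true := by
  decide +kernel

def t31_27_152 : V3.chw 31 27 152 3 [2, 7] = true := by
  decide +kernel

def t31_28_157 : V3.chw 31 28 157 5 [1, 1, 1] = true := by
  decide +kernel

def t31_28_158 : V3.chw 31 28 158 5 [3] = true := by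
  decide +kernel

def t31_29_162 : V3.chw 31 29 162 5 [2, 1] = true := by
  decide +kernel

def t31_29_163 : V3.chw 31 29 163 5 [1, 2] = true := by
  decide +kernel

def t31_30_168 : V3.chw 31 30 168 5 [1, 1, 1] = true := by
  decide +kernel

def t31_30_169 : V3.chw 31 30 169 5 [3] = true := by
  decide +kernel

def t31_31_173 : V3.chw 31 31 173 5 [2, 1] = true := by
  decide +kernel

def t31_31_174 : V3.chw 31 31 174 5 [1, 1, 1] = true := by
  decide +kernel

def t31_32_179 : V3.chw 31 32 179 5 [2, 1] = true := by
  decide +kernel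

def t31_32_180 : V3.chw 31 32 180 5 [1, 2] = true := by
  decide +kernel

def t31_33_185 : V3.chw 31 33 185 5 [1020, 1, 1028, 1029, 1030] = true := by
  decide +kernel

def t31_34_190 : V3.chw 31 34 190 5 [2, 1] = true := by
  decide +kernel

def t31_34_191 : V3.chw 31 34 191 5 [1, 2] = true := by
  decide +kernel

def t31_35_196 : V3.chw 31 35 196 5 [1, 1028, 1] = true := by
  decide +kernel

def t31_35_197 : V3.chw 31 35 197 5 [3] = true := by
  decide +kernel

def t31_36_201 : V3.chw 31 36 201 5 [1, 2] = true := by
  decide +kernel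

def t31_36_202 : V3.chw 31 36 202 5 [1, 1, 1] = true := by
  decide +kernel

def t31_37_207 : V3.chw 31 37 207 2 [5, 1, 4] = true := by
  decide +kernel

def t31_37_208 : V3.chw 31 37 208 5 [1, 2] = true := by
  decide +kernel

def t31_38_212 : V3.chw 31 38 212 5 [2, 1] = true := by
  decide +kernel

def t31_38_213 : V3.chw 31 38 213 5 [1, 1, 1030] = true := by
  decide +kernel

def t31_39_218 : V3.chw 31 39 218 3 [2, 7] = true := by
  decide +kernel

def t31_39_219 : V3.chw 31 39 219 5 [1, 2] = true := by
  decide +kernel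

def t31_40_223 : V3.chw 31 40 223 5 [2, 1] = true := by
  decide +kernel

def t31_40_224 : V3.chw 31 40 224 5 [1, 1028, 1029, 1030] = true := by
  decide +kernel

def t31_41_229 : V3.chw 31 41 229 5 [1, 2] = true := by
  decide +kernel

def t31_41_230 : V3.chw 31 41 230 5 [1, 2] = true := by
  decide +kernel

def t31_42_235 : V3.chw 31 42 235 2 [5, 4, 1030] = true := by
  decide +kernel

def t31_42_236 : V3.chw 31 42 236 5 [1, 2] = true := by
  decide +kernel

def t31_43_240 : V3.chw 31 43 240 5 [2, 1030] = true := by
  decide +kernel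

def t31_43_241 : V3.chw 31 43 241 5 [1026, 1029] = true := by
  decide +kernel

def t31_44_246 : V3.chw 31 44 246 2 [5, 4, 1030] = true := by
  decide +kernel

def t31_44_247 : V3.chw 31 44 247 2 [5, 1025] = true := by
  decide +kernel

def t31_45_251 : V3.chw 31 45 251 5 [2, 1030] = true := by
  decide +kernel

def t31_45_252 : V3.chw 31 45 252 5 [1026, 1, 1030] = true := by
  decide +kernel

def t31_46_257 : V3.chw 31 46 257 3 [5, 1026] = true := by
  decide +kernel

def t31_46_258 : V3.chw 31 46 258 5 [1, 2] = true := by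
  decide +kernel

def t31_47_262 : V3.chw 31 47 262 5 [2, 1] = true := by
  decide +kernel

def t31_47_263 : V3.chw 31 47 263 2 [1, 1, 2, 1014, 1016, 2, 1021, 1, 1024, 1, 1, 1029, 1030] = true := by
  decide +kernel

def t31_48_268 : V3.chw 31 48 268 5 [1, 1029] = true := by
  decide +kernel

def t31_48_269 : V3.chw 31 48 269 5 [1, 1029] = true := by
  decide +kernel

def t31_49_274 : V3.chw 31 49 274 2 [1, 1008, 1016, 1, 1027, 1028, 1] = true := by
  decide +kernel

def t31_49_275 : V3.chw 31 49 275 2 [5, 1025] = true := by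
  decide +kernel

def t31_50_279 : V3.chw 31 50 279 5 [2, 1030] = true := by
  decide +kernel

def t31_50_280 : V3.chw 31 50 280 5 [1, 1029] = true := by
  decide +kernel

theorem R31 {K : Type*} [Field K] [CharZero K] (m d : ℕ) (h : m ≤ 50) : MR K 31 m d := by
  interval_cases m
  · exact good_cova 5 (by decide +kernel) d
  · exact good_cova 5 (by decide +kernel) d
  · exact good_cova 5 (by decide +kernel) d
  · exact good_cova 5 (by decide +kernel) d
  · exact good_cova 5 (by decide +kernel) d
  · exact good_cova 5 (by decide +kernel) d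
  · exact good_cova 5 (by decide +kernel) d
  · exact good_cova 5 (by decide +kernel) d
  · exact good_cova 5 (by decide +kernel) d
  · exact good_cova 5 (by decide +kernel) d
  · exact good_cova 5 (by decide +kernel) d
  · exact good_cova 5 (by decide +kernel) d
  · exact good_cova 5 (by decide +kernel) d
  · exact good_cova 5 (by decide +kernel) d
  · exact good_cova 5 (by decide +kernel) d
  · exact good_cova 5 (by decide +kernel) d
  · exact good_cova 5 (by decide +kernel) d
  · exact good_cova 5 (by decide +kernel) d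
  · exact good_cova 5 (by decide +kernel) d
  · exact good_cova 5 (by decide +kernel) d
  · exact good_cova 5 (by decide +kernel) d
  · exact good_cova 5 (by decide +kernel) d
  · exact good_cova 5 (by decide +kernel) d
  · exact crit 129 (by decide +kernel) (V3.good_chw _ _ t31_23_129) (V3.good_chw _ _ t31_23_130) d
  · exact crit 134 (by decide +kernel) (V3.good_chw _ _ t31_24_134) (V3.good_chw _ _ t31_24_135) d
  · exact crit 140 (by decide +kernel) (V3.good_chw _ _ t31_25_140) (V3.good_chw _ _ t31_25_141) d
  · exact crit 146 (by decide +kernel) (V3.good_chw _ _ t31_26_146) (V3.good_chw _ _ t31_26_147) d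
  · exact crit 151 (by decide +kernel) (V3.good_chw _ _ t31_27_151) (V3.good_chw _ _ t31_27_152) d
  · exact crit 157 (by decide +kernel) (V3.good_chw _ _ t31_28_157) (V3.good_chw _ _ t31_28_158) d
  · exact crit 162 (by decide +kernel) (V3.good_chw _ _ t31_29_162) (V3.good_chw _ _ t31_29_163) d
  · exact crit 168 (by decide +kernel) (V3.good_chw _ _ t31_30_168) (V3.good_chw _ _ t31_30_169) d
  · exact crit 173 (by decide +kernel) (V3.good_chw _ _ t31_31_173) (V3.good_chw _ _ t31_31_174) d
  · exact crit 179 (by decide +kernel) (V3.good_chw _ _ t31_32_179) (V3.good_chw _ _ t31_32_180) d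
  · exact crit0 185 (by decide +kernel) (V3.good_chw _ _ t31_33_185) d
  · exact crit 190 (by decide +kernel) (V3.good_chw _ _ t31_34_190) (V3.good_chw _ _ t31_34_191) d
  · exact crit 196 (by decide +kernel) (V3.good_chw _ _ t31_35_196) (V3.good_chw _ _ t31_35_197) d
  · exact crit 201 (by decide +kernel) (V3.good_chw _ _ t31_36_201) (V3.good_chw _ _ t31_36_202) d
  · exact crit 207 (by decide +kernel) (V3.good_chw _ _ t31_37_207) (V3.good_chw _ _ t31_37_208) d
  · exact crit 212 (by decide +kernel) (V3.good_chw _ _ t31_38_212) (V3.good_chw _ _ t31_38_213) d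
  · exact crit 218 (by decide +kernel) (V3.good_chw _ _ t31_39_218) (V3.good_chw _ _ t31_39_219) d
  · exact crit 223 (by decide +kernel) (V3.good_chw _ _ t31_40_223) (V3.good_chw _ _ t31_40_224) d
  · exact crit 229 (by decide +kernel) (V3.good_chw _ _ t31_41_229) (V3.good_chw _ _ t31_41_230) d
  · exact crit 235 (by decide +kernel) (V3.good_chw _ _ t31_42_235) (V3.good_chw _ _ t31_42_236) d
  · exact crit 240 (by decide +kernel) (V3.good_chw _ _ t31_43_240) (V3.good_chw _ _ t31_43_241) d
  · exact crit 246 (by decide +kernel) (V3.good_chw _ _ t31_44_246) (V3.good_chw _ _ t31_44_247) d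
  · exact crit 251 (by decide +kernel) (V3.good_chw _ _ t31_45_251) (V3.good_chw _ _ t31_45_252) d
  · exact crit 257 (by decide +kernel) (V3.good_chw _ _ t31_46_257) (V3.good_chw _ _ t31_46_258) d
  · exact crit 262 (by decide +kernel) (V3.good_chw _ _ t31_47_262) (V3.good_chw _ _ t31_47_263) d
  · exact crit 268 (by decide +kernel) (V3.good_chw _ _ t31_48_268) (V3.good_chw _ _ t31_48_269) d
  · exact crit 274 (by decide +kernel) (V3.good_chw _ _ t31_49_274) (V3.good_chw _ _ t31_49_275) d
  · exact crit 279 (by decide +kernel) (V3.good_chw _ _ t31_50_279) (V3.good_chw _ _ t31_50_280) d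

def t32_11_64 : V3.chw 32 11 64 3 [8] = true := by
  decide +kernel

def t32_12_69 : V3.chw 32 12 69 2 [1, 7, 2] = true := by
  decide +kernel

def t32_12_70 : V3.chw 32 12 70 3 [8] = true := by
  decide +kernel

def t32_13_74 : V3.chw 32 13 74 2 [7, 1] = true := by
  decide +kernel

def t32_13_75 : V3.chw 32 13 75 3 [8] = true := by
  decide +kernel

def t32_14_80 : V3.chw 32 14 80 2 [7, 1] = true := by
  decide +kernel

def t32_14_81 : V3.chw 32 14 81 3 [8] = true := by
  decide +kernel

def t32_15_86 : V3.chw 32 15 86 3 [8, 1030] = true := by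
  decide +kernel

def t32_15_87 : V3.chw 32 15 87 3 [8] = true := by
  decide +kernel

def t32_16_91 : V3.chw 32 16 91 2 [7, 1] = true := by
  decide +kernel

def t32_16_92 : V3.chw 32 16 92 3 [8] = true := by
  decide +kernel

def t32_17_97 : V3.chw 32 17 97 2 [7, 1] = true := by
  decide +kernel

def t32_17_98 : V3.chw 32 17 98 3 [8] = true := by
  decide +kernel

def t32_18_103 : V3.chw 32 18 103 3 [8, 1030] = true := by
  decide +kernel

def t32_18_104 : V3.chw 32 18 104 3 [8] = true := by
  decide +kernel

def t32_19_108 : V3.chw 32 19 108 2 [7, 1] = true := by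
  decide +kernel

def t32_19_109 : V3.chw 32 19 109 3 [8] = true := by
  decide +kernel

def t32_20_114 : V3.chw 32 20 114 2 [7, 1] = true := by
  decide +kernel

def t32_20_115 : V3.chw 32 20 115 3 [8] = true := by
  decide +kernel

def t32_21_120 : V3.chw 32 21 120 4 [1, 6, 1031] = true := by
  decide +kernel

def t32_21_121 : V3.chw 32 21 121 3 [8] = true := by
  decide +kernel

def t32_22_125 : V3.chw 32 22 125 2 [7, 1] = true := by
  decide +kernel

def t32_22_126 : V3.chw 32 22 126 3 [8] = true := by
  decide +kernel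

def t32_23_131 : V3.chw 32 23 131 2 [1, 7, 1, 1] = true := by
  decide +kernel

def t32_23_132 : V3.chw 32 23 132 3 [8] = true := by
  decide +kernel

def t32_24_137 : V3.chw 32 24 137 3 [2, 1018, 1025, 1027, 1030] = true := by
  decide +kernel

def t32_24_138 : V3.chw 32 24 138 3 [8] = true := by
  decide +kernel

def t32_25_142 : V3.chw 32 25 142 2 [7, 1] = true := by
  decide +kernel

def t32_25_143 : V3.chw 32 25 143 3 [8] = true := by
  decide +kernel

def t32_26_148 : V3.chw 32 26 148 3 [1, 5, 4] = true := by
  decide +kernel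

def t32_26_149 : V3.chw 32 26 149 3 [8] = true := by
  decide +kernel

def t32_27_154 : V3.chw 32 27 154 2 [1, 1, 8, 1031] = true := by
  decide +kernel

def t32_27_155 : V3.chw 32 27 155 3 [8] = true := by
  decide +kernel

def t32_28_159 : V3.chw 32 28 159 2 [7, 1] = true := by
  decide +kernel

def t32_28_160 : V3.chw 32 28 160 3 [8] = true := by
  decide +kernel

def t32_29_165 : V3.chw 32 29 165 3 [4, 1, 5] = true := by
  decide +kernel

def t32_29_166 : V3.chw 32 29 166 3 [8] = true := by
  decide +kernel

def t32_30_171 : V3.chw 32 30 171 2 [1, 6, 1025, 1026, 1027, 1028, 1029, 1] = true := by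
  decide +kernel

def t32_30_172 : V3.chw 32 30 172 3 [8] = true := by
  decide +kernel

def t32_31_176 : V3.chw 32 31 176 4 [1, 6] = true := by
  decide +kernel

def t32_31_177 : V3.chw 32 31 177 3 [8] = true := by
  decide +kernel

def t32_32_182 : V3.chw 32 32 182 3 [1, 5, 4] = true := by
  decide +kernel

def t32_32_183 : V3.chw 32 32 183 3 [8] = true := by
  decide +kernel

def t32_33_187 : V3.chw 32 33 187 3 [8] = true := by
  decide +kernel

def t32_33_188 : V3.chw 32 33 188 3 [5, 2, 1025, 1026, 1, 1030] = true := by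
  decide +kernel

def t32_34_193 : V3.chw 32 34 193 4 [1, 6] = true := by
  decide +kernel

def t32_34_194 : V3.chw 32 34 194 3 [8] = true := by
  decide +kernel

def t32_35_199 : V3.chw 32 35 199 3 [8, 1028] = true := by
  decide +kernel

def t32_35_200 : V3.chw 32 35 200 3 [8] = true := by
  decide +kernel

def t32_36_204 : V3.chw 32 36 204 3 [8] = true := by
  decide +kernel

def t32_36_205 : V3.chw 32 36 205 2 [1, 1007, 1008, 8] = true := by
  decide +kernel

def t32_37_210 : V3.chw 32 37 210 4 [1, 6] = true := by
  decide +kernel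

def t32_37_211 : V3.chw 32 37 211 3 [8] = true := by
  decide +kernel

def t32_38_216 : V3.chw 32 38 216 2 [1, 7, 1030] = true := by
  decide +kernel

def t32_38_217 : V3.chw 32 38 217 3 [8] = true := by
  decide +kernel

def t32_39_221 : V3.chw 32 39 221 3 [8] = true := by
  decide +kernel

def t32_39_222 : V3.chw 32 39 222 2 [1, 1007, 8] = true := by
  decide +kernel

def t32_40_227 : V3.chw 32 40 227 4 [1, 6] = true := by
  decide +kernel

def t32_40_228 : V3.chw 32 40 228 3 [8] = true := by
  decide +kernel

def t32_41_233 : V3.chw 32 41 233 2 [1, 4, 3, 4] = true := by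
  decide +kernel

def t32_41_234 : V3.chw 32 41 234 3 [8] = true := by
  decide +kernel

def t32_42_238 : V3.chw 32 42 238 3 [8] = true := by
  decide +kernel

def t32_42_239 : V3.chw 32 42 239 2 [1, 1007, 8] = true := by
  decide +kernel

def t32_43_244 : V3.chw 32 43 244 3 [8, 1026] = true := by
  decide +kernel

def t32_43_245 : V3.chw 32 43 245 3 [8] = true := by
  decide +kernel

def t32_44_250 : V3.chw 32 44 250 3 [2, 6, 1030] = true := by
  decide +kernel

def t32_44_251 : V3.chw 32 44 251 3 [8] = true := by
  decide +kernel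

def t32_45_255 : V3.chw 32 45 255 3 [8] = true := by
  decide +kernel

def t32_45_256 : V3.chw 32 45 256 2 [1, 1007, 8] = true := by
  decide +kernel

def t32_46_261 : V3.chw 32 46 261 3 [8, 1026] = true := by
  decide +kernel

def t32_46_262 : V3.chw 32 46 262 3 [8] = true := by
  decide +kernel

def t32_47_267 : V3.chw 32 47 267 3 [2, 6, 1027, 1030] = true := by
  decide +kernel

def t32_47_268 : V3.chw 32 47 268 3 [8] = true := by
  decide +kernel

def t32_48_272 : V3.chw 32 48 272 3 [8] = true := by
  decide +kernel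

def t32_48_273 : V3.chw 32 48 273 2 [1, 1007, 8] = true := by
  decide +kernel

def t32_49_278 : V3.chw 32 49 278 3 [8, 1026] = true := by
  decide +kernel

def t32_49_279 : V3.chw 32 49 279 3 [8] = true := by
  decide +kernel

def t32_50_284 : V3.chw 32 50 284 3 [5, 1022, 1025, 1030] = true := by
  decide +kernel

def t32_50_285 : V3.chw 32 50 285 3 [8] = true := by
  decide +kernel

theorem R32 {K : Type*} [Field K] [CharZero K] (m d : ℕ) (h : m ≤ 50) : MR K 32 m d := by
  interval_cases m
  · exact good_cova 4 (by decide +kernel) d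
  · exact good_cova 4 (by decide +kernel) d
  · exact good_cova 4 (by decide +kernel) d
  · exact good_cova 4 (by decide +kernel) d
  · exact good_cova 4 (by decide +kernel) d
  · exact good_cova 4 (by decide +kernel) d
  · exact good_cova 4 (by decide +kernel) d
  · exact good_cova 4 (by decide +kernel) d
  · exact good_cova 4 (by decide +kernel) d
  · exact good_cova 4 (by decide +kernel) d
  · exact good_cova 4 (by decide +kernel) d
  · exact crit 63 (by decide +kernel) (good_covd 4 (by decide +kernel)) (V3.good_chw _ _ t32_11_64) d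
  · exact crit 69 (by decide +kernel) (V3.good_chw _ _ t32_12_69) (V3.good_chw _ _ t32_12_70) d
  · exact crit 74 (by decide +kernel) (V3.good_chw _ _ t32_13_74) (V3.good_chw _ _ t32_13_75) d
  · exact crit 80 (by decide +kernel) (V3.good_chw _ _ t32_14_80) (V3.good_chw _ _ t32_14_81) d
  · exact crit 86 (by decide +kernel) (V3.good_chw _ _ t32_15_86) (V3.good_chw _ _ t32_15_87) d
  · exact crit 91 (by decide +kernel) (V3.good_chw _ _ t32_16_91) (V3.good_chw _ _ t32_16_92) d
  · exact crit 97 (by decide +kernel) (V3.good_chw _ _ t32_17_97) (V3.good_chw _ _ t32_17_98) d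
  · exact crit 103 (by decide +kernel) (V3.good_chw _ _ t32_18_103) (V3.good_chw _ _ t32_18_104) d
  · exact crit 108 (by decide +kernel) (V3.good_chw _ _ t32_19_108) (V3.good_chw _ _ t32_19_109) d
  · exact crit 114 (by decide +kernel) (V3.good_chw _ _ t32_20_114) (V3.good_chw _ _ t32_20_115) d
  · exact crit 120 (by decide +kernel) (V3.good_chw _ _ t32_21_120) (V3.good_chw _ _ t32_21_121) d
  · exact crit 125 (by decide +kernel) (V3.good_chw _ _ t32_22_125) (V3.good_chw _ _ t32_22_126) d
  · exact crit 131 (by decide +kernel) (V3.good_chw _ _ t32_23_131) (V3.good_chw _ _ t32_23_132) d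
  · exact crit 137 (by decide +kernel) (V3.good_chw _ _ t32_24_137) (V3.good_chw _ _ t32_24_138) d
  · exact crit 142 (by decide +kernel) (V3.good_chw _ _ t32_25_142) (V3.good_chw _ _ t32_25_143) d
  · exact crit 148 (by decide +kernel) (V3.good_chw _ _ t32_26_148) (V3.good_chw _ _ t32_26_149) d
  · exact crit 154 (by decide +kernel) (V3.good_chw _ _ t32_27_154) (V3.good_chw _ _ t32_27_155) d
  · exact crit 159 (by decide +kernel) (V3.good_chw _ _ t32_28_159) (V3.good_chw _ _ t32_28_160) d
  · exact crit 165 (by decide +kernel) (V3.good_chw _ _ t32_29_165) (V3.good_chw _ _ t32_29_166) d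
  · exact crit 171 (by decide +kernel) (V3.good_chw _ _ t32_30_171) (V3.good_chw _ _ t32_30_172) d
  · exact crit 176 (by decide +kernel) (V3.good_chw _ _ t32_31_176) (V3.good_chw _ _ t32_31_177) d
  · exact crit 182 (by decide +kernel) (V3.good_chw _ _ t32_32_182) (V3.good_chw _ _ t32_32_183) d
  · exact crit 187 (by decide +kernel) (V3.good_chw _ _ t32_33_187) (V3.good_chw _ _ t32_33_188) d
  · exact crit 193 (by decide +kernel) (V3.good_chw _ _ t32_34_193) (V3.good_chw _ _ t32_34_194) d
  · exact crit 199 (by decide +kernel) (V3.good_chw _ _ t32_35_199) (V3.good_chw _ _ t32_35_200) d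
  · exact crit 204 (by decide +kernel) (V3.good_chw _ _ t32_36_204) (V3.good_chw _ _ t32_36_205) d
  · exact crit 210 (by decide +kernel) (V3.good_chw _ _ t32_37_210) (V3.good_chw _ _ t32_37_211) d
  · exact crit 216 (by decide +kernel) (V3.good_chw _ _ t32_38_216) (V3.good_chw _ _ t32_38_217) d
  · exact crit 221 (by decide +kernel) (V3.good_chw _ _ t32_39_221) (V3.good_chw _ _ t32_39_222) d
  · exact crit 227 (by decide +kernel) (V3.good_chw _ _ t32_40_227) (V3.good_chw _ _ t32_40_228) d
  · exact crit 233 (by decide +kernel) (V3.good_chw _ _ t32_41_233) (V3.good_chw _ _ t32_41_234) d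
  · exact crit 238 (by decide +kernel) (V3.good_chw _ _ t32_42_238) (V3.good_chw _ _ t32_42_239) d
  · exact crit 244 (by decide +kernel) (V3.good_chw _ _ t32_43_244) (V3.good_chw _ _ t32_43_245) d
  · exact crit 250 (by decide +kernel) (V3.good_chw _ _ t32_44_250) (V3.good_chw _ _ t32_44_251) d
  · exact crit 255 (by decide +kernel) (V3.good_chw _ _ t32_45_255) (V3.good_chw _ _ t32_45_256) d
  · exact crit 261 (by decide +kernel) (V3.good_chw _ _ t32_46_261) (V3.good_chw _ _ t32_46_262) d
  · exact crit 267 (by decide +kernel) (V3.good_chw _ _ t32_47_267) (V3.good_chw _ _ t32_47_268) d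
  · exact crit 272 (by decide +kernel) (V3.good_chw _ _ t32_48_272) (V3.good_chw _ _ t32_48_273) d
  · exact crit 278 (by decide +kernel) (V3.good_chw _ _ t32_49_278) (V3.good_chw _ _ t32_49_279) d
  · exact crit 284 (by decide +kernel) (V3.good_chw _ _ t32_50_284) (V3.good_chw _ _ t32_50_285) d

def t33_22_127 : V3.chw 33 22 127 4 [7] = true := by
  decide +kernel

def t33_22_128 : V3.chw 33 22 128 5 [1, 1, 2] = true := by
  decide +kernel

def t33_23_133 : V3.chw 33 23 133 5 [1, 1, 2] = true := by
  decide +kernel

def t33_23_134 : V3.chw 33 23 134 4 [7] = true := by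
  decide +kernel

def t33_24_139 : V3.chw 33 24 139 4 [3, 2, 3] = true := by
  decide +kernel

def t33_24_140 : V3.chw 33 24 140 4 [7] = true := by
  decide +kernel

def t33_25_144 : V3.chw 33 25 144 4 [7] = true := by
  decide +kernel

def t33_25_145 : V3.chw 33 25 145 5 [1, 1, 1031] = true := by
  decide +kernel

def t33_26_150 : V3.chw 33 26 150 4 [7] = true := by
  decide +kernel

def t33_26_151 : V3.chw 33 26 151 2 [5, 3, 3] = true := by
  decide +kernel

def t33_27_156 : V3.chw 33 27 156 5 [1, 1, 2] = true := by
  decide +kernel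

def t33_27_157 : V3.chw 33 27 157 4 [7] = true := by
  decide +kernel

def t33_28_162 : V3.chw 33 28 162 5 [1, 1, 1, 1] = true := by
  decide +kernel

def t33_28_163 : V3.chw 33 28 163 4 [7] = true := by
  decide +kernel

def t33_29_167 : V3.chw 33 29 167 4 [7] = true := by
  decide +kernel

def t33_29_168 : V3.chw 33 29 168 5 [1, 1028, 1, 1] = true := by
  decide +kernel

def t33_30_173 : V3.chw 33 30 173 4 [7] = true := by
  decide +kernel

def t33_30_174 : V3.chw 33 30 174 5 [1, 1, 2] = true := by
  decide +kernel

def t33_31_179 : V3.chw 33 31 179 5 [1, 1, 2] = true := by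
  decide +kernel

def t33_31_180 : V3.chw 33 31 180 4 [7] = true := by
  decide +kernel

def t33_32_185 : V3.chw 33 32 185 4 [7, 1032] = true := by
  decide +kernel

def t33_32_186 : V3.chw 33 32 186 4 [7] = true := by
  decide +kernel

def t33_33_190 : V3.chw 33 33 190 4 [7] = true := by
  decide +kernel

def t33_33_191 : V3.chw 33 33 191 5 [1026, 1028, 1, 1] = true := by
  decide +kernel

def t33_34_196 : V3.chw 33 34 196 4 [7] = true := by
  decide +kernel

def t33_34_197 : V3.chw 33 34 197 2 [5, 3, 3] = true := by
  decide +kernel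

def t33_35_202 : V3.chw 33 35 202 4 [2, 3, 3] = true := by
  decide +kernel

def t33_35_203 : V3.chw 33 35 203 4 [7] = true := by
  decide +kernel

def t33_36_208 : V3.chw 33 36 208 4 [4, 1025, 1027, 1031] = true := by
  decide +kernel

def t33_36_209 : V3.chw 33 36 209 4 [7] = true := by
  decide +kernel

def t33_37_213 : V3.chw 33 37 213 4 [7] = true := by
  decide +kernel

def t33_37_214 : V3.chw 33 37 214 3 [6, 2, 1031, 1032] = true := by
  decide +kernel

def t33_38_219 : V3.chw 33 38 219 4 [7] = true := by
  decide +kernel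

def t33_38_220 : V3.chw 33 38 220 2 [5, 3, 3] = true := by
  decide +kernel

def t33_39_225 : V3.chw 33 39 225 4 [2, 3, 3] = true := by
  decide +kernel

def t33_39_226 : V3.chw 33 39 226 4 [7] = true := by
  decide +kernel

def t33_40_231 : V3.chw 33 40 231 5 [1025, 1027, 1031] = true := by
  decide +kernel

def t33_40_232 : V3.chw 33 40 232 4 [7] = true := by
  decide +kernel

def t33_41_236 : V3.chw 33 41 236 4 [7] = true := by
  decide +kernel

def t33_41_237 : V3.chw 33 41 237 2 [5, 4, 1029, 1031] = true := by
  decide +kernel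

def t33_42_242 : V3.chw 33 42 242 4 [7] = true := by
  decide +kernel

def t33_42_243 : V3.chw 33 42 243 2 [5, 3, 3] = true := by
  decide +kernel

def t33_43_248 : V3.chw 33 43 248 5 [2, 1031] = true := by
  decide +kernel

def t33_43_249 : V3.chw 33 43 249 4 [7] = true := by
  decide +kernel

def t33_44_254 : V3.chw 33 44 254 3 [6, 1025, 1, 1, 1031] = true := by
  decide +kernel

def t33_44_255 : V3.chw 33 44 255 4 [7] = true := by
  decide +kernel

def t33_45_259 : V3.chw 33 45 259 4 [7] = true := by
  decide +kernel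

def t33_45_260 : V3.chw 33 45 260 5 [1025, 1027, 1031] = true := by
  decide +kernel

def t33_46_265 : V3.chw 33 46 265 4 [7] = true := by
  decide +kernel

def t33_46_266 : V3.chw 33 46 266 5 [1027, 1031] = true := by
  decide +kernel

def t33_47_271 : V3.chw 33 47 271 4 [7, 1031] = true := by
  decide +kernel

def t33_47_272 : V3.chw 33 47 272 4 [7] = true := by
  decide +kernel

def t33_48_277 : V3.chw 33 48 277 2 [1, 1012, 1024, 1, 1027, 1, 1030, 1] = true := by
  decide +kernel

def t33_48_278 : V3.chw 33 48 278 4 [7] = true := by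
  decide +kernel

def t33_49_282 : V3.chw 33 49 282 4 [7] = true := by
  decide +kernel

def t33_49_283 : V3.chw 33 49 283 3 [3, 1016, 1023, 1032] = true := by
  decide +kernel

def t33_50_288 : V3.chw 33 50 288 4 [7] = true := by
  decide +kernel

def t33_50_289 : V3.chw 33 50 289 5 [2, 1031] = true := by
  decide +kernel

theorem R33 {K : Type*} [Field K] [CharZero K] (m d : ℕ) (h : m ≤ 50) : MR K 33 m d := by
  interval_cases m
  · exact good_cova 5 (by decide +kernel) d
  · exact good_cova 5 (by decide +kernel) d
  · exact good_cova 5 (by decide +kernel) d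
  · exact good_cova 5 (by decide +kernel) d
  · exact good_cova 5 (by decide +kernel) d
  · exact good_cova 5 (by decide +kernel) d
  · exact good_cova 5 (by decide +kernel) d
  · exact good_cova 5 (by decide +kernel) d
  · exact good_cova 5 (by decide +kernel) d
  · exact good_cova 5 (by decide +kernel) d
  · exact good_cova 5 (by decide +kernel) d
  · exact good_cova 5 (by decide +kernel) d
  · exact good_cova 5 (by decide +kernel) d
  · exact good_cova 5 (by decide +kernel) d
  · exact good_cova 5 (by decide +kernel) d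
  · exact good_cova 5 (by decide +kernel) d
  · exact good_cova 5 (by decide +kernel) d
  · exact good_cova 5 (by decide +kernel) d
  · exact good_cova 5 (by decide +kernel) d
  · exact good_cova 5 (by decide +kernel) d
  · exact good_cova 5 (by decide +kernel) d
  · exact good_cova 5 (by decide +kernel) d
  · exact crit 127 (by decide +kernel) (V3.good_chw _ _ t33_22_127) (V3.good_chw _ _ t33_22_128) d
  · exact crit 133 (by decide +kernel) (V3.good_chw _ _ t33_23_133) (V3.good_chw _ _ t33_23_134) d
  · exact crit 139 (by decide +kernel) (V3.good_chw _ _ t33_24_139) (V3.good_chw _ _ t33_24_140) d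
  · exact crit 144 (by decide +kernel) (V3.good_chw _ _ t33_25_144) (V3.good_chw _ _ t33_25_145) d
  · exact crit 150 (by decide +kernel) (V3.good_chw _ _ t33_26_150) (V3.good_chw _ _ t33_26_151) d
  · exact crit 156 (by decide +kernel) (V3.good_chw _ _ t33_27_156) (V3.good_chw _ _ t33_27_157) d
  · exact crit 162 (by decide +kernel) (V3.good_chw _ _ t33_28_162) (V3.good_chw _ _ t33_28_163) d
  · exact crit 167 (by decide +kernel) (V3.good_chw _ _ t33_29_167) (V3.good_chw _ _ t33_29_168) d
  · exact crit 173 (by decide +kernel) (V3.good_chw _ _ t33_30_173) (V3.good_chw _ _ t33_30_174) d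
  · exact crit 179 (by decide +kernel) (V3.good_chw _ _ t33_31_179) (V3.good_chw _ _ t33_31_180) d
  · exact crit 185 (by decide +kernel) (V3.good_chw _ _ t33_32_185) (V3.good_chw _ _ t33_32_186) d
  · exact crit 190 (by decide +kernel) (V3.good_chw _ _ t33_33_190) (V3.good_chw _ _ t33_33_191) d
  · exact crit 196 (by decide +kernel) (V3.good_chw _ _ t33_34_196) (V3.good_chw _ _ t33_34_197) d
  · exact crit 202 (by decide +kernel) (V3.good_chw _ _ t33_35_202) (V3.good_chw _ _ t33_35_203) d
  · exact crit 208 (by decide +kernel) (V3.good_chw _ _ t33_36_208) (V3.good_chw _ _ t33_36_209) d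
  · exact crit 213 (by decide +kernel) (V3.good_chw _ _ t33_37_213) (V3.good_chw _ _ t33_37_214) d
  · exact crit 219 (by decide +kernel) (V3.good_chw _ _ t33_38_219) (V3.good_chw _ _ t33_38_220) d
  · exact crit 225 (by decide +kernel) (V3.good_chw _ _ t33_39_225) (V3.good_chw _ _ t33_39_226) d
  · exact crit 231 (by decide +kernel) (V3.good_chw _ _ t33_40_231) (V3.good_chw _ _ t33_40_232) d
  · exact crit 236 (by decide +kernel) (V3.good_chw _ _ t33_41_236) (V3.good_chw _ _ t33_41_237) d
  · exact crit 242 (by decide +kernel) (V3.good_chw _ _ t33_42_242) (V3.good_chw _ _ t33_42_243) d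
  · exact crit 248 (by decide +kernel) (V3.good_chw _ _ t33_43_248) (V3.good_chw _ _ t33_43_249) d
  · exact crit 254 (by decide +kernel) (V3.good_chw _ _ t33_44_254) (V3.good_chw _ _ t33_44_255) d
  · exact crit 259 (by decide +kernel) (V3.good_chw _ _ t33_45_259) (V3.good_chw _ _ t33_45_260) d
  · exact crit 265 (by decide +kernel) (V3.good_chw _ _ t33_46_265) (V3.good_chw _ _ t33_46_266) d
  · exact crit 271 (by decide +kernel) (V3.good_chw _ _ t33_47_271) (V3.good_chw _ _ t33_47_272) d
  · exact crit 277 (by decide +kernel) (V3.good_chw _ _ t33_48_277) (V3.good_chw _ _ t33_48_278) d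
  · exact crit 282 (by decide +kernel) (V3.good_chw _ _ t33_49_282) (V3.good_chw _ _ t33_49_283) d
  · exact crit 288 (by decide +kernel) (V3.good_chw _ _ t33_50_288) (V3.good_chw _ _ t33_50_289) d

def t34_11_65 : V3.chw 34 11 65 2 [7, 2] = true := by
  decide +kernel

def t34_11_66 : V3.chw 34 11 66 5 [4] = true := by
  decide +kernel

def t34_12_71 : V3.chw 34 12 71 2 [7, 2] = true := by
  decide +kernel

def t34_12_72 : V3.chw 34 12 72 5 [4] = true := by
  decide +kernel

def t34_13_77 : V3.chw 34 13 77 3 [8, 1] = true := by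
  decide +kernel

def t34_13_78 : V3.chw 34 13 78 5 [4] = true := by
  decide +kernel

def t34_14_83 : V3.chw 34 14 83 2 [1, 1007, 8, 1] = true := by
  decide +kernel

def t34_15_88 : V3.chw 34 15 88 5 [4] = true := by
  decide +kernel

def t34_15_89 : V3.chw 34 15 89 3 [8, 1] = true := by
  decide +kernel

def t34_16_94 : V3.chw 34 16 94 3 [8, 1] = true := by
  decide +kernel

def t34_16_95 : V3.chw 34 16 95 2 [5, 6] = true := by
  decide +kernel

def t34_17_100 : V3.chw 34 17 100 3 [8, 1] = true := by
  decide +kernel

def t34_17_101 : V3.chw 34 17 101 2 [5, 6] = true := by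
  decide +kernel

def t34_18_106 : V3.chw 34 18 106 3 [8, 1] = true := by
  decide +kernel

def t34_18_107 : V3.chw 34 18 107 5 [4] = true := by
  decide +kernel

def t34_19_112 : V3.chw 34 19 112 3 [8, 1] = true := by
  decide +kernel

def t34_19_113 : V3.chw 34 19 113 5 [4] = true := by
  decide +kernel

def t34_20_118 : V3.chw 34 20 118 3 [1010, 1017, 1025, 1026, 1028, 1031, 1033] = true := by
  decide +kernel

def t34_21_123 : V3.chw 34 21 123 2 [7, 2] = true := by
  decide +kernel

def t34_21_124 : V3.chw 34 21 124 3 [8, 1] = true := by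
  decide +kernel

def t34_22_129 : V3.chw 34 22 129 3 [8, 1] = true := by
  decide +kernel

def t34_22_130 : V3.chw 34 22 130 2 [5, 6] = true := by
  decide +kernel

def t34_23_135 : V3.chw 34 23 135 3 [8, 1] = true := by
  decide +kernel

def t34_23_136 : V3.chw 34 23 136 2 [5, 6] = true := by
  decide +kernel

def t34_24_141 : V3.chw 34 24 141 3 [8, 1] = true := by
  decide +kernel

def t34_24_142 : V3.chw 34 24 142 2 [5, 6] = true := by
  decide +kernel

def t34_25_147 : V3.chw 34 25 147 2 [1, 1, 8, 1] = true := by
  decide +kernel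

def t34_25_148 : V3.chw 34 25 148 5 [4] = true := by
  decide +kernel

def t34_26_152 : V3.chw 34 26 152 2 [7, 2] = true := by
  decide +kernel

def t34_26_153 : V3.chw 34 26 153 2 [1, 1007, 8, 1] = true := by
  decide +kernel

def t34_27_158 : V3.chw 34 27 158 2 [7, 2] = true := by
  decide +kernel

def t34_27_159 : V3.chw 34 27 159 2 [1, 1, 8, 1] = true := by
  decide +kernel

def t34_28_164 : V3.chw 34 28 164 3 [8, 1] = true := by
  decide +kernel

def t34_28_165 : V3.chw 34 28 165 2 [5, 6] = true := by
  decide +kernel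

def t34_29_170 : V3.chw 34 29 170 3 [8, 1] = true := by
  decide +kernel

def t34_29_171 : V3.chw 34 29 171 2 [5, 6] = true := by
  decide +kernel

def t34_30_176 : V3.chw 34 30 176 3 [2, 1, 6, 2] = true := by
  decide +kernel

def t34_30_177 : V3.chw 34 30 177 2 [5, 6] = true := by
  decide +kernel

def t34_31_182 : V3.chw 34 31 182 2 [5, 2, 1028, 1033] = true := by
  decide +kernel

def t34_31_183 : V3.chw 34 31 183 2 [5, 6] = true := by
  decide +kernel

def t34_32_187 : V3.chw 34 32 187 4 [6, 2] = true := by
  decide +kernel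

def t34_32_188 : V3.chw 34 32 188 2 [1, 1007, 1009, 1011, 1012, 1014, 2, 1020, 1022, 1024, 1025, 1027, 1, 1030, 1032] = true := by
  decide +kernel

def t34_33_193 : V3.chw 34 33 193 4 [5, 3] = true := by
  decide +kernel

def t34_33_194 : V3.chw 34 33 194 2 [1, 1, 8, 1] = true := by
  decide +kernel

def t34_34_199 : V3.chw 34 34 199 4 [5, 3] = true := by
  decide +kernel

def t34_34_200 : V3.chw 34 34 200 2 [5, 6] = true := by
  decide +kernel

def t34_35_205 : V3.chw 34 35 205 3 [8, 1] = true := by
  decide +kernel

def t34_35_206 : V3.chw 34 35 206 2 [5, 6] = true := by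
  decide +kernel

def t34_36_211 : V3.chw 34 36 211 3 [8, 1033] = true := by
  decide +kernel

def t34_36_212 : V3.chw 34 36 212 2 [5, 6] = true := by
  decide +kernel

def t34_37_217 : V3.chw 34 37 217 4 [2, 6, 1033] = true := by
  decide +kernel

def t34_37_218 : V3.chw 34 37 218 2 [5, 6] = true := by
  decide +kernel

def t34_38_222 : V3.chw 34 38 222 4 [5, 3] = true := by
  decide +kernel

def t34_38_223 : V3.chw 34 38 223 2 [1, 1007, 8, 1033] = true := by
  decide +kernel

def t34_39_228 : V3.chw 34 39 228 4 [5, 3] = true := by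
  decide +kernel

def t34_39_229 : V3.chw 34 39 229 2 [1, 1, 8, 1] = true := by
  decide +kernel

def t34_40_234 : V3.chw 34 40 234 4 [5, 3] = true := by
  decide +kernel

def t34_40_235 : V3.chw 34 40 235 2 [5, 6] = true := by
  decide +kernel

def t34_41_240 : V3.chw 34 41 240 2 [5, 6] = true := by
  decide +kernel

def t34_41_241 : V3.chw 34 41 241 2 [5, 6] = true := by
  decide +kernel

def t34_42_246 : V3.chw 34 42 246 2 [1, 1, 8, 1] = true := by
  decide +kernel

def t34_42_247 : V3.chw 34 42 247 2 [5, 6] = true := by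
  decide +kernel

def t34_43_252 : V3.chw 34 43 252 4 [2, 6, 1033] = true := by
  decide +kernel

def t34_43_253 : V3.chw 34 43 253 2 [5, 6] = true := by
  decide +kernel

def t34_44_257 : V3.chw 34 44 257 2 [7, 1032] = true := by
  decide +kernel

def t34_44_258 : V3.chw 34 44 258 2 [1, 1007, 1008, 1010, 1012, 1014, 1016, 1018, 1020, 1022, 1025, 1026, 1027, 1028, 1030, 1033] = true := by
  decide +kernel

def t34_45_263 : V3.chw 34 45 263 2 [7, 1032] = true := by
  decide +kernel

def t34_45_264 : V3.chw 34 45 264 4 [2, 6, 1033] = true := by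
  decide +kernel

def t34_46_269 : V3.chw 34 46 269 2 [5, 6] = true := by
  decide +kernel

def t34_46_270 : V3.chw 34 46 270 2 [5, 6] = true := by
  decide +kernel

def t34_47_275 : V3.chw 34 47 275 4 [2, 6] = true := by
  decide +kernel

def t34_47_276 : V3.chw 34 47 276 2 [5, 6] = true := by
  decide +kernel

def t34_48_281 : V3.chw 34 48 281 2 [1, 1012, 1028] = true := by
  decide +kernel

def t34_48_282 : V3.chw 34 48 282 2 [5, 6] = true := by
  decide +kernel

def t34_49_287 : V3.chw 34 49 287 2 [1, 6, 1024, 1025, 1026, 1028, 1030, 1032] = true := by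
  decide +kernel

def t34_49_288 : V3.chw 34 49 288 2 [5, 6] = true := by
  decide +kernel

def t34_50_292 : V3.chw 34 50 292 4 [6, 1032] = true := by
  decide +kernel

def t34_50_293 : V3.chw 34 50 293 2 [1, 1007, 8, 1033] = true := by
  decide +kernel

theorem R34 {K : Type*} [Field K] [CharZero K] (m d : ℕ) (h : m ≤ 50) : MR K 34 m d := by
  interval_cases m
  · exact good_cova 4 (by decide +kernel) d
  · exact good_cova 4 (by decide +kernel) d
  · exact good_cova 4 (by decide +kernel) d
  · exact good_cova 4 (by decide +kernel) d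
  · exact good_cova 4 (by decide +kernel) d
  · exact good_cova 4 (by decide +kernel) d
  · exact good_cova 4 (by decide +kernel) d
  · exact good_cova 4 (by decide +kernel) d
  · exact good_cova 4 (by decide +kernel) d
  · exact good_cova 4 (by decide +kernel) d
  · exact good_cova 4 (by decide +kernel) d
  · exact crit 65 (by decide +kernel) (V3.good_chw _ _ t34_11_65) (V3.good_chw _ _ t34_11_66) d
  · exact crit 71 (by decide +kernel) (V3.good_chw _ _ t34_12_71) (V3.good_chw _ _ t34_12_72) d
  · exact crit 77 (by decide +kernel) (V3.good_chw _ _ t34_13_77) (V3.good_chw _ _ t34_13_78) d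
  · exact crit0 83 (by decide +kernel) (V3.good_chw _ _ t34_14_83) d
  · exact crit 88 (by decide +kernel) (V3.good_chw _ _ t34_15_88) (V3.good_chw _ _ t34_15_89) d
  · exact crit 94 (by decide +kernel) (V3.good_chw _ _ t34_16_94) (V3.good_chw _ _ t34_16_95) d
  · exact crit 100 (by decide +kernel) (V3.good_chw _ _ t34_17_100) (V3.good_chw _ _ t34_17_101) d
  · exact crit 106 (by decide +kernel) (V3.good_chw _ _ t34_18_106) (V3.good_chw _ _ t34_18_107) d
  · exact crit 112 (by decide +kernel) (V3.good_chw _ _ t34_19_112) (V3.good_chw _ _ t34_19_113) d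
  · exact crit0 118 (by decide +kernel) (V3.good_chw _ _ t34_20_118) d
  · exact crit 123 (by decide +kernel) (V3.good_chw _ _ t34_21_123) (V3.good_chw _ _ t34_21_124) d
  · exact crit 129 (by decide +kernel) (V3.good_chw _ _ t34_22_129) (V3.good_chw _ _ t34_22_130) d
  · exact crit 135 (by decide +kernel) (V3.good_chw _ _ t34_23_135) (V3.good_chw _ _ t34_23_136) d
  · exact crit 141 (by decide +kernel) (V3.good_chw _ _ t34_24_141) (V3.good_chw _ _ t34_24_142) d
  · exact crit 147 (by decide +kernel) (V3.good_chw _ _ t34_25_147) (V3.good_chw _ _ t34_25_148) d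
  · exact crit 152 (by decide +kernel) (V3.good_chw _ _ t34_26_152) (V3.good_chw _ _ t34_26_153) d
  · exact crit 158 (by decide +kernel) (V3.good_chw _ _ t34_27_158) (V3.good_chw _ _ t34_27_159) d
  · exact crit 164 (by decide +kernel) (V3.good_chw _ _ t34_28_164) (V3.good_chw _ _ t34_28_165) d
  · exact crit 170 (by decide +kernel) (V3.good_chw _ _ t34_29_170) (V3.good_chw _ _ t34_29_171) d
  · exact crit 176 (by decide +kernel) (V3.good_chw _ _ t34_30_176) (V3.good_chw _ _ t34_30_177) d
  · exact crit 182 (by decide +kernel) (V3.good_chw _ _ t34_31_182) (V3.good_chw _ _ t34_31_183) d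
  · exact crit 187 (by decide +kernel) (V3.good_chw _ _ t34_32_187) (V3.good_chw _ _ t34_32_188) d
  · exact crit 193 (by decide +kernel) (V3.good_chw _ _ t34_33_193) (V3.good_chw _ _ t34_33_194) d
  · exact crit 199 (by decide +kernel) (V3.good_chw _ _ t34_34_199) (V3.good_chw _ _ t34_34_200) d
  · exact crit 205 (by decide +kernel) (V3.good_chw _ _ t34_35_205) (V3.good_chw _ _ t34_35_206) d
  · exact crit 211 (by decide +kernel) (V3.good_chw _ _ t34_36_211) (V3.good_chw _ _ t34_36_212) d
  · exact crit 217 (by decide +kernel) (V3.good_chw _ _ t34_37_217) (V3.good_chw _ _ t34_37_218) d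
  · exact crit 222 (by decide +kernel) (V3.good_chw _ _ t34_38_222) (V3.good_chw _ _ t34_38_223) d
  · exact crit 228 (by decide +kernel) (V3.good_chw _ _ t34_39_228) (V3.good_chw _ _ t34_39_229) d
  · exact crit 234 (by decide +kernel) (V3.good_chw _ _ t34_40_234) (V3.good_chw _ _ t34_40_235) d
  · exact crit 240 (by decide +kernel) (V3.good_chw _ _ t34_41_240) (V3.good_chw _ _ t34_41_241) d
  · exact crit 246 (by decide +kernel) (V3.good_chw _ _ t34_42_246) (V3.good_chw _ _ t34_42_247) d
  · exact crit 252 (by decide +kernel) (V3.good_chw _ _ t34_43_252) (V3.good_chw _ _ t34_43_253) d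
  · exact crit 257 (by decide +kernel) (V3.good_chw _ _ t34_44_257) (V3.good_chw _ _ t34_44_258) d
  · exact crit 263 (by decide +kernel) (V3.good_chw _ _ t34_45_263) (V3.good_chw _ _ t34_45_264) d
  · exact crit 269 (by decide +kernel) (V3.good_chw _ _ t34_46_269) (V3.good_chw _ _ t34_46_270) d
  · exact crit 275 (by decide +kernel) (V3.good_chw _ _ t34_47_275) (V3.good_chw _ _ t34_47_276) d
  · exact crit 281 (by decide +kernel) (V3.good_chw _ _ t34_48_281) (V3.good_chw _ _ t34_48_282) d
  · exact crit 287 (by decide +kernel) (V3.good_chw _ _ t34_49_287) (V3.good_chw _ _ t34_49_288) d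
  · exact crit 292 (by decide +kernel) (V3.good_chw _ _ t34_50_292) (V3.good_chw _ _ t34_50_293) d

end Pool.Agent.Helper54.FM
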