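import Pool.Agent.Helper54.FM.Fast3
import Pool.Agent.Helper54.FM.KC7

set_option autoImplicit false
set_option maxRecDepth 100000
set_option linter.defProp false

/-! Project FM (helper54), MP_e6aa12_ag: r = 35..41, m <= 50 (generated). -/

namespace Pool.Agent.Helper54.FM

def t35_21_125 : V3.chw 35 21 125 4 [7, 1] = true := by
  decide +kernel

def t35_21_126 : V3.chw 35 21 126 4 [7, 1] = true := by
  decide +kernel

def t35_22_131 : V3.chw 35 22 131 4 [7, 1] = true := by
  decide +kernel

def t35_22_132 : V3.chw 35 22 132 4 [7, 1] = true := by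
  decide +kernel

def t35_23_137 : V3.chw 35 23 137 4 [7, 1] = true := by
  decide +kernel

def t35_23_138 : V3.chw 35 23 138 3 [7, 3] = true := by
  decide +kernel

def t35_24_143 : V3.chw 35 24 143 4 [7, 1] = true := by
  decide +kernel

def t35_24_144 : V3.chw 35 24 144 3 [7, 3] = true := by
  decide +kernel

def t35_25_149 : V3.chw 35 25 149 4 [7, 1] = true := by
  decide +kernel

def t35_25_150 : V3.chw 35 25 150 4 [1, 7] = true := by
  decide +kernel

def t35_26_155 : V3.chw 35 26 155 4 [2, 3, 3, 1] = true := by
  decide +kernel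

def t35_26_156 : V3.chw 35 26 156 4 [1, 7] = true := by
  decide +kernel

def t35_27_161 : V3.chw 35 27 161 4 [7, 1034] = true := by
  decide +kernel

def t35_27_162 : V3.chw 35 27 162 4 [1, 7] = true := by
  decide +kernel

def t35_28_167 : V3.chw 35 28 167 5 [1026, 1029, 1033] = true := by
  decide +kernel

def t35_28_168 : V3.chw 35 28 168 4 [1, 7] = true := by
  decide +kernel

def t35_30_178 : V3.chw 35 30 178 4 [7, 1] = true := by
  decide +kernel

def t35_30_179 : V3.chw 35 30 179 3 [6, 2, 1030, 2] = true := by
  decide +kernel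

def t35_31_184 : V3.chw 35 31 184 4 [7, 1] = true := by
  decide +kernel

def t35_31_185 : V3.chw 35 31 185 5 [2, 1030, 2] = true := by
  decide +kernel

def t35_32_190 : V3.chw 35 32 190 4 [7, 1] = true := by
  decide +kernel

def t35_32_191 : V3.chw 35 32 191 2 [5, 3, 2, 2] = true := by
  decide +kernel

def t35_33_196 : V3.chw 35 33 196 4 [7, 1] = true := by
  decide +kernel

def t35_33_197 : V3.chw 35 33 197 4 [2, 1, 2, 4] = true := by
  decide +kernel

def t35_34_202 : V3.chw 35 34 202 4 [7, 1] = true := by
  decide +kernel

def t35_34_203 : V3.chw 35 34 203 4 [7, 1] = true := by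
  decide +kernel

def t35_35_208 : V3.chw 35 35 208 2 [1, 6, 5] = true := by
  decide +kernel

def t35_35_209 : V3.chw 35 35 209 4 [7, 1] = true := by
  decide +kernel

def t35_36_214 : V3.chw 35 36 214 2 [1, 6, 5] = true := by
  decide +kernel

def t35_36_215 : V3.chw 35 36 215 4 [7, 1] = true := by
  decide +kernel

def t35_37_220 : V3.chw 35 37 220 3 [1, 1, 7, 2] = true := by
  decide +kernel

def t35_37_221 : V3.chw 35 37 221 4 [7, 1] = true := by
  decide +kernel

def t35_38_226 : V3.chw 35 38 226 4 [7, 1031, 1034] = true := by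
  decide +kernel

def t35_38_227 : V3.chw 35 38 227 4 [7, 1] = true := by
  decide +kernel

def t35_39_232 : V3.chw 35 39 232 5 [1027, 1030, 2] = true := by
  decide +kernel

def t35_39_233 : V3.chw 35 39 233 4 [1, 7] = true := by
  decide +kernel

def t35_40_238 : V3.chw 35 40 238 5 [1, 1, 1, 1033] = true := by
  decide +kernel

def t35_40_239 : V3.chw 35 40 239 4 [1, 7] = true := by
  decide +kernel

def t35_41_244 : V3.chw 35 41 244 3 [3, 1020, 1024, 1, 1027, 1028, 1, 1031, 1032, 1033, 1034] = true := by
  decide +kernel

def t35_42_249 : V3.chw 35 42 249 4 [7, 1] = true := by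
  decide +kernel

def t35_42_250 : V3.chw 35 42 250 5 [2, 1030, 2] = true := by
  decide +kernel

def t35_43_255 : V3.chw 35 43 255 5 [2, 1032] = true := by
  decide +kernel

def t35_43_256 : V3.chw 35 43 256 4 [7, 1034] = true := by
  decide +kernel

def t35_44_261 : V3.chw 35 44 261 5 [2, 1032] = true := by
  decide +kernel

def t35_44_262 : V3.chw 35 44 262 4 [7, 1034] = true := by
  decide +kernel

def t35_45_267 : V3.chw 35 45 267 5 [2, 1032] = true := by
  decide +kernel

def t35_45_268 : V3.chw 35 45 268 4 [7, 1034] = true := by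
  decide +kernel

def t35_46_273 : V3.chw 35 46 273 5 [2, 1032] = true := by
  decide +kernel

def t35_46_274 : V3.chw 35 46 274 4 [7, 1034] = true := by
  decide +kernel

def t35_47_279 : V3.chw 35 47 279 5 [2, 1032] = true := by
  decide +kernel

def t35_47_280 : V3.chw 35 47 280 4 [7, 1] = true := by
  decide +kernel

def t35_48_285 : V3.chw 35 48 285 4 [7, 1034] = true := by
  decide +kernel

def t35_48_286 : V3.chw 35 48 286 5 [1027, 1032] = true := by
  decide +kernel

def t35_49_291 : V3.chw 35 49 291 4 [7, 1034] = true := by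
  decide +kernel

def t35_49_292 : V3.chw 35 49 292 5 [1027, 1032] = true := by
  decide +kernel

def t35_50_297 : V3.chw 35 50 297 4 [7, 1034] = true := by
  decide +kernel

def t35_50_298 : V3.chw 35 50 298 5 [2, 1032] = true := by
  decide +kernel

theorem R35 {K : Type*} [Field K] [CharZero K] (m d : ℕ) (h : m ≤ 50) : MR K 35 m d := by
  interval_cases m
  · exact good_cova 5 (by decide +kernel) d
  · exact good_cova 5 (by decide +kernel) d
  · exact good_cova 5 (by decide +kernel) d
  · exact good_cova 5 (by decide +kernel) d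
  · exact good_cova 5 (by decide +kernel) d
  · exact good_cova 5 (by decide +kernel) d
  · exact good_cova 5 (by decide +kernel) d
  · exact good_cova 5 (by decide +kernel) d
  · exact good_cova 5 (by decide +kernel) d
  · exact good_cova 5 (by decide +kernel) d
  · exact good_cova 5 (by decide +kernel) d
  · exact good_cova 5 (by decide +kernel) d
  · exact good_cova 5 (by decide +kernel) d
  · exact good_cova 5 (by decide +kernel) d
  · exact good_cova 5 (by decide +kernel) d
  · exact good_cova 5 (by decide +kernel) d
  · exact good_cova 5 (by decide +kernel) d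
  · exact good_cova 5 (by decide +kernel) d
  · exact good_cova 5 (by decide +kernel) d
  · exact good_cova 5 (by decide +kernel) d
  · exact good_cova 5 (by decide +kernel) d
  · exact crit 125 (by decide +kernel) (V3.good_chw _ _ t35_21_125) (V3.good_chw _ _ t35_21_126) d
  · exact crit 131 (by decide +kernel) (V3.good_chw _ _ t35_22_131) (V3.good_chw _ _ t35_22_132) d
  · exact crit 137 (by decide +kernel) (V3.good_chw _ _ t35_23_137) (V3.good_chw _ _ t35_23_138) d
  · exact crit 143 (by decide +kernel) (V3.good_chw _ _ t35_24_143) (V3.good_chw _ _ t35_24_144) d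
  · exact crit 149 (by decide +kernel) (V3.good_chw _ _ t35_25_149) (V3.good_chw _ _ t35_25_150) d
  · exact crit 155 (by decide +kernel) (V3.good_chw _ _ t35_26_155) (V3.good_chw _ _ t35_26_156) d
  · exact crit 161 (by decide +kernel) (V3.good_chw _ _ t35_27_161) (V3.good_chw _ _ t35_27_162) d
  · exact crit 167 (by decide +kernel) (V3.good_chw _ _ t35_28_167) (V3.good_chw _ _ t35_28_168) d
  · exact crit0 173 (by decide +kernel) K35m29d173.good d
  · exact crit 178 (by decide +kernel) (V3.good_chw _ _ t35_30_178) (V3.good_chw _ _ t35_30_179) d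
  · exact crit 184 (by decide +kernel) (V3.good_chw _ _ t35_31_184) (V3.good_chw _ _ t35_31_185) d
  · exact crit 190 (by decide +kernel) (V3.good_chw _ _ t35_32_190) (V3.good_chw _ _ t35_32_191) d
  · exact crit 196 (by decide +kernel) (V3.good_chw _ _ t35_33_196) (V3.good_chw _ _ t35_33_197) d
  · exact crit 202 (by decide +kernel) (V3.good_chw _ _ t35_34_202) (V3.good_chw _ _ t35_34_203) d
  · exact crit 208 (by decide +kernel) (V3.good_chw _ _ t35_35_208) (V3.good_chw _ _ t35_35_209) d
  · exact crit 214 (by decide +kernel) (V3.good_chw _ _ t35_36_214) (V3.good_chw _ _ t35_36_215) d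
  · exact crit 220 (by decide +kernel) (V3.good_chw _ _ t35_37_220) (V3.good_chw _ _ t35_37_221) d
  · exact crit 226 (by decide +kernel) (V3.good_chw _ _ t35_38_226) (V3.good_chw _ _ t35_38_227) d
  · exact crit 232 (by decide +kernel) (V3.good_chw _ _ t35_39_232) (V3.good_chw _ _ t35_39_233) d
  · exact crit 238 (by decide +kernel) (V3.good_chw _ _ t35_40_238) (V3.good_chw _ _ t35_40_239) d
  · exact crit0 244 (by decide +kernel) (V3.good_chw _ _ t35_41_244) d
  · exact crit 249 (by decide +kernel) (V3.good_chw _ _ t35_42_249) (V3.good_chw _ _ t35_42_250) d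
  · exact crit 255 (by decide +kernel) (V3.good_chw _ _ t35_43_255) (V3.good_chw _ _ t35_43_256) d
  · exact crit 261 (by decide +kernel) (V3.good_chw _ _ t35_44_261) (V3.good_chw _ _ t35_44_262) d
  · exact crit 267 (by decide +kernel) (V3.good_chw _ _ t35_45_267) (V3.good_chw _ _ t35_45_268) d
  · exact crit 273 (by decide +kernel) (V3.good_chw _ _ t35_46_273) (V3.good_chw _ _ t35_46_274) d
  · exact crit 279 (by decide +kernel) (V3.good_chw _ _ t35_47_279) (V3.good_chw _ _ t35_47_280) d
  · exact crit 285 (by decide +kernel) (V3.good_chw _ _ t35_48_285) (V3.good_chw _ _ t35_48_286) d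
  · exact crit 291 (by decide +kernel) (V3.good_chw _ _ t35_49_291) (V3.good_chw _ _ t35_49_292) d
  · exact crit 297 (by decide +kernel) (V3.good_chw _ _ t35_50_297) (V3.good_chw _ _ t35_50_298) d

theorem R36 {K : Type*} [Field K] [CharZero K] (m d : ℕ) (h : m ≤ 50) : MR K 36 m d := by
  interval_cases m
  · exact good_cova 6 (by decide +kernel) d
  · exact good_cova 6 (by decide +kernel) d
  · exact good_cova 6 (by decide +kernel) d
  · exact good_cova 6 (by decide +kernel) d
  · exact good_cova 6 (by decide +kernel) d
  · exact good_cova 6 (by decide +kernel) d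
  · exact good_cova 6 (by decide +kernel) d
  · exact good_cova 6 (by decide +kernel) d
  · exact good_cova 6 (by decide +kernel) d
  · exact good_cova 6 (by decide +kernel) d
  · exact good_cova 6 (by decide +kernel) d
  · exact good_cova 6 (by decide +kernel) d
  · exact good_cova 6 (by decide +kernel) d
  · exact good_cova 6 (by decide +kernel) d
  · exact good_cova 6 (by decide +kernel) d
  · exact good_cova 6 (by decide +kernel) d
  · exact good_cova 6 (by decide +kernel) d
  · exact good_cova 6 (by decide +kernel) d
  · exact good_cova 6 (by decide +kernel) d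
  · exact good_cova 6 (by decide +kernel) d
  · exact good_cova 6 (by decide +kernel) d
  · exact good_cova 6 (by decide +kernel) d
  · exact good_cova 6 (by decide +kernel) d
  · exact good_cova 6 (by decide +kernel) d
  · exact good_cova 6 (by decide +kernel) d
  · exact good_cova 6 (by decide +kernel) d
  · exact good_cova 6 (by decide +kernel) d
  · exact good_cova 6 (by decide +kernel) d
  · exact good_cova 6 (by decide +kernel) d
  · exact good_cova 6 (by decide +kernel) d
  · exact good_cova 6 (by decide +kernel) d
  · exact good_cova 6 (by decide +kernel) d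
  · exact good_cova 6 (by decide +kernel) d
  · exact good_cova 6 (by decide +kernel) d
  · exact good_cova 6 (by decide +kernel) d
  · exact good_cova 6 (by decide +kernel) d
  · exact good_cova 6 (by decide +kernel) d
  · exact good_cova 6 (by decide +kernel) d
  · exact good_cova 6 (by decide +kernel) d
  · exact good_cova 6 (by decide +kernel) d
  · exact good_cova 6 (by decide +kernel) d
  · exact good_cova 6 (by decide +kernel) d
  · exact good_cova 6 (by decide +kernel) d
  · exact good_cova 6 (by decide +kernel) d
  · exact good_cova 6 (by decide +kernel) d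
  · exact good_cova 6 (by decide +kernel) d
  · exact good_cova 6 (by decide +kernel) d
  · exact good_cova 6 (by decide +kernel) d
  · exact good_cova 6 (by decide +kernel) d
  · exact good_cova 6 (by decide +kernel) d
  · exact good_cova 6 (by decide +kernel) d

def t37_21_129 : V3.chw 37 21 129 3 [1, 8, 2] = true := by
  decide +kernel

def t37_21_130 : V3.chw 37 21 130 2 [1, 9] = true := by
  decide +kernel

def t37_22_135 : V3.chw 37 22 135 3 [7, 4] = true := by
  decide +kernel

def t37_22_136 : V3.chw 37 22 136 2 [1, 9] = true := by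
  decide +kernel

def t37_23_141 : V3.chw 37 23 141 3 [7, 4] = true := by
  decide +kernel

def t37_23_142 : V3.chw 37 23 142 2 [1, 9] = true := by
  decide +kernel

def t37_24_147 : V3.chw 37 24 147 4 [7, 2] = true := by
  decide +kernel

def t37_24_148 : V3.chw 37 24 148 2 [1, 9] = true := by
  decide +kernel

def t37_25_153 : V3.chw 37 25 153 4 [7, 2] = true := by
  decide +kernel

def t37_25_154 : V3.chw 37 25 154 2 [3, 9] = true := by
  decide +kernel

def t37_26_159 : V3.chw 37 26 159 4 [7, 2] = true := by
  decide +kernel

def t37_26_160 : V3.chw 37 26 160 2 [3, 9] = true := by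
  decide +kernel

def t37_27_165 : V3.chw 37 27 165 4 [7, 2] = true := by
  decide +kernel

def t37_27_166 : V3.chw 37 27 166 3 [1, 8, 2] = true := by
  decide +kernel

def t37_28_171 : V3.chw 37 28 171 4 [7, 2] = true := by
  decide +kernel

def t37_28_172 : V3.chw 37 28 172 3 [1, 3, 1, 1, 3, 4] = true := by
  decide +kernel

def t37_29_177 : V3.chw 37 29 177 4 [7, 2] = true := by
  decide +kernel

def t37_29_178 : V3.chw 37 29 178 4 [7, 1034, 1036] = true := by
  decide +kernel

def t37_31_190 : V3.chw 37 31 190 4 [7, 1034, 1036] = true := by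
  decide +kernel

def t37_31_191 : V3.chw 37 31 191 2 [1, 9] = true := by
  decide +kernel

def t37_32_196 : V3.chw 37 32 196 4 [7, 1032, 1035] = true := by
  decide +kernel

def t37_32_197 : V3.chw 37 32 197 2 [1, 9] = true := by
  decide +kernel

def t37_33_202 : V3.chw 37 33 202 3 [1, 8, 2] = true := by
  decide +kernel

def t37_33_203 : V3.chw 37 33 203 2 [1, 9] = true := by
  decide +kernel

def t37_34_208 : V3.chw 37 34 208 3 [7, 4] = true := by
  decide +kernel

def t37_34_209 : V3.chw 37 34 209 2 [1, 9] = true := by
  decide +kernel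

def t37_35_214 : V3.chw 37 35 214 3 [7, 4] = true := by
  decide +kernel

def t37_35_215 : V3.chw 37 35 215 2 [3, 9] = true := by
  decide +kernel

def t37_36_220 : V3.chw 37 36 220 3 [7, 4] = true := by
  decide +kernel

def t37_36_221 : V3.chw 37 36 221 2 [3, 9] = true := by
  decide +kernel

def t37_37_226 : V3.chw 37 37 226 3 [7, 4] = true := by
  decide +kernel

def t37_37_227 : V3.chw 37 37 227 3 [7, 4] = true := by
  decide +kernel

def t37_38_232 : V3.chw 37 38 232 3 [7, 4] = true := by
  decide +kernel

def t37_38_233 : V3.chw 37 38 233 3 [7, 4] = true := by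
  decide +kernel

def t37_39_238 : V3.chw 37 39 238 3 [7, 4] = true := by
  decide +kernel

def t37_39_239 : V3.chw 37 39 239 3 [1, 8, 2] = true := by
  decide +kernel

def t37_40_244 : V3.chw 37 40 244 3 [7, 4] = true := by
  decide +kernel

def t37_40_245 : V3.chw 37 40 245 4 [7, 1033, 1035] = true := by
  decide +kernel

def t37_41_250 : V3.chw 37 41 250 4 [7, 2] = true := by
  decide +kernel

def t37_41_251 : V3.chw 37 41 251 5 [1026, 1029, 1032, 1033, 1035] = true := by
  decide +kernel

def t37_42_257 : V3.chw 37 42 257 3 [4, 2, 1023, 1024, 1026, 1027, 1028, 1030, 1031, 1032, 1, 1035, 1036] = true := by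
  decide +kernel

def t37_43_263 : V3.chw 37 43 263 3 [4, 1, 1021, 1028, 1036] = true := by
  decide +kernel

def t37_43_264 : V3.chw 37 43 264 2 [1, 9] = true := by
  decide +kernel

def t37_44_269 : V3.chw 37 44 269 4 [7, 1034, 1] = true := by
  decide +kernel

def t37_44_270 : V3.chw 37 44 270 2 [1, 9] = true := by
  decide +kernel

def t37_45_275 : V3.chw 37 45 275 4 [7, 1035, 1036] = true := by
  decide +kernel

def t37_45_276 : V3.chw 37 45 276 2 [3, 9] = true := by
  decide +kernel

def t37_46_281 : V3.chw 37 46 281 3 [7, 4] = true := by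
  decide +kernel

def t37_46_282 : V3.chw 37 46 282 2 [3, 9] = true := by
  decide +kernel

def t37_47_287 : V3.chw 37 47 287 3 [7, 4] = true := by
  decide +kernel

def t37_47_288 : V3.chw 37 47 288 3 [7, 4] = true := by
  decide +kernel

def t37_48_293 : V3.chw 37 48 293 3 [7, 4] = true := by
  decide +kernel

def t37_48_294 : V3.chw 37 48 294 3 [7, 4] = true := by
  decide +kernel

def t37_49_299 : V3.chw 37 49 299 3 [7, 4] = true := by
  decide +kernel

def t37_49_300 : V3.chw 37 49 300 3 [7, 4] = true := by
  decide +kernel

def t37_50_305 : V3.chw 37 50 305 3 [7, 4] = true := by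
  decide +kernel

def t37_50_306 : V3.chw 37 50 306 3 [7, 4] = true := by
  decide +kernel

theorem R37 {K : Type*} [Field K] [CharZero K] (m d : ℕ) (h : m ≤ 50) : MR K 37 m d := by
  interval_cases m
  · exact good_cova 5 (by decide +kernel) d
  · exact good_cova 5 (by decide +kernel) d
  · exact good_cova 5 (by decide +kernel) d
  · exact good_cova 5 (by decide +kernel) d
  · exact good_cova 5 (by decide +kernel) d
  · exact good_cova 5 (by decide +kernel) d
  · exact good_cova 5 (by decide +kernel) d
  · exact good_cova 5 (by decide +kernel) d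
  · exact good_cova 5 (by decide +kernel) d
  · exact good_cova 5 (by decide +kernel) d
  · exact good_cova 5 (by decide +kernel) d
  · exact good_cova 5 (by decide +kernel) d
  · exact good_cova 5 (by decide +kernel) d
  · exact good_cova 5 (by decide +kernel) d
  · exact good_cova 5 (by decide +kernel) d
  · exact good_cova 5 (by decide +kernel) d
  · exact good_cova 5 (by decide +kernel) d
  · exact good_cova 5 (by decide +kernel) d
  · exact good_cova 5 (by decide +kernel) d
  · exact good_cova 5 (by decide +kernel) d
  · exact good_cova 5 (by decide +kernel) d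
  · exact crit 129 (by decide +kernel) (V3.good_chw _ _ t37_21_129) (V3.good_chw _ _ t37_21_130) d
  · exact crit 135 (by decide +kernel) (V3.good_chw _ _ t37_22_135) (V3.good_chw _ _ t37_22_136) d
  · exact crit 141 (by decide +kernel) (V3.good_chw _ _ t37_23_141) (V3.good_chw _ _ t37_23_142) d
  · exact crit 147 (by decide +kernel) (V3.good_chw _ _ t37_24_147) (V3.good_chw _ _ t37_24_148) d
  · exact crit 153 (by decide +kernel) (V3.good_chw _ _ t37_25_153) (V3.good_chw _ _ t37_25_154) d
  · exact crit 159 (by decide +kernel) (V3.good_chw _ _ t37_26_159) (V3.good_chw _ _ t37_26_160) d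
  · exact crit 165 (by decide +kernel) (V3.good_chw _ _ t37_27_165) (V3.good_chw _ _ t37_27_166) d
  · exact crit 171 (by decide +kernel) (V3.good_chw _ _ t37_28_171) (V3.good_chw _ _ t37_28_172) d
  · exact crit 177 (by decide +kernel) (V3.good_chw _ _ t37_29_177) (V3.good_chw _ _ t37_29_178) d
  · exact crit0 184 (by decide +kernel) K37m30d184.good d
  · exact crit 190 (by decide +kernel) (V3.good_chw _ _ t37_31_190) (V3.good_chw _ _ t37_31_191) d
  · exact crit 196 (by decide +kernel) (V3.good_chw _ _ t37_32_196) (V3.good_chw _ _ t37_32_197) d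
  · exact crit 202 (by decide +kernel) (V3.good_chw _ _ t37_33_202) (V3.good_chw _ _ t37_33_203) d
  · exact crit 208 (by decide +kernel) (V3.good_chw _ _ t37_34_208) (V3.good_chw _ _ t37_34_209) d
  · exact crit 214 (by decide +kernel) (V3.good_chw _ _ t37_35_214) (V3.good_chw _ _ t37_35_215) d
  · exact crit 220 (by decide +kernel) (V3.good_chw _ _ t37_36_220) (V3.good_chw _ _ t37_36_221) d
  · exact crit 226 (by decide +kernel) (V3.good_chw _ _ t37_37_226) (V3.good_chw _ _ t37_37_227) d
  · exact crit 232 (by decide +kernel) (V3.good_chw _ _ t37_38_232) (V3.good_chw _ _ t37_38_233) d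
  · exact crit 238 (by decide +kernel) (V3.good_chw _ _ t37_39_238) (V3.good_chw _ _ t37_39_239) d
  · exact crit 244 (by decide +kernel) (V3.good_chw _ _ t37_40_244) (V3.good_chw _ _ t37_40_245) d
  · exact crit 250 (by decide +kernel) (V3.good_chw _ _ t37_41_250) (V3.good_chw _ _ t37_41_251) d
  · exact crit0 257 (by decide +kernel) (V3.good_chw _ _ t37_42_257) d
  · exact crit 263 (by decide +kernel) (V3.good_chw _ _ t37_43_263) (V3.good_chw _ _ t37_43_264) d
  · exact crit 269 (by decide +kernel) (V3.good_chw _ _ t37_44_269) (V3.good_chw _ _ t37_44_270) d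
  · exact crit 275 (by decide +kernel) (V3.good_chw _ _ t37_45_275) (V3.good_chw _ _ t37_45_276) d
  · exact crit 281 (by decide +kernel) (V3.good_chw _ _ t37_46_281) (V3.good_chw _ _ t37_46_282) d
  · exact crit 287 (by decide +kernel) (V3.good_chw _ _ t37_47_287) (V3.good_chw _ _ t37_47_288) d
  · exact crit 293 (by decide +kernel) (V3.good_chw _ _ t37_48_293) (V3.good_chw _ _ t37_48_294) d
  · exact crit 299 (by decide +kernel) (V3.good_chw _ _ t37_49_299) (V3.good_chw _ _ t37_49_300) d
  · exact crit 305 (by decide +kernel) (V3.good_chw _ _ t37_50_305) (V3.good_chw _ _ t37_50_306) d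

def t38_37_229 : V3.chw 38 37 229 6 [1] = true := by
  decide +kernel

def t38_37_230 : V3.chw 38 37 230 6 [1] = true := by
  decide +kernel

def t38_38_235 : V3.chw 38 38 235 6 [1] = true := by
  decide +kernel

def t38_38_236 : V3.chw 38 38 236 6 [1] = true := by
  decide +kernel

def t38_39_241 : V3.chw 38 39 241 6 [1] = true := by
  decide +kernel

def t38_39_242 : V3.chw 38 39 242 6 [1] = true := by
  decide +kernel

def t38_40_248 : V3.chw 38 40 248 6 [1] = true := by
  decide +kernel

def t38_40_249 : V3.chw 38 40 249 6 [1] = true := by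
  decide +kernel

def t38_41_254 : V3.chw 38 41 254 6 [1] = true := by
  decide +kernel

def t38_41_255 : V3.chw 38 41 255 6 [1] = true := by
  decide +kernel

def t38_42_260 : V3.chw 38 42 260 6 [1] = true := by
  decide +kernel

def t38_42_261 : V3.chw 38 42 261 6 [1] = true := by
  decide +kernel

def t38_43_266 : V3.chw 38 43 266 6 [1] = true := by
  decide +kernel

def t38_43_267 : V3.chw 38 43 267 6 [1] = true := by
  decide +kernel

def t38_44_272 : V3.chw 38 44 272 6 [1] = true := by
  decide +kernel

def t38_44_273 : V3.chw 38 44 273 6 [1] = true := by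
  decide +kernel

def t38_45_278 : V3.chw 38 45 278 6 [1] = true := by
  decide +kernel

def t38_45_279 : V3.chw 38 45 279 6 [1] = true := by
  decide +kernel

def t38_46_285 : V3.chw 38 46 285 6 [1] = true := by
  decide +kernel

def t38_46_286 : V3.chw 38 46 286 6 [1] = true := by
  decide +kernel

def t38_47_291 : V3.chw 38 47 291 6 [1] = true := by
  decide +kernel

def t38_47_292 : V3.chw 38 47 292 6 [1] = true := by
  decide +kernel

def t38_48_297 : V3.chw 38 48 297 6 [1] = true := by
  decide +kernel

def t38_48_298 : V3.chw 38 48 298 6 [1] = true := by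
  decide +kernel

def t38_49_303 : V3.chw 38 49 303 6 [1] = true := by
  decide +kernel

def t38_49_304 : V3.chw 38 49 304 6 [1] = true := by
  decide +kernel

def t38_50_309 : V3.chw 38 50 309 6 [1] = true := by
  decide +kernel

def t38_50_310 : V3.chw 38 50 310 6 [1] = true := by
  decide +kernel

theorem R38 {K : Type*} [Field K] [CharZero K] (m d : ℕ) (h : m ≤ 50) : MR K 38 m d := by
  interval_cases m
  · exact good_cova 6 (by decide +kernel) d
  · exact good_cova 6 (by decide +kernel) d
  · exact good_cova 6 (by decide +kernel) d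
  · exact good_cova 6 (by decide +kernel) d
  · exact good_cova 6 (by decide +kernel) d
  · exact good_cova 6 (by decide +kernel) d
  · exact good_cova 6 (by decide +kernel) d
  · exact good_cova 6 (by decide +kernel) d
  · exact good_cova 6 (by decide +kernel) d
  · exact good_cova 6 (by decide +kernel) d
  · exact good_cova 6 (by decide +kernel) d
  · exact good_cova 6 (by decide +kernel) d
  · exact good_cova 6 (by decide +kernel) d
  · exact good_cova 6 (by decide +kernel) d
  · exact good_cova 6 (by decide +kernel) d
  · exact good_cova 6 (by decide +kernel) d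
  · exact good_cova 6 (by decide +kernel) d
  · exact good_cova 6 (by decide +kernel) d
  · exact good_cova 6 (by decide +kernel) d
  · exact good_cova 6 (by decide +kernel) d
  · exact good_cova 6 (by decide +kernel) d
  · exact good_cova 6 (by decide +kernel) d
  · exact good_cova 6 (by decide +kernel) d
  · exact good_cova 6 (by decide +kernel) d
  · exact good_cova 6 (by decide +kernel) d
  · exact good_cova 6 (by decide +kernel) d
  · exact good_cova 6 (by decide +kernel) d
  · exact good_cova 6 (by decide +kernel) d
  · exact good_cova 6 (by decide +kernel) d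
  · exact good_cova 6 (by decide +kernel) d
  · exact good_cova 6 (by decide +kernel) d
  · exact good_cova 6 (by decide +kernel) d
  · exact good_cova 6 (by decide +kernel) d
  · exact good_cova 6 (by decide +kernel) d
  · exact good_cova 6 (by decide +kernel) d
  · exact good_cova 6 (by decide +kernel) d
  · exact good_cova 6 (by decide +kernel) d
  · exact crit 229 (by decide +kernel) (V3.good_chw _ _ t38_37_229) (V3.good_chw _ _ t38_37_230) d
  · exact crit 235 (by decide +kernel) (V3.good_chw _ _ t38_38_235) (V3.good_chw _ _ t38_38_236) d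
  · exact crit 241 (by decide +kernel) (V3.good_chw _ _ t38_39_241) (V3.good_chw _ _ t38_39_242) d
  · exact crit 248 (by decide +kernel) (V3.good_chw _ _ t38_40_248) (V3.good_chw _ _ t38_40_249) d
  · exact crit 254 (by decide +kernel) (V3.good_chw _ _ t38_41_254) (V3.good_chw _ _ t38_41_255) d
  · exact crit 260 (by decide +kernel) (V3.good_chw _ _ t38_42_260) (V3.good_chw _ _ t38_42_261) d
  · exact crit 266 (by decide +kernel) (V3.good_chw _ _ t38_43_266) (V3.good_chw _ _ t38_43_267) d
  · exact crit 272 (by decide +kernel) (V3.good_chw _ _ t38_44_272) (V3.good_chw _ _ t38_44_273) d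
  · exact crit 278 (by decide +kernel) (V3.good_chw _ _ t38_45_278) (V3.good_chw _ _ t38_45_279) d
  · exact crit 285 (by decide +kernel) (V3.good_chw _ _ t38_46_285) (V3.good_chw _ _ t38_46_286) d
  · exact crit 291 (by decide +kernel) (V3.good_chw _ _ t38_47_291) (V3.good_chw _ _ t38_47_292) d
  · exact crit 297 (by decide +kernel) (V3.good_chw _ _ t38_48_297) (V3.good_chw _ _ t38_48_298) d
  · exact crit 303 (by decide +kernel) (V3.good_chw _ _ t38_49_303) (V3.good_chw _ _ t38_49_304) d
  · exact crit 309 (by decide +kernel) (V3.good_chw _ _ t38_50_309) (V3.good_chw _ _ t38_50_310) d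

def t39_20_126 : V3.chw 39 20 126 2 [1, 9, 1] = true := by
  decide +kernel

def t39_20_127 : V3.chw 39 20 127 4 [9] = true := by
  decide +kernel

def t39_21_132 : V3.chw 39 21 132 4 [7, 3] = true := by
  decide +kernel

def t39_21_133 : V3.chw 39 21 133 3 [3, 9] = true := by
  decide +kernel

def t39_22_138 : V3.chw 39 22 138 4 [9] = true := by
  decide +kernel

def t39_22_139 : V3.chw 39 22 139 4 [3, 1023, 6, 1038] = true := by
  decide +kernel

def t39_23_145 : V3.chw 39 23 145 4 [9, 1038] = true := by
  decide +kernel

def t39_23_146 : V3.chw 39 23 146 4 [9] = true := by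
  decide +kernel

def t39_24_151 : V3.chw 39 24 151 2 [1, 9, 1] = true := by
  decide +kernel

def t39_24_152 : V3.chw 39 24 152 4 [9] = true := by
  decide +kernel

def t39_25_157 : V3.chw 39 25 157 2 [7, 4] = true := by
  decide +kernel

def t39_25_158 : V3.chw 39 25 158 3 [3, 9] = true := by
  decide +kernel

def t39_26_163 : V3.chw 39 26 163 4 [9] = true := by
  decide +kernel

def t39_26_164 : V3.chw 39 26 164 4 [3, 1023, 6, 1038] = true := by
  decide +kernel

def t39_27_170 : V3.chw 39 27 170 3 [7, 4, 1] = true := by
  decide +kernel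

def t39_27_171 : V3.chw 39 27 171 4 [9] = true := by
  decide +kernel

def t39_28_176 : V3.chw 39 28 176 3 [7, 3, 2] = true := by
  decide +kernel

def t39_28_177 : V3.chw 39 28 177 4 [9] = true := by
  decide +kernel

def t39_29_182 : V3.chw 39 29 182 3 [3, 9] = true := by
  decide +kernel

def t39_29_183 : V3.chw 39 29 183 3 [3, 9] = true := by
  decide +kernel

def t39_30_188 : V3.chw 39 30 188 4 [9] = true := by
  decide +kernel

def t39_30_189 : V3.chw 39 30 189 4 [7, 1, 1037, 1038] = true := by
  decide +kernel

def t39_31_195 : V3.chw 39 31 195 4 [7, 1035, 1038] = true := by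
  decide +kernel

def t39_31_196 : V3.chw 39 31 196 4 [9] = true := by
  decide +kernel

def t39_32_201 : V3.chw 39 32 201 2 [1, 7, 5] = true := by
  decide +kernel

def t39_32_202 : V3.chw 39 32 202 4 [9] = true := by
  decide +kernel

def t39_33_207 : V3.chw 39 33 207 3 [3, 9] = true := by
  decide +kernel

def t39_33_208 : V3.chw 39 33 208 3 [3, 9] = true := by
  decide +kernel

def t39_34_213 : V3.chw 39 34 213 4 [9] = true := by
  decide +kernel

def t39_34_214 : V3.chw 39 34 214 5 [1, 2, 1, 1036] = true := by
  decide +kernel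

def t39_35_220 : V3.chw 39 35 220 4 [9, 1038] = true := by
  decide +kernel

def t39_35_221 : V3.chw 39 35 221 4 [9] = true := by
  decide +kernel

def t39_36_226 : V3.chw 39 36 226 3 [7, 4, 1] = true := by
  decide +kernel

def t39_36_227 : V3.chw 39 36 227 4 [9] = true := by
  decide +kernel

def t39_37_232 : V3.chw 39 37 232 3 [3, 9] = true := by
  decide +kernel

def t39_37_233 : V3.chw 39 37 233 3 [3, 9] = true := by
  decide +kernel

def t39_38_238 : V3.chw 39 38 238 4 [9] = true := by
  decide +kernel

def t39_38_239 : V3.chw 39 38 239 4 [7, 1033, 1035, 1] = true := by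
  decide +kernel

def t39_39_245 : V3.chw 39 39 245 5 [1, 2, 1033, 2] = true := by
  decide +kernel

def t39_39_246 : V3.chw 39 39 246 4 [9] = true := by
  decide +kernel

def t39_40_251 : V3.chw 39 40 251 2 [1, 7, 5] = true := by
  decide +kernel

def t39_40_252 : V3.chw 39 40 252 4 [9] = true := by
  decide +kernel

def t39_41_257 : V3.chw 39 41 257 3 [3, 9] = true := by
  decide +kernel

def t39_41_258 : V3.chw 39 41 258 3 [3, 9] = true := by
  decide +kernel

def t39_42_263 : V3.chw 39 42 263 4 [9] = true := by
  decide +kernel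

def t39_42_264 : V3.chw 39 42 264 4 [7, 1, 1037, 1038] = true := by
  decide +kernel

def t39_43_270 : V3.chw 39 43 270 4 [7, 1033, 1035, 1] = true := by
  decide +kernel

def t39_43_271 : V3.chw 39 43 271 4 [9] = true := by
  decide +kernel

def t39_44_276 : V3.chw 39 44 276 4 [9, 1036] = true := by
  decide +kernel

def t39_44_277 : V3.chw 39 44 277 4 [9] = true := by
  decide +kernel

def t39_45_282 : V3.chw 39 45 282 5 [3, 1035] = true := by
  decide +kernel

def t39_45_283 : V3.chw 39 45 283 3 [3, 9] = true := by
  decide +kernel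

def t39_46_288 : V3.chw 39 46 288 4 [9] = true := by
  decide +kernel

def t39_46_289 : V3.chw 39 46 289 2 [1, 1, 2, 1014, 1015, 1016, 2, 1021, 1, 1024, 1025, 1, 1, 1, 1034, 1037, 1038] = true := by
  decide +kernel

def t39_47_295 : V3.chw 39 47 295 4 [7, 1034, 1, 1038] = true := by
  decide +kernel

def t39_47_296 : V3.chw 39 47 296 4 [9] = true := by
  decide +kernel

def t39_48_301 : V3.chw 39 48 301 4 [9, 1038] = true := by
  decide +kernel

def t39_48_302 : V3.chw 39 48 302 4 [9] = true := by
  decide +kernel

def t39_49_307 : V3.chw 39 49 307 5 [3, 1035] = true := by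
  decide +kernel

def t39_49_308 : V3.chw 39 49 308 3 [3, 9] = true := by
  decide +kernel

def t39_50_313 : V3.chw 39 50 313 4 [9] = true := by
  decide +kernel

def t39_50_314 : V3.chw 39 50 314 3 [7, 4, 1038] = true := by
  decide +kernel

theorem R39 {K : Type*} [Field K] [CharZero K] (m d : ℕ) (h : m ≤ 50) : MR K 39 m d := by
  interval_cases m
  · exact good_cova 5 (by decide +kernel) d
  · exact good_cova 5 (by decide +kernel) d
  · exact good_cova 5 (by decide +kernel) d
  · exact good_cova 5 (by decide +kernel) d
  · exact good_cova 5 (by decide +kernel) d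
  · exact good_cova 5 (by decide +kernel) d
  · exact good_cova 5 (by decide +kernel) d
  · exact good_cova 5 (by decide +kernel) d
  · exact good_cova 5 (by decide +kernel) d
  · exact good_cova 5 (by decide +kernel) d
  · exact good_cova 5 (by decide +kernel) d
  · exact good_cova 5 (by decide +kernel) d
  · exact good_cova 5 (by decide +kernel) d
  · exact good_cova 5 (by decide +kernel) d
  · exact good_cova 5 (by decide +kernel) d
  · exact good_cova 5 (by decide +kernel) d
  · exact good_cova 5 (by decide +kernel) d
  · exact good_cova 5 (by decide +kernel) d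
  · exact good_cova 5 (by decide +kernel) d
  · exact good_cova 5 (by decide +kernel) d
  · exact crit 126 (by decide +kernel) (V3.good_chw _ _ t39_20_126) (V3.good_chw _ _ t39_20_127) d
  · exact crit 132 (by decide +kernel) (V3.good_chw _ _ t39_21_132) (V3.good_chw _ _ t39_21_133) d
  · exact crit 138 (by decide +kernel) (V3.good_chw _ _ t39_22_138) (V3.good_chw _ _ t39_22_139) d
  · exact crit 145 (by decide +kernel) (V3.good_chw _ _ t39_23_145) (V3.good_chw _ _ t39_23_146) d
  · exact crit 151 (by decide +kernel) (V3.good_chw _ _ t39_24_151) (V3.good_chw _ _ t39_24_152) d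
  · exact crit 157 (by decide +kernel) (V3.good_chw _ _ t39_25_157) (V3.good_chw _ _ t39_25_158) d
  · exact crit 163 (by decide +kernel) (V3.good_chw _ _ t39_26_163) (V3.good_chw _ _ t39_26_164) d
  · exact crit 170 (by decide +kernel) (V3.good_chw _ _ t39_27_170) (V3.good_chw _ _ t39_27_171) d
  · exact crit 176 (by decide +kernel) (V3.good_chw _ _ t39_28_176) (V3.good_chw _ _ t39_28_177) d
  · exact crit 182 (by decide +kernel) (V3.good_chw _ _ t39_29_182) (V3.good_chw _ _ t39_29_183) d
  · exact crit 188 (by decide +kernel) (V3.good_chw _ _ t39_30_188) (V3.good_chw _ _ t39_30_189) d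
  · exact crit 195 (by decide +kernel) (V3.good_chw _ _ t39_31_195) (V3.good_chw _ _ t39_31_196) d
  · exact crit 201 (by decide +kernel) (V3.good_chw _ _ t39_32_201) (V3.good_chw _ _ t39_32_202) d
  · exact crit 207 (by decide +kernel) (V3.good_chw _ _ t39_33_207) (V3.good_chw _ _ t39_33_208) d
  · exact crit 213 (by decide +kernel) (V3.good_chw _ _ t39_34_213) (V3.good_chw _ _ t39_34_214) d
  · exact crit 220 (by decide +kernel) (V3.good_chw _ _ t39_35_220) (V3.good_chw _ _ t39_35_221) d
  · exact crit 226 (by decide +kernel) (V3.good_chw _ _ t39_36_226) (V3.good_chw _ _ t39_36_227) d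
  · exact crit 232 (by decide +kernel) (V3.good_chw _ _ t39_37_232) (V3.good_chw _ _ t39_37_233) d
  · exact crit 238 (by decide +kernel) (V3.good_chw _ _ t39_38_238) (V3.good_chw _ _ t39_38_239) d
  · exact crit 245 (by decide +kernel) (V3.good_chw _ _ t39_39_245) (V3.good_chw _ _ t39_39_246) d
  · exact crit 251 (by decide +kernel) (V3.good_chw _ _ t39_40_251) (V3.good_chw _ _ t39_40_252) d
  · exact crit 257 (by decide +kernel) (V3.good_chw _ _ t39_41_257) (V3.good_chw _ _ t39_41_258) d
  · exact crit 263 (by decide +kernel) (V3.good_chw _ _ t39_42_263) (V3.good_chw _ _ t39_42_264) d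
  · exact crit 270 (by decide +kernel) (V3.good_chw _ _ t39_43_270) (V3.good_chw _ _ t39_43_271) d
  · exact crit 276 (by decide +kernel) (V3.good_chw _ _ t39_44_276) (V3.good_chw _ _ t39_44_277) d
  · exact crit 282 (by decide +kernel) (V3.good_chw _ _ t39_45_282) (V3.good_chw _ _ t39_45_283) d
  · exact crit 288 (by decide +kernel) (V3.good_chw _ _ t39_46_288) (V3.good_chw _ _ t39_46_289) d
  · exact crit 295 (by decide +kernel) (V3.good_chw _ _ t39_47_295) (V3.good_chw _ _ t39_47_296) d
  · exact crit 301 (by decide +kernel) (V3.good_chw _ _ t39_48_301) (V3.good_chw _ _ t39_48_302) d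
  · exact crit 307 (by decide +kernel) (V3.good_chw _ _ t39_49_307) (V3.good_chw _ _ t39_49_308) d
  · exact crit 313 (by decide +kernel) (V3.good_chw _ _ t39_50_313) (V3.good_chw _ _ t39_50_314) d

def t40_34_216 : V3.chw 40 34 216 6 [2] = true := by
  decide +kernel

def t40_34_217 : V3.chw 40 34 217 3 [10] = true := by
  decide +kernel

def t40_35_223 : V3.chw 40 35 223 6 [1033, 1, 1] = true := by
  decide +kernel

def t40_36_229 : V3.chw 40 36 229 6 [1, 1] = true := by
  decide +kernel

def t40_36_230 : V3.chw 40 36 230 3 [10] = true := by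
  decide +kernel

def t40_37_235 : V3.chw 40 37 235 6 [2] = true := by
  decide +kernel

def t40_37_236 : V3.chw 40 37 236 3 [10] = true := by
  decide +kernel

def t40_38_241 : V3.chw 40 38 241 6 [2] = true := by
  decide +kernel

def t40_38_242 : V3.chw 40 38 242 6 [1, 1] = true := by
  decide +kernel

def t40_39_248 : V3.chw 40 39 248 6 [1, 1] = true := by
  decide +kernel

def t40_39_249 : V3.chw 40 39 249 3 [10] = true := by
  decide +kernel

def t40_40_254 : V3.chw 40 40 254 6 [2] = true := by
  decide +kernel

def t40_40_255 : V3.chw 40 40 255 3 [10] = true := by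
  decide +kernel

def t40_41_260 : V3.chw 40 41 260 6 [2] = true := by
  decide +kernel

def t40_41_261 : V3.chw 40 41 261 6 [1, 1] = true := by
  decide +kernel

def t40_42_267 : V3.chw 40 42 267 6 [1, 1] = true := by
  decide +kernel

def t40_42_268 : V3.chw 40 42 268 3 [10] = true := by
  decide +kernel

def t40_43_273 : V3.chw 40 43 273 6 [2] = true := by
  decide +kernel

def t40_43_274 : V3.chw 40 43 274 3 [10] = true := by
  decide +kernel

def t40_44_279 : V3.chw 40 44 279 6 [2] = true := by
  decide +kernel

def t40_44_280 : V3.chw 40 44 280 6 [1, 1] = true := by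
  decide +kernel

def t40_45_286 : V3.chw 40 45 286 6 [1, 1] = true := by
  decide +kernel

def t40_45_287 : V3.chw 40 45 287 3 [10] = true := by
  decide +kernel

def t40_46_292 : V3.chw 40 46 292 6 [2] = true := by
  decide +kernel

def t40_46_293 : V3.chw 40 46 293 3 [10] = true := by
  decide +kernel

def t40_47_298 : V3.chw 40 47 298 6 [2] = true := by
  decide +kernel

def t40_47_299 : V3.chw 40 47 299 6 [1, 1] = true := by
  decide +kernel

def t40_48_305 : V3.chw 40 48 305 6 [1, 1] = true := by
  decide +kernel

def t40_48_306 : V3.chw 40 48 306 3 [10] = true := by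
  decide +kernel

def t40_49_311 : V3.chw 40 49 311 6 [2] = true := by
  decide +kernel

def t40_49_312 : V3.chw 40 49 312 3 [10] = true := by
  decide +kernel

def t40_50_317 : V3.chw 40 50 317 6 [2] = true := by
  decide +kernel

def t40_50_318 : V3.chw 40 50 318 6 [1, 1] = true := by
  decide +kernel

theorem R40 {K : Type*} [Field K] [CharZero K] (m d : ℕ) (h : m ≤ 50) : MR K 40 m d := by
  interval_cases m
  · exact good_cova 6 (by decide +kernel) d
  · exact good_cova 6 (by decide +kernel) d
  · exact good_cova 6 (by decide +kernel) d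
  · exact good_cova 6 (by decide +kernel) d
  · exact good_cova 6 (by decide +kernel) d
  · exact good_cova 6 (by decide +kernel) d
  · exact good_cova 6 (by decide +kernel) d
  · exact good_cova 6 (by decide +kernel) d
  · exact good_cova 6 (by decide +kernel) d
  · exact good_cova 6 (by decide +kernel) d
  · exact good_cova 6 (by decide +kernel) d
  · exact good_cova 6 (by decide +kernel) d
  · exact good_cova 6 (by decide +kernel) d
  · exact good_cova 6 (by decide +kernel) d
  · exact good_cova 6 (by decide +kernel) d
  · exact good_cova 6 (by decide +kernel) d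
  · exact good_cova 6 (by decide +kernel) d
  · exact good_cova 6 (by decide +kernel) d
  · exact good_cova 6 (by decide +kernel) d
  · exact good_cova 6 (by decide +kernel) d
  · exact good_cova 6 (by decide +kernel) d
  · exact good_cova 6 (by decide +kernel) d
  · exact good_cova 6 (by decide +kernel) d
  · exact good_cova 6 (by decide +kernel) d
  · exact good_cova 6 (by decide +kernel) d
  · exact good_cova 6 (by decide +kernel) d
  · exact good_cova 6 (by decide +kernel) d
  · exact good_cova 6 (by decide +kernel) d
  · exact good_cova 6 (by decide +kernel) d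
  · exact good_cova 6 (by decide +kernel) d
  · exact good_cova 6 (by decide +kernel) d
  · exact good_cova 6 (by decide +kernel) d
  · exact good_cova 6 (by decide +kernel) d
  · exact good_cova 6 (by decide +kernel) d
  · exact crit 216 (by decide +kernel) (V3.good_chw _ _ t40_34_216) (V3.good_chw _ _ t40_34_217) d
  · exact crit0 223 (by decide +kernel) (V3.good_chw _ _ t40_35_223) d
  · exact crit 229 (by decide +kernel) (V3.good_chw _ _ t40_36_229) (V3.good_chw _ _ t40_36_230) d
  · exact crit 235 (by decide +kernel) (V3.good_chw _ _ t40_37_235) (V3.good_chw _ _ t40_37_236) d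
  · exact crit 241 (by decide +kernel) (V3.good_chw _ _ t40_38_241) (V3.good_chw _ _ t40_38_242) d
  · exact crit 248 (by decide +kernel) (V3.good_chw _ _ t40_39_248) (V3.good_chw _ _ t40_39_249) d
  · exact crit 254 (by decide +kernel) (V3.good_chw _ _ t40_40_254) (V3.good_chw _ _ t40_40_255) d
  · exact crit 260 (by decide +kernel) (V3.good_chw _ _ t40_41_260) (V3.good_chw _ _ t40_41_261) d
  · exact crit 267 (by decide +kernel) (V3.good_chw _ _ t40_42_267) (V3.good_chw _ _ t40_42_268) d
  · exact crit 273 (by decide +kernel) (V3.good_chw _ _ t40_43_273) (V3.good_chw _ _ t40_43_274) d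
  · exact crit 279 (by decide +kernel) (V3.good_chw _ _ t40_44_279) (V3.good_chw _ _ t40_44_280) d
  · exact crit 286 (by decide +kernel) (V3.good_chw _ _ t40_45_286) (V3.good_chw _ _ t40_45_287) d
  · exact crit 292 (by decide +kernel) (V3.good_chw _ _ t40_46_292) (V3.good_chw _ _ t40_46_293) d
  · exact crit 298 (by decide +kernel) (V3.good_chw _ _ t40_47_298) (V3.good_chw _ _ t40_47_299) d
  · exact crit 305 (by decide +kernel) (V3.good_chw _ _ t40_48_305) (V3.good_chw _ _ t40_48_306) d
  · exact crit 311 (by decide +kernel) (V3.good_chw _ _ t40_49_311) (V3.good_chw _ _ t40_49_312) d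
  · exact crit 317 (by decide +kernel) (V3.good_chw _ _ t40_50_317) (V3.good_chw _ _ t40_50_318) d

def t41_20_129 : V3.chw 41 20 129 5 [7] = true := by
  decide +kernel

def t41_20_130 : V3.chw 41 20 130 4 [9, 1] = true := by
  decide +kernel

def t41_21_136 : V3.chw 41 21 136 4 [9, 1040] = true := by
  decide +kernel

def t41_21_137 : V3.chw 41 21 137 5 [7] = true := by
  decide +kernel

def t41_22_142 : V3.chw 41 22 142 4 [9, 1] = true := by
  decide +kernel

def t41_22_143 : V3.chw 41 22 143 5 [7] = true := by
  decide +kernel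

def t41_23_148 : V3.chw 41 23 148 5 [7] = true := by
  decide +kernel

def t41_23_149 : V3.chw 41 23 149 3 [3, 1025, 1035, 1040] = true := by
  decide +kernel

def t41_24_155 : V3.chw 41 24 155 4 [9, 1] = true := by
  decide +kernel

def t41_24_156 : V3.chw 41 24 156 5 [7] = true := by
  decide +kernel

def t41_25_161 : V3.chw 41 25 161 5 [7] = true := by
  decide +kernel

def t41_25_162 : V3.chw 41 25 162 2 [1, 3, 10] = true := by
  decide +kernel

def t41_26_168 : V3.chw 41 26 168 4 [9, 1040] = true := by
  decide +kernel

def t41_26_169 : V3.chw 41 26 169 5 [7] = true := by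
  decide +kernel

def t41_27_174 : V3.chw 41 27 174 4 [9, 1] = true := by
  decide +kernel

def t41_27_175 : V3.chw 41 27 175 5 [7] = true := by
  decide +kernel

def t41_28_180 : V3.chw 41 28 180 5 [7] = true := by
  decide +kernel

def t41_28_181 : V3.chw 41 28 181 4 [7, 1034, 1, 1038, 1040] = true := by
  decide +kernel

def t41_29_187 : V3.chw 41 29 187 4 [9, 1] = true := by
  decide +kernel

def t41_29_188 : V3.chw 41 29 188 5 [7] = true := by
  decide +kernel

def t41_30_193 : V3.chw 41 30 193 5 [7] = true := by
  decide +kernel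

def t41_30_194 : V3.chw 41 30 194 2 [1, 8, 4] = true := by
  decide +kernel

def t41_31_200 : V3.chw 41 31 200 4 [9, 1040] = true := by
  decide +kernel

def t41_31_201 : V3.chw 41 31 201 5 [7] = true := by
  decide +kernel

def t41_32_206 : V3.chw 41 32 206 4 [9, 1] = true := by
  decide +kernel

def t41_32_207 : V3.chw 41 32 207 5 [7] = true := by
  decide +kernel

def t41_33_212 : V3.chw 41 33 212 5 [7] = true := by
  decide +kernel

def t41_33_213 : V3.chw 41 33 213 2 [1, 1007, 2, 1013, 1017, 1019, 1020, 1021, 1022, 1023, 1024, 1026, 1, 1029, 1031, 1, 1035, 1, 1039] = true := by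
  decide +kernel

def t41_34_219 : V3.chw 41 34 219 4 [9, 1] = true := by
  decide +kernel

def t41_34_220 : V3.chw 41 34 220 5 [7] = true := by
  decide +kernel

def t41_35_225 : V3.chw 41 35 225 5 [7] = true := by
  decide +kernel

def t41_35_226 : V3.chw 41 35 226 3 [1, 8, 2, 1, 1] = true := by
  decide +kernel

def t41_36_232 : V3.chw 41 36 232 5 [7, 1040] = true := by
  decide +kernel

def t41_36_233 : V3.chw 41 36 233 5 [7] = true := by
  decide +kernel

def t41_37_238 : V3.chw 41 37 238 4 [9, 1] = true := by
  decide +kernel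

def t41_37_239 : V3.chw 41 37 239 5 [7] = true := by
  decide +kernel

def t41_39_251 : V3.chw 41 39 251 2 [7, 5] = true := by
  decide +kernel

def t41_39_252 : V3.chw 41 39 252 5 [7] = true := by
  decide +kernel

def t41_40_257 : V3.chw 41 40 257 5 [7] = true := by
  decide +kernel

def t41_40_258 : V3.chw 41 40 258 2 [1, 1016] = true := by
  decide +kernel

def t41_41_264 : V3.chw 41 41 264 5 [7, 1040] = true := by
  decide +kernel

def t41_41_265 : V3.chw 41 41 265 5 [7] = true := by
  decide +kernel

def t41_42_270 : V3.chw 41 42 270 4 [6, 5] = true := by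
  decide +kernel

def t41_42_271 : V3.chw 41 42 271 5 [7] = true := by
  decide +kernel

def t41_43_278 : V3.chw 41 43 278 5 [7] = true := by
  decide +kernel

def t41_44_283 : V3.chw 41 44 283 5 [7, 1040] = true := by
  decide +kernel

def t41_44_284 : V3.chw 41 44 284 5 [7] = true := by
  decide +kernel

def t41_45_289 : V3.chw 41 45 289 5 [7] = true := by
  decide +kernel

def t41_45_290 : V3.chw 41 45 290 5 [7, 1040] = true := by
  decide +kernel

def t41_46_296 : V3.chw 41 46 296 5 [7, 1040] = true := by
  decide +kernel

def t41_46_297 : V3.chw 41 46 297 5 [7] = true := by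
  decide +kernel

def t41_47_302 : V3.chw 41 47 302 2 [7, 5] = true := by
  decide +kernel

def t41_47_303 : V3.chw 41 47 303 2 [1, 1016] = true := by
  decide +kernel

def t41_48_309 : V3.chw 41 48 309 3 [1009, 1012, 1015, 4, 2, 1028, 1029, 1031, 2, 1037, 1039] = true := by
  decide +kernel

def t41_48_310 : V3.chw 41 48 310 5 [7] = true := by
  decide +kernel

def t41_49_315 : V3.chw 41 49 315 5 [7, 1040] = true := by
  decide +kernel

def t41_49_316 : V3.chw 41 49 316 5 [7] = true := by
  decide +kernel

def t41_50_321 : V3.chw 41 50 321 5 [7] = true := by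
  decide +kernel

def t41_50_322 : V3.chw 41 50 322 2 [1, 1016, 1040] = true := by
  decide +kernel

theorem R41 {K : Type*} [Field K] [CharZero K] (m d : ℕ) (h : m ≤ 50) : MR K 41 m d := by
  interval_cases m
  · exact good_cova 5 (by decide +kernel) d
  · exact good_cova 5 (by decide +kernel) d
  · exact good_cova 5 (by decide +kernel) d
  · exact good_cova 5 (by decide +kernel) d
  · exact good_cova 5 (by decide +kernel) d
  · exact good_cova 5 (by decide +kernel) d
  · exact good_cova 5 (by decide +kernel) d
  · exact good_cova 5 (by decide +kernel) d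
  · exact good_cova 5 (by decide +kernel) d
  · exact good_cova 5 (by decide +kernel) d
  · exact good_cova 5 (by decide +kernel) d
  · exact good_cova 5 (by decide +kernel) d
  · exact good_cova 5 (by decide +kernel) d
  · exact good_cova 5 (by decide +kernel) d
  · exact good_cova 5 (by decide +kernel) d
  · exact good_cova 5 (by decide +kernel) d
  · exact good_cova 5 (by decide +kernel) d
  · exact good_cova 5 (by decide +kernel) d
  · exact good_cova 5 (by decide +kernel) d
  · exact good_cova 5 (by decide +kernel) d
  · exact crit 129 (by decide +kernel) (V3.good_chw _ _ t41_20_129) (V3.good_chw _ _ t41_20_130) d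
  · exact crit 136 (by decide +kernel) (V3.good_chw _ _ t41_21_136) (V3.good_chw _ _ t41_21_137) d
  · exact crit 142 (by decide +kernel) (V3.good_chw _ _ t41_22_142) (V3.good_chw _ _ t41_22_143) d
  · exact crit 148 (by decide +kernel) (V3.good_chw _ _ t41_23_148) (V3.good_chw _ _ t41_23_149) d
  · exact crit 155 (by decide +kernel) (V3.good_chw _ _ t41_24_155) (V3.good_chw _ _ t41_24_156) d
  · exact crit 161 (by decide +kernel) (V3.good_chw _ _ t41_25_161) (V3.good_chw _ _ t41_25_162) d
  · exact crit 168 (by decide +kernel) (V3.good_chw _ _ t41_26_168) (V3.good_chw _ _ t41_26_169) d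
  · exact crit 174 (by decide +kernel) (V3.good_chw _ _ t41_27_174) (V3.good_chw _ _ t41_27_175) d
  · exact crit 180 (by decide +kernel) (V3.good_chw _ _ t41_28_180) (V3.good_chw _ _ t41_28_181) d
  · exact crit 187 (by decide +kernel) (V3.good_chw _ _ t41_29_187) (V3.good_chw _ _ t41_29_188) d
  · exact crit 193 (by decide +kernel) (V3.good_chw _ _ t41_30_193) (V3.good_chw _ _ t41_30_194) d
  · exact crit 200 (by decide +kernel) (V3.good_chw _ _ t41_31_200) (V3.good_chw _ _ t41_31_201) d
  · exact crit 206 (by decide +kernel) (V3.good_chw _ _ t41_32_206) (V3.good_chw _ _ t41_32_207) d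
  · exact crit 212 (by decide +kernel) (V3.good_chw _ _ t41_33_212) (V3.good_chw _ _ t41_33_213) d
  · exact crit 219 (by decide +kernel) (V3.good_chw _ _ t41_34_219) (V3.good_chw _ _ t41_34_220) d
  · exact crit 225 (by decide +kernel) (V3.good_chw _ _ t41_35_225) (V3.good_chw _ _ t41_35_226) d
  · exact crit 232 (by decide +kernel) (V3.good_chw _ _ t41_36_232) (V3.good_chw _ _ t41_36_233) d
  · exact crit 238 (by decide +kernel) (V3.good_chw _ _ t41_37_238) (V3.good_chw _ _ t41_37_239) d
  · exact crit0 245 (by decide +kernel) K41m38d245.good d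
  · exact crit 251 (by decide +kernel) (V3.good_chw _ _ t41_39_251) (V3.good_chw _ _ t41_39_252) d
  · exact crit 257 (by decide +kernel) (V3.good_chw _ _ t41_40_257) (V3.good_chw _ _ t41_40_258) d
  · exact crit 264 (by decide +kernel) (V3.good_chw _ _ t41_41_264) (V3.good_chw _ _ t41_41_265) d
  · exact crit 270 (by decide +kernel) (V3.good_chw _ _ t41_42_270) (V3.good_chw _ _ t41_42_271) d
  · exact crit 277 (by decide +kernel) K41m43d277.good (V3.good_chw _ _ t41_43_278) d
  · exact crit 283 (by decide +kernel) (V3.good_chw _ _ t41_44_283) (V3.good_chw _ _ t41_44_284) d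
  · exact crit 289 (by decide +kernel) (V3.good_chw _ _ t41_45_289) (V3.good_chw _ _ t41_45_290) d
  · exact crit 296 (by decide +kernel) (V3.good_chw _ _ t41_46_296) (V3.good_chw _ _ t41_46_297) d
  · exact crit 302 (by decide +kernel) (V3.good_chw _ _ t41_47_302) (V3.good_chw _ _ t41_47_303) d
  · exact crit 309 (by decide +kernel) (V3.good_chw _ _ t41_48_309) (V3.good_chw _ _ t41_48_310) d
  · exact crit 315 (by decide +kernel) (V3.good_chw _ _ t41_49_315) (V3.good_chw _ _ t41_49_316) d
  · exact crit 321 (by decide +kernel) (V3.good_chw _ _ t41_50_321) (V3.good_chw _ _ t41_50_322) d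

end Pool.Agent.Helper54.FM
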