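import Pool.Agent.Helper54.FM.Fast3

set_option autoImplicit false
set_option maxRecDepth 100000
set_option linter.defProp false

/-! Project FM (helper54), MP_e6aa12_ag: r = 42..45, m <= 50 (generated). -/

namespace Pool.Agent.Helper54.FM

def t42_33_216 : V3.chw 42 33 216 6 [3] = true := by
  decide +kernel

def t42_34_222 : V3.chw 42 34 222 6 [1, 1039, 1] = true := by
  decide +kernel

def t42_34_223 : V3.chw 42 34 223 2 [9] = true := by
  decide +kernel

def t42_35_228 : V3.chw 42 35 228 6 [2, 1] = true := by
  decide +kernel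

def t42_35_229 : V3.chw 42 35 229 6 [3] = true := by
  decide +kernel

def t42_36_235 : V3.chw 42 36 235 6 [1, 1039, 1] = true := by
  decide +kernel

def t42_36_236 : V3.chw 42 36 236 2 [9] = true := by
  decide +kernel

def t42_37_241 : V3.chw 42 37 241 6 [2, 1] = true := by
  decide +kernel

def t42_37_242 : V3.chw 42 37 242 6 [3] = true := by
  decide +kernel

def t42_38_247 : V3.chw 42 38 247 6 [3] = true := by
  decide +kernel

def t42_38_248 : V3.chw 42 38 248 4 [8, 1036, 1037, 2] = true := by
  decide +kernel

def t42_39_254 : V3.chw 42 39 254 6 [2, 1] = true := by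
  decide +kernel

def t42_39_255 : V3.chw 42 39 255 6 [3] = true := by
  decide +kernel

def t42_40_260 : V3.chw 42 40 260 6 [3] = true := by
  decide +kernel

def t42_40_261 : V3.chw 42 40 261 6 [1, 1, 1] = true := by
  decide +kernel

def t42_41_267 : V3.chw 42 41 267 6 [2, 1] = true := by
  decide +kernel

def t42_41_268 : V3.chw 42 41 268 6 [3] = true := by
  decide +kernel

def t42_42_273 : V3.chw 42 42 273 6 [3] = true := by
  decide +kernel

def t42_42_274 : V3.chw 42 42 274 6 [1, 1, 1] = true := by
  decide +kernel

def t42_43_280 : V3.chw 42 43 280 3 [10, 1041] = true := by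
  decide +kernel

def t42_43_281 : V3.chw 42 43 281 6 [3] = true := by
  decide +kernel

def t42_44_286 : V3.chw 42 44 286 6 [3] = true := by
  decide +kernel

def t42_44_287 : V3.chw 42 44 287 6 [1, 1040] = true := by
  decide +kernel

def t42_45_293 : V3.chw 42 45 293 3 [10, 1041] = true := by
  decide +kernel

def t42_45_294 : V3.chw 42 45 294 6 [3] = true := by
  decide +kernel

def t42_46_299 : V3.chw 42 46 299 6 [3] = true := by
  decide +kernel

def t42_46_300 : V3.chw 42 46 300 6 [1, 1040] = true := by
  decide +kernel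

def t42_47_306 : V3.chw 42 47 306 6 [1, 1040] = true := by
  decide +kernel

def t42_47_307 : V3.chw 42 47 307 6 [3] = true := by
  decide +kernel

def t42_48_312 : V3.chw 42 48 312 6 [1035, 3] = true := by
  decide +kernel

def t42_48_313 : V3.chw 42 48 313 6 [1, 1040] = true := by
  decide +kernel

def t42_49_319 : V3.chw 42 49 319 6 [1037, 1040] = true := by
  decide +kernel

def t42_49_320 : V3.chw 42 49 320 6 [3] = true := by
  decide +kernel

def t42_50_325 : V3.chw 42 50 325 6 [1035, 3] = true := by
  decide +kernel

def t42_50_326 : V3.chw 42 50 326 6 [1037, 1040] = true := by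
  decide +kernel

theorem R42 {K : Type*} [Field K] [CharZero K] (m d : ℕ) (h : m ≤ 50) : MR K 42 m d := by
  interval_cases m
  · exact good_cova 6 (by decide +kernel) d
  · exact good_cova 6 (by decide +kernel) d
  · exact good_cova 6 (by decide +kernel) d
  · exact good_cova 6 (by decide +kernel) d
  · exact good_cova 6 (by decide +kernel) d
  · exact good_cova 6 (by decide +kernel) d
  · exact good_cova 6 (by decide +kernel) d
  · exact good_cova 6 (by decide +kernel) d
  · exact good_cova 6 (by decide +kernel) d
  · exact good_cova 6 (by decide +kernel) d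
  · exact good_cova 6 (by decide +kernel) d
  · exact good_cova 6 (by decide +kernel) d
  · exact good_cova 6 (by decide +kernel) d
  · exact good_cova 6 (by decide +kernel) d
  · exact good_cova 6 (by decide +kernel) d
  · exact good_cova 6 (by decide +kernel) d
  · exact good_cova 6 (by decide +kernel) d
  · exact good_cova 6 (by decide +kernel) d
  · exact good_cova 6 (by decide +kernel) d
  · exact good_cova 6 (by decide +kernel) d
  · exact good_cova 6 (by decide +kernel) d
  · exact good_cova 6 (by decide +kernel) d
  · exact good_cova 6 (by decide +kernel) d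
  · exact good_cova 6 (by decide +kernel) d
  · exact good_cova 6 (by decide +kernel) d
  · exact good_cova 6 (by decide +kernel) d
  · exact good_cova 6 (by decide +kernel) d
  · exact good_cova 6 (by decide +kernel) d
  · exact good_cova 6 (by decide +kernel) d
  · exact good_cova 6 (by decide +kernel) d
  · exact good_cova 6 (by decide +kernel) d
  · exact good_cova 6 (by decide +kernel) d
  · exact good_cova 6 (by decide +kernel) d
  · exact crit 215 (by decide +kernel) (good_covd 6 (by decide +kernel)) (V3.good_chw _ _ t42_33_216) d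
  · exact crit 222 (by decide +kernel) (V3.good_chw _ _ t42_34_222) (V3.good_chw _ _ t42_34_223) d
  · exact crit 228 (by decide +kernel) (V3.good_chw _ _ t42_35_228) (V3.good_chw _ _ t42_35_229) d
  · exact crit 235 (by decide +kernel) (V3.good_chw _ _ t42_36_235) (V3.good_chw _ _ t42_36_236) d
  · exact crit 241 (by decide +kernel) (V3.good_chw _ _ t42_37_241) (V3.good_chw _ _ t42_37_242) d
  · exact crit 247 (by decide +kernel) (V3.good_chw _ _ t42_38_247) (V3.good_chw _ _ t42_38_248) d
  · exact crit 254 (by decide +kernel) (V3.good_chw _ _ t42_39_254) (V3.good_chw _ _ t42_39_255) d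
  · exact crit 260 (by decide +kernel) (V3.good_chw _ _ t42_40_260) (V3.good_chw _ _ t42_40_261) d
  · exact crit 267 (by decide +kernel) (V3.good_chw _ _ t42_41_267) (V3.good_chw _ _ t42_41_268) d
  · exact crit 273 (by decide +kernel) (V3.good_chw _ _ t42_42_273) (V3.good_chw _ _ t42_42_274) d
  · exact crit 280 (by decide +kernel) (V3.good_chw _ _ t42_43_280) (V3.good_chw _ _ t42_43_281) d
  · exact crit 286 (by decide +kernel) (V3.good_chw _ _ t42_44_286) (V3.good_chw _ _ t42_44_287) d
  · exact crit 293 (by decide +kernel) (V3.good_chw _ _ t42_45_293) (V3.good_chw _ _ t42_45_294) d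
  · exact crit 299 (by decide +kernel) (V3.good_chw _ _ t42_46_299) (V3.good_chw _ _ t42_46_300) d
  · exact crit 306 (by decide +kernel) (V3.good_chw _ _ t42_47_306) (V3.good_chw _ _ t42_47_307) d
  · exact crit 312 (by decide +kernel) (V3.good_chw _ _ t42_48_312) (V3.good_chw _ _ t42_48_313) d
  · exact crit 319 (by decide +kernel) (V3.good_chw _ _ t42_49_319) (V3.good_chw _ _ t42_49_320) d
  · exact crit 325 (by decide +kernel) (V3.good_chw _ _ t42_50_325) (V3.good_chw _ _ t42_50_326) d

def t43_19_126 : V3.chw 43 19 126 5 [7, 1] = true := by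
  decide +kernel

def t43_19_127 : V3.chw 43 19 127 5 [1, 7] = true := by
  decide +kernel

def t43_20_132 : V3.chw 43 20 132 5 [7, 1] = true := by
  decide +kernel

def t43_20_133 : V3.chw 43 20 133 4 [1, 2, 2, 3, 2, 3] = true := by
  decide +kernel

def t43_21_139 : V3.chw 43 21 139 5 [7, 1] = true := by
  decide +kernel

def t43_21_140 : V3.chw 43 21 140 5 [1, 7] = true := by
  decide +kernel

def t43_22_146 : V3.chw 43 22 146 3 [3, 1019, 1023, 1031, 1040, 1] = true := by
  decide +kernel

def t43_22_147 : V3.chw 43 22 147 5 [8] = true := by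
  decide +kernel

def t43_23_152 : V3.chw 43 23 152 5 [7, 1] = true := by
  decide +kernel

def t43_23_153 : V3.chw 43 23 153 3 [8, 5] = true := by
  decide +kernel

def t43_24_159 : V3.chw 43 24 159 5 [7, 1042] = true := by
  decide +kernel

def t43_24_160 : V3.chw 43 24 160 5 [1, 7] = true := by
  decide +kernel

def t43_25_165 : V3.chw 43 25 165 5 [7, 1] = true := by
  decide +kernel

def t43_25_166 : V3.chw 43 25 166 5 [7, 1] = true := by
  decide +kernel

def t43_26_172 : V3.chw 43 26 172 4 [9, 1041] = true := by
  decide +kernel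

def t43_26_173 : V3.chw 43 26 173 5 [1, 7] = true := by
  decide +kernel

def t43_27_178 : V3.chw 43 27 178 4 [9, 2] = true := by
  decide +kernel

def t43_27_179 : V3.chw 43 27 179 2 [3, 9, 2, 1] = true := by
  decide +kernel

def t43_28_185 : V3.chw 43 28 185 5 [7, 1] = true := by
  decide +kernel

def t43_28_186 : V3.chw 43 28 186 5 [1, 7] = true := by
  decide +kernel

def t43_29_191 : V3.chw 43 29 191 4 [9, 2] = true := by
  decide +kernel

def t43_29_192 : V3.chw 43 29 192 5 [7, 1042] = true := by
  decide +kernel

def t43_30_198 : V3.chw 43 30 198 5 [7, 1] = true := by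
  decide +kernel

def t43_30_199 : V3.chw 43 30 199 5 [1, 7] = true := by
  decide +kernel

def t43_31_205 : V3.chw 43 31 205 2 [1, 3, 10, 1040, 1042] = true := by
  decide +kernel

def t43_31_206 : V3.chw 43 31 206 5 [1, 7] = true := by
  decide +kernel

def t43_32_211 : V3.chw 43 32 211 4 [9, 2] = true := by
  decide +kernel

def t43_32_212 : V3.chw 43 32 212 3 [8, 5] = true := by
  decide +kernel

def t43_33_218 : V3.chw 43 33 218 4 [9, 1040, 1] = true := by
  decide +kernel

def t43_33_219 : V3.chw 43 33 219 5 [1, 7] = true := by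
  decide +kernel

def t43_34_224 : V3.chw 43 34 224 4 [9, 2] = true := by
  decide +kernel

def t43_34_225 : V3.chw 43 34 225 3 [2, 10, 1] = true := by
  decide +kernel

def t43_35_231 : V3.chw 43 35 231 2 [3, 9, 2, 1] = true := by
  decide +kernel

def t43_35_232 : V3.chw 43 35 232 5 [1, 7] = true := by
  decide +kernel

def t43_36_237 : V3.chw 43 36 237 4 [9, 2] = true := by
  decide +kernel

def t43_36_238 : V3.chw 43 36 238 3 [1, 8, 1, 2, 1, 1] = true := by
  decide +kernel

def t43_37_244 : V3.chw 43 37 244 5 [7, 1] = true := by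
  decide +kernel

def t43_37_245 : V3.chw 43 37 245 5 [1, 7] = true := by
  decide +kernel

def t43_38_250 : V3.chw 43 38 250 4 [9, 2] = true := by
  decide +kernel

def t43_38_251 : V3.chw 43 38 251 3 [3, 1016, 9, 1041, 1042] = true := by
  decide +kernel

def t43_39_257 : V3.chw 43 39 257 5 [7, 1] = true := by
  decide +kernel

def t43_39_258 : V3.chw 43 39 258 5 [7, 1] = true := by
  decide +kernel

def t43_40_264 : V3.chw 43 40 264 4 [9, 1038, 1039, 1041] = true := by
  decide +kernel

def t43_40_265 : V3.chw 43 40 265 5 [1, 7] = true := by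
  decide +kernel

def t43_41_270 : V3.chw 43 41 270 5 [7, 1] = true := by
  decide +kernel

def t43_41_271 : V3.chw 43 41 271 5 [7, 1] = true := by
  decide +kernel

def t43_42_277 : V3.chw 43 42 277 2 [1, 1016, 1] = true := by
  decide +kernel

def t43_42_278 : V3.chw 43 42 278 5 [1, 7] = true := by
  decide +kernel

def t43_43_283 : V3.chw 43 43 283 5 [4, 1038] = true := by
  decide +kernel

def t43_43_284 : V3.chw 43 43 284 5 [7, 1042] = true := by
  decide +kernel

def t43_44_290 : V3.chw 43 44 290 5 [7, 1040, 1] = true := by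
  decide +kernel

def t43_44_291 : V3.chw 43 44 291 2 [3, 1023] = true := by
  decide +kernel

def t43_45_296 : V3.chw 43 45 296 5 [7, 1] = true := by
  decide +kernel

def t43_45_297 : V3.chw 43 45 297 5 [7, 1042] = true := by
  decide +kernel

def t43_46_303 : V3.chw 43 46 303 5 [7, 1] = true := by
  decide +kernel

def t43_46_304 : V3.chw 43 46 304 5 [4, 1038] = true := by
  decide +kernel

def t43_47_309 : V3.chw 43 47 309 5 [7, 1] = true := by
  decide +kernel

def t43_47_310 : V3.chw 43 47 310 2 [1, 1008, 1010, 1, 1013, 1017, 1020, 1021, 1, 1024, 1025, 1026, 1027, 1, 1, 1033, 1034, 1, 1037, 1038, 1, 1] = true := by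
  decide +kernel

def t43_48_316 : V3.chw 43 48 316 5 [7, 1] = true := by
  decide +kernel

def t43_48_317 : V3.chw 43 48 317 5 [1029, 1038] = true := by
  decide +kernel

def t43_49_323 : V3.chw 43 49 323 4 [3, 1023, 1031, 1040, 1041, 1042] = true := by
  decide +kernel

def t43_49_324 : V3.chw 43 49 324 2 [3, 1023] = true := by
  decide +kernel

def t43_50_329 : V3.chw 43 50 329 5 [7, 1] = true := by
  decide +kernel

def t43_50_330 : V3.chw 43 50 330 5 [7, 1] = true := by
  decide +kernel

theorem R43 {K : Type*} [Field K] [CharZero K] (m d : ℕ) (h : m ≤ 50) : MR K 43 m d := by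
  interval_cases m
  · exact good_cova 5 (by decide +kernel) d
  · exact good_cova 5 (by decide +kernel) d
  · exact good_cova 5 (by decide +kernel) d
  · exact good_cova 5 (by decide +kernel) d
  · exact good_cova 5 (by decide +kernel) d
  · exact good_cova 5 (by decide +kernel) d
  · exact good_cova 5 (by decide +kernel) d
  · exact good_cova 5 (by decide +kernel) d
  · exact good_cova 5 (by decide +kernel) d
  · exact good_cova 5 (by decide +kernel) d
  · exact good_cova 5 (by decide +kernel) d
  · exact good_cova 5 (by decide +kernel) d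
  · exact good_cova 5 (by decide +kernel) d
  · exact good_cova 5 (by decide +kernel) d
  · exact good_cova 5 (by decide +kernel) d
  · exact good_cova 5 (by decide +kernel) d
  · exact good_cova 5 (by decide +kernel) d
  · exact good_cova 5 (by decide +kernel) d
  · exact good_cova 5 (by decide +kernel) d
  · exact crit 126 (by decide +kernel) (V3.good_chw _ _ t43_19_126) (V3.good_chw _ _ t43_19_127) d
  · exact crit 132 (by decide +kernel) (V3.good_chw _ _ t43_20_132) (V3.good_chw _ _ t43_20_133) d
  · exact crit 139 (by decide +kernel) (V3.good_chw _ _ t43_21_139) (V3.good_chw _ _ t43_21_140) d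
  · exact crit 146 (by decide +kernel) (V3.good_chw _ _ t43_22_146) (V3.good_chw _ _ t43_22_147) d
  · exact crit 152 (by decide +kernel) (V3.good_chw _ _ t43_23_152) (V3.good_chw _ _ t43_23_153) d
  · exact crit 159 (by decide +kernel) (V3.good_chw _ _ t43_24_159) (V3.good_chw _ _ t43_24_160) d
  · exact crit 165 (by decide +kernel) (V3.good_chw _ _ t43_25_165) (V3.good_chw _ _ t43_25_166) d
  · exact crit 172 (by decide +kernel) (V3.good_chw _ _ t43_26_172) (V3.good_chw _ _ t43_26_173) d
  · exact crit 178 (by decide +kernel) (V3.good_chw _ _ t43_27_178) (V3.good_chw _ _ t43_27_179) d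
  · exact crit 185 (by decide +kernel) (V3.good_chw _ _ t43_28_185) (V3.good_chw _ _ t43_28_186) d
  · exact crit 191 (by decide +kernel) (V3.good_chw _ _ t43_29_191) (V3.good_chw _ _ t43_29_192) d
  · exact crit 198 (by decide +kernel) (V3.good_chw _ _ t43_30_198) (V3.good_chw _ _ t43_30_199) d
  · exact crit 205 (by decide +kernel) (V3.good_chw _ _ t43_31_205) (V3.good_chw _ _ t43_31_206) d
  · exact crit 211 (by decide +kernel) (V3.good_chw _ _ t43_32_211) (V3.good_chw _ _ t43_32_212) d
  · exact crit 218 (by decide +kernel) (V3.good_chw _ _ t43_33_218) (V3.good_chw _ _ t43_33_219) d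
  · exact crit 224 (by decide +kernel) (V3.good_chw _ _ t43_34_224) (V3.good_chw _ _ t43_34_225) d
  · exact crit 231 (by decide +kernel) (V3.good_chw _ _ t43_35_231) (V3.good_chw _ _ t43_35_232) d
  · exact crit 237 (by decide +kernel) (V3.good_chw _ _ t43_36_237) (V3.good_chw _ _ t43_36_238) d
  · exact crit 244 (by decide +kernel) (V3.good_chw _ _ t43_37_244) (V3.good_chw _ _ t43_37_245) d
  · exact crit 250 (by decide +kernel) (V3.good_chw _ _ t43_38_250) (V3.good_chw _ _ t43_38_251) d
  · exact crit 257 (by decide +kernel) (V3.good_chw _ _ t43_39_257) (V3.good_chw _ _ t43_39_258) d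
  · exact crit 264 (by decide +kernel) (V3.good_chw _ _ t43_40_264) (V3.good_chw _ _ t43_40_265) d
  · exact crit 270 (by decide +kernel) (V3.good_chw _ _ t43_41_270) (V3.good_chw _ _ t43_41_271) d
  · exact crit 277 (by decide +kernel) (V3.good_chw _ _ t43_42_277) (V3.good_chw _ _ t43_42_278) d
  · exact crit 283 (by decide +kernel) (V3.good_chw _ _ t43_43_283) (V3.good_chw _ _ t43_43_284) d
  · exact crit 290 (by decide +kernel) (V3.good_chw _ _ t43_44_290) (V3.good_chw _ _ t43_44_291) d
  · exact crit 296 (by decide +kernel) (V3.good_chw _ _ t43_45_296) (V3.good_chw _ _ t43_45_297) d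
  · exact crit 303 (by decide +kernel) (V3.good_chw _ _ t43_46_303) (V3.good_chw _ _ t43_46_304) d
  · exact crit 309 (by decide +kernel) (V3.good_chw _ _ t43_47_309) (V3.good_chw _ _ t43_47_310) d
  · exact crit 316 (by decide +kernel) (V3.good_chw _ _ t43_48_316) (V3.good_chw _ _ t43_48_317) d
  · exact crit 323 (by decide +kernel) (V3.good_chw _ _ t43_49_323) (V3.good_chw _ _ t43_49_324) d
  · exact crit 329 (by decide +kernel) (V3.good_chw _ _ t43_50_329) (V3.good_chw _ _ t43_50_330) d

def t44_33_220 : V3.chw 44 33 220 2 [9, 1] = true := by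
  decide +kernel

def t44_33_221 : V3.chw 44 33 221 3 [1, 11] = true := by
  decide +kernel

def t44_34_227 : V3.chw 44 34 227 6 [2, 1, 1] = true := by
  decide +kernel

def t44_34_228 : V3.chw 44 34 228 2 [3, 11] = true := by
  decide +kernel

def t44_35_233 : V3.chw 44 35 233 2 [9, 1] = true := by
  decide +kernel

def t44_35_234 : V3.chw 44 35 234 3 [1, 11] = true := by
  decide +kernel

def t44_36_240 : V3.chw 44 36 240 6 [2, 2] = true := by
  decide +kernel

def t44_36_241 : V3.chw 44 36 241 2 [3, 11] = true := by
  decide +kernel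

def t44_37_247 : V3.chw 44 37 247 3 [10, 1042] = true := by
  decide +kernel

def t44_37_248 : V3.chw 44 37 248 2 [3, 11] = true := by
  decide +kernel

def t44_38_253 : V3.chw 44 38 253 2 [9, 1] = true := by
  decide +kernel

def t44_38_254 : V3.chw 44 38 254 3 [1, 11] = true := by
  decide +kernel

def t44_39_260 : V3.chw 44 39 260 3 [10, 1, 1] = true := by
  decide +kernel

def t44_39_261 : V3.chw 44 39 261 2 [3, 11] = true := by
  decide +kernel

def t44_40_267 : V3.chw 44 40 267 6 [1, 1, 1042] = true := by
  decide +kernel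

def t44_40_268 : V3.chw 44 40 268 2 [3, 11] = true := by
  decide +kernel

def t44_41_273 : V3.chw 44 41 273 6 [2, 2] = true := by
  decide +kernel

def t44_41_274 : V3.chw 44 41 274 3 [1, 11] = true := by
  decide +kernel

def t44_42_280 : V3.chw 44 42 280 6 [2, 1, 1] = true := by
  decide +kernel

def t44_42_281 : V3.chw 44 42 281 2 [3, 11] = true := by
  decide +kernel

def t44_43_287 : V3.chw 44 43 287 3 [7, 1032, 1035, 1036, 1, 1040, 1042, 1] = true := by
  decide +kernel

def t44_43_288 : V3.chw 44 43 288 2 [3, 11] = true := by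
  decide +kernel

def t44_44_293 : V3.chw 44 44 293 3 [10, 1042] = true := by
  decide +kernel

def t44_44_294 : V3.chw 44 44 294 3 [1, 11] = true := by
  decide +kernel

def t44_45_300 : V3.chw 44 45 300 6 [2, 1042] = true := by
  decide +kernel

def t44_45_301 : V3.chw 44 45 301 2 [3, 11] = true := by
  decide +kernel

def t44_46_306 : V3.chw 44 46 306 6 [3, 1] = true := by
  decide +kernel

def t44_46_307 : V3.chw 44 46 307 3 [1, 11] = true := by
  decide +kernel

def t44_47_313 : V3.chw 44 47 313 3 [10, 1042] = true := by
  decide +kernel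

def t44_47_314 : V3.chw 44 47 314 3 [1, 11] = true := by
  decide +kernel

def t44_48_320 : V3.chw 44 48 320 3 [10, 1042] = true := by
  decide +kernel

def t44_48_321 : V3.chw 44 48 321 2 [3, 11] = true := by
  decide +kernel

def t44_49_326 : V3.chw 44 49 326 6 [1039, 1043] = true := by
  decide +kernel

def t44_49_327 : V3.chw 44 49 327 3 [1, 11] = true := by
  decide +kernel

def t44_50_333 : V3.chw 44 50 333 6 [2, 1042] = true := by
  decide +kernel

def t44_50_334 : V3.chw 44 50 334 2 [3, 11] = true := by
  decide +kernel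

theorem R44 {K : Type*} [Field K] [CharZero K] (m d : ℕ) (h : m ≤ 50) : MR K 44 m d := by
  interval_cases m
  · exact good_cova 6 (by decide +kernel) d
  · exact good_cova 6 (by decide +kernel) d
  · exact good_cova 6 (by decide +kernel) d
  · exact good_cova 6 (by decide +kernel) d
  · exact good_cova 6 (by decide +kernel) d
  · exact good_cova 6 (by decide +kernel) d
  · exact good_cova 6 (by decide +kernel) d
  · exact good_cova 6 (by decide +kernel) d
  · exact good_cova 6 (by decide +kernel) d
  · exact good_cova 6 (by decide +kernel) d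
  · exact good_cova 6 (by decide +kernel) d
  · exact good_cova 6 (by decide +kernel) d
  · exact good_cova 6 (by decide +kernel) d
  · exact good_cova 6 (by decide +kernel) d
  · exact good_cova 6 (by decide +kernel) d
  · exact good_cova 6 (by decide +kernel) d
  · exact good_cova 6 (by decide +kernel) d
  · exact good_cova 6 (by decide +kernel) d
  · exact good_cova 6 (by decide +kernel) d
  · exact good_cova 6 (by decide +kernel) d
  · exact good_cova 6 (by decide +kernel) d
  · exact good_cova 6 (by decide +kernel) d
  · exact good_cova 6 (by decide +kernel) d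
  · exact good_cova 6 (by decide +kernel) d
  · exact good_cova 6 (by decide +kernel) d
  · exact good_cova 6 (by decide +kernel) d
  · exact good_cova 6 (by decide +kernel) d
  · exact good_cova 6 (by decide +kernel) d
  · exact good_cova 6 (by decide +kernel) d
  · exact good_cova 6 (by decide +kernel) d
  · exact good_cova 6 (by decide +kernel) d
  · exact good_cova 6 (by decide +kernel) d
  · exact good_cova 6 (by decide +kernel) d
  · exact crit 220 (by decide +kernel) (V3.good_chw _ _ t44_33_220) (V3.good_chw _ _ t44_33_221) d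
  · exact crit 227 (by decide +kernel) (V3.good_chw _ _ t44_34_227) (V3.good_chw _ _ t44_34_228) d
  · exact crit 233 (by decide +kernel) (V3.good_chw _ _ t44_35_233) (V3.good_chw _ _ t44_35_234) d
  · exact crit 240 (by decide +kernel) (V3.good_chw _ _ t44_36_240) (V3.good_chw _ _ t44_36_241) d
  · exact crit 247 (by decide +kernel) (V3.good_chw _ _ t44_37_247) (V3.good_chw _ _ t44_37_248) d
  · exact crit 253 (by decide +kernel) (V3.good_chw _ _ t44_38_253) (V3.good_chw _ _ t44_38_254) d
  · exact crit 260 (by decide +kernel) (V3.good_chw _ _ t44_39_260) (V3.good_chw _ _ t44_39_261) d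
  · exact crit 267 (by decide +kernel) (V3.good_chw _ _ t44_40_267) (V3.good_chw _ _ t44_40_268) d
  · exact crit 273 (by decide +kernel) (V3.good_chw _ _ t44_41_273) (V3.good_chw _ _ t44_41_274) d
  · exact crit 280 (by decide +kernel) (V3.good_chw _ _ t44_42_280) (V3.good_chw _ _ t44_42_281) d
  · exact crit 287 (by decide +kernel) (V3.good_chw _ _ t44_43_287) (V3.good_chw _ _ t44_43_288) d
  · exact crit 293 (by decide +kernel) (V3.good_chw _ _ t44_44_293) (V3.good_chw _ _ t44_44_294) d
  · exact crit 300 (by decide +kernel) (V3.good_chw _ _ t44_45_300) (V3.good_chw _ _ t44_45_301) d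
  · exact crit 306 (by decide +kernel) (V3.good_chw _ _ t44_46_306) (V3.good_chw _ _ t44_46_307) d
  · exact crit 313 (by decide +kernel) (V3.good_chw _ _ t44_47_313) (V3.good_chw _ _ t44_47_314) d
  · exact crit 320 (by decide +kernel) (V3.good_chw _ _ t44_48_320) (V3.good_chw _ _ t44_48_321) d
  · exact crit 326 (by decide +kernel) (V3.good_chw _ _ t44_49_326) (V3.good_chw _ _ t44_49_327) d
  · exact crit 333 (by decide +kernel) (V3.good_chw _ _ t44_50_333) (V3.good_chw _ _ t44_50_334) d

def t45_19_129 : V3.chw 45 19 129 2 [7, 4, 3] = true := by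
  decide +kernel

def t45_19_130 : V3.chw 45 19 130 3 [11] = true := by
  decide +kernel

def t45_20_135 : V3.chw 45 20 135 4 [11] = true := by
  decide +kernel

def t45_20_136 : V3.chw 45 20 136 3 [3, 9, 1039, 1042] = true := by
  decide +kernel

def t45_21_142 : V3.chw 45 21 142 4 [9, 3] = true := by
  decide +kernel

def t45_21_143 : V3.chw 45 21 143 2 [5, 10] = true := by
  decide +kernel

def t45_22_149 : V3.chw 45 22 149 3 [8, 5, 1] = true := by
  decide +kernel

def t45_22_150 : V3.chw 45 22 150 2 [5, 10] = true := by
  decide +kernel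

def t45_23_156 : V3.chw 45 23 156 5 [7, 1, 1044] = true := by
  decide +kernel

def t45_23_157 : V3.chw 45 23 157 3 [11] = true := by
  decide +kernel

def t45_24_162 : V3.chw 45 24 162 4 [9, 3] = true := by
  decide +kernel

def t45_24_163 : V3.chw 45 24 163 4 [1, 1, 10] = true := by
  decide +kernel

def t45_25_169 : V3.chw 45 25 169 5 [7, 2] = true := by
  decide +kernel

def t45_25_170 : V3.chw 45 25 170 2 [5, 10] = true := by
  decide +kernel

def t45_26_176 : V3.chw 45 26 176 3 [2, 10, 2] = true := by
  decide +kernel

def t45_26_177 : V3.chw 45 26 177 2 [5, 10] = true := by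
  decide +kernel

def t45_27_182 : V3.chw 45 27 182 5 [7, 2] = true := by
  decide +kernel

def t45_27_183 : V3.chw 45 27 183 4 [1, 1019, 1030] = true := by
  decide +kernel

def t45_28_189 : V3.chw 45 28 189 5 [7, 2] = true := by
  decide +kernel

def t45_28_190 : V3.chw 45 28 190 4 [1, 1, 10] = true := by
  decide +kernel

def t45_29_196 : V3.chw 45 29 196 3 [8, 5, 1] = true := by
  decide +kernel

def t45_29_197 : V3.chw 45 29 197 2 [5, 10] = true := by
  decide +kernel

def t45_30_203 : V3.chw 45 30 203 4 [6, 5, 1042, 1] = true := by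
  decide +kernel

def t45_30_204 : V3.chw 45 30 204 2 [5, 10] = true := by
  decide +kernel

def t45_31_209 : V3.chw 45 31 209 5 [7, 2] = true := by
  decide +kernel

def t45_31_210 : V3.chw 45 31 210 4 [1, 1, 10] = true := by
  decide +kernel

def t45_32_216 : V3.chw 45 32 216 5 [7, 2] = true := by
  decide +kernel

def t45_32_217 : V3.chw 45 32 217 2 [5, 10] = true := by
  decide +kernel

def t45_33_223 : V3.chw 45 33 223 2 [1, 1016, 2] = true := by
  decide +kernel

def t45_33_224 : V3.chw 45 33 224 2 [5, 10] = true := by
  decide +kernel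

def t45_34_229 : V3.chw 45 34 229 5 [7, 2] = true := by
  decide +kernel

def t45_34_230 : V3.chw 45 34 230 4 [1, 1019, 10] = true := by
  decide +kernel

def t45_35_236 : V3.chw 45 35 236 5 [7, 2] = true := by
  decide +kernel

def t45_35_237 : V3.chw 45 35 237 5 [7, 2] = true := by
  decide +kernel

def t45_36_243 : V3.chw 45 36 243 3 [2, 10, 2] = true := by
  decide +kernel

def t45_36_244 : V3.chw 45 36 244 2 [5, 10] = true := by
  decide +kernel

def t45_37_250 : V3.chw 45 37 250 5 [2, 1031, 2, 1039, 1041, 1043] = true := by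
  decide +kernel

def t45_37_251 : V3.chw 45 37 251 2 [5, 10] = true := by
  decide +kernel

def t45_38_256 : V3.chw 45 38 256 5 [7, 2] = true := by
  decide +kernel

def t45_38_257 : V3.chw 45 38 257 4 [1, 1, 10] = true := by
  decide +kernel

def t45_39_263 : V3.chw 45 39 263 5 [7, 2] = true := by
  decide +kernel

def t45_39_264 : V3.chw 45 39 264 2 [5, 10] = true := by
  decide +kernel

def t45_40_270 : V3.chw 45 40 270 5 [7, 1, 1044] = true := by
  decide +kernel

def t45_40_271 : V3.chw 45 40 271 2 [5, 10] = true := by
  decide +kernel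

def t45_41_276 : V3.chw 45 41 276 5 [7, 2] = true := by
  decide +kernel

def t45_41_277 : V3.chw 45 41 277 4 [1, 1019, 10] = true := by
  decide +kernel

def t45_42_283 : V3.chw 45 42 283 5 [7, 2] = true := by
  decide +kernel

def t45_42_284 : V3.chw 45 42 284 5 [7, 2] = true := by
  decide +kernel

def t45_43_290 : V3.chw 45 43 290 5 [7, 1040, 2] = true := by
  decide +kernel

def t45_43_291 : V3.chw 45 43 291 2 [5, 10] = true := by
  decide +kernel

def t45_44_296 : V3.chw 45 44 296 2 [7, 1037] = true := by
  decide +kernel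

def t45_44_297 : V3.chw 45 44 297 3 [1, 1016, 1022, 1023, 1024, 1025, 1026, 1027, 1, 1, 1033, 1, 1, 1039, 1040, 1041, 1043] = true := by
  decide +kernel

def t45_45_303 : V3.chw 45 45 303 5 [7, 2] = true := by
  decide +kernel

def t45_45_304 : V3.chw 45 45 304 5 [7, 1040, 2] = true := by
  decide +kernel

def t45_46_310 : V3.chw 45 46 310 4 [9, 1040, 2] = true := by
  decide +kernel

def t45_46_311 : V3.chw 45 46 311 5 [7, 2] = true := by
  decide +kernel

def t45_47_317 : V3.chw 45 47 317 4 [1, 1019, 1030, 1044] = true := by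
  decide +kernel

def t45_47_318 : V3.chw 45 47 318 2 [5, 10] = true := by
  decide +kernel

def t45_48_323 : V3.chw 45 48 323 5 [7, 2] = true := by
  decide +kernel

def t45_48_324 : V3.chw 45 48 324 2 [1, 1009, 1013, 1, 2, 1022, 1023, 1024, 3, 1031, 1033, 3, 1041, 1043] = true := by
  decide +kernel

def t45_49_330 : V3.chw 45 49 330 5 [7, 2] = true := by
  decide +kernel

def t45_49_331 : V3.chw 45 49 331 5 [7, 2] = true := by
  decide +kernel

def t45_50_337 : V3.chw 45 50 337 2 [1, 1016, 1040, 1041, 1043] = true := by
  decide +kernel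

def t45_50_338 : V3.chw 45 50 338 2 [5, 10] = true := by
  decide +kernel

theorem R45 {K : Type*} [Field K] [CharZero K] (m d : ℕ) (h : m ≤ 50) : MR K 45 m d := by
  interval_cases m
  · exact good_cova 5 (by decide +kernel) d
  · exact good_cova 5 (by decide +kernel) d
  · exact good_cova 5 (by decide +kernel) d
  · exact good_cova 5 (by decide +kernel) d
  · exact good_cova 5 (by decide +kernel) d
  · exact good_cova 5 (by decide +kernel) d
  · exact good_cova 5 (by decide +kernel) d
  · exact good_cova 5 (by decide +kernel) d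
  · exact good_cova 5 (by decide +kernel) d
  · exact good_cova 5 (by decide +kernel) d
  · exact good_cova 5 (by decide +kernel) d
  · exact good_cova 5 (by decide +kernel) d
  · exact good_cova 5 (by decide +kernel) d
  · exact good_cova 5 (by decide +kernel) d
  · exact good_cova 5 (by decide +kernel) d
  · exact good_cova 5 (by decide +kernel) d
  · exact good_cova 5 (by decide +kernel) d
  · exact good_cova 5 (by decide +kernel) d
  · exact good_cova 5 (by decide +kernel) d
  · exact crit 129 (by decide +kernel) (V3.good_chw _ _ t45_19_129) (V3.good_chw _ _ t45_19_130) d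
  · exact crit 135 (by decide +kernel) (V3.good_chw _ _ t45_20_135) (V3.good_chw _ _ t45_20_136) d
  · exact crit 142 (by decide +kernel) (V3.good_chw _ _ t45_21_142) (V3.good_chw _ _ t45_21_143) d
  · exact crit 149 (by decide +kernel) (V3.good_chw _ _ t45_22_149) (V3.good_chw _ _ t45_22_150) d
  · exact crit 156 (by decide +kernel) (V3.good_chw _ _ t45_23_156) (V3.good_chw _ _ t45_23_157) d
  · exact crit 162 (by decide +kernel) (V3.good_chw _ _ t45_24_162) (V3.good_chw _ _ t45_24_163) d
  · exact crit 169 (by decide +kernel) (V3.good_chw _ _ t45_25_169) (V3.good_chw _ _ t45_25_170) d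
  · exact crit 176 (by decide +kernel) (V3.good_chw _ _ t45_26_176) (V3.good_chw _ _ t45_26_177) d
  · exact crit 182 (by decide +kernel) (V3.good_chw _ _ t45_27_182) (V3.good_chw _ _ t45_27_183) d
  · exact crit 189 (by decide +kernel) (V3.good_chw _ _ t45_28_189) (V3.good_chw _ _ t45_28_190) d
  · exact crit 196 (by decide +kernel) (V3.good_chw _ _ t45_29_196) (V3.good_chw _ _ t45_29_197) d
  · exact crit 203 (by decide +kernel) (V3.good_chw _ _ t45_30_203) (V3.good_chw _ _ t45_30_204) d
  · exact crit 209 (by decide +kernel) (V3.good_chw _ _ t45_31_209) (V3.good_chw _ _ t45_31_210) d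
  · exact crit 216 (by decide +kernel) (V3.good_chw _ _ t45_32_216) (V3.good_chw _ _ t45_32_217) d
  · exact crit 223 (by decide +kernel) (V3.good_chw _ _ t45_33_223) (V3.good_chw _ _ t45_33_224) d
  · exact crit 229 (by decide +kernel) (V3.good_chw _ _ t45_34_229) (V3.good_chw _ _ t45_34_230) d
  · exact crit 236 (by decide +kernel) (V3.good_chw _ _ t45_35_236) (V3.good_chw _ _ t45_35_237) d
  · exact crit 243 (by decide +kernel) (V3.good_chw _ _ t45_36_243) (V3.good_chw _ _ t45_36_244) d
  · exact crit 250 (by decide +kernel) (V3.good_chw _ _ t45_37_250) (V3.good_chw _ _ t45_37_251) d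
  · exact crit 256 (by decide +kernel) (V3.good_chw _ _ t45_38_256) (V3.good_chw _ _ t45_38_257) d
  · exact crit 263 (by decide +kernel) (V3.good_chw _ _ t45_39_263) (V3.good_chw _ _ t45_39_264) d
  · exact crit 270 (by decide +kernel) (V3.good_chw _ _ t45_40_270) (V3.good_chw _ _ t45_40_271) d
  · exact crit 276 (by decide +kernel) (V3.good_chw _ _ t45_41_276) (V3.good_chw _ _ t45_41_277) d
  · exact crit 283 (by decide +kernel) (V3.good_chw _ _ t45_42_283) (V3.good_chw _ _ t45_42_284) d
  · exact crit 290 (by decide +kernel) (V3.good_chw _ _ t45_43_290) (V3.good_chw _ _ t45_43_291) d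
  · exact crit 296 (by decide +kernel) (V3.good_chw _ _ t45_44_296) (V3.good_chw _ _ t45_44_297) d
  · exact crit 303 (by decide +kernel) (V3.good_chw _ _ t45_45_303) (V3.good_chw _ _ t45_45_304) d
  · exact crit 310 (by decide +kernel) (V3.good_chw _ _ t45_46_310) (V3.good_chw _ _ t45_46_311) d
  · exact crit 317 (by decide +kernel) (V3.good_chw _ _ t45_47_317) (V3.good_chw _ _ t45_47_318) d
  · exact crit 323 (by decide +kernel) (V3.good_chw _ _ t45_48_323) (V3.good_chw _ _ t45_48_324) d
  · exact crit 330 (by decide +kernel) (V3.good_chw _ _ t45_49_330) (V3.good_chw _ _ t45_49_331) d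
  · exact crit 337 (by decide +kernel) (V3.good_chw _ _ t45_50_337) (V3.good_chw _ _ t45_50_338) d

end Pool.Agent.Helper54.FM
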