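import Pool.Agent.Helper54.FM.Fast3
import Pool.Agent.Helper54.FM.KC7

set_option autoImplicit false
set_option maxRecDepth 100000
set_option linter.defProp false

/-! Project FM (helper54), MP_e6aa12_ag: r = 46..51, m <= 50 (generated). -/

namespace Pool.Agent.Helper54.FM

def t46_32_218 : V3.chw 46 32 218 5 [9] = true := by
  decide +kernel

def t46_32_219 : V3.chw 46 32 219 3 [1, 11, 1] = true := by
  decide +kernel

def t46_33_225 : V3.chw 46 33 225 3 [10, 2, 1] = true := by
  decide +kernel

def t46_33_226 : V3.chw 46 33 226 2 [1, 4, 11] = true := by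
  decide +kernel

def t46_34_232 : V3.chw 46 34 232 2 [3, 11, 1] = true := by
  decide +kernel

def t46_34_233 : V3.chw 46 34 233 2 [1, 4, 11] = true := by
  decide +kernel

def t46_35_239 : V3.chw 46 35 239 3 [1, 11, 1] = true := by
  decide +kernel

def t46_35_240 : V3.chw 46 35 240 2 [7, 7] = true := by
  decide +kernel

def t46_36_246 : V3.chw 46 36 246 3 [1, 11, 1045] = true := by
  decide +kernel

def t46_36_247 : V3.chw 46 36 247 5 [9] = true := by
  decide +kernel

def t46_37_252 : V3.chw 46 37 252 5 [9] = true := by
  decide +kernel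

def t46_37_253 : V3.chw 46 37 253 3 [1, 11, 1] = true := by
  decide +kernel

def t46_38_259 : V3.chw 46 38 259 3 [10, 2, 1] = true := by
  decide +kernel

def t46_38_260 : V3.chw 46 38 260 2 [1, 4, 11] = true := by
  decide +kernel

def t46_39_266 : V3.chw 46 39 266 3 [1, 11, 1] = true := by
  decide +kernel

def t46_39_267 : V3.chw 46 39 267 2 [7, 7] = true := by
  decide +kernel

def t46_40_273 : V3.chw 46 40 273 3 [1, 11, 1] = true := by
  decide +kernel

def t46_40_274 : V3.chw 46 40 274 2 [7, 7] = true := by
  decide +kernel

def t46_41_279 : V3.chw 46 41 279 5 [9] = true := by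
  decide +kernel

def t46_41_280 : V3.chw 46 41 280 3 [1, 11, 1] = true := by
  decide +kernel

def t46_42_286 : V3.chw 46 42 286 4 [7, 6] = true := by
  decide +kernel

def t46_42_287 : V3.chw 46 42 287 3 [1, 11, 1] = true := by
  decide +kernel

def t46_43_293 : V3.chw 46 43 293 5 [3, 1038] = true := by
  decide +kernel

def t46_43_294 : V3.chw 46 43 294 5 [3, 1038] = true := by
  decide +kernel

def t46_44_300 : V3.chw 46 44 300 4 [7, 1039, 1045] = true := by
  decide +kernel

def t46_44_301 : V3.chw 46 44 301 2 [7, 7] = true := by
  decide +kernel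

def t46_45_307 : V3.chw 46 45 307 6 [1033, 2, 1041, 1042, 1044] = true := by
  decide +kernel

def t46_45_308 : V3.chw 46 45 308 2 [1, 1017] = true := by
  decide +kernel

def t46_46_313 : V3.chw 46 46 313 6 [3, 1044] = true := by
  decide +kernel

def t46_46_314 : V3.chw 46 46 314 4 [7, 1039, 1045] = true := by
  decide +kernel

def t46_47_320 : V3.chw 46 47 320 5 [3, 1038] = true := by
  decide +kernel

def t46_47_321 : V3.chw 46 47 321 6 [1038, 1043] = true := by
  decide +kernel

def t46_48_327 : V3.chw 46 48 327 3 [10, 1043] = true := by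
  decide +kernel

def t46_48_328 : V3.chw 46 48 328 2 [9, 1044] = true := by
  decide +kernel

def t46_49_334 : V3.chw 46 49 334 6 [1, 2, 1044] = true := by
  decide +kernel

def t46_49_335 : V3.chw 46 49 335 2 [7, 7] = true := by
  decide +kernel

def t46_50_340 : V3.chw 46 50 340 6 [3, 1044] = true := by
  decide +kernel

def t46_50_341 : V3.chw 46 50 341 3 [1, 11, 1044, 1045] = true := by
  decide +kernel

theorem R46 {K : Type*} [Field K] [CharZero K] (m d : ℕ) (h : m ≤ 50) : MR K 46 m d := by
  interval_cases m
  · exact good_cova 6 (by decide +kernel) d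
  · exact good_cova 6 (by decide +kernel) d
  · exact good_cova 6 (by decide +kernel) d
  · exact good_cova 6 (by decide +kernel) d
  · exact good_cova 6 (by decide +kernel) d
  · exact good_cova 6 (by decide +kernel) d
  · exact good_cova 6 (by decide +kernel) d
  · exact good_cova 6 (by decide +kernel) d
  · exact good_cova 6 (by decide +kernel) d
  · exact good_cova 6 (by decide +kernel) d
  · exact good_cova 6 (by decide +kernel) d
  · exact good_cova 6 (by decide +kernel) d
  · exact good_cova 6 (by decide +kernel) d
  · exact good_cova 6 (by decide +kernel) d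
  · exact good_cova 6 (by decide +kernel) d
  · exact good_cova 6 (by decide +kernel) d
  · exact good_cova 6 (by decide +kernel) d
  · exact good_cova 6 (by decide +kernel) d
  · exact good_cova 6 (by decide +kernel) d
  · exact good_cova 6 (by decide +kernel) d
  · exact good_cova 6 (by decide +kernel) d
  · exact good_cova 6 (by decide +kernel) d
  · exact good_cova 6 (by decide +kernel) d
  · exact good_cova 6 (by decide +kernel) d
  · exact good_cova 6 (by decide +kernel) d
  · exact good_cova 6 (by decide +kernel) d
  · exact good_cova 6 (by decide +kernel) d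
  · exact good_cova 6 (by decide +kernel) d
  · exact good_cova 6 (by decide +kernel) d
  · exact good_cova 6 (by decide +kernel) d
  · exact good_cova 6 (by decide +kernel) d
  · exact good_cova 6 (by decide +kernel) d
  · exact crit 218 (by decide +kernel) (V3.good_chw _ _ t46_32_218) (V3.good_chw _ _ t46_32_219) d
  · exact crit 225 (by decide +kernel) (V3.good_chw _ _ t46_33_225) (V3.good_chw _ _ t46_33_226) d
  · exact crit 232 (by decide +kernel) (V3.good_chw _ _ t46_34_232) (V3.good_chw _ _ t46_34_233) d
  · exact crit 239 (by decide +kernel) (V3.good_chw _ _ t46_35_239) (V3.good_chw _ _ t46_35_240) d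
  · exact crit 246 (by decide +kernel) (V3.good_chw _ _ t46_36_246) (V3.good_chw _ _ t46_36_247) d
  · exact crit 252 (by decide +kernel) (V3.good_chw _ _ t46_37_252) (V3.good_chw _ _ t46_37_253) d
  · exact crit 259 (by decide +kernel) (V3.good_chw _ _ t46_38_259) (V3.good_chw _ _ t46_38_260) d
  · exact crit 266 (by decide +kernel) (V3.good_chw _ _ t46_39_266) (V3.good_chw _ _ t46_39_267) d
  · exact crit 273 (by decide +kernel) (V3.good_chw _ _ t46_40_273) (V3.good_chw _ _ t46_40_274) d
  · exact crit 279 (by decide +kernel) (V3.good_chw _ _ t46_41_279) (V3.good_chw _ _ t46_41_280) d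
  · exact crit 286 (by decide +kernel) (V3.good_chw _ _ t46_42_286) (V3.good_chw _ _ t46_42_287) d
  · exact crit 293 (by decide +kernel) (V3.good_chw _ _ t46_43_293) (V3.good_chw _ _ t46_43_294) d
  · exact crit 300 (by decide +kernel) (V3.good_chw _ _ t46_44_300) (V3.good_chw _ _ t46_44_301) d
  · exact crit 307 (by decide +kernel) (V3.good_chw _ _ t46_45_307) (V3.good_chw _ _ t46_45_308) d
  · exact crit 313 (by decide +kernel) (V3.good_chw _ _ t46_46_313) (V3.good_chw _ _ t46_46_314) d
  · exact crit 320 (by decide +kernel) (V3.good_chw _ _ t46_47_320) (V3.good_chw _ _ t46_47_321) d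
  · exact crit 327 (by decide +kernel) (V3.good_chw _ _ t46_48_327) (V3.good_chw _ _ t46_48_328) d
  · exact crit 334 (by decide +kernel) (V3.good_chw _ _ t46_49_334) (V3.good_chw _ _ t46_49_335) d
  · exact crit 340 (by decide +kernel) (V3.good_chw _ _ t46_50_340) (V3.good_chw _ _ t46_50_341) d

def t47_18_125 : V3.chw 47 18 125 3 [8, 5, 2] = true := by
  decide +kernel

def t47_18_126 : V3.chw 47 18 126 6 [5] = true := by
  decide +kernel

def t47_19_132 : V3.chw 47 19 132 5 [7, 1042, 2] = true := by
  decide +kernel

def t47_19_133 : V3.chw 47 19 133 6 [5] = true := by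
  decide +kernel

def t47_20_139 : V3.chw 47 20 139 5 [1027, 1031, 1035, 1037, 1039, 1041, 1043, 1046] = true := by
  decide +kernel

def t47_21_145 : V3.chw 47 21 145 6 [5] = true := by
  decide +kernel

def t47_21_146 : V3.chw 47 21 146 2 [3, 9, 2, 1, 2] = true := by
  decide +kernel

def t47_22_152 : V3.chw 47 22 152 5 [7, 3] = true := by
  decide +kernel

def t47_22_153 : V3.chw 47 22 153 2 [5, 5, 7] = true := by
  decide +kernel

def t47_23_159 : V3.chw 47 23 159 5 [7, 3] = true := by
  decide +kernel

def t47_23_160 : V3.chw 47 23 160 4 [3, 10] = true := by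
  decide +kernel

def t47_24_166 : V3.chw 47 24 166 3 [8, 5, 2] = true := by
  decide +kernel

def t47_24_167 : V3.chw 47 24 167 6 [5] = true := by
  decide +kernel

def t47_25_173 : V3.chw 47 25 173 3 [8, 1038, 1046] = true := by
  decide +kernel

def t47_25_174 : V3.chw 47 25 174 6 [5] = true := by
  decide +kernel

def t47_26_180 : V3.chw 47 26 180 3 [8, 1038, 1046] = true := by
  decide +kernel

def t47_26_181 : V3.chw 47 26 181 6 [5] = true := by
  decide +kernel

def t47_27_187 : V3.chw 47 27 187 3 [7, 4, 1037, 1039, 1041, 1042, 1, 1] = true := by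
  decide +kernel

def t47_28_193 : V3.chw 47 28 193 5 [7, 3] = true := by
  decide +kernel

def t47_28_194 : V3.chw 47 28 194 2 [3, 9, 1, 2, 2] = true := by
  decide +kernel

def t47_29_200 : V3.chw 47 29 200 5 [7, 3] = true := by
  decide +kernel

def t47_29_201 : V3.chw 47 29 201 2 [7, 3, 1, 4] = true := by
  decide +kernel

def t47_30_207 : V3.chw 47 30 207 5 [6, 4] = true := by
  decide +kernel

def t47_30_208 : V3.chw 47 30 208 3 [2, 10, 3] = true := by
  decide +kernel

def t47_31_214 : V3.chw 47 31 214 3 [8, 5, 2] = true := by
  decide +kernel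

def t47_31_215 : V3.chw 47 31 215 4 [3, 10] = true := by
  decide +kernel

def t47_32_221 : V3.chw 47 32 221 3 [8, 1038, 1046] = true := by
  decide +kernel

def t47_32_222 : V3.chw 47 32 222 6 [5] = true := by
  decide +kernel

def t47_33_228 : V3.chw 47 33 228 3 [5, 1032, 1046] = true := by
  decide +kernel

def t47_33_229 : V3.chw 47 33 229 6 [5] = true := by
  decide +kernel

def t47_34_234 : V3.chw 47 34 234 5 [7, 3] = true := by
  decide +kernel

def t47_34_235 : V3.chw 47 34 235 2 [1, 1, 1009, 1010, 1011, 1014, 1016, 1018, 1019, 1021, 1, 1025, 1026, 1028, 1029, 1, 1034, 1037, 1039, 1041, 1042, 1, 1] = true := by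
  decide +kernel

def t47_35_241 : V3.chw 47 35 241 5 [7, 3] = true := by
  decide +kernel

def t47_35_242 : V3.chw 47 35 242 2 [3, 1024] = true := by
  decide +kernel

def t47_36_248 : V3.chw 47 36 248 3 [4, 11] = true := by
  decide +kernel

def t47_36_249 : V3.chw 47 36 249 2 [7, 3, 1, 4] = true := by
  decide +kernel

def t47_37_255 : V3.chw 47 37 255 3 [8, 5, 2] = true := by
  decide +kernel

def t47_37_256 : V3.chw 47 37 256 4 [3, 10] = true := by
  decide +kernel

def t47_38_262 : V3.chw 47 38 262 3 [8, 5, 2] = true := by
  decide +kernel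

def t47_38_263 : V3.chw 47 38 263 4 [3, 10] = true := by
  decide +kernel

def t47_39_269 : V3.chw 47 39 269 4 [5, 1036, 1046] = true := by
  decide +kernel

def t47_39_270 : V3.chw 47 39 270 4 [1, 11] = true := by
  decide +kernel

def t47_40_276 : V3.chw 47 40 276 4 [3, 10, 1046] = true := by
  decide +kernel

def t47_40_277 : V3.chw 47 40 277 4 [1, 11] = true := by
  decide +kernel

def t47_41_282 : V3.chw 47 41 282 5 [7, 3] = true := by
  decide +kernel

def t47_41_283 : V3.chw 47 41 283 2 [1, 1008, 1, 1012, 1013, 1017, 1020, 1021, 1022, 1023, 1024, 1025, 1027, 1029, 1, 1033, 1034, 1035, 1036, 1037, 1038, 1, 1041, 1042, 1043, 1044, 1] = true := by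
  decide +kernel

def t47_42_289 : V3.chw 47 42 289 5 [7, 3] = true := by
  decide +kernel

def t47_42_290 : V3.chw 47 42 290 2 [3, 1024] = true := by
  decide +kernel

def t47_43_296 : V3.chw 47 43 296 5 [6, 4] = true := by
  decide +kernel

def t47_43_297 : V3.chw 47 43 297 2 [3, 1024] = true := by
  decide +kernel

def t47_44_303 : V3.chw 47 44 303 3 [8, 1038, 1] = true := by
  decide +kernel

def t47_44_304 : V3.chw 47 44 304 2 [3, 1024] = true := by
  decide +kernel

def t47_45_310 : V3.chw 47 45 310 3 [8, 1038, 1] = true := by
  decide +kernel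

def t47_45_311 : V3.chw 47 45 311 2 [3, 1024] = true := by
  decide +kernel

def t47_46_317 : V3.chw 47 46 317 5 [7, 2, 1046] = true := by
  decide +kernel

def t47_46_318 : V3.chw 47 46 318 2 [3, 1024] = true := by
  decide +kernel

def t47_47_324 : V3.chw 47 47 324 2 [3, 1024, 1046] = true := by
  decide +kernel

def t47_47_325 : V3.chw 47 47 325 2 [3, 1024] = true := by
  decide +kernel

def t47_48_330 : V3.chw 47 48 330 5 [7, 3] = true := by
  decide +kernel

def t47_48_331 : V3.chw 47 48 331 2 [1, 1007, 1, 1011, 1012, 1016, 1020, 1021, 1022, 1023, 1025, 1, 1029, 1, 1033, 1034, 1036, 1037, 1039, 1, 1043, 1044, 1] = true := by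
  decide +kernel

def t47_49_337 : V3.chw 47 49 337 4 [5, 1036] = true := by
  decide +kernel

def t47_49_338 : V3.chw 47 49 338 2 [3, 1024] = true := by
  decide +kernel

def t47_50_344 : V3.chw 47 50 344 4 [5, 1036] = true := by
  decide +kernel

def t47_50_345 : V3.chw 47 50 345 2 [3, 1024] = true := by
  decide +kernel

theorem R47 {K : Type*} [Field K] [CharZero K] (m d : ℕ) (h : m ≤ 50) : MR K 47 m d := by
  interval_cases m
  · exact good_cova 5 (by decide +kernel) d
  · exact good_cova 5 (by decide +kernel) d
  · exact good_cova 5 (by decide +kernel) d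
  · exact good_cova 5 (by decide +kernel) d
  · exact good_cova 5 (by decide +kernel) d
  · exact good_cova 5 (by decide +kernel) d
  · exact good_cova 5 (by decide +kernel) d
  · exact good_cova 5 (by decide +kernel) d
  · exact good_cova 5 (by decide +kernel) d
  · exact good_cova 5 (by decide +kernel) d
  · exact good_cova 5 (by decide +kernel) d
  · exact good_cova 5 (by decide +kernel) d
  · exact good_cova 5 (by decide +kernel) d
  · exact good_cova 5 (by decide +kernel) d
  · exact good_cova 5 (by decide +kernel) d
  · exact good_cova 5 (by decide +kernel) d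
  · exact good_cova 5 (by decide +kernel) d
  · exact good_cova 5 (by decide +kernel) d
  · exact crit 125 (by decide +kernel) (V3.good_chw _ _ t47_18_125) (V3.good_chw _ _ t47_18_126) d
  · exact crit 132 (by decide +kernel) (V3.good_chw _ _ t47_19_132) (V3.good_chw _ _ t47_19_133) d
  · exact crit0 139 (by decide +kernel) (V3.good_chw _ _ t47_20_139) d
  · exact crit 145 (by decide +kernel) (V3.good_chw _ _ t47_21_145) (V3.good_chw _ _ t47_21_146) d
  · exact crit 152 (by decide +kernel) (V3.good_chw _ _ t47_22_152) (V3.good_chw _ _ t47_22_153) d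
  · exact crit 159 (by decide +kernel) (V3.good_chw _ _ t47_23_159) (V3.good_chw _ _ t47_23_160) d
  · exact crit 166 (by decide +kernel) (V3.good_chw _ _ t47_24_166) (V3.good_chw _ _ t47_24_167) d
  · exact crit 173 (by decide +kernel) (V3.good_chw _ _ t47_25_173) (V3.good_chw _ _ t47_25_174) d
  · exact crit 180 (by decide +kernel) (V3.good_chw _ _ t47_26_180) (V3.good_chw _ _ t47_26_181) d
  · exact crit0 187 (by decide +kernel) (V3.good_chw _ _ t47_27_187) d
  · exact crit 193 (by decide +kernel) (V3.good_chw _ _ t47_28_193) (V3.good_chw _ _ t47_28_194) d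
  · exact crit 200 (by decide +kernel) (V3.good_chw _ _ t47_29_200) (V3.good_chw _ _ t47_29_201) d
  · exact crit 207 (by decide +kernel) (V3.good_chw _ _ t47_30_207) (V3.good_chw _ _ t47_30_208) d
  · exact crit 214 (by decide +kernel) (V3.good_chw _ _ t47_31_214) (V3.good_chw _ _ t47_31_215) d
  · exact crit 221 (by decide +kernel) (V3.good_chw _ _ t47_32_221) (V3.good_chw _ _ t47_32_222) d
  · exact crit 228 (by decide +kernel) (V3.good_chw _ _ t47_33_228) (V3.good_chw _ _ t47_33_229) d
  · exact crit 234 (by decide +kernel) (V3.good_chw _ _ t47_34_234) (V3.good_chw _ _ t47_34_235) d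
  · exact crit 241 (by decide +kernel) (V3.good_chw _ _ t47_35_241) (V3.good_chw _ _ t47_35_242) d
  · exact crit 248 (by decide +kernel) (V3.good_chw _ _ t47_36_248) (V3.good_chw _ _ t47_36_249) d
  · exact crit 255 (by decide +kernel) (V3.good_chw _ _ t47_37_255) (V3.good_chw _ _ t47_37_256) d
  · exact crit 262 (by decide +kernel) (V3.good_chw _ _ t47_38_262) (V3.good_chw _ _ t47_38_263) d
  · exact crit 269 (by decide +kernel) (V3.good_chw _ _ t47_39_269) (V3.good_chw _ _ t47_39_270) d
  · exact crit 276 (by decide +kernel) (V3.good_chw _ _ t47_40_276) (V3.good_chw _ _ t47_40_277) d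
  · exact crit 282 (by decide +kernel) (V3.good_chw _ _ t47_41_282) (V3.good_chw _ _ t47_41_283) d
  · exact crit 289 (by decide +kernel) (V3.good_chw _ _ t47_42_289) (V3.good_chw _ _ t47_42_290) d
  · exact crit 296 (by decide +kernel) (V3.good_chw _ _ t47_43_296) (V3.good_chw _ _ t47_43_297) d
  · exact crit 303 (by decide +kernel) (V3.good_chw _ _ t47_44_303) (V3.good_chw _ _ t47_44_304) d
  · exact crit 310 (by decide +kernel) (V3.good_chw _ _ t47_45_310) (V3.good_chw _ _ t47_45_311) d
  · exact crit 317 (by decide +kernel) (V3.good_chw _ _ t47_46_317) (V3.good_chw _ _ t47_46_318) d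
  · exact crit 324 (by decide +kernel) (V3.good_chw _ _ t47_47_324) (V3.good_chw _ _ t47_47_325) d
  · exact crit 330 (by decide +kernel) (V3.good_chw _ _ t47_48_330) (V3.good_chw _ _ t47_48_331) d
  · exact crit 337 (by decide +kernel) (V3.good_chw _ _ t47_49_337) (V3.good_chw _ _ t47_49_338) d
  · exact crit 344 (by decide +kernel) (V3.good_chw _ _ t47_50_344) (V3.good_chw _ _ t47_50_345) d

def t48_31_216 : V3.chw 48 31 216 5 [9, 1] = true := by
  decide +kernel

def t48_31_217 : V3.chw 48 31 217 2 [3, 12] = true := by
  decide +kernel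

def t48_32_223 : V3.chw 48 32 223 2 [5, 11] = true := by
  decide +kernel

def t48_32_224 : V3.chw 48 32 224 2 [3, 12] = true := by
  decide +kernel

def t48_33_230 : V3.chw 48 33 230 2 [5, 11] = true := by
  decide +kernel

def t48_33_231 : V3.chw 48 33 231 2 [3, 12] = true := by
  decide +kernel

def t48_34_237 : V3.chw 48 34 237 3 [1, 11, 2] = true := by
  decide +kernel

def t48_34_238 : V3.chw 48 34 238 2 [3, 12] = true := by
  decide +kernel

def t48_35_244 : V3.chw 48 35 244 3 [1, 11, 2] = true := by
  decide +kernel

def t48_35_245 : V3.chw 48 35 245 2 [3, 12] = true := by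
  decide +kernel

def t48_36_251 : V3.chw 48 36 251 3 [1, 11, 2] = true := by
  decide +kernel

def t48_36_252 : V3.chw 48 36 252 2 [3, 12] = true := by
  decide +kernel

def t48_37_258 : V3.chw 48 37 258 3 [1, 11, 2] = true := by
  decide +kernel

def t48_37_259 : V3.chw 48 37 259 2 [3, 12] = true := by
  decide +kernel

def t48_38_265 : V3.chw 48 38 265 3 [1, 11, 2] = true := by
  decide +kernel

def t48_38_266 : V3.chw 48 38 266 2 [3, 12] = true := by
  decide +kernel

def t48_39_272 : V3.chw 48 39 272 3 [10, 1, 1045] = true := by
  decide +kernel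

def t48_39_273 : V3.chw 48 39 273 2 [3, 12] = true := by
  decide +kernel

def t48_40_279 : V3.chw 48 40 279 6 [1037, 1040, 1, 1046] = true := by
  decide +kernel

def t48_40_280 : V3.chw 48 40 280 2 [3, 12] = true := by
  decide +kernel

def t48_42_292 : V3.chw 48 42 292 5 [9, 1] = true := by
  decide +kernel

def t48_42_293 : V3.chw 48 42 293 2 [3, 12] = true := by
  decide +kernel

def t48_43_299 : V3.chw 48 43 299 6 [3, 1045] = true := by
  decide +kernel

def t48_43_300 : V3.chw 48 43 300 2 [3, 12] = true := by
  decide +kernel

def t48_44_306 : V3.chw 48 44 306 6 [3, 1045] = true := by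
  decide +kernel

def t48_44_307 : V3.chw 48 44 307 2 [3, 12] = true := by
  decide +kernel

def t48_45_313 : V3.chw 48 45 313 5 [9, 1047] = true := by
  decide +kernel

def t48_45_314 : V3.chw 48 45 314 2 [3, 12] = true := by
  decide +kernel

def t48_46_320 : V3.chw 48 46 320 6 [3, 1045] = true := by
  decide +kernel

def t48_46_321 : V3.chw 48 46 321 2 [3, 12] = true := by
  decide +kernel

def t48_47_327 : V3.chw 48 47 327 6 [3, 1045] = true := by
  decide +kernel

def t48_47_328 : V3.chw 48 47 328 2 [3, 12] = true := by
  decide +kernel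

def t48_48_334 : V3.chw 48 48 334 6 [3, 1045] = true := by
  decide +kernel

def t48_48_335 : V3.chw 48 48 335 2 [3, 12] = true := by
  decide +kernel

def t48_49_341 : V3.chw 48 49 341 6 [3, 1045] = true := by
  decide +kernel

def t48_49_342 : V3.chw 48 49 342 2 [3, 12] = true := by
  decide +kernel

def t48_50_348 : V3.chw 48 50 348 6 [1033, 3, 1045] = true := by
  decide +kernel

def t48_50_349 : V3.chw 48 50 349 2 [3, 12] = true := by
  decide +kernel

theorem R48 {K : Type*} [Field K] [CharZero K] (m d : ℕ) (h : m ≤ 50) : MR K 48 m d := by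
  interval_cases m
  · exact good_cova 6 (by decide +kernel) d
  · exact good_cova 6 (by decide +kernel) d
  · exact good_cova 6 (by decide +kernel) d
  · exact good_cova 6 (by decide +kernel) d
  · exact good_cova 6 (by decide +kernel) d
  · exact good_cova 6 (by decide +kernel) d
  · exact good_cova 6 (by decide +kernel) d
  · exact good_cova 6 (by decide +kernel) d
  · exact good_cova 6 (by decide +kernel) d
  · exact good_cova 6 (by decide +kernel) d
  · exact good_cova 6 (by decide +kernel) d
  · exact good_cova 6 (by decide +kernel) d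
  · exact good_cova 6 (by decide +kernel) d
  · exact good_cova 6 (by decide +kernel) d
  · exact good_cova 6 (by decide +kernel) d
  · exact good_cova 6 (by decide +kernel) d
  · exact good_cova 6 (by decide +kernel) d
  · exact good_cova 6 (by decide +kernel) d
  · exact good_cova 6 (by decide +kernel) d
  · exact good_cova 6 (by decide +kernel) d
  · exact good_cova 6 (by decide +kernel) d
  · exact good_cova 6 (by decide +kernel) d
  · exact good_cova 6 (by decide +kernel) d
  · exact good_cova 6 (by decide +kernel) d
  · exact good_cova 6 (by decide +kernel) d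
  · exact good_cova 6 (by decide +kernel) d
  · exact good_cova 6 (by decide +kernel) d
  · exact good_cova 6 (by decide +kernel) d
  · exact good_cova 6 (by decide +kernel) d
  · exact good_cova 6 (by decide +kernel) d
  · exact good_cova 6 (by decide +kernel) d
  · exact crit 216 (by decide +kernel) (V3.good_chw _ _ t48_31_216) (V3.good_chw _ _ t48_31_217) d
  · exact crit 223 (by decide +kernel) (V3.good_chw _ _ t48_32_223) (V3.good_chw _ _ t48_32_224) d
  · exact crit 230 (by decide +kernel) (V3.good_chw _ _ t48_33_230) (V3.good_chw _ _ t48_33_231) d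
  · exact crit 237 (by decide +kernel) (V3.good_chw _ _ t48_34_237) (V3.good_chw _ _ t48_34_238) d
  · exact crit 244 (by decide +kernel) (V3.good_chw _ _ t48_35_244) (V3.good_chw _ _ t48_35_245) d
  · exact crit 251 (by decide +kernel) (V3.good_chw _ _ t48_36_251) (V3.good_chw _ _ t48_36_252) d
  · exact crit 258 (by decide +kernel) (V3.good_chw _ _ t48_37_258) (V3.good_chw _ _ t48_37_259) d
  · exact crit 265 (by decide +kernel) (V3.good_chw _ _ t48_38_265) (V3.good_chw _ _ t48_38_266) d
  · exact crit 272 (by decide +kernel) (V3.good_chw _ _ t48_39_272) (V3.good_chw _ _ t48_39_273) d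
  · exact crit 279 (by decide +kernel) (V3.good_chw _ _ t48_40_279) (V3.good_chw _ _ t48_40_280) d
  · exact crit0 286 (by decide +kernel) K48m41d286.good d
  · exact crit 292 (by decide +kernel) (V3.good_chw _ _ t48_42_292) (V3.good_chw _ _ t48_42_293) d
  · exact crit 299 (by decide +kernel) (V3.good_chw _ _ t48_43_299) (V3.good_chw _ _ t48_43_300) d
  · exact crit 306 (by decide +kernel) (V3.good_chw _ _ t48_44_306) (V3.good_chw _ _ t48_44_307) d
  · exact crit 313 (by decide +kernel) (V3.good_chw _ _ t48_45_313) (V3.good_chw _ _ t48_45_314) d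
  · exact crit 320 (by decide +kernel) (V3.good_chw _ _ t48_46_320) (V3.good_chw _ _ t48_46_321) d
  · exact crit 327 (by decide +kernel) (V3.good_chw _ _ t48_47_327) (V3.good_chw _ _ t48_47_328) d
  · exact crit 334 (by decide +kernel) (V3.good_chw _ _ t48_48_334) (V3.good_chw _ _ t48_48_335) d
  · exact crit 341 (by decide +kernel) (V3.good_chw _ _ t48_49_341) (V3.good_chw _ _ t48_49_342) d
  · exact crit 348 (by decide +kernel) (V3.good_chw _ _ t48_50_348) (V3.good_chw _ _ t48_50_349) d

theorem R49 {K : Type*} [Field K] [CharZero K] (m d : ℕ) (h : m ≤ 50) : MR K 49 m d := by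
  interval_cases m
  · exact good_cova 7 (by decide +kernel) d
  · exact good_cova 7 (by decide +kernel) d
  · exact good_cova 7 (by decide +kernel) d
  · exact good_cova 7 (by decide +kernel) d
  · exact good_cova 7 (by decide +kernel) d
  · exact good_cova 7 (by decide +kernel) d
  · exact good_cova 7 (by decide +kernel) d
  · exact good_cova 7 (by decide +kernel) d
  · exact good_cova 7 (by decide +kernel) d
  · exact good_cova 7 (by decide +kernel) d
  · exact good_cova 7 (by decide +kernel) d
  · exact good_cova 7 (by decide +kernel) d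
  · exact good_cova 7 (by decide +kernel) d
  · exact good_cova 7 (by decide +kernel) d
  · exact good_cova 7 (by decide +kernel) d
  · exact good_cova 7 (by decide +kernel) d
  · exact good_cova 7 (by decide +kernel) d
  · exact good_cova 7 (by decide +kernel) d
  · exact good_cova 7 (by decide +kernel) d
  · exact good_cova 7 (by decide +kernel) d
  · exact good_cova 7 (by decide +kernel) d
  · exact good_cova 7 (by decide +kernel) d
  · exact good_cova 7 (by decide +kernel) d
  · exact good_cova 7 (by decide +kernel) d
  · exact good_cova 7 (by decide +kernel) d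
  · exact good_cova 7 (by decide +kernel) d
  · exact good_cova 7 (by decide +kernel) d
  · exact good_cova 7 (by decide +kernel) d
  · exact good_cova 7 (by decide +kernel) d
  · exact good_cova 7 (by decide +kernel) d
  · exact good_cova 7 (by decide +kernel) d
  · exact good_cova 7 (by decide +kernel) d
  · exact good_cova 7 (by decide +kernel) d
  · exact good_cova 7 (by decide +kernel) d
  · exact good_cova 7 (by decide +kernel) d
  · exact good_cova 7 (by decide +kernel) d
  · exact good_cova 7 (by decide +kernel) d
  · exact good_cova 7 (by decide +kernel) d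
  · exact good_cova 7 (by decide +kernel) d
  · exact good_cova 7 (by decide +kernel) d
  · exact good_cova 7 (by decide +kernel) d
  · exact good_cova 7 (by decide +kernel) d
  · exact good_cova 7 (by decide +kernel) d
  · exact good_cova 7 (by decide +kernel) d
  · exact good_cova 7 (by decide +kernel) d
  · exact good_cova 7 (by decide +kernel) d
  · exact good_cova 7 (by decide +kernel) d
  · exact good_cova 7 (by decide +kernel) d
  · exact good_cova 7 (by decide +kernel) d
  · exact good_cova 7 (by decide +kernel) d
  · exact good_cova 7 (by decide +kernel) d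

def t50_31_221 : V3.chw 50 31 221 3 [1, 12, 1] = true := by
  decide +kernel

def t50_31_222 : V3.chw 50 31 222 4 [1, 12] = true := by
  decide +kernel

def t50_32_228 : V3.chw 50 32 228 3 [1, 12, 1] = true := by
  decide +kernel

def t50_32_229 : V3.chw 50 32 229 4 [1, 12] = true := by
  decide +kernel

def t50_33_235 : V3.chw 50 33 235 3 [1, 12, 1] = true := by
  decide +kernel

def t50_33_236 : V3.chw 50 33 236 4 [1, 12] = true := by
  decide +kernel

def t50_34_242 : V3.chw 50 34 242 3 [2, 12, 1] = true := by
  decide +kernel

def t50_34_243 : V3.chw 50 34 243 4 [1, 12] = true := by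
  decide +kernel

def t50_35_249 : V3.chw 50 35 249 3 [8, 8] = true := by
  decide +kernel

def t50_35_250 : V3.chw 50 35 250 4 [1, 12] = true := by
  decide +kernel

def t50_36_256 : V3.chw 50 36 256 3 [8, 8] = true := by
  decide +kernel

def t50_36_257 : V3.chw 50 36 257 4 [1, 12] = true := by
  decide +kernel

def t50_37_263 : V3.chw 50 37 263 3 [8, 8] = true := by
  decide +kernel

def t50_37_264 : V3.chw 50 37 264 4 [1, 12] = true := by
  decide +kernel

def t50_38_270 : V3.chw 50 38 270 3 [8, 8] = true := by
  decide +kernel

def t50_38_271 : V3.chw 50 38 271 3 [1, 12, 1] = true := by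
  decide +kernel

def t50_39_277 : V3.chw 50 39 277 3 [8, 8] = true := by
  decide +kernel

def t50_39_278 : V3.chw 50 39 278 3 [1, 12, 1] = true := by
  decide +kernel

def t50_40_284 : V3.chw 50 40 284 3 [8, 8] = true := by
  decide +kernel

def t50_40_285 : V3.chw 50 40 285 2 [3, 12, 1] = true := by
  decide +kernel

def t50_41_291 : V3.chw 50 41 291 5 [8, 3] = true := by
  decide +kernel

def t50_41_292 : V3.chw 50 41 292 2 [3, 12, 1] = true := by
  decide +kernel

def t50_43_306 : V3.chw 50 43 306 2 [3, 12, 1047, 1] = true := by
  decide +kernel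

def t50_43_307 : V3.chw 50 43 307 5 [2, 9] = true := by
  decide +kernel

def t50_44_313 : V3.chw 50 44 313 3 [5, 1033, 1049] = true := by
  decide +kernel

def t50_44_314 : V3.chw 50 44 314 5 [2, 9] = true := by
  decide +kernel

def t50_45_320 : V3.chw 50 45 320 6 [3, 1046] = true := by
  decide +kernel

def t50_45_321 : V3.chw 50 45 321 5 [2, 9] = true := by
  decide +kernel

def t50_46_327 : V3.chw 50 46 327 4 [10, 1042, 1046] = true := by
  decide +kernel

def t50_46_328 : V3.chw 50 46 328 5 [2, 9] = true := by
  decide +kernel

def t50_47_334 : V3.chw 50 47 334 4 [10, 1042, 1046] = true := by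
  decide +kernel

def t50_47_335 : V3.chw 50 47 335 5 [2, 9] = true := by
  decide +kernel

def t50_48_341 : V3.chw 50 48 341 4 [10, 1042, 1046] = true := by
  decide +kernel

def t50_48_342 : V3.chw 50 48 342 5 [1027, 9] = true := by
  decide +kernel

def t50_49_348 : V3.chw 50 49 348 2 [9, 1046] = true := by
  decide +kernel

def t50_49_349 : V3.chw 50 49 349 2 [9, 1046] = true := by
  decide +kernel

def t50_50_355 : V3.chw 50 50 355 2 [9, 1046] = true := by
  decide +kernel

def t50_50_356 : V3.chw 50 50 356 2 [9, 1046] = true := by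
  decide +kernel

theorem R50 {K : Type*} [Field K] [CharZero K] (m d : ℕ) (h : m ≤ 50) : MR K 50 m d := by
  interval_cases m
  · exact good_cova 6 (by decide +kernel) d
  · exact good_cova 6 (by decide +kernel) d
  · exact good_cova 6 (by decide +kernel) d
  · exact good_cova 6 (by decide +kernel) d
  · exact good_cova 6 (by decide +kernel) d
  · exact good_cova 6 (by decide +kernel) d
  · exact good_cova 6 (by decide +kernel) d
  · exact good_cova 6 (by decide +kernel) d
  · exact good_cova 6 (by decide +kernel) d
  · exact good_cova 6 (by decide +kernel) d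
  · exact good_cova 6 (by decide +kernel) d
  · exact good_cova 6 (by decide +kernel) d
  · exact good_cova 6 (by decide +kernel) d
  · exact good_cova 6 (by decide +kernel) d
  · exact good_cova 6 (by decide +kernel) d
  · exact good_cova 6 (by decide +kernel) d
  · exact good_cova 6 (by decide +kernel) d
  · exact good_cova 6 (by decide +kernel) d
  · exact good_cova 6 (by decide +kernel) d
  · exact good_cova 6 (by decide +kernel) d
  · exact good_cova 6 (by decide +kernel) d
  · exact good_cova 6 (by decide +kernel) d
  · exact good_cova 6 (by decide +kernel) d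
  · exact good_cova 6 (by decide +kernel) d
  · exact good_cova 6 (by decide +kernel) d
  · exact good_cova 6 (by decide +kernel) d
  · exact good_cova 6 (by decide +kernel) d
  · exact good_cova 6 (by decide +kernel) d
  · exact good_cova 6 (by decide +kernel) d
  · exact good_cova 6 (by decide +kernel) d
  · exact good_cova 6 (by decide +kernel) d
  · exact crit 221 (by decide +kernel) (V3.good_chw _ _ t50_31_221) (V3.good_chw _ _ t50_31_222) d
  · exact crit 228 (by decide +kernel) (V3.good_chw _ _ t50_32_228) (V3.good_chw _ _ t50_32_229) d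
  · exact crit 235 (by decide +kernel) (V3.good_chw _ _ t50_33_235) (V3.good_chw _ _ t50_33_236) d
  · exact crit 242 (by decide +kernel) (V3.good_chw _ _ t50_34_242) (V3.good_chw _ _ t50_34_243) d
  · exact crit 249 (by decide +kernel) (V3.good_chw _ _ t50_35_249) (V3.good_chw _ _ t50_35_250) d
  · exact crit 256 (by decide +kernel) (V3.good_chw _ _ t50_36_256) (V3.good_chw _ _ t50_36_257) d
  · exact crit 263 (by decide +kernel) (V3.good_chw _ _ t50_37_263) (V3.good_chw _ _ t50_37_264) d
  · exact crit 270 (by decide +kernel) (V3.good_chw _ _ t50_38_270) (V3.good_chw _ _ t50_38_271) d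
  · exact crit 277 (by decide +kernel) (V3.good_chw _ _ t50_39_277) (V3.good_chw _ _ t50_39_278) d
  · exact crit 284 (by decide +kernel) (V3.good_chw _ _ t50_40_284) (V3.good_chw _ _ t50_40_285) d
  · exact crit 291 (by decide +kernel) (V3.good_chw _ _ t50_41_291) (V3.good_chw _ _ t50_41_292) d
  · exact crit0 299 (by decide +kernel) K50m42d299.good d
  · exact crit 306 (by decide +kernel) (V3.good_chw _ _ t50_43_306) (V3.good_chw _ _ t50_43_307) d
  · exact crit 313 (by decide +kernel) (V3.good_chw _ _ t50_44_313) (V3.good_chw _ _ t50_44_314) d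
  · exact crit 320 (by decide +kernel) (V3.good_chw _ _ t50_45_320) (V3.good_chw _ _ t50_45_321) d
  · exact crit 327 (by decide +kernel) (V3.good_chw _ _ t50_46_327) (V3.good_chw _ _ t50_46_328) d
  · exact crit 334 (by decide +kernel) (V3.good_chw _ _ t50_47_334) (V3.good_chw _ _ t50_47_335) d
  · exact crit 341 (by decide +kernel) (V3.good_chw _ _ t50_48_341) (V3.good_chw _ _ t50_48_342) d
  · exact crit 348 (by decide +kernel) (V3.good_chw _ _ t50_49_348) (V3.good_chw _ _ t50_49_349) d
  · exact crit 355 (by decide +kernel) (V3.good_chw _ _ t50_50_355) (V3.good_chw _ _ t50_50_356) d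

def t51_50_359 : V3.chw 51 50 359 7 [1] = true := by
  decide +kernel

def t51_50_360 : V3.chw 51 50 360 7 [1] = true := by
  decide +kernel

theorem R51 {K : Type*} [Field K] [CharZero K] (m d : ℕ) (h : m ≤ 50) : MR K 51 m d := by
  interval_cases m
  · exact good_cova 7 (by decide +kernel) d
  · exact good_cova 7 (by decide +kernel) d
  · exact good_cova 7 (by decide +kernel) d
  · exact good_cova 7 (by decide +kernel) d
  · exact good_cova 7 (by decide +kernel) d
  · exact good_cova 7 (by decide +kernel) d
  · exact good_cova 7 (by decide +kernel) d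
  · exact good_cova 7 (by decide +kernel) d
  · exact good_cova 7 (by decide +kernel) d
  · exact good_cova 7 (by decide +kernel) d
  · exact good_cova 7 (by decide +kernel) d
  · exact good_cova 7 (by decide +kernel) d
  · exact good_cova 7 (by decide +kernel) d
  · exact good_cova 7 (by decide +kernel) d
  · exact good_cova 7 (by decide +kernel) d
  · exact good_cova 7 (by decide +kernel) d
  · exact good_cova 7 (by decide +kernel) d
  · exact good_cova 7 (by decide +kernel) d
  · exact good_cova 7 (by decide +kernel) d
  · exact good_cova 7 (by decide +kernel) d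
  · exact good_cova 7 (by decide +kernel) d
  · exact good_cova 7 (by decide +kernel) d
  · exact good_cova 7 (by decide +kernel) d
  · exact good_cova 7 (by decide +kernel) d
  · exact good_cova 7 (by decide +kernel) d
  · exact good_cova 7 (by decide +kernel) d
  · exact good_cova 7 (by decide +kernel) d
  · exact good_cova 7 (by decide +kernel) d
  · exact good_cova 7 (by decide +kernel) d
  · exact good_cova 7 (by decide +kernel) d
  · exact good_cova 7 (by decide +kernel) d
  · exact good_cova 7 (by decide +kernel) d
  · exact good_cova 7 (by decide +kernel) d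
  · exact good_cova 7 (by decide +kernel) d
  · exact good_cova 7 (by decide +kernel) d
  · exact good_cova 7 (by decide +kernel) d
  · exact good_cova 7 (by decide +kernel) d
  · exact good_cova 7 (by decide +kernel) d
  · exact good_cova 7 (by decide +kernel) d
  · exact good_cova 7 (by decide +kernel) d
  · exact good_cova 7 (by decide +kernel) d
  · exact good_cova 7 (by decide +kernel) d
  · exact good_cova 7 (by decide +kernel) d
  · exact good_cova 7 (by decide +kernel) d
  · exact good_cova 7 (by decide +kernel) d
  · exact good_cova 7 (by decide +kernel) d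
  · exact good_cova 7 (by decide +kernel) d
  · exact good_cova 7 (by decide +kernel) d
  · exact good_cova 7 (by decide +kernel) d
  · exact good_cova 7 (by decide +kernel) d
  · exact crit 359 (by decide +kernel) (V3.good_chw _ _ t51_50_359) (V3.good_chw _ _ t51_50_360) d

end Pool.Agent.Helper54.FM
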