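import Pool.Agent.Helper54.FM.Fast3
import Pool.Agent.Helper54.FM.KC8

set_option autoImplicit false
set_option maxRecDepth 100000
set_option linter.defProp false

/-! Project FM (helper54), MP_e6aa12_ag: r = 52..58, m <= 50 (generated). -/

namespace Pool.Agent.Helper54.FM

def t52_30_218 : V3.chw 52 30 218 3 [6, 8, 4] = true := by
  decide +kernel

def t52_30_219 : V3.chw 52 30 219 5 [11] = true := by
  decide +kernel

def t52_31_225 : V3.chw 52 31 225 5 [8, 4] = true := by
  decide +kernel

def t52_31_226 : V3.chw 52 31 226 2 [3, 13] = true := by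
  decide +kernel

def t52_32_232 : V3.chw 52 32 232 5 [8, 4] = true := by
  decide +kernel

def t52_32_233 : V3.chw 52 32 233 2 [3, 13] = true := by
  decide +kernel

def t52_33_240 : V3.chw 52 33 240 3 [5, 1033, 1, 1050, 1051] = true := by
  decide +kernel

def t52_33_241 : V3.chw 52 33 241 5 [11] = true := by
  decide +kernel

def t52_34_247 : V3.chw 52 34 247 2 [3, 12, 2] = true := by
  decide +kernel

def t52_34_248 : V3.chw 52 34 248 5 [11] = true := by
  decide +kernel

def t52_35_254 : V3.chw 52 35 254 4 [1, 10, 4] = true := by
  decide +kernel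

def t52_35_255 : V3.chw 52 35 255 2 [3, 13] = true := by
  decide +kernel

def t52_36_261 : V3.chw 52 36 261 5 [8, 4] = true := by
  decide +kernel

def t52_36_262 : V3.chw 52 36 262 2 [3, 13] = true := by
  decide +kernel

def t52_37_268 : V3.chw 52 37 268 4 [11, 3] = true := by
  decide +kernel

def t52_37_269 : V3.chw 52 37 269 3 [1, 1, 13] = true := by
  decide +kernel

def t52_38_276 : V3.chw 52 38 276 2 [3, 13, 1050] = true := by
  decide +kernel

def t52_38_277 : V3.chw 52 38 277 5 [11] = true := by
  decide +kernel

def t52_39_283 : V3.chw 52 39 283 2 [3, 12, 2] = true := by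
  decide +kernel

def t52_39_284 : V3.chw 52 39 284 5 [11] = true := by
  decide +kernel

def t52_40_290 : V3.chw 52 40 290 5 [8, 4] = true := by
  decide +kernel

def t52_40_291 : V3.chw 52 40 291 2 [3, 13] = true := by
  decide +kernel

def t52_41_297 : V3.chw 52 41 297 5 [8, 4] = true := by
  decide +kernel

def t52_41_298 : V3.chw 52 41 298 2 [3, 13] = true := by
  decide +kernel

def t52_42_304 : V3.chw 52 42 304 4 [11, 3] = true := by
  decide +kernel

def t52_42_305 : V3.chw 52 42 305 3 [1, 1012, 13] = true := by
  decide +kernel

def t52_43_312 : V3.chw 52 43 312 3 [2, 13, 1051] = true := by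
  decide +kernel

def t52_43_313 : V3.chw 52 43 313 5 [11] = true := by
  decide +kernel

def t52_44_319 : V3.chw 52 44 319 5 [9, 1049, 1051] = true := by
  decide +kernel

def t52_44_320 : V3.chw 52 44 320 2 [1, 1018] = true := by
  decide +kernel

def t52_45_326 : V3.chw 52 45 326 5 [9, 1049] = true := by
  decide +kernel

def t52_45_327 : V3.chw 52 45 327 2 [3, 13] = true := by
  decide +kernel

def t52_46_333 : V3.chw 52 46 333 6 [3, 1047] = true := by
  decide +kernel

def t52_46_334 : V3.chw 52 46 334 2 [3, 13] = true := by
  decide +kernel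

def t52_47_342 : V3.chw 52 47 342 5 [11] = true := by
  decide +kernel

def t52_48_348 : V3.chw 52 48 348 3 [2, 13, 1050] = true := by
  decide +kernel

def t52_48_349 : V3.chw 52 48 349 5 [11] = true := by
  decide +kernel

def t52_49_355 : V3.chw 52 49 355 5 [8, 4, 1051] = true := by
  decide +kernel

def t52_49_356 : V3.chw 52 49 356 2 [1, 1018] = true := by
  decide +kernel

def t52_50_362 : V3.chw 52 50 362 5 [8, 4] = true := by
  decide +kernel

def t52_50_363 : V3.chw 52 50 363 2 [3, 13] = true := by
  decide +kernel

theorem R52 {K : Type*} [Field K] [CharZero K] (m d : ℕ) (h : m ≤ 50) : MR K 52 m d := by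
  interval_cases m
  · exact good_cova 6 (by decide +kernel) d
  · exact good_cova 6 (by decide +kernel) d
  · exact good_cova 6 (by decide +kernel) d
  · exact good_cova 6 (by decide +kernel) d
  · exact good_cova 6 (by decide +kernel) d
  · exact good_cova 6 (by decide +kernel) d
  · exact good_cova 6 (by decide +kernel) d
  · exact good_cova 6 (by decide +kernel) d
  · exact good_cova 6 (by decide +kernel) d
  · exact good_cova 6 (by decide +kernel) d
  · exact good_cova 6 (by decide +kernel) d
  · exact good_cova 6 (by decide +kernel) d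
  · exact good_cova 6 (by decide +kernel) d
  · exact good_cova 6 (by decide +kernel) d
  · exact good_cova 6 (by decide +kernel) d
  · exact good_cova 6 (by decide +kernel) d
  · exact good_cova 6 (by decide +kernel) d
  · exact good_cova 6 (by decide +kernel) d
  · exact good_cova 6 (by decide +kernel) d
  · exact good_cova 6 (by decide +kernel) d
  · exact good_cova 6 (by decide +kernel) d
  · exact good_cova 6 (by decide +kernel) d
  · exact good_cova 6 (by decide +kernel) d
  · exact good_cova 6 (by decide +kernel) d
  · exact good_cova 6 (by decide +kernel) d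
  · exact good_cova 6 (by decide +kernel) d
  · exact good_cova 6 (by decide +kernel) d
  · exact good_cova 6 (by decide +kernel) d
  · exact good_cova 6 (by decide +kernel) d
  · exact good_cova 6 (by decide +kernel) d
  · exact crit 218 (by decide +kernel) (V3.good_chw _ _ t52_30_218) (V3.good_chw _ _ t52_30_219) d
  · exact crit 225 (by decide +kernel) (V3.good_chw _ _ t52_31_225) (V3.good_chw _ _ t52_31_226) d
  · exact crit 232 (by decide +kernel) (V3.good_chw _ _ t52_32_232) (V3.good_chw _ _ t52_32_233) d
  · exact crit 240 (by decide +kernel) (V3.good_chw _ _ t52_33_240) (V3.good_chw _ _ t52_33_241) d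
  · exact crit 247 (by decide +kernel) (V3.good_chw _ _ t52_34_247) (V3.good_chw _ _ t52_34_248) d
  · exact crit 254 (by decide +kernel) (V3.good_chw _ _ t52_35_254) (V3.good_chw _ _ t52_35_255) d
  · exact crit 261 (by decide +kernel) (V3.good_chw _ _ t52_36_261) (V3.good_chw _ _ t52_36_262) d
  · exact crit 268 (by decide +kernel) (V3.good_chw _ _ t52_37_268) (V3.good_chw _ _ t52_37_269) d
  · exact crit 276 (by decide +kernel) (V3.good_chw _ _ t52_38_276) (V3.good_chw _ _ t52_38_277) d
  · exact crit 283 (by decide +kernel) (V3.good_chw _ _ t52_39_283) (V3.good_chw _ _ t52_39_284) d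
  · exact crit 290 (by decide +kernel) (V3.good_chw _ _ t52_40_290) (V3.good_chw _ _ t52_40_291) d
  · exact crit 297 (by decide +kernel) (V3.good_chw _ _ t52_41_297) (V3.good_chw _ _ t52_41_298) d
  · exact crit 304 (by decide +kernel) (V3.good_chw _ _ t52_42_304) (V3.good_chw _ _ t52_42_305) d
  · exact crit 312 (by decide +kernel) (V3.good_chw _ _ t52_43_312) (V3.good_chw _ _ t52_43_313) d
  · exact crit 319 (by decide +kernel) (V3.good_chw _ _ t52_44_319) (V3.good_chw _ _ t52_44_320) d
  · exact crit 326 (by decide +kernel) (V3.good_chw _ _ t52_45_326) (V3.good_chw _ _ t52_45_327) d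
  · exact crit 333 (by decide +kernel) (V3.good_chw _ _ t52_46_333) (V3.good_chw _ _ t52_46_334) d
  · exact crit 341 (by decide +kernel) K52m47d341.good (V3.good_chw _ _ t52_47_342) d
  · exact crit 348 (by decide +kernel) (V3.good_chw _ _ t52_48_348) (V3.good_chw _ _ t52_48_349) d
  · exact crit 355 (by decide +kernel) (V3.good_chw _ _ t52_49_355) (V3.good_chw _ _ t52_49_356) d
  · exact crit 362 (by decide +kernel) (V3.good_chw _ _ t52_50_362) (V3.good_chw _ _ t52_50_363) d

def t53_47_344 : V3.chw 53 47 344 7 [1048, 2] = true := by
  decide +kernel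

def t53_47_345 : V3.chw 53 47 345 7 [2] = true := by
  decide +kernel

def t53_48_351 : V3.chw 53 48 351 7 [2] = true := by
  decide +kernel

def t53_48_352 : V3.chw 53 48 352 7 [2] = true := by
  decide +kernel

def t53_49_358 : V3.chw 53 49 358 7 [2] = true := by
  decide +kernel

def t53_49_359 : V3.chw 53 49 359 7 [2] = true := by
  decide +kernel

def t53_50_366 : V3.chw 53 50 366 7 [1049, 1051] = true := by
  decide +kernel

def t53_50_367 : V3.chw 53 50 367 7 [2] = true := by
  decide +kernel

theorem R53 {K : Type*} [Field K] [CharZero K] (m d : ℕ) (h : m ≤ 50) : MR K 53 m d := by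
  interval_cases m
  · exact good_cova 7 (by decide +kernel) d
  · exact good_cova 7 (by decide +kernel) d
  · exact good_cova 7 (by decide +kernel) d
  · exact good_cova 7 (by decide +kernel) d
  · exact good_cova 7 (by decide +kernel) d
  · exact good_cova 7 (by decide +kernel) d
  · exact good_cova 7 (by decide +kernel) d
  · exact good_cova 7 (by decide +kernel) d
  · exact good_cova 7 (by decide +kernel) d
  · exact good_cova 7 (by decide +kernel) d
  · exact good_cova 7 (by decide +kernel) d
  · exact good_cova 7 (by decide +kernel) d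
  · exact good_cova 7 (by decide +kernel) d
  · exact good_cova 7 (by decide +kernel) d
  · exact good_cova 7 (by decide +kernel) d
  · exact good_cova 7 (by decide +kernel) d
  · exact good_cova 7 (by decide +kernel) d
  · exact good_cova 7 (by decide +kernel) d
  · exact good_cova 7 (by decide +kernel) d
  · exact good_cova 7 (by decide +kernel) d
  · exact good_cova 7 (by decide +kernel) d
  · exact good_cova 7 (by decide +kernel) d
  · exact good_cova 7 (by decide +kernel) d
  · exact good_cova 7 (by decide +kernel) d
  · exact good_cova 7 (by decide +kernel) d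
  · exact good_cova 7 (by decide +kernel) d
  · exact good_cova 7 (by decide +kernel) d
  · exact good_cova 7 (by decide +kernel) d
  · exact good_cova 7 (by decide +kernel) d
  · exact good_cova 7 (by decide +kernel) d
  · exact good_cova 7 (by decide +kernel) d
  · exact good_cova 7 (by decide +kernel) d
  · exact good_cova 7 (by decide +kernel) d
  · exact good_cova 7 (by decide +kernel) d
  · exact good_cova 7 (by decide +kernel) d
  · exact good_cova 7 (by decide +kernel) d
  · exact good_cova 7 (by decide +kernel) d
  · exact good_cova 7 (by decide +kernel) d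
  · exact good_cova 7 (by decide +kernel) d
  · exact good_cova 7 (by decide +kernel) d
  · exact good_cova 7 (by decide +kernel) d
  · exact good_cova 7 (by decide +kernel) d
  · exact good_cova 7 (by decide +kernel) d
  · exact good_cova 7 (by decide +kernel) d
  · exact good_cova 7 (by decide +kernel) d
  · exact good_cova 7 (by decide +kernel) d
  · exact good_cova 7 (by decide +kernel) d
  · exact crit 344 (by decide +kernel) (V3.good_chw _ _ t53_47_344) (V3.good_chw _ _ t53_47_345) d
  · exact crit 351 (by decide +kernel) (V3.good_chw _ _ t53_48_351) (V3.good_chw _ _ t53_48_352) d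
  · exact crit 358 (by decide +kernel) (V3.good_chw _ _ t53_49_358) (V3.good_chw _ _ t53_49_359) d
  · exact crit 366 (by decide +kernel) (V3.good_chw _ _ t53_50_366) (V3.good_chw _ _ t53_50_367) d

def t54_29_216 : V3.chw 54 29 216 3 [13] = true := by
  decide +kernel

def t54_30_222 : V3.chw 54 30 222 5 [11, 1] = true := by
  decide +kernel

def t54_30_223 : V3.chw 54 30 223 4 [11, 4] = true := by
  decide +kernel

def t54_31_229 : V3.chw 54 31 229 5 [11, 1] = true := by
  decide +kernel

def t54_31_230 : V3.chw 54 31 230 2 [1, 6, 12] = true := by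
  decide +kernel

def t54_32_237 : V3.chw 54 32 237 3 [2, 13, 1] = true := by
  decide +kernel

def t54_32_238 : V3.chw 54 32 238 3 [13] = true := by
  decide +kernel

def t54_33_244 : V3.chw 54 33 244 5 [11, 1] = true := by
  decide +kernel

def t54_33_245 : V3.chw 54 33 245 2 [1, 6, 12] = true := by
  decide +kernel

def t54_34_251 : V3.chw 54 34 251 5 [11, 1] = true := by
  decide +kernel

def t54_34_252 : V3.chw 54 34 252 2 [1, 1009, 13, 1] = true := by
  decide +kernel

def t54_35_259 : V3.chw 54 35 259 3 [2, 13, 1] = true := by
  decide +kernel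

def t54_35_260 : V3.chw 54 35 260 3 [13] = true := by
  decide +kernel

def t54_36_266 : V3.chw 54 36 266 5 [11, 1] = true := by
  decide +kernel

def t54_36_267 : V3.chw 54 36 267 2 [1, 6, 12] = true := by
  decide +kernel

def t54_37_274 : V3.chw 54 37 274 3 [2, 13, 1] = true := by
  decide +kernel

def t54_37_275 : V3.chw 54 37 275 3 [13] = true := by
  decide +kernel

def t54_38_281 : V3.chw 54 38 281 3 [2, 13, 1] = true := by
  decide +kernel

def t54_38_282 : V3.chw 54 38 282 3 [13] = true := by
  decide +kernel

def t54_39_288 : V3.chw 54 39 288 5 [11, 1] = true := by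
  decide +kernel

def t54_39_289 : V3.chw 54 39 289 2 [1, 6, 12] = true := by
  decide +kernel

def t54_40_296 : V3.chw 54 40 296 4 [1, 12, 1051, 1] = true := by
  decide +kernel

def t54_40_297 : V3.chw 54 40 297 3 [13] = true := by
  decide +kernel

def t54_41_303 : V3.chw 54 41 303 3 [2, 13, 1] = true := by
  decide +kernel

def t54_41_304 : V3.chw 54 41 304 5 [4, 9] = true := by
  decide +kernel

def t54_42_310 : V3.chw 54 42 310 5 [11, 1] = true := by
  decide +kernel

def t54_42_311 : V3.chw 54 42 311 2 [1, 6, 12] = true := by
  decide +kernel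

def t54_43_318 : V3.chw 54 43 318 2 [3, 13, 1053] = true := by
  decide +kernel

def t54_43_319 : V3.chw 54 43 319 3 [13] = true := by
  decide +kernel

def t54_44_325 : V3.chw 54 44 325 5 [9, 1050] = true := by
  decide +kernel

def t54_44_326 : V3.chw 54 44 326 5 [4, 9] = true := by
  decide +kernel

def t54_45_332 : V3.chw 54 45 332 5 [11, 1] = true := by
  decide +kernel

def t54_45_333 : V3.chw 54 45 333 2 [1, 6, 12] = true := by
  decide +kernel

def t54_46_340 : V3.chw 54 46 340 3 [2, 13, 1] = true := by
  decide +kernel

def t54_46_341 : V3.chw 54 46 341 3 [13] = true := by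
  decide +kernel

def t54_47_347 : V3.chw 54 47 347 5 [9, 1050] = true := by
  decide +kernel

def t54_47_348 : V3.chw 54 47 348 5 [9, 1050] = true := by
  decide +kernel

def t54_48_354 : V3.chw 54 48 354 5 [9, 1050] = true := by
  decide +kernel

def t54_48_355 : V3.chw 54 48 355 2 [1, 6, 12] = true := by
  decide +kernel

def t54_49_362 : V3.chw 54 49 362 5 [9, 1046, 1050] = true := by
  decide +kernel

def t54_49_363 : V3.chw 54 49 363 3 [13] = true := by
  decide +kernel

def t54_50_369 : V3.chw 54 50 369 5 [4, 9] = true := by
  decide +kernel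

def t54_50_370 : V3.chw 54 50 370 3 [11, 1049] = true := by
  decide +kernel

theorem R54 {K : Type*} [Field K] [CharZero K] (m d : ℕ) (h : m ≤ 50) : MR K 54 m d := by
  interval_cases m
  · exact good_cova 6 (by decide +kernel) d
  · exact good_cova 6 (by decide +kernel) d
  · exact good_cova 6 (by decide +kernel) d
  · exact good_cova 6 (by decide +kernel) d
  · exact good_cova 6 (by decide +kernel) d
  · exact good_cova 6 (by decide +kernel) d
  · exact good_cova 6 (by decide +kernel) d
  · exact good_cova 6 (by decide +kernel) d
  · exact good_cova 6 (by decide +kernel) d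
  · exact good_cova 6 (by decide +kernel) d
  · exact good_cova 6 (by decide +kernel) d
  · exact good_cova 6 (by decide +kernel) d
  · exact good_cova 6 (by decide +kernel) d
  · exact good_cova 6 (by decide +kernel) d
  · exact good_cova 6 (by decide +kernel) d
  · exact good_cova 6 (by decide +kernel) d
  · exact good_cova 6 (by decide +kernel) d
  · exact good_cova 6 (by decide +kernel) d
  · exact good_cova 6 (by decide +kernel) d
  · exact good_cova 6 (by decide +kernel) d
  · exact good_cova 6 (by decide +kernel) d
  · exact good_cova 6 (by decide +kernel) d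
  · exact good_cova 6 (by decide +kernel) d
  · exact good_cova 6 (by decide +kernel) d
  · exact good_cova 6 (by decide +kernel) d
  · exact good_cova 6 (by decide +kernel) d
  · exact good_cova 6 (by decide +kernel) d
  · exact good_cova 6 (by decide +kernel) d
  · exact good_cova 6 (by decide +kernel) d
  · exact crit 215 (by decide +kernel) (good_covd 6 (by decide +kernel)) (V3.good_chw _ _ t54_29_216) d
  · exact crit 222 (by decide +kernel) (V3.good_chw _ _ t54_30_222) (V3.good_chw _ _ t54_30_223) d
  · exact crit 229 (by decide +kernel) (V3.good_chw _ _ t54_31_229) (V3.good_chw _ _ t54_31_230) d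
  · exact crit 237 (by decide +kernel) (V3.good_chw _ _ t54_32_237) (V3.good_chw _ _ t54_32_238) d
  · exact crit 244 (by decide +kernel) (V3.good_chw _ _ t54_33_244) (V3.good_chw _ _ t54_33_245) d
  · exact crit 251 (by decide +kernel) (V3.good_chw _ _ t54_34_251) (V3.good_chw _ _ t54_34_252) d
  · exact crit 259 (by decide +kernel) (V3.good_chw _ _ t54_35_259) (V3.good_chw _ _ t54_35_260) d
  · exact crit 266 (by decide +kernel) (V3.good_chw _ _ t54_36_266) (V3.good_chw _ _ t54_36_267) d
  · exact crit 274 (by decide +kernel) (V3.good_chw _ _ t54_37_274) (V3.good_chw _ _ t54_37_275) d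
  · exact crit 281 (by decide +kernel) (V3.good_chw _ _ t54_38_281) (V3.good_chw _ _ t54_38_282) d
  · exact crit 288 (by decide +kernel) (V3.good_chw _ _ t54_39_288) (V3.good_chw _ _ t54_39_289) d
  · exact crit 296 (by decide +kernel) (V3.good_chw _ _ t54_40_296) (V3.good_chw _ _ t54_40_297) d
  · exact crit 303 (by decide +kernel) (V3.good_chw _ _ t54_41_303) (V3.good_chw _ _ t54_41_304) d
  · exact crit 310 (by decide +kernel) (V3.good_chw _ _ t54_42_310) (V3.good_chw _ _ t54_42_311) d
  · exact crit 318 (by decide +kernel) (V3.good_chw _ _ t54_43_318) (V3.good_chw _ _ t54_43_319) d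
  · exact crit 325 (by decide +kernel) (V3.good_chw _ _ t54_44_325) (V3.good_chw _ _ t54_44_326) d
  · exact crit 332 (by decide +kernel) (V3.good_chw _ _ t54_45_332) (V3.good_chw _ _ t54_45_333) d
  · exact crit 340 (by decide +kernel) (V3.good_chw _ _ t54_46_340) (V3.good_chw _ _ t54_46_341) d
  · exact crit 347 (by decide +kernel) (V3.good_chw _ _ t54_47_347) (V3.good_chw _ _ t54_47_348) d
  · exact crit 354 (by decide +kernel) (V3.good_chw _ _ t54_48_354) (V3.good_chw _ _ t54_48_355) d
  · exact crit 362 (by decide +kernel) (V3.good_chw _ _ t54_49_362) (V3.good_chw _ _ t54_49_363) d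
  · exact crit 369 (by decide +kernel) (V3.good_chw _ _ t54_50_369) (V3.good_chw _ _ t54_50_370) d

def t55_46_343 : V3.chw 55 46 343 7 [2, 1] = true := by
  decide +kernel

def t55_46_344 : V3.chw 55 46 344 7 [3] = true := by
  decide +kernel

def t55_47_350 : V3.chw 55 47 350 7 [3] = true := by
  decide +kernel

def t55_47_351 : V3.chw 55 47 351 3 [11, 5] = true := by
  decide +kernel

def t55_48_358 : V3.chw 55 48 358 7 [1, 1053] = true := by
  decide +kernel

def t55_48_359 : V3.chw 55 48 359 7 [3] = true := by
  decide +kernel

def t55_49_365 : V3.chw 55 49 365 7 [1048, 3] = true := by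
  decide +kernel

def t55_49_366 : V3.chw 55 49 366 7 [3] = true := by
  decide +kernel

def t55_50_373 : V3.chw 55 50 373 7 [1046, 1, 1052, 1] = true := by
  decide +kernel

theorem R55 {K : Type*} [Field K] [CharZero K] (m d : ℕ) (h : m ≤ 50) : MR K 55 m d := by
  interval_cases m
  · exact good_cova 7 (by decide +kernel) d
  · exact good_cova 7 (by decide +kernel) d
  · exact good_cova 7 (by decide +kernel) d
  · exact good_cova 7 (by decide +kernel) d
  · exact good_cova 7 (by decide +kernel) d
  · exact good_cova 7 (by decide +kernel) d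
  · exact good_cova 7 (by decide +kernel) d
  · exact good_cova 7 (by decide +kernel) d
  · exact good_cova 7 (by decide +kernel) d
  · exact good_cova 7 (by decide +kernel) d
  · exact good_cova 7 (by decide +kernel) d
  · exact good_cova 7 (by decide +kernel) d
  · exact good_cova 7 (by decide +kernel) d
  · exact good_cova 7 (by decide +kernel) d
  · exact good_cova 7 (by decide +kernel) d
  · exact good_cova 7 (by decide +kernel) d
  · exact good_cova 7 (by decide +kernel) d
  · exact good_cova 7 (by decide +kernel) d
  · exact good_cova 7 (by decide +kernel) d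
  · exact good_cova 7 (by decide +kernel) d
  · exact good_cova 7 (by decide +kernel) d
  · exact good_cova 7 (by decide +kernel) d
  · exact good_cova 7 (by decide +kernel) d
  · exact good_cova 7 (by decide +kernel) d
  · exact good_cova 7 (by decide +kernel) d
  · exact good_cova 7 (by decide +kernel) d
  · exact good_cova 7 (by decide +kernel) d
  · exact good_cova 7 (by decide +kernel) d
  · exact good_cova 7 (by decide +kernel) d
  · exact good_cova 7 (by decide +kernel) d
  · exact good_cova 7 (by decide +kernel) d
  · exact good_cova 7 (by decide +kernel) d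
  · exact good_cova 7 (by decide +kernel) d
  · exact good_cova 7 (by decide +kernel) d
  · exact good_cova 7 (by decide +kernel) d
  · exact good_cova 7 (by decide +kernel) d
  · exact good_cova 7 (by decide +kernel) d
  · exact good_cova 7 (by decide +kernel) d
  · exact good_cova 7 (by decide +kernel) d
  · exact good_cova 7 (by decide +kernel) d
  · exact good_cova 7 (by decide +kernel) d
  · exact good_cova 7 (by decide +kernel) d
  · exact good_cova 7 (by decide +kernel) d
  · exact good_cova 7 (by decide +kernel) d
  · exact good_cova 7 (by decide +kernel) d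
  · exact good_cova 7 (by decide +kernel) d
  · exact crit 343 (by decide +kernel) (V3.good_chw _ _ t55_46_343) (V3.good_chw _ _ t55_46_344) d
  · exact crit 350 (by decide +kernel) (V3.good_chw _ _ t55_47_350) (V3.good_chw _ _ t55_47_351) d
  · exact crit 358 (by decide +kernel) (V3.good_chw _ _ t55_48_358) (V3.good_chw _ _ t55_48_359) d
  · exact crit 365 (by decide +kernel) (V3.good_chw _ _ t55_49_365) (V3.good_chw _ _ t55_49_366) d
  · exact crit0 373 (by decide +kernel) (V3.good_chw _ _ t55_50_373) d

def t56_29_219 : V3.chw 56 29 219 3 [11, 1049, 1055] = true := by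
  decide +kernel

def t56_29_220 : V3.chw 56 29 220 2 [11] = true := by
  decide +kernel

def t56_30_226 : V3.chw 56 30 226 6 [9] = true := by
  decide +kernel

def t56_30_227 : V3.chw 56 30 227 3 [2, 14] = true := by
  decide +kernel

def t56_31_234 : V3.chw 56 31 234 3 [11, 1049, 1055] = true := by
  decide +kernel

def t56_31_235 : V3.chw 56 31 235 2 [11] = true := by
  decide +kernel

def t56_32_241 : V3.chw 56 32 241 6 [9] = true := by
  decide +kernel

def t56_32_242 : V3.chw 56 32 242 3 [2, 14] = true := by
  decide +kernel

def t56_33_249 : V3.chw 56 33 249 3 [11, 1049, 1055] = true := by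
  decide +kernel

def t56_33_250 : V3.chw 56 33 250 2 [11] = true := by
  decide +kernel

def t56_34_256 : V3.chw 56 34 256 5 [11, 2] = true := by
  decide +kernel

def t56_34_257 : V3.chw 56 34 257 3 [2, 14] = true := by
  decide +kernel

def t56_35_264 : V3.chw 56 35 264 6 [4, 1049, 1055] = true := by
  decide +kernel

def t56_35_265 : V3.chw 56 35 265 2 [11] = true := by
  decide +kernel

def t56_36_271 : V3.chw 56 36 271 5 [11, 2] = true := by
  decide +kernel

def t56_36_272 : V3.chw 56 36 272 3 [2, 14] = true := by
  decide +kernel

def t56_37_279 : V3.chw 56 37 279 2 [3, 13, 1054] = true := by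
  decide +kernel

def t56_37_280 : V3.chw 56 37 280 2 [11] = true := by
  decide +kernel

def t56_38_286 : V3.chw 56 38 286 5 [11, 2] = true := by
  decide +kernel

def t56_38_287 : V3.chw 56 38 287 3 [2, 14] = true := by
  decide +kernel

def t56_39_294 : V3.chw 56 39 294 2 [3, 13, 1053, 1] = true := by
  decide +kernel

def t56_39_295 : V3.chw 56 39 295 2 [11] = true := by
  decide +kernel

def t56_40_301 : V3.chw 56 40 301 4 [11, 5] = true := by
  decide +kernel

def t56_40_302 : V3.chw 56 40 302 4 [3, 13] = true := by
  decide +kernel

def t56_41_309 : V3.chw 56 41 309 4 [7, 1031, 1033, 6, 1046, 1049, 1052, 1054] = true := by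
  decide +kernel

def t56_41_310 : V3.chw 56 41 310 2 [11] = true := by
  decide +kernel

def t56_42_316 : V3.chw 56 42 316 4 [11, 5] = true := by
  decide +kernel

def t56_42_317 : V3.chw 56 42 317 3 [2, 14] = true := by
  decide +kernel

def t56_43_325 : V3.chw 56 43 325 2 [11] = true := by
  decide +kernel

def t56_44_331 : V3.chw 56 44 331 2 [1, 1018, 2] = true := by
  decide +kernel

def t56_44_332 : V3.chw 56 44 332 4 [14, 1054] = true := by
  decide +kernel

def t56_45_338 : V3.chw 56 45 338 6 [9] = true := by
  decide +kernel

def t56_45_339 : V3.chw 56 45 339 2 [3, 1013, 14] = true := by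
  decide +kernel

def t56_46_346 : V3.chw 56 46 346 5 [11, 1051, 2] = true := by
  decide +kernel

def t56_46_347 : V3.chw 56 46 347 4 [14, 1054] = true := by
  decide +kernel

def t56_47_353 : V3.chw 56 47 353 4 [14] = true := by
  decide +kernel

def t56_47_354 : V3.chw 56 47 354 2 [3, 1013, 14] = true := by
  decide +kernel

def t56_48_361 : V3.chw 56 48 361 5 [9, 1049, 2] = true := by
  decide +kernel

def t56_48_362 : V3.chw 56 48 362 4 [14, 1054] = true := by
  decide +kernel

def t56_49_368 : V3.chw 56 49 368 5 [11, 2] = true := by
  decide +kernel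

def t56_49_369 : V3.chw 56 49 369 2 [3, 1013, 14] = true := by
  decide +kernel

def t56_50_376 : V3.chw 56 50 376 2 [1, 11, 4] = true := by
  decide +kernel

def t56_50_377 : V3.chw 56 50 377 4 [14, 1054] = true := by
  decide +kernel

theorem R56 {K : Type*} [Field K] [CharZero K] (m d : ℕ) (h : m ≤ 50) : MR K 56 m d := by
  interval_cases m
  · exact good_cova 6 (by decide +kernel) d
  · exact good_cova 6 (by decide +kernel) d
  · exact good_cova 6 (by decide +kernel) d
  · exact good_cova 6 (by decide +kernel) d
  · exact good_cova 6 (by decide +kernel) d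
  · exact good_cova 6 (by decide +kernel) d
  · exact good_cova 6 (by decide +kernel) d
  · exact good_cova 6 (by decide +kernel) d
  · exact good_cova 6 (by decide +kernel) d
  · exact good_cova 6 (by decide +kernel) d
  · exact good_cova 6 (by decide +kernel) d
  · exact good_cova 6 (by decide +kernel) d
  · exact good_cova 6 (by decide +kernel) d
  · exact good_cova 6 (by decide +kernel) d
  · exact good_cova 6 (by decide +kernel) d
  · exact good_cova 6 (by decide +kernel) d
  · exact good_cova 6 (by decide +kernel) d
  · exact good_cova 6 (by decide +kernel) d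
  · exact good_cova 6 (by decide +kernel) d
  · exact good_cova 6 (by decide +kernel) d
  · exact good_cova 6 (by decide +kernel) d
  · exact good_cova 6 (by decide +kernel) d
  · exact good_cova 6 (by decide +kernel) d
  · exact good_cova 6 (by decide +kernel) d
  · exact good_cova 6 (by decide +kernel) d
  · exact good_cova 6 (by decide +kernel) d
  · exact good_cova 6 (by decide +kernel) d
  · exact good_cova 6 (by decide +kernel) d
  · exact good_cova 6 (by decide +kernel) d
  · exact crit 219 (by decide +kernel) (V3.good_chw _ _ t56_29_219) (V3.good_chw _ _ t56_29_220) d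
  · exact crit 226 (by decide +kernel) (V3.good_chw _ _ t56_30_226) (V3.good_chw _ _ t56_30_227) d
  · exact crit 234 (by decide +kernel) (V3.good_chw _ _ t56_31_234) (V3.good_chw _ _ t56_31_235) d
  · exact crit 241 (by decide +kernel) (V3.good_chw _ _ t56_32_241) (V3.good_chw _ _ t56_32_242) d
  · exact crit 249 (by decide +kernel) (V3.good_chw _ _ t56_33_249) (V3.good_chw _ _ t56_33_250) d
  · exact crit 256 (by decide +kernel) (V3.good_chw _ _ t56_34_256) (V3.good_chw _ _ t56_34_257) d
  · exact crit 264 (by decide +kernel) (V3.good_chw _ _ t56_35_264) (V3.good_chw _ _ t56_35_265) d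
  · exact crit 271 (by decide +kernel) (V3.good_chw _ _ t56_36_271) (V3.good_chw _ _ t56_36_272) d
  · exact crit 279 (by decide +kernel) (V3.good_chw _ _ t56_37_279) (V3.good_chw _ _ t56_37_280) d
  · exact crit 286 (by decide +kernel) (V3.good_chw _ _ t56_38_286) (V3.good_chw _ _ t56_38_287) d
  · exact crit 294 (by decide +kernel) (V3.good_chw _ _ t56_39_294) (V3.good_chw _ _ t56_39_295) d
  · exact crit 301 (by decide +kernel) (V3.good_chw _ _ t56_40_301) (V3.good_chw _ _ t56_40_302) d
  · exact crit 309 (by decide +kernel) (V3.good_chw _ _ t56_41_309) (V3.good_chw _ _ t56_41_310) d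
  · exact crit 316 (by decide +kernel) (V3.good_chw _ _ t56_42_316) (V3.good_chw _ _ t56_42_317) d
  · exact crit 324 (by decide +kernel) K56m43d324.good (V3.good_chw _ _ t56_43_325) d
  · exact crit 331 (by decide +kernel) (V3.good_chw _ _ t56_44_331) (V3.good_chw _ _ t56_44_332) d
  · exact crit 338 (by decide +kernel) (V3.good_chw _ _ t56_45_338) (V3.good_chw _ _ t56_45_339) d
  · exact crit 346 (by decide +kernel) (V3.good_chw _ _ t56_46_346) (V3.good_chw _ _ t56_46_347) d
  · exact crit 353 (by decide +kernel) (V3.good_chw _ _ t56_47_353) (V3.good_chw _ _ t56_47_354) d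
  · exact crit 361 (by decide +kernel) (V3.good_chw _ _ t56_48_361) (V3.good_chw _ _ t56_48_362) d
  · exact crit 368 (by decide +kernel) (V3.good_chw _ _ t56_49_368) (V3.good_chw _ _ t56_49_369) d
  · exact crit 376 (by decide +kernel) (V3.good_chw _ _ t56_50_376) (V3.good_chw _ _ t56_50_377) d

def t57_46_349 : V3.chw 57 46 349 7 [2, 2] = true := by
  decide +kernel

def t57_46_350 : V3.chw 57 46 350 7 [2, 2] = true := by
  decide +kernel

def t57_47_357 : V3.chw 57 47 357 7 [1042, 2, 1055] = true := by
  decide +kernel

def t57_47_358 : V3.chw 57 47 358 7 [4] = true := by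
  decide +kernel

def t57_48_364 : V3.chw 57 48 364 7 [2, 2] = true := by
  decide +kernel

def t57_48_365 : V3.chw 57 48 365 7 [2, 1055] = true := by
  decide +kernel

def t57_49_372 : V3.chw 57 49 372 7 [1051, 1054, 1] = true := by
  decide +kernel

def t57_49_373 : V3.chw 57 49 373 7 [4] = true := by
  decide +kernel

def t57_50_379 : V3.chw 57 50 379 7 [2, 2] = true := by
  decide +kernel

def t57_50_380 : V3.chw 57 50 380 7 [2, 1055] = true := by
  decide +kernel

theorem R57 {K : Type*} [Field K] [CharZero K] (m d : ℕ) (h : m ≤ 50) : MR K 57 m d := by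
  interval_cases m
  · exact good_cova 7 (by decide +kernel) d
  · exact good_cova 7 (by decide +kernel) d
  · exact good_cova 7 (by decide +kernel) d
  · exact good_cova 7 (by decide +kernel) d
  · exact good_cova 7 (by decide +kernel) d
  · exact good_cova 7 (by decide +kernel) d
  · exact good_cova 7 (by decide +kernel) d
  · exact good_cova 7 (by decide +kernel) d
  · exact good_cova 7 (by decide +kernel) d
  · exact good_cova 7 (by decide +kernel) d
  · exact good_cova 7 (by decide +kernel) d
  · exact good_cova 7 (by decide +kernel) d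
  · exact good_cova 7 (by decide +kernel) d
  · exact good_cova 7 (by decide +kernel) d
  · exact good_cova 7 (by decide +kernel) d
  · exact good_cova 7 (by decide +kernel) d
  · exact good_cova 7 (by decide +kernel) d
  · exact good_cova 7 (by decide +kernel) d
  · exact good_cova 7 (by decide +kernel) d
  · exact good_cova 7 (by decide +kernel) d
  · exact good_cova 7 (by decide +kernel) d
  · exact good_cova 7 (by decide +kernel) d
  · exact good_cova 7 (by decide +kernel) d
  · exact good_cova 7 (by decide +kernel) d
  · exact good_cova 7 (by decide +kernel) d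
  · exact good_cova 7 (by decide +kernel) d
  · exact good_cova 7 (by decide +kernel) d
  · exact good_cova 7 (by decide +kernel) d
  · exact good_cova 7 (by decide +kernel) d
  · exact good_cova 7 (by decide +kernel) d
  · exact good_cova 7 (by decide +kernel) d
  · exact good_cova 7 (by decide +kernel) d
  · exact good_cova 7 (by decide +kernel) d
  · exact good_cova 7 (by decide +kernel) d
  · exact good_cova 7 (by decide +kernel) d
  · exact good_cova 7 (by decide +kernel) d
  · exact good_cova 7 (by decide +kernel) d
  · exact good_cova 7 (by decide +kernel) d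
  · exact good_cova 7 (by decide +kernel) d
  · exact good_cova 7 (by decide +kernel) d
  · exact good_cova 7 (by decide +kernel) d
  · exact good_cova 7 (by decide +kernel) d
  · exact good_cova 7 (by decide +kernel) d
  · exact good_cova 7 (by decide +kernel) d
  · exact good_cova 7 (by decide +kernel) d
  · exact good_cova 7 (by decide +kernel) d
  · exact crit 349 (by decide +kernel) (V3.good_chw _ _ t57_46_349) (V3.good_chw _ _ t57_46_350) d
  · exact crit 357 (by decide +kernel) (V3.good_chw _ _ t57_47_357) (V3.good_chw _ _ t57_47_358) d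
  · exact crit 364 (by decide +kernel) (V3.good_chw _ _ t57_48_364) (V3.good_chw _ _ t57_48_365) d
  · exact crit 372 (by decide +kernel) (V3.good_chw _ _ t57_49_372) (V3.good_chw _ _ t57_49_373) d
  · exact crit 379 (by decide +kernel) (V3.good_chw _ _ t57_50_379) (V3.good_chw _ _ t57_50_380) d

def t58_28_216 : V3.chw 58 28 216 2 [5, 14] = true := by
  decide +kernel

def t58_29_223 : V3.chw 58 29 223 3 [2, 14, 1] = true := by
  decide +kernel

def t58_29_224 : V3.chw 58 29 224 5 [13] = true := by
  decide +kernel

def t58_30_230 : V3.chw 58 30 230 2 [11, 1] = true := by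
  decide +kernel

def t58_30_231 : V3.chw 58 30 231 2 [3, 13, 3] = true := by
  decide +kernel

def t58_31_238 : V3.chw 58 31 238 4 [11, 4, 2] = true := by
  decide +kernel

def t58_31_239 : V3.chw 58 31 239 2 [5, 14] = true := by
  decide +kernel

def t58_32_245 : V3.chw 58 32 245 2 [11, 1] = true := by
  decide +kernel

def t58_32_246 : V3.chw 58 32 246 2 [3, 1, 14, 1] = true := by
  decide +kernel

def t58_33_253 : V3.chw 58 33 253 2 [11, 1] = true := by
  decide +kernel

def t58_33_254 : V3.chw 58 33 254 2 [5, 14] = true := by
  decide +kernel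

def t58_34_261 : V3.chw 58 34 261 3 [2, 14, 1] = true := by
  decide +kernel

def t58_34_262 : V3.chw 58 34 262 5 [13] = true := by
  decide +kernel

def t58_35_268 : V3.chw 58 35 268 2 [11, 1] = true := by
  decide +kernel

def t58_35_269 : V3.chw 58 35 269 3 [2, 14, 1] = true := by
  decide +kernel

def t58_36_276 : V3.chw 58 36 276 3 [13, 2] = true := by
  decide +kernel

def t58_36_277 : V3.chw 58 36 277 2 [5, 14] = true := by
  decide +kernel

def t58_37_284 : V3.chw 58 37 284 3 [2, 14, 1057] = true := by
  decide +kernel

def t58_37_285 : V3.chw 58 37 285 5 [13] = true := by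
  decide +kernel

def t58_38_291 : V3.chw 58 38 291 2 [11, 1] = true := by
  decide +kernel

def t58_38_292 : V3.chw 58 38 292 2 [3, 13, 3] = true := by
  decide +kernel

def t58_39_299 : V3.chw 58 39 299 3 [2, 14, 1] = true := by
  decide +kernel

def t58_39_300 : V3.chw 58 39 300 5 [13] = true := by
  decide +kernel

def t58_40_306 : V3.chw 58 40 306 2 [11, 1] = true := by
  decide +kernel

def t58_40_307 : V3.chw 58 40 307 2 [3, 1, 14, 1] = true := by
  decide +kernel

def t58_41_314 : V3.chw 58 41 314 5 [11, 3] = true := by
  decide +kernel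

def t58_41_315 : V3.chw 58 41 315 2 [5, 14] = true := by
  decide +kernel

def t58_42_322 : V3.chw 58 42 322 3 [2, 14, 1] = true := by
  decide +kernel

def t58_42_323 : V3.chw 58 42 323 5 [13] = true := by
  decide +kernel

def t58_43_329 : V3.chw 58 43 329 2 [11, 1] = true := by
  decide +kernel

def t58_43_330 : V3.chw 58 43 330 3 [4, 1033] = true := by
  decide +kernel

def t58_44_337 : V3.chw 58 44 337 2 [1, 1018, 3] = true := by
  decide +kernel

def t58_44_338 : V3.chw 58 44 338 2 [5, 14] = true := by
  decide +kernel

def t58_45_344 : V3.chw 58 45 344 2 [11, 1] = true := by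
  decide +kernel

def t58_46_352 : V3.chw 58 46 352 5 [11, 3] = true := by
  decide +kernel

def t58_46_353 : V3.chw 58 46 353 2 [5, 14] = true := by
  decide +kernel

def t58_47_360 : V3.chw 58 47 360 3 [1, 1024, 3] = true := by
  decide +kernel

def t58_47_361 : V3.chw 58 47 361 2 [1, 1019] = true := by
  decide +kernel

def t58_48_367 : V3.chw 58 48 367 2 [11, 1] = true := by
  decide +kernel

def t58_48_368 : V3.chw 58 48 368 3 [4, 1033, 1057] = true := by
  decide +kernel

def t58_49_375 : V3.chw 58 49 375 5 [11, 3] = true := by
  decide +kernel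

def t58_49_376 : V3.chw 58 49 376 2 [5, 14] = true := by
  decide +kernel

def t58_50_383 : V3.chw 58 50 383 3 [2, 14, 1055, 1057] = true := by
  decide +kernel

def t58_50_384 : V3.chw 58 50 384 2 [1, 1019] = true := by
  decide +kernel

theorem R58 {K : Type*} [Field K] [CharZero K] (m d : ℕ) (h : m ≤ 50) : MR K 58 m d := by
  interval_cases m
  · exact good_cova 6 (by decide +kernel) d
  · exact good_cova 6 (by decide +kernel) d
  · exact good_cova 6 (by decide +kernel) d
  · exact good_cova 6 (by decide +kernel) d
  · exact good_cova 6 (by decide +kernel) d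
  · exact good_cova 6 (by decide +kernel) d
  · exact good_cova 6 (by decide +kernel) d
  · exact good_cova 6 (by decide +kernel) d
  · exact good_cova 6 (by decide +kernel) d
  · exact good_cova 6 (by decide +kernel) d
  · exact good_cova 6 (by decide +kernel) d
  · exact good_cova 6 (by decide +kernel) d
  · exact good_cova 6 (by decide +kernel) d
  · exact good_cova 6 (by decide +kernel) d
  · exact good_cova 6 (by decide +kernel) d
  · exact good_cova 6 (by decide +kernel) d
  · exact good_cova 6 (by decide +kernel) d
  · exact good_cova 6 (by decide +kernel) d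
  · exact good_cova 6 (by decide +kernel) d
  · exact good_cova 6 (by decide +kernel) d
  · exact good_cova 6 (by decide +kernel) d
  · exact good_cova 6 (by decide +kernel) d
  · exact good_cova 6 (by decide +kernel) d
  · exact good_cova 6 (by decide +kernel) d
  · exact good_cova 6 (by decide +kernel) d
  · exact good_cova 6 (by decide +kernel) d
  · exact good_cova 6 (by decide +kernel) d
  · exact good_cova 6 (by decide +kernel) d
  · exact crit 215 (by decide +kernel) (good_covd 6 (by decide +kernel)) (V3.good_chw _ _ t58_28_216) d
  · exact crit 223 (by decide +kernel) (V3.good_chw _ _ t58_29_223) (V3.good_chw _ _ t58_29_224) d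
  · exact crit 230 (by decide +kernel) (V3.good_chw _ _ t58_30_230) (V3.good_chw _ _ t58_30_231) d
  · exact crit 238 (by decide +kernel) (V3.good_chw _ _ t58_31_238) (V3.good_chw _ _ t58_31_239) d
  · exact crit 245 (by decide +kernel) (V3.good_chw _ _ t58_32_245) (V3.good_chw _ _ t58_32_246) d
  · exact crit 253 (by decide +kernel) (V3.good_chw _ _ t58_33_253) (V3.good_chw _ _ t58_33_254) d
  · exact crit 261 (by decide +kernel) (V3.good_chw _ _ t58_34_261) (V3.good_chw _ _ t58_34_262) d
  · exact crit 268 (by decide +kernel) (V3.good_chw _ _ t58_35_268) (V3.good_chw _ _ t58_35_269) d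
  · exact crit 276 (by decide +kernel) (V3.good_chw _ _ t58_36_276) (V3.good_chw _ _ t58_36_277) d
  · exact crit 284 (by decide +kernel) (V3.good_chw _ _ t58_37_284) (V3.good_chw _ _ t58_37_285) d
  · exact crit 291 (by decide +kernel) (V3.good_chw _ _ t58_38_291) (V3.good_chw _ _ t58_38_292) d
  · exact crit 299 (by decide +kernel) (V3.good_chw _ _ t58_39_299) (V3.good_chw _ _ t58_39_300) d
  · exact crit 306 (by decide +kernel) (V3.good_chw _ _ t58_40_306) (V3.good_chw _ _ t58_40_307) d
  · exact crit 314 (by decide +kernel) (V3.good_chw _ _ t58_41_314) (V3.good_chw _ _ t58_41_315) d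
  · exact crit 322 (by decide +kernel) (V3.good_chw _ _ t58_42_322) (V3.good_chw _ _ t58_42_323) d
  · exact crit 329 (by decide +kernel) (V3.good_chw _ _ t58_43_329) (V3.good_chw _ _ t58_43_330) d
  · exact crit 337 (by decide +kernel) (V3.good_chw _ _ t58_44_337) (V3.good_chw _ _ t58_44_338) d
  · exact crit 344 (by decide +kernel) (V3.good_chw _ _ t58_45_344) K58m45d345.good d
  · exact crit 352 (by decide +kernel) (V3.good_chw _ _ t58_46_352) (V3.good_chw _ _ t58_46_353) d
  · exact crit 360 (by decide +kernel) (V3.good_chw _ _ t58_47_360) (V3.good_chw _ _ t58_47_361) d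
  · exact crit 367 (by decide +kernel) (V3.good_chw _ _ t58_48_367) (V3.good_chw _ _ t58_48_368) d
  · exact crit 375 (by decide +kernel) (V3.good_chw _ _ t58_49_375) (V3.good_chw _ _ t58_49_376) d
  · exact crit 383 (by decide +kernel) (V3.good_chw _ _ t58_50_383) (V3.good_chw _ _ t58_50_384) d

end Pool.Agent.Helper54.FM
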