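import Pool.Agent.Helper54.FM.Tab0
import Pool.Agent.Helper54.FM.Tab1
import Pool.Agent.Helper54.FM.Tab2
import Pool.Agent.Helper54.FM.Tab3
import Pool.Agent.Helper54.FM.Tab4
import Pool.Agent.Helper54.FM.Tab5
import Pool.Agent.Helper54.FM.Tab6
import Pool.Agent.Helper54.FM.Tab7
import Pool.Agent.Helper54.FM.Tab8
import Pool.Agent.Helper54.FM.Tab9
import Pool.Agent.Helper54.FM.Tab10
import Pool.Agent.Helper54.FM.Tab11

set_option autoImplicit false

/-! Project FM (helper54), MP_e6aa12_ag: all r between 10 and 80, m <= 50 (generated). -/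

namespace Pool.Agent.Helper54.FM

theorem small_r {K : Type*} [Field K] [CharZero K] (r m d : ℕ) (h1 : 10 ≤ r) (h2 : r ≤ 80)
    (h : m ≤ 50) : MR K r m d := by
  interval_cases r
  · exact R10 m d h
  · exact R11 m d h
  · exact R12 m d h
  · exact R13 m d h
  · exact R14 m d h
  · exact R15 m d h
  · exact R16 m d h
  · exact R17 m d h
  · exact R18 m d h
  · exact R19 m d h
  · exact R20 m d h
  · exact R21 m d h
  · exact R22 m d h
  · exact R23 m d h
  · exact R24 m d h
  · exact R25 m d h
  · exact R26 m d h
  · exact R27 m d h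
  · exact R28 m d h
  · exact R29 m d h
  · exact R30 m d h
  · exact R31 m d h
  · exact R32 m d h
  · exact R33 m d h
  · exact R34 m d h
  · exact R35 m d h
  · exact R36 m d h
  · exact R37 m d h
  · exact R38 m d h
  · exact R39 m d h
  · exact R40 m d h
  · exact R41 m d h
  · exact R42 m d h
  · exact R43 m d h
  · exact R44 m d h
  · exact R45 m d h
  · exact R46 m d h
  · exact R47 m d h
  · exact R48 m d h
  · exact R49 m d h
  · exact R50 m d h
  · exact R51 m d h
  · exact R52 m d h
  · exact R53 m d h
  · exact R54 m d h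
  · exact R55 m d h
  · exact R56 m d h
  · exact R57 m d h
  · exact R58 m d h
  · exact R59 m d h
  · exact R60 m d h
  · exact R61 m d h
  · exact R62 m d h
  · exact R63 m d h
  · exact R64 m d h
  · exact R65 m d h
  · exact R66 m d h
  · exact R67 m d h
  · exact R68 m d h
  · exact R69 m d h
  · exact R70 m d h
  · exact R71 m d h
  · exact R72 m d h
  · exact R73 m d h
  · exact R74 m d h
  · exact R75 m d h
  · exact R76 m d h
  · exact R77 m d h
  · exact R78 m d h
  · exact R79 m d h
  · exact R80 m d h

end Pool.Agent.Helper54.FM
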