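import Pool.Agent.Helper7.NM.Move
import Pool.Agent.Helper7.NM.Nod
import Pool.Agent.Helper42.Exact

set_option autoImplicit false

/-! Project FM (helper54), MP_e6aa12_ag: the vector game on lists, for evaluation in the kernel
(explicit recursors, because they are evaluated fastest). Rows are lists `l`; `ro l c` is the
`c`-th row. -/

open Polynomial

namespace Pool.Agent.Helper54.FM

open Pool.Agent.Helper41.Fat Pool.Agent.Helper7.NM

/-- The rows of a list. -/
def ro (l : List ℕ) (c : ℕ) : ℕ := l.getD c 0

/-- `∑ (a - t)` over the list. -/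
noncomputable def sub1 (t : ℕ) (l : List ℕ) : ℕ :=
  @List.rec ℕ (fun _ => ℕ) 0 (fun a _ ih => Nat.add (Nat.sub a t) ih) l

/-- `U_i = ∑_{c ≥ i} (l_c - (t + δ i))`. -/
noncomputable def ulist (δ : ℕ) (l : List ℕ) : ℕ → List ℕ :=
  @List.rec ℕ (fun _ => ℕ → List ℕ) (fun _ => [])
    (fun a l ih t => sub1 t (a :: l) :: ih (Nat.add t δ)) l

/-- Differences of consecutive entries. -/
noncomputable def diffs (l : List ℕ) : List ℕ :=
  @List.rec ℕ (fun _ => List ℕ) []
    (fun a l ih => Nat.sub a (@List.rec ℕ (fun _ => ℕ) 0 (fun b _ _ => b) l) :: ih) l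

/-- Add one to the first `a` entries. -/
noncomputable def inc (a : ℕ) : List ℕ → List ℕ :=
  @Nat.rec (fun _ => List ℕ → List ℕ) (fun L => L)
    (fun _ ih L => @List.rec ℕ (fun _ => List ℕ) (1 :: ih []) (fun x L' _ => Nat.succ x :: ih L') L) a

/-- Add `k` zeros. -/
noncomputable def zer (k : ℕ) (L : List ℕ) : List ℕ :=
  @Nat.rec (fun _ => List ℕ) L (fun _ ih => 0 :: ih) k

/-- `F u = #{c : k c ≤ u < k c + l_c}` as a list in `u`. -/
noncomputable def prof (k : ℕ) (l : List ℕ) : List ℕ :=
  @List.rec ℕ (fun _ => List ℕ) [] (fun a _ ih => inc a (zer k ih)) l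

/-- The conjugate of a list. -/
noncomputable def conj (l : List ℕ) : List ℕ :=
  @List.rec ℕ (fun _ => List ℕ) [] (fun a _ ih => inc a ih) l

/-- The list is nonincreasing. -/
noncomputable def anti (l : List ℕ) : Bool :=
  @List.rec ℕ (fun _ => Bool) true
    (fun a l ih => and (@List.rec ℕ (fun _ => Bool) true (fun b _ _ => Nat.ble b a) l) ih) l

/-- One move: nodal of degree `k` for `k < 1000`, otherwise toric with parameter `k - 1000`. -/
noncomputable def stp (k : ℕ) (l : List ℕ) : List ℕ :=
  @Bool.rec (fun _ => List ℕ)
    (@Bool.rec (fun _ => List ℕ) [] (diffs (ulist k l 0)) (anti l))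
    (conj (prof (Nat.sub k 1000) l)) (Nat.ble 1000 k)

/-- A sequence of moves. -/
noncomputable def play (p : List ℕ) : List ℕ → List ℕ :=
  @List.rec ℕ (fun _ => List ℕ → List ℕ) (fun l => l) (fun k _ ih l => ih (stp k l)) p

/-- The staircase. -/
noncomputable def stair (k : ℕ) : List ℕ :=
  @Nat.rec (fun _ => List ℕ) [] (fun k ih => Nat.succ k :: ih) k

/-- `∑_c min (l_c) (t - r c)`. -/
noncomputable def fin (r : ℕ) (l : List ℕ) : ℕ → ℕ :=
  @List.rec ℕ (fun _ => ℕ → ℕ) (fun _ => 0)
    (fun a _ ih t => Nat.add (Nat.sub a (Nat.sub a t)) (ih (Nat.sub t r))) l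

/-- The number of conditions that have to be independent. -/
noncomputable def need (r m d : ℕ) : ℕ :=
  (fun x y => Nat.sub x (Nat.sub x y)) (Nat.div (Nat.mul (Nat.add d 2) (Nat.add d 1)) 2)
    (Nat.mul r (Nat.div (Nat.mul (Nat.add m 1) m) 2))

/-- The path `p` proves maximal rank for `(r, m, d)`. -/
noncomputable def chk (r m d : ℕ) (p : List ℕ) : Bool :=
  Nat.ble (need r m d) (fin r (play p (stair (Nat.add d 1))) (Nat.mul r m))

/-! ### Correctness -/

theorem ro_cons_zero (a : ℕ) (l : List ℕ) : ro (a :: l) 0 = a := rfl

theorem ro_cons_succ (a : ℕ) (l : List ℕ) (c : ℕ) : ro (a :: l) (c + 1) = ro l c := rfl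

theorem ro_nil (c : ℕ) : ro [] c = 0 := by cases c <;> rfl

theorem ro_of_le {l : List ℕ} {c : ℕ} (h : l.length ≤ c) : ro l c = 0 := by
  rw [ro, List.getD_eq_getElem?_getD, List.getElem?_eq_none h]; rfl

theorem sub1_eq (t : ℕ) (l : List ℕ) :
    sub1 t l = ∑ c ∈ Finset.range l.length, (ro l c - t) := by
  induction l with
  | nil => rfl
  | cons a l ih =>
    rw [List.length_cons, Finset.sum_range_succ']
    show (a - t) + sub1 t l = _
    rw [ih, add_comm]
    rfl

theorem ro_ulist (δ : ℕ) (l : List ℕ) : ∀ t i, ro (ulist δ l t) i =
    ∑ c ∈ Finset.range (l.length - i), (ro l (i + c) - (t + δ * i)) := by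
  induction l with
  | nil =>
    intro t i
    show ro [] i = _
    rw [ro_nil, List.length_nil, Nat.zero_sub, Finset.range_zero, Finset.sum_empty]
  | cons a l ih =>
    intro t i
    cases i with
    | zero =>
      show sub1 t (a :: l) = _
      rw [sub1_eq, Nat.mul_zero, Nat.add_zero, Nat.sub_zero]
      apply Finset.sum_congr rfl
      intro c _
      rw [Nat.zero_add]
    | succ i =>
      show ro (ulist δ l (t + δ)) i = _
      rw [ih (t + δ) i, List.length_cons, Nat.add_sub_add_right]
      apply Finset.sum_congr rfl
      intro c _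
      have e : t + δ + δ * i = t + δ * (i + 1) := by ring
      rw [e, show i + 1 + c = (i + c) + 1 by omega, ro_cons_succ]

theorem ro_diffs (L : List ℕ) : ∀ i, ro (diffs L) i = ro L i - ro L (i + 1) := by
  induction L with
  | nil => intro i; show ro [] i = _; rw [ro_nil, Nat.zero_sub]
  | cons a l ih =>
    intro i
    cases i with
    | zero =>
      rw [ro_cons_succ]
      cases l <;> rfl
    | succ i =>
      show ro (diffs l) i = _
      rw [ih, ro_cons_succ, ro_cons_succ]

theorem ro_nod (δ : ℕ) (l : List ℕ) (i : ℕ) :
    ro (diffs (ulist δ l 0)) i = nod δ l.length (ro l) i := by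
  rw [ro_diffs, ro_ulist, ro_ulist, Nat.zero_add, Nat.zero_add]
  rcases Nat.lt_or_ge i l.length with h | h
  · rw [nod, if_pos h.le, nodAux_Ioc]
    have e : l.length - i = l.length - (i + 1) + 1 := by omega
    rw [e, Finset.sum_range_succ', Finset.sum_range_succ, Nat.add_zero,
      show i + 1 + (l.length - (i + 1)) = l.length by omega, ro_of_le (le_refl l.length),
      Nat.zero_sub, Nat.zero_min, Nat.add_zero]
    have h1 : ∑ c ∈ Finset.range (l.length - (i + 1)), (ro l (i + (c + 1)) - δ * i) =
        ∑ c ∈ Finset.range (l.length - (i + 1)), min (ro l (i + 1 + c) - δ * i) δ +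
        ∑ c ∈ Finset.range (l.length - (i + 1)), (ro l (i + 1 + c) - δ * (i + 1)) := by
      rw [← Finset.sum_add_distrib]
      apply Finset.sum_congr rfl
      intro c _
      have e1 : δ * (i + 1) = δ * i + δ := by ring
      rw [e1, show i + (c + 1) = i + 1 + c by omega]
      omega
    rw [h1]
    simp only [Nat.add_zero]
    omega
  · have e1 : l.length - i = 0 := by omega
    have e2 : l.length - (i + 1) = 0 := by omega
    rw [e1, e2, Finset.range_zero, Finset.sum_empty, Finset.sum_empty, nod]
    split_ifs with h1
    · have : i = l.length := by omega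
      subst this
      rw [ro_of_le (le_refl l.length), Finset.Ioc_self, Finset.sum_empty, Nat.zero_sub,
        Nat.zero_sub]
      rfl
    · rfl

theorem anti_spec (l : List ℕ) (h : anti l = true) : ∀ c, ro l (c + 1) ≤ ro l c := by
  induction l with
  | nil => intro c; rw [ro_nil, ro_nil]
  | cons a l ih =>
    cases l with
    | nil =>
      intro c
      rw [ro_cons_succ, ro_nil]
      exact Nat.zero_le _
    | cons b l =>
      have h1 : (and (Nat.ble b a) (anti (b :: l))) = true := h
      rw [Bool.and_eq_true] at h1
      intro c
      cases c with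
      | zero =>
        show b ≤ a
        exact Nat.le_of_ble_eq_true h1.1
      | succ c =>
        rw [ro_cons_succ, ro_cons_succ a (b :: l) c]
        exact ih h1.2 c

theorem anti_antitone (l : List ℕ) (h : anti l = true) : Antitone (ro l) :=
  antitone_nat_of_succ_le (anti_spec l h)

theorem ro_inc (a : ℕ) : ∀ (L : List ℕ) (u : ℕ), ro (inc a L) u = ro L u + if u < a then 1 else 0 := by
  induction a with
  | zero => intro L u; rw [if_neg (Nat.not_lt_zero u)]; rfl
  | succ a ih =>
    intro L u
    cases L with
    | nil =>
      cases u with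
      | zero => rw [if_pos (Nat.succ_pos a)]; rfl
      | succ u =>
        show ro (inc a []) u = _
        rw [ih, ro_nil, ro_nil]
        simp only [Nat.add_lt_add_iff_right]
    | cons x L =>
      cases u with
      | zero => rw [if_pos (Nat.succ_pos a)]; rfl
      | succ u =>
        show ro (inc a L) u = _
        rw [ih, ro_cons_succ]
        simp only [Nat.add_lt_add_iff_right]

theorem ro_zer (k : ℕ) (L : List ℕ) : ∀ u : ℕ,
    ro (zer k L) u = if u < k then 0 else ro L (u - k) := by
  induction k with
  | zero => intro u; rw [if_neg (Nat.not_lt_zero u)]; rfl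
  | succ k ih =>
    intro u
    cases u with
    | zero => rw [if_pos (Nat.succ_pos k)]; rfl
    | succ u =>
      show ro (zer k L) u = _
      rw [ih]
      simp only [Nat.add_lt_add_iff_right, Nat.add_sub_add_right]

theorem ro_prof (k : ℕ) (l : List ℕ) : ∀ u, ro (prof k l) u =
    (act k l.length (ro l) u).card := by
  induction l with
  | nil => intro u; show ro [] u = _; rw [ro_nil]; simp [act]
  | cons a l ih =>
    intro u
    show ro (inc a (zer k (prof k l))) u = _
    rw [ro_inc, ro_zer, ih]
    have hmem : act k (a :: l).length (ro (a :: l)) u =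
        (if u < a then {0} else ∅) ∪
          (if u < k then ∅ else (act k l.length (ro l) (u - k)).map ⟨Nat.succ, Nat.succ_injective⟩) := by
      ext c
      rw [mem_act, Finset.mem_union]
      cases c with
      | zero =>
        rw [ro_cons_zero, List.length_cons]
        constructor
        · intro h
          left
          rw [if_pos (by omega)]
          exact Finset.mem_singleton_self 0
        · rintro (h | h)
          · split_ifs at h with h1
            · omega
            · simp at h
          · split_ifs at h with h1
            · simp at h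
            · simp at h
      | succ c =>
        rw [ro_cons_succ, List.length_cons]
        constructor
        · rintro ⟨h1, h2, h3⟩
          right
          have h4 : k * (c + 1) = k * c + k := by ring
          rw [if_neg (by omega)]
          rw [Finset.mem_map]
          refine ⟨c, ?_, rfl⟩
          rw [mem_act]
          omega
        · rintro (h | h)
          · split_ifs at h with h1
            · simp at h
            · simp at h
          · split_ifs at h with h1
            · simp at h
            · rw [Finset.mem_map] at h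
              obtain ⟨c', hc', he⟩ := h
              have he' : c' = c := Nat.succ_injective he
              subst he'
              rw [mem_act] at hc'
              have h4 : k * (c' + 1) = k * c' + k := by ring
              omega
    rw [hmem, Finset.card_union_of_disjoint, add_comm]
    · congr 1
      · split_ifs <;> simp
      · split_ifs <;> simp
    · rw [Finset.disjoint_left]
      intro c hc hc'
      split_ifs at hc with h1
      · split_ifs at hc' with h2
        · simp at hc'
        · rw [Finset.mem_singleton] at hc
          subst hc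
          simp at hc'
      · simp at hc

theorem ro_conj (L : List ℕ) (i : ℕ) :
    ro (conj L) i = ((Finset.range L.length).filter (fun u => i < ro L u)).card := by
  induction L with
  | nil => show ro [] i = _; rw [ro_nil]; rfl
  | cons x L ih =>
    show ro (inc x (conj L)) i = _
    rw [ro_inc, ih, List.length_cons, Finset.card_filter, Finset.card_filter,
      Finset.sum_range_succ']
    rfl

variable {K : Type*} [Field K]

theorem good_stp [CharZero K] {r m ρ : ℕ} (k : ℕ) (l : List ℕ)
    (h : Good K r m (ro (stp k l)) ρ) : Good K r m (ro l) ρ := by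
  rw [stp] at h
  cases hk : Nat.ble 1000 k with
  | true =>
    rw [hk] at h
    apply Good.move (k - 1000) l.length (n' := ro (conj (prof (k - 1000) l))) _ h
    intro i
    refine ⟨_, (ro_conj (prof (k - 1000) l) i).le, ?_⟩
    intro u hu
    rw [Finset.mem_filter] at hu
    rw [← ro_prof]
    exact hu.2
  | false =>
    rw [hk] at h
    cases ha : anti l with
    | true =>
      rw [ha] at h
      apply nodal_move k l.length (fun c c' hc _ => anti_antitone l ha hc)
      have e : nod k l.length (ro l) = ro (diffs (ulist k l 0)) :=
        funext fun i => (ro_nod k l i).symm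
      rw [e]
      exact h
    | false =>
      rw [ha] at h
      apply Good.mono _ h
      intro i
      show ro [] i ≤ _
      rw [ro_nil]
      exact Nat.zero_le _

theorem good_play [CharZero K] {r m ρ : ℕ} (p : List ℕ) : ∀ l : List ℕ,
    Good K r m (ro (play p l)) ρ → Good K r m (ro l) ρ := by
  induction p with
  | nil => intro l h; exact h
  | cons k p ih => intro l h; exact good_stp k l (ih (stp k l) h)

theorem ro_stair (k : ℕ) : ∀ c, ro (stair k) c = k - c := by
  induction k with
  | zero => intro c; show ro [] c = _; rw [ro_nil, Nat.zero_sub]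
  | succ k ih =>
    intro c
    cases c with
    | zero => rfl
    | succ c =>
      show ro (stair k) c = _
      rw [ih]
      omega

theorem fin_eq (r : ℕ) (l : List ℕ) : ∀ m, fin r l (r * m) =
    ∑ c ∈ Finset.range l.length, min (ro l c) (r * (m - c)) := by
  induction l with
  | nil => intro m; rfl
  | cons a l ih =>
    intro m
    rw [List.length_cons, Finset.sum_range_succ']
    show (a - (a - r * m)) + fin r l (r * m - r) = _
    have e : r * m - r = r * (m - 1) := by rw [Nat.mul_sub, Nat.mul_one]
    have e2 : a - (a - r * m) = min a (r * m) := by omega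
    rw [e, ih, add_comm, ro_cons_zero, Nat.sub_zero, e2]
    congr 1
    apply Finset.sum_congr rfl
    intro c _
    rw [ro_cons_succ, Nat.sub_sub, Nat.add_comm 1 c]

theorem fin_le (r m : ℕ) (l : List ℕ) :
    fin r l (r * m) ≤ ∑ c ∈ Finset.range m, min (ro l c) (r * (m - c)) := by
  rw [fin_eq]
  rcases Nat.le_total l.length m with h | h
  · exact Finset.sum_le_sum_of_subset (Finset.range_subset_range.2 h)
  · rw [← Finset.sum_subset (Finset.range_subset_range.2 h)]
    intro c _ hc
    rw [Finset.mem_range, Nat.not_lt] at hc
    rw [Nat.sub_eq_zero_of_le hc, Nat.mul_zero, Nat.min_zero]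

theorem good_fin {r m ρ : ℕ} (l : List ℕ) (h : ρ ≤ fin r l (r * m)) : Good K r m (ro l) ρ :=
  Good.le (h.trans (fin_le r m l)) (Good.final r m (ro l))

theorem need_eq (r m d : ℕ) : need r m d = min ((d + 2).choose 2) (r * (m + 1).choose 2) := by
  have h1 : need r m d = (d + 2) * (d + 1) / 2 -
      ((d + 2) * (d + 1) / 2 - r * ((m + 1) * m / 2)) := rfl
  rw [h1, Nat.choose_two_right, Nat.choose_two_right, Nat.add_sub_cancel,
    show d + 2 - 1 = d + 1 by omega]
  omega

/-- A successful check gives maximal rank. -/
theorem good_of_chk [CharZero K] {r m d : ℕ} (p : List ℕ) (h : chk r m d p = true) :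
    Good K r m (fun b => d + 1 - b) (min ((d + 2).choose 2) (r * (m + 1).choose 2)) := by
  rw [chk] at h
  have h1 := Nat.le_of_ble_eq_true h
  rw [need_eq] at h1
  have h2 := good_play (K := K) p (stair (d + 1)) (good_fin _ h1)
  have e : ro (stair (d + 1)) = fun b => d + 1 - b := funext (ro_stair (d + 1))
  rw [e] at h2
  exact h2

/-- A path to a state. -/
theorem good_of_state [CharZero K] {r m d ρ : ℕ} (p l : List ℕ)
    (h : play p (stair (d + 1)) = l) (hl : Good K r m (ro l) ρ) :
    Good K r m (fun b => d + 1 - b) ρ := by
  subst h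
  have h2 := good_play (K := K) p (stair (d + 1)) hl
  have e : ro (stair (d + 1)) = fun b => d + 1 - b := funext (ro_stair (d + 1))
  rw [e] at h2
  exact h2

end Pool.Agent.Helper54.FM
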