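import Pool.Agent.Helper54.FM.Dig
import Pool.Agent.Helper54.FM.Game

set_option autoImplicit false

/-! Project FM (helper54), MP_e6aa12_ag: certificates modulo a small prime for the missing
monomials, checked by Kronecker substitution. -/

open Polynomial

namespace Pool.Agent.Helper54.FM

open Pool.Agent.Helper41.Fat

/-- Evaluate `n` first. -/
noncomputable def force {α : Type} (n : ℕ) (f : ℕ → α) : α :=
  @Nat.rec (fun _ => α) (f 0) (fun k _ => f (Nat.succ k)) n

theorem force_eq {α : Type} (n : ℕ) (f : ℕ → α) : force n f = f n := by cases n <;> rfl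

/-- The blocks of `2 ^ l` digits of `b` bits at the multiples of `w 2 ^ (l + 1)`. -/
noncomputable def maskS (b w K l : ℕ) : ℕ :=
  Nat.mul (Nat.sub (Nat.pow 2 (Nat.mul b (Nat.pow 2 l))) 1) (Nat.div (Nat.sub (Nat.pow 2 (Nat.mul w (Nat.pow 2 K))) 1)
    (Nat.sub (Nat.pow 2 (Nat.mul w (Nat.pow 2 (Nat.add l 1)))) 1))

/-- Spread `2 ^ K` digits of `b` bits to digits in base `2 ^ w` (nothing is proved about it). -/
noncomputable def sprf (b w K N : ℕ) : ℕ :=
  @Nat.rec (fun _ => ℕ → ℕ) (fun N => N)
    (fun l ih N => force (Nat.land N (maskS b w K l)) (fun A =>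
      force (Nat.add A (Nat.mul (Nat.sub N A) (Nat.pow 2 (Nat.mul (Nat.sub w b) (Nat.pow 2 l))))) ih)) K N

/-- The spread list. -/
noncomputable def elist (b w K : ℕ) (l : List ℕ) : List ℕ :=
  @List.rec ℕ (fun _ => List ℕ) [] (fun e _ ih => sprf b w K e :: ih) l

/-- The same with a continuation. -/
noncomputable def elistK (b w K : ℕ) (l : List ℕ) : (List ℕ → Bool) → Bool :=
  @List.rec ℕ (fun _ => (List ℕ → Bool) → Bool) (fun κ => κ [])
    (fun e _ ih κ => force (sprf b w K e) (fun v => ih (fun l => κ (v :: l)))) l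

theorem elistK_eq (b w K : ℕ) (l : List ℕ) : ∀ κ : List ℕ → Bool,
    elistK b w K l κ = κ (elist b w K l) := by
  induction l with
  | nil => intro κ; rfl
  | cons e l ih =>
    intro κ
    have h1 : elistK b w K (e :: l) κ = force (sprf b w K e) (fun v =>
      elistK b w K l (fun l => κ (v :: l))) := rfl
    rw [h1, force_eq, ih]
    rfl

/-- Cut `S` into pieces of lengths `ns` (base `B`) and add `B ^ j` to the piece number `c - 1`. -/
noncomputable def cut (B : ℕ) (ns : List ℕ) : ℕ → ℕ → ℕ → List ℕ :=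
  @List.rec ℕ (fun _ => ℕ → ℕ → ℕ → List ℕ) (fun _ _ _ => [])
    (fun n _ ih S c j => Nat.add (Nat.mod S (Nat.pow B n))
      (@Bool.rec (fun _ => ℕ) 0 (Nat.pow B j) (Nat.beq c 1)) ::
        ih (Nat.div S (Nat.pow B n)) (Nat.sub c 1) j) ns

/-- The same with a continuation, evaluating the pieces first. -/
noncomputable def cutK (B : ℕ) (ns : List ℕ) : ℕ → ℕ → ℕ → (List ℕ → Bool) → Bool :=
  @List.rec ℕ (fun _ => ℕ → ℕ → ℕ → (List ℕ → Bool) → Bool) (fun _ _ _ κ => κ [])
    (fun n _ ih S c j κ => force (Nat.add (Nat.mod S (Nat.pow B n))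
      (@Bool.rec (fun _ => ℕ) 0 (Nat.pow B j) (Nat.beq c 1))) (fun v =>
        force (Nat.div S (Nat.pow B n)) (fun S' => ih S' (Nat.sub c 1) j (fun l => κ (v :: l))))) ns

theorem cutK_eq (B : ℕ) (ns : List ℕ) : ∀ (S c j : ℕ) (κ : List ℕ → Bool),
    cutK B ns S c j κ = κ (cut B ns S c j) := by
  induction ns with
  | nil => intro S c j κ; rfl
  | cons n ns ih =>
    intro S c j κ
    have h1 : cutK B (n :: ns) S c j κ = force (Nat.add (Nat.mod S (Nat.pow B n))
      (@Bool.rec (fun _ => ℕ) 0 (Nat.pow B j) (Nat.beq c 1))) (fun v =>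
        force (Nat.div S (Nat.pow B n)) (fun S' => cutK B ns S' (Nat.sub c 1) j
          (fun l => κ (v :: l)))) := rfl
    rw [h1, force_eq, force_eq, ih]
    rfl

/-- Head and tail. -/
noncomputable def hd (l : List ℕ) : ℕ := @List.rec ℕ (fun _ => ℕ) 0 (fun a _ _ => a) l
noncomputable def tl (l : List ℕ) : List ℕ := @List.rec ℕ (fun _ => List ℕ) [] (fun _ l _ => l) l
noncomputable def hdL (l : List (List ℕ)) : List ℕ :=
  @List.rec (List ℕ) (fun _ => List ℕ) [] (fun a _ _ => a) l
noncomputable def tlL (l : List (List ℕ)) : List (List ℕ) :=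
  @List.rec (List ℕ) (fun _ => List (List ℕ)) [] (fun _ l _ => l) l

/-- `∑_i b_i (R_i E_i)`. -/
noncomputable def dot (R : List ℕ) : List ℕ → List ℕ → ℕ :=
  @List.rec ℕ (fun _ => List ℕ → List ℕ → ℕ) (fun _ _ => 0)
    (fun a _ ih E b => Nat.add (Nat.mul (hd b) (Nat.mul a (hd E))) (ih (tl E) (tl b))) R

/-- All zero tests for the rows `R`. -/
noncomputable def tests (p w r : ℕ) (E : List ℕ) (R : List ℕ) : List (List ℕ) → ℕ → Bool :=
  @List.rec ℕ (fun _ => List (List ℕ) → ℕ → Bool) (fun _ _ => true)
    (fun a R ih cols t => @Nat.rec (fun _ => Bool) true (fun _ _ =>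
      and (zt p w t (dot (a :: R) E (hdL cols))) (ih (tlL cols) (Nat.sub t r))) t) R

/-- The certificate `S` of the monomial `(c, j)`. -/
noncomputable def chkS (p w r m L : ℕ) (ns E : List ℕ) (cols : List (List ℕ)) (c j S : ℕ) : Bool :=
  and (ok7 (Nat.pow 2 w) L S)
    (cutK (Nat.pow 2 w) ns S (Nat.add c 1) j (fun R => tests p w r E R cols (Nat.mul r m)))

/-- `∑ B ^ (offset of the row)` over the rows with at least three cells. -/
noncomputable def zz (B : ℕ) (ns : List ℕ) : ℕ :=
  @List.rec ℕ (fun _ => ℕ) 0 (fun n _ ih => Nat.add (@Bool.rec (fun _ => ℕ) 0 1 (Nat.ble 3 n))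
    (Nat.mul (Nat.pow B n) ih)) ns

/-- A multiple of `p` added to the lowest digits of every row; it changes nothing modulo `p`, but
avoids collisions in the hash tables of the kernel (`q` is the number of possible values). -/
noncomputable def salt (p w c q : ℕ) : ℕ :=
  Nat.mul p (Nat.add (Nat.mod c q) (Nat.add (Nat.mul (Nat.mod (Nat.div c q) q) (Nat.pow 2 w))
    (Nat.mul (Nat.mod (Nat.div c (Nat.mul q q)) q) (Nat.pow 2 (Nat.mul w 2)))))

/-- The certificates of the monomials `(c, n_c), (c + 1, n_(c+1)), …`; `l` is `ns.drop c`. -/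
noncomputable def rowsX (p b w r m k L : ℕ) (ns E : List ℕ) (cols : List (List ℕ)) (Z : ℕ)
    (D : List ℕ) : ℕ → List ℕ → Bool :=
  @List.rec ℕ (fun _ => ℕ → List ℕ → Bool) (fun _ _ => true)
    (fun N _ ih c l => and (force (Nat.add (sprf b w k N)
      (Nat.mul Z (salt p w c (Nat.add (Nat.div (Nat.sub 8 p) p) 1))))
        (chkS p w r m L ns E cols c (hd l)))
      (ih (Nat.add c 1) (tl l))) D

/-- All zero tests for the powers of the germ. -/
noncomputable def echk (p w t e : ℕ) (E : List ℕ) : Bool :=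
  @List.rec ℕ (fun _ => Bool) true
    (fun a l ih => and (@List.rec ℕ (fun _ => Bool) true
      (fun b _ _ => zt p w t (Nat.add (Nat.mul a e) (Nat.mul (Nat.sub p 1) b))) l) ih) E

/-- All digit tests. -/
noncomputable def oks (B t : ℕ) (E : List ℕ) : Bool :=
  @List.rec ℕ (fun _ => Bool) true (fun a _ ih => and (ok7 B t a) ih) E

/-- The powers of the germ are correct. -/
noncomputable def echkK (p b w t kE : ℕ) (Ec : List ℕ) : Bool :=
  elistK b w kE Ec (fun E => and (Nat.beq (hd E) 1) (and (oks (Nat.pow 2 w) t E)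
    (echk p w t (hd (tl E)) E)))

/-- The certificates with the spread powers of the germ. -/
noncomputable def chkX (p b w r m k kE L : ℕ) (ns Ec : List ℕ) (cols : List (List ℕ)) (c : ℕ)
    (l D : List ℕ) : Bool :=
  elistK b w kE Ec (fun E => force (zz (Nat.pow 2 w) ns) (fun Z =>
    rowsX p b w r m k L ns E cols Z D c l))

/-- Pascal's rule for `n` entries of `cur`, starting after the entry `x`. -/
noncomputable def pasc (p n : ℕ) : ℕ → List ℕ → List ℕ → Bool :=
  @Nat.rec (fun _ => ℕ → List ℕ → List ℕ → Bool) (fun _ _ _ => true)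
    (fun _ ih x cur pr => and (Nat.beq (hd cur) (Nat.mod (Nat.add x (hd pr)) p))
      (ih (hd cur) (tl cur) (tl pr))) n

/-- Pascal's rule for `k` further columns; `n` is the length of the column `prev`. -/
noncomputable def pascs (p k : ℕ) : ℕ → List ℕ → List (List ℕ) → Bool :=
  @Nat.rec (fun _ => ℕ → List ℕ → List (List ℕ) → Bool) (fun _ _ _ => true)
    (fun _ ih n prev cs => and (Nat.beq (hd (hdL cs)) 1)
      (and (pasc p (Nat.sub n 2) 1 (tl (hdL cs)) (tl prev)) (ih (Nat.sub n 1) (hdL cs) (tlL cs)))) k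

/-- The first column. -/
noncomputable def ones (n : ℕ) : List ℕ → Bool :=
  @Nat.rec (fun _ => List ℕ → Bool) (fun _ => true)
    (fun _ ih l => and (Nat.beq (hd l) 1) (ih (tl l))) n

/-! ### Semantics -/

theorem hd_eq (l : List ℕ) : hd l = ro l 0 := by cases l <;> rfl
theorem ro_tl (l : List ℕ) (i : ℕ) : ro (tl l) i = ro l (i + 1) := by
  cases l with
  | nil => show ro [] i = _; rw [ro_nil, ro_nil]
  | cons a l => rfl
theorem hdL_eq (l : List (List ℕ)) : hdL l = l.getD 0 [] := by cases l <;> rfl
theorem getD_tlL (l : List (List ℕ)) (i : ℕ) : (tlL l).getD i [] = l.getD (i + 1) [] := by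
  cases l with
  | nil => rfl
  | cons a l => rfl

theorem pasc_spec (p n : ℕ) : ∀ (x : ℕ) (cur pr : List ℕ), pasc p n x cur pr = true →
    ∀ i < n, ro cur i = ((if i = 0 then x else ro cur (i - 1)) + ro pr i) % p := by
  induction n with
  | zero => intro x cur pr _ i hi; exact absurd hi (Nat.not_lt_zero i)
  | succ n ih =>
    intro x cur pr h i hi
    have h' : (and (Nat.beq (hd cur) ((x + hd pr) % p)) (pasc p n (hd cur) (tl cur) (tl pr))) = true := h
    rw [Bool.and_eq_true] at h'
    cases i with
    | zero =>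
      rw [if_pos rfl, ← hd_eq, ← hd_eq]
      exact Nat.eq_of_beq_eq_true h'.1
    | succ i =>
      have h2 := ih _ _ _ h'.2 i (by omega)
      have e2 : (if i = 0 then hd cur else ro (tl cur) (i - 1)) =
          (if i + 1 = 0 then x else ro cur (i + 1 - 1)) := by
        rw [if_neg (Nat.succ_ne_zero i), Nat.add_sub_cancel]
        by_cases hi0 : i = 0
        · rw [if_pos hi0, hd_eq, hi0]
        · rw [if_neg hi0, ro_tl]
          congr 1
          omega
      rw [e2, ro_tl, ro_tl] at h2
      exact h2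

theorem ones_spec (n : ℕ) : ∀ l : List ℕ, ones n l = true → ∀ i < n, ro l i = 1 := by
  induction n with
  | zero => intro l _ i hi; exact absurd hi (Nat.not_lt_zero i)
  | succ n ih =>
    intro l h i hi
    have h' : (and (Nat.beq (hd l) 1) (ones n (tl l))) = true := h
    rw [Bool.and_eq_true] at h'
    cases i with
    | zero => rw [← hd_eq]; exact Nat.eq_of_beq_eq_true h'.1
    | succ i =>
      have := ih _ h'.2 i (by omega)
      rwa [ro_tl] at this

theorem pascs_spec (p k : ℕ) : ∀ (n : ℕ) (prev : List ℕ) (cs : List (List ℕ)),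
    pascs p k n prev cs = true → ∀ c < k,
      ro (cs.getD c []) 0 = 1 ∧ ∀ i < n - (c + 1) - 1, ro (cs.getD c []) (i + 1) =
        (ro (cs.getD c []) i + ro (if c = 0 then prev else cs.getD (c - 1) []) (i + 1)) % p := by
  induction k with
  | zero => intro n prev cs _ c hc; exact absurd hc (Nat.not_lt_zero c)
  | succ k ih =>
    intro n prev cs h c hc
    have h' : (and (Nat.beq (hd (hdL cs)) 1)
      (and (pasc p (n - 2) 1 (tl (hdL cs)) (tl prev)) (pascs p k (n - 1) (hdL cs) (tlL cs)))) = true := h
    rw [Bool.and_eq_true, Bool.and_eq_true] at h'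
    obtain ⟨h1, h2, h3⟩ := h'
    cases c with
    | zero =>
      have e1 := Nat.eq_of_beq_eq_true h1
      rw [hd_eq, hdL_eq] at e1
      refine ⟨e1, ?_⟩
      intro i hi
      have h4 := pasc_spec p _ _ _ _ h2 i (by omega)
      have e2 : (if i = 0 then 1 else ro (tl (hdL cs)) (i - 1)) = ro (cs.getD 0 []) i := by
        by_cases hi0 : i = 0
        · rw [if_pos hi0, hi0, e1]
        · rw [if_neg hi0, ro_tl, hdL_eq]
          congr 1
          omega
      rw [e2, ro_tl, ro_tl, hdL_eq] at h4
      rw [h4, if_pos rfl]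
    | succ c =>
      have h4 := ih _ _ _ h3 c (by omega)
      rw [getD_tlL] at h4
      refine ⟨h4.1, ?_⟩
      intro i hi
      have h5 := h4.2 i (by omega)
      have e : (if c = 0 then hdL cs else (tlL cs).getD (c - 1) []) =
          (if c + 1 = 0 then prev else cs.getD (c + 1 - 1) []) := by
        rw [if_neg (Nat.succ_ne_zero c), Nat.add_sub_cancel]
        by_cases hc0 : c = 0
        · rw [if_pos hc0, hc0, hdL_eq]
        · rw [if_neg hc0, getD_tlL]
          congr 1
          omega
      rw [h5, e]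

theorem dot_eq (R : List ℕ) : ∀ E b : List ℕ, dot R E b =
    ∑ i ∈ Finset.range R.length, ro b i * (ro R i * ro E i) := by
  induction R with
  | nil => intro E b; rfl
  | cons a R ih =>
    intro E b
    rw [List.length_cons, Finset.sum_range_succ']
    show hd b * (a * hd E) + dot R (tl E) (tl b) = _
    rw [ih, hd_eq, hd_eq, add_comm, ro_cons_zero]
    congr 1
    apply Finset.sum_congr rfl
    intro i _
    rw [ro_tl, ro_tl, ro_cons_succ]

theorem tests_spec (p w r : ℕ) (E : List ℕ) (R : List ℕ) : ∀ (cols : List (List ℕ)) (m : ℕ),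
    tests p w r E R cols (r * m) = true → ∀ c < R.length, r * (m - c) ≠ 0 →
      zt p w (r * (m - c)) (dot (R.drop c) E (cols.getD c [])) = true := by
  induction R with
  | nil => intro cols m _ c hc; simp at hc
  | cons a R ih =>
    intro cols m h c hc h0
    have h1 : tests p w r E (a :: R) cols (r * m) = @Nat.rec (fun _ => Bool) true (fun _ _ =>
      (and (zt p w (r * m) (dot (a :: R) E (hdL cols)))
      (tests p w r E R (tlL cols) (r * m - r)))) (r * m) := rfl
    rw [h1] at h
    have h' : (and (zt p w (r * m) (dot (a :: R) E (hdL cols)))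
      (tests p w r E R (tlL cols) (r * m - r))) = true := by
      rcases Nat.eq_zero_or_pos (r * m) with h2 | h2
      · exfalso
        apply h0
        rcases Nat.mul_eq_zero.1 h2 with h3 | h3
        · rw [h3, Nat.zero_mul]
        · rw [h3, Nat.zero_sub, Nat.mul_zero]
      · obtain ⟨x, hx⟩ : ∃ x, r * m = x + 1 := ⟨r * m - 1, by omega⟩
        rw [hx] at h ⊢
        exact h
    rw [Bool.and_eq_true] at h'
    cases c with
    | zero =>
      rw [Nat.sub_zero, ← hdL_eq]
      exact h'.1
    | succ c =>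
      have e : r * m - r = r * (m - 1) := by rw [Nat.mul_sub, Nat.mul_one]
      rw [e] at h'
      rw [List.length_cons] at hc
      have h2 := ih (tlL cols) (m - 1) h'.2 c (by omega)
      rw [getD_tlL, Nat.sub_sub, Nat.add_comm 1 c] at h2
      exact h2 h0

/-- The pieces. -/
def pcs (B : ℕ) : List ℕ → ℕ → List ℕ
  | [], _ => []
  | n :: ns, S => (S % B ^ n) :: pcs B ns (S / B ^ n)

theorem cut_length (B : ℕ) (ns : List ℕ) : ∀ S c j, (cut B ns S c j).length = ns.length := by
  induction ns with
  | nil => intro S c j; rfl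
  | cons n ns ih =>
    intro S c j
    show (cut B ns _ _ j).length + 1 = _
    rw [ih]; rfl

theorem ro_cut (B : ℕ) (ns : List ℕ) : ∀ S c j i, i < ns.length →
    ro (cut B ns S c j) i = ro (pcs B ns S) i + if i + 1 = c then B ^ j else 0 := by
  induction ns with
  | nil => intro S c j i hi; simp at hi
  | cons n ns ih =>
    intro S c j i hi
    cases i with
    | zero =>
      show S % B ^ n + @Bool.rec (fun _ => ℕ) 0 (B ^ j) (Nat.beq c 1) = _
      have e : ro (pcs B (n :: ns) S) 0 = S % B ^ n := rfl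
      rw [e]
      congr 1
      by_cases h : c = 1
      · subst h; rfl
      · rw [if_neg (by omega)]
        have : Nat.beq c 1 = false := by
          rw [← Bool.not_eq_true]
          intro h2
          exact h (Nat.eq_of_beq_eq_true h2)
        rw [this]
    | succ i =>
      rw [List.length_cons] at hi
      show ro (cut B ns (S / B ^ n) (c - 1) j) i = ro (pcs B ns (S / B ^ n)) i + _
      rw [ih _ _ _ i (by omega)]
      congr 1
      by_cases h : i + 1 + 1 = c
      · rw [if_pos h, if_pos (by omega)]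
      · rw [if_neg h]
        by_cases h2 : i + 1 = c - 1
        · exfalso; omega
        · rw [if_neg h2]

theorem pcs_length (B : ℕ) (ns : List ℕ) : ∀ S, (pcs B ns S).length = ns.length := by
  induction ns with
  | nil => intro S; rfl
  | cons n ns ih => intro S; show (pcs B ns _).length + 1 = _; rw [ih]; rfl

theorem pcs_lt {B : ℕ} (hB : 0 < B) (ns : List ℕ) : ∀ S i, ro (pcs B ns S) i < B ^ (ro ns i) := by
  induction ns with
  | nil =>
    intro S i
    show ro [] i < B ^ (ro [] i)
    rw [ro_nil, pow_zero]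
    exact Nat.one_pos
  | cons n ns ih =>
    intro S i
    cases i with
    | zero => exact Nat.mod_lt _ (by positivity)
    | succ i => exact ih _ i

theorem dp_split {B : ℕ} (hB : 2 ≤ B) (n : ℕ) : ∀ S,
    dp B S = dp B (S % B ^ n) + X ^ n * dp B (S / B ^ n) := by
  induction n with
  | zero =>
    intro S
    rw [pow_zero, Nat.mod_one, Nat.div_one, dp_zero, pow_zero, one_mul, zero_add]
  | succ n ih =>
    intro S
    have e1 : S % B ^ (n + 1) % B = S % B := by
      rw [pow_succ, mul_comm]
      exact Nat.mod_mul_right_mod S B (B ^ n)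
    have e2 : S % B ^ (n + 1) / B = (S / B) % B ^ n := by
      rw [pow_succ, mul_comm]
      exact Nat.mod_mul_right_div_self S B (B ^ n)
    have e3 : S / B ^ (n + 1) = S / B / B ^ n := by
      rw [pow_succ, mul_comm, Nat.div_div_eq_div_mul]
    rw [dp_rec hB S, dp_rec hB (S % B ^ (n + 1)), e1, e2, e3, ih (S / B)]
    ring

theorem sum_pcs {B : ℕ} (hB : 2 ≤ B) (ns : List ℕ) : ∀ S,
    ∑ i ∈ Finset.range ns.length, (dp B (ro (pcs B ns S) i)).eval 1 ≤ (dp B S).eval 1 := by
  induction ns with
  | nil => intro S; simp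
  | cons n ns ih =>
    intro S
    rw [List.length_cons, Finset.sum_range_succ', dp_split hB n S, eval_add, eval_mul, eval_pow,
      eval_X, one_pow, one_mul, add_comm]
    exact Nat.add_le_add_left (ih (S / B ^ n)) _

end Pool.Agent.Helper54.FM
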