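import Pool.Agent.Helper54.FM.Dig

set_option autoImplicit false

/-! Project FM (helper54), MP_e6aa12_ag: sharper digit bounds. -/

open Polynomial

namespace Pool.Agent.Helper54.FM.V2

open Pool.Agent.Helper54.FM

/-- Digits smaller than `2 ^ s`. -/
theorem dp_coeff_lt {w s : ℕ} (hs : s ≤ w) (hw : 1 ≤ w) (L : ℕ) : ∀ N, N < (2 ^ w) ^ L →
    N &&& msk (2 ^ w - 2 ^ s) (2 ^ w) L = 0 → ∀ i, (dp (2 ^ w) N).coeff i < 2 ^ s := by
  have hB : 2 ≤ 2 ^ w := by
    calc 2 = 2 ^ 1 := rfl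
      _ ≤ 2 ^ w := Nat.pow_le_pow_right (by norm_num) hw
  have hsw : 2 ^ s ≤ 2 ^ w := Nat.pow_le_pow_right (by norm_num) hs
  have hs0 : 0 < 2 ^ s := by positivity
  induction L with
  | zero =>
    intro N hN _ i
    have : N = 0 := by simpa using hN
    subst this
    rw [dp_zero, coeff_zero]
    exact hs0
  | succ L ih =>
    intro N hN hm i
    obtain ⟨h1, h2⟩ := land_msk hw (by omega) L N hm
    have h3 := ih (N / 2 ^ w) (by
      rw [pow_succ, mul_comm] at hN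
      exact Nat.div_lt_of_lt_mul hN) h2
    have h4 : N % 2 ^ w < 2 ^ s := by
      have h5 := congrArg (fun x => x / 2 ^ s) h1
      simp only [Nat.and_div_two_pow, Nat.zero_div] at h5
      have h6 : (2 ^ w - 2 ^ s) / 2 ^ s = 2 ^ (w - s) - 1 := by
        have e : 2 ^ w = 2 ^ (w - s) * 2 ^ s := by rw [← pow_add]; congr 1; omega
        rw [e]
        have : 2 ^ (w - s) * 2 ^ s - 2 ^ s = (2 ^ (w - s) - 1) * 2 ^ s := by
          rw [Nat.sub_mul, one_mul]
        rw [this, Nat.mul_div_cancel _ hs0]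
      rw [h6, Nat.and_two_pow_sub_one_eq_mod] at h5
      have h7 : N % 2 ^ w / 2 ^ s < 2 ^ (w - s) := by
        apply Nat.div_lt_of_lt_mul
        rw [← pow_add, show s + (w - s) = w by omega]
        exact Nat.mod_lt _ (by positivity)
      rw [Nat.mod_eq_of_lt h7] at h5
      have h9 := Nat.div_add_mod (N % 2 ^ w) (2 ^ s)
      rw [h5] at h9
      have h10 : N % 2 ^ w % 2 ^ s < 2 ^ s := Nat.mod_lt _ hs0
      omega
    rw [dp_rec hB, coeff_add]
    cases i with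
    | zero => rw [coeff_C_zero, mul_coeff_zero, coeff_X_zero, zero_mul, add_zero]; exact h4
    | succ i => rw [coeff_C_succ, coeff_X_mul, zero_add]; exact h3 i

/-- `N < B ^ L` with all digits smaller than `2 ^ s`. -/
noncomputable def okq (s B L N : ℕ) : Bool :=
  and (Nat.ble (Nat.add N 1) (Nat.pow B L)) (Nat.beq (Nat.land N (msk (Nat.sub B (Nat.pow 2 s)) B L)) 0)

theorem okq_spec {s w L N : ℕ} (hs : s ≤ w) (hw : 1 ≤ w) (h : okq s (2 ^ w) L N = true) :
    N < (2 ^ w) ^ L ∧ ∀ i, (dp (2 ^ w) N).coeff i < 2 ^ s := by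
  rw [okq, Bool.and_eq_true] at h
  have h1 : N < (2 ^ w) ^ L := Nat.le_of_ble_eq_true h.1
  exact ⟨h1, dp_coeff_lt hs hw L N h1 (Nat.eq_of_beq_eq_true h.2)⟩

/-- The sum of the digits. -/
theorem eval_one_le {w M L N : ℕ} (hw : 1 ≤ w) (h1 : N < (2 ^ w) ^ L)
    (h2 : ∀ i, (dp (2 ^ w) N).coeff i ≤ M) : (dp (2 ^ w) N).eval 1 ≤ M * L := by
  have hB : 2 ≤ 2 ^ w := by
    calc 2 = 2 ^ 1 := rfl
      _ ≤ 2 ^ w := Nat.pow_le_pow_right (by norm_num) hw
  have hdeg : (dp (2 ^ w) N).natDegree < L + 1 := by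
    rw [Nat.lt_succ_iff, natDegree_le_iff_coeff_eq_zero]
    intro i hi
    exact dp_coeff_zero hB L N h1 i hi.le
  rw [eval_eq_sum_range' hdeg, Finset.sum_range_succ, dp_coeff_zero hB L N h1 L le_rfl, zero_mul,
    add_zero]
  calc ∑ i ∈ Finset.range L, (dp (2 ^ w) N).coeff i * 1 ^ i
      ≤ ∑ _i ∈ Finset.range L, M := Finset.sum_le_sum (fun i _ => by
        rw [one_pow, mul_one]; exact h2 i)
    _ = M * L := by rw [Finset.sum_const, Finset.card_range, smul_eq_mul, mul_comm]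

theorem coeff_mul_le (A B : ℕ[X]) {M : ℕ} (hB : ∀ i, B.coeff i ≤ M) (n : ℕ) :
    (A * B).coeff n ≤ A.eval 1 * M := by
  rw [coeff_mul]
  calc ∑ x ∈ Finset.HasAntidiagonal.antidiagonal n, A.coeff x.1 * B.coeff x.2
      ≤ ∑ x ∈ Finset.HasAntidiagonal.antidiagonal n, A.coeff x.1 * M :=
        Finset.sum_le_sum (fun x _ => Nat.mul_le_mul_left _ (hB x.2))
    _ = (∑ x ∈ Finset.HasAntidiagonal.antidiagonal n, A.coeff x.1) * M := by rw [Finset.sum_mul]
    _ ≤ A.eval 1 * M := by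
        apply Nat.mul_le_mul_right
        rw [Finset.Nat.sum_antidiagonal_eq_sum_range_succ_mk]
        have e : A.eval 1 = ∑ i ∈ Finset.range (max (n + 1) (A.natDegree + 1)), A.coeff i := by
          rw [eval_eq_sum_range' (n := max (n + 1) (A.natDegree + 1)) (by omega)]
          simp
        rw [e]
        exact Finset.sum_le_sum_of_subset (Finset.range_subset_range.2 (le_max_left _ _))

theorem zt_spec' {p w t : ℕ} (hw : 3 ≤ w) (hp : p < 8) {T : ℕ[X]}
    (hT : ∀ i, T.coeff i < 2 ^ w) (h : zt p w t (T.eval (2 ^ w)) = true) :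
    ∀ i < t, p ∣ T.coeff i := by
  have h' : (and (Nat.beq (T.eval (2 ^ w) % (2 ^ w) ^ t % p) 0)
    (Nat.beq ((T.eval (2 ^ w) % (2 ^ w) ^ t / p) &&& msk (7 * 2 ^ (w - 3)) (2 ^ w) t) 0)) = true := h
  rw [Bool.and_eq_true] at h'
  apply zero_test_aux hw hp t T (T.eval (2 ^ w) % (2 ^ w) ^ t / p) hT _
    (Nat.eq_of_beq_eq_true h'.2)
  exact Nat.mul_div_cancel' (Nat.dvd_of_mod_eq_zero (Nat.eq_of_beq_eq_true h'.1))

end Pool.Agent.Helper54.FM.V2
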