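import Pool.Agent.Helper54.FM.Cert
import Pool.Agent.Helper54.FM.Dig2

set_option autoImplicit false

/-! Project FM (helper54), MP_e6aa12_ag: certificates, version 2 (terms with coefficient zero are
skipped, shorter digits). -/

open Polynomial

namespace Pool.Agent.Helper54.FM.V2

open Pool.Agent.Helper41.Fat Pool.Agent.Helper54.FM

/-- `∑_i b_i (R_i E_i)`; the terms with `b_i = 0` are not computed. -/
noncomputable def dot (R : List ℕ) : List ℕ → List ℕ → ℕ :=
  @List.rec ℕ (fun _ => List ℕ → List ℕ → ℕ) (fun _ _ => 0)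
    (fun a _ ih E b => @Nat.rec (fun _ => ℕ) (ih (tl E) (tl b))
      (fun k _ => Nat.add (Nat.mul (Nat.succ k) (Nat.mul a (hd E))) (ih (tl E) (tl b))) (hd b)) R

/-- All zero tests for the rows `R`. -/
noncomputable def tests (p w r : ℕ) (E : List ℕ) (R : List ℕ) : List (List ℕ) → ℕ → Bool :=
  @List.rec ℕ (fun _ => List (List ℕ) → ℕ → Bool) (fun _ _ => true)
    (fun a R ih cols t => @Nat.rec (fun _ => Bool) true (fun _ _ =>
      and (zt p w t (dot (a :: R) E (hdL cols))) (ih (tlL cols) (Nat.sub t r))) t) R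

/-- The certificate `S` of the monomial `(c, j)`. -/
noncomputable def chkS (p w r m L : ℕ) (ns E : List ℕ) (cols : List (List ℕ)) (c j S : ℕ) : Bool :=
  and (ok7 (Nat.pow 2 w) L S)
    (cutK (Nat.pow 2 w) ns S (Nat.add c 1) j (fun R => tests p w r E R cols (Nat.mul r m)))

/-- The certificates of the monomials `(c, n_c), (c + 1, n_(c+1)), …`; `l` is `ns.drop c`. -/
noncomputable def rowsX (p b w r m k L : ℕ) (ns E : List ℕ) (cols : List (List ℕ)) (Z : ℕ)
    (D : List ℕ) : ℕ → List ℕ → Bool :=
  @List.rec ℕ (fun _ => ℕ → List ℕ → Bool) (fun _ _ => true)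
    (fun N _ ih c l => and (force (Nat.add (sprf b w k N)
      (Nat.mul Z (salt p w c (Nat.add (Nat.div (Nat.sub 8 p) p) 1))))
        (chkS p w r m L ns E cols c (hd l)))
      (ih (Nat.add c 1) (tl l))) D

/-- All digit tests. -/
noncomputable def oks (s B t : ℕ) (E : List ℕ) : Bool :=
  @List.rec ℕ (fun _ => Bool) true (fun a _ ih => and (okq s B t a) ih) E

/-- The powers of the germ are correct. -/
noncomputable def echkK (p b w s t kE : ℕ) (Ec : List ℕ) : Bool :=
  elistK b w kE Ec (fun E => and (Nat.beq (hd E) 1) (and (oks s (Nat.pow 2 w) t E)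
    (echk p w t (hd (tl E)) E)))

/-- The certificates with the spread powers of the germ. -/
noncomputable def chkX (p b w r m k kE L : ℕ) (ns Ec : List ℕ) (cols : List (List ℕ)) (c : ℕ)
    (l D : List ℕ) : Bool :=
  elistK b w kE Ec (fun E => force (zz (Nat.pow 2 w) ns) (fun Z =>
    rowsX p b w r m k L ns E cols Z D c l))

theorem dot_eq (R : List ℕ) : ∀ E b : List ℕ, dot R E b =
    ∑ i ∈ Finset.range R.length, ro b i * (ro R i * ro E i) := by
  induction R with
  | nil => intro E b; rfl
  | cons a R ih =>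
    intro E b
    rw [List.length_cons, Finset.sum_range_succ']
    have e : dot (a :: R) E b = hd b * (a * hd E) + dot R (tl E) (tl b) := by
      have e1 : dot (a :: R) E b = @Nat.rec (fun _ => ℕ) (dot R (tl E) (tl b))
        (fun k _ => Nat.add (Nat.mul (Nat.succ k) (Nat.mul a (hd E))) (dot R (tl E) (tl b)))
        (hd b) := rfl
      rw [e1]
      cases hd b with
      | zero => show dot R (tl E) (tl b) = _; rw [Nat.zero_mul, Nat.zero_add]
      | succ k => rfl
    rw [e, ih, hd_eq, hd_eq, add_comm, ro_cons_zero]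
    congr 1
    apply Finset.sum_congr rfl
    intro i _
    rw [ro_tl, ro_tl, ro_cons_succ]

theorem tests_spec (p w r : ℕ) (E : List ℕ) (R : List ℕ) : ∀ (cols : List (List ℕ)) (m : ℕ),
    tests p w r E R cols (r * m) = true → ∀ c < R.length, r * (m - c) ≠ 0 →
      zt p w (r * (m - c)) (dot (R.drop c) E (cols.getD c [])) = true := by
  induction R with
  | nil => intro cols m _ c hc; simp at hc
  | cons a R ih =>
    intro cols m h c hc h0
    have h1 : tests p w r E (a :: R) cols (r * m) = @Nat.rec (fun _ => Bool) true (fun _ _ =>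
      (and (zt p w (r * m) (dot (a :: R) E (hdL cols)))
      (tests p w r E R (tlL cols) (r * m - r)))) (r * m) := rfl
    rw [h1] at h
    have h' : (and (zt p w (r * m) (dot (a :: R) E (hdL cols)))
      (tests p w r E R (tlL cols) (r * m - r))) = true := by
      rcases Nat.eq_zero_or_pos (r * m) with h2 | h2
      · exfalso
        apply h0
        rcases Nat.mul_eq_zero.1 h2 with h3 | h3
        · rw [h3, Nat.zero_mul]
        · rw [h3, Nat.zero_sub, Nat.mul_zero]
      · obtain ⟨x, hx⟩ : ∃ x, r * m = x + 1 := ⟨r * m - 1, by omega⟩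
        rw [hx] at h ⊢
        exact h
    rw [Bool.and_eq_true] at h'
    cases c with
    | zero =>
      rw [Nat.sub_zero, ← hdL_eq]
      exact h'.1
    | succ c =>
      have e : r * m - r = r * (m - 1) := by rw [Nat.mul_sub, Nat.mul_one]
      rw [e] at h'
      rw [List.length_cons] at hc
      have h2 := ih (tlL cols) (m - 1) h'.2 c (by omega)
      rw [getD_tlL, Nat.sub_sub, Nat.add_comm 1 c] at h2
      exact h2 h0

end Pool.Agent.Helper54.FM.V2
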