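import Pool.Agent.Helper54.FM.Game
import Pool.Agent.Helper41.FatMainTwo

set_option autoImplicit false

/-! Project FM (helper54), MP_e6aa12_ag: reduction to the critical degrees and the cases covered
by the theorems of helper41 and helper42. -/

open Polynomial

namespace Pool.Agent.Helper54.FM

open Pool.Agent.Helper41.Fat Pool.Agent.Helper42.Canon

/-- Maximal rank on germs. -/
def MR (K : Type*) [Field K] (r m d : ℕ) : Prop :=
  Good K r m (fun b => d + 1 - b) (min ((d + 2).choose 2) (r * (m + 1).choose 2))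

variable {K : Type*} [Field K]

theorem MR.down {r m : ℕ} (k : ℕ) : ∀ d, (d + k + 2).choose 2 ≤ r * (m + 1).choose 2 →
    MR K r m (d + k) → MR K r m d := by
  induction k with
  | zero => intro d _ h; exact h
  | succ k ih =>
    intro d h hg
    have h1 : (d + k + 3).choose 2 ≤ r * (m + 1).choose 2 := by
      have e : d + (k + 1) + 2 = d + k + 3 := by omega
      rwa [e] at h
    apply ih d (le_trans (Nat.choose_le_choose 2 (by omega)) h1)
    exact good_down h1 hg

theorem MR.up {r m d d' : ℕ} (hd : d ≤ d') (h : r * (m + 1).choose 2 ≤ (d + 2).choose 2)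
    (hg : MR K r m d) : MR K r m d' := by
  have h2 : r * (m + 1).choose 2 ≤ (d' + 2).choose 2 :=
    h.trans (Nat.choose_le_choose 2 (by omega))
  rw [MR, min_eq_right h2]
  rw [MR, min_eq_right h] at hg
  exact Good.mono (fun i => by omega) hg

theorem choose_iff (r m d : ℕ) : 2 * (d + 2).choose 2 = (d + 2) * (d + 1) ∧
    2 * (r * (m + 1).choose 2) = r * (m * (m + 1)) := by
  constructor
  · rw [two_mul_choose (d + 1)]
    ring
  · have := two_mul_choose m
    calc 2 * (r * (m + 1).choose 2) = r * (2 * (m + 1).choose 2) := by ring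
      _ = r * (m * (m + 1)) := by rw [this]

/-- Two critical degrees are enough. -/
theorem crit {r m : ℕ} (e : ℕ)
    (h : and (Nat.ble ((e + 2) * (e + 1)) (r * (m * (m + 1))))
      (Nat.ble (r * (m * (m + 1))) ((e + 3) * (e + 2))) = true)
    (hE : MR K r m e) (hR : MR K r m (e + 1)) (d : ℕ) : MR K r m d := by
  rw [Bool.and_eq_true] at h
  have h1 := Nat.le_of_ble_eq_true h.1
  have h2 := Nat.le_of_ble_eq_true h.2
  obtain ⟨e1, e2⟩ := choose_iff r m e
  obtain ⟨e3, _⟩ := choose_iff r m (e + 1)
  have e4 : (e + 1 + 2) * (e + 1 + 1) = (e + 3) * (e + 2) := by ring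
  rcases Nat.lt_or_ge e d with hd | hd
  · apply MR.up (d := e + 1) (by omega) _ hR
    rw [e4] at e3
    omega
  · obtain ⟨k, rfl⟩ : ∃ k, e = d + k := ⟨e - d, by omega⟩
    apply MR.down k d _ hE
    omega

/-- One critical degree is enough if it is exact. -/
theorem crit0 {r m : ℕ} (e : ℕ) (h : Nat.beq ((e + 2) * (e + 1)) (r * (m * (m + 1))) = true)
    (hE : MR K r m e) (d : ℕ) : MR K r m d := by
  have h1 := Nat.eq_of_beq_eq_true h
  obtain ⟨e1, e2⟩ := choose_iff r m e
  rcases Nat.le_total e d with hd | hd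
  · apply MR.up hd _ hE
    omega
  · obtain ⟨k, rfl⟩ : ∃ k, e = d + k := ⟨e - d, by omega⟩
    apply MR.down k d _ hE
    omega

/-- Covered for all degrees (helper41, helper42). -/
noncomputable def cova (p r m : ℕ) : Bool :=
  and (Nat.ble 1 p) (and (Nat.ble (p * p) r) (and (Nat.beq ((r - p * p) % 2) 0)
    (or (Nat.ble (((r - p * p) / 2) * m) (p * p))
      (and (Nat.ble 2 p) (Nat.ble (r * (m * (m + 1))) (p * p * p * (p * p * p + 1)))))))

/-- Covered for the degree `d` (helper42). -/
noncomputable def covd (p r d : ℕ) : Bool :=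
  and (Nat.ble 2 p) (and (Nat.ble (p * p) r) (and (Nat.beq ((r - p * p) % 2) 0)
    (Nat.ble (d + 1) (p * p * p))))

theorem par_of {p r : ℕ} (h1 : p * p ≤ r) (h2 : (r - p * p) % 2 = 0) : p % 2 = r % 2 := by
  have h3 : p * p % 2 = p % 2 := by
    rw [Nat.mul_mod]
    rcases Nat.mod_two_eq_zero_or_one p with h | h <;> rw [h]
  omega

theorem good_covd [CharZero K] {r m d : ℕ} (p : ℕ) (h : covd p r d = true) : MR K r m d := by
  simp only [covd, Bool.and_eq_true] at h
  obtain ⟨h1, h2, h3, h4⟩ := h
  have h1 := Nat.le_of_ble_eq_true h1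
  have h2 := Nat.le_of_ble_eq_true h2
  have h3 := Nat.eq_of_beq_eq_true h3
  have h4 := Nat.le_of_ble_eq_true h4
  have e3 : p ^ 3 = p * p * p := by ring
  exact exact_deg h1 (by rw [sq]; exact h2) (par_of h2 h3) (by omega)

theorem good_cova [CharZero K] {r m : ℕ} (p : ℕ) (h : cova p r m = true) (d : ℕ) :
    MR K r m d := by
  simp only [cova, Bool.and_eq_true, Bool.or_eq_true] at h
  obtain ⟨h1, h2, h3, h4⟩ := h
  have h1 := Nat.le_of_ble_eq_true h1
  have h2 := Nat.le_of_ble_eq_true h2
  have h3 := Nat.eq_of_beq_eq_true h3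
  have hr : r = p ^ 2 + 2 * ((r - p * p) / 2) := by
    rw [sq]; omega
  rcases h4 with h4 | ⟨h4, h5⟩
  · have h4 := Nat.le_of_ble_eq_true h4
    have := good_main_two (K := K) p ((r - p * p) / 2) m d h1 (by rw [sq]; exact h4)
    rw [← hr] at this
    exact this
  · have h4 := Nat.le_of_ble_eq_true h4
    have h5 := Nat.le_of_ble_eq_true h5
    have h8 : 0 < p * p * p := by positivity
    have hlow : ∀ d, d < p * p * p → MR K r m d := by
      intro d hd
      exact exact_deg h4 (by rw [sq]; exact h2) (par_of h2 h3) (by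
        have e3 : p ^ 3 = p * p * p := by ring
        omega)
    rcases Nat.lt_or_ge d (p * p * p) with hd | hd
    · exact hlow d hd
    · apply MR.up (d := p * p * p - 1) (by omega) _ (hlow _ (by omega))
      obtain ⟨e1, e2⟩ := choose_iff r m (p * p * p - 1)
      have e3 : p * p * p - 1 + 2 = p * p * p + 1 := by omega
      have e4 : p * p * p - 1 + 1 = p * p * p := by omega
      rw [e3, e4] at e1
      have e5 : (p * p * p + 1) * (p * p * p) = p * p * p * (p * p * p + 1) := by ring
      rw [e3]
      omega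

/-- A successful game. -/
theorem good_chk [CharZero K] {r m d : ℕ} (p : List ℕ) (h : chk r m d p = true) : MR K r m d :=
  good_of_chk p h

end Pool.Agent.Helper54.FM
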