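import Mathlib

set_option autoImplicit false

/-! Project FM (helper54), MP_e6aa12_ag: polynomials with small natural coefficients packed in
numbers (Kronecker substitution `X = B = 2 ^ w`). -/

open Polynomial

namespace Pool.Agent.Helper54.FM

/-- The polynomial of the base `B` digits of `N`. -/
noncomputable def dp (B N : ℕ) : ℕ[X] := Nat.ofDigits (X : ℕ[X]) (Nat.digits B N)

theorem dp_zero (B : ℕ) : dp B 0 = 0 := by
  rw [dp, Nat.digits_zero]; rfl

theorem dp_rec {B : ℕ} (hB : 2 ≤ B) (N : ℕ) : dp B N = C (N % B) + X * dp B (N / B) := by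
  rcases Nat.eq_zero_or_pos N with h | h
  · subst h
    rw [Nat.zero_mod, Nat.zero_div, dp_zero, C_0, mul_zero, add_zero]
  · rw [dp, dp, Nat.digits_def' hB h]
    have e : ((N % B : ℕ) : ℕ[X]) = C (N % B) := by simp
    rw [← e]
    rfl

theorem dp_eval {B : ℕ} (hB : 2 ≤ B) (N : ℕ) : (dp B N).eval B = N := by
  induction N using Nat.strong_induction_on with
  | _ N ih =>
    rcases Nat.eq_zero_or_pos N with h | h
    · subst h
      rw [dp_zero, eval_zero]
    · rw [dp_rec hB, eval_add, eval_mul, eval_C, eval_X, ih _ (Nat.div_lt_self h hB)]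
      exact Nat.mod_add_div N B

theorem dp_coeff_zero {B : ℕ} (hB : 2 ≤ B) (n : ℕ) : ∀ N, N < B ^ n → ∀ i, n ≤ i →
    (dp B N).coeff i = 0 := by
  induction n with
  | zero =>
    intro N hN i _
    have : N = 0 := by simpa using hN
    subst this
    rw [dp_zero, coeff_zero]
  | succ n ih =>
    intro N hN i hi
    obtain ⟨i, rfl⟩ : ∃ i', i = i' + 1 := ⟨i - 1, by omega⟩
    rw [dp_rec hB, coeff_add, coeff_C_succ, coeff_X_mul, zero_add]
    apply ih _ _ i (by omega)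
    rw [pow_succ, mul_comm] at hN
    exact Nat.div_lt_of_lt_mul hN

/-- `k * (1 + B + ... + B ^ (L - 1))`. -/
noncomputable def msk (k B L : ℕ) : ℕ := Nat.mul k (Nat.div (Nat.sub (Nat.pow B L) 1) (Nat.sub B 1))

theorem msk_succ {B : ℕ} (hB : 2 ≤ B) (k L : ℕ) : msk k B (L + 1) = k + B * msk k B L := by
  have key : ∀ L, ∃ g, B ^ L - 1 = (B - 1) * g ∧ B ^ (L + 1) - 1 = (B - 1) * (1 + B * g) := by
    intro L
    induction L with
    | zero => exact ⟨0, by simp, by simp⟩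
    | succ L ih =>
      obtain ⟨g, h1, h2⟩ := ih
      refine ⟨1 + B * g, h2, ?_⟩
      obtain ⟨b, rfl⟩ : ∃ b, B = b + 1 := ⟨B - 1, by omega⟩
      have h3 : 0 < (b + 1) ^ (L + 1) := by positivity
      have h4 : (b + 1) ^ (L + 1) = (b + 1 - 1) * (1 + (b + 1) * g) + 1 := by omega
      rw [pow_succ, h4, Nat.add_sub_cancel]
      have : (b * (1 + (b + 1) * g) + 1) * (b + 1) = b * (1 + (b + 1) * (1 + (b + 1) * g)) + 1 := by
        ring
      rw [this]
      omega
  obtain ⟨g, h1, h2⟩ := key L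
  have hb : 0 < B - 1 := by omega
  show k * ((B ^ (L + 1) - 1) / (B - 1)) = k + B * (k * ((B ^ L - 1) / (B - 1)))
  rw [h1, h2, Nat.mul_div_cancel_left _ hb, Nat.mul_div_cancel_left _ hb]
  ring

theorem msk_zero (k B : ℕ) : msk k B 0 = 0 := by
  show k * ((B ^ 0 - 1) / (B - 1)) = 0
  rw [pow_zero, Nat.sub_self, Nat.zero_div, Nat.mul_zero]

theorem land_msk {w : ℕ} (hw : 1 ≤ w) {k : ℕ} (hk : k < 2 ^ w) (L N : ℕ)
    (h : N &&& msk k (2 ^ w) (L + 1) = 0) :
    (N % 2 ^ w) &&& k = 0 ∧ (N / 2 ^ w) &&& msk k (2 ^ w) L = 0 := by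
  have hB : 2 ≤ 2 ^ w := by
    calc 2 = 2 ^ 1 := rfl
      _ ≤ 2 ^ w := Nat.pow_le_pow_right (by norm_num) hw
  rw [msk_succ hB] at h
  constructor
  · have h1 := congrArg (fun x => x % 2 ^ w) h
    simp only [Nat.and_mod_two_pow, Nat.add_mul_mod_self_left, Nat.mod_eq_of_lt hk,
      Nat.zero_mod] at h1
    exact h1
  · have h1 := congrArg (fun x => x / 2 ^ w) h
    simp only [Nat.and_div_two_pow, Nat.zero_div] at h1
    rw [Nat.add_mul_div_left _ _ (by positivity), Nat.div_eq_of_lt hk, Nat.zero_add] at h1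
    exact h1

/-- Digits at most `7`. -/
theorem dp_eval_one_le {w : ℕ} (hw : 3 ≤ w) (L : ℕ) : ∀ N, N < (2 ^ w) ^ L →
    N &&& msk (2 ^ w - 8) (2 ^ w) L = 0 → (dp (2 ^ w) N).eval 1 ≤ 7 * L := by
  have h8 : 8 ≤ 2 ^ w := by
    calc 8 = 2 ^ 3 := rfl
      _ ≤ 2 ^ w := Nat.pow_le_pow_right (by norm_num) hw
  have hB : 2 ≤ 2 ^ w := by omega
  induction L with
  | zero =>
    intro N hN _
    have : N = 0 := by simpa using hN
    subst this
    rw [dp_zero, eval_zero]
    exact Nat.zero_le _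
  | succ L ih =>
    intro N hN hm
    obtain ⟨h1, h2⟩ := land_msk (by omega) (by omega) L N hm
    have h3 := ih (N / 2 ^ w) (by
      rw [pow_succ, mul_comm] at hN
      exact Nat.div_lt_of_lt_mul hN) h2
    have h4 : N % 2 ^ w < 8 := by
      have hx : N % 2 ^ w < 2 ^ w := Nat.mod_lt _ (by positivity)
      have h5 := congrArg (fun x => x / 2 ^ 3) h1
      simp only [Nat.and_div_two_pow, Nat.zero_div] at h5
      have h6 : (2 ^ w - 8) / 2 ^ 3 = 2 ^ (w - 3) - 1 := by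
        have e : 2 ^ w = 2 ^ (w - 3) * 2 ^ 3 := by rw [← pow_add]; congr 1; omega
        rw [e]
        have : 2 ^ (w - 3) * 2 ^ 3 - 8 = (2 ^ (w - 3) - 1) * 2 ^ 3 := by
          rw [Nat.sub_mul]
          norm_num
        rw [this, Nat.mul_div_cancel _ (by norm_num)]
      rw [h6, Nat.and_two_pow_sub_one_eq_mod] at h5
      have h7 : N % 2 ^ w / 2 ^ 3 < 2 ^ (w - 3) := by
        apply Nat.div_lt_of_lt_mul
        rw [← pow_add]
        rwa [show 3 + (w - 3) = w by omega]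
      rw [Nat.mod_eq_of_lt h7] at h5
      have h9 := Nat.div_add_mod (N % 2 ^ w) (2 ^ 3)
      rw [h5] at h9
      have h10 : N % 2 ^ w % 2 ^ 3 < 2 ^ 3 := Nat.mod_lt _ (by norm_num)
      omega
    rw [dp_rec hB, eval_add, eval_mul, eval_C, eval_X, one_mul]
    omega

/-- A number whose `B`-digits are bounded: `N < B ^ L` with all digits at most `7`. -/
noncomputable def ok7 (B L N : ℕ) : Bool :=
  and (Nat.ble (Nat.add N 1) (Nat.pow B L)) (Nat.beq (Nat.land N (msk (Nat.sub B 8) B L)) 0)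

theorem ok7_spec {w L N : ℕ} (hw : 3 ≤ w) (h : ok7 (2 ^ w) L N = true) :
    N < (2 ^ w) ^ L ∧ (dp (2 ^ w) N).eval 1 ≤ 7 * L := by
  rw [ok7, Bool.and_eq_true] at h
  have h1 : N < (2 ^ w) ^ L := Nat.le_of_ble_eq_true h.1
  exact ⟨h1, dp_eval_one_le hw L N h1 (Nat.eq_of_beq_eq_true h.2)⟩

/-! ### The zero test -/

theorem coeff_le_eval_one (T : ℕ[X]) (i : ℕ) : T.coeff i ≤ T.eval 1 := by
  rw [eval_eq_sum_range]
  simp only [one_pow, mul_one]
  by_cases h : i < T.natDegree + 1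
  · exact Finset.single_le_sum (f := fun i => T.coeff i) (fun _ _ => Nat.zero_le _)
      (Finset.mem_range.2 h)
  · rw [coeff_eq_zero_of_natDegree_lt (by omega)]
    exact Nat.zero_le _

theorem eval_divX (T : ℕ[X]) (B : ℕ) : T.eval B = T.coeff 0 + B * T.divX.eval B := by
  conv_lhs => rw [← divX_mul_X_add T]
  rw [eval_add, eval_mul, eval_X, eval_C]
  ring

theorem zero_test_aux {w p : ℕ} (hw : 3 ≤ w) (hp : p < 8) (t : ℕ) : ∀ (T : ℕ[X]) (q : ℕ),
    (∀ i, T.coeff i < 2 ^ w) → p * q = T.eval (2 ^ w) % (2 ^ w) ^ t →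
    q &&& msk (7 * 2 ^ (w - 3)) (2 ^ w) t = 0 → ∀ i < t, p ∣ T.coeff i := by
  have hpos : 0 < 2 ^ w := by positivity
  have e8 : 2 ^ w = 8 * 2 ^ (w - 3) := by
    have : (8 : ℕ) = 2 ^ 3 := rfl
    rw [this, ← pow_add]; congr 1; omega
  have hpw : 0 < 2 ^ (w - 3) := by positivity
  induction t with
  | zero => intro T q _ _ _ i hi; omega
  | succ t ih =>
    intro T q hT hq hm i hi
    obtain ⟨h1, h2⟩ := land_msk (by omega) (by omega) t q hm
    -- the lowest digit of `q` is small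
    have h3 : q % 2 ^ w < 2 ^ (w - 3) := by
      have h5 := congrArg (fun x => x / 2 ^ (w - 3)) h1
      simp only [Nat.and_div_two_pow, Nat.zero_div] at h5
      rw [Nat.mul_div_cancel _ hpw, show (7 : ℕ) = 2 ^ 3 - 1 by norm_num,
        Nat.and_two_pow_sub_one_eq_mod] at h5
      have h7 : q % 2 ^ w / 2 ^ (w - 3) < 2 ^ 3 := by
        apply Nat.div_lt_of_lt_mul
        rw [mul_comm]
        have := Nat.mod_lt q hpos
        omega
      rw [Nat.mod_eq_of_lt h7] at h5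
      have h9 := Nat.div_add_mod (q % 2 ^ w) (2 ^ (w - 3))
      rw [h5] at h9
      have h10 := Nat.mod_lt (q % 2 ^ w) hpw
      omega
    set q0 := q % 2 ^ w with hq0
    set q1 := q / 2 ^ w with hq1
    have hqq : q = q0 + 2 ^ w * q1 := (Nat.mod_add_div q (2 ^ w)).symm
    have hT0 : T.coeff 0 < 2 ^ w := hT 0
    have hN : T.eval (2 ^ w) % (2 ^ w) ^ (t + 1) =
        T.coeff 0 + 2 ^ w * (T.divX.eval (2 ^ w) % (2 ^ w) ^ t) := by
      rw [eval_divX T (2 ^ w), pow_succ, mul_comm ((2 ^ w) ^ t), Nat.mod_mul,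
        Nat.add_mul_mod_self_left, Nat.mod_eq_of_lt hT0, Nat.add_mul_div_left _ _ hpos,
        Nat.div_eq_of_lt hT0, Nat.zero_add]
    rw [hN, hqq] at hq
    have hpq : p * q0 < 2 ^ w := by
      calc p * q0 ≤ 7 * q0 := Nat.mul_le_mul_right _ (by omega)
        _ < 2 ^ w := by omega
    have e1 : p * (q0 + 2 ^ w * q1) = p * q0 + 2 ^ w * (p * q1) := by ring
    rw [e1] at hq
    have ha : p * q0 = T.coeff 0 := by
      have := congrArg (fun x => x % 2 ^ w) hq
      simp only [Nat.add_mul_mod_self_left, Nat.mod_eq_of_lt hpq, Nat.mod_eq_of_lt hT0] at this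
      exact this
    have hb : p * q1 = T.divX.eval (2 ^ w) % (2 ^ w) ^ t := by
      rw [ha] at hq
      exact Nat.eq_of_mul_eq_mul_left hpos (Nat.add_left_cancel hq)
    cases i with
    | zero => exact ⟨q0, ha.symm⟩
    | succ i =>
      have h4 := ih T.divX q1 (fun i => by rw [coeff_divX]; exact hT (i + 1)) hb h2 i (by omega)
      rwa [coeff_divX] at h4

/-- The zero test modulo `p` of the first `t` digits. -/
noncomputable def zt (p w t N : ℕ) : Bool :=
  (fun M => and (Nat.beq (Nat.mod M p) 0)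
    (Nat.beq (Nat.land (Nat.div M p) (msk (Nat.mul 7 (Nat.pow 2 (Nat.sub w 3))) (Nat.pow 2 w) t)) 0))
    (Nat.mod N (Nat.pow (Nat.pow 2 w) t))

theorem zt_spec {p w t : ℕ} (hw : 3 ≤ w) (hp : p < 8) {T : ℕ[X]}
    (hT : T.eval 1 < 2 ^ w) (h : zt p w t (T.eval (2 ^ w)) = true) :
    ∀ i < t, p ∣ T.coeff i := by
  have h' : (and (Nat.beq (T.eval (2 ^ w) % (2 ^ w) ^ t % p) 0)
    (Nat.beq ((T.eval (2 ^ w) % (2 ^ w) ^ t / p) &&& msk (7 * 2 ^ (w - 3)) (2 ^ w) t) 0)) = true := h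
  rw [Bool.and_eq_true] at h'
  apply zero_test_aux hw hp t T (T.eval (2 ^ w) % (2 ^ w) ^ t / p)
    (fun i => lt_of_le_of_lt (coeff_le_eval_one T i) hT) _ (Nat.eq_of_beq_eq_true h'.2)
  exact Nat.mul_div_cancel' (Nat.dvd_of_mod_eq_zero (Nat.eq_of_beq_eq_true h'.1))

end Pool.Agent.Helper54.FM
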