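import Pool.Agent.Helper54.FM.Crit
import Pool.Agent.Helper7.NM.Large

set_option autoImplicit false

/-! Project FM (helper54), MP_e6aa12_ag: faster checks. The first strip in closed form, toric moves
with nondecreasing ends in `O(B^2)`. -/

open Polynomial

namespace Pool.Agent.Helper54.FM

open Pool.Agent.Helper41.Fat Pool.Agent.Helper7.NM

/-- Triangular numbers. -/
noncomputable def tri (x : ℕ) : ℕ := Nat.div (Nat.mul x (Nat.add x 1)) 2

/-- The strips of width `a`. -/
noncomputable def strp (a k : ℕ) : ℕ → List ℕ :=
  @Nat.rec (fun _ => ℕ → List ℕ) (fun _ => [])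
    (fun _ ih x => Nat.sub (tri x) (tri (Nat.sub x a)) :: ih (Nat.sub x a)) k

/-- The starts `x, x + k, …` (as many as entries of `l`). -/
noncomputable def starts (k : ℕ) (l : List ℕ) : ℕ → List ℕ :=
  @List.rec ℕ (fun _ => ℕ → List ℕ) (fun _ => []) (fun _ _ ih x => x :: ih (Nat.add x k)) l

/-- The ends. -/
noncomputable def ends (k : ℕ) (l : List ℕ) : ℕ → List ℕ :=
  @List.rec ℕ (fun _ => ℕ → List ℕ) (fun _ => [])
    (fun a _ ih x => Nat.add x a :: ih (Nat.add x k)) l

/-- `∑_b (e_b - x_b) - (e_(b-1) - x_b)`. -/
noncomputable def rowt (S : List ℕ) : List ℕ → ℕ → ℕ :=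
  @List.rec ℕ (fun _ => List ℕ → ℕ → ℕ) (fun _ _ => 0)
    (fun x _ ih E p => Nat.add (Nat.sub (Nat.sub (@List.rec ℕ (fun _ => ℕ) 0 (fun a _ _ => a) E) x)
      (Nat.sub p x)) (ih (@List.rec ℕ (fun _ => List ℕ) [] (fun _ l _ => l) E)
        (@List.rec ℕ (fun _ => ℕ) 0 (fun a _ _ => a) E))) S

/-- All rows. -/
noncomputable def rowts (E S : List ℕ) : List ℕ :=
  @List.rec ℕ (fun _ => List ℕ) [] (fun x S ih => rowt (x :: S) E 0 :: ih) S

/-- The list is nondecreasing. -/
noncomputable def mon (l : List ℕ) : Bool :=
  @List.rec ℕ (fun _ => Bool) true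
    (fun a l ih => and (@List.rec ℕ (fun _ => Bool) true (fun b _ _ => Nat.ble a b) l) ih) l

/-- The fast toric move. -/
noncomputable def torf (k : ℕ) (l : List ℕ) : List ℕ :=
  @Bool.rec (fun _ => List ℕ) [] (rowts (ends k l 0) (starts k l 0)) (mon (ends k l 0))

/-- One move: nodal of degree `k` for `k < 1000`, fast toric with parameter `k - 1000` for
`k < 2000`, slow toric with parameter `k - 2000` otherwise. -/
noncomputable def stf (k : ℕ) (l : List ℕ) : List ℕ :=
  @Bool.rec (fun _ => List ℕ)
    (@Bool.rec (fun _ => List ℕ)
      (@Bool.rec (fun _ => List ℕ) [] (diffs (ulist k l 0)) (anti l))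
      (torf (Nat.sub k 1000) l) (Nat.ble 1000 k))
    (conj (prof (Nat.sub k 2000) l)) (Nat.ble 2000 k)

/-- A sequence of moves. -/
noncomputable def playf (p : List ℕ) : List ℕ → List ℕ :=
  @List.rec ℕ (fun _ => List ℕ → List ℕ) (fun l => l) (fun k _ ih l => ih (stf k l)) p

/-- The path `a, p` proves maximal rank for `(r, m, d)`. -/
noncomputable def chf (r m d a : ℕ) (p : List ℕ) : Bool :=
  Nat.ble (need r m d) (fin r (playf p (strp a (Nat.add (Nat.div d a) 1) (Nat.add d 1)))
    (Nat.mul r m))

/-! ### Correctness -/

theorem tri_succ (x : ℕ) : tri (x + 1) = tri x + (x + 1) := by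
  show (x + 1) * (x + 1 + 1) / 2 = x * (x + 1) / 2 + (x + 1)
  have : (x + 1) * (x + 1 + 1) = x * (x + 1) + 2 * (x + 1) := by ring
  rw [this, Nat.add_mul_div_left _ _ (by norm_num)]

theorem tri_sub (a : ℕ) : ∀ x, tri x - tri (x - a) = ∑ s ∈ Finset.range a, (x - s) ∧
    tri (x - a) ≤ tri x := by
  induction a with
  | zero => intro x; simp
  | succ a ih =>
    intro x
    obtain ⟨h1, h2⟩ := ih x
    rw [Finset.sum_range_succ, ← h1]
    have h3 : tri (x - a) = tri (x - (a + 1)) + (x - a) := by
      rcases Nat.lt_or_ge a x with h | h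
      · obtain ⟨y, hy⟩ : ∃ y, x - a = y + 1 := ⟨x - a - 1, by omega⟩
        rw [hy, show x - (a + 1) = y by omega, tri_succ]
      · rw [show x - a = 0 by omega, show x - (a + 1) = 0 by omega, Nat.add_zero]
    omega

theorem ro_strp (a : ℕ) (k : ℕ) : ∀ x i, ro (strp a k x) i ≤
    ∑ s ∈ Finset.range a, (x - (i * a + s)) := by
  induction k with
  | zero => intro x i; show ro [] i ≤ _; rw [ro_nil]; exact Nat.zero_le _
  | succ k ih =>
    intro x i
    cases i with
    | zero =>
      show tri x - tri (x - a) ≤ _
      rw [(tri_sub a x).1]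
      apply le_of_eq
      apply Finset.sum_congr rfl
      intro s _
      rw [Nat.zero_mul, Nat.zero_add]
    | succ i =>
      show ro (strp a k (x - a)) i ≤ _
      refine (ih (x - a) i).trans (le_of_eq ?_)
      apply Finset.sum_congr rfl
      intro s _
      rw [Nat.sub_sub]
      congr 1
      ring

theorem ro_starts (k : ℕ) (l : List ℕ) : ∀ x i, i < l.length →
    ro (starts k l x) i = x + k * i := by
  induction l with
  | nil => intro x i h; simp at h
  | cons a l ih =>
    intro x i h
    cases i with
    | zero => show x = _; rw [Nat.mul_zero, Nat.add_zero]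
    | succ i =>
      rw [List.length_cons] at h
      show ro (starts k l (x + k)) i = _
      rw [ih _ _ (by omega)]
      ring

theorem starts_length (k : ℕ) (l : List ℕ) : ∀ x, (starts k l x).length = l.length := by
  induction l with
  | nil => intro x; rfl
  | cons a l ih => intro x; show (starts k l _).length + 1 = _; rw [ih]; rfl

theorem ends_length (k : ℕ) (l : List ℕ) : ∀ x, (ends k l x).length = l.length := by
  induction l with
  | nil => intro x; rfl
  | cons a l ih => intro x; show (ends k l _).length + 1 = _; rw [ih]; rfl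

theorem ro_ends (k : ℕ) (l : List ℕ) : ∀ x i, i < l.length →
    ro (ends k l x) i = x + k * i + ro l i := by
  induction l with
  | nil => intro x i h; simp at h
  | cons a l ih =>
    intro x i h
    cases i with
    | zero => show x + a = _; rw [Nat.mul_zero, Nat.add_zero, ro_cons_zero]
    | succ i =>
      rw [List.length_cons] at h
      show ro (ends k l (x + k)) i = _
      rw [ih _ _ (by omega), ro_cons_succ]
      ring

/-- the previous entry -/
def prv (E : List ℕ) (p b : ℕ) : ℕ := if b = 0 then p else ro E (b - 1)

theorem rowt_eq (S : List ℕ) : ∀ (E : List ℕ) (p : ℕ), rowt S E p =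
    ∑ b ∈ Finset.range S.length, ((ro E b - ro S b) - (prv E p b - ro S b)) := by
  induction S with
  | nil => intro E p; rfl
  | cons x S ih =>
    intro E p
    rw [List.length_cons, Finset.sum_range_succ']
    have h1 : rowt (x :: S) E p = ((@List.rec ℕ (fun _ => ℕ) 0 (fun a _ _ => a) E) - x - (p - x)) +
      rowt S (@List.rec ℕ (fun _ => List ℕ) [] (fun _ l _ => l) E)
        (@List.rec ℕ (fun _ => ℕ) 0 (fun a _ _ => a) E) := rfl
    rw [h1, ih, add_comm]
    cases E with
    | nil =>
      congr 1
      apply Finset.sum_congr rfl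
      intro b _
      show (ro [] b - ro S b) - (prv [] 0 b - ro S b) = (ro [] (b + 1) - ro S b) -
        (prv [] p (b + 1) - ro S b)
      rw [prv, prv, if_neg (Nat.succ_ne_zero b), ro_nil, ro_nil, ro_nil]
      simp
    | cons e E =>
      congr 1
      apply Finset.sum_congr rfl
      intro b _
      show (ro E b - ro S b) - (prv E e b - ro S b) = (ro (e :: E) (b + 1) - ro (x :: S) (b + 1)) -
        (prv (e :: E) p (b + 1) - ro (x :: S) (b + 1))
      rw [ro_cons_succ, ro_cons_succ, prv, prv, if_neg (Nat.succ_ne_zero b)]
      cases b with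
      | zero => rfl
      | succ b =>
        rw [if_neg (Nat.succ_ne_zero b), Nat.add_sub_cancel, Nat.add_sub_cancel, ro_cons_succ]

theorem ro_rowts (E S : List ℕ) : ∀ i, ro (rowts E S) i =
    if i < S.length then rowt (S.drop i) E 0 else 0 := by
  induction S with
  | nil => intro i; show ro [] i = _; rw [ro_nil]; simp
  | cons x S ih =>
    intro i
    cases i with
    | zero => rw [if_pos (by simp)]; rfl
    | succ i =>
      show ro (rowts E S) i = _
      rw [ih, List.length_cons, List.drop_succ_cons]
      simp only [Nat.add_lt_add_iff_right]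

theorem mon_spec (l : List ℕ) (h : mon l = true) : ∀ c, c + 1 < l.length →
    ro l c ≤ ro l (c + 1) := by
  induction l with
  | nil => intro c hc; simp at hc
  | cons a l ih =>
    cases l with
    | nil => intro c hc; simp at hc
    | cons b l =>
      have h1 : (and (Nat.ble a b) (mon (b :: l))) = true := h
      rw [Bool.and_eq_true] at h1
      intro c hc
      cases c with
      | zero => exact Nat.le_of_ble_eq_true h1.1
      | succ c =>
        rw [ro_cons_succ, ro_cons_succ]
        rw [List.length_cons] at hc
        exact ih h1.2 c (by omega)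

theorem mon_le (l : List ℕ) (h : mon l = true) {b : ℕ} : ∀ c, b ≤ c → c < l.length →
    ro l b ≤ ro l c := by
  intro c
  induction c with
  | zero => intro h1 _; rw [show b = 0 by omega]
  | succ c ih =>
    intro h1 h2
    rcases Nat.lt_or_ge b (c + 1) with h3 | h3
    · exact (ih (by omega) (by omega)).trans (mon_spec l h c h2)
    · rw [show b = c + 1 by omega]

theorem ro_torf (k : ℕ) (l : List ℕ) (i : ℕ) : ∃ U : Finset ℕ, ro (torf k l) i ≤ U.card ∧
    ∀ u ∈ U, i < (act k l.length (ro l) u).card := by
  classical
  cases hm : mon (ends k l 0) with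
  | false =>
    refine ⟨∅, ?_, fun u hu => absurd hu (Finset.notMem_empty u)⟩
    rw [torf, hm]
    show ro [] i ≤ _
    rw [ro_nil]
    exact Nat.zero_le _
  | true =>
    have e0 : torf k l = rowts (ends k l 0) (starts k l 0) := by rw [torf, hm]
    rw [e0, ro_rowts, starts_length]
    by_cases hi : i < l.length
    · rw [if_pos hi, rowt_eq, List.length_drop, starts_length]
      set E := ends k l 0 with hE
      have hEl : E.length = l.length := ends_length k l 0
      let J : ℕ → Finset ℕ := fun b => Finset.Ico (max (k * (b + i)) (prv E 0 b)) (ro E b)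
      refine ⟨(Finset.range (l.length - i)).biUnion J, ?_, ?_⟩
      · rw [Finset.card_biUnion]
        · apply Finset.sum_le_sum
          intro b hb
          rw [Finset.mem_range] at hb
          show _ ≤ (Finset.Ico (max (k * (b + i)) (prv E 0 b)) (ro E b)).card
          rw [Nat.card_Ico, ro_drop', ro_starts k l 0 (i + b) (by omega), Nat.zero_add,
            Nat.add_comm i b]
          omega
        · intro b hb b' hb' hne
          rw [Finset.mem_coe, Finset.mem_range] at hb hb'
          rw [Function.onFun, Finset.disjoint_left]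
          intro u hu hu'
          rw [Finset.mem_Ico] at hu hu'
          have key : ∀ b b', b < b' → b' < l.length - i → u < ro E b →
              max (k * (b' + i)) (prv E 0 b') ≤ u → False := by
            intro b b' h1 h2 h3 h4
            have h5 : prv E 0 b' = ro E (b' - 1) := by rw [prv, if_neg (by omega)]
            have h6 := mon_le E hm (b := b) (b' - 1) (by omega) (by omega)
            have h7 := le_trans (le_max_right (k * (b' + i)) (prv E 0 b')) h4
            omega
          rcases Nat.lt_or_gt_of_ne hne with h | h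
          · exact key b b' h hb' hu.2 hu'.1
          · exact key b' b h hb hu'.2 hu.1
      · intro u hu
        rw [Finset.mem_biUnion] at hu
        obtain ⟨b, hb, hu⟩ := hu
        rw [Finset.mem_range] at hb
        rw [Finset.mem_Ico] at hu
        have hsub : Finset.Ico b (b + (i + 1)) ⊆ act k l.length (ro l) u := by
          intro c hc
          rw [Finset.mem_Ico] at hc
          rw [mem_act]
          have h1 : k * c ≤ k * (b + i) := Nat.mul_le_mul_left _ (by omega)
          have h2 := le_trans (le_max_left (k * (b + i)) (prv E 0 b)) hu.1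
          have h3 := mon_le E hm (b := b) c hc.1 (by omega)
          have h4 := ro_ends k l 0 c (by omega)
          rw [← hE, Nat.zero_add] at h4
          refine ⟨by omega, by omega, by omega⟩
        have := Finset.card_le_card hsub
        rw [Nat.card_Ico] at this
        omega
    · rw [if_neg hi]
      exact ⟨∅, Nat.zero_le _, fun u hu => absurd hu (Finset.notMem_empty u)⟩
where
  ro_drop' : ∀ {l : List ℕ} {c i : ℕ}, ro (l.drop c) i = ro l (c + i) := by
    intro l c i
    rw [ro, ro, List.getD_eq_getElem?_getD, List.getD_eq_getElem?_getD, List.getElem?_drop]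

variable {K : Type*} [Field K]

theorem good_stf [CharZero K] {r m ρ : ℕ} (k : ℕ) (l : List ℕ)
    (h : Good K r m (ro (stf k l)) ρ) : Good K r m (ro l) ρ := by
  rw [stf] at h
  cases hk : Nat.ble 2000 k with
  | true =>
    rw [hk] at h
    apply Good.move (k - 2000) l.length (n' := ro (conj (prof (k - 2000) l))) _ h
    intro i
    refine ⟨_, (ro_conj (prof (k - 2000) l) i).le, ?_⟩
    intro u hu
    rw [Finset.mem_filter] at hu
    rw [← ro_prof]
    exact hu.2
  | false =>
    rw [hk] at h
    cases hk2 : Nat.ble 1000 k with
    | true =>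
      rw [hk2] at h
      exact Good.move (k - 1000) l.length (n' := ro (torf (k - 1000) l))
        (fun i => ro_torf (k - 1000) l i) h
    | false =>
      rw [hk2] at h
      cases ha : anti l with
      | true =>
        rw [ha] at h
        apply nodal_move k l.length (fun c c' hc _ => anti_antitone l ha hc)
        have e : nod k l.length (ro l) = ro (diffs (ulist k l 0)) :=
          funext fun i => (ro_nod k l i).symm
        rw [e]
        exact h
      | false =>
        rw [ha] at h
        apply Good.mono _ h
        intro i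
        show ro [] i ≤ _
        rw [ro_nil]
        exact Nat.zero_le _

theorem good_playf [CharZero K] {r m ρ : ℕ} (p : List ℕ) : ∀ l : List ℕ,
    Good K r m (ro (playf p l)) ρ → Good K r m (ro l) ρ := by
  induction p with
  | nil => intro l h; exact h
  | cons k p ih => intro l h; exact good_stf k l (ih (stf k l) h)

/-- A successful fast check gives maximal rank. -/
theorem good_chf [CharZero K] {r m d : ℕ} (a : ℕ) (p : List ℕ)
    (h : and (Nat.ble 1 a) (chf r m d a p) = true) : MR K r m d := by
  rw [Bool.and_eq_true] at h
  obtain ⟨h0, h⟩ := h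
  have h0 := Nat.le_of_ble_eq_true h0
  rw [chf] at h
  have h1 := Nat.le_of_ble_eq_true h
  rw [need_eq] at h1
  have h2 := good_playf (K := K) p (strp a (d / a + 1) (d + 1)) (good_fin _ h1)
  apply good_stripF a d (by omega)
  apply Good.mono _ h2
  intro i
  exact ro_strp a (d / a + 1) (d + 1) i

end Pool.Agent.Helper54.FM
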