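import Pool.Agent.Helper54.FM.Fast

set_option autoImplicit false

/-! Project FM (helper54), MP_e6aa12_ag: faster games. All toric moves in `O(B^2)` after sorting the
ends; the lists are evaluated after each move. -/

open Polynomial

namespace Pool.Agent.Helper54.FM.V2

open Pool.Agent.Helper41.Fat Pool.Agent.Helper7.NM Pool.Agent.Helper54.FM

/-- Evaluate `n` first. -/
noncomputable def force {α : Type} (n : ℕ) (f : ℕ → α) : α :=
  @Nat.rec (fun _ => α) (f 0) (fun k _ => f k) (Nat.add n 1)

theorem force_eq {α : Type} (n : ℕ) (f : ℕ → α) : force n f = f n := rfl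

/-- Evaluate the list first. -/
noncomputable def forceL (l : List ℕ) : (List ℕ → Bool) → Bool :=
  @List.rec ℕ (fun _ => (List ℕ → Bool) → Bool) (fun κ => κ [])
    (fun a _ ih κ => force a (fun v => ih (fun t => κ (v :: t)))) l

theorem forceL_eq (l : List ℕ) : ∀ κ : List ℕ → Bool, forceL l κ = κ l := by
  induction l with
  | nil => intro κ; rfl
  | cons a l ih =>
    intro κ
    have h1 : forceL (a :: l) κ = force a (fun v => forceL l (fun t => κ (v :: t))) := rfl
    rw [h1, force_eq, ih]

/-- Insert into a sorted list. -/
noncomputable def ins (a : ℕ) (l : List ℕ) : List ℕ :=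
  @List.rec ℕ (fun _ => List ℕ) [a]
    (fun b t ih => @Bool.rec (fun _ => List ℕ) (b :: ih) (a :: b :: t) (Nat.ble a b)) l

/-- Sort. -/
noncomputable def srt (l : List ℕ) : List ℕ :=
  @List.rec ℕ (fun _ => List ℕ) [] (fun a _ ih => ins a ih) l

theorem ins_perm (a : ℕ) (l : List ℕ) : (ins a l).Perm (a :: l) := by
  induction l with
  | nil => exact List.Perm.refl _
  | cons b t ih =>
    have h1 : ins a (b :: t) =
      @Bool.rec (fun _ => List ℕ) (b :: ins a t) (a :: b :: t) (Nat.ble a b) := rfl
    rw [h1]
    cases Nat.ble a b with
    | true => exact List.Perm.refl _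
    | false => exact (List.Perm.cons b ih).trans (List.Perm.swap a b t)

theorem srt_perm (l : List ℕ) : (srt l).Perm l := by
  induction l with
  | nil => exact List.Perm.refl _
  | cons a l ih => exact (ins_perm a (srt l)).trans (List.Perm.cons a ih)

/-- The toric move. -/
noncomputable def torv (k : ℕ) (l : List ℕ) : List ℕ :=
  @Bool.rec (fun _ => List ℕ) [] (rowts (srt (ends k l 0)) (starts k l 0)) (mon (srt (ends k l 0)))

/-- One move. -/
noncomputable def stv (k : ℕ) (l : List ℕ) : List ℕ :=
  @Bool.rec (fun _ => List ℕ)
    (@Bool.rec (fun _ => List ℕ) [] (diffs (ulist k l 0)) (anti l))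
    (torv (Nat.sub k 1000) l) (Nat.ble 1000 k)

/-- The same with a continuation. -/
noncomputable def stk (k : ℕ) (l : List ℕ) (κ : List ℕ → Bool) : Bool :=
  @Bool.rec (fun _ => Bool)
    (@Bool.rec (fun _ => Bool) (κ []) (forceL (ulist k l 0) (fun U => forceL (diffs U) κ)) (anti l))
    (forceL (ends (Nat.sub k 1000) l 0) (fun E0 => forceL (srt E0) (fun E =>
      @Bool.rec (fun _ => Bool) (κ []) (forceL (rowts E (starts (Nat.sub k 1000) l 0)) κ) (mon E))))
    (Nat.ble 1000 k)

theorem stk_eq (k : ℕ) (l : List ℕ) (κ : List ℕ → Bool) : stk k l κ = κ (stv k l) := by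
  rw [stk, stv]
  cases Nat.ble 1000 k with
  | true =>
    show forceL (ends (Nat.sub k 1000) l 0) _ = κ (torv (Nat.sub k 1000) l)
    rw [forceL_eq, forceL_eq, torv]
    cases mon (srt (ends (Nat.sub k 1000) l 0)) with
    | true => show forceL _ κ = _; rw [forceL_eq]
    | false => rfl
  | false =>
    show @Bool.rec (fun _ => Bool) (κ []) (forceL (ulist k l 0) (fun U => forceL (diffs U) κ))
      (anti l) = κ (@Bool.rec (fun _ => List ℕ) [] (diffs (ulist k l 0)) (anti l))
    cases anti l with
    | true =>
      show forceL (ulist k l 0) (fun U => forceL (diffs U) κ) = _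
      rw [forceL_eq, forceL_eq]
    | false => rfl

/-- A sequence of moves. -/
noncomputable def playv (p : List ℕ) : List ℕ → List ℕ :=
  @List.rec ℕ (fun _ => List ℕ → List ℕ) (fun l => l) (fun k _ ih l => ih (stv k l)) p

/-- The same with a continuation. -/
noncomputable def playk (p : List ℕ) : List ℕ → (List ℕ → Bool) → Bool :=
  @List.rec ℕ (fun _ => List ℕ → (List ℕ → Bool) → Bool) (fun l κ => κ l)
    (fun k _ ih l κ => stk k l (fun l' => ih l' κ)) p

theorem playk_eq (p : List ℕ) : ∀ (l : List ℕ) (κ : List ℕ → Bool),
    playk p l κ = κ (playv p l) := by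
  induction p with
  | nil => intro l κ; rfl
  | cons k p ih =>
    intro l κ
    have h1 : playk (k :: p) l κ = stk k l (fun l' => playk p l' κ) := rfl
    rw [h1, stk_eq, ih]
    rfl

/-- The path `a, p` proves maximal rank for `(r, m, d)`. -/
noncomputable def chv (r m d a : ℕ) (p : List ℕ) : Bool :=
  and (Nat.ble 1 a) (forceL (strp a (Nat.add (Nat.div d a) 1) (Nat.add d 1)) (fun l0 =>
    playk p l0 (fun l => Nat.ble (need r m d) (fin r l (Nat.mul r m)))))

/-! ### Correctness -/

theorem card_ro_le (u : ℕ) (l : List ℕ) :
    ((Finset.range l.length).filter (fun c => ro l c ≤ u)).card = l.countP (fun x => x ≤ u) := by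
  induction l with
  | nil => rfl
  | cons a l ih =>
    rw [List.countP_cons, ← ih, List.length_cons, Finset.card_filter, Finset.card_filter,
      Finset.sum_range_succ']
    congr 1
    by_cases h : a ≤ u
    · rw [if_pos (by rw [ro_cons_zero]; exact h), if_pos (by simpa using h)]
    · rw [if_neg (by rw [ro_cons_zero]; exact h), if_neg (by simpa using h)]

theorem act_card (k u : ℕ) (l : List ℕ) : (act k l.length (ro l) u).card +
    (srt (ends k l 0)).countP (fun x => x ≤ u) =
      ((Finset.range l.length).filter (fun c => k * c ≤ u)).card := by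
  classical
  rw [(srt_perm (ends k l 0)).countP_eq, ← card_ro_le, ends_length]
  have h1 : act k l.length (ro l) u = ((Finset.range l.length).filter (fun c => k * c ≤ u)).filter
      (fun c => u < k * c + ro l c) := by
    ext c
    rw [mem_act, Finset.mem_filter, Finset.mem_filter, Finset.mem_range]
    tauto
  have h2 : (Finset.range l.length).filter (fun c => ro (ends k l 0) c ≤ u) =
      ((Finset.range l.length).filter (fun c => k * c ≤ u)).filter
        (fun c => ¬ u < k * c + ro l c) := by
    ext c
    rw [Finset.mem_filter, Finset.mem_filter, Finset.mem_filter, Finset.mem_range]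
    constructor
    · rintro ⟨h, h'⟩
      rw [ro_ends k l 0 c h] at h'
      exact ⟨⟨h, by omega⟩, by omega⟩
    · rintro ⟨⟨h, _⟩, h'⟩
      refine ⟨h, ?_⟩
      rw [ro_ends k l 0 c h]
      omega
  rw [h1, h2]
  exact Finset.card_filter_add_card_filter_not _

theorem ro_torv (k : ℕ) (l : List ℕ) (i : ℕ) : ∃ U : Finset ℕ, ro (torv k l) i ≤ U.card ∧
    ∀ u ∈ U, i < (act k l.length (ro l) u).card := by
  classical
  set E := srt (ends k l 0) with hE
  have hEl : E.length = l.length := (srt_perm _).length_eq.trans (ends_length k l 0)
  cases hm : mon E with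
  | false =>
    refine ⟨∅, ?_, fun u hu => absurd hu (Finset.notMem_empty u)⟩
    rw [torv, ← hE, hm]
    show ro [] i ≤ _
    rw [ro_nil]
    exact Nat.zero_le _
  | true =>
    have e0 : torv k l = rowts E (starts k l 0) := by rw [torv, ← hE, hm]
    rw [e0, ro_rowts, starts_length]
    by_cases hi : i < l.length
    · rw [if_pos hi, rowt_eq, List.length_drop, starts_length]
      let J : ℕ → Finset ℕ := fun b => Finset.Ico (max (k * (b + i)) (prv E 0 b)) (ro E b)
      refine ⟨(Finset.range (l.length - i)).biUnion J, ?_, ?_⟩
      · rw [Finset.card_biUnion]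
        · apply Finset.sum_le_sum
          intro b hb
          rw [Finset.mem_range] at hb
          show _ ≤ (Finset.Ico (max (k * (b + i)) (prv E 0 b)) (ro E b)).card
          rw [Nat.card_Ico, ro_drop', ro_starts k l 0 (i + b) (by omega), Nat.zero_add,
            Nat.add_comm i b]
          omega
        · intro b hb b' hb' hne
          rw [Finset.mem_coe, Finset.mem_range] at hb hb'
          rw [Function.onFun, Finset.disjoint_left]
          intro u hu hu'
          rw [Finset.mem_Ico] at hu hu'
          have key : ∀ b b', b < b' → b' < l.length - i → u < ro E b →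
              max (k * (b' + i)) (prv E 0 b') ≤ u → False := by
            intro b b' h1 h2 h3 h4
            have h5 : prv E 0 b' = ro E (b' - 1) := by rw [prv, if_neg (by omega)]
            have h6 := mon_le E hm (b := b) (b' - 1) (by omega) (by omega)
            have h7 := le_trans (le_max_right (k * (b' + i)) (prv E 0 b')) h4
            omega
          rcases Nat.lt_or_gt_of_ne hne with h | h
          · exact key b b' h hb' hu.2 hu'.1
          · exact key b' b h hb hu'.2 hu.1
      · intro u hu
        rw [Finset.mem_biUnion] at hu
        obtain ⟨b, hb, hu⟩ := hu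
        rw [Finset.mem_range] at hb
        rw [Finset.mem_Ico] at hu
        have hc := act_card k u l
        rw [← hE, ← card_ro_le, hEl] at hc
        have h1 : ((Finset.range l.length).filter (fun c => ro E c ≤ u)).card ≤ b := by
          have hsub : (Finset.range l.length).filter (fun c => ro E c ≤ u) ⊆ Finset.range b := by
            intro c hc
            rw [Finset.mem_filter, Finset.mem_range] at hc
            rw [Finset.mem_range]
            by_contra hcb
            have := mon_le E hm (b := b) c (by omega) (by omega)
            omega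
          have := Finset.card_le_card hsub
          rwa [Finset.card_range] at this
        have h2 : b + i + 1 ≤ ((Finset.range l.length).filter (fun c => k * c ≤ u)).card := by
          have hsub : Finset.range (b + i + 1) ⊆
              (Finset.range l.length).filter (fun c => k * c ≤ u) := by
            intro c hc
            rw [Finset.mem_range] at hc
            rw [Finset.mem_filter, Finset.mem_range]
            have h3 : k * c ≤ k * (b + i) := Nat.mul_le_mul_left _ (by omega)
            have h4 := le_trans (le_max_left (k * (b + i)) (prv E 0 b)) hu.1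
            exact ⟨by omega, by omega⟩
          have := Finset.card_le_card hsub
          rwa [Finset.card_range] at this
        omega
    · rw [if_neg hi]
      exact ⟨∅, Nat.zero_le _, fun u hu => absurd hu (Finset.notMem_empty u)⟩
where
  ro_drop' : ∀ {l : List ℕ} {c i : ℕ}, ro (l.drop c) i = ro l (c + i) := by
    intro l c i
    rw [ro, ro, List.getD_eq_getElem?_getD, List.getD_eq_getElem?_getD, List.getElem?_drop]

variable {K : Type*} [Field K]

theorem good_stv [CharZero K] {r m ρ : ℕ} (k : ℕ) (l : List ℕ)
    (h : Good K r m (ro (stv k l)) ρ) : Good K r m (ro l) ρ := by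
  rw [stv] at h
  cases hk2 : Nat.ble 1000 k with
  | true =>
    rw [hk2] at h
    exact Good.move (k - 1000) l.length (n' := ro (torv (k - 1000) l))
      (fun i => ro_torv (k - 1000) l i) h
  | false =>
    rw [hk2] at h
    cases ha : anti l with
    | true =>
      rw [ha] at h
      apply nodal_move k l.length (fun c c' hc _ => anti_antitone l ha hc)
      have e : nod k l.length (ro l) = ro (diffs (ulist k l 0)) :=
        funext fun i => (ro_nod k l i).symm
      rw [e]
      exact h
    | false =>
      rw [ha] at h
      apply Good.mono _ h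
      intro i
      show ro [] i ≤ _
      rw [ro_nil]
      exact Nat.zero_le _

theorem good_playv [CharZero K] {r m ρ : ℕ} (p : List ℕ) : ∀ l : List ℕ,
    Good K r m (ro (playv p l)) ρ → Good K r m (ro l) ρ := by
  induction p with
  | nil => intro l h; exact h
  | cons k p ih => intro l h; exact good_stv k l (ih (stv k l) h)

/-- A successful fast check gives maximal rank. -/
theorem good_chv [CharZero K] {r m d : ℕ} (a : ℕ) (p : List ℕ)
    (h : chv r m d a p = true) : MR K r m d := by
  rw [chv, forceL_eq, playk_eq, Bool.and_eq_true] at h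
  obtain ⟨h0, h⟩ := h
  have h0 := Nat.le_of_ble_eq_true h0
  have h1 := Nat.le_of_ble_eq_true h
  rw [need_eq] at h1
  have h2 := good_playv (K := K) p (strp a (d / a + 1) (d + 1)) (good_fin _ h1)
  apply good_stripF a d (by omega)
  apply Good.mono _ h2
  intro i
  exact ro_strp a (d / a + 1) (d + 1) i

end Pool.Agent.Helper54.FM.V2
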