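import Pool.Agent.Helper54.FM.Fast2

set_option autoImplicit false

/-! Project FM (helper54), MP_e6aa12_ag: still faster games. Every list is cut at its first zero,
and the sums stop as soon as their terms vanish. -/

open Polynomial

namespace Pool.Agent.Helper54.FM.V3

open Pool.Agent.Helper41.Fat Pool.Agent.Helper7.NM Pool.Agent.Helper54.FM
open Pool.Agent.Helper54.FM.V2

/-- The part of the list before the first zero. -/
noncomputable def trm (l : List ℕ) : List ℕ :=
  @List.rec ℕ (fun _ => List ℕ) []
    (fun a _ ih => @Nat.rec (fun _ => List ℕ) [] (fun k _ => Nat.succ k :: ih) a) l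

/-- The same, evaluated, with a continuation. -/
noncomputable def trmK (l : List ℕ) : (List ℕ → Bool) → Bool :=
  @List.rec ℕ (fun _ => (List ℕ → Bool) → Bool) (fun κ => κ [])
    (fun a _ ih κ => force a (fun v => @Bool.rec (fun _ => Bool)
      (ih (fun t => κ (v :: t))) (κ []) (Nat.beq v 0))) l

theorem trmK_eq (l : List ℕ) : ∀ κ : List ℕ → Bool, trmK l κ = κ (trm l) := by
  induction l with
  | nil => intro κ; rfl
  | cons a l ih =>
    intro κ
    have h1 : trmK (a :: l) κ = @Bool.rec (fun _ => Bool)
      (trmK l (fun t => κ (a :: t))) (κ []) (Nat.beq a 0) := rfl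
    rw [h1]
    cases a with
    | zero => rfl
    | succ k => show trmK l (fun t => κ ((k + 1) :: t)) = _; rw [ih]; rfl

theorem ro_trm (l : List ℕ) : ∀ i, ro (trm l) i = ro l i ∨
    (ro (trm l) i = 0 ∧ ro (trm l) (i + 1) = 0) := by
  induction l with
  | nil => intro i; exact Or.inl rfl
  | cons a l ih =>
    intro i
    cases a with
    | zero =>
      right
      have h1 : trm (0 :: l) = [] := rfl
      rw [h1, ro_nil, ro_nil]
      exact ⟨rfl, rfl⟩
    | succ k =>
      have h1 : trm ((k + 1) :: l) = (k + 1) :: trm l := rfl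
      rw [h1]
      cases i with
      | zero => left; rfl
      | succ i => rw [ro_cons_succ, ro_cons_succ, ro_cons_succ]; exact ih i

theorem ro_trm_le (l : List ℕ) (i : ℕ) : ro (trm l) i ≤ ro l i := by
  rcases ro_trm l i with h | h
  · exact h.le
  · rw [h.1]; exact Nat.zero_le _

theorem ro_trm_succ (l : List ℕ) (i : ℕ) (h : ro (trm l) i ≠ 0) :
    ro (trm l) i = ro l i ∧ ro (trm l) (i + 1) = ro l (i + 1) := by
  induction l generalizing i with
  | nil => exact ⟨rfl, rfl⟩
  | cons a l ih =>
    cases a with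
    | zero =>
      have h1 : trm (0 :: l) = [] := rfl
      rw [h1, ro_nil] at h
      exact absurd rfl h
    | succ k =>
      have h1 : trm ((k + 1) :: l) = (k + 1) :: trm l := rfl
      rw [h1] at h ⊢
      cases i with
      | zero =>
        refine ⟨rfl, ?_⟩
        rw [ro_cons_succ, ro_cons_succ]
        cases l with
        | nil => rfl
        | cons b l =>
          cases b with
          | zero => rfl
          | succ b => rfl
      | succ i =>
        rw [ro_cons_succ] at h
        rw [ro_cons_succ, ro_cons_succ, ro_cons_succ, ro_cons_succ]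
        exact ih i h

/-- `∑ (a - t)` over a nonincreasing list. -/
noncomputable def sub1 (t : ℕ) (l : List ℕ) : ℕ :=
  @List.rec ℕ (fun _ => ℕ) 0
    (fun a _ ih => @Bool.rec (fun _ => ℕ) (Nat.add (Nat.sub a t) ih) 0 (Nat.ble a t)) l

/-- `U_i`. -/
noncomputable def ulist (δ : ℕ) (l : List ℕ) : ℕ → List ℕ :=
  @List.rec ℕ (fun _ => ℕ → List ℕ) (fun _ => [])
    (fun a l ih t => sub1 t (a :: l) :: ih (Nat.add t δ)) l

theorem anti_cons {a : ℕ} {l : List ℕ} (h : anti (a :: l) = true) : anti l = true := by
  have h1 : (and (@List.rec ℕ (fun _ => Bool) true (fun b _ _ => Nat.ble b a) l) (anti l)) =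
    true := h
  rw [Bool.and_eq_true] at h1
  exact h1.2

theorem sub1_eq' (t : ℕ) (l : List ℕ) (h : anti l = true) : sub1 t l = FM.sub1 t l := by
  induction l with
  | nil => rfl
  | cons a l ih =>
    have h1 : sub1 t (a :: l) = @Bool.rec (fun _ => ℕ) ((a - t) + sub1 t l) 0 (Nat.ble a t) := rfl
    rw [h1]
    cases hb : Nat.ble a t with
    | true =>
      have hat : a ≤ t := Nat.le_of_ble_eq_true hb
      have hanti := anti_antitone _ h
      rw [sub1_eq]
      symm
      apply Finset.sum_eq_zero
      intro c _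
      have := hanti (Nat.zero_le c)
      rw [ro_cons_zero] at this
      omega
    | false =>
      show (a - t) + sub1 t l = (a - t) + FM.sub1 t l
      rw [ih (anti_cons h)]

theorem ulist_eq (δ : ℕ) (l : List ℕ) : ∀ t, anti l = true → ulist δ l t = FM.ulist δ l t := by
  induction l with
  | nil => intro t _; rfl
  | cons a l ih =>
    intro t h
    show sub1 t (a :: l) :: ulist δ l (t + δ) = FM.sub1 t (a :: l) :: FM.ulist δ l (t + δ)
    rw [sub1_eq' t _ h, ih _ (anti_cons h)]

/-- One row of the toric move. -/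
noncomputable def rowx (k xm : ℕ) (E : List ℕ) : ℕ → ℕ → ℕ :=
  @List.rec ℕ (fun _ => ℕ → ℕ → ℕ) (fun _ _ => 0)
    (fun e _ ih x p => @Bool.rec (fun _ => ℕ) 0
      (Nat.add (Nat.sub (Nat.sub e x) (Nat.sub p x)) (ih (Nat.add x k) e)) (Nat.ble x xm)) E

/-- All rows of the toric move. -/
noncomputable def rowsx (k xm : ℕ) (E : List ℕ) (l : List ℕ) : ℕ → List ℕ :=
  @List.rec ℕ (fun _ => ℕ → List ℕ) (fun _ => [])
    (fun _ _ ih x => rowx k xm E x 0 :: ih (Nat.add x k)) l

theorem rowt_nil (S : List ℕ) : ∀ p, rowt S [] p = 0 := by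
  induction S with
  | nil => intro p; rfl
  | cons x S ih =>
    intro p
    have h1 : rowt (x :: S) [] p = (0 - x) - (p - x) + rowt S [] 0 := rfl
    rw [h1, ih, Nat.zero_sub, Nat.zero_sub]

theorem rowx_eq {k B : ℕ} (hk : 1 ≤ k) (hB : 1 ≤ B) (l : List ℕ) : ∀ (E : List ℕ) (i p : ℕ),
    i + l.length = B → rowx k (k * (B - 1)) E (k * i) p = rowt (starts k l (k * i)) E p := by
  induction l with
  | nil =>
    intro E i p hi
    rw [List.length_nil, Nat.add_zero] at hi
    have h1 : rowt (starts k [] (k * i)) E p = 0 := rfl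
    rw [h1]
    cases E with
    | nil => rfl
    | cons e E =>
      have h2 : rowx k (k * (B - 1)) (e :: E) (k * i) p = @Bool.rec (fun _ => ℕ) 0
        ((e - k * i) - (p - k * i) + rowx k (k * (B - 1)) E (k * i + k) e)
        (Nat.ble (k * i) (k * (B - 1))) := rfl
      rw [h2]
      cases hb : Nat.ble (k * i) (k * (B - 1)) with
      | true =>
        exfalso
        have h3 := Nat.le_of_ble_eq_true hb
        have h4 := Nat.le_of_mul_le_mul_left h3 (by omega)
        omega
      | false => rfl
  | cons a l ih =>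
    intro E i p hi
    rw [List.length_cons] at hi
    cases E with
    | nil => rw [rowt_nil]; rfl
    | cons e E =>
      have h2 : rowx k (k * (B - 1)) (e :: E) (k * i) p = @Bool.rec (fun _ => ℕ) 0
        ((e - k * i) - (p - k * i) + rowx k (k * (B - 1)) E (k * i + k) e)
        (Nat.ble (k * i) (k * (B - 1))) := rfl
      have h3 : Nat.ble (k * i) (k * (B - 1)) = true :=
        Nat.ble_eq_true_of_le (Nat.mul_le_mul_left _ (by omega))
      have h4 : rowt (starts k (a :: l) (k * i)) (e :: E) p =
        (e - k * i) - (p - k * i) + rowt (starts k l (k * i + k)) E e := rfl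
      rw [h2, h3, h4]
      show (e - k * i) - (p - k * i) + rowx k (k * (B - 1)) E (k * i + k) e = _
      have h5 : k * i + k = k * (i + 1) := by ring
      rw [h5, ih E (i + 1) e (by omega)]

theorem rowsx_eq {k B : ℕ} (hk : 1 ≤ k) (hB : 1 ≤ B) (E l : List ℕ) : ∀ i,
    i + l.length = B → rowsx k (k * (B - 1)) E l (k * i) = rowts E (starts k l (k * i)) := by
  induction l with
  | nil => intro i _; rfl
  | cons a l ih =>
    intro i hi
    have h1 : rowsx k (k * (B - 1)) E (a :: l) (k * i) =
      rowx k (k * (B - 1)) E (k * i) 0 :: rowsx k (k * (B - 1)) E l (k * i + k) := rfl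
    have h2 : rowts E (starts k (a :: l) (k * i)) =
      rowt (starts k (a :: l) (k * i)) E 0 :: rowts E (starts k l (k * i + k)) := rfl
    rw [List.length_cons] at hi
    have h5 : k * i + k = k * (i + 1) := by ring
    rw [h1, h2, rowx_eq hk hB (a :: l) E i 0 (by rw [List.length_cons]; omega), h5,
      ih (i + 1) (by omega)]

/-- The length, evaluated by the kernel. -/
noncomputable def len (l : List ℕ) : ℕ := @List.rec ℕ (fun _ => ℕ) 0 (fun _ _ ih => Nat.add ih 1) l

theorem len_eq (l : List ℕ) : len l = l.length := by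
  induction l with
  | nil => rfl
  | cons a l ih => show len l + 1 = _; rw [ih]; rfl

/-- One move. -/
noncomputable def stw (k : ℕ) (l : List ℕ) : List ℕ :=
  @Bool.rec (fun _ => List ℕ)
    (@Bool.rec (fun _ => List ℕ) [] (trm (diffs (trm (FM.ulist k l 0)))) (anti l))
    (@Bool.rec (fun _ => List ℕ) [] (trm (torv (Nat.sub k 1000) l))
      (and (Nat.ble 1001 k) (Nat.ble 1 (len l)))) (Nat.ble 1000 k)

/-- The same with a continuation. -/
noncomputable def stwk (k : ℕ) (l : List ℕ) (κ : List ℕ → Bool) : Bool :=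
  @Bool.rec (fun _ => Bool)
    (@Bool.rec (fun _ => Bool) (κ []) (trmK (ulist k l 0) (fun U => trmK (diffs U) κ)) (anti l))
    (@Bool.rec (fun _ => Bool) (κ [])
      (forceL (ends (Nat.sub k 1000) l 0) (fun E0 => forceL (srt E0) (fun E =>
      @Bool.rec (fun _ => Bool) (κ []) (force (Nat.mul (Nat.sub k 1000) (Nat.sub (len l) 1))
        (fun xm => trmK (rowsx (Nat.sub k 1000) xm E l 0) κ)) (mon E))))
      (and (Nat.ble 1001 k) (Nat.ble 1 (len l))))
    (Nat.ble 1000 k)

theorem stwk_eq (k : ℕ) (l : List ℕ) (κ : List ℕ → Bool) : stwk k l κ = κ (stw k l) := by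
  rw [stwk, stw]
  cases Nat.ble 1000 k with
  | true =>
    show @Bool.rec (fun _ => Bool) (κ []) _ (and (Nat.ble 1001 k) (Nat.ble 1 (len l))) =
      κ (@Bool.rec (fun _ => List ℕ) [] (trm (torv (Nat.sub k 1000) l))
        (and (Nat.ble 1001 k) (Nat.ble 1 (len l))))
    cases hkl : and (Nat.ble 1001 k) (Nat.ble 1 (len l)) with
    | false => rfl
    | true =>
      rw [Bool.and_eq_true] at hkl
      have hk : 1 ≤ k - 1000 := by
        have := Nat.le_of_ble_eq_true hkl.1
        omega
      have hl : 1 ≤ l.length := by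
        have := Nat.le_of_ble_eq_true hkl.2
        rwa [len_eq] at this
      show forceL (ends (k - 1000) l 0) _ = κ (trm (torv (k - 1000) l))
      rw [forceL_eq, forceL_eq, torv]
      cases mon (srt (ends (k - 1000) l 0)) with
      | true =>
        show force ((k - 1000) * (len l - 1)) _ = _
        rw [force_eq, trmK_eq, len_eq]
        have := rowsx_eq hk hl (srt (ends (k - 1000) l 0)) l 0 (by omega)
        rw [Nat.mul_zero] at this
        exact congrArg (fun z => κ (trm z)) this
      | false => rfl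
  | false =>
    show @Bool.rec (fun _ => Bool) (κ []) (trmK (ulist k l 0) (fun U => trmK (diffs U) κ))
      (anti l) = κ (@Bool.rec (fun _ => List ℕ) [] (trm (diffs (trm (FM.ulist k l 0)))) (anti l))
    cases ha : anti l with
    | true =>
      show trmK (ulist k l 0) (fun U => trmK (diffs U) κ) = _
      rw [trmK_eq, trmK_eq, ulist_eq k l 0 ha]
    | false => rfl

/-- A sequence of moves. -/
noncomputable def playw (p : List ℕ) : List ℕ → List ℕ :=
  @List.rec ℕ (fun _ => List ℕ → List ℕ) (fun l => l) (fun k _ ih l => ih (stw k l)) p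

/-- The same with a continuation. -/
noncomputable def playk (p : List ℕ) : List ℕ → (List ℕ → Bool) → Bool :=
  @List.rec ℕ (fun _ => List ℕ → (List ℕ → Bool) → Bool) (fun l κ => κ l)
    (fun k _ ih l κ => stwk k l (fun l' => ih l' κ)) p

theorem playk_eq (p : List ℕ) : ∀ (l : List ℕ) (κ : List ℕ → Bool),
    playk p l κ = κ (playw p l) := by
  induction p with
  | nil => intro l κ; rfl
  | cons k p ih =>
    intro l κ
    have h1 : playk (k :: p) l κ = stwk k l (fun l' => playk p l' κ) := rfl
    rw [h1, stwk_eq, ih]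
    rfl

/-- The path `a, p` proves maximal rank for `(r, m, d)`. -/
noncomputable def chw (r m d a : ℕ) (p : List ℕ) : Bool :=
  and (Nat.ble 1 a) (trmK (strp a (Nat.add (Nat.div d a) 1) (Nat.add d 1)) (fun l0 =>
    playk p l0 (fun l => Nat.ble (need r m d) (fin r l (Nat.mul r m)))))

/-! ### Correctness -/

theorem ro_diffs_trm (U : List ℕ) (i : ℕ) : ro (diffs (trm U)) i ≤ ro (diffs U) i := by
  rw [ro_diffs, ro_diffs]
  by_cases h : ro (trm U) i = 0
  · rw [h, Nat.zero_sub]; exact Nat.zero_le _
  · obtain ⟨h1, h2⟩ := ro_trm_succ U i h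
    rw [h1, h2]

variable {K : Type*} [Field K]

theorem good_stw [CharZero K] {r m ρ : ℕ} (k : ℕ) (l : List ℕ)
    (h : Good K r m (ro (stw k l)) ρ) : Good K r m (ro l) ρ := by
  apply good_stv k l
  apply Good.mono _ h
  intro i
  rw [stw, stv]
  cases Nat.ble 1000 k with
  | true =>
    show ro (@Bool.rec (fun _ => List ℕ) [] (trm (torv (Nat.sub k 1000) l))
      (and (Nat.ble 1001 k) (Nat.ble 1 (len l)))) i ≤ ro (torv (Nat.sub k 1000) l) i
    cases and (Nat.ble 1001 k) (Nat.ble 1 (len l)) with
    | false => show ro [] i ≤ _; rw [ro_nil]; exact Nat.zero_le _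
    | true => exact ro_trm_le _ i
  | false =>
    show ro (@Bool.rec (fun _ => List ℕ) [] (trm (diffs (trm (FM.ulist k l 0)))) (anti l)) i ≤
      ro (@Bool.rec (fun _ => List ℕ) [] (diffs (FM.ulist k l 0)) (anti l)) i
    cases anti l with
    | false => exact le_rfl
    | true => exact (ro_trm_le _ i).trans (ro_diffs_trm _ i)

theorem good_playw [CharZero K] {r m ρ : ℕ} (p : List ℕ) : ∀ l : List ℕ,
    Good K r m (ro (playw p l)) ρ → Good K r m (ro l) ρ := by
  induction p with
  | nil => intro l h; exact h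
  | cons k p ih => intro l h; exact good_stw k l (ih (stw k l) h)

theorem good_play0 [CharZero K] {r m d ρ : ℕ} (a : ℕ) (path : List ℕ)
    (ha : 1 ≤ a) (h : Good K r m (ro (playw path (trm (strp a (d / a + 1) (d + 1))))) ρ) :
    Good K r m (fun b => d + 1 - b) ρ := by
  have h2 := good_playw (K := K) path (trm (strp a (d / a + 1) (d + 1))) h
  apply good_stripF a d (by omega)
  apply Good.mono _ h2
  intro i
  exact (ro_trm_le _ i).trans (ro_strp a (d / a + 1) (d + 1) i)

/-- A successful fast check gives maximal rank. -/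
theorem good_chw [CharZero K] {r m d : ℕ} (a : ℕ) (p : List ℕ)
    (h : chw r m d a p = true) : MR K r m d := by
  rw [chw, trmK_eq, playk_eq, Bool.and_eq_true] at h
  obtain ⟨h0, h⟩ := h
  have h0 := Nat.le_of_ble_eq_true h0
  have h1 := Nat.le_of_ble_eq_true h
  rw [need_eq] at h1
  exact good_play0 a p h0 (good_fin _ h1)

end Pool.Agent.Helper54.FM.V3
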