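import Pool.Agent.Helper7.FreeChain
set_option autoImplicit false
open Polynomial
namespace Pool.Agent.Helper54.FM
open Pool.Agent.Helper41.Fat Pool.Agent.Helper7

private theorem phi_indep_iff {F : Type*} [Field F] {r m ρ : ℕ} {η : F[X]}
    {w : Fin ρ → F[X][X]} :
    LinearIndependent F (fun i => Phi F r m η (w i)) ↔
      LinearIndependent F (fun i => Free.Lm r m η (w i)) := by
  rw [Fintype.linearIndependent_iff, Fintype.linearIndependent_iff]
  have key : ∀ g : Fin ρ → F, (∑ i, g i • Phi F r m η (w i) = 0) ↔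
      (∑ i, g i • Free.Lm r m η (w i) = 0) := by
    intro g
    have h1 : ∑ i, g i • Phi F r m η (w i) = Phi F r m η (∑ i, g i • w i) := by
      simp only [map_sum, map_smul]
    have h2 : ∑ i, g i • Free.Lm r m η (w i) = Free.Lm r m η (∑ i, g i • w i) := by
      simp only [map_sum, map_smul]
    rw [h1, h2, Phi_eq_zero_iff, Free.Lm_eq_zero_iff]
  simp only [key]

private theorem exists_lift1 (p : ℕ) [Fact p.Prime] (q : (ZMod p)[X]) :
    ∃ Q : ℤ[X], Q.map (Int.castRingHom (ZMod p)) = q ∧ Q.degree = q.degree := by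
  have hq : q ∈ lifts (Int.castRingHom (ZMod p)) := by
    rw [lifts_iff_coeff_lifts]
    intro k
    exact ZMod.ringHom_surjective (Int.castRingHom (ZMod p)) (q.coeff k)
  exact exists_degree_eq_of_mem_lifts hq

private theorem exists_lift2 (p : ℕ) [Fact p.Prime] (n : ℕ → ℕ) (P : (ZMod p)[X][X])
    (hP : P ∈ rows (ZMod p) n) :
    ∃ Q : ℤ[X][X], Q.map (mapRingHom (Int.castRingHom (ZMod p))) = P ∧
      ∀ j, (Q.coeff j).degree < n j := by
  classical
  choose L hL1 hL2 using exists_lift1 p
  have hL0 : L 0 = 0 := by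
    have := hL2 0
    rwa [degree_zero, degree_eq_bot] at this
  refine ⟨∑ j ∈ P.support, monomial j (L (P.coeff j)), ?_, ?_⟩
  · rw [Polynomial.map_sum]
    conv_rhs => rw [P.as_sum_support]
    refine Finset.sum_congr rfl fun j _ => ?_
    rw [map_monomial, coe_mapRingHom, hL1]
  · intro j
    have hc : (∑ i ∈ P.support, monomial i (L (P.coeff i))).coeff j = L (P.coeff j) := by
      rw [finsetSum_coeff]
      simp only [coeff_monomial]
      rw [Finset.sum_ite_eq' P.support j (fun i => L (P.coeff i))]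
      split_ifs with h
      · rfl
      · rw [notMem_support_iff.1 h, hL0]
    rw [hc, hL2]
    exact mem_degreeLT.1 (hP j)

private theorem map_entry {F : Type*} [Field F] (f : ℤ →+* F) {r m : ℕ} (η : ℤ[X])
    (P : ℤ[X][X]) (c : Shell.Idx r m) :
    f (((taylor η P).coeff (c.1 : ℕ)).coeff (c.2 : ℕ)) =
      Free.Lm r m (η.map f) (P.map (mapRingHom f)) c := by
  rw [Free.Lm_apply]
  have h := map_taylor P η (mapRingHom f)
  rw [coe_mapRingHom] at h
  rw [← h, coeff_map, coe_mapRingHom, coeff_map]

/-- Rank over ZMod p is a lower bound for the rank in characteristic zero. -/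
theorem good_of_zmod {K : Type*} [Field K] [CharZero K] (p : ℕ) [Fact p.Prime] {r m ρ : ℕ}
    {n : ℕ → ℕ} (h : Good (ZMod p) r m n ρ) : Good K r m n ρ := by
  classical
  obtain ⟨ηb, wb, hwb, hlb⟩ := h
  rw [phi_indep_iff] at hlb
  obtain ⟨η0, hη0, -⟩ := exists_lift1 p ηb
  choose w0 hw0 hd0 using fun i => exists_lift2 p n (wb i) (hwb i)
  let fp : ℤ →+* ZMod p := Int.castRingHom (ZMod p)
  let fK : ℤ →+* K := Int.castRingHom K
  let M : Matrix (Shell.Idx r m) (Fin ρ) ℤ :=
    Matrix.of fun c i => ((taylor η0 (w0 i)).coeff (c.1 : ℕ)).coeff (c.2 : ℕ)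
  obtain ⟨φ, hφ⟩ := exists_coord hlb
  have hsurj : Function.Surjective fp := ZMod.ringHom_surjective fp
  choose s hs using hsurj
  let A : Matrix (Fin ρ) (Shell.Idx r m) ℤ := (LinearMap.toMatrix' φ).map s
  have hA : A.map fp = LinearMap.toMatrix' φ := by
    ext i j
    simp only [A, Matrix.map_apply, hs]
  have hMp : ∀ i, (fun c => fp (M c i)) = Free.Lm r m ηb (wb i) := by
    intro i
    funext c
    have h1 := map_entry fp η0 (w0 i) c
    have h2 : η0.map fp = ηb := hη0
    have h3 : (w0 i).map (mapRingHom fp) = wb i := hw0 i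
    rw [h2, h3] at h1
    exact h1
  have hprod : (A * M).map fp = 1 := by
    rw [Matrix.map_mul, hA]
    ext i j
    have h1 : ((LinearMap.toMatrix' φ) * M.map fp) i j
        = (LinearMap.toMatrix' φ).mulVec (fun c => fp (M c j)) i := by
      rw [Matrix.mul_apply, Matrix.mulVec, dotProduct]
      rfl
    rw [h1, hMp, LinearMap.toMatrix'_mulVec, hφ, Matrix.one_apply, Pi.single_apply]
  have hdet : (A * M).det ≠ 0 := by
    intro h0
    have h1 : fp (A * M).det = 1 := by
      rw [RingHom.map_det, RingHom.mapMatrix_apply, hprod, Matrix.det_one]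
    rw [h0, map_zero] at h1
    exact zero_ne_one h1
  have hdetK : ((A * M).map fK).det ≠ 0 := by
    have h1 : fK (A * M).det = ((A * M).map fK).det := by
      rw [RingHom.map_det, RingHom.mapMatrix_apply]
    rw [← h1]
    exact Int.cast_ne_zero.2 hdet
  refine ⟨η0.map fK, fun i => (w0 i).map (mapRingHom fK), ?_, ?_⟩
  · intro i j
    rw [mem_degreeLT, coeff_map, coe_mapRingHom]
    exact lt_of_le_of_lt degree_map_le (hd0 i j)
  · rw [phi_indep_iff]
    apply linearIndependent_of_det _ (Matrix.toLin' (A.map fK))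
    have h1 : (Matrix.of fun i j => (Matrix.toLin' (A.map fK))
        (Free.Lm r m (η0.map fK) ((w0 j).map (mapRingHom fK))) i) = (A * M).map fK := by
      rw [Matrix.map_mul]
      ext i j
      rw [Matrix.of_apply, Matrix.toLin'_apply, Matrix.mul_apply, Matrix.mulVec, dotProduct]
      refine Finset.sum_congr rfl fun c _ => ?_
      rw [← map_entry fK η0 (w0 j) c]
      rfl
    rw [h1]
    exact hdetK
end Pool.Agent.Helper54.FM
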