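import Pool.Agent.Helper54.FM.Dig2
import Pool.Agent.Helper54.FM.Sem
import Pool.Agent.Helper54.FM.Fast2

set_option autoImplicit false

/-! Project FM (helper54), MP_e6aa12_ag: certificates over `ZMod 2` checked by a Horner scheme in
`(ZMod 2)[x, ζ] / (x ^ r, ζ) ^ m`.  The coefficient of `ζ ^ j x ^ i` is the digit number `j D + i`;
after every step all digits are reduced modulo `2` and the monomials of the ideal are deleted by one
logical `and`. -/

open Polynomial

namespace Pool.Agent.Helper54.FM.V2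

open Pool.Agent.Helper41.Fat Pool.Agent.Helper54.FM

/-! ### Functions for the kernel -/

/-- Block `j` (of `D` digits) has ones at its first `r (t - j)` digits. -/
noncomputable def maskM (w D r : ℕ) (t : ℕ) : ℕ :=
  @Nat.rec (fun _ => ℕ) 0 (fun k ih => Nat.add (msk 1 (Nat.pow 2 w) (Nat.mul r (Nat.succ k)))
    (Nat.shiftLeft ih (Nat.mul w D))) t

/-- One step: `P (E + ζ) + a`. -/
noncomputable def hst (M E sh P a : ℕ) : ℕ :=
  Nat.land (Nat.add (Nat.add (Nat.mul P E) (Nat.shiftLeft P sh)) a) M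

/-- The Horner scheme. -/
noncomputable def hor (M E sh : ℕ) (R : List ℕ) : ℕ :=
  @List.rec ℕ (fun _ => ℕ) 0 (fun a _ ih => hst M E sh ih a) R

/-- The same with a continuation. -/
noncomputable def horK (M E sh : ℕ) (R : List ℕ) : (ℕ → Bool) → Bool :=
  @List.rec ℕ (fun _ => (ℕ → Bool) → Bool) (fun κ => κ 0)
    (fun a _ ih κ => ih (fun P => force (hst M E sh P a) κ)) R

/-- Cut `S` into pieces of lengths `ns`, add one monomial. -/
noncomputable def cutS (w : ℕ) (ns : List ℕ) : ℕ → ℕ → ℕ → (List ℕ → Bool) → Bool :=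
  @List.rec ℕ (fun _ => ℕ → ℕ → ℕ → (List ℕ → Bool) → Bool) (fun _ _ _ κ => κ [])
    (fun n _ ih S c j κ => force (Nat.add (Nat.land S (Nat.sub (Nat.pow 2 (Nat.mul w n)) 1))
      (@Bool.rec (fun _ => ℕ) 0 (Nat.pow 2 (Nat.mul w j)) (Nat.beq c 1))) (fun v =>
        force (Nat.shiftRight S (Nat.mul w n)) (fun S' => ih S' (Nat.sub c 1) j
          (fun l => κ (v :: l))))) ns

/-- Repeat a pattern (nothing is proved about it). -/
noncomputable def dbl (w : ℕ) (n : ℕ) : ℕ → ℕ → ℕ :=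
  @Nat.rec (fun _ => ℕ → ℕ → ℕ) (fun _ x => x)
    (fun _ ih t x => force (Nat.add x (Nat.shiftLeft x (Nat.mul w (Nat.pow 2 t))))
      (fun y => ih (Nat.add t 1) y)) n

/-- Spread `2 ^ K` bits to digits in base `2 ^ w` (nothing is proved about it). -/
noncomputable def sprS (w K N : ℕ) : ℕ :=
  @Nat.rec (fun _ => ℕ → ℕ) (fun N => N)
    (fun l ih N => force (Nat.land N (dbl w (Nat.sub K (Nat.add l 1)) (Nat.add l 1)
      (Nat.sub (Nat.pow 2 (Nat.pow 2 l)) 1))) (fun A =>
      force (Nat.add A (Nat.shiftLeft (Nat.sub N A) (Nat.mul (Nat.sub w 1) (Nat.pow 2 l)))) ih)) K N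

/-- The certificate `S` of the monomial `(c, j)`. -/
noncomputable def hchk (w sh L : ℕ) (ns : List ℕ) (M E c j S : ℕ) : Bool :=
  force (Nat.land S (msk 1 (Nat.pow 2 w) L)) (fun S1 =>
    cutS w ns S1 (Nat.add c 1) j (fun R => horK M E sh R (fun P => Nat.beq P 0)))

/-- The certificates of the rows `c, c + 1, …`; `l` is `ns.drop c`. -/
noncomputable def rowsH (w K sh L : ℕ) (ns : List ℕ) (M E : ℕ) (Ds : List ℕ) : ℕ → List ℕ → Bool :=
  @List.rec ℕ (fun _ => ℕ → List ℕ → Bool) (fun _ _ => true)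
    (fun N _ ih c l => and (force (sprS w K N) (hchk w sh L ns M E c (hd l)))
      (ih (Nat.add c 1) (tl l))) Ds

/-- The germ. -/
noncomputable def germ (w r kE E0 : ℕ) : ℕ :=
  Nat.land (sprS w kE E0) (msk 1 (Nat.pow 2 w) r)

/-- A segment of certificates. -/
noncomputable def chkH (w D r m K kE L : ℕ) (ns : List ℕ) (E0 c : ℕ) (l Ds : List ℕ) : Bool :=
  force (germ w r kE E0) (fun E => force (maskM w D r m) (fun M =>
    rowsH w K (Nat.mul w D) L ns M E Ds c l))

/-- All entries are smaller than `D`. -/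
noncomputable def lts (D : ℕ) (l : List ℕ) : Bool :=
  @List.rec ℕ (fun _ => Bool) true (fun a _ ih => and (Nat.ble (Nat.add a 1) D) ih) l

/-- The parameters are correct. -/
noncomputable def parH (w D r m : ℕ) (ns : List ℕ) : Bool :=
  and (Nat.ble (Nat.add r 4) (Nat.pow 2 w))
    (and (Nat.ble (Nat.add (Nat.mul r m) r) D) (and (Nat.ble 1 D) (lts D ns)))

theorem horK_eq (M E sh : ℕ) (R : List ℕ) : ∀ κ : ℕ → Bool, horK M E sh R κ = κ (hor M E sh R) := by
  induction R with
  | nil => intro κ; rfl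
  | cons a R ih =>
    intro κ
    have h1 : horK M E sh (a :: R) κ = horK M E sh R (fun P => force (hst M E sh P a) κ) := rfl
    rw [h1, ih, force_eq]
    rfl

theorem cutS_eq (w : ℕ) (ns : List ℕ) : ∀ (S c j : ℕ) (κ : List ℕ → Bool),
    cutS w ns S c j κ = κ (cut (2 ^ w) ns S c j) := by
  induction ns with
  | nil => intro S c j κ; rfl
  | cons n ns ih =>
    intro S c j κ
    have h1 : cutS w (n :: ns) S c j κ = force (Nat.add (Nat.land S (Nat.sub (Nat.pow 2
      (Nat.mul w n)) 1)) (@Bool.rec (fun _ => ℕ) 0 (Nat.pow 2 (Nat.mul w j)) (Nat.beq c 1)))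
      (fun v => force (Nat.shiftRight S (Nat.mul w n)) (fun S' => cutS w ns S' (Nat.sub c 1) j
          (fun l => κ (v :: l)))) := rfl
    rw [h1, force_eq, force_eq, ih]
    have e1 : Nat.land S (Nat.sub (Nat.pow 2 (Nat.mul w n)) 1) = S % (2 ^ w) ^ n := by
      show S &&& (2 ^ (w * n) - 1) = _
      rw [Nat.and_two_pow_sub_one_eq_mod, pow_mul]
    have e2 : Nat.shiftRight S (Nat.mul w n) = S / (2 ^ w) ^ n := by
      show S >>> (w * n) = _
      rw [Nat.shiftRight_eq_div_pow, pow_mul]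
    have e3 : Nat.pow 2 (Nat.mul w j) = (2 ^ w) ^ j := by
      show 2 ^ (w * j) = _
      rw [pow_mul]
    rw [e1, e2, e3]
    rfl

/-! ### Digits -/

theorem dp_coeff {B : ℕ} (hB : 2 ≤ B) : ∀ k N, (dp B N).coeff k = N / B ^ k % B := by
  intro k
  induction k with
  | zero =>
    intro N
    rw [dp_rec hB, coeff_add, coeff_C_zero, mul_coeff_zero, coeff_X_zero, zero_mul, add_zero,
      pow_zero, Nat.div_one]
  | succ k ih =>
    intro N
    rw [dp_rec hB, coeff_add, coeff_C_succ, coeff_X_mul, zero_add, ih, pow_succ',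
      Nat.div_div_eq_div_mul]

theorem dp_eval_self {B : ℕ} (hB : 2 ≤ B) (T : ℕ[X]) (hT : ∀ i, T.coeff i < B) :
    dp B (T.eval B) = T := by
  ext k
  induction k generalizing T with
  | zero =>
    rw [dp_coeff hB, pow_zero, Nat.div_one, eval_divX, Nat.add_mul_mod_self_left,
      Nat.mod_eq_of_lt (hT 0)]
  | succ k ih =>
    have h1 : T.eval B / B = T.divX.eval B := by
      rw [eval_divX, Nat.add_mul_div_left _ _ (by omega), Nat.div_eq_of_lt (hT 0), zero_add]
    have h2 := ih T.divX (fun i => by rw [coeff_divX]; exact hT (i + 1))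
    rw [coeff_divX] at h2
    rw [dp_coeff hB, pow_succ', ← Nat.div_div_eq_div_mul, h1, ← dp_coeff hB, h2]

theorem dp_land (w N M k : ℕ) (hB : 2 ≤ 2 ^ w) : (dp (2 ^ w) (N &&& M)).coeff k =
    (dp (2 ^ w) N).coeff k &&& (dp (2 ^ w) M).coeff k := by
  rw [dp_coeff hB, dp_coeff hB, dp_coeff hB, ← pow_mul, Nat.and_div_two_pow, Nat.and_mod_two_pow]

theorem dp_msk {B : ℕ} (hB : 2 ≤ B) (L : ℕ) : ∀ k, (dp B (msk 1 B L)).coeff k =
    if k < L then 1 else 0 := by
  induction L with
  | zero => intro k; rw [msk_zero, dp_zero, coeff_zero, if_neg (by omega)]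
  | succ L ih =>
    intro k
    rw [msk_succ hB, dp_rec hB, Nat.add_mul_mod_self_left, Nat.mod_eq_of_lt (by omega),
      Nat.add_mul_div_left _ _ (by omega), Nat.div_eq_of_lt (by omega), zero_add, coeff_add]
    cases k with
    | zero =>
      rw [coeff_C_zero, mul_coeff_zero, coeff_X_zero, zero_mul, add_zero, if_pos (by omega)]
    | succ k =>
      rw [coeff_C_succ, coeff_X_mul, zero_add, ih]
      simp only [Nat.add_lt_add_iff_right]

theorem dp_append {B : ℕ} (hB : 2 ≤ B) (a b D : ℕ) (ha : ∀ i, D ≤ i → (dp B a).coeff i = 0) :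
    dp B (a + B ^ D * b) = dp B a + X ^ D * dp B b := by
  have e : (dp B a + X ^ D * dp B b).eval B = a + B ^ D * b := by
    rw [eval_add, eval_mul, eval_pow, eval_X, dp_eval hB, dp_eval hB]
  rw [← e]
  apply dp_eval_self hB
  intro i
  have hlt : ∀ N i, (dp B N).coeff i < B := fun N i => by
    rw [dp_coeff hB]; exact Nat.mod_lt _ (by omega)
  rw [coeff_add, coeff_X_pow_mul']
  split_ifs with h
  · rw [ha i h, zero_add]; exact hlt _ _
  · rw [add_zero]; exact hlt _ _

theorem dp_maskM {w D r : ℕ} (hB : 2 ≤ 2 ^ w) (hD : 0 < D) (t : ℕ) (ht : r * t ≤ D) :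
    ∀ k, (dp (2 ^ w) (maskM w D r t)).coeff k = if k % D < r * (t - k / D) then 1 else 0 := by
  induction t with
  | zero =>
    intro k
    have h1 : maskM w D r 0 = 0 := rfl
    rw [h1, dp_zero, coeff_zero, Nat.zero_sub, Nat.mul_zero, if_neg (by omega)]
  | succ t ih =>
    intro k
    have h1 : maskM w D r (t + 1) = msk 1 (2 ^ w) (r * (t + 1)) +
        (2 ^ w) ^ D * maskM w D r t := by
      show msk 1 (2 ^ w) (r * (t + 1)) + (maskM w D r t) <<< (w * D) = _
      rw [Nat.shiftLeft_eq, pow_mul, Nat.mul_comm (maskM w D r t)]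
    have h2 : r * t ≤ D := le_trans (Nat.mul_le_mul_left _ (by omega)) ht
    rw [h1, dp_append hB _ _ D (fun i hi => by rw [dp_msk hB, if_neg (by omega)]), coeff_add,
      coeff_X_pow_mul', dp_msk hB]
    rcases Nat.lt_or_ge k D with h | h
    · rw [if_neg (not_le.2 h), add_zero, Nat.mod_eq_of_lt h, Nat.div_eq_of_lt h, Nat.sub_zero]
    · rw [if_neg (by omega), if_pos h, zero_add, ih h2]
      obtain ⟨q, rfl⟩ : ∃ q, k = q + D := ⟨k - D, by omega⟩
      rw [Nat.add_sub_cancel, Nat.add_mod_right, Nat.add_div_right _ hD]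
      have : t + 1 - (q / D).succ = t - q / D := by omega
      rw [this]

theorem eval_one_le' (T : ℕ[X]) (M L : ℕ) (h0 : ∀ i, L ≤ i → T.coeff i = 0)
    (h1 : ∀ i, T.coeff i ≤ M) : T.eval 1 ≤ M * L := by
  have hdeg : T.natDegree < L + 1 := by
    rw [Nat.lt_succ_iff, natDegree_le_iff_coeff_eq_zero]
    intro i hi
    exact h0 i hi.le
  rw [eval_eq_sum_range' hdeg, Finset.sum_range_succ, h0 L le_rfl, zero_mul, add_zero]
  calc ∑ i ∈ Finset.range L, T.coeff i * 1 ^ i
      ≤ ∑ _i ∈ Finset.range L, M := Finset.sum_le_sum (fun i _ => by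
        rw [one_pow, mul_one]; exact h1 i)
    _ = M * L := by rw [Finset.sum_const, Finset.card_range, smul_eq_mul, mul_comm]

/-! ### Flat polynomials -/

theorem coeff_eval_pow {R : Type*} [CommRing R] {D : ℕ} (hD : 0 < D) (Q : R[X][X])
    (hQ : ∀ j i, D ≤ i → (Q.coeff j).coeff i = 0) (k : ℕ) :
    (Q.eval (X ^ D)).coeff k = (Q.coeff (k / D)).coeff (k % D) := by
  have hkd := Nat.div_add_mod k D
  have hmod := Nat.mod_lt k hD
  rw [eval_eq_sum_range, finsetSum_coeff]
  have hterm : ∀ j ∈ Finset.range (Q.natDegree + 1), j ≠ k / D →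
      (Q.coeff j * (X ^ D) ^ j).coeff k = 0 := by
    intro j _ hj
    rw [← pow_mul, coeff_mul_X_pow']
    split_ifs with h
    · apply hQ
      have h1 : j < k / D := by
        rcases Nat.lt_or_gt_of_ne hj with h2 | h2
        · exact h2
        · exfalso
          have h3 : D * (k / D + 1) ≤ D * j := Nat.mul_le_mul_left _ h2
          rw [Nat.mul_add, Nat.mul_one] at h3
          omega
      have h3 : D * (j + 1) ≤ D * (k / D) := Nat.mul_le_mul_left _ h1
      rw [Nat.mul_add, Nat.mul_one] at h3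
      omega
    · rfl
  by_cases hk : k / D ∈ Finset.range (Q.natDegree + 1)
  · rw [Finset.sum_eq_single_of_mem (k / D) hk hterm, ← pow_mul, coeff_mul_X_pow',
      if_pos (by omega)]
    congr 1
    omega
  · rw [Finset.sum_eq_zero (fun j hj => hterm j hj (fun h => hk (h ▸ hj)))]
    rw [Finset.mem_range, not_lt] at hk
    have h0 : Q.coeff (k / D) = 0 := coeff_eq_zero_of_natDegree_lt (by omega)
    rw [h0, coeff_zero]

theorem coeff_mul_zero {R : Type*} [CommRing R] {p q : R[X]} {a b : ℕ}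
    (hp : ∀ i, a ≤ i → p.coeff i = 0) (hq : ∀ i, b ≤ i → q.coeff i = 0) (n : ℕ) (hn : a + b ≤ n) :
    (p * q).coeff n = 0 := by
  rw [coeff_mul]
  apply Finset.sum_eq_zero
  intro x hx
  rw [Finset.HasAntidiagonal.mem_antidiagonal] at hx
  rcases Nat.lt_or_ge x.1 a with h | h
  · rw [hq x.2 (by omega), mul_zero]
  · rw [hp x.1 h, zero_mul]

theorem cond_mul_lin {K : Type*} [Field K] {r m : ℕ} (e : K[X]) {P : K[X][X]}
    (h : P ∈ cond K r m) : P * (X + C e) ∈ cond K r m := by
  intro j hj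
  rw [mul_add, coeff_add, coeff_mul_C]
  apply dvd_add
  · cases j with
    | zero => rw [mul_coeff_zero, coeff_X_zero, mul_zero]; exact dvd_zero _
    | succ j =>
      rw [coeff_mul_X]
      exact dvd_trans (pow_dvd_pow X (Nat.mul_le_mul_left _ (by omega))) (h j (by omega))
  · exact dvd_mul_of_dvd_left (h j hj) _

/-- Truncation. -/
noncomputable def tr {R : Type*} [CommRing R] (k : ℕ) (p : R[X]) : R[X] :=
  ∑ i ∈ Finset.range k, monomial i (p.coeff i)

theorem coeff_tr {R : Type*} [CommRing R] (k : ℕ) (p : R[X]) (i : ℕ) :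
    (tr k p).coeff i = if i < k then p.coeff i else 0 := by
  rw [tr, finsetSum_coeff]
  simp only [coeff_monomial]
  rw [Finset.sum_ite_eq' (Finset.range k) i (fun x => p.coeff x)]
  simp only [Finset.mem_range]

/-- The flat number `P` represents `Q` modulo `2`. -/
structure Inv (r m D w P : ℕ) (Q : (ZMod 2)[X][X]) : Prop where
  supp : ∀ j i, r * (m - j) ≤ i → (Q.coeff j).coeff i = 0
  flat : Q.eval (X ^ D) = fz 2 (2 ^ w) P
  dig : ∀ i, (dp (2 ^ w) P).coeff i ≤ 1

theorem fz_coeff (p B N k : ℕ) : (fz p B N).coeff k = ((dp B N).coeff k : ZMod p) := by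
  rw [fz, coeff_map, eq_natCast]

theorem step {r m D w P E a : ℕ} (hD : r * m + r ≤ D) (hD0 : 0 < D) (hw : r + 4 ≤ 2 ^ w)
    (hE1 : ∀ i, (dp (2 ^ w) E).coeff i ≤ 1) (hEr : ∀ i, r ≤ i → (dp (2 ^ w) E).coeff i = 0)
    (ha1 : ∀ i, (dp (2 ^ w) a).coeff i ≤ 2) (haD : ∀ i, D ≤ i → (dp (2 ^ w) a).coeff i = 0)
    {Q : (ZMod 2)[X][X]} (hQ : Inv r m D w P Q) :
    ∃ Q', Inv r m D w (hst (maskM w D r m) E (w * D) P a) Q' ∧
      Q' - (Q * (X + C (fz 2 (2 ^ w) E)) + C (fz 2 (2 ^ w) a)) ∈ cond (ZMod 2) r m := by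
  have hB : 2 ≤ 2 ^ w := by omega
  set e := fz 2 (2 ^ w) E with he
  set M := maskM w D r m with hM
  set N := P * E + P <<< (w * D) + a with hN
  have hh : hst M E (w * D) P a = N &&& M := rfl
  let T : ℕ[X] := dp (2 ^ w) E * dp (2 ^ w) P + dp (2 ^ w) P * X ^ D + dp (2 ^ w) a
  have hTe : T.eval (2 ^ w) = N := by
    show (dp (2 ^ w) E * dp (2 ^ w) P + dp (2 ^ w) P * X ^ D + dp (2 ^ w) a).eval (2 ^ w) = N
    rw [eval_add, eval_add, eval_mul, eval_mul, eval_pow, eval_X, dp_eval hB, dp_eval hB,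
      dp_eval hB, hN, Nat.shiftLeft_eq, pow_mul, Nat.mul_comm E P]
  have hTc : ∀ i, T.coeff i < 2 ^ w := by
    intro i
    show (dp (2 ^ w) E * dp (2 ^ w) P + dp (2 ^ w) P * X ^ D + dp (2 ^ w) a).coeff i < _
    rw [coeff_add, coeff_add]
    have h1 : (dp (2 ^ w) E * dp (2 ^ w) P).coeff i ≤ r := by
      refine (coeff_mul_le _ _ hQ.dig i).trans ?_
      rw [mul_one]
      have := eval_one_le' (dp (2 ^ w) E) 1 r hEr hE1
      rwa [one_mul] at this
    have h2 : (dp (2 ^ w) P * X ^ D).coeff i ≤ 1 := by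
      rw [coeff_mul_X_pow']
      split_ifs
      · exact hQ.dig _
      · exact Nat.zero_le _
    have h3 := ha1 i
    omega
  have hNT : dp (2 ^ w) N = T := by rw [← hTe]; exact dp_eval_self hB T hTc
  have hNf : fz 2 (2 ^ w) N = fz 2 (2 ^ w) P * (X ^ D + e) + fz 2 (2 ^ w) a := by
    rw [fz, hNT]
    show (dp (2 ^ w) E * dp (2 ^ w) P + dp (2 ^ w) P * X ^ D + dp (2 ^ w) a).map _ = _
    rw [Polynomial.map_add, Polynomial.map_add, Polynomial.map_mul, Polynomial.map_mul,
      Polynomial.map_pow, map_X, he, fz, fz, fz]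
    ring
  set Q1 : (ZMod 2)[X][X] := Q * (X + C e) + C (fz 2 (2 ^ w) a) with hQ1
  have hQ1f : Q1.eval (X ^ D) = fz 2 (2 ^ w) N := by
    rw [hQ1, eval_add, eval_mul, eval_add, eval_X, eval_C, eval_C, hQ.flat, hNf]
  have hQ1D : ∀ j i, D ≤ i → (Q1.coeff j).coeff i = 0 := by
    intro j i hi
    have h0 : Q1.coeff j = (Q * X).coeff j + Q.coeff j * e +
        (C (fz 2 (2 ^ w) a) : (ZMod 2)[X][X]).coeff j := by
      rw [hQ1, mul_add, coeff_add, coeff_add, coeff_mul_C]
    have h1 : ((Q * X).coeff j).coeff i = 0 := by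
      cases j with
      | zero => rw [mul_coeff_zero, coeff_X_zero, mul_zero, coeff_zero]
      | succ j =>
        rw [coeff_mul_X]
        apply hQ.supp
        have : r * (m - j) ≤ r * m := Nat.mul_le_mul_left _ (Nat.sub_le _ _)
        omega
    have h2 : (Q.coeff j * e).coeff i = 0 := by
      apply coeff_mul_zero (a := r * m) (b := r) _ _ i (by omega)
      · intro i' hi'
        apply hQ.supp
        exact le_trans (Nat.mul_le_mul_left _ (Nat.sub_le _ _)) hi'
      · intro i' hi'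
        rw [he, fz_coeff, hEr i' hi', Nat.cast_zero]
    have h3 : ((C (fz 2 (2 ^ w) a) : (ZMod 2)[X][X]).coeff j).coeff i = 0 := by
      rw [coeff_C]
      split_ifs
      · rw [fz_coeff, haD i hi, Nat.cast_zero]
      · rw [coeff_zero]
    rw [h0, coeff_add, coeff_add, h1, h2, h3, add_zero, add_zero]
  let Q' : (ZMod 2)[X][X] := ∑ j ∈ Finset.range m, monomial j (tr (r * (m - j)) (Q1.coeff j))
  have hQ'c : ∀ j i, (Q'.coeff j).coeff i =
      if i < r * (m - j) then (Q1.coeff j).coeff i else 0 := by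
    intro j i
    show ((∑ j ∈ Finset.range m, monomial j (tr (r * (m - j)) (Q1.coeff j))).coeff j).coeff i = _
    rw [finsetSum_coeff]
    simp only [coeff_monomial]
    rw [Finset.sum_ite_eq' (Finset.range m) j (fun x => tr (r * (m - x)) (Q1.coeff x))]
    split_ifs with h1 h2 h2
    · rw [coeff_tr, if_pos h2]
    · rw [coeff_tr, if_neg h2]
    · exfalso
      rw [Finset.mem_range, not_lt] at h1
      rw [Nat.sub_eq_zero_of_le h1, Nat.mul_zero] at h2
      omega
    · rw [coeff_zero]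
  have hrm : r * m ≤ D := by omega
  refine ⟨Q', ⟨?_, ?_, ?_⟩, ?_⟩
  · intro j i hi
    rw [hQ'c, if_neg (not_lt.2 hi)]
  · rw [hh]
    ext k
    rw [coeff_eval_pow hD0 Q' (fun j i hi => by
      rw [hQ'c]
      split_ifs
      · exact hQ1D j i hi
      · rfl), hQ'c, fz_coeff, dp_land _ _ _ _ hB, hM, dp_maskM hB hD0 m hrm]
    have hc : (Q1.eval (X ^ D)).coeff k = (fz 2 (2 ^ w) N).coeff k := by rw [hQ1f]
    rw [coeff_eval_pow hD0 Q1 hQ1D, fz_coeff] at hc
    split_ifs with h
    · rw [hc, Nat.and_one_is_mod, ZMod.natCast_mod]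
    · rw [Nat.and_zero, Nat.cast_zero]
  · intro i
    rw [hh, dp_land _ _ _ _ hB, hM, dp_maskM hB hD0 m hrm]
    refine Nat.and_le_right.trans ?_
    split_ifs <;> omega
  · intro j hj
    rw [coeff_sub, X_pow_dvd_iff]
    intro i hi
    rw [coeff_sub, hQ'c, if_pos hi, sub_self]

/-- The sum that the Horner scheme computes. -/
noncomputable def Hp (w : ℕ) (e : (ZMod 2)[X]) : List ℕ → (ZMod 2)[X][X]
  | [] => 0
  | a :: l => Hp w e l * (X + C e) + C (fz 2 (2 ^ w) a)

theorem hor_sem {r m D w E : ℕ} (hD : r * m + r ≤ D) (hD0 : 0 < D) (hw : r + 4 ≤ 2 ^ w)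
    (hE1 : ∀ i, (dp (2 ^ w) E).coeff i ≤ 1) (hEr : ∀ i, r ≤ i → (dp (2 ^ w) E).coeff i = 0)
    (R : List ℕ) : (∀ c < R.length, (∀ i, (dp (2 ^ w) (ro R c)).coeff i ≤ 2) ∧
      ∀ i, D ≤ i → (dp (2 ^ w) (ro R c)).coeff i = 0) →
    ∃ Q, Inv r m D w (hor (maskM w D r m) E (w * D) R) Q ∧
      Q - Hp w (fz 2 (2 ^ w) E) R ∈ cond (ZMod 2) r m := by
  induction R with
  | nil =>
    intro _
    refine ⟨0, ⟨fun j i _ => by rw [coeff_zero, coeff_zero], ?_, ?_⟩, ?_⟩
    · show (0 : (ZMod 2)[X][X]).eval _ = fz 2 (2 ^ w) 0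
      rw [eval_zero, fz, dp_zero, Polynomial.map_zero]
    · intro i
      show (dp (2 ^ w) 0).coeff i ≤ 1
      rw [dp_zero, coeff_zero]
      exact Nat.zero_le _
    · show (0 : (ZMod 2)[X][X]) - 0 ∈ _
      rw [sub_zero]
      exact Submodule.zero_mem _
  | cons a R ih =>
    intro hR
    obtain ⟨Q, hQ, hQc⟩ := ih (fun c hc => by
      have := hR (c + 1) (by rw [List.length_cons]; omega)
      rwa [ro_cons_succ] at this)
    obtain ⟨h1, h2⟩ := hR 0 (by rw [List.length_cons]; omega)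
    rw [ro_cons_zero] at h1 h2
    obtain ⟨Q', hQ', hc'⟩ := step hD hD0 hw hE1 hEr h1 h2 hQ
    refine ⟨Q', hQ', ?_⟩
    have e : Q' - Hp w (fz 2 (2 ^ w) E) (a :: R) =
        (Q' - (Q * (X + C (fz 2 (2 ^ w) E)) + C (fz 2 (2 ^ w) a))) +
        (Q - Hp w (fz 2 (2 ^ w) E) R) * (X + C (fz 2 (2 ^ w) E)) := by
      show Q' - (Hp w (fz 2 (2 ^ w) E) R * (X + C (fz 2 (2 ^ w) E)) + C (fz 2 (2 ^ w) a)) = _
      ring
    rw [e]
    exact Submodule.add_mem _ hc' (cond_mul_lin _ hQc)

theorem sum_shift (f : ℕ → (ZMod 2)[X]) (n : ℕ) :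
    (∑ i ∈ Finset.range (n + 1), C (f i) * X ^ i : (ZMod 2)[X][X]) =
      (∑ i ∈ Finset.range n, C (f (i + 1)) * X ^ i) * X + C (f 0) := by
  have h : ∀ i, (C (f (i + 1)) * X ^ (i + 1) : (ZMod 2)[X][X]) = C (f (i + 1)) * X ^ i * X :=
    fun i => by rw [pow_succ, mul_assoc]
  rw [Finset.sum_range_succ', Finset.sum_mul, pow_zero, mul_one,
    Finset.sum_congr rfl (fun i _ => h i)]

theorem Hp_eq (w : ℕ) (e : (ZMod 2)[X]) (R : List ℕ) : Hp w e R =
    taylor e (∑ i ∈ Finset.range R.length, C (fz 2 (2 ^ w) (ro R i)) * X ^ i) := by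
  induction R with
  | nil =>
    rw [Hp, List.length_nil, Finset.range_zero, Finset.sum_empty, map_zero]
  | cons a R ih =>
    rw [List.length_cons, sum_shift (fun i => fz 2 (2 ^ w) (ro (a :: R) i))]
    simp only [ro_cons_succ, ro_cons_zero]
    rw [map_add, taylor_mul, taylor_X, taylor_C, ← ih, Hp]

theorem hor_zero {r m D w E : ℕ} (hD : r * m + r ≤ D) (hD0 : 0 < D) (hw : r + 4 ≤ 2 ^ w)
    (hE1 : ∀ i, (dp (2 ^ w) E).coeff i ≤ 1) (hEr : ∀ i, r ≤ i → (dp (2 ^ w) E).coeff i = 0)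
    (R : List ℕ) (hR : ∀ c < R.length, (∀ i, (dp (2 ^ w) (ro R c)).coeff i ≤ 2) ∧
      ∀ i, D ≤ i → (dp (2 ^ w) (ro R c)).coeff i = 0)
    (h0 : hor (maskM w D r m) E (w * D) R = 0) :
    taylor (fz 2 (2 ^ w) E) (∑ i ∈ Finset.range R.length, C (fz 2 (2 ^ w) (ro R i)) * X ^ i) ∈
      cond (ZMod 2) r m := by
  obtain ⟨Q, hQ, hc⟩ := hor_sem hD hD0 hw hE1 hEr R hR
  rw [h0] at hQ
  have hQ0 : Q = 0 := by
    ext j i
    rw [coeff_zero, coeff_zero]
    rcases Nat.lt_or_ge i (r * (m - j)) with h | h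
    · have hi : i < D := by
        have : r * (m - j) ≤ r * m := Nat.mul_le_mul_left _ (Nat.sub_le _ _)
        omega
      have h1 := coeff_eval_pow hD0 Q (fun j i hi => hQ.supp j i (by
        have : r * (m - j) ≤ r * m := Nat.mul_le_mul_left _ (Nat.sub_le _ _)
        omega)) (D * j + i)
      have h2 : (D * j + i) / D = j := by
        rw [Nat.mul_add_div hD0, Nat.div_eq_of_lt hi, add_zero]
      have h3 : (D * j + i) % D = i := by
        rw [Nat.mul_add_mod, Nat.mod_eq_of_lt hi]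
      rw [h2, h3, hQ.flat, fz, dp_zero, Polynomial.map_zero, coeff_zero] at h1
      exact h1.symm
    · exact hQ.supp j i h
  rw [hQ0, zero_sub, Hp_eq] at hc
  have := Submodule.neg_mem _ hc
  rwa [neg_neg] at this

theorem pcs_dig {B M : ℕ} (hB : 2 ≤ B) (ns : List ℕ) : ∀ S, (∀ k, (dp B S).coeff k ≤ M) →
    ∀ i k, (dp B (ro (pcs B ns S) i)).coeff k ≤ M := by
  induction ns with
  | nil =>
    intro S _ i k
    show (dp B (ro [] i)).coeff k ≤ M
    rw [ro_nil, dp_zero, coeff_zero]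
    exact Nat.zero_le _
  | cons n ns ih =>
    intro S hS i k
    cases i with
    | zero =>
      show (dp B (S % B ^ n)).coeff k ≤ M
      rcases Nat.lt_or_ge k n with h | h
      · have h1 := hS k
        rw [dp_split hB n S, coeff_add, coeff_X_pow_mul', if_neg (not_le.2 h), add_zero] at h1
        exact h1
      · rw [dp_coeff_zero hB n _ (Nat.mod_lt _ (by positivity)) k h]
        exact Nat.zero_le _
    | succ i =>
      show (dp B (ro (pcs B ns (S / B ^ n)) i)).coeff k ≤ M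
      apply ih
      intro k
      rw [dp_coeff hB, Nat.div_div_eq_div_mul, ← pow_add, ← dp_coeff hB]
      exact hS _

theorem lts_spec {D : ℕ} (l : List ℕ) (h : lts D l = true) (hD : 0 < D) : ∀ i, ro l i < D := by
  induction l with
  | nil => intro i; rw [ro_nil]; exact hD
  | cons a l ih =>
    have h' : (and (Nat.ble (a + 1) D) (lts D l)) = true := h
    rw [Bool.and_eq_true] at h'
    intro i
    cases i with
    | zero => rw [ro_cons_zero]; exact Nat.le_of_ble_eq_true h'.1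
    | succ i => rw [ro_cons_succ]; exact ih h'.2 i

/-- A checked certificate gives a polynomial. -/
theorem cert_hor {r m D w L E0 kE : ℕ} {ns : List ℕ} (hp : parH w D r m ns = true) {c j S : ℕ}
    (hc : c < ns.length) (hj : j < D)
    (h : hchk w (w * D) L ns (maskM w D r m) (germ w r kE E0) c j S = true) :
    ∃ P : (ZMod 2)[X][X], taylor (fz 2 (2 ^ w) (germ w r kE E0)) P ∈ cond (ZMod 2) r m ∧
      P - C (X ^ j) * X ^ c ∈ rows (ZMod 2) (ro ns) := by
  rw [parH, Bool.and_eq_true, Bool.and_eq_true, Bool.and_eq_true] at hp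
  obtain ⟨p1, p2, p3, p4⟩ := hp
  have hw : r + 4 ≤ 2 ^ w := Nat.le_of_ble_eq_true p1
  have hD : r * m + r ≤ D := Nat.le_of_ble_eq_true p2
  have hD0 : 0 < D := Nat.le_of_ble_eq_true p3
  have hns := lts_spec ns p4 hD0
  have hB : 2 ≤ 2 ^ w := by omega
  set E := germ w r kE E0 with hE
  have hEd : ∀ i, (dp (2 ^ w) E).coeff i = (dp (2 ^ w) (sprS w kE E0)).coeff i &&&
      (if i < r then 1 else 0) := by
    intro i
    rw [hE, germ]
    show (dp (2 ^ w) (sprS w kE E0 &&& msk 1 (2 ^ w) r)).coeff i = _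
    rw [dp_land _ _ _ _ hB, dp_msk hB]
  have hE1 : ∀ i, (dp (2 ^ w) E).coeff i ≤ 1 := by
    intro i
    rw [hEd]
    refine Nat.and_le_right.trans ?_
    split_ifs <;> omega
  have hEr : ∀ i, r ≤ i → (dp (2 ^ w) E).coeff i = 0 := by
    intro i hi
    rw [hEd, if_neg (by omega), Nat.and_zero]
  rw [hchk, force_eq, cutS_eq, horK_eq] at h
  have h0 := Nat.eq_of_beq_eq_true h
  set S1 := Nat.land S (msk 1 (Nat.pow 2 w) L) with hS1
  have hS1d : ∀ k, (dp (2 ^ w) S1).coeff k ≤ 1 := by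
    intro k
    rw [hS1]
    show (dp (2 ^ w) (S &&& msk 1 (2 ^ w) L)).coeff k ≤ 1
    rw [dp_land _ _ _ _ hB, dp_msk hB]
    refine Nat.and_le_right.trans ?_
    split_ifs <;> omega
  set R := cut (2 ^ w) ns S1 (Nat.add c 1) j with hR
  have hRl : R.length = ns.length := cut_length _ _ _ _ _
  let pc := pcs (2 ^ w) ns S1
  let A : ℕ → ℕ[X] := fun i => dp (2 ^ w) (ro pc i) + if i = c then X ^ j else 0
  have hAe : ∀ i, i < ns.length → (A i).eval (2 ^ w) = ro R i := by
    intro i hi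
    rw [hR, ro_cut _ _ _ _ _ _ hi]
    show (dp (2 ^ w) (ro pc i) + if i = c then X ^ j else 0).eval (2 ^ w) = _
    rw [eval_add, dp_eval hB]
    congr 1
    by_cases hic : i = c
    · rw [if_pos hic, if_pos (by rw [hic]), eval_pow, eval_X]
    · rw [if_neg hic, if_neg (fun h => hic (Nat.succ_injective h)), eval_zero]
  have hA2 : ∀ i k, (A i).coeff k ≤ 2 := by
    intro i k
    show (dp (2 ^ w) (ro pc i) + if i = c then X ^ j else 0).coeff k ≤ 2
    rw [coeff_add]
    have h1 := pcs_dig hB ns S1 hS1d i k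
    have h2 : (if i = c then (X ^ j : ℕ[X]) else 0).coeff k ≤ 1 := by
      split_ifs
      · rw [coeff_X_pow]; split_ifs <;> omega
      · rw [coeff_zero]; omega
    exact Nat.add_le_add h1 h2
  have hdA : ∀ i, i < ns.length → dp (2 ^ w) (ro R i) = A i := by
    intro i hi
    rw [← hAe i hi]
    exact dp_eval_self hB _ (fun k => lt_of_le_of_lt (hA2 i k) (by omega))
  have hmain := hor_zero hD hD0 hw hE1 hEr R (by
    intro i hi
    rw [hRl] at hi
    rw [hdA i hi]
    refine ⟨hA2 i, ?_⟩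
    intro k hk
    show (dp (2 ^ w) (ro pc i) + if i = c then X ^ j else 0).coeff k = 0
    rw [coeff_add, dp_coeff_zero hB (ro ns i) (ro pc i) (pcs_lt (by omega) ns S1 i) k
      (le_trans (hns i).le hk), zero_add]
    split_ifs
    · rw [coeff_X_pow, if_neg (by omega)]
    · rw [coeff_zero]) h0
  rw [hRl] at hmain
  refine ⟨_, hmain, ?_⟩
  have e1 : ∑ i ∈ Finset.range ns.length, C (fz 2 (2 ^ w) (ro R i)) * X ^ i - C (X ^ j) * X ^ c =
      ∑ i ∈ Finset.range ns.length,
        (C (fz 2 (2 ^ w) (ro pc i)) * X ^ i : (ZMod 2)[X][X]) := by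
    rw [sub_eq_iff_eq_add]
    have e2 : (C (X ^ j) * X ^ c : (ZMod 2)[X][X]) = ∑ i ∈ Finset.range ns.length,
        C (if i = c then (X ^ j : (ZMod 2)[X]) else 0) * X ^ i := by
      rw [Finset.sum_eq_single c]
      · rw [if_pos rfl]
      · intro i _ hi
        rw [if_neg hi, C_0, zero_mul]
      · intro h2
        exact absurd (Finset.mem_range.2 hc) h2
    rw [e2, ← Finset.sum_add_distrib]
    apply Finset.sum_congr rfl
    intro i hi
    rw [Finset.mem_range] at hi
    rw [← add_mul, ← C_add]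
    congr 2
    rw [fz, hdA i hi]
    show (dp (2 ^ w) (ro pc i) + if i = c then X ^ j else 0).map (Nat.castRingHom (ZMod 2)) = _
    rw [Polynomial.map_add]
    congr 1
    split_ifs
    · rw [Polynomial.map_pow, map_X]
    · rw [Polynomial.map_zero]
  rw [e1]
  apply Submodule.sum_mem
  intro i _
  apply mono_mem_rows
  rw [mem_degreeLT, degree_lt_iff_coeff_zero]
  intro s hs
  rw [fz, coeff_map, dp_coeff_zero hB (ro ns i) (ro pc i) (pcs_lt (by omega) ns S1 i) s hs,
    map_zero]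

theorem rowsH_spec {w K sh L M E : ℕ} {ns : List ℕ} (Ds : List ℕ) : ∀ (c0 : ℕ) (l : List ℕ),
    rowsH w K sh L ns M E Ds c0 l = true → ∀ i < Ds.length,
      ∃ S, hchk w sh L ns M E (c0 + i) (ro l i) S = true := by
  induction Ds with
  | nil => intro c0 l _ i hi; simp at hi
  | cons N Ds ih =>
    intro c0 l h i hi
    have h' : (and (force (sprS w K N) (hchk w sh L ns M E c0 (hd l)))
      (rowsH w K sh L ns M E Ds (c0 + 1) (tl l))) = true := h
    rw [Bool.and_eq_true, force_eq, hd_eq] at h'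
    cases i with
    | zero => exact ⟨_, h'.1⟩
    | succ i =>
      rw [List.length_cons] at hi
      have := ih (c0 + 1) (tl l) h'.2 i (by omega)
      rw [show c0 + 1 + i = c0 + (i + 1) by omega, ro_tl] at this
      exact this

/-- The certificates of a segment. -/
theorem segH_of {w D r m K kE L E0 c0 : ℕ} {ns Ds : List ℕ}
    (h : chkH w D r m K kE L ns E0 c0 (ns.drop c0) Ds = true) :
    ∀ c, c0 ≤ c → c < c0 + Ds.length →
      ∃ S, hchk w (w * D) L ns (maskM w D r m) (germ w r kE E0) c (ro ns c) S = true := by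
  intro c h1 h2
  rw [chkH, force_eq, force_eq] at h
  have := rowsH_spec Ds c0 (ns.drop c0) h (c - c0) (by omega)
  rw [ro_drop, show c0 + (c - c0) = c by omega] at this
  exact this

/-- Surjectivity from one certificate per row. -/
theorem good_of_rowsH {w D r m kE L E0 : ℕ} {ns : List ℕ} (hp : parH w D r m ns = true)
    (hm : m ≤ ns.length)
    (h : ∀ c < ns.length, ∃ S,
      hchk w (w * D) L ns (maskM w D r m) (germ w r kE E0) c (ro ns c) S = true) :
    Good (ZMod 2) r m (ro ns) (r * (m + 1).choose 2) := by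
  have hp' := hp
  rw [parH, Bool.and_eq_true, Bool.and_eq_true, Bool.and_eq_true] at hp'
  have hD0 : 0 < D := Nat.le_of_ble_eq_true hp'.2.2.1
  have hns := lts_spec ns hp'.2.2.2 hD0
  apply good_of_hypx (fz 2 (2 ^ w) (germ w r kE E0)) hm (fun c hc => ro_of_le hc)
  intro c hc
  obtain ⟨S, hS⟩ := h c hc
  exact cert_hor hp hc (hns c) hS

/-! ### The end of the game -/

theorem good_play0 {K : Type*} [Field K] [CharZero K] {r m d ρ : ℕ} (a : ℕ) (path : List ℕ)
    (ha : 1 ≤ a) (h : Good K r m (ro (playv path (strp a (d / a + 1) (d + 1)))) ρ) :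
    Good K r m (fun b => d + 1 - b) ρ := by
  have h2 := good_playv (K := K) path (strp a (d / a + 1) (d + 1)) h
  apply Pool.Agent.Helper7.NM.good_stripF a d (by omega)
  apply Good.mono _ h2
  intro i
  exact ro_strp a (d / a + 1) (d + 1) i

/-- The certified rows are contained in the rows of the path. -/
noncomputable def endS (d a : ℕ) (path ns : List ℕ) : Bool :=
  forceL (strp a (Nat.add (Nat.div d a) 1) (Nat.add d 1)) (fun l0 =>
    playk path l0 (fun l => leL ns l))

/-- The certified rows contain the rows of the path. -/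
noncomputable def endI (r m d a : ℕ) (path ns : List ℕ) : Bool :=
  forceL (strp a (Nat.add (Nat.div d a) 1) (Nat.add d 1)) (fun l0 =>
    playk path l0 (fun l => and (leL l ns) (and
      (Nat.beq (sumL ns) (Nat.mul r (Nat.div (Nat.mul (Nat.add m 1) m) 2)))
      (Nat.ble (Nat.div (Nat.mul (Nat.add d 2) (Nat.add d 1)) 2) (sumL l)))))

theorem good_endS {K : Type*} [Field K] [CharZero K] {r m d a : ℕ} {ns : List ℕ}
    (path : List ℕ) (ha : 1 ≤ a) (hg : Good (ZMod 2) r m (ro ns) (r * (m + 1).choose 2))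
    (h : endS d a path ns = true) : MR K r m d := by
  have : Fact (Nat.Prime 2) := ⟨Nat.prime_two⟩
  rw [endS, forceL_eq, playk_eq] at h
  rw [MR]
  apply Good.le (min_le_right _ _)
  apply good_play0 a path ha
  exact Good.mono (leL_spec _ _ h) (good_of_zmod 2 hg)

theorem good_endI {K : Type*} [Field K] [CharZero K] {r m d a : ℕ} {ns : List ℕ}
    (path : List ℕ) (ha : 1 ≤ a) (hg : Good (ZMod 2) r m (ro ns) (r * (m + 1).choose 2))
    (h : endI r m d a path ns = true) : MR K r m d := by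
  have : Fact (Nat.Prime 2) := ⟨Nat.prime_two⟩
  rw [endI, forceL_eq, playk_eq, Bool.and_eq_true, Bool.and_eq_true] at h
  obtain ⟨h, h1, h2⟩ := h
  rw [MR]
  have h3 := Nat.eq_of_beq_eq_true h1
  have h4 := Nat.le_of_ble_eq_true h2
  have e1 : Nat.mul r (Nat.div (Nat.mul (Nat.add m 1) m) 2) = r * (m + 1).choose 2 := by
    show r * ((m + 1) * m / 2) = _
    rw [Nat.choose_two_right, Nat.add_sub_cancel]
  have e2 : Nat.div (Nat.mul (Nat.add d 2) (Nat.add d 1)) 2 = (d + 2).choose 2 := by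
    rw [Nat.choose_two_right]; rfl
  rw [e1, sumL_eq] at h3
  rw [e2, sumL_eq] at h4
  have hg2 := good_of_zmod (K := K) 2 hg
  rw [← h3] at hg2
  have h5 := Good.shrink (n' := ro (playv path (strp a (d / a + 1) (d + 1)))) ns.length
    (playv path (strp a (d / a + 1) (d + 1))).length
    (fun c hc => ro_of_le hc) (leL_spec _ _ h) hg2
  exact Good.le ((min_le_left _ _).trans h4) (good_play0 a path ha h5)

end Pool.Agent.Helper54.FM.V2
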