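import Pool.Agent.Helper54.FM.Crit

set_option autoImplicit false

/-! Project FM (helper54), MP_e6aa12_ag: large `r`. -/

namespace Pool.Agent.Helper54.FM

open Pool.Agent.Helper41.Fat Pool.Agent.Helper42.Canon

/-- The largest `p` of the parity of `r` with `p ^ 2 ≤ r`. -/
theorem exists_par (r : ℕ) (hr : 1 ≤ r) : ∃ p, p * p ≤ r ∧ r < (p + 2) * (p + 2) ∧
    (r - p * p) % 2 = 0 ∧ Nat.sqrt r ≤ p + 1 := by
  set s := Nat.sqrt r with hs
  have h1 : s * s ≤ r := Nat.sqrt_le r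
  have h2 : r < (s + 1) * (s + 1) := Nat.lt_succ_sqrt r
  have hs1 : 1 ≤ s := Nat.sqrt_pos.2 hr
  have par : ∀ q : ℕ, q * q % 2 = q % 2 := by
    intro q
    rw [Nat.mul_mod]
    rcases Nat.mod_two_eq_zero_or_one q with h | h <;> rw [h]
  rcases Nat.mod_two_eq_zero_or_one (r + s) with h | h
  · refine ⟨s, h1, ?_, ?_, by omega⟩
    · calc r < (s + 1) * (s + 1) := h2
        _ ≤ (s + 2) * (s + 2) := Nat.mul_le_mul (by omega) (by omega)
    · have := par s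
      omega
  · obtain ⟨q, hq⟩ : ∃ q, s = q + 1 := ⟨s - 1, by omega⟩
    refine ⟨q, ?_, ?_, ?_, by omega⟩
    · calc q * q ≤ s * s := Nat.mul_le_mul (by omega) (by omega)
        _ ≤ r := h1
    · calc r < (s + 1) * (s + 1) := h2
        _ = (q + 2) * (q + 2) := by rw [hq]
    · have := par q
      have h3 : q * q ≤ r := le_trans (Nat.mul_le_mul (by omega) (by omega)) h1
      omega

/-- `m ≤ M` and `p ≥ p0` is covered if `M (M + 1) (p + 2) ^ 2 ≤ p ^ 3 (p ^ 3 + 1)` for `p ≥ p0`. -/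
theorem large_r {K : Type*} [Field K] [CharZero K] (M p0 : ℕ) (hp0 : 2 ≤ p0)
    (hM : ∀ p, p0 ≤ p → M * (M + 1) * ((p + 2) * (p + 2)) ≤ p * p * p * (p * p * p + 1))
    {r m d : ℕ} (hr : (p0 + 1) * (p0 + 1) ≤ r) (hm : m ≤ M) : MR K r m d := by
  obtain ⟨p, h1, h2, h3, h4⟩ := exists_par r (by nlinarith)
  have h5 : p0 + 1 ≤ Nat.sqrt r := Nat.le_sqrt.2 hr
  have h6 : p0 ≤ p := by omega
  have h7 := hM p h6
  apply good_cova p
  simp only [cova, Bool.and_eq_true, Bool.or_eq_true]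
  refine ⟨Nat.ble_eq_true_of_le (by omega), Nat.ble_eq_true_of_le h1,
    by rw [h3]; rfl, Or.inr ⟨Nat.ble_eq_true_of_le (by omega), Nat.ble_eq_true_of_le ?_⟩⟩
  calc r * (m * (m + 1)) ≤ ((p + 2) * (p + 2)) * (M * (M + 1)) :=
        Nat.mul_le_mul h2.le (Nat.mul_le_mul hm (by omega))
    _ = M * (M + 1) * ((p + 2) * (p + 2)) := by ring
    _ ≤ _ := h7

/-- The inequality for `M = 42`, `p0 = 8`. -/
theorem ineq42 (p : ℕ) (hp : 8 ≤ p) :
    42 * (42 + 1) * ((p + 2) * (p + 2)) ≤ p * p * p * (p * p * p + 1) := by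
  obtain ⟨q, rfl⟩ : ∃ q, p = q + 8 := ⟨p - 8, by omega⟩
  have e : (q + 8) * (q + 8) * (q + 8) * ((q + 8) * (q + 8) * (q + 8) + 1) =
      42 * (42 + 1) * ((q + 8 + 2) * (q + 8 + 2)) +
      (q^6 + 48*q^5 + 960*q^4 + 10241*q^3 + 59658*q^2 + 160680*q + 82056) := by ring
  rw [e]
  exact Nat.le_add_right _ _

/-- The inequality for `M = 50`, `p0 = 8`. -/
theorem ineq50 (p : ℕ) (hp : 8 ≤ p) :
    50 * (50 + 1) * ((p + 2) * (p + 2)) ≤ p * p * p * (p * p * p + 1) := by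
  obtain ⟨q, rfl⟩ : ∃ q, p = q + 8 := ⟨p - 8, by omega⟩
  have e : (q + 8) * (q + 8) * (q + 8) * ((q + 8) * (q + 8) * (q + 8) + 1) =
      50 * (50 + 1) * ((q + 8 + 2) * (q + 8 + 2)) +
      (q^6 + 48*q^5 + 960*q^4 + 10241*q^3 + 58914*q^2 + 145800*q + 7656) := by ring
  rw [e]
  exact Nat.le_add_right _ _

end Pool.Agent.Helper54.FM
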