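import Pool.Agent.Helper7.FreeChain
set_option autoImplicit false
open Polynomial
namespace Pool.Agent.Helper54.FM
open Pool.Agent.Helper41.Fat

private theorem sum_mono {K : Type*} [Field K] (W : Submodule K K[X][X]) (c : ℕ)
    (h : ∀ j, (C (X ^ j) : K[X][X]) * X ^ c ∈ W) (a : K[X]) : C a * X ^ c ∈ W := by
  induction a using Polynomial.induction_on' with
  | add p q hp hq =>
    rw [C_add, add_mul]
    exact W.add_mem hp hq
  | monomial n b =>
    have h1 : (C (monomial n b) : K[X][X]) * X ^ c = b • ((C (X ^ n) : K[X][X]) * X ^ c) := by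
      rw [smul_eq_CC, ← C_mul_X_pow_eq_monomial, C_mul, C_pow]
      ring
    rw [h1]
    exact W.smul_mem b (h n)

private theorem low_mem {K : Type*} [Field K] (W : Submodule K K[X][X]) (c : ℕ)
    (h : ∀ i < c, ∀ a : K[X], C a * X ^ i ∈ W) (P : K[X][X]) (hP : P.degree < c) : P ∈ W := by
  by_cases h0 : P = 0
  · rw [h0]; exact W.zero_mem
  · have h1 : P.natDegree < c := by
      rw [degree_eq_natDegree h0] at hP
      exact_mod_cast hP
    rw [P.as_sum_range' c h1]
    apply W.sum_mem
    intro i hi
    rw [← C_mul_X_pow_eq_monomial]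
    exact h i (Finset.mem_range.1 hi) _

private theorem taylor_lin {K : Type*} [Field K] (η : K[X]) (j c : ℕ) :
    taylor η ((C (X ^ j) : K[X][X]) * (X - C η) ^ c) = C (X ^ j) * X ^ c := by
  rw [taylor_mul, taylor_C, taylor_pow, map_sub, taylor_X, taylor_C, add_sub_cancel_right]

private theorem deg_lt {K : Type*} [Field K] (η : K[X]) (j c : ℕ) :
    ((C (X ^ j) : K[X][X]) * X ^ c - C (X ^ j) * (X - C η) ^ c).degree < (c : WithBot ℕ) := by
  have hm1 : ((X : K[X][X]) ^ c).Monic := monic_X_pow c
  have hm2 : ((X - C η : K[X][X]) ^ c).Monic := (monic_X_sub_C η).pow c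
  have hd1 : ((X : K[X][X]) ^ c).degree = c := degree_X_pow c
  have hd2 : ((X - C η : K[X][X]) ^ c).degree = c := by
    rw [degree_pow, degree_X_sub_C]; simp
  rw [← mul_sub, degree_C_mul (pow_ne_zero j X_ne_zero)]
  have := degree_sub_lt_left (p := (X : K[X][X]) ^ c) (q := (X - C η : K[X][X]) ^ c)
    (by rw [hd1, hd2]) hm1.ne_zero (by rw [hm1.leadingCoeff, hm2.leadingCoeff])
  rwa [hd1] at this

private theorem all_mem {K : Type*} [Field K] {r m : ℕ} {n : ℕ → ℕ} (η : K[X])
    (H : ∀ c < m, ∀ j, n c ≤ j → j < r * (m - c) → ∃ P : K[X][X], taylor η P ∈ cond K r m ∧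
      P - C (X ^ j) * X ^ c ∈ rows K n) (P : K[X][X]) :
    P ∈ rows K n ⊔ Submodule.comap ((taylor η).restrictScalars K) (cond K r m) := by
  set W := rows K n ⊔ Submodule.comap ((taylor η).restrictScalars K) (cond K r m) with hW
  have key : ∀ c : ℕ, ∀ a : K[X], C a * X ^ c ∈ W := by
    intro c
    induction c using Nat.strong_induction_on with
    | _ c ih =>
      apply sum_mono
      intro j
      by_cases h1 : j < n c
      · apply Submodule.mem_sup_left
        apply mono_mem_rows
        rw [mem_degreeLT, degree_X_pow]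
        exact_mod_cast h1
      · by_cases h2 : c < m ∧ j < r * (m - c)
        · obtain ⟨Q, hQ1, hQ2⟩ := H c h2.1 j (not_lt.1 h1) h2.2
          have e : (C (X ^ j) : K[X][X]) * X ^ c = Q - (Q - C (X ^ j) * X ^ c) := by ring
          rw [e]
          exact W.sub_mem (Submodule.mem_sup_right hQ1) (Submodule.mem_sup_left hQ2)
        · have e : (C (X ^ j) : K[X][X]) * X ^ c =
              (C (X ^ j) * X ^ c - C (X ^ j) * (X - C η) ^ c) + C (X ^ j) * (X - C η) ^ c := by
            ring
          rw [e]
          apply W.add_mem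
          · exact low_mem W c ih _ (deg_lt η j c)
          · apply Submodule.mem_sup_right
            rw [Submodule.mem_comap]
            change taylor η _ ∈ _
            rw [taylor_lin]
            intro i hi
            rw [coeff_C_mul_X_pow]
            by_cases hic : i = c
            · rw [if_pos hic]
              subst hic
              apply pow_dvd_pow
              by_contra hcon
              exact h2 ⟨hi, not_le.1 hcon⟩
            · rw [if_neg hic]
              exact dvd_zero _
  exact low_mem W (P.natDegree + 1) (fun i _ a => key i a) P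
    (lt_of_le_of_lt degree_le_natDegree (by exact_mod_cast Nat.lt_succ_self _))

/-- If every missing monomial is congruent to an element of the row space, all conditions are
independent on the row space. -/
theorem good_of_hyp {K : Type*} [Field K] {r m : ℕ} {n : ℕ → ℕ} (η : K[X])
    (H : ∀ c < m, ∀ j, n c ≤ j → j < r * (m - c) → ∃ P : K[X][X], taylor η P ∈ cond K r m ∧
      P - C (X ^ j) * X ^ c ∈ rows K n) :
    Good K r m n (r * (m + 1).choose 2) := by
  classical
  let e : Fin (r * (m + 1).choose 2) ≃ Pool.Agent.Helper7.Shell.Idx r m :=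
    (Fintype.equivFinOfCardEq (Pool.Agent.Helper7.Shell.card_Idx r m)).symm
  have hex : ∀ s : Fin (r * (m + 1).choose 2), ∃ w ∈ rows K n,
      Pool.Agent.Helper7.Free.Lm r m η w = Pi.single (e s) 1 := by
    intro s
    obtain ⟨w, hw, k, hk, hwk⟩ := Submodule.mem_sup.1
      (all_mem η H (taylor (-η) ((C (X ^ ((e s).2 : ℕ)) : K[X][X]) * X ^ ((e s).1 : ℕ))))
    refine ⟨w, hw, ?_⟩
    have hk0 : Pool.Agent.Helper7.Free.Lm r m η k = 0 := by
      rw [Pool.Agent.Helper7.Free.Lm_eq_zero_iff]
      exact hk
    have h1 : Pool.Agent.Helper7.Free.Lm r m η w =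
        Pool.Agent.Helper7.Free.Lm r m η
          (taylor (-η) ((C (X ^ ((e s).2 : ℕ)) : K[X][X]) * X ^ ((e s).1 : ℕ))) := by
      rw [← hwk, map_add, hk0, add_zero]
    rw [h1]
    funext c
    rw [Pool.Agent.Helper7.Free.Lm_apply, taylor_taylor, add_neg_cancel, taylor_zero,
      coeff_C_mul_X_pow, Pi.single_apply]
    by_cases hc : c = e s
    · subst hc
      simp
    · rw [if_neg hc]
      by_cases hc1 : (c.1 : ℕ) = (e s).1
      · rw [if_pos hc1, coeff_X_pow, if_neg]
        intro hc2
        apply hc
        obtain ⟨c1, c2⟩ := c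
        generalize e s = q at *
        obtain ⟨q1, q2⟩ := q
        have : c1 = q1 := Fin.ext hc1
        subst this
        congr 1
        exact Fin.ext hc2
      · rw [if_neg hc1, coeff_zero]
  choose w hw hL using hex
  refine ⟨η, w, hw, ?_⟩
  rw [Fintype.linearIndependent_iff]
  intro g hg i
  have h1 : ∑ s, g s • Phi K r m η (w s) = Phi K r m η (∑ s, g s • w s) := by
    simp only [map_sum, map_smul]
  rw [h1, Phi_eq_zero_iff, ← Pool.Agent.Helper7.Free.Lm_eq_zero_iff, map_sum] at hg
  have h2 := congrFun hg (e i)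
  simp only [map_smul, hL, Finset.sum_apply, Pi.smul_apply, Pi.single_apply, Pi.zero_apply,
    smul_eq_mul, mul_ite, mul_one, mul_zero, EmbeddingLike.apply_eq_iff_eq] at h2
  simpa using h2
end Pool.Agent.Helper54.FM
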