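import Pool.Agent.Helper54.FM.Cert2
import Pool.Agent.Helper54.FM.Sem

set_option autoImplicit false

/-! Project FM (helper54), MP_e6aa12_ag: correctness of the certificates, version 2. -/

open Polynomial

namespace Pool.Agent.Helper54.FM.V2

open Pool.Agent.Helper41.Fat Pool.Agent.Helper54.FM

/-- The fixed data are correct. -/
structure FOK (p w s r m L : ℕ) (ns E : List ℕ) (cols : List (List ℕ)) : Prop where
  hw : 3 ≤ w
  hs : s ≤ w
  hp : p < 8
  hlen : ns.length ≤ E.length
  hE0 : ro E 0 = 1
  hE : ∀ k < E.length, okq s (2 ^ w) (r * m) (ro E k) = true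
  hE1 : ∀ k < E.length - 1, zt p w (r * m) (ro E k * ro E 1 + (p - 1) * ro E (k + 1)) = true
  hcol : ∀ c < m, ∀ i < ns.length - c, ro (cols.getD c []) i = (c + i).choose c % p
  hb1 : (2 ^ s - 1) * (r * m) * (2 ^ s - 1) + (p - 1) * (2 ^ s - 1) < 2 ^ w
  hb2 : (p - 1) * (2 ^ s - 1) * (7 * L + 1) < 2 ^ w

variable {p w s r m L : ℕ} {ns E : List ℕ} {cols : List (List ℕ)}

theorem E_pow [hpr : Fact p.Prime] (hF : FOK p w s r m L ns E cols) : ∀ k < E.length,
    (X : (ZMod p)[X]) ^ (r * m) ∣ fz p (2 ^ w) (ro E k) - (fz p (2 ^ w) (ro E 1)) ^ k := by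
  have hB := two_le_pow hF.hw
  intro k
  induction k with
  | zero =>
    intro _
    rw [hF.hE0, fz, dp_one hB, Polynomial.map_one, pow_zero, sub_self]
    exact dvd_zero _
  | succ k ih =>
    intro hk
    have h1 := ih (by omega)
    have hw1 : 1 ≤ w := by have := hF.hw; omega
    obtain ⟨hk0, hk0'⟩ := okq_spec hF.hs hw1 (hF.hE k (by omega))
    obtain ⟨hk1, hk1'⟩ := okq_spec hF.hs hw1 (hF.hE 1 (by omega))
    obtain ⟨hk2, hk2'⟩ := okq_spec hF.hs hw1 (hF.hE (k + 1) hk)
    have hz := hF.hE1 k (by omega)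
    set T : ℕ[X] := dp (2 ^ w) (ro E k) * dp (2 ^ w) (ro E 1) + C (p - 1) * dp (2 ^ w) (ro E (k + 1))
      with hT
    have e1 : T.eval (2 ^ w) = ro E k * ro E 1 + (p - 1) * ro E (k + 1) := by
      rw [hT, eval_add, eval_mul, eval_mul, eval_C, dp_eval hB, dp_eval hB, dp_eval hB]
    have e2 : ∀ i, T.coeff i < 2 ^ w := by
      intro i
      refine lt_of_le_of_lt ?_ hF.hb1
      rw [hT, coeff_add, coeff_C_mul]
      refine add_le_add ?_ (Nat.mul_le_mul_left _ (Nat.le_sub_one_of_lt (hk2' i)))
      refine (coeff_mul_le _ _ (fun i => Nat.le_sub_one_of_lt (hk1' i)) i).trans ?_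
      exact Nat.mul_le_mul_right _ (eval_one_le hw1 hk0 (fun i => Nat.le_sub_one_of_lt (hk0' i)))
    rw [← e1] at hz
    have h2 := dvd_map_of_coeff (zt_spec' hF.hw hF.hp e2 hz)
    have e3 : T.map (Nat.castRingHom (ZMod p)) =
        fz p (2 ^ w) (ro E k) * fz p (2 ^ w) (ro E 1) - fz p (2 ^ w) (ro E (k + 1)) := by
      rw [hT, Polynomial.map_add, Polynomial.map_mul, Polynomial.map_mul, map_C, eq_natCast,
        Nat.cast_sub hpr.out.one_le, Nat.cast_one, ZMod.natCast_self, zero_sub, C_neg, C_1]
      rw [fz, fz, fz]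
      ring
    rw [e3] at h2
    have h3 := dvd_sub (dvd_mul_of_dvd_left h1 (fz p (2 ^ w) (ro E 1))) h2
    have e4 : (fz p (2 ^ w) (ro E k) - (fz p (2 ^ w) (ro E 1)) ^ k) * fz p (2 ^ w) (ro E 1) -
        (fz p (2 ^ w) (ro E k) * fz p (2 ^ w) (ro E 1) - fz p (2 ^ w) (ro E (k + 1))) =
        fz p (2 ^ w) (ro E (k + 1)) - (fz p (2 ^ w) (ro E 1)) ^ (k + 1) := by
      ring
    rwa [e4] at h3

theorem cert_mono [hpr : Fact p.Prime] (hF : FOK p w s r m L ns E cols) {c j S : ℕ}
    (hc : c < ns.length) (h : chkS p w r m L ns E cols c j S = true) :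
    ∃ P : (ZMod p)[X][X], taylor (fz p (2 ^ w) (ro E 1)) P ∈ cond (ZMod p) r m ∧
      P - C (X ^ j) * X ^ c ∈ rows (ZMod p) (ro ns) := by
  have hB := two_le_pow hF.hw
  have h' : (and (ok7 (2 ^ w) L S)
    (cutK (2 ^ w) ns S (c + 1) j (fun R => tests p w r E R cols (r * m)))) = true := h
  rw [Bool.and_eq_true, cutK_eq] at h'
  obtain ⟨h7, ht⟩ := h'
  have hs1 := (ok7_spec hF.hw h7).2
  have htests := tests_spec p w r E _ cols m ht
  rw [cut_length] at htests
  set R := cut (2 ^ w) ns S (c + 1) j with hR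
  let pc := pcs (2 ^ w) ns S
  let A : ℕ → ℕ[X] := fun i => dp (2 ^ w) (ro pc i) + if i = c then X ^ j else 0
  have hAe : ∀ i, i < ns.length → (A i).eval (2 ^ w) = ro R i := by
    intro i hi
    rw [hR, ro_cut _ _ _ _ _ _ hi]
    show (dp (2 ^ w) (ro pc i) + if i = c then X ^ j else 0).eval (2 ^ w) = _
    rw [eval_add, dp_eval hB]
    congr 1
    by_cases hic : i = c
    · rw [if_pos hic, if_pos (by omega), eval_pow, eval_X]
    · rw [if_neg hic, if_neg (by omega), eval_zero]
  have hA1 : ∑ i ∈ Finset.range ns.length, (A i).eval 1 ≤ 7 * L + 1 := by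
    have e1 : ∑ i ∈ Finset.range ns.length, (A i).eval 1 =
        ∑ i ∈ Finset.range ns.length, (dp (2 ^ w) (ro pc i)).eval 1 +
        ∑ i ∈ Finset.range ns.length, (if i = c then 1 else 0) := by
      rw [← Finset.sum_add_distrib]
      apply Finset.sum_congr rfl
      intro i _
      show (dp (2 ^ w) (ro pc i) + if i = c then X ^ j else 0).eval 1 = _
      rw [eval_add]
      congr 1
      split_ifs
      · rw [eval_pow, eval_X, one_pow]
      · rw [eval_zero]
    rw [e1, Finset.sum_ite_eq', if_pos (Finset.mem_range.2 hc)]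
    exact Nat.add_le_add_right ((sum_pcs hB ns S).trans hs1) 1
  let η := fz p (2 ^ w) (ro E 1)
  let a : ℕ → (ZMod p)[X] := fun i => (A i).map (Nat.castRingHom (ZMod p))
  refine ⟨∑ i ∈ Finset.range ns.length, C (a i) * X ^ i, ?_, ?_⟩
  · intro c' hc'
    show X ^ (r * (m - c')) ∣ (taylor η (∑ i ∈ Finset.range ns.length, C (a i) * X ^ i)).coeff c'
    rw [coeff_taylor_sum]
    rcases Nat.lt_or_ge c' ns.length with hcl | hcl
    · -- the relevant case
      rcases Nat.eq_zero_or_pos (r * (m - c')) with h00 | h00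
      · rw [h00, pow_zero]
        exact one_dvd _
      have hzt := htests c' hcl h00.ne'
      set b := cols.getD c' [] with hb
      let T : ℕ[X] := ∑ i ∈ Finset.range (ns.length - c'),
        C (ro b i) * (A (c' + i) * dp (2 ^ w) (ro E i))
      have hTe : T.eval (2 ^ w) = dot (R.drop c') E b := by
        rw [dot_eq, List.length_drop, cut_length]
        show (∑ i ∈ Finset.range (ns.length - c'),
          C (ro b i) * (A (c' + i) * dp (2 ^ w) (ro E i))).eval (2 ^ w) = _
        rw [eval_finsetSum]
        apply Finset.sum_congr rfl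
        intro i hi
        rw [Finset.mem_range] at hi
        rw [eval_mul, eval_mul, eval_C, dp_eval hB, hAe _ (by omega), ro_drop]
      have hT1 : ∀ n, T.coeff n < 2 ^ w := by
        intro n
        refine lt_of_le_of_lt ?_ hF.hb2
        show (∑ i ∈ Finset.range (ns.length - c'),
          C (ro b i) * (A (c' + i) * dp (2 ^ w) (ro E i))).coeff n ≤ _
        rw [finsetSum_coeff]
        have hle : ∀ i ∈ Finset.range (ns.length - c'),
            (C (ro b i) * (A (c' + i) * dp (2 ^ w) (ro E i))).coeff n ≤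
              (p - 1) * (2 ^ s - 1) * (A (c' + i)).eval 1 := by
          intro i hi
          rw [Finset.mem_range] at hi
          rw [coeff_C_mul]
          have h1 : ro b i ≤ p - 1 := by
            rw [hb, hF.hcol c' hc' i (by omega)]
            exact Nat.le_sub_one_of_lt (Nat.mod_lt ((c' + i).choose c') hpr.out.pos)
          have h2 := (okq_spec hF.hs (by have := hF.hw; omega)
            (hF.hE i (by have := hF.hlen; omega))).2
          calc ro b i * (A (c' + i) * dp (2 ^ w) (ro E i)).coeff n
              ≤ (p - 1) * ((A (c' + i)).eval 1 * (2 ^ s - 1)) :=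
                Nat.mul_le_mul h1 (coeff_mul_le _ _ (fun i => Nat.le_sub_one_of_lt (h2 i)) n)
            _ = (p - 1) * (2 ^ s - 1) * (A (c' + i)).eval 1 := by ring
        refine (Finset.sum_le_sum hle).trans ?_
        rw [← Finset.mul_sum]
        apply Nat.mul_le_mul_left
        refine le_trans ?_ hA1
        have e := Finset.sum_range_add_sum_Ico (fun i => (A i).eval 1) hcl.le
        rw [Finset.sum_Ico_eq_sum_range] at e
        omega
      rw [← hTe] at hzt
      have h2 := dvd_map_of_coeff (zt_spec' hF.hw hF.hp hT1 hzt)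
      have e3 : T.map (Nat.castRingHom (ZMod p)) = ∑ i ∈ Finset.range (ns.length - c'),
          a (c' + i) * (fz p (2 ^ w) (ro E i) * ((c' + i).choose c' : (ZMod p)[X])) := by
        show (∑ i ∈ Finset.range (ns.length - c'),
          C (ro b i) * (A (c' + i) * dp (2 ^ w) (ro E i))).map (Nat.castRingHom (ZMod p)) = _
        rw [Polynomial.map_sum]
        apply Finset.sum_congr rfl
        intro i hi
        rw [Finset.mem_range] at hi
        rw [Polynomial.map_mul, Polynomial.map_mul, map_C, eq_natCast, hb,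
          hF.hcol c' hc' i (by omega), ZMod.natCast_mod]
        have e5 : (C (((c' + i).choose c' : ℕ) : ZMod p) : (ZMod p)[X]) =
            ((c' + i).choose c' : (ZMod p)[X]) := by
          rw [map_natCast]
        rw [e5]
        show _ * (a (c' + i) * fz p (2 ^ w) (ro E i)) = _
        ring
      rw [e3] at h2
      have e6 : ∑ i ∈ Finset.range ns.length, a i * (η ^ (i - c') * (i.choose c' : (ZMod p)[X])) =
          ∑ i ∈ Finset.range (ns.length - c'),
            a (c' + i) * (η ^ i * ((c' + i).choose c' : (ZMod p)[X])) := by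
        have e := Finset.sum_range_add_sum_Ico
          (fun i => a i * (η ^ (i - c') * (i.choose c' : (ZMod p)[X]))) hcl.le
        rw [← e, Finset.sum_Ico_eq_sum_range]
        have e0 : ∑ i ∈ Finset.range c', a i * (η ^ (i - c') * (i.choose c' : (ZMod p)[X])) = 0 := by
          apply Finset.sum_eq_zero
          intro i hi
          rw [Finset.mem_range] at hi
          rw [Nat.choose_eq_zero_of_lt hi, Nat.cast_zero, mul_zero, mul_zero]
        rw [e0, zero_add]
        apply Finset.sum_congr rfl
        intro i _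
        rw [Nat.add_sub_cancel_left]
      rw [e6]
      have e7 : ∑ i ∈ Finset.range (ns.length - c'),
            a (c' + i) * (η ^ i * ((c' + i).choose c' : (ZMod p)[X])) =
          ∑ i ∈ Finset.range (ns.length - c'),
            a (c' + i) * (fz p (2 ^ w) (ro E i) * ((c' + i).choose c' : (ZMod p)[X])) -
          ∑ i ∈ Finset.range (ns.length - c'),
            (a (c' + i) * ((c' + i).choose c' : (ZMod p)[X])) *
              (fz p (2 ^ w) (ro E i) - η ^ i) := by
        rw [← Finset.sum_sub_distrib]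
        apply Finset.sum_congr rfl
        intro i _
        ring
      rw [e7]
      apply dvd_sub h2
      apply Finset.dvd_sum
      intro i hi
      rw [Finset.mem_range] at hi
      apply dvd_mul_of_dvd_right
      refine dvd_trans (pow_dvd_pow X ?_) (E_pow hF i (by have := hF.hlen; omega))
      exact Nat.mul_le_mul_left _ (Nat.sub_le _ _)
    · rw [Finset.sum_eq_zero]
      · exact dvd_zero _
      · intro i hi
        rw [Finset.mem_range] at hi
        rw [Nat.choose_eq_zero_of_lt (by omega), Nat.cast_zero, mul_zero, mul_zero]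
  · have e1 : ∑ i ∈ Finset.range ns.length, C (a i) * X ^ i - C (X ^ j) * X ^ c =
        ∑ i ∈ Finset.range ns.length,
          (C (fz p (2 ^ w) (ro pc i)) * X ^ i : (ZMod p)[X][X]) := by
      rw [sub_eq_iff_eq_add]
      have e2 : (C (X ^ j) * X ^ c : (ZMod p)[X][X]) = ∑ i ∈ Finset.range ns.length,
          C (if i = c then (X ^ j : (ZMod p)[X]) else 0) * X ^ i := by
        rw [Finset.sum_eq_single c]
        · rw [if_pos rfl]
        · intro i _ hi
          rw [if_neg hi, C_0, zero_mul]
        · intro h2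
          exact absurd (Finset.mem_range.2 hc) h2
      rw [e2, ← Finset.sum_add_distrib]
      apply Finset.sum_congr rfl
      intro i _
      rw [← add_mul, ← C_add]
      congr 2
      show (dp (2 ^ w) (ro pc i) + if i = c then X ^ j else 0).map (Nat.castRingHom (ZMod p)) = _
      rw [Polynomial.map_add]
      congr 1
      split_ifs
      · rw [Polynomial.map_pow, map_X]
      · rw [Polynomial.map_zero]
    rw [e1]
    apply Submodule.sum_mem
    intro i _
    apply mono_mem_rows
    rw [mem_degreeLT, degree_lt_iff_coeff_zero]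
    intro s hs
    rw [fz, coeff_map, dp_coeff_zero hB (ro ns i) (ro pc i) (pcs_lt (by omega) ns S i) s hs,
      map_zero]

theorem rowsX_spec {b k Z : ℕ} (D : List ℕ) : ∀ (c0 : ℕ) (l : List ℕ),
    rowsX p b w r m k L ns E cols Z D c0 l = true → ∀ i < D.length,
      ∃ S, chkS p w r m L ns E cols (c0 + i) (ro l i) S = true := by
  induction D with
  | nil => intro c0 l _ i hi; simp at hi
  | cons N D ih =>
    intro c0 l h i hi
    have h' : (and (force (Nat.add (sprf b w k N)
      (Nat.mul Z (salt p w c0 (Nat.add (Nat.div (Nat.sub 8 p) p) 1))))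
        (chkS p w r m L ns E cols c0 (hd l)))
      (rowsX p b w r m k L ns E cols Z D (c0 + 1) (tl l))) = true := h
    rw [Bool.and_eq_true, force_eq, hd_eq] at h'
    cases i with
    | zero => exact ⟨_, h'.1⟩
    | succ i =>
      rw [List.length_cons] at hi
      have := ih (c0 + 1) (tl l) h'.2 i (by omega)
      rw [show c0 + 1 + i = c0 + (i + 1) by omega, ro_tl] at this
      exact this

theorem oks_spec {B t : ℕ} (E : List ℕ) (h : oks s B t E = true) : ∀ k < E.length,
    okq s B t (ro E k) = true := by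
  induction E with
  | nil => intro k hk; simp at hk
  | cons a E ih =>
    have h' : (and (okq s B t a) (oks s B t E)) = true := h
    rw [Bool.and_eq_true] at h'
    intro k hk
    cases k with
    | zero => exact h'.1
    | succ k =>
      rw [List.length_cons] at hk
      exact ih h'.2 k (by omega)

/-- The data are correct. -/
theorem fok_of {b kE : ℕ} {Ec : List ℕ} (hw : 3 ≤ w) (hs : s ≤ w) (hp : p < 8) (hp2 : 2 ≤ p)
    (hlen : ns.length ≤ Ec.length) (hE : echkK p b w s (r * m) kE Ec = true)
    (hc : (and (ones ns.length (hdL cols)) (pascs p (m - 1) ns.length (hdL cols) (tlL cols))) = true)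
    (hb1 : (2 ^ s - 1) * (r * m) * (2 ^ s - 1) + (p - 1) * (2 ^ s - 1) < 2 ^ w)
    (hb2 : (p - 1) * (2 ^ s - 1) * (7 * L + 1) < 2 ^ w) : FOK p w s r m L ns (elist b w kE Ec) cols := by
  have hel : ∀ l : List ℕ, (elist b w kE l).length = l.length := by
    intro l
    induction l with
    | nil => rfl
    | cons e l ih => show (elist b w kE l).length + 1 = _; rw [ih]; rfl
  rw [echkK, elistK_eq, Bool.and_eq_true, Bool.and_eq_true] at hE
  obtain ⟨e0, e1, e2⟩ := hE
  rw [Bool.and_eq_true, hdL_eq] at hc
  have h0 := ones_spec _ _ hc.1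
  have h12 := pascs_spec _ _ _ _ _ hc.2
  have h1 : ∀ c < m - 1, ro (cols.getD (c + 1) []) 0 = 1 := by
    intro c hc'
    have := (h12 c hc').1
    rwa [getD_tlL] at this
  have h2 : ∀ c < m - 1, ∀ i < ns.length - (c + 1) - 1, ro (cols.getD (c + 1) []) (i + 1) =
      (ro (cols.getD (c + 1) []) i + ro (cols.getD c []) (i + 1)) % p := by
    intro c hc' i hi
    have := (h12 c hc').2 i hi
    rw [getD_tlL] at this
    rw [this]
    congr 2
    by_cases hc0 : c = 0
    · rw [if_pos hc0, hc0]
    · rw [if_neg hc0, getD_tlL]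
      congr 2
      omega
  refine ⟨hw, hs, hp, by rw [hel]; exact hlen, ?_, oks_spec _ e1, ?_, hcol_of hp2 h0 h1 h2, hb1, hb2⟩
  · rw [← hd_eq]
    exact Nat.eq_of_beq_eq_true e0
  · have := echk_spec (p := p) (w := w) _ e2
    rw [hd_eq, ro_tl] at this
    exact this

/-- Surjectivity from one certificate per row. -/
theorem good_of_rows [hpr : Fact p.Prime] (hF : FOK p w s r m L ns E cols) (hm : m ≤ ns.length)
    (h : ∀ c < ns.length, ∃ S, chkS p w r m L ns E cols c (ro ns c) S = true) :
    Good (ZMod p) r m (ro ns) (r * (m + 1).choose 2) := by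
  apply good_of_hypx (fz p (2 ^ w) (ro E 1)) hm (fun c hc => ro_of_le hc)
  intro c hc
  obtain ⟨S, hS⟩ := h c hc
  exact cert_mono hF hc hS

/-- The certificates of a segment. -/
theorem seg_of {b k kE c0 : ℕ} {Ec D : List ℕ}
    (h : chkX p b w r m k kE L ns Ec cols c0 (ns.drop c0) D = true) :
    ∀ c, c0 ≤ c → c < c0 + D.length →
      ∃ S, chkS p w r m L ns (elist b w kE Ec) cols c (ro ns c) S = true := by
  intro c h1 h2
  rw [chkX, elistK_eq, force_eq] at h
  have := rowsX_spec D c0 (ns.drop c0) h (c - c0) (by omega)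
  rw [ro_drop, show c0 + (c - c0) = c by omega] at this
  exact this

end Pool.Agent.Helper54.FM.V2
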