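import Pool.Agent.Helper54.FM.All
import Pool.Agent.Helper54.FM.Large

set_option autoImplicit false

/-! Project FM (helper54), MP_e6aa12_ag: all `r ≥ 10`, all `m ≤ 50`, all `d`. -/

namespace Pool.Agent.Helper54.FM

theorem good_small {K : Type*} [Field K] [CharZero K] {r m d : ℕ} (hr : 10 ≤ r) (hm : m ≤ 50) :
    MR K r m d := by
  rcases Nat.lt_or_ge 80 r with h | h
  · exact large_r 50 8 (by norm_num) ineq50 (by omega) hm
  · exact small_r r m d hr h hm

end Pool.Agent.Helper54.FM
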