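import Pool.Agent.Helper54.FM.Fast3
import Pool.Agent.Helper54.FM.K10m18d57
import Pool.Agent.Helper54.FM.K10m36d114
import Pool.Agent.Helper54.FM.K10m37d117
import Pool.Agent.Helper54.FM.K10m43d136
import Pool.Agent.Helper54.FM.K10m49d155
import Pool.Agent.Helper54.FM.KC0
import Pool.Agent.Helper54.FM.KC1
import Pool.Agent.Helper54.FM.KC2
import Pool.Agent.Helper54.FM.KC3
import Pool.Agent.Helper54.FM.KC4
import Pool.Agent.Helper54.FM.KC5

set_option autoImplicit false
set_option maxRecDepth 100000
set_option linter.defProp false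

/-! Project FM (helper54), MP_e6aa12_ag: r = 10..13, m <= 50 (generated). -/

namespace Pool.Agent.Helper54.FM

def t10_3_9 : V3.chw 10 3 9 3 [1] = true := by
  decide +kernel

def t10_3_10 : V3.chw 10 3 10 3 [] = true := by
  decide +kernel

def t10_4_12 : V3.chw 10 4 12 3 [1] = true := by
  decide +kernel

def t10_4_13 : V3.chw 10 4 13 2 [1, 2] = true := by
  decide +kernel

def t10_5_15 : V3.chw 10 5 15 3 [1] = true := by
  decide +kernel

def t10_5_16 : V3.chw 10 5 16 2 [1, 1008] = true := by
  decide +kernel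

def t10_7_22 : V3.chw 10 7 22 2 [1, 1008] = true := by
  decide +kernel

def t10_7_23 : V3.chw 10 7 23 2 [1, 2] = true := by
  decide +kernel

def t10_8_25 : V3.chw 10 8 25 2 [1, 1008] = true := by
  decide +kernel

def t10_8_26 : V3.chw 10 8 26 2 [1, 2] = true := by
  decide +kernel

def t10_9_28 : V3.chw 10 9 28 2 [1, 1008] = true := by
  decide +kernel

def t10_9_29 : V3.chw 10 9 29 2 [1, 1, 1] = true := by
  decide +kernel

def t10_10_31 : V3.chw 10 10 31 2 [1, 1, 1] = true := by
  decide +kernel

def t10_10_32 : V3.chw 10 10 32 2 [1, 1008] = true := by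
  decide +kernel

def t10_11_34 : V3.chw 10 11 34 2 [1, 1, 1] = true := by
  decide +kernel

def t10_11_35 : V3.chw 10 11 35 2 [1, 1007, 1] = true := by
  decide +kernel

def t10_13_41 : V3.chw 10 13 41 2 [1, 1007, 1] = true := by
  decide +kernel

def t10_13_42 : V3.chw 10 13 42 2 [1, 1008] = true := by
  decide +kernel

def t10_14_44 : V3.chw 10 14 44 2 [1, 1007, 1] = true := by
  decide +kernel

def t10_14_45 : V3.chw 10 14 45 2 [1, 1008] = true := by
  decide +kernel

def t10_15_47 : V3.chw 10 15 47 2 [1, 1008] = true := by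
  decide +kernel

def t10_15_48 : V3.chw 10 15 48 2 [1, 1008] = true := by
  decide +kernel

def t10_16_50 : V3.chw 10 16 50 2 [1, 1008] = true := by
  decide +kernel

def t10_16_51 : V3.chw 10 16 51 2 [1, 1007, 1] = true := by
  decide +kernel

def t10_17_53 : V3.chw 10 17 53 2 [1, 1008] = true := by
  decide +kernel

def t10_17_54 : V3.chw 10 17 54 2 [1, 1007, 1] = true := by
  decide +kernel

def t10_18_56 : V3.chw 10 18 56 2 [1, 1008] = true := by
  decide +kernel

def t10_19_60 : V3.chw 10 19 60 2 [1, 1007, 1] = true := by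
  decide +kernel

def t10_19_61 : V3.chw 10 19 61 2 [1, 1008] = true := by
  decide +kernel

def t10_20_63 : V3.chw 10 20 63 2 [1, 1007, 1] = true := by
  decide +kernel

def t10_20_64 : V3.chw 10 20 64 2 [1, 1008] = true := by
  decide +kernel

def t10_21_66 : V3.chw 10 21 66 2 [1, 1007, 1] = true := by
  decide +kernel

def t10_21_67 : V3.chw 10 21 67 2 [1, 1007, 1] = true := by
  decide +kernel

def t10_22_69 : V3.chw 10 22 69 2 [1, 1007, 1] = true := by
  decide +kernel

def t10_22_70 : V3.chw 10 22 70 2 [1, 1007, 1] = true := by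
  decide +kernel

def t10_23_72 : V3.chw 10 23 72 2 [1, 1008] = true := by
  decide +kernel

def t10_23_73 : V3.chw 10 23 73 2 [1, 1007, 1] = true := by
  decide +kernel

def t10_24_75 : V3.chw 10 24 75 2 [1, 1008] = true := by
  decide +kernel

def t10_25_79 : V3.chw 10 25 79 2 [1, 1007, 1] = true := by
  decide +kernel

def t10_25_80 : V3.chw 10 25 80 2 [1, 1008] = true := by
  decide +kernel

def t10_26_82 : V3.chw 10 26 82 2 [1, 1007, 1] = true := by
  decide +kernel

def t10_26_83 : V3.chw 10 26 83 2 [1, 1007, 1] = true := by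
  decide +kernel

def t10_27_85 : V3.chw 10 27 85 2 [1, 1007, 1] = true := by
  decide +kernel

def t10_27_86 : V3.chw 10 27 86 2 [1, 1007, 1] = true := by
  decide +kernel

def t10_28_88 : V3.chw 10 28 88 2 [1, 1007, 1] = true := by
  decide +kernel

def t10_28_89 : V3.chw 10 28 89 2 [1, 1007, 1] = true := by
  decide +kernel

def t10_29_91 : V3.chw 10 29 91 2 [1, 1007, 1] = true := by
  decide +kernel

def t10_29_92 : V3.chw 10 29 92 2 [1, 1007, 1] = true := by
  decide +kernel

def t10_30_94 : V3.chw 10 30 94 2 [1, 1007, 1] = true := by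
  decide +kernel

def t10_31_99 : V3.chw 10 31 99 2 [1, 1007, 1] = true := by
  decide +kernel

def t10_32_101 : V3.chw 10 32 101 2 [1, 1007, 1] = true := by
  decide +kernel

def t10_32_102 : V3.chw 10 32 102 2 [1, 1007, 1] = true := by
  decide +kernel

def t10_33_104 : V3.chw 10 33 104 2 [1, 1007, 1] = true := by
  decide +kernel

def t10_33_105 : V3.chw 10 33 105 2 [1, 1007, 1] = true := by
  decide +kernel

def t10_34_107 : V3.chw 10 34 107 2 [1, 1007, 1] = true := by
  decide +kernel

def t10_34_108 : V3.chw 10 34 108 2 [1, 1007, 1] = true := by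
  decide +kernel

def t10_35_110 : V3.chw 10 35 110 2 [1, 1007, 1] = true := by
  decide +kernel

def t10_35_111 : V3.chw 10 35 111 2 [1, 1007, 1] = true := by
  decide +kernel

def t10_36_113 : V3.chw 10 36 113 2 [1, 1007, 1] = true := by
  decide +kernel

def t10_37_118 : V3.chw 10 37 118 2 [1, 1007, 1] = true := by
  decide +kernel

def t10_38_120 : V3.chw 10 38 120 2 [1, 1007, 1] = true := by
  decide +kernel

def t10_38_121 : V3.chw 10 38 121 2 [1, 1007, 1] = true := by
  decide +kernel

def t10_39_123 : V3.chw 10 39 123 2 [1, 1007, 1] = true := by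
  decide +kernel

def t10_39_124 : V3.chw 10 39 124 2 [1, 1007, 1] = true := by
  decide +kernel

def t10_40_126 : V3.chw 10 40 126 2 [1, 1007, 1] = true := by
  decide +kernel

def t10_40_127 : V3.chw 10 40 127 2 [1, 1007, 1] = true := by
  decide +kernel

def t10_41_129 : V3.chw 10 41 129 2 [1, 1007, 1] = true := by
  decide +kernel

def t10_41_130 : V3.chw 10 41 130 2 [1, 1007, 1] = true := by
  decide +kernel

def t10_42_132 : V3.chw 10 42 132 2 [1, 1007, 1] = true := by
  decide +kernel

def t10_43_137 : V3.chw 10 43 137 2 [1, 1007, 1] = true := by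
  decide +kernel

def t10_44_140 : V3.chw 10 44 140 2 [1, 1007, 1] = true := by
  decide +kernel

def t10_45_142 : V3.chw 10 45 142 2 [1, 1007, 1] = true := by
  decide +kernel

def t10_45_143 : V3.chw 10 45 143 2 [1, 1007, 1] = true := by
  decide +kernel

def t10_46_145 : V3.chw 10 46 145 2 [1, 1007, 1] = true := by
  decide +kernel

def t10_46_146 : V3.chw 10 46 146 2 [1, 1007, 1] = true := by
  decide +kernel

def t10_47_148 : V3.chw 10 47 148 2 [1, 1007, 1] = true := by
  decide +kernel

def t10_47_149 : V3.chw 10 47 149 2 [1, 1007, 1] = true := by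
  decide +kernel

def t10_48_151 : V3.chw 10 48 151 2 [1, 1007, 1] = true := by
  decide +kernel

def t10_49_156 : V3.chw 10 49 156 2 [1, 1007, 1] = true := by
  decide +kernel

def t10_50_159 : V3.chw 10 50 159 2 [1, 1007, 1] = true := by
  decide +kernel

theorem R10 {K : Type*} [Field K] [CharZero K] (m d : ℕ) (h : m ≤ 50) : MR K 10 m d := by
  interval_cases m
  · exact good_cova 2 (by decide +kernel) d
  · exact good_cova 2 (by decide +kernel) d
  · exact good_cova 2 (by decide +kernel) d
  · exact crit 9 (by decide +kernel) (V3.good_chw _ _ t10_3_9) (V3.good_chw _ _ t10_3_10) d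
  · exact crit 12 (by decide +kernel) (V3.good_chw _ _ t10_4_12) (V3.good_chw _ _ t10_4_13) d
  · exact crit 15 (by decide +kernel) (V3.good_chw _ _ t10_5_15) (V3.good_chw _ _ t10_5_16) d
  · exact crit0 19 (by decide +kernel) K10m6d19.good d
  · exact crit 22 (by decide +kernel) (V3.good_chw _ _ t10_7_22) (V3.good_chw _ _ t10_7_23) d
  · exact crit 25 (by decide +kernel) (V3.good_chw _ _ t10_8_25) (V3.good_chw _ _ t10_8_26) d
  · exact crit 28 (by decide +kernel) (V3.good_chw _ _ t10_9_28) (V3.good_chw _ _ t10_9_29) d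
  · exact crit 31 (by decide +kernel) (V3.good_chw _ _ t10_10_31) (V3.good_chw _ _ t10_10_32) d
  · exact crit 34 (by decide +kernel) (V3.good_chw _ _ t10_11_34) (V3.good_chw _ _ t10_11_35) d
  · exact crit0 38 (by decide +kernel) K10m12d38.good d
  · exact crit 41 (by decide +kernel) (V3.good_chw _ _ t10_13_41) (V3.good_chw _ _ t10_13_42) d
  · exact crit 44 (by decide +kernel) (V3.good_chw _ _ t10_14_44) (V3.good_chw _ _ t10_14_45) d
  · exact crit 47 (by decide +kernel) (V3.good_chw _ _ t10_15_47) (V3.good_chw _ _ t10_15_48) d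
  · exact crit 50 (by decide +kernel) (V3.good_chw _ _ t10_16_50) (V3.good_chw _ _ t10_16_51) d
  · exact crit 53 (by decide +kernel) (V3.good_chw _ _ t10_17_53) (V3.good_chw _ _ t10_17_54) d
  · exact crit 56 (by decide +kernel) (V3.good_chw _ _ t10_18_56) K10m18d57.good d
  · exact crit 60 (by decide +kernel) (V3.good_chw _ _ t10_19_60) (V3.good_chw _ _ t10_19_61) d
  · exact crit 63 (by decide +kernel) (V3.good_chw _ _ t10_20_63) (V3.good_chw _ _ t10_20_64) d
  · exact crit 66 (by decide +kernel) (V3.good_chw _ _ t10_21_66) (V3.good_chw _ _ t10_21_67) d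
  · exact crit 69 (by decide +kernel) (V3.good_chw _ _ t10_22_69) (V3.good_chw _ _ t10_22_70) d
  · exact crit 72 (by decide +kernel) (V3.good_chw _ _ t10_23_72) (V3.good_chw _ _ t10_23_73) d
  · exact crit 75 (by decide +kernel) (V3.good_chw _ _ t10_24_75) K10m24d76.good d
  · exact crit 79 (by decide +kernel) (V3.good_chw _ _ t10_25_79) (V3.good_chw _ _ t10_25_80) d
  · exact crit 82 (by decide +kernel) (V3.good_chw _ _ t10_26_82) (V3.good_chw _ _ t10_26_83) d
  · exact crit 85 (by decide +kernel) (V3.good_chw _ _ t10_27_85) (V3.good_chw _ _ t10_27_86) d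
  · exact crit 88 (by decide +kernel) (V3.good_chw _ _ t10_28_88) (V3.good_chw _ _ t10_28_89) d
  · exact crit 91 (by decide +kernel) (V3.good_chw _ _ t10_29_91) (V3.good_chw _ _ t10_29_92) d
  · exact crit 94 (by decide +kernel) (V3.good_chw _ _ t10_30_94) K10m30d95.good d
  · exact crit 98 (by decide +kernel) K10m31d98.good (V3.good_chw _ _ t10_31_99) d
  · exact crit 101 (by decide +kernel) (V3.good_chw _ _ t10_32_101) (V3.good_chw _ _ t10_32_102) d
  · exact crit 104 (by decide +kernel) (V3.good_chw _ _ t10_33_104) (V3.good_chw _ _ t10_33_105) d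
  · exact crit 107 (by decide +kernel) (V3.good_chw _ _ t10_34_107) (V3.good_chw _ _ t10_34_108) d
  · exact crit 110 (by decide +kernel) (V3.good_chw _ _ t10_35_110) (V3.good_chw _ _ t10_35_111) d
  · exact crit 113 (by decide +kernel) (V3.good_chw _ _ t10_36_113) K10m36d114.good d
  · exact crit 117 (by decide +kernel) K10m37d117.good (V3.good_chw _ _ t10_37_118) d
  · exact crit 120 (by decide +kernel) (V3.good_chw _ _ t10_38_120) (V3.good_chw _ _ t10_38_121) d
  · exact crit 123 (by decide +kernel) (V3.good_chw _ _ t10_39_123) (V3.good_chw _ _ t10_39_124) d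
  · exact crit 126 (by decide +kernel) (V3.good_chw _ _ t10_40_126) (V3.good_chw _ _ t10_40_127) d
  · exact crit 129 (by decide +kernel) (V3.good_chw _ _ t10_41_129) (V3.good_chw _ _ t10_41_130) d
  · exact crit 132 (by decide +kernel) (V3.good_chw _ _ t10_42_132) K10m42d133.good d
  · exact crit 136 (by decide +kernel) K10m43d136.good (V3.good_chw _ _ t10_43_137) d
  · exact crit 139 (by decide +kernel) K10m44d139.good (V3.good_chw _ _ t10_44_140) d
  · exact crit 142 (by decide +kernel) (V3.good_chw _ _ t10_45_142) (V3.good_chw _ _ t10_45_143) d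
  · exact crit 145 (by decide +kernel) (V3.good_chw _ _ t10_46_145) (V3.good_chw _ _ t10_46_146) d
  · exact crit 148 (by decide +kernel) (V3.good_chw _ _ t10_47_148) (V3.good_chw _ _ t10_47_149) d
  · exact crit 151 (by decide +kernel) (V3.good_chw _ _ t10_48_151) K10m48d152.good d
  · exact crit 155 (by decide +kernel) K10m49d155.good (V3.good_chw _ _ t10_49_156) d
  · exact crit 158 (by decide +kernel) K10m50d158.good (V3.good_chw _ _ t10_50_159) d

def t11_10_33 : V3.chw 11 10 33 3 [1] = true := by
  decide +kernel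

def t11_10_34 : V3.chw 11 10 34 3 [1] = true := by
  decide +kernel

def t11_11_36 : V3.chw 11 11 36 3 [1] = true := by
  decide +kernel

def t11_11_37 : V3.chw 11 11 37 3 [1] = true := by
  decide +kernel

def t11_12_39 : V3.chw 11 12 39 3 [1] = true := by
  decide +kernel

def t11_12_40 : V3.chw 11 12 40 3 [1] = true := by
  decide +kernel

def t11_13_43 : V3.chw 11 13 43 3 [1] = true := by
  decide +kernel

def t11_13_44 : V3.chw 11 13 44 3 [1] = true := by
  decide +kernel

def t11_14_46 : V3.chw 11 14 46 3 [1] = true := by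
  decide +kernel

def t11_14_47 : V3.chw 11 14 47 3 [1] = true := by
  decide +kernel

def t11_15_49 : V3.chw 11 15 49 3 [1] = true := by
  decide +kernel

def t11_15_50 : V3.chw 11 15 50 3 [1] = true := by
  decide +kernel

def t11_16_53 : V3.chw 11 16 53 3 [1] = true := by
  decide +kernel

def t11_16_54 : V3.chw 11 16 54 3 [1] = true := by
  decide +kernel

def t11_17_56 : V3.chw 11 17 56 3 [1] = true := by
  decide +kernel

def t11_17_57 : V3.chw 11 17 57 3 [1] = true := by
  decide +kernel

def t11_18_59 : V3.chw 11 18 59 3 [1] = true := by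
  decide +kernel

def t11_18_60 : V3.chw 11 18 60 3 [1] = true := by
  decide +kernel

def t11_19_63 : V3.chw 11 19 63 3 [1009, 1010] = true := by
  decide +kernel

def t11_19_64 : V3.chw 11 19 64 3 [1] = true := by
  decide +kernel

def t11_20_66 : V3.chw 11 20 66 3 [1] = true := by
  decide +kernel

def t11_20_67 : V3.chw 11 20 67 3 [1] = true := by
  decide +kernel

def t11_21_69 : V3.chw 11 21 69 3 [1] = true := by
  decide +kernel

def t11_21_70 : V3.chw 11 21 70 3 [1] = true := by
  decide +kernel

def t11_22_74 : V3.chw 11 22 74 3 [1] = true := by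
  decide +kernel

def t11_23_76 : V3.chw 11 23 76 3 [1] = true := by
  decide +kernel

def t11_23_77 : V3.chw 11 23 77 3 [1] = true := by
  decide +kernel

def t11_24_79 : V3.chw 11 24 79 3 [1] = true := by
  decide +kernel

def t11_24_80 : V3.chw 11 24 80 3 [1] = true := by
  decide +kernel

def t11_25_84 : V3.chw 11 25 84 3 [1] = true := by
  decide +kernel

def t11_26_86 : V3.chw 11 26 86 3 [1] = true := by
  decide +kernel

def t11_26_87 : V3.chw 11 26 87 3 [1] = true := by
  decide +kernel

def t11_27_89 : V3.chw 11 27 89 3 [1] = true := by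
  decide +kernel

def t11_27_90 : V3.chw 11 27 90 3 [1] = true := by
  decide +kernel

def t11_28_94 : V3.chw 11 28 94 3 [1] = true := by
  decide +kernel

def t11_29_96 : V3.chw 11 29 96 3 [1009, 1010] = true := by
  decide +kernel

def t11_29_97 : V3.chw 11 29 97 3 [1] = true := by
  decide +kernel

def t11_30_99 : V3.chw 11 30 99 3 [1] = true := by
  decide +kernel

def t11_30_100 : V3.chw 11 30 100 3 [1] = true := by
  decide +kernel

def t11_31_102 : V3.chw 11 31 102 3 [1] = true := by
  decide +kernel

def t11_32_107 : V3.chw 11 32 107 3 [1] = true := by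
  decide +kernel

def t11_33_109 : V3.chw 11 33 109 3 [1] = true := by
  decide +kernel

def t11_33_110 : V3.chw 11 33 110 3 [1] = true := by
  decide +kernel

def t11_34_112 : V3.chw 11 34 112 3 [1] = true := by
  decide +kernel

def t11_35_117 : V3.chw 11 35 117 3 [1] = true := by
  decide +kernel

def t11_36_119 : V3.chw 11 36 119 3 [1] = true := by
  decide +kernel

def t11_36_120 : V3.chw 11 36 120 3 [1] = true := by
  decide +kernel

def t11_37_122 : V3.chw 11 37 122 3 [1] = true := by
  decide +kernel

def t11_38_127 : V3.chw 11 38 127 3 [1] = true := by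
  decide +kernel

def t11_39_129 : V3.chw 11 39 129 3 [1009, 1010] = true := by
  decide +kernel

def t11_39_130 : V3.chw 11 39 130 3 [1] = true := by
  decide +kernel

def t11_40_132 : V3.chw 11 40 132 3 [1] = true := by
  decide +kernel

def t11_41_137 : V3.chw 11 41 137 3 [1] = true := by
  decide +kernel

def t11_42_140 : V3.chw 11 42 140 3 [1] = true := by
  decide +kernel

def t11_43_142 : V3.chw 11 43 142 3 [1] = true := by
  decide +kernel

def t11_44_147 : V3.chw 11 44 147 3 [1] = true := by
  decide +kernel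

def t11_45_150 : V3.chw 11 45 150 3 [1] = true := by
  decide +kernel

def t11_46_152 : V3.chw 11 46 152 3 [1] = true := by
  decide +kernel

def t11_47_157 : V3.chw 11 47 157 3 [1] = true := by
  decide +kernel

def t11_48_160 : V3.chw 11 48 160 3 [1] = true := by
  decide +kernel

def t11_49_162 : V3.chw 11 49 162 3 [1009, 1010] = true := by
  decide +kernel

def t11_50_165 : V3.chw 11 50 165 3 [1] = true := by
  decide +kernel

theorem R11 {K : Type*} [Field K] [CharZero K] (m d : ℕ) (h : m ≤ 50) : MR K 11 m d := by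
  interval_cases m
  · exact good_cova 3 (by decide +kernel) d
  · exact good_cova 3 (by decide +kernel) d
  · exact good_cova 3 (by decide +kernel) d
  · exact good_cova 3 (by decide +kernel) d
  · exact good_cova 3 (by decide +kernel) d
  · exact good_cova 3 (by decide +kernel) d
  · exact good_cova 3 (by decide +kernel) d
  · exact good_cova 3 (by decide +kernel) d
  · exact good_cova 3 (by decide +kernel) d
  · exact good_cova 3 (by decide +kernel) d
  · exact crit 33 (by decide +kernel) (V3.good_chw _ _ t11_10_33) (V3.good_chw _ _ t11_10_34) d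
  · exact crit 36 (by decide +kernel) (V3.good_chw _ _ t11_11_36) (V3.good_chw _ _ t11_11_37) d
  · exact crit 39 (by decide +kernel) (V3.good_chw _ _ t11_12_39) (V3.good_chw _ _ t11_12_40) d
  · exact crit 43 (by decide +kernel) (V3.good_chw _ _ t11_13_43) (V3.good_chw _ _ t11_13_44) d
  · exact crit 46 (by decide +kernel) (V3.good_chw _ _ t11_14_46) (V3.good_chw _ _ t11_14_47) d
  · exact crit 49 (by decide +kernel) (V3.good_chw _ _ t11_15_49) (V3.good_chw _ _ t11_15_50) d
  · exact crit 53 (by decide +kernel) (V3.good_chw _ _ t11_16_53) (V3.good_chw _ _ t11_16_54) d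
  · exact crit 56 (by decide +kernel) (V3.good_chw _ _ t11_17_56) (V3.good_chw _ _ t11_17_57) d
  · exact crit 59 (by decide +kernel) (V3.good_chw _ _ t11_18_59) (V3.good_chw _ _ t11_18_60) d
  · exact crit 63 (by decide +kernel) (V3.good_chw _ _ t11_19_63) (V3.good_chw _ _ t11_19_64) d
  · exact crit 66 (by decide +kernel) (V3.good_chw _ _ t11_20_66) (V3.good_chw _ _ t11_20_67) d
  · exact crit 69 (by decide +kernel) (V3.good_chw _ _ t11_21_69) (V3.good_chw _ _ t11_21_70) d
  · exact crit 73 (by decide +kernel) K11m22d73.good (V3.good_chw _ _ t11_22_74) d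
  · exact crit 76 (by decide +kernel) (V3.good_chw _ _ t11_23_76) (V3.good_chw _ _ t11_23_77) d
  · exact crit 79 (by decide +kernel) (V3.good_chw _ _ t11_24_79) (V3.good_chw _ _ t11_24_80) d
  · exact crit 83 (by decide +kernel) K11m25d83.good (V3.good_chw _ _ t11_25_84) d
  · exact crit 86 (by decide +kernel) (V3.good_chw _ _ t11_26_86) (V3.good_chw _ _ t11_26_87) d
  · exact crit 89 (by decide +kernel) (V3.good_chw _ _ t11_27_89) (V3.good_chw _ _ t11_27_90) d
  · exact crit 93 (by decide +kernel) K11m28d93.good (V3.good_chw _ _ t11_28_94) d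
  · exact crit 96 (by decide +kernel) (V3.good_chw _ _ t11_29_96) (V3.good_chw _ _ t11_29_97) d
  · exact crit 99 (by decide +kernel) (V3.good_chw _ _ t11_30_99) (V3.good_chw _ _ t11_30_100) d
  · exact crit 102 (by decide +kernel) (V3.good_chw _ _ t11_31_102) K11m31d103.good d
  · exact crit 106 (by decide +kernel) K11m32d106.good (V3.good_chw _ _ t11_32_107) d
  · exact crit 109 (by decide +kernel) (V3.good_chw _ _ t11_33_109) (V3.good_chw _ _ t11_33_110) d
  · exact crit 112 (by decide +kernel) (V3.good_chw _ _ t11_34_112) K11m34d113.good d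
  · exact crit 116 (by decide +kernel) K11m35d116.good (V3.good_chw _ _ t11_35_117) d
  · exact crit 119 (by decide +kernel) (V3.good_chw _ _ t11_36_119) (V3.good_chw _ _ t11_36_120) d
  · exact crit 122 (by decide +kernel) (V3.good_chw _ _ t11_37_122) K11m37d123.good d
  · exact crit 126 (by decide +kernel) K11m38d126.good (V3.good_chw _ _ t11_38_127) d
  · exact crit 129 (by decide +kernel) (V3.good_chw _ _ t11_39_129) (V3.good_chw _ _ t11_39_130) d
  · exact crit 132 (by decide +kernel) (V3.good_chw _ _ t11_40_132) K11m40d133.good d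
  · exact crit 136 (by decide +kernel) K11m41d136.good (V3.good_chw _ _ t11_41_137) d
  · exact crit 139 (by decide +kernel) K11m42d139.good (V3.good_chw _ _ t11_42_140) d
  · exact crit 142 (by decide +kernel) (V3.good_chw _ _ t11_43_142) K11m43d143.good d
  · exact crit 146 (by decide +kernel) K11m44d146.good (V3.good_chw _ _ t11_44_147) d
  · exact crit 149 (by decide +kernel) K11m45d149.good (V3.good_chw _ _ t11_45_150) d
  · exact crit 152 (by decide +kernel) (V3.good_chw _ _ t11_46_152) K11m46d153.good d
  · exact crit 156 (by decide +kernel) K11m47d156.good (V3.good_chw _ _ t11_47_157) d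
  · exact crit 159 (by decide +kernel) K11m48d159.good (V3.good_chw _ _ t11_48_160) d
  · exact crit 162 (by decide +kernel) (V3.good_chw _ _ t11_49_162) K11m49d163.good d
  · exact crit 165 (by decide +kernel) (V3.good_chw _ _ t11_50_165) K11m50d166.good d

def t12_3_10 : V3.chw 12 3 10 3 [1] = true := by
  decide +kernel

def t12_3_11 : V3.chw 12 3 11 2 [3] = true := by
  decide +kernel

def t12_4_14 : V3.chw 12 4 14 2 [3, 1011] = true := by
  decide +kernel

def t12_5_17 : V3.chw 12 5 17 2 [3] = true := by
  decide +kernel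

def t12_5_18 : V3.chw 12 5 18 2 [3] = true := by
  decide +kernel

def t12_6_20 : V3.chw 12 6 20 3 [1] = true := by
  decide +kernel

def t12_6_21 : V3.chw 12 6 21 2 [3, 1011] = true := by
  decide +kernel

def t12_7_24 : V3.chw 12 7 24 2 [3] = true := by
  decide +kernel

def t12_7_25 : V3.chw 12 7 25 2 [3] = true := by
  decide +kernel

def t12_8_27 : V3.chw 12 8 27 2 [3] = true := by
  decide +kernel

def t12_8_28 : V3.chw 12 8 28 2 [3, 1011] = true := by
  decide +kernel

def t12_9_31 : V3.chw 12 9 31 2 [3] = true := by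
  decide +kernel

def t12_9_32 : V3.chw 12 9 32 2 [3] = true := by
  decide +kernel

def t12_10_34 : V3.chw 12 10 34 2 [3] = true := by
  decide +kernel

def t12_10_35 : V3.chw 12 10 35 2 [3, 1011] = true := by
  decide +kernel

def t12_11_38 : V3.chw 12 11 38 2 [3] = true := by
  decide +kernel

def t12_11_39 : V3.chw 12 11 39 2 [3] = true := by
  decide +kernel

def t12_12_41 : V3.chw 12 12 41 2 [3] = true := by
  decide +kernel

def t12_12_42 : V3.chw 12 12 42 2 [3, 1011] = true := by
  decide +kernel

def t12_13_45 : V3.chw 12 13 45 2 [1, 1007, 1008, 1009, 1] = true := by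
  decide +kernel

def t12_13_46 : V3.chw 12 13 46 2 [3] = true := by
  decide +kernel

def t12_14_48 : V3.chw 12 14 48 2 [3] = true := by
  decide +kernel

def t12_14_49 : V3.chw 12 14 49 2 [3, 1011] = true := by
  decide +kernel

def t12_15_52 : V3.chw 12 15 52 2 [1, 1007, 1, 1] = true := by
  decide +kernel

def t12_15_53 : V3.chw 12 15 53 2 [3] = true := by
  decide +kernel

def t12_16_55 : V3.chw 12 16 55 2 [3] = true := by
  decide +kernel

def t12_16_56 : V3.chw 12 16 56 2 [3, 1011] = true := by
  decide +kernel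

def t12_17_59 : V3.chw 12 17 59 2 [1, 1007, 1008, 1009, 1] = true := by
  decide +kernel

def t12_17_60 : V3.chw 12 17 60 2 [3] = true := by
  decide +kernel

def t12_18_62 : V3.chw 12 18 62 2 [3] = true := by
  decide +kernel

def t12_18_63 : V3.chw 12 18 63 2 [3, 1011] = true := by
  decide +kernel

def t12_19_66 : V3.chw 12 19 66 2 [1, 1007, 1, 1010, 1011] = true := by
  decide +kernel

def t12_19_67 : V3.chw 12 19 67 2 [3] = true := by
  decide +kernel

def t12_20_69 : V3.chw 12 20 69 2 [1, 1, 1010] = true := by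
  decide +kernel

def t12_20_70 : V3.chw 12 20 70 2 [3, 1011] = true := by
  decide +kernel

def t12_21_72 : V3.chw 12 21 72 2 [3] = true := by
  decide +kernel

def t12_21_73 : V3.chw 12 21 73 2 [1, 1007, 1, 1010, 1011] = true := by
  decide +kernel

def t12_22_76 : V3.chw 12 22 76 2 [1, 1007, 1, 1] = true := by
  decide +kernel

def t12_22_77 : V3.chw 12 22 77 2 [3, 1011] = true := by
  decide +kernel

def t12_23_79 : V3.chw 12 23 79 2 [3] = true := by
  decide +kernel

def t12_23_80 : V3.chw 12 23 80 2 [1, 1007, 1008, 1009, 1] = true := by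
  decide +kernel

def t12_24_83 : V3.chw 12 24 83 2 [1, 1007, 1, 1] = true := by
  decide +kernel

def t12_24_84 : V3.chw 12 24 84 2 [3, 1011] = true := by
  decide +kernel

def t12_25_86 : V3.chw 12 25 86 2 [3] = true := by
  decide +kernel

def t12_25_87 : V3.chw 12 25 87 2 [1, 1007, 1008, 1009, 1] = true := by
  decide +kernel

def t12_26_90 : V3.chw 12 26 90 2 [1, 1007, 1008, 1009, 1] = true := by
  decide +kernel

def t12_26_91 : V3.chw 12 26 91 2 [3, 1011] = true := by
  decide +kernel

def t12_27_93 : V3.chw 12 27 93 2 [1, 1008, 1011] = true := by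
  decide +kernel

def t12_27_94 : V3.chw 12 27 94 2 [1, 1007, 1, 1] = true := by
  decide +kernel

def t12_28_97 : V3.chw 12 28 97 2 [1, 1007, 1008, 1009, 1] = true := by
  decide +kernel

def t12_28_98 : V3.chw 12 28 98 2 [3, 1011] = true := by
  decide +kernel

def t12_29_100 : V3.chw 12 29 100 2 [1, 1007, 1, 1] = true := by
  decide +kernel

def t12_29_101 : V3.chw 12 29 101 2 [1, 1007, 1, 1] = true := by
  decide +kernel

def t12_30_104 : V3.chw 12 30 104 2 [1, 1007, 1008, 1009, 1] = true := by
  decide +kernel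

def t12_30_105 : V3.chw 12 30 105 2 [3, 1011] = true := by
  decide +kernel

def t12_31_107 : V3.chw 12 31 107 2 [1, 1, 1010] = true := by
  decide +kernel

def t12_31_108 : V3.chw 12 31 108 2 [1, 1007, 1, 1] = true := by
  decide +kernel

def t12_32_111 : V3.chw 12 32 111 2 [1, 1007, 1, 1010, 1011] = true := by
  decide +kernel

def t12_32_112 : V3.chw 12 32 112 2 [3, 1011] = true := by
  decide +kernel

def t12_33_114 : V3.chw 12 33 114 2 [1, 1007, 1, 1] = true := by
  decide +kernel

def t12_33_115 : V3.chw 12 33 115 2 [1, 1007, 1, 1] = true := by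
  decide +kernel

def t12_35_121 : V3.chw 12 35 121 2 [1, 1007, 1, 1] = true := by
  decide +kernel

def t12_35_122 : V3.chw 12 35 122 2 [1, 1, 1010] = true := by
  decide +kernel

def t12_36_124 : V3.chw 12 36 124 2 [1, 1, 1010] = true := by
  decide +kernel

def t12_36_125 : V3.chw 12 36 125 2 [1, 1007, 1008, 1009, 1010, 1011] = true := by
  decide +kernel

def t12_37_128 : V3.chw 12 37 128 2 [1, 1007, 1, 1] = true := by
  decide +kernel

def t12_37_129 : V3.chw 12 37 129 2 [1, 1, 1010] = true := by
  decide +kernel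

def t12_38_131 : V3.chw 12 38 131 2 [1, 1, 1010] = true := by
  decide +kernel

def t12_38_132 : V3.chw 12 38 132 2 [1, 1007, 1, 1010, 1011] = true := by
  decide +kernel

def t12_39_135 : V3.chw 12 39 135 2 [1, 1007, 1008, 1009, 1] = true := by
  decide +kernel

def t12_39_136 : V3.chw 12 39 136 2 [1, 1, 1010] = true := by
  decide +kernel

def t12_40_138 : V3.chw 12 40 138 2 [1, 1007, 1, 1] = true := by
  decide +kernel

def t12_40_139 : V3.chw 12 40 139 2 [1, 1007, 1008, 1009, 1] = true := by
  decide +kernel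

def t12_41_142 : V3.chw 12 41 142 2 [1, 1007, 1008, 1009, 1] = true := by
  decide +kernel

def t12_41_143 : V3.chw 12 41 143 2 [1, 1, 1010] = true := by
  decide +kernel

def t12_42_145 : V3.chw 12 42 145 2 [1, 1007, 1, 1] = true := by
  decide +kernel

def t12_42_146 : V3.chw 12 42 146 2 [1, 1007, 1008, 1009, 1] = true := by
  decide +kernel

def t12_43_149 : V3.chw 12 43 149 2 [1, 1007, 1008, 1009, 1010, 1011] = true := by
  decide +kernel

def t12_43_150 : V3.chw 12 43 150 2 [1, 1, 1010] = true := by
  decide +kernel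

def t12_44_152 : V3.chw 12 44 152 2 [1, 1007, 1, 1] = true := by
  decide +kernel

def t12_44_153 : V3.chw 12 44 153 2 [1, 1007, 1, 1010, 1011] = true := by
  decide +kernel

def t12_45_156 : V3.chw 12 45 156 2 [1, 1007, 1008, 1009, 1010, 1011] = true := by
  decide +kernel

def t12_45_157 : V3.chw 12 45 157 2 [1, 1, 1010] = true := by
  decide +kernel

def t12_46_159 : V3.chw 12 46 159 2 [1, 1007, 1, 1] = true := by
  decide +kernel

def t12_46_160 : V3.chw 12 46 160 2 [1, 1007, 1, 1] = true := by
  decide +kernel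

def t12_47_163 : V3.chw 12 47 163 2 [1, 1007, 1008, 1009, 1010, 1011] = true := by
  decide +kernel

def t12_47_164 : V3.chw 12 47 164 2 [1, 1, 1010] = true := by
  decide +kernel

def t12_48_166 : V3.chw 12 48 166 2 [1, 1007, 1, 1010, 1011] = true := by
  decide +kernel

def t12_48_167 : V3.chw 12 48 167 2 [1, 1007, 1, 1] = true := by
  decide +kernel

def t12_49_169 : V3.chw 12 49 169 2 [1, 1, 1010] = true := by
  decide +kernel

def t12_50_173 : V3.chw 12 50 173 2 [1, 1007, 1, 1] = true := by
  decide +kernel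

def t12_50_174 : V3.chw 12 50 174 2 [1, 1007, 1, 1] = true := by
  decide +kernel

theorem R12 {K : Type*} [Field K] [CharZero K] (m d : ℕ) (h : m ≤ 50) : MR K 12 m d := by
  interval_cases m
  · exact good_cova 2 (by decide +kernel) d
  · exact good_cova 2 (by decide +kernel) d
  · exact good_cova 2 (by decide +kernel) d
  · exact crit 10 (by decide +kernel) (V3.good_chw _ _ t12_3_10) (V3.good_chw _ _ t12_3_11) d
  · exact crit0 14 (by decide +kernel) (V3.good_chw _ _ t12_4_14) d
  · exact crit 17 (by decide +kernel) (V3.good_chw _ _ t12_5_17) (V3.good_chw _ _ t12_5_18) d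
  · exact crit 20 (by decide +kernel) (V3.good_chw _ _ t12_6_20) (V3.good_chw _ _ t12_6_21) d
  · exact crit 24 (by decide +kernel) (V3.good_chw _ _ t12_7_24) (V3.good_chw _ _ t12_7_25) d
  · exact crit 27 (by decide +kernel) (V3.good_chw _ _ t12_8_27) (V3.good_chw _ _ t12_8_28) d
  · exact crit 31 (by decide +kernel) (V3.good_chw _ _ t12_9_31) (V3.good_chw _ _ t12_9_32) d
  · exact crit 34 (by decide +kernel) (V3.good_chw _ _ t12_10_34) (V3.good_chw _ _ t12_10_35) d
  · exact crit 38 (by decide +kernel) (V3.good_chw _ _ t12_11_38) (V3.good_chw _ _ t12_11_39) d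
  · exact crit 41 (by decide +kernel) (V3.good_chw _ _ t12_12_41) (V3.good_chw _ _ t12_12_42) d
  · exact crit 45 (by decide +kernel) (V3.good_chw _ _ t12_13_45) (V3.good_chw _ _ t12_13_46) d
  · exact crit 48 (by decide +kernel) (V3.good_chw _ _ t12_14_48) (V3.good_chw _ _ t12_14_49) d
  · exact crit 52 (by decide +kernel) (V3.good_chw _ _ t12_15_52) (V3.good_chw _ _ t12_15_53) d
  · exact crit 55 (by decide +kernel) (V3.good_chw _ _ t12_16_55) (V3.good_chw _ _ t12_16_56) d
  · exact crit 59 (by decide +kernel) (V3.good_chw _ _ t12_17_59) (V3.good_chw _ _ t12_17_60) d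
  · exact crit 62 (by decide +kernel) (V3.good_chw _ _ t12_18_62) (V3.good_chw _ _ t12_18_63) d
  · exact crit 66 (by decide +kernel) (V3.good_chw _ _ t12_19_66) (V3.good_chw _ _ t12_19_67) d
  · exact crit 69 (by decide +kernel) (V3.good_chw _ _ t12_20_69) (V3.good_chw _ _ t12_20_70) d
  · exact crit 72 (by decide +kernel) (V3.good_chw _ _ t12_21_72) (V3.good_chw _ _ t12_21_73) d
  · exact crit 76 (by decide +kernel) (V3.good_chw _ _ t12_22_76) (V3.good_chw _ _ t12_22_77) d
  · exact crit 79 (by decide +kernel) (V3.good_chw _ _ t12_23_79) (V3.good_chw _ _ t12_23_80) d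
  · exact crit 83 (by decide +kernel) (V3.good_chw _ _ t12_24_83) (V3.good_chw _ _ t12_24_84) d
  · exact crit 86 (by decide +kernel) (V3.good_chw _ _ t12_25_86) (V3.good_chw _ _ t12_25_87) d
  · exact crit 90 (by decide +kernel) (V3.good_chw _ _ t12_26_90) (V3.good_chw _ _ t12_26_91) d
  · exact crit 93 (by decide +kernel) (V3.good_chw _ _ t12_27_93) (V3.good_chw _ _ t12_27_94) d
  · exact crit 97 (by decide +kernel) (V3.good_chw _ _ t12_28_97) (V3.good_chw _ _ t12_28_98) d
  · exact crit 100 (by decide +kernel) (V3.good_chw _ _ t12_29_100) (V3.good_chw _ _ t12_29_101) d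
  · exact crit 104 (by decide +kernel) (V3.good_chw _ _ t12_30_104) (V3.good_chw _ _ t12_30_105) d
  · exact crit 107 (by decide +kernel) (V3.good_chw _ _ t12_31_107) (V3.good_chw _ _ t12_31_108) d
  · exact crit 111 (by decide +kernel) (V3.good_chw _ _ t12_32_111) (V3.good_chw _ _ t12_32_112) d
  · exact crit 114 (by decide +kernel) (V3.good_chw _ _ t12_33_114) (V3.good_chw _ _ t12_33_115) d
  · exact crit0 118 (by decide +kernel) K12m34d118.good d
  · exact crit 121 (by decide +kernel) (V3.good_chw _ _ t12_35_121) (V3.good_chw _ _ t12_35_122) d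
  · exact crit 124 (by decide +kernel) (V3.good_chw _ _ t12_36_124) (V3.good_chw _ _ t12_36_125) d
  · exact crit 128 (by decide +kernel) (V3.good_chw _ _ t12_37_128) (V3.good_chw _ _ t12_37_129) d
  · exact crit 131 (by decide +kernel) (V3.good_chw _ _ t12_38_131) (V3.good_chw _ _ t12_38_132) d
  · exact crit 135 (by decide +kernel) (V3.good_chw _ _ t12_39_135) (V3.good_chw _ _ t12_39_136) d
  · exact crit 138 (by decide +kernel) (V3.good_chw _ _ t12_40_138) (V3.good_chw _ _ t12_40_139) d
  · exact crit 142 (by decide +kernel) (V3.good_chw _ _ t12_41_142) (V3.good_chw _ _ t12_41_143) d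
  · exact crit 145 (by decide +kernel) (V3.good_chw _ _ t12_42_145) (V3.good_chw _ _ t12_42_146) d
  · exact crit 149 (by decide +kernel) (V3.good_chw _ _ t12_43_149) (V3.good_chw _ _ t12_43_150) d
  · exact crit 152 (by decide +kernel) (V3.good_chw _ _ t12_44_152) (V3.good_chw _ _ t12_44_153) d
  · exact crit 156 (by decide +kernel) (V3.good_chw _ _ t12_45_156) (V3.good_chw _ _ t12_45_157) d
  · exact crit 159 (by decide +kernel) (V3.good_chw _ _ t12_46_159) (V3.good_chw _ _ t12_46_160) d
  · exact crit 163 (by decide +kernel) (V3.good_chw _ _ t12_47_163) (V3.good_chw _ _ t12_47_164) d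
  · exact crit 166 (by decide +kernel) (V3.good_chw _ _ t12_48_166) (V3.good_chw _ _ t12_48_167) d
  · exact crit 169 (by decide +kernel) (V3.good_chw _ _ t12_49_169) K12m49d170.good d
  · exact crit 173 (by decide +kernel) (V3.good_chw _ _ t12_50_173) (V3.good_chw _ _ t12_50_174) d

def t13_8_29 : V3.chw 13 8 29 3 [1, 1] = true := by
  decide +kernel

def t13_8_30 : V3.chw 13 8 30 2 [3] = true := by
  decide +kernel

def t13_9_32 : V3.chw 13 9 32 3 [2] = true := by
  decide +kernel

def t13_9_33 : V3.chw 13 9 33 3 [2] = true := by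
  decide +kernel

def t13_10_36 : V3.chw 13 10 36 3 [1, 1] = true := by
  decide +kernel

def t13_10_37 : V3.chw 13 10 37 3 [2] = true := by
  decide +kernel

def t13_11_39 : V3.chw 13 11 39 3 [2] = true := by
  decide +kernel

def t13_11_40 : V3.chw 13 11 40 3 [1, 1] = true := by
  decide +kernel

def t13_12_43 : V3.chw 13 12 43 3 [1, 1] = true := by
  decide +kernel

def t13_12_44 : V3.chw 13 12 44 3 [2] = true := by
  decide +kernel

def t13_13_47 : V3.chw 13 13 47 3 [1, 1012] = true := by
  decide +kernel

def t13_13_48 : V3.chw 13 13 48 3 [2] = true := by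
  decide +kernel

def t13_14_50 : V3.chw 13 14 50 3 [2] = true := by
  decide +kernel

def t13_14_51 : V3.chw 13 14 51 3 [1, 1] = true := by
  decide +kernel

def t13_15_54 : V3.chw 13 15 54 2 [1, 2, 1] = true := by
  decide +kernel

def t13_15_55 : V3.chw 13 15 55 3 [2] = true := by
  decide +kernel

def t13_16_57 : V3.chw 13 16 57 3 [2] = true := by
  decide +kernel

def t13_17_61 : V3.chw 13 17 61 3 [1, 1] = true := by
  decide +kernel

def t13_17_62 : V3.chw 13 17 62 3 [1, 1] = true := by
  decide +kernel

def t13_18_65 : V3.chw 13 18 65 3 [1, 1012] = true := by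
  decide +kernel

def t13_18_66 : V3.chw 13 18 66 3 [2] = true := by
  decide +kernel

def t13_19_68 : V3.chw 13 19 68 3 [1, 1] = true := by
  decide +kernel

def t13_19_69 : V3.chw 13 19 69 2 [1, 2, 1] = true := by
  decide +kernel

def t13_20_72 : V3.chw 13 20 72 2 [1, 2, 1] = true := by
  decide +kernel

def t13_20_73 : V3.chw 13 20 73 3 [1, 1] = true := by
  decide +kernel

def t13_22_79 : V3.chw 13 22 79 3 [1, 1] = true := by
  decide +kernel

def t13_22_80 : V3.chw 13 22 80 3 [1, 1] = true := by
  decide +kernel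

def t13_23_83 : V3.chw 13 23 83 2 [1, 2, 1] = true := by
  decide +kernel

def t13_23_84 : V3.chw 13 23 84 3 [1, 1] = true := by
  decide +kernel

def t13_24_86 : V3.chw 13 24 86 3 [1, 1] = true := by
  decide +kernel

def t13_24_87 : V3.chw 13 24 87 2 [1, 2, 1] = true := by
  decide +kernel

def t13_25_90 : V3.chw 13 25 90 2 [1, 2, 1] = true := by
  decide +kernel

def t13_25_91 : V3.chw 13 25 91 3 [1, 1] = true := by
  decide +kernel

def t13_26_95 : V3.chw 13 26 95 3 [1, 1] = true := by
  decide +kernel

def t13_27_97 : V3.chw 13 27 97 2 [1, 2, 1] = true := by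
  decide +kernel

def t13_27_98 : V3.chw 13 27 98 2 [1, 2, 1] = true := by
  decide +kernel

def t13_28_101 : V3.chw 13 28 101 2 [1, 2, 1] = true := by
  decide +kernel

def t13_28_102 : V3.chw 13 28 102 3 [1, 1] = true := by
  decide +kernel

def t13_29_104 : V3.chw 13 29 104 3 [1, 1] = true := by
  decide +kernel

def t13_29_105 : V3.chw 13 29 105 2 [1, 2, 1] = true := by
  decide +kernel

def t13_30_108 : V3.chw 13 30 108 2 [1, 2, 1] = true := by
  decide +kernel

def t13_30_109 : V3.chw 13 30 109 2 [1, 1, 2] = true := by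
  decide +kernel

def t13_31_113 : V3.chw 13 31 113 3 [1, 1] = true := by
  decide +kernel

def t13_32_115 : V3.chw 13 32 115 2 [1, 2, 1] = true := by
  decide +kernel

def t13_32_116 : V3.chw 13 32 116 2 [1, 2, 1] = true := by
  decide +kernel

def t13_33_119 : V3.chw 13 33 119 2 [1, 2, 1] = true := by
  decide +kernel

def t13_33_120 : V3.chw 13 33 120 3 [1, 1] = true := by
  decide +kernel

def t13_34_122 : V3.chw 13 34 122 3 [1, 1] = true := by
  decide +kernel

def t13_34_123 : V3.chw 13 34 123 3 [1009, 1010, 1012] = true := by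
  decide +kernel

def t13_35_126 : V3.chw 13 35 126 2 [1, 2, 1] = true := by
  decide +kernel

def t13_35_127 : V3.chw 13 35 127 2 [1, 2, 1] = true := by
  decide +kernel

def t13_36_131 : V3.chw 13 36 131 3 [1, 1] = true := by
  decide +kernel

def t13_37_133 : V3.chw 13 37 133 2 [1, 2, 1] = true := by
  decide +kernel

def t13_37_134 : V3.chw 13 37 134 2 [1, 2, 1] = true := by
  decide +kernel

def t13_38_137 : V3.chw 13 38 137 2 [1, 2, 1] = true := by
  decide +kernel

def t13_38_138 : V3.chw 13 38 138 2 [1, 1, 2] = true := by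
  decide +kernel

def t13_39_140 : V3.chw 13 39 140 3 [1, 1] = true := by
  decide +kernel

def t13_40_144 : V3.chw 13 40 144 2 [1, 2, 1] = true := by
  decide +kernel

def t13_40_145 : V3.chw 13 40 145 2 [1, 2, 1] = true := by
  decide +kernel

def t13_41_149 : V3.chw 13 41 149 3 [1, 1] = true := by
  decide +kernel

def t13_42_151 : V3.chw 13 42 151 2 [1, 2, 1] = true := by
  decide +kernel

def t13_42_152 : V3.chw 13 42 152 2 [1, 2, 1] = true := by
  decide +kernel

def t13_43_155 : V3.chw 13 43 155 3 [1, 1012] = true := by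
  decide +kernel

def t13_43_156 : V3.chw 13 43 156 2 [1, 1009] = true := by
  decide +kernel

def t13_44_158 : V3.chw 13 44 158 2 [1, 1009] = true := by
  decide +kernel

def t13_45_162 : V3.chw 13 45 162 3 [1, 1012] = true := by
  decide +kernel

def t13_45_163 : V3.chw 13 45 163 2 [1, 1009] = true := by
  decide +kernel

def t13_46_167 : V3.chw 13 46 167 2 [1, 1009] = true := by
  decide +kernel

def t13_47_169 : V3.chw 13 47 169 2 [1, 1009] = true := by
  decide +kernel

def t13_47_170 : V3.chw 13 47 170 3 [1, 1012] = true := by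
  decide +kernel

def t13_48_173 : V3.chw 13 48 173 3 [1, 1012] = true := by
  decide +kernel

def t13_48_174 : V3.chw 13 48 174 2 [1, 1009] = true := by
  decide +kernel

def t13_49_176 : V3.chw 13 49 176 2 [1, 1009] = true := by
  decide +kernel

def t13_50_180 : V3.chw 13 50 180 3 [1, 1012] = true := by
  decide +kernel

def t13_50_181 : V3.chw 13 50 181 2 [1, 1009] = true := by
  decide +kernel

theorem R13 {K : Type*} [Field K] [CharZero K] (m d : ℕ) (h : m ≤ 50) : MR K 13 m d := by
  interval_cases m
  · exact good_cova 3 (by decide +kernel) d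
  · exact good_cova 3 (by decide +kernel) d
  · exact good_cova 3 (by decide +kernel) d
  · exact good_cova 3 (by decide +kernel) d
  · exact good_cova 3 (by decide +kernel) d
  · exact good_cova 3 (by decide +kernel) d
  · exact good_cova 3 (by decide +kernel) d
  · exact good_cova 3 (by decide +kernel) d
  · exact crit 29 (by decide +kernel) (V3.good_chw _ _ t13_8_29) (V3.good_chw _ _ t13_8_30) d
  · exact crit 32 (by decide +kernel) (V3.good_chw _ _ t13_9_32) (V3.good_chw _ _ t13_9_33) d
  · exact crit 36 (by decide +kernel) (V3.good_chw _ _ t13_10_36) (V3.good_chw _ _ t13_10_37) d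
  · exact crit 39 (by decide +kernel) (V3.good_chw _ _ t13_11_39) (V3.good_chw _ _ t13_11_40) d
  · exact crit 43 (by decide +kernel) (V3.good_chw _ _ t13_12_43) (V3.good_chw _ _ t13_12_44) d
  · exact crit 47 (by decide +kernel) (V3.good_chw _ _ t13_13_47) (V3.good_chw _ _ t13_13_48) d
  · exact crit 50 (by decide +kernel) (V3.good_chw _ _ t13_14_50) (V3.good_chw _ _ t13_14_51) d
  · exact crit 54 (by decide +kernel) (V3.good_chw _ _ t13_15_54) (V3.good_chw _ _ t13_15_55) d
  · exact crit 57 (by decide +kernel) (V3.good_chw _ _ t13_16_57) K13m16d58.good d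
  · exact crit 61 (by decide +kernel) (V3.good_chw _ _ t13_17_61) (V3.good_chw _ _ t13_17_62) d
  · exact crit 65 (by decide +kernel) (V3.good_chw _ _ t13_18_65) (V3.good_chw _ _ t13_18_66) d
  · exact crit 68 (by decide +kernel) (V3.good_chw _ _ t13_19_68) (V3.good_chw _ _ t13_19_69) d
  · exact crit 72 (by decide +kernel) (V3.good_chw _ _ t13_20_72) (V3.good_chw _ _ t13_20_73) d
  · exact crit0 76 (by decide +kernel) K13m21d76.good d
  · exact crit 79 (by decide +kernel) (V3.good_chw _ _ t13_22_79) (V3.good_chw _ _ t13_22_80) d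
  · exact crit 83 (by decide +kernel) (V3.good_chw _ _ t13_23_83) (V3.good_chw _ _ t13_23_84) d
  · exact crit 86 (by decide +kernel) (V3.good_chw _ _ t13_24_86) (V3.good_chw _ _ t13_24_87) d
  · exact crit 90 (by decide +kernel) (V3.good_chw _ _ t13_25_90) (V3.good_chw _ _ t13_25_91) d
  · exact crit 94 (by decide +kernel) K13m26d94.good (V3.good_chw _ _ t13_26_95) d
  · exact crit 97 (by decide +kernel) (V3.good_chw _ _ t13_27_97) (V3.good_chw _ _ t13_27_98) d
  · exact crit 101 (by decide +kernel) (V3.good_chw _ _ t13_28_101) (V3.good_chw _ _ t13_28_102) d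
  · exact crit 104 (by decide +kernel) (V3.good_chw _ _ t13_29_104) (V3.good_chw _ _ t13_29_105) d
  · exact crit 108 (by decide +kernel) (V3.good_chw _ _ t13_30_108) (V3.good_chw _ _ t13_30_109) d
  · exact crit 112 (by decide +kernel) K13m31d112.good (V3.good_chw _ _ t13_31_113) d
  · exact crit 115 (by decide +kernel) (V3.good_chw _ _ t13_32_115) (V3.good_chw _ _ t13_32_116) d
  · exact crit 119 (by decide +kernel) (V3.good_chw _ _ t13_33_119) (V3.good_chw _ _ t13_33_120) d
  · exact crit 122 (by decide +kernel) (V3.good_chw _ _ t13_34_122) (V3.good_chw _ _ t13_34_123) d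
  · exact crit 126 (by decide +kernel) (V3.good_chw _ _ t13_35_126) (V3.good_chw _ _ t13_35_127) d
  · exact crit 130 (by decide +kernel) K13m36d130.good (V3.good_chw _ _ t13_36_131) d
  · exact crit 133 (by decide +kernel) (V3.good_chw _ _ t13_37_133) (V3.good_chw _ _ t13_37_134) d
  · exact crit 137 (by decide +kernel) (V3.good_chw _ _ t13_38_137) (V3.good_chw _ _ t13_38_138) d
  · exact crit 140 (by decide +kernel) (V3.good_chw _ _ t13_39_140) K13m39d141.good d
  · exact crit 144 (by decide +kernel) (V3.good_chw _ _ t13_40_144) (V3.good_chw _ _ t13_40_145) d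
  · exact crit 148 (by decide +kernel) K13m41d148.good (V3.good_chw _ _ t13_41_149) d
  · exact crit 151 (by decide +kernel) (V3.good_chw _ _ t13_42_151) (V3.good_chw _ _ t13_42_152) d
  · exact crit 155 (by decide +kernel) (V3.good_chw _ _ t13_43_155) (V3.good_chw _ _ t13_43_156) d
  · exact crit 158 (by decide +kernel) (V3.good_chw _ _ t13_44_158) K13m44d159.good d
  · exact crit 162 (by decide +kernel) (V3.good_chw _ _ t13_45_162) (V3.good_chw _ _ t13_45_163) d
  · exact crit 166 (by decide +kernel) K13m46d166.good (V3.good_chw _ _ t13_46_167) d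
  · exact crit 169 (by decide +kernel) (V3.good_chw _ _ t13_47_169) (V3.good_chw _ _ t13_47_170) d
  · exact crit 173 (by decide +kernel) (V3.good_chw _ _ t13_48_173) (V3.good_chw _ _ t13_48_174) d
  · exact crit 176 (by decide +kernel) (V3.good_chw _ _ t13_49_176) K13m49d177.good d
  · exact crit 180 (by decide +kernel) (V3.good_chw _ _ t13_50_180) (V3.good_chw _ _ t13_50_181) d

end Pool.Agent.Helper54.FM
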